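import Pool.Agent.P.MP_e3ee0c_gt.Pass

open Set Filter Topology Matrix MeasureTheory

namespace Pool.Agent.P.MP_e3ee0c_gt

variable {k : ℕ}

/-- The half open unit cube. -/
def cube (k : ℕ) : Set (Fin k → ℝ) := ZSpan.fundamentalDomain (Pi.basisFun ℝ (Fin k))

theorem cube_meas : MeasurableSet (cube k) := ZSpan.fundamentalDomain_measurableSet _

theorem cube_sub : cube k ⊆ Metric.closedBall 0 1 := by
  intro t ht
  rw [mem_closedBall_zero_iff, pi_norm_le_iff_of_nonneg zero_le_one]
  intro i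
  have := ht i
  simp only [Pi.basisFun_repr, mem_Ico] at this
  rw [Real.norm_eq_abs, abs_le]
  constructor <;> linarith [this.1, this.2]

theorem cube_fin : volume (cube k) < ⊤ :=
  (measure_mono cube_sub).trans_lt (isCompact_closedBall _ _).measure_lt_top

theorem cube_pos : volume (cube k) ≠ 0 := ZSpan.measure_fundamentalDomain_ne_zero _

theorem cube_real : volume.real (cube k) = 1 := by
  rw [cube, ZSpan.volume_real_fundamentalDomain]
  have : Matrix.of (Pi.basisFun ℝ (Fin k)) = 1 := by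
    ext i j; simp [Matrix.one_apply, Pi.single_apply, eq_comm]
  rw [this]; simp

theorem mem_lat {g : Fin k → ℝ} :
    g ∈ Submodule.span ℤ (range (Pi.basisFun ℝ (Fin k))) ↔ ∃ m : Fin k → ℤ, g = rv m := by
  rw [Module.Basis.mem_span_iff_repr_mem]
  simp only [Pi.basisFun_repr, mem_range, eq_intCast]
  constructor
  · intro h
    choose m hm using h
    exact ⟨m, funext fun i => (hm i).symm⟩
  · rintro ⟨m, rfl⟩ i
    exact ⟨m i, rfl⟩

theorem lat_inv : VAddInvariantMeasure (Submodule.span ℤ (range (Pi.basisFun ℝ (Fin k))))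
    (Fin k → ℝ) volume :=
  ⟨fun c s _ => measure_preimage_add volume c.1 s⟩

theorem integrableOn_cube {B : Type*} [NormedAddCommGroup B] {f : (Fin k → ℝ) → B}
    (hf : Continuous f) : IntegrableOn f (cube k) :=
  (hf.continuousOn.integrableOn_compact (isCompact_closedBall 0 1)).mono_set cube_sub

variable {B : Type*} [NormedAddCommGroup B] [NormedSpace ℝ B]

theorem avg_translate {f : (Fin k → ℝ) → B} (hf : ∀ (m : Fin k → ℤ) t, f (rv m + t) = f t)
    (s : Fin k → ℝ) : ∫ t in cube k, f (s + t) = ∫ t in cube k, f t := by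
  have h1 := ZSpan.isAddFundamentalDomain (Pi.basisFun ℝ (Fin k)) volume
  have h2 := h1.vadd_of_comm s
  have := lat_inv (k := k)
  have h3 := h2.setIntegral_eq h1 (f := f) (by
    rintro ⟨g, hg⟩ x
    obtain ⟨m, rfl⟩ := mem_lat.1 hg
    exact hf m x)
  rw [cube, ← h3]
  exact ((measurePreserving_add_left volume s).setIntegral_image_emb
    (MeasurableEquiv.addLeft s).measurableEmbedding f _).symm

theorem rv_mulVec (A : Matrix (Fin k) (Fin k) ℤ) (m : Fin k → ℤ) :
    A.map (Int.cast : ℤ → ℝ) *ᵥ rv m = rv (A *ᵥ m) := by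
  funext i
  simp [rv, mulVec, dotProduct]

theorem avg_linear {f : (Fin k → ℝ) → B} (hf : ∀ (m : Fin k → ℤ) t, f (rv m + t) = f t)
    (A : GL (Fin k) ℤ) :
    ∫ t in cube k, f ((A : Matrix (Fin k) (Fin k) ℤ).map (Int.cast : ℤ → ℝ) *ᵥ t) =
      ∫ t in cube k, f t := by
  set P : Matrix (Fin k) (Fin k) ℝ := (A : Matrix (Fin k) (Fin k) ℤ).map (Int.cast : ℤ → ℝ) with hP
  set Q : Matrix (Fin k) (Fin k) ℝ := ((A⁻¹ : GL (Fin k) ℤ) : Matrix (Fin k) (Fin k) ℤ).map
    (Int.cast : ℤ → ℝ) with hQ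
  have hPQ : P * Q = 1 := by
    rw [hP, hQ, ← Matrix.map_mul_intCast, Units.mul_inv, Matrix.map_one _ (by simp) (by simp)]
  have hQP : Q * P = 1 := by
    rw [hP, hQ, ← Matrix.map_mul_intCast, Units.inv_mul, Matrix.map_one _ (by simp) (by simp)]
  have hdet : |P.det| = 1 := by
    have h1 : IsUnit (A : Matrix (Fin k) (Fin k) ℤ).det := (Matrix.isUnit_iff_isUnit_det _).1 A.isUnit
    have h2 : P.det = ((A : Matrix (Fin k) (Fin k) ℤ).det : ℝ) := by
      rw [hP]; exact (Int.cast_det _).symm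
    rw [h2, ← Int.cast_abs, Int.isUnit_iff_abs_eq.1 h1, Int.cast_one]
  let e : (Fin k → ℝ) ≃L[ℝ] (Fin k → ℝ) :=
    (Matrix.toLin'OfInv hQP hPQ).toContinuousLinearEquiv
  have he : ∀ t, e t = P *ᵥ t := fun t => rfl
  have he' : ∀ t, e.symm t = Q *ᵥ t := fun t => rfl
  have hmp : MeasurePreserving e volume volume := by
    refine ⟨e.continuous.measurable, ?_⟩
    have := Real.map_matrix_volume_pi_eq_smul_volume_pi (M := P) (by
      intro h; simp [h] at hdet)
    rw [abs_inv, hdet] at this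
    simp only [inv_one, ENNReal.ofReal_one, one_smul] at this
    exact this
  have h1 := ZSpan.isAddFundamentalDomain (Pi.basisFun ℝ (Fin k)) volume
  let l : Submodule.span ℤ (range (Pi.basisFun ℝ (Fin k))) ≃
      Submodule.span ℤ (range (Pi.basisFun ℝ (Fin k))) :=
    { toFun := fun g => ⟨Q *ᵥ g.1, by
        obtain ⟨m, hm⟩ := mem_lat.1 g.2
        rw [hm, hQ, rv_mulVec]; exact mem_lat.2 ⟨_, rfl⟩⟩
      invFun := fun g => ⟨P *ᵥ g.1, by
        obtain ⟨m, hm⟩ := mem_lat.1 g.2
        rw [hm, hP, rv_mulVec]; exact mem_lat.2 ⟨_, rfl⟩⟩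
      left_inv := fun g => by simp [mulVec_mulVec, hPQ]
      right_inv := fun g => by simp [mulVec_mulVec, hQP] }
  have h2 := h1.image_of_equiv (ν := volume) e.toEquiv
    (hmp.symm e.toHomeomorph.toMeasurableEquiv).quasiMeasurePreserving l (by
      intro g x
      show e (Q *ᵥ g.1 + x) = g.1 + e x
      rw [map_add, he, mulVec_mulVec, hPQ, one_mulVec])
  have := lat_inv (k := k)
  have h3 := h2.setIntegral_eq h1 (f := f) (by
    rintro ⟨g, hg⟩ x
    obtain ⟨m, rfl⟩ := mem_lat.1 hg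
    exact hf m x)
  rw [cube, ← h3]
  exact (hmp.setIntegral_image_emb e.toHomeomorph.measurableEmbedding f _).symm

theorem avg_aux {W : Type*} [NormedAddCommGroup W] [NormedSpace ℝ W]
    {g : (Fin k → ℝ) × W → B} {w₀ : W}
    (hg : ∀ t ∈ Metric.closedBall (0 : Fin k → ℝ) 1, ContDiffAt ℝ 1 g (t, w₀)) :
    ∃ C, ∀ᶠ w in 𝓝 w₀, ∀ t ∈ Metric.closedBall (0 : Fin k → ℝ) 1,
      ContDiffAt ℝ 1 g (t, w) ∧ ‖fderiv ℝ g (t, w)‖ < C := by
  have hc : ∀ t ∈ Metric.closedBall (0 : Fin k → ℝ) 1, ContinuousAt (fderiv ℝ g) (t, w₀) :=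
    fun t ht => ((hg t ht).fderiv_right (m := 0) (by simp)).continuousAt
  have hc0 : ContinuousOn (fun t => fderiv ℝ g (t, w₀)) (Metric.closedBall 0 1) := fun t ht =>
    (ContinuousAt.comp (f := fun t => (t, w₀)) (hc t ht) (by fun_prop)).continuousWithinAt
  obtain ⟨C, hC⟩ := (isCompact_closedBall (0 : Fin k → ℝ) 1).exists_bound_of_continuousOn hc0
  refine ⟨C + 1, (isCompact_closedBall _ _).eventually_forall_of_forall_eventually fun t ht => ?_⟩
  have h1 : ∀ᶠ z in 𝓝 (t, w₀), ContDiffAt ℝ 1 g z ∧ ‖fderiv ℝ g z‖ < C + 1 :=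
    ((hg t ht).eventually (by simp)).and
      ((hc t ht).norm.eventually_lt continuousAt_const (by linarith [hC t ht]))
  exact (continuousAt_snd.prodMk continuousAt_fst :
    ContinuousAt (fun z : W × (Fin k → ℝ) => (z.2, z.1)) (w₀, t)).eventually h1

theorem avg_int {W : Type*} [NormedAddCommGroup W] [NormedSpace ℝ W]
    {g : (Fin k → ℝ) × W → B} {w : W}
    (hg : ∀ t ∈ Metric.closedBall (0 : Fin k → ℝ) 1, ContDiffAt ℝ 1 g (t, w)) :
    IntegrableOn (fun t => g (t, w)) (cube k) ∧ IntegrableOn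
      (fun t => (fderiv ℝ g (t, w)).comp (ContinuousLinearMap.inr ℝ _ W)) (cube k) := by
  constructor
  · exact (ContinuousOn.integrableOn_compact (isCompact_closedBall 0 1) fun t ht =>
      (ContinuousAt.comp (f := fun t => (t, w)) (hg t ht).continuousAt
        (by fun_prop)).continuousWithinAt).mono_set cube_sub
  · exact (ContinuousOn.integrableOn_compact (isCompact_closedBall 0 1) fun t ht =>
      ((ContinuousAt.comp (f := fun t => (t, w))
        ((hg t ht).fderiv_right (m := 0) (by simp)).continuousAt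
        (by fun_prop)).clm_comp continuousAt_const).continuousWithinAt).mono_set cube_sub

theorem norm_comp_inr_le {W : Type*} [NormedAddCommGroup W] [NormedSpace ℝ W]
    (f : ((Fin k → ℝ) × W) →L[ℝ] B) : ‖f.comp (ContinuousLinearMap.inr ℝ _ W)‖ ≤ ‖f‖ := by
  refine (ContinuousLinearMap.opNorm_comp_le _ _).trans ?_
  have h2 := ContinuousLinearMap.norm_inr_le_one (𝕜 := ℝ) (E := Fin k → ℝ) (F := W)
  nlinarith [norm_nonneg f, norm_nonneg (ContinuousLinearMap.inr ℝ (Fin k → ℝ) W)]

theorem avg_hasFDerivAt {W : Type*} [NormedAddCommGroup W] [NormedSpace ℝ W]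
    {g : (Fin k → ℝ) × W → B} {w₀ : W}
    (hg : ∀ t ∈ Metric.closedBall (0 : Fin k → ℝ) 1, ContDiffAt ℝ 1 g (t, w₀)) :
    HasFDerivAt (fun w => ∫ t in cube k, g (t, w))
      (∫ t in cube k, (fderiv ℝ g (t, w₀)).comp (ContinuousLinearMap.inr ℝ _ W)) w₀ := by
  obtain ⟨C, hev⟩ := avg_aux hg
  have : IsFiniteMeasure (volume.restrict (cube k)) := ⟨by simpa using cube_fin⟩
  refine hasFDerivAt_integral_of_dominated_of_fderiv_le (μ := volume.restrict (cube k))
    (F := fun w t => g (t, w))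
    (F' := fun w t => (fderiv ℝ g (t, w)).comp (ContinuousLinearMap.inr ℝ _ W))
    (bound := fun _ => C) hev ?_ (avg_int hg).1 (avg_int hg).2.aestronglyMeasurable ?_
    (integrable_const _) ?_
  · exact hev.mono fun w hw => (avg_int fun t ht => (hw t ht).1).1.aestronglyMeasurable
  · refine (ae_restrict_iff' cube_meas).2 (Eventually.of_forall fun t ht w hw => ?_)
    exact (norm_comp_inr_le _).trans (hw t (cube_sub ht)).2.le
  · refine (ae_restrict_iff' cube_meas).2 (Eventually.of_forall fun t ht w hw => ?_)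
    exact ((hw t (cube_sub ht)).1.differentiableAt (by simp)).hasFDerivAt.comp w
      (hasFDerivAt_prodMk_right t w)

theorem avg_hasStrictFDerivAt {W : Type*} [NormedAddCommGroup W] [NormedSpace ℝ W]
    {g : (Fin k → ℝ) × W → B} {w₀ : W}
    (hg : ∀ t ∈ Metric.closedBall (0 : Fin k → ℝ) 1, ContDiffAt ℝ 1 g (t, w₀)) :
    HasStrictFDerivAt (fun w => ∫ t in cube k, g (t, w))
      (∫ t in cube k, (fderiv ℝ g (t, w₀)).comp (ContinuousLinearMap.inr ℝ _ W)) w₀ := by
  obtain ⟨C, hev⟩ := avg_aux hg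
  have : IsFiniteMeasure (volume.restrict (cube k)) := ⟨by simpa using cube_fin⟩
  refine hasStrictFDerivAt_of_hasFDerivAt_of_continuousAt
    (f' := fun w => ∫ t in cube k, (fderiv ℝ g (t, w)).comp (ContinuousLinearMap.inr ℝ _ W))
    (hev.mono fun w hw => avg_hasFDerivAt fun t ht => (hw t ht).1) ?_
  refine continuousAt_of_dominated (bound := fun _ => C) ?_ ?_ (integrable_const _) ?_
  · exact hev.mono fun w hw => (avg_int fun t ht => (hw t ht).1).2.aestronglyMeasurable
  · refine hev.mono fun w hw => (ae_restrict_iff' cube_meas).2 (Eventually.of_forall fun t ht => ?_)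
    exact (norm_comp_inr_le _).trans (hw t (cube_sub ht)).2.le
  · refine (ae_restrict_iff' cube_meas).2 (Eventually.of_forall fun t ht => ?_)
    exact (ContinuousAt.comp (f := fun w => (t, w))
      ((hg t (cube_sub ht)).fderiv_right (m := 0) (by simp)).continuousAt
      (by fun_prop)).clm_comp continuousAt_const

theorem avg_deriv_zero {f : (Fin k → ℝ) → ℝ} (hf : ∀ (m : Fin k → ℤ) t, f (rv m + t) = f t)
    (hd : ContDiff ℝ 1 f) (ξ : Fin k → ℝ) : ∫ t in cube k, fderiv ℝ f t ξ = 0 := by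
  have h1 := avg_hasFDerivAt (g := fun z : (Fin k → ℝ) × (Fin k → ℝ) => f (z.2 + z.1)) (w₀ := 0)
    (fun t _ => (hd.comp (contDiff_snd.add contDiff_fst)).contDiffAt)
  have h2 : (fun w => ∫ t in cube k, f (w + t)) = fun _ => ∫ t in cube k, f t :=
    funext fun w => avg_translate hf w
  simp only [h2] at h1
  have h3 := h1.unique (hasFDerivAt_const _ _)
  have h4 : ∀ t, (fderiv ℝ (fun z : (Fin k → ℝ) × (Fin k → ℝ) => f (z.2 + z.1)) (t, 0)).comp
      (ContinuousLinearMap.inr ℝ _ _) = fderiv ℝ f t := by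
    intro t
    have h5 : HasFDerivAt (fun z : (Fin k → ℝ) × (Fin k → ℝ) => f (z.2 + z.1))
        ((fderiv ℝ f t).comp (ContinuousLinearMap.snd ℝ _ _ + ContinuousLinearMap.fst ℝ _ _))
        (t, 0) := by
      refine HasFDerivAt.comp (t, 0) (g := f) ?_ (hasFDerivAt_snd.add hasFDerivAt_fst)
      simpa using (hd.differentiable (by simp) t).hasFDerivAt
    rw [h5.fderiv]
    ext v; simp
  simp only [h4] at h3
  rw [← ContinuousLinearMap.integral_apply (integrableOn_cube (hd.continuous_fderiv (by simp))), h3]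
  rfl

theorem avg_ne_zero {f : (Fin k → ℝ) → ℝ} (hf : Continuous f) (h0 : ∀ t, f t ≠ 0) :
    ∫ t in cube k, f t ≠ 0 := by
  wlog h : 0 < f 0 generalizing f
  · have := this (f := fun t => -f t) hf.neg (fun t => neg_ne_zero.2 (h0 t))
      (by have := h0 0; push Not at h; exact neg_pos.2 (lt_of_le_of_ne h this))
    rwa [integral_neg, neg_ne_zero] at this
  have hpos : ∀ t, 0 < f t := by
    intro t
    by_contra hn
    obtain ⟨s, hs⟩ := intermediate_value_univ t 0 hf ⟨not_lt.1 hn, h.le⟩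
    exact h0 s hs
  refine ne_of_gt ?_
  rw [setIntegral_pos_iff_support_of_nonneg_ae (Eventually.of_forall fun t => (hpos t).le)
    (integrableOn_cube hf)]
  have : Function.support f = univ := eq_univ_of_forall fun t => h0 t
  rw [this, univ_inter]
  exact pos_iff_ne_zero.2 cube_pos

end Pool.Agent.P.MP_e3ee0c_gt
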