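import Pool.Agent.P.MP_e3ee0c_gt.Defs

open Manifold Set Filter Topology
open scoped ContDiff

namespace Pool.Agent.P.MP_e3ee0c_gt

section dif

variable {E F G : Type*} [NormedAddCommGroup E] [NormedSpace ℝ E] [NormedAddCommGroup F]
  [NormedSpace ℝ F] [NormedAddCommGroup G] [NormedSpace ℝ G]
  {M N P : Type*} [TopologicalSpace M] [TopologicalSpace N] [TopologicalSpace P]
  [ChartedSpace E M] [ChartedSpace F N] [ChartedSpace G P]

theorem dif_comp {g : N → P} {f : M → N} {x : M}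
    (hg : MDifferentiableAt 𝓘(ℝ, F) 𝓘(ℝ, G) g (f x)) (hf : MDifferentiableAt 𝓘(ℝ, E) 𝓘(ℝ, F) f x) :
    dif E G (fun y => g (f y)) x = (dif F G g (f x)).comp (dif E F f x) :=
  mfderiv_comp x hg hf

theorem dif_congr {f g : M → N} {x : M} (h : f =ᶠ[𝓝 x] g) : dif E F f x = dif E F g x :=
  h.mfderiv_eq

theorem dif_fderiv (f : E → F) (x : E) : dif E F f x = fderiv ℝ f x := mfderiv_eq_fderiv

theorem hasMF_dif {f : M → N} {x : M} (hf : MDifferentiableAt 𝓘(ℝ, E) 𝓘(ℝ, F) f x) :
    HasMFDerivAt 𝓘(ℝ, E) 𝓘(ℝ, F) f x (dif E F f x) := hf.hasMFDerivAt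

variable [IsManifold 𝓘(ℝ, E) ∞ M]

theorem chart_smooth (p : M) {q : M} (hq : q ∈ (chartAt E p).source) :
    ContMDiffAt 𝓘(ℝ, E) 𝓘(ℝ, E) ∞ (chartAt E p) q :=
  contMDiffOn_chart.contMDiffAt ((chartAt E p).open_source.mem_nhds hq)

theorem chart_symm_smooth (p : M) {z : E} (hz : z ∈ (chartAt E p).target) :
    ContMDiffAt 𝓘(ℝ, E) 𝓘(ℝ, E) ∞ (chartAt E p).symm z :=
  contMDiffOn_chart_symm.contMDiffAt ((chartAt E p).open_target.mem_nhds hz)

theorem dif_chart_self (p : M) : dif E E (chartAt E p) p = ContinuousLinearMap.id ℝ E :=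
  mfderiv_extChartAt_self (I := 𝓘(ℝ, E)) (x := p)

theorem dif_symm_chart (p : M) {q : M} (hq : q ∈ (chartAt E p).source) (v : E) :
    dif E E (chartAt E p).symm (chartAt E p q) (dif E E (chartAt E p) q v) = v :=
  congrArg (fun L : E →L[ℝ] E => L v)
    ((mdifferentiable_chart (I := 𝓘(ℝ, E)) p).symm_comp_deriv hq)

theorem dif_chart_symm_self (p : M) (v : E) :
    dif E E (chartAt E p).symm (chartAt E p p) v = v := by
  have := dif_symm_chart p (mem_chart_source E p) v
  rwa [dif_chart_self] at this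

theorem chartForm_apply (σ : M → E →L[ℝ] E →L[ℝ] ℝ) (p : M) {q : M}
    (hq : q ∈ (chartAt E p).source) (u v : E) :
    chartForm σ p (chartAt E p q) (dif E E (chartAt E p) q u) (dif E E (chartAt E p) q v) =
      σ q u v := by
  simp only [chartForm, ContinuousLinearMap.bilinearComp_apply, dif_symm_chart p hq,
    (chartAt E p).left_inv hq]

theorem chartForm_self (σ : M → E →L[ℝ] E →L[ℝ] ℝ) (p : M) :
    chartForm σ p (chartAt E p p) = σ p := by
  ext u v
  have := chartForm_apply σ p (mem_chart_source E p) u v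
  rwa [dif_chart_self] at this

omit [IsManifold 𝓘(ℝ, E) ∞ M] in
theorem chartField_apply (Y : M → E) (p : M) {q : M} (hq : q ∈ (chartAt E p).source) :
    chartField Y p (chartAt E p q) = dif E E (chartAt E p) q (Y q) := by
  simp only [chartField, (chartAt E p).left_inv hq]

theorem chartField_self (Y : M → E) (p : M) : chartField Y p (chartAt E p p) = Y p := by
  rw [chartField_apply Y p (mem_chart_source E p), dif_chart_self]; rfl

/-- The Liouville form in the chart at p. -/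
noncomputable def lamHat (σ : M → E →L[ℝ] E →L[ℝ] ℝ) (Y : M → E) (p : M) (z : E) : E →L[ℝ] ℝ :=
  chartForm σ p z (chartField Y p z)

theorem lam_d {σ : M → E →L[ℝ] E →L[ℝ] ℝ} (hσ : IsSymplectic σ) {Y : M → E} {p : M}
    (hY : ContDiffAt ℝ ∞ (chartField Y p) (chartAt E p p))
    (hL : ∀ u v, fderiv ℝ (chartForm σ p) (chartAt E p p) (Y p) u v +
        σ p (fderiv ℝ (chartField Y p) (chartAt E p p) u) v +
        σ p u (fderiv ℝ (chartField Y p) (chartAt E p p) v) = σ p u v) :
    ContDiffAt ℝ ∞ (lamHat σ Y p) (chartAt E p p) ∧ ∀ u v,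
      fderiv ℝ (lamHat σ Y p) (chartAt E p p) u v - fderiv ℝ (lamHat σ Y p) (chartAt E p p) v u =
        σ p u v := by
  have hs := hσ.smooth p
  refine ⟨hs.clm_apply hY, fun u v => ?_⟩
  have d1 := hs.differentiableAt (by simp)
  have d2 := hY.differentiableAt (by simp)
  have hD := (d1.hasFDerivAt.clm_apply d2.hasFDerivAt).fderiv
  have skew : ∀ w a b, fderiv ℝ (chartForm σ p) (chartAt E p p) w a b =
      -fderiv ℝ (chartForm σ p) (chartAt E p p) w b a := by
    intro w a b
    have h1 := (d1.hasFDerivAt.clm_apply (hasFDerivAt_const a _)).clm_apply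
      (hasFDerivAt_const b _)
    have h2 := ((d1.hasFDerivAt.clm_apply (hasFDerivAt_const b _)).clm_apply
      (hasFDerivAt_const a _)).neg
    have h3 : (fun z => chartForm σ p z a b) = -fun z => chartForm σ p z b a := by
      funext z
      simp only [chartForm, ContinuousLinearMap.bilinearComp_apply, Pi.neg_apply]
      exact hσ.skew _ _ _
    rw [h3] at h1
    have := congrArg (fun L : E →L[ℝ] ℝ => L w) (h1.unique h2)
    simpa using this
  have e1 : ∀ u v, fderiv ℝ (lamHat σ Y p) (chartAt E p p) u v =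
      σ p (fderiv ℝ (chartField Y p) (chartAt E p p) u) v +
        fderiv ℝ (chartForm σ p) (chartAt E p p) u (Y p) v := by
    intro u v
    have : lamHat σ Y p = fun z => chartForm σ p z (chartField Y p z) := rfl
    rw [this, hD]
    simp [chartForm_self, chartField_self]
  rw [e1, e1]
  have c := hσ.closed p (Y p) u v
  have l := hL u v
  have s1 := skew u v (Y p)
  have s2 := hσ.skew p (fderiv ℝ (chartField Y p) (chartAt E p p) v) u
  linarith

end dif

theorem pullback_d {Z E : Type*} [NormedAddCommGroup E] [NormedSpace ℝ E] [NormedAddCommGroup Z]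
    [NormedSpace ℝ Z] {G : Z → E} {lam : E → E →L[ℝ] ℝ} {z₀ : Z} (hG : ContDiffAt ℝ ∞ G z₀)
    (hl : ContDiffAt ℝ ∞ lam (G z₀)) :
    ContDiffAt ℝ 1 (fun z => (lam (G z)).comp (fderiv ℝ G z)) z₀ ∧ ∀ a b,
      fderiv ℝ (fun z => (lam (G z)).comp (fderiv ℝ G z)) z₀ a b -
        fderiv ℝ (fun z => (lam (G z)).comp (fderiv ℝ G z)) z₀ b a =
      fderiv ℝ lam (G z₀) (fderiv ℝ G z₀ a) (fderiv ℝ G z₀ b) -
        fderiv ℝ lam (G z₀) (fderiv ℝ G z₀ b) (fderiv ℝ G z₀ a) := by
  have h1 : ContDiffAt ℝ 1 (fderiv ℝ G) z₀ := hG.fderiv_right (by norm_cast)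
  have h2 : ContDiffAt ℝ 1 (fun z => lam (G z)) z₀ := (hl.comp z₀ hG).of_le (by simp)
  refine ⟨h2.clm_comp h1, fun a b => ?_⟩
  have d1 := (h1.differentiableAt (by simp)).hasFDerivAt
  have d2 : HasFDerivAt (fun z => lam (G z)) ((fderiv ℝ lam (G z₀)).comp (fderiv ℝ G z₀)) z₀ :=
    (hl.differentiableAt (by simp)).hasFDerivAt.comp z₀ (hG.differentiableAt (by simp)).hasFDerivAt
  have hs : IsSymmSndFDerivAt ℝ G z₀ := hG.isSymmSndFDerivAt (by
    rw [minSmoothness_of_isRCLikeNormedField]; norm_cast)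
  rw [(d2.clm_comp d1).fderiv]
  have := hs a b
  simp [this]

end Pool.Agent.P.MP_e3ee0c_gt
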