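import Mathlib

/-! The implicit function theorem along a compact set, and smooth cut-offs. -/

open Set Filter Topology
open scoped ContDiff

namespace Pool.Agent.Wein

variable {A X : Type*} [NormedAddCommGroup A] [NormedSpace ℝ A] [FiniteDimensional ℝ A]
  [NormedAddCommGroup X] [NormedSpace ℝ X] [FiniteDimensional ℝ X]

/-- The inverse function theorem along a compact set. -/
theorem inverse_compact (f : A → A) (O : Set A) (hO : IsOpen O) (hf : ContDiffOn ℝ ∞ f O)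
    (K : Set A) (hK : IsCompact K) (hKO : K ⊆ O) (hi : InjOn f K)
    (hd : ∀ k ∈ K, Function.Injective (fderiv ℝ f k)) :
    ∃ (W : Set A) (g : A → A), IsOpen W ∧ K ⊆ W ∧ W ⊆ O ∧ InjOn f W ∧ IsOpen (f '' W) ∧
      ContDiffOn ℝ ∞ g (f '' W) ∧ ∀ w ∈ W, g (f w) = w := by
  classical
  have hne : (∞ : WithTop ℕ∞) ≠ 0 := by simp
  have hat : ∀ w ∈ O, ContDiffAt ℝ ∞ f w := fun w hw => hf.contDiffAt (hO.mem_nhds hw)
  have hc : ContinuousOn (fderiv ℝ f) O := hf.continuousOn_fderiv_of_isOpen hO (by simp)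
  set O' := O ∩ fderiv ℝ f ⁻¹' range ((↑) : (A ≃L[ℝ] A) → A →L[ℝ] A) with hO'
  have hO'o : IsOpen O' := hc.isOpen_inter_preimage hO ContinuousLinearEquiv.isOpen
  have hKO' : K ⊆ O' := fun k hk => ⟨hKO hk,
    ⟨(LinearEquiv.ofInjectiveEndo (fderiv ℝ f k : A →ₗ[ℝ] A) (hd k hk)).toContinuousLinearEquiv,
      by ext; rfl⟩⟩
  have hD : ∀ w ∈ O', ∃ e : A ≃L[ℝ] A, HasFDerivAt f (e : A →L[ℝ] A) w := by
    rintro w ⟨hw, e, he⟩
    exact ⟨e, he ▸ ((hat w hw).differentiableAt hne).hasFDerivAt⟩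
  obtain ⟨W0, hW0, hKW0, hiW0⟩ := hi.exists_isOpen_superset hK
    (fun k hk => (hat k (hKO hk)).continuousAt) (fun k hk => by
      obtain ⟨e, he⟩ := hD k (hKO' hk)
      let φ := (hat k (hKO hk)).toOpenPartialHomeomorph f he hne
      exact ⟨φ.source, φ.open_source.mem_nhds
        ((hat k (hKO hk)).mem_toOpenPartialHomeomorph_source he hne), φ.injOn⟩)
  have hWo : IsOpen (W0 ∩ O') := hW0.inter hO'o
  have hiW : InjOn f (W0 ∩ O') := hiW0.mono inter_subset_left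
  have hl : ∀ w ∈ W0 ∩ O', Function.invFunOn f (W0 ∩ O') (f w) = w :=
    fun w hw => hiW.leftInvOn_invFunOn hw
  refine ⟨W0 ∩ O', Function.invFunOn f (W0 ∩ O'), hWo, subset_inter hKW0 hKO',
    fun w hw => hw.2.1, hiW, ?_, ?_, hl⟩
  · rw [isOpen_iff_mem_nhds]
    rintro _ ⟨w, hw, rfl⟩
    obtain ⟨e, he⟩ := hD w hw.2
    rw [← ((hat w hw.2.1).hasStrictFDerivAt' he hne).map_nhds_eq_of_equiv]
    exact image_mem_map (hWo.mem_nhds hw)
  · rintro _ ⟨w, hw, rfl⟩
    obtain ⟨e, he⟩ := hD w hw.2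
    refine (((hat w hw.2.1).to_localInverse he hne).congr_of_eventuallyEq ?_).contDiffWithinAt
    exact ((hat w hw.2.1).hasStrictFDerivAt' he hne).localInverse_unique
      (Filter.mem_of_superset (hWo.mem_nhds hw) hl)

theorem implicit_compact (G : A × X → X) (O : Set (A × X)) (hO : IsOpen O)
    (hG : ContDiffOn ℝ ∞ G O) (K : Set A) (hK : IsCompact K) (s : A → X) (hs : ContinuousOn s K)
    (hmem : ∀ k ∈ K, (k, s k) ∈ O) (h0 : ∀ k ∈ K, G (k, s k) = 0)
    (hinj : ∀ k ∈ K, ∀ v, fderiv ℝ G (k, s k) (0, v) = 0 → v = 0) :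
    ∃ (U : Set A) (W : Set (A × X)) (p : A → X), IsOpen U ∧ K ⊆ U ∧ IsOpen W ∧ W ⊆ O ∧
      (∀ k ∈ K, (k, s k) ∈ W) ∧ ContDiffOn ℝ ∞ p U ∧
      (∀ k ∈ U, (k, p k) ∈ W ∧ G (k, p k) = 0) ∧
      ∀ k v, (k, v) ∈ W → G (k, v) = 0 → k ∈ U ∧ v = p k := by
  obtain ⟨W, g, hW, hKW, hWO, hi, hfW, hg, hl⟩ :=
    inverse_compact (fun w : A × X => (w.1, G w)) O hO (contDiffOn_fst.prodMk hG)
      ((fun k => (k, s k)) '' K) (hK.image_of_continuousOn (continuousOn_id.prodMk hs))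
      (by rintro _ ⟨k, hk, rfl⟩; exact hmem k hk)
      (by
        rintro _ ⟨k, -, rfl⟩ _ ⟨k', -, rfl⟩ h
        have : k = k' := congrArg Prod.fst h
        rw [this])
      (by
        rintro _ ⟨k, hk, rfl⟩
        have hd : HasFDerivAt G (fderiv ℝ G (k, s k)) (k, s k) :=
          ((hG.contDiffAt (hO.mem_nhds (hmem k hk))).differentiableAt (by simp)).hasFDerivAt
        rw [(hasFDerivAt_fst.prodMk hd).fderiv, injective_iff_map_eq_zero]
        rintro ⟨a, v⟩ h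
        have h1 : a = 0 := congrArg Prod.fst h
        have h2 : fderiv ℝ G (k, s k) (a, v) = 0 := congrArg Prod.snd h
        subst h1
        rw [hinj k hk v h2]; rfl)
  have hc : ContDiff ℝ ∞ (fun k : A => (k, (0 : X))) := contDiff_id.prodMk contDiff_const
  refine ⟨(fun k : A => (k, (0 : X))) ⁻¹' ((fun w : A × X => (w.1, G w)) '' W), W,
    fun k => (g (k, 0)).2, hfW.preimage hc.continuous,
    fun k hk => ⟨(k, s k), hKW ⟨k, hk, rfl⟩, by simp [h0 k hk]⟩, hW, hWO,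
    fun k hk => hKW ⟨k, hk, rfl⟩,
    contDiff_snd.comp_contDiffOn (hg.comp hc.contDiffOn fun k hk => hk), ?_, ?_⟩
  · rintro k ⟨⟨a, v⟩, hw, e⟩
    have h1 : a = k := congrArg Prod.fst e
    have h2 : G (a, v) = 0 := congrArg Prod.snd e
    have h3 := hl _ hw
    subst h1
    simp only [h2] at h3
    simp only [h3]
    exact ⟨hw, h2⟩
  · intro k v hw h
    refine ⟨⟨(k, v), hw, by simp [h]⟩, ?_⟩
    have h3 := hl _ hw
    simp only [h] at h3
    simp only [h3]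

/-- A smooth bump with compact support in O that equals 1 near the compact set K. -/
theorem exists_bump (K O : Set A) (hK : IsCompact K) (hO : IsOpen O) (hKO : K ⊆ O) :
    ∃ χ : A → ℝ, ContDiff ℝ ∞ χ ∧ HasCompactSupport χ ∧ tsupport χ ⊆ O ∧
      (∀ x, 0 ≤ χ x ∧ χ x ≤ 1) ∧ ∀ᶠ x in 𝓝ˢ K, χ x = 1 := by
  obtain ⟨L, hL, hKL, hLO⟩ := exists_compact_between hK hO hKO
  obtain ⟨f, h1, h0, hf⟩ := exists_contMDiffMap_one_nhds_of_subset_interior
    (modelWithCornersSelf ℝ A) (n := ⊤) hK.isClosed hKL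
  have hs : tsupport f ⊆ L :=
    closure_minimal (fun x hx => by_contra fun h => hx (h0 x h)) hL.isClosed
  exact ⟨f, f.contMDiff.contDiff, hL.of_isClosed_subset (isClosed_tsupport _) hs, hs.trans hLO,
    hf, h1⟩

omit [FiniteDimensional ℝ A] [FiniteDimensional ℝ X] in
/-- A function smooth on O times a cut-off supported in O is smooth. -/
theorem contDiff_smul_cut (O : Set A) (hO : IsOpen O) (χ : A → ℝ) (hχ : ContDiff ℝ ∞ χ)
    (hs : tsupport χ ⊆ O) (f : A → X) (hf : ContDiffOn ℝ ∞ f O) :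
    ContDiff ℝ ∞ (fun x => χ x • f x) := by
  rw [contDiff_iff_contDiffAt]
  intro x
  by_cases hx : x ∈ O
  · exact hχ.contDiffAt.smul (hf.contDiffAt (hO.mem_nhds hx))
  · have h : χ =ᶠ[𝓝 x] 0 := notMem_tsupport_iff_eventuallyEq.1 fun h => hx (hs h)
    refine (contDiffAt_const (c := (0 : X))).congr_of_eventuallyEq ?_
    filter_upwards [h] with y hy
    simp [hy]

end Pool.Agent.Wein
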