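import Mathlib
import Pool.Agent.P.MP_e3ee0c_gt.WDefs

/-! Smooth neighbourhood retracts and their cotangent bundles. -/

open Set Filter Topology
open scoped ContDiff InnerProductSpace

namespace Pool.Agent.Wein

section General

variable {V : Type*} [NormedAddCommGroup V] [NormedSpace ℝ V]
  {V' : Type*} [NormedAddCommGroup V'] [NormedSpace ℝ V']

lemma Tan.fderiv_congr {S : Set V} {x v : V} (hv : v ∈ Tan S x) {f g : V → V'}
    (hf : DifferentiableAt ℝ f x) (hg : DifferentiableAt ℝ g x)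
    (h : ∀ᶠ y in 𝓝 x, y ∈ S → f y = g y) : fderiv ℝ f x v = fderiv ℝ g x v := by
  obtain ⟨γ, h0, hS, hd⟩ := hv
  subst h0
  have h1 := hf.hasFDerivAt.comp_hasDerivAt (0 : ℝ) hd
  have h2 := hg.hasFDerivAt.comp_hasDerivAt (0 : ℝ) hd
  have h3 : (f ∘ γ) =ᶠ[𝓝 0] (g ∘ γ) := by
    filter_upwards [hS, hd.continuousAt.eventually h] with t ht1 ht2 using ht2 ht1
  exact h1.unique (h2.congr_of_eventuallyEq h3)

lemma Tan.map {S : Set V} {S' : Set V'} {x v : V} (hv : v ∈ Tan S x) {f : V → V'}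
    (hf : DifferentiableAt ℝ f x) (h : ∀ᶠ y in 𝓝 x, y ∈ S → f y ∈ S') :
    fderiv ℝ f x v ∈ Tan S' (f x) := by
  obtain ⟨γ, h0, hS, hd⟩ := hv
  subst h0
  refine ⟨f ∘ γ, rfl, ?_, hf.hasFDerivAt.comp_hasDerivAt (0 : ℝ) hd⟩
  filter_upwards [hS, hd.continuousAt.eventually h] with t ht1 ht2 using ht2 ht1

lemma Tan.fderiv_eq_zero {S : Set V} {x v : V} (hv : v ∈ Tan S x) {f : V → ℝ}
    (hf : DifferentiableAt ℝ f x)
    (h : (∀ᶠ y in 𝓝 x, y ∈ S → f x ≤ f y) ∨ (∀ᶠ y in 𝓝 x, y ∈ S → f y ≤ f x)) :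
    fderiv ℝ f x v = 0 := by
  obtain ⟨γ, h0, hS, hd⟩ := hv
  subst h0
  have h1 := hf.hasFDerivAt.comp_hasDerivAt (0 : ℝ) hd
  rcases h with h | h
  · have h3 : IsLocalMin (f ∘ γ) 0 := by
      filter_upwards [hS, hd.continuousAt.eventually h] with t ht1 ht2 using ht2 ht1
    exact h3.hasDerivAt_eq_zero h1
  · have h3 : IsLocalMax (f ∘ γ) 0 := by
      filter_upwards [hS, hd.continuousAt.eventually h] with t ht1 ht2 using ht2 ht1
    exact h3.hasDerivAt_eq_zero h1

lemma Tan.of_hasDerivAt {S : Set V} {z : ℝ → V} {v : V} {t : ℝ} (hz : HasDerivAt z v t)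
    (h : ∀ᶠ s in 𝓝 t, z s ∈ S) : v ∈ Tan S (z t) := by
  refine ⟨fun s => z (t + s), by simp, ?_, ?_⟩
  · have hc : Tendsto (fun s : ℝ => t + s) (𝓝 0) (𝓝 t) := by
      have : Continuous (fun s : ℝ => t + s) := by fun_prop
      simpa using this.tendsto 0
    exact hc.eventually h
  · exact HasDerivAt.comp_const_add t 0 (by simpa using hz)

/-- A closed set S with a smooth retraction r of the open neighbourhood W. -/
structure GRet (V : Type*) [NormedAddCommGroup V] [NormedSpace ℝ V] where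
  S : Set V
  W : Set V
  r : V → V
  smooth : ContDiff ℝ ∞ r
  isOpen : IsOpen W
  sub : S ⊆ W
  maps : MapsTo r W S
  fix : ∀ x ∈ S, r x = x
  closed : IsClosed S

namespace GRet

variable (G : GRet V)

lemma idem {x : V} (hx : x ∈ G.S) (v : V) :
    fderiv ℝ G.r x (fderiv ℝ G.r x v) = fderiv ℝ G.r x v := by
  have hd : Differentiable ℝ G.r := G.smooth.differentiable (by simp)
  have h1 : (G.r ∘ G.r) =ᶠ[𝓝 x] G.r := by
    filter_upwards [G.isOpen.mem_nhds (G.sub hx)] with y hy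
    exact G.fix _ (G.maps hy)
  have h2 : fderiv ℝ (G.r ∘ G.r) x = (fderiv ℝ G.r (G.r x)).comp (fderiv ℝ G.r x) :=
    fderiv_comp x (hd _) (hd _)
  rw [h1.fderiv_eq, G.fix x hx] at h2
  exact (congrArg (fun L => L v) h2).symm

lemma fderiv_mem_tan {y : V} (hy : y ∈ G.W) (v : V) : fderiv ℝ G.r y v ∈ Tan G.S (G.r y) := by
  have hd : Differentiable ℝ G.r := G.smooth.differentiable (by simp)
  have h1 : HasDerivAt (fun t : ℝ => y + t • v) v 0 := by
    simpa using ((hasDerivAt_id (0 : ℝ)).smul_const v).const_add y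
  have h2 : v ∈ Tan G.W y := by
    refine ⟨fun t : ℝ => y + t • v, by simp, ?_, h1⟩
    apply h1.continuousAt.eventually
    simpa using G.isOpen.mem_nhds hy
  exact Tan.map h2 (hd y) (Eventually.of_forall fun w hw => G.maps hw)

lemma tan_iff {x : V} (hx : x ∈ G.S) (v : V) : v ∈ Tan G.S x ↔ fderiv ℝ G.r x v = v := by
  have hd : Differentiable ℝ G.r := G.smooth.differentiable (by simp)
  constructor
  · intro hv
    have := Tan.fderiv_congr hv (f := G.r) (g := id) (hd x) differentiableAt_id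
      (Eventually.of_forall fun y hy => G.fix y hy)
    simpa using this
  · intro hv
    have := G.fderiv_mem_tan (G.sub hx) v
    rwa [hv, G.fix x hx] at this

/-- Curves whose velocity lies in the range of the differential of r stay in S. -/
lemma inv (v g : ℝ → V) (T : ℝ) (hT : 0 ≤ T) (hg : ContinuousOn g (Icc 0 T))
    (hv : ∀ t ∈ Icc 0 T, HasDerivAt v (fderiv ℝ G.r (v t) (g t)) t) (h0 : v 0 ∈ G.S) :
    v T ∈ G.S := by
  have hd : Differentiable ℝ G.r := G.smooth.differentiable (by simp)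
  have hD : ContDiff ℝ ∞ (fderiv ℝ G.r) := G.smooth.fderiv_right (m := ∞) (by simp)
  set B : V → V →L[ℝ] V := fun y => fderiv ℝ G.r y - (fderiv ℝ G.r y).comp (fderiv ℝ G.r y)
    with hB
  have hBs : ContDiff ℝ ∞ B := hD.sub (hD.clm_comp hD)
  have hB0 : ∀ y ∈ G.S, B y = 0 := by
    intro y hy
    ext w
    simp [hB, G.idem hy w]
  obtain ⟨M, hM⟩ := isCompact_Icc.exists_bound_of_continuousOn hg
  have hvc : ContinuousOn v (Icc 0 T) := fun t ht => (hv t ht).continuousAt.continuousWithinAt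
  have hcl : IsClosed ({t | v t ∈ G.S} ∩ Icc 0 T) := by
    rw [inter_comm]
    exact hvc.preimage_isClosed_of_isClosed isClosed_Icc G.closed
  refine hcl.Icc_subset_of_forall_exists_gt h0 ?_ ⟨hT, le_rfl⟩
  rintro t0 ⟨ht0S, ht0⟩ y hy
  have ht0S' : v t0 ∈ G.S := ht0S
  obtain ⟨K, U, hU, hK⟩ :=
    ((hBs.contDiffAt (x := v t0)).of_le (m := 1) (by simp)).exists_lipschitzOnWith
  have hc0 : ContinuousAt v t0 := (hv t0 (Ico_subset_Icc_self ht0)).continuousAt
  have hc1 : ContinuousAt (fun t => G.r (v t)) t0 := G.smooth.continuous.continuousAt.comp hc0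
  have e1 : ∀ᶠ t in 𝓝 t0, v t ∈ U := hc0.eventually hU
  have e2 : ∀ᶠ t in 𝓝 t0, G.r (v t) ∈ U := by
    apply hc1.eventually
    show ∀ᶠ w in 𝓝 (G.r (v t0)), w ∈ U
    rw [G.fix _ ht0S']
    exact hU
  have e3 : ∀ᶠ t in 𝓝 t0, v t ∈ G.W := hc0.eventually (G.isOpen.mem_nhds (G.sub ht0S'))
  obtain ⟨δ, hδ, hall⟩ := Metric.eventually_nhds_iff.1 (e1.and (e2.and e3))
  set t1 := min (min y T) (t0 + δ / 2) with ht1
  have h01 : t0 < t1 := lt_min (lt_min hy ht0.2) (by linarith)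
  have h1y : t1 ≤ y := (min_le_left _ _).trans (min_le_left _ _)
  have h1T : t1 ≤ T := (min_le_left _ _).trans (min_le_right _ _)
  have h1δ : t1 ≤ t0 + δ / 2 := min_le_right _ _
  have hsub : Icc t0 t1 ⊆ Icc 0 T := Icc_subset_Icc ht0.1 h1T
  have hnear : ∀ t ∈ Icc t0 t1, v t ∈ U ∧ G.r (v t) ∈ U ∧ v t ∈ G.W := by
    intro t ht
    apply hall
    rw [Real.dist_eq, abs_lt]
    constructor <;> linarith [ht.1, ht.2]
  have hder : ∀ t ∈ Icc t0 t1, HasDerivAt (fun s => v s - G.r (v s)) (B (v t) (g t)) t := by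
    intro t ht
    have h1 := hv t (hsub ht)
    have h2 := (hd (v t)).hasFDerivAt.comp_hasDerivAt t h1
    exact h1.sub h2
  have hz := eq_zero_of_abs_deriv_le_mul_abs_self_of_eq_zero_right
    (f := fun s => v s - G.r (v s)) (f' := fun t => B (v t) (g t)) (K := K * M) (a := t0) (b := t1)
    (fun t ht => (hder t ht).continuousAt.continuousWithinAt)
    (fun t ht => (hder t (Ico_subset_Icc_self ht)).hasDerivWithinAt)
    (by simp [G.fix _ ht0S'])
    (by
      intro t ht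
      have ht' := Ico_subset_Icc_self ht
      obtain ⟨a1, a2, a3⟩ := hnear t ht'
      have b1 : ‖B (v t)‖ ≤ K * ‖v t - G.r (v t)‖ := by
        have := hK.dist_le_mul _ a1 _ a2
        rwa [hB0 _ (G.maps a3), dist_zero_right, dist_eq_norm] at this
      calc ‖B (v t) (g t)‖ ≤ ‖B (v t)‖ * ‖g t‖ := (B (v t)).le_opNorm _
        _ ≤ (K * ‖v t - G.r (v t)‖) * M :=
          mul_le_mul b1 (hM t (hsub ht')) (norm_nonneg _) (by positivity)
        _ = K * M * ‖v t - G.r (v t)‖ := by ring)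
  refine ⟨t1, ?_, h01, h1y⟩
  have h5 := sub_eq_zero.1 (hz t1 ⟨h01.le, le_rfl⟩)
  show v t1 ∈ G.S
  rw [h5]
  exact G.maps (hnear t1 ⟨h01.le, le_rfl⟩).2.2

lemma inv_global (v g : ℝ → V) (hg : Continuous g)
    (hv : ∀ t, HasDerivAt v (fderiv ℝ G.r (v t) (g t)) t) (h0 : v 0 ∈ G.S) (t : ℝ) :
    v t ∈ G.S := by
  rcases le_total 0 t with ht | ht
  · exact G.inv v g t ht hg.continuousOn (fun s _ => hv s) h0
  · have := G.inv (fun s => v (-s)) (fun s => -g (-s)) (-t) (by linarith)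
      (by fun_prop) (fun s _ => ?_) (by simpa using h0)
    · simpa using this
    · have h1 := (hv (-s)).scomp s (hasDerivAt_neg s)
      simpa [Function.comp_def] using h1

/-- A one-form that vanishes on S has a differential that vanishes on S. -/
lemma dclosed (α : V → V →L[ℝ] ℝ) {x : V} (hx : x ∈ G.S) (hα : DifferentiableAt ℝ α x)
    (h : ∀ᶠ y in 𝓝 x, y ∈ G.S → ∀ v ∈ Tan G.S y, α y v = 0) {u v : V} (hu : u ∈ Tan G.S x)
    (hv : v ∈ Tan G.S x) : fderiv ℝ α x u v = fderiv ℝ α x v u := by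
  have hd : Differentiable ℝ G.r := G.smooth.differentiable (by simp)
  have hD : Differentiable ℝ (fderiv ℝ G.r) :=
    (G.smooth.fderiv_right (m := ∞) (by simp)).differentiable (by simp)
  have hsym : IsSymmSndFDerivAt ℝ G.r x :=
    G.smooth.contDiffAt.isSymmSndFDerivAt (by
      rw [minSmoothness_of_isRCLikeNormedField]; exact ENat.LEInfty.out)
  have hx' : G.r x = x := G.fix x hx
  have key : ∀ a b : V, fderiv ℝ α x (fderiv ℝ G.r x a) (fderiv ℝ G.r x b) +
      α x (fderiv ℝ (fderiv ℝ G.r) x a b) = 0 := by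
    intro a b
    have h1 : HasFDerivAt (fun y => α (G.r y)) ((fderiv ℝ α x).comp (fderiv ℝ G.r x)) x := by
      have h2 : HasFDerivAt α (fderiv ℝ α x) (G.r x) := by rw [hx']; exact hα.hasFDerivAt
      exact h2.comp x (hd x).hasFDerivAt
    have h2 : HasFDerivAt (fun y => fderiv ℝ G.r y b)
        ((fderiv ℝ (fderiv ℝ G.r) x).flip b) x := by
      simpa using (hD x).hasFDerivAt.clm_apply (hasFDerivAt_const b x)
    have h3 := h1.clm_apply h2
    have h4 : (fun y => α (G.r y) (fderiv ℝ G.r y b)) =ᶠ[𝓝 x] fun _ => (0 : ℝ) := by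
      have hc : Tendsto G.r (𝓝 x) (𝓝 x) := by
        have := G.smooth.continuous.tendsto x
        rwa [hx'] at this
      filter_upwards [hc.eventually h, G.isOpen.mem_nhds (G.sub hx)] with y hy1 hy2
      exact hy1 (G.maps hy2) _ (G.fderiv_mem_tan hy2 b)
    have h5 := h3.unique ((hasFDerivAt_const (0 : ℝ) x).congr_of_eventuallyEq h4)
    have h6 := congrArg (fun L => L a) h5
    simp only [hx', add_apply, ContinuousLinearMap.comp_apply,
      ContinuousLinearMap.flip_apply, zero_apply] at h6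
    linarith
  have k1 := key u v
  have k2 := key v u
  rw [(G.tan_iff hx u).1 hu, (G.tan_iff hx v).1 hv] at k1 k2
  rw [hsym.eq v u] at k2
  linarith

end GRet

end General

variable {E : Type} [NormedAddCommGroup E] [InnerProductSpace ℝ E]

/-- A compact retract whose retraction has orthogonal projections as differentials. -/
structure Ret (E : Type) [NormedAddCommGroup E] [InnerProductSpace ℝ E] extends GRet E where
  symm : ∀ x ∈ S, ∀ u v, ⟪fderiv ℝ r x u, v⟫_ℝ = ⟪u, fderiv ℝ r x v⟫_ℝ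
  compact : IsCompact S

namespace Ret

variable (R : Ret E)

/-- The projection on the tangent space. -/
noncomputable def P (x : E) : E →L[ℝ] E := fderiv ℝ R.r x

lemma P_smooth : ContDiff ℝ ∞ R.P := by
  exact R.smooth.fderiv_right (m := ∞) (by simp)

lemma P_idem {x : E} (hx : x ∈ R.S) (v : E) : R.P x (R.P x v) = R.P x v := R.toGRet.idem hx v

lemma P_symm {x : E} (hx : x ∈ R.S) (u v : E) : ⟪R.P x u, v⟫_ℝ = ⟪u, R.P x v⟫_ℝ :=
  R.symm x hx u v

lemma mem_tan {x : E} (hx : x ∈ R.S) (v : E) : v ∈ Tan R.S x ↔ R.P x v = v :=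
  R.toGRet.tan_iff hx v

lemma pyth {x : E} (hx : x ∈ R.S) (v : E) : ‖v‖ ^ 2 = ‖R.P x v‖ ^ 2 + ‖v - R.P x v‖ ^ 2 := by
  have h : ⟪R.P x v, v - R.P x v⟫_ℝ = 0 := by
    rw [R.P_symm hx, map_sub, R.P_idem hx, sub_self, inner_zero_right]
  have h2 := norm_add_sq_real (R.P x v) (v - R.P x v)
  rw [h, add_sub_cancel] at h2
  linarith

lemma norm_P_le {x : E} (hx : x ∈ R.S) (v : E) : ‖R.P x v‖ ≤ ‖v‖ := by
  have h := R.pyth hx v
  exact abs_le_of_sq_le_sq' (by nlinarith [sq_nonneg ‖v - R.P x v‖]) (norm_nonneg v) |>.2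

lemma mem_cot (z : E × E) : z ∈ Cot R.S ↔ z.1 ∈ R.S ∧ R.P z.1 z.2 = z.2 := by
  constructor
  · rintro ⟨h1, h2⟩
    exact ⟨h1, (R.mem_tan h1 _).1 h2⟩
  · rintro ⟨h1, h2⟩
    exact ⟨h1, (R.mem_tan h1 _).2 h2⟩

lemma DP_comm (x u v : E) : fderiv ℝ R.P x u v = fderiv ℝ R.P x v u := by
  have hsym : IsSymmSndFDerivAt ℝ R.r x :=
    R.smooth.contDiffAt.isSymmSndFDerivAt (by
      rw [minSmoothness_of_isRCLikeNormedField]; exact ENat.LEInfty.out)
  exact hsym.eq u v

lemma hasFDerivAt_P_apply (x a : E) :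
    HasFDerivAt (fun y => R.P y a) ((fderiv ℝ R.P x).flip a) x := by
  have hP : Differentiable ℝ R.P := R.P_smooth.differentiable (by simp)
  simpa using (hP x).hasFDerivAt.clm_apply (hasFDerivAt_const a x)

lemma P_DP {x : E} (hx : x ∈ R.S) {u a : E} (hu : R.P x u = u) (ha : R.P x a = a) :
    R.P x (fderiv ℝ R.P x u a) = 0 := by
  have hP : Differentiable ℝ R.P := R.P_smooth.differentiable (by simp)
  have h1 := (hP x).hasFDerivAt.clm_apply (R.hasFDerivAt_P_apply x a)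
  have h2 := R.hasFDerivAt_P_apply x a
  have h3 := Tan.fderiv_congr ((R.mem_tan hx u).2 hu) h1.differentiableAt h2.differentiableAt
    (Eventually.of_forall fun y hy => R.P_idem hy a)
  rw [h1.fderiv, h2.fderiv] at h3
  simpa [ha] using h3

lemma DP_symm {x : E} (hx : x ∈ R.S) {u : E} (hu : R.P x u = u) (a b : E) :
    ⟪fderiv ℝ R.P x u a, b⟫_ℝ = ⟪a, fderiv ℝ R.P x u b⟫_ℝ := by
  have h1 := (R.hasFDerivAt_P_apply x a).inner ℝ (hasFDerivAt_const b x)
  have h2 := (hasFDerivAt_const a x).inner ℝ (R.hasFDerivAt_P_apply x b)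
  have h3 := Tan.fderiv_congr ((R.mem_tan hx u).2 hu) h1.differentiableAt h2.differentiableAt
    (Eventually.of_forall fun y hy => R.P_symm hy a b)
  rw [h1.fderiv, h2.fderiv] at h3
  simpa using h3

lemma DP_normal {x : E} (hx : x ∈ R.S) {u a b : E} (hu : R.P x u = u) (ha : R.P x a = a)
    (hb : R.P x b = b) : ⟪fderiv ℝ R.P x u a, b⟫_ℝ = 0 := by
  rw [← hb, ← R.P_symm hx, R.P_DP hx hu ha, inner_zero_left]

/-- The cotangent bundle as a retract. -/
noncomputable def hat : GRet (E × E) where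
  S := Cot R.S
  W := R.W ×ˢ univ
  r z := (R.r z.1, R.P (R.r z.1) z.2)
  smooth := by
    exact (R.smooth.comp contDiff_fst).prodMk
      ((R.P_smooth.comp (R.smooth.comp contDiff_fst)).clm_apply contDiff_snd)
  isOpen := by exact R.isOpen.prod isOpen_univ
  sub := by exact fun z hz => ⟨R.sub hz.1, mem_univ _⟩
  maps := by exact fun z hz => (R.mem_cot _).2 ⟨R.maps hz.1, R.P_idem (R.maps hz.1) _⟩
  fix := by
    intro z hz
    obtain ⟨h1, h2⟩ := (R.mem_cot z).1 hz
    rw [R.fix _ h1, h2]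
  closed := by
    have : Cot R.S = Prod.fst ⁻¹' R.S ∩ {z : E × E | R.P z.1 z.2 = z.2} := by
      ext z
      exact R.mem_cot z
    rw [this]
    refine (R.closed.preimage continuous_fst).inter (isClosed_eq ?_ continuous_snd)
    exact (R.P_smooth.continuous.comp continuous_fst).clm_apply continuous_snd

lemma fderiv_hat {z : E × E} (hz : z ∈ Cot R.S) (v : E × E) :
    fderiv ℝ R.hat.r z v =
      (R.P z.1 v.1, fderiv ℝ R.P z.1 (R.P z.1 v.1) z.2 + R.P z.1 v.2) := by
  have hd : Differentiable ℝ R.r := R.smooth.differentiable (by simp)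
  have hP : Differentiable ℝ R.P := R.P_smooth.differentiable (by simp)
  have hx : R.r z.1 = z.1 := R.fix _ hz.1
  have h1 : HasFDerivAt (fun w : E × E => R.r w.1) ((R.P z.1).comp (ContinuousLinearMap.fst ℝ E E))
      z := (hd z.1).hasFDerivAt.comp z hasFDerivAt_fst
  have h2 : HasFDerivAt (fun w : E × E => R.P (R.r w.1))
      ((fderiv ℝ R.P (R.r z.1)).comp ((R.P z.1).comp (ContinuousLinearMap.fst ℝ E E))) z :=
    (hP (R.r z.1)).hasFDerivAt.comp z h1
  have h3 := h1.prodMk (h2.clm_apply (hasFDerivAt_snd (𝕜 := ℝ) (p := z)))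
  have h4 : fderiv ℝ R.hat.r z = _ := h3.fderiv
  rw [h4, hx]
  simp [add_comm]

lemma tan_cot_fst {z v : E × E} (hz : z ∈ Cot R.S) (hv : v ∈ Tan (Cot R.S) z) :
    R.P z.1 v.1 = v.1 := by
  have h := Tan.map hv (S' := R.S) (f := Prod.fst) differentiableAt_fst
    (Eventually.of_forall fun y hy => hy.1)
  rw [fderiv_fst] at h
  exact (R.mem_tan hz.1 _).1 h

/-- The symplectic form is nondegenerate on the cotangent bundle. -/
lemma omega_nondeg {z v : E × E} (hz : z ∈ Cot R.S) (hv : v ∈ Tan (Cot R.S) z)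
    (h : ∀ u ∈ Tan (Cot R.S) z, omega v u = 0) : v = 0 := by
  obtain ⟨hx, hp⟩ := (R.mem_cot z).1 hz
  have hv1 := R.tan_cot_fst hz hv
  have htan : ∀ u : E × E, u ∈ Tan (Cot R.S) z ↔
      (R.P z.1 u.1, fderiv ℝ R.P z.1 (R.P z.1 u.1) z.2 + R.P z.1 u.2) = u := by
    intro u
    rw [← R.fderiv_hat hz]
    exact R.hat.tan_iff hz u
  have h1 : v.1 = 0 := by
    have := h (0, v.1) ((htan _).2 (by simp [hv1]))
    simpa [omega] using this
  have hv2 : R.P z.1 v.2 = v.2 := by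
    have := congrArg Prod.snd ((htan v).1 hv)
    simpa [h1] using this
  have h2 : v.2 = 0 := by
    have := h (v.2, fderiv ℝ R.P z.1 v.2 z.2) ((htan _).2 (by simp [hv2, R.P_DP hx hv2 hp]))
    simpa [omega, h1] using this
  exact Prod.ext h1 h2

end Ret

end Pool.Agent.Wein
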