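import Mathlib
import Pool.Agent.P.MP_e3ee0c_gt.WDefs

open Set Filter Topology
open scoped ContDiff InnerProductSpace

namespace Pool.Agent.Wein

variable {E : Type} [NormedAddCommGroup E] [InnerProductSpace ℝ E]

/-- The twisted symplectic form at z: the differential of the Liouville form plus the pull-back
of the two-form σ on the base. -/
noncomputable def omegaM (σ : E → E →L[ℝ] E →L[ℝ] ℝ) (z u v : E × E) : ℝ :=
  omega u v + σ z.1 u.1 v.1

/-- z is an integral curve of the Hamiltonian vector field of H for the twisted form. -/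
def IsOrbitM (σ : E → E →L[ℝ] E →L[ℝ] ℝ) (N : Set E) (H : E × E → ℝ) (z : ℝ → E × E) : Prop :=
  ∀ t, z t ∈ Cot N ∧ ∃ v, HasDerivAt z v t ∧
    ∀ u ∈ Tan (Cot N) (z t), omegaM σ (z t) v u = -fderiv ℝ H (z t) u

end Pool.Agent.Wein
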