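import Pool.Agent.P.MP_e3ee0c_gt.Pass

open Set Filter Topology Matrix

namespace Pool.Agent.P.MP_e3ee0c_gt

variable {k : ℕ}

theorem abs_dot_le (η v : Fin k → ℝ) : |η ⬝ᵥ v| ≤ k * ‖η‖ * ‖v‖ := by
  unfold dotProduct
  refine (Finset.abs_sum_le_sum_abs _ _).trans ?_
  calc ∑ i, |η i * v i| ≤ ∑ _i : Fin k, ‖η‖ * ‖v‖ := Finset.sum_le_sum fun i _ => by
        rw [abs_mul]
        exact mul_le_mul (norm_le_pi_norm η i) (norm_le_pi_norm v i) (abs_nonneg _) (norm_nonneg _)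
    _ = k * ‖η‖ * ‖v‖ := by simp [mul_assoc]

theorem box_normed {W : Type*} [NormedAddCommGroup W] [NormedSpace ℝ W] {m : W → Fin k → ℝ}
    {D : W →L[ℝ] (Fin k → ℝ)} (hm : HasStrictFDerivAt m D 0) {η : Fin k → ℝ} {e : W}
    (he : η ⬝ᵥ D e ≠ 0) : Box m 0 η := by
  wlog h1 : η ⬝ᵥ D e = 1 generalizing e
  · exact this (e := (η ⬝ᵥ D e)⁻¹ • e) (by simp [he]) (by simp [he])
  intro V₀ hV₀
  have hc : 0 < 1 / (4 * (k * (‖η‖ + 1) * ‖e‖ + 1)) := by positivity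
  have hlo := hm.isLittleO.def hc
  have hmono : ∃ U ∈ 𝓝 (0 : W), ∀ η' : Fin k → ℝ, ‖η'‖ ≤ ‖η‖ + 1 → 3 / 4 ≤ η' ⬝ᵥ D e →
      ∀ w ∈ U, ∀ s : ℝ, 0 ≤ s → w + s • e ∈ U → η' ⬝ᵥ m w + s / 2 ≤ η' ⬝ᵥ m (w + s • e) := by
    rw [nhds_prod_eq] at hlo
    obtain ⟨pa, ha, pb, hb, hab⟩ := eventually_prod_iff.1 hlo
    refine ⟨{w | pa w ∧ pb w}, ha.and hb, fun η' h2 h3 w hw s hs hws => ?_⟩
    have h4 := hab hws.1 hw.2
    simp only [add_sub_cancel_left, map_smul] at h4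
    have h5 := abs_dot_le η' (m (w + s • e) - m w - s • D e)
    rw [norm_smul, Real.norm_eq_abs, abs_of_nonneg hs] at h4
    have h6 : (k : ℝ) * ‖η'‖ * ‖m (w + s • e) - m w - s • D e‖ ≤ s / 4 := by
      calc (k : ℝ) * ‖η'‖ * ‖m (w + s • e) - m w - s • D e‖
          ≤ k * (‖η‖ + 1) * (1 / (4 * (k * (‖η‖ + 1) * ‖e‖ + 1)) * (s * ‖e‖)) := by gcongr
        _ = s / 4 * ((k * (‖η‖ + 1) * ‖e‖) / (k * (‖η‖ + 1) * ‖e‖ + 1)) := by field_simp
        _ ≤ s / 4 * 1 := by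
          gcongr
          rw [div_le_one (by positivity)]; linarith
        _ = s / 4 := mul_one _
    simp only [dotProduct_sub, dotProduct_smul, smul_eq_mul] at h5
    have h7 := (abs_le.1 (h5.trans h6)).1
    nlinarith
  obtain ⟨U, hU, hmono⟩ := hmono
  obtain ⟨R, hR, hRs⟩ := Metric.mem_nhds_iff.1 (inter_mem hU hV₀)
  set r : ℝ := R / (2 * (‖e‖ + 1)) with hr
  have hr0 : 0 < r := by positivity
  have hre : r * ‖e‖ < R / 2 := by
    rw [hr, div_mul_eq_mul_div, div_lt_div_iff₀ (by positivity) (by positivity)]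
    nlinarith [norm_nonneg e]
  have hcont : ContinuousAt (fun z : ((Fin k → ℝ) × ℝ) × W => z.1.1 ⬝ᵥ m z.2 - z.1.2)
      ((η, η ⬝ᵥ m 0), 0) := by
    have h2 : ContinuousAt (fun z : ((Fin k → ℝ) × ℝ) × W => m z.2) ((η, η ⬝ᵥ m 0), 0) :=
      ContinuousAt.comp (x := ((η, η ⬝ᵥ m 0), (0 : W))) (f := Prod.snd) hm.continuousAt
        continuousAt_snd
    have h3 : Continuous fun z : (Fin k → ℝ) × (Fin k → ℝ) => z.1 ⬝ᵥ z.2 := by fun_prop
    exact (h3.continuousAt.comp ((continuousAt_fst.comp continuousAt_fst).prodMk h2)).sub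
      (continuousAt_snd.comp continuousAt_fst)
  have hev : ∀ᶠ z : ((Fin k → ℝ) × ℝ) × W in 𝓝 ((η, η ⬝ᵥ m 0), 0),
      -(r / 2) < z.1.1 ⬝ᵥ m z.2 - z.1.2 :=
    continuousAt_const.eventually_lt hcont (by simpa using hr0)
  rw [nhds_prod_eq] at hev
  obtain ⟨pa, ha, pb, hb, hab⟩ := eventually_prod_iff.1 hev
  obtain ⟨r', hr', hrs'⟩ := Metric.mem_nhds_iff.1 (inter_mem hb (Metric.ball_mem_nhds 0 (half_pos hR)))
  have hin : ∀ w ∈ Metric.ball (0 : W) r', ∀ s ∈ Icc 0 r, w + s • e ∈ U ∩ V₀ := by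
    intro w hw s hs
    apply hRs
    have h2 : ‖w‖ < R / 2 := by simpa using (hrs' hw).2
    have h3 : ‖s • e‖ ≤ r * ‖e‖ := by
      rw [norm_smul, Real.norm_eq_abs, abs_of_nonneg hs.1]; gcongr; exact hs.2
    have := norm_add_le w (s • e)
    simp only [Metric.mem_ball, dist_zero_right]
    linarith
  refine ⟨{x | ∃ w ∈ Metric.ball (0 : W) r', ∃ s ∈ Icc 0 r, x = w + s • e}, ?_, ?_, ?_⟩
  · refine mem_of_superset (Metric.ball_mem_nhds 0 hr') fun w hw => ⟨w, hw, 0, ⟨le_rfl, hr0.le⟩, ?_⟩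
    simp
  · rintro _ ⟨w, hw, s, hs, rfl⟩
    exact (hin w hw s hs).2
  have e1 : ∀ᶠ q : (Fin k → ℝ) × ℝ in 𝓝 (η, η ⬝ᵥ m 0), ‖q.1‖ < ‖η‖ + 1 :=
    ContinuousAt.eventually_lt (by fun_prop) continuousAt_const (by simp)
  have e2 : ∀ᶠ q : (Fin k → ℝ) × ℝ in 𝓝 (η, η ⬝ᵥ m 0), 3 / 4 < q.1 ⬝ᵥ D e :=
    ContinuousAt.eventually_lt continuousAt_const (by fun_prop) (by simp only [h1]; norm_num)
  filter_upwards [ha, e1, e2] with q q1 q2 q3
  have hup : ∀ w ∈ Metric.ball (0 : W) r', ∀ s ∈ Icc 0 r, ∀ s' ∈ Icc s r,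
      q.1 ⬝ᵥ m (w + s • e) + (s' - s) / 2 ≤ q.1 ⬝ᵥ m (w + s' • e) := by
    intro w hw s hs s' hs'
    have h2 : w + s • e + (s' - s) • e = w + s' • e := by module
    have := hmono q.1 q2.le q3.le _ (hin w hw s hs).1 (s' - s) (by linarith [hs'.1])
      (by rw [h2]; exact (hin w hw s' ⟨hs.1.trans hs'.1, hs'.2⟩).1)
    rwa [h2] at this
  have htop : ∀ w ∈ Metric.ball (0 : W) r', q.2 < q.1 ⬝ᵥ m (w + r • e) := by
    intro w hw
    have h2 := hup w hw 0 ⟨le_rfl, hr0.le⟩ r ⟨hr0.le, le_rfl⟩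
    have h3 := hab q1 (hrs' hw).1
    simp only [zero_smul, add_zero, sub_zero] at h2 h3
    linarith
  have h0 : (0 : W) ∈ Metric.ball (0 : W) r' := Metric.mem_ball_self hr'
  refine ⟨⟨0 + r • e, ⟨0, h0, r, ⟨hr0.le, le_rfl⟩, rfl⟩, htop 0 h0⟩, ?_⟩
  refine isPreconnected_of_forall (0 + r • e) ?_
  rintro _ ⟨⟨w, hw, s, hs, rfl⟩, hl⟩
  refine ⟨(fun s' : ℝ => w + s' • e) '' Icc s r ∪ (fun w' => w' + r • e) '' Metric.ball 0 r',
    ?_, Or.inr ⟨0, h0, rfl⟩, Or.inl ⟨s, ⟨le_rfl, hs.2⟩, rfl⟩, ?_⟩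
  · rintro _ (⟨s', hs', rfl⟩ | ⟨w', hw', rfl⟩)
    · refine ⟨⟨w, hw, s', ⟨hs.1.trans hs'.1, hs'.2⟩, rfl⟩, ?_⟩
      have h2 := hup w hw s hs s' hs'
      have h3 : q.2 < q.1 ⬝ᵥ m (w + s • e) := hl
      show q.2 < q.1 ⬝ᵥ m (w + s' • e)
      linarith [hs'.1]
    · exact ⟨⟨w', hw', r, ⟨hr0.le, le_rfl⟩, rfl⟩, htop w' hw'⟩
  · refine IsPreconnected.union (w + r • e) ⟨r, ⟨hs.2, le_rfl⟩, rfl⟩ ⟨w, hw, rfl⟩ ?_ ?_
    · exact isPreconnected_Icc.image _ (by fun_prop)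
    · exact (convex_ball (0 : W) r').isPreconnected.image _ (by fun_prop)

theorem Box.transfer {W X : Type*} [TopologicalSpace W] [TopologicalSpace X] {g : W → X} {w₀ : W}
    {y : X} (hy : g w₀ = y) (hg : map g (𝓝 w₀) = 𝓝 y) {U : Set W} (hU : U ∈ 𝓝 w₀)
    (hc : ContinuousOn g U) {μ : X → Fin k → ℝ} {η : Fin k → ℝ} (h : Box (μ ∘ g) w₀ η) :
    Box μ y η := by
  intro V₀ hV₀
  have h1 : g ⁻¹' V₀ ∈ 𝓝 w₀ := by rw [← hg] at hV₀; exact hV₀
  obtain ⟨V, hV, hVs, hev⟩ := h _ (inter_mem h1 hU)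
  refine ⟨g '' V, hg ▸ image_mem_map hV, ?_, ?_⟩
  · rintro _ ⟨w, hw, rfl⟩; exact (hVs hw).1
  · simp only [Function.comp, hy] at hev
    filter_upwards [hev] with q hq
    have : g '' V ∩ {x | q.2 < q.1 ⬝ᵥ μ x} = g '' (V ∩ {x | q.2 < q.1 ⬝ᵥ μ (g x)}) :=
      (image_inter_preimage g V {x | q.2 < q.1 ⬝ᵥ μ x}).symm
    rw [this]
    exact ⟨hq.1.image _, hq.2.image _ (hc.mono fun w hw => (hVs hw.1).2)⟩

theorem level_param {E N : Type*} [NormedAddCommGroup E] [NormedSpace ℝ E] [CompleteSpace E]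
    [TopologicalSpace N] (κ : OpenPartialHomeomorph N E) {f : N → ℝ} {c : ℝ}
    (y : {x // f x = c}) (hy : y.1 ∈ κ.source) {L : E →L[ℝ] ℝ}
    (hf : HasStrictFDerivAt (f ∘ κ.symm) L (κ y)) (hL : L ≠ 0) :
    ∃ (g : L.ker → {x // f x = c}) (U : Set L.ker) (φ : L.ker → E), g 0 = y ∧
      map g (𝓝 0) = 𝓝 y ∧ U ∈ 𝓝 0 ∧ ContinuousOn g U ∧ φ 0 = κ y ∧
      HasStrictFDerivAt φ L.ker.subtypeL 0 ∧ ∀ᶠ w in 𝓝 0, (g w).1 = κ.symm (φ w) := by
  classical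
  have hr : L.range = ⊤ := by
    obtain ⟨v, hv⟩ : ∃ v, L v ≠ 0 := by
      by_contra h; push Not at h; exact hL (ContinuousLinearMap.ext h)
    refine eq_top_iff.2 fun a _ => ⟨(a / L v) • v, ?_⟩
    simp [hv]
  have hc : (f ∘ κ.symm) (κ y) = c := by simp [κ.left_inv hy, y.2]
  set φ := hf.implicitFunction _ _ hr c with hφ
  have hφ0 : φ 0 = κ y := by
    have := hf.implicitFunction_apply_image hr
    rwa [hc] at this
  have hφd : HasStrictFDerivAt φ L.ker.subtypeL 0 := by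
    have := hf.to_implicitFunction hr
    rwa [hc] at this
  have hlev : ∀ᶠ w in 𝓝 (0 : L.ker), f (κ.symm (φ w)) = c := by
    have h1 := hf.map_implicitFunction_eq hr
    rw [hc] at h1
    exact (continuousAt_const.prodMk continuousAt_id : ContinuousAt (fun w : L.ker => (c, w)) 0).eventually h1
  let g : L.ker → {x // f x = c} := fun w => if h : f (κ.symm (φ w)) = c then ⟨_, h⟩ else y
  have hg : ∀ w, f (κ.symm (φ w)) = c → (g w).1 = κ.symm (φ w) := fun w h => by simp [g, h]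
  have hg0 : g 0 = y := by
    apply Subtype.ext
    rw [hg 0 hlev.self_of_nhds, hφ0, κ.left_inv hy]
  have hev : ∀ᶠ w in 𝓝 (0 : L.ker), (g w).1 = κ.symm (φ w) := hlev.mono hg
  obtain ⟨U₁, hU₁, hU₁c⟩ : ∃ U ∈ 𝓝 (0 : L.ker), ContinuousOn φ U := by
    obtain ⟨_, U, hU, hl⟩ := hφd.exists_lipschitzOnWith
    exact ⟨U, hU, hl.continuousOn⟩
  have htar : ∀ᶠ w in 𝓝 (0 : L.ker), φ w ∈ κ.target :=
    hφd.continuousAt.eventually (by rw [hφ0]; exact κ.open_target.mem_nhds (κ.map_source hy))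
  refine ⟨g, U₁ ∩ {w | (g w).1 = κ.symm (φ w) ∧ φ w ∈ κ.target}, φ, hg0, ?_,
    inter_mem hU₁ (hev.and htar), ?_, hφ0, hφd, hev⟩
  · apply le_antisymm
    · refine (Topology.IsInducing.subtypeVal.tendsto_nhds_iff (f := g)).2 ?_
      have h1 : Tendsto (fun w => κ.symm (φ w)) (𝓝 0) (𝓝 y.1) :=
        (κ.tendsto_symm hy).comp (hφ0 ▸ hφd.continuousAt)
      exact h1.congr' (hev.mono fun w hw => hw.symm)
    · set Ψ := hf.implicitToOpenPartialHomeomorph _ _ hr with hΨ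
      have h1 : Tendsto (fun x : {x // f x = c} => κ x.1) (𝓝 y) (𝓝 (κ y)) :=
        (κ.continuousAt hy).tendsto.comp continuous_subtype_val.continuousAt
      have h2 : Tendsto (fun x : {x // f x = c} => (Ψ (κ x.1)).2) (𝓝 y) (𝓝 0) := by
        have h3 := (Ψ.continuousAt (hf.mem_implicitToOpenPartialHomeomorph_source hr)).tendsto
        rw [hΨ, hf.implicitToOpenPartialHomeomorph_self hr] at h3
        exact (continuous_snd.tendsto _).comp (h3.comp h1)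
      have h4 : ∀ᶠ x : {x // f x = c} in 𝓝 y, g (Ψ (κ x.1)).2 = x := by
        filter_upwards [h1.eventually (hf.eq_implicitFunction hr), h2.eventually hev,
          continuous_subtype_val.continuousAt.eventually (κ.open_source.mem_nhds hy)]
          with x h5 h6 h7
        apply Subtype.ext
        have h8 : (f ∘ κ.symm) (κ x.1) = c := by simp [κ.left_inv h7, x.2]
        rw [h8] at h5
        rw [h6, hφ, h5, κ.left_inv h7]
      calc 𝓝 y = map (fun x : {x // f x = c} => g (Ψ (κ x.1)).2) (𝓝 y) := by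
            rw [map_congr h4]; exact map_id.symm
        _ ≤ map g (𝓝 0) := by
            rw [show (fun x : {x // f x = c} => g (Ψ (κ x.1)).2) =
              g ∘ fun x : {x // f x = c} => (Ψ (κ x.1)).2 from rfl, ← Filter.map_map]
            exact map_mono h2
  · rw [Topology.IsInducing.subtypeVal.continuousOn_iff]
    refine ContinuousOn.congr (f := fun w => κ.symm (φ w)) ?_ fun w hw => hw.2.1
    exact κ.continuousOn_symm.comp (hU₁c.mono inter_subset_left) fun w hw => hw.2.2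

theorem level_box {E N : Type*} [NormedAddCommGroup E] [NormedSpace ℝ E] [CompleteSpace E]
    [TopologicalSpace N] (κ : OpenPartialHomeomorph N E) {f : N → ℝ} {c : ℝ}
    (y : {x // f x = c}) (hy : y.1 ∈ κ.source) {L : E →L[ℝ] ℝ}
    (hf : HasStrictFDerivAt (f ∘ κ.symm) L (κ y)) (hL : L ≠ 0) {μ : N → Fin k → ℝ}
    {D : E →L[ℝ] (Fin k → ℝ)} (hμ : HasStrictFDerivAt (μ ∘ κ.symm) D (κ y)) {η : Fin k → ℝ}
    {e : E} (he : L e = 0) (he' : η ⬝ᵥ D e ≠ 0) :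
    Box (fun x : {x // f x = c} => μ x.1) y η := by
  obtain ⟨g, U, φ, h0, h1, hU, hc, h2, h3, h4⟩ := level_param κ y hy hf hL
  refine Box.transfer h0 h1 hU hc ?_
  have h5 : HasStrictFDerivAt ((μ ∘ κ.symm) ∘ φ) (D.comp L.ker.subtypeL) 0 :=
    HasStrictFDerivAt.comp 0 (h2 ▸ hμ) h3
  refine box_normed (D := D.comp L.ker.subtypeL) (h5.congr_of_eventuallyEq ?_) (e := ⟨e, he⟩) he'
  filter_upwards [h4] with w hw
  simp [hw]

theorem level_locallyConnected {E N : Type*} [NormedAddCommGroup E] [NormedSpace ℝ E]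
    [CompleteSpace E] [TopologicalSpace N] {f : N → ℝ} {c : ℝ}
    (h : ∀ y : {x // f x = c}, ∃ (κ : OpenPartialHomeomorph N E) (L : E →L[ℝ] ℝ),
      y.1 ∈ κ.source ∧ HasStrictFDerivAt (f ∘ κ.symm) L (κ y) ∧ L ≠ 0) :
    LocallyConnectedSpace {x // f x = c} := by
  refine locallyConnectedSpace_iff_connected_subsets.2 fun y V₀ hV₀ => ?_
  obtain ⟨κ, L, hy, hf, hL⟩ := h y
  obtain ⟨g, U, φ, h0, h1, hU, hc, -⟩ := level_param κ y hy hf hL
  have h2 : g ⁻¹' V₀ ∈ 𝓝 0 := by rw [← h1] at hV₀; exact hV₀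
  obtain ⟨r, hr, hrs⟩ := Metric.mem_nhds_iff.1 (inter_mem h2 hU)
  refine ⟨g '' Metric.ball 0 r, h1 ▸ image_mem_map (Metric.ball_mem_nhds 0 hr), ?_, ?_⟩
  · exact (convex_ball _ r).isPreconnected.image _ (hc.mono fun w hw => (hrs hw).2)
  · rintro _ ⟨w, hw, rfl⟩; exact (hrs hw).1

end Pool.Agent.P.MP_e3ee0c_gt
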