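import Pool.Agent.P.MP_e3ee0c_gt.Moment
import Pool.Agent.P.MP_e3ee0c_gt.BoxLemma

open Manifold Set Filter Topology Matrix MeasureTheory
open scoped ContDiff

namespace Pool.Agent.P.MP_e3ee0c_gt

variable {E : Type*} [NormedAddCommGroup E] [NormedSpace ℝ E]
  {M N : Type*} [TopologicalSpace M] [TopologicalSpace N] [ChartedSpace E M] [ChartedSpace E N]
  {σ : M → E →L[ℝ] E →L[ℝ] ℝ} {H : M → ℝ} {c : ℝ} {π : N → M} {Γ : Type*} [Group Γ]
  [MulAction Γ N] {k : ℕ} {ρ : Γ →* GL (Fin k) ℤ} {φ : (Fin k → ℝ) → N → N} {Y XH : M → E}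

/-- The moment map as a vector. -/
noncomputable def mu (σ : M → E →L[ℝ] E →L[ℝ] ℝ) (Y : M → E) (π : N → M)
    (φ : (Fin k → ℝ) → N → N) (x : N) : Fin k → ℝ :=
  fun i => Mom σ Y π φ x (Pi.single i 1)

theorem dot_single (L : (Fin k → ℝ) →L[ℝ] ℝ) (η : Fin k → ℝ) :
    η ⬝ᵥ (fun i => L (Pi.single i 1)) = L η := by
  conv_rhs => rw [← Finset.univ_sum_single η, map_sum]
  refine Finset.sum_congr rfl fun i _ => ?_
  have : (Pi.single i (η i) : Fin k → ℝ) = η i • Pi.single i 1 := by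
    rw [← Pi.single_smul]; simp
  rw [this, map_smul, smul_eq_mul]

omit [TopologicalSpace N] [ChartedSpace E N] in
theorem dot_mu (x : N) (η : Fin k → ℝ) : η ⬝ᵥ mu σ Y π φ x = Mom σ Y π φ x η := dot_single _ η

/-- There is a periodic orbit on the level. -/
def HasOrbit (E : Type*) [NormedAddCommGroup E] [NormedSpace ℝ E] [ChartedSpace E M]
    (H : M → ℝ) (c : ℝ) (XH : M → E) : Prop :=
  ∃ x : ℝ → M, IsMIntegralCurve (I := 𝓘(ℝ, E)) x XH ∧ (∀ t, H (x t) = c) ∧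
    ∃ T > 0, ∀ t, x (t + T) = x t

namespace IsTwistedTorus

variable (h : IsTwistedTorus σ H c π Γ ρ φ)
include h

theorem dif_pi_bij (x : N) : Function.Bijective (dif E E π x) :=
  ((h.localDiffeo x).mfderivToContinuousLinearEquiv (by simp)).bijective

theorem dif_t_surj [FiniteDimensional ℝ E] (hσ : IsSymplectic σ) (t : Fin k → ℝ) (x : N) :
    Function.Surjective (dif E E (fun y => π (φ t y)) x) := by
  refine LinearMap.injective_iff_surjective (f := (dif E E (fun y => π (φ t y)) x).toLinearMap).1 ?_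
  rw [injective_iff_map_eq_zero]
  intro u hu
  have hu' : dif E E (fun y => π (φ t y)) x u = 0 := hu
  apply (h.dif_pi_bij x).1
  rw [map_zero]
  refine hσ.nondeg (π x) _ fun w => ?_
  obtain ⟨v, rfl⟩ := (h.dif_pi_bij x).2 w
  rw [← h.presForm t, hu']
  simp

theorem dif_H (hH : ContMDiff 𝓘(ℝ, E) 𝓘(ℝ, ℝ) ∞ H) (t : Fin k → ℝ) (x : N) (v : E) :
    dif E ℝ H (π (φ t x)) (dif E E (fun y => π (φ t y)) x v) =
      dif E ℝ (fun y => H (π y)) x v := by
  have := dif_comp (g := H) (f := fun y => π (φ t y)) (x := x) (hH.mdifferentiableAt (by simp))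
    ((h.sm_t t).mdifferentiableAt (by simp))
  simp only [h.presH] at this
  rw [this]; rfl

theorem dif_H_ne (hH : ContMDiff 𝓘(ℝ, E) 𝓘(ℝ, ℝ) ∞ H) (hY : IsTransverseLiouville σ H c Y)
    {x : N} (hx : H (π x) = c) : dif E ℝ (fun y => H (π y)) x ≠ 0 := by
  obtain ⟨U, -, -, -, hT⟩ := hY
  intro h0
  obtain ⟨v, hv⟩ := (h.dif_pi_bij x).2 (Y (π x))
  apply hT _ hx
  have := dif_comp (g := H) (f := π) (x := x) (hH.mdifferentiableAt (by simp))
    (h.sm_pi.mdifferentiableAt (by simp))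
  rw [← hv]
  exact (congrArg (fun L : E →L[ℝ] ℝ => L v) this).symm.trans (by rw [h0]; rfl)

theorem crit [FiniteDimensional ℝ E] (hσ : IsSymplectic σ) (hH : ContMDiff 𝓘(ℝ, E) 𝓘(ℝ, ℝ) ∞ H)
    (hX : ∀ p v, σ p (XH p) v = -dif E ℝ H p v) (hY : IsTransverseLiouville σ H c Y)
    {x : N} (hx : H (π x) = c) {η : Fin k → ℝ} (hη : η ≠ 0)
    (hc : ∀ e, dif E ℝ (fun y => H (π y)) x e = 0 →
      σ (π x) (dif E E π x (gen E φ x η)) (dif E E π x e) = 0) :
    ∃ a : ℝ, a ≠ 0 ∧ ∀ t, dif (Fin k → ℝ) E (fun s => π (φ s x)) t η = a • XH (π (φ t x)) := by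
  set L := dif E ℝ (fun y => H (π y)) x with hL
  obtain ⟨v₀, hv₀⟩ : ∃ v, L v ≠ 0 := by
    by_contra hn; push Not at hn
    exact h.dif_H_ne hH hY hx (ContinuousLinearMap.ext hn)
  set a := -σ (π x) (dif E E π x (gen E φ x η)) (dif E E π x v₀) / L v₀ with ha
  have h1 : ∀ v, σ (π x) (dif E E π x (gen E φ x η)) (dif E E π x v) = -a * L v := by
    intro v
    have := hc (v - (L v / L v₀) • v₀) (by simp [hv₀])
    simp only [map_sub, map_smul, smul_eq_mul] at this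
    rw [ha]; field_simp at this ⊢; linarith
  have h2 : ∀ t, dif (Fin k → ℝ) E (fun s => π (φ s x)) t η = a • XH (π (φ t x)) := by
    intro t
    rw [← sub_eq_zero]
    refine hσ.nondeg (π (φ t x)) _ fun w => ?_
    obtain ⟨v, rfl⟩ := h.dif_t_surj hσ t x w
    rw [map_sub, map_smul, _root_.sub_apply, _root_.smul_apply, hX,
      h.dif_orbit, ContinuousLinearMap.comp_apply, h.presForm, h1, h.dif_H hH, smul_eq_mul]
    ring
  refine ⟨a, fun h0 => hη ?_, h2⟩
  have h3 := h2 0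
  rw [h0, zero_smul, h.dif_orbit, ContinuousLinearMap.comp_apply] at h3
  simp only [h.zero] at h3
  apply h.locallyFree x hx
  rw [map_zero]
  apply (h.dif_pi_bij x).1
  rw [map_zero]; exact h3

theorem orbit {x : N} (hx : H (π x) = c) {ξ : Fin k → ℤ} {s a : ℝ} (hs : s ≠ 0) (ha : a ≠ 0)
    (hc : ∀ t, dif (Fin k → ℝ) E (fun s => π (φ s x)) t (s • rv ξ) = a • XH (π (φ t x))) :
    HasOrbit E H c XH := by
  refine ⟨fun τ => π (φ (τ • (a⁻¹ • s • rv ξ)) x), fun τ => ?_, fun τ => by rw [h.presH, hx],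
    |a / s|, abs_pos.2 (div_ne_zero ha hs), fun τ => ?_⟩
  · have d1 : HasFDerivAt (fun τ : ℝ => τ • (a⁻¹ • s • rv ξ))
        ((1 : ℝ →L[ℝ] ℝ).smulRight (a⁻¹ • s • rv ξ)) τ := (hasFDerivAt_id τ).smul_const _
    have d2 := (hasMF_dif ((h.sm_px x).mdifferentiableAt (x := τ • (a⁻¹ • s • rv ξ))
      (by simp))).comp τ d1.hasMFDerivAt
    refine d2.congr_mfderiv ?_
    refine ContinuousLinearMap.ext fun (r : ℝ) => ?_
    show dif (Fin k → ℝ) E (fun s => π (φ s x)) _ ((r : ℝ) • (a⁻¹ • s • rv ξ)) =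
      (r : ℝ) • XH _
    rw [map_smul, map_smul, hc, smul_smul a⁻¹, inv_mul_cancel₀ ha, one_smul]
  · simp only
    rw [add_smul, add_comm]
    rcases abs_choice (a / s) with h1 | h1
    · have : |a / s| • a⁻¹ • s • rv ξ = rv ξ := by
        rw [h1, smul_smul, smul_smul]; field_simp; simp
      rw [this, h.per]
    · have : |a / s| • a⁻¹ • s • rv ξ = rv (-ξ) := by
        rw [h1, smul_smul, smul_smul]
        have : -(a / s) * a⁻¹ * s = -1 := by field_simp
        rw [this]; funext i; simp [rv]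
      rw [this, h.per]

variable [IsManifold 𝓘(ℝ, E) ∞ M] [IsManifold 𝓘(ℝ, E) ∞ N]

theorem crit_ne (hσ : IsSymplectic σ) (hX : ∀ p v, σ p (XH p) v = -dif E ℝ H p v)
    (hY : IsTransverseLiouville σ H c Y) {x : N} (hx : H (π x) = c) {η : Fin k → ℝ} {a : ℝ}
    (ha : a ≠ 0) (hc : ∀ t, dif (Fin k → ℝ) E (fun s => π (φ s x)) t η = a • XH (π (φ t x))) :
    Mom σ Y π φ x η ≠ 0 := by
  rw [h.Mom_apply hσ hY hx]
  refine avg_ne_zero ((h.Fm_cont hσ hY hx).clm_apply continuous_const) fun t => ?_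
  obtain ⟨U, -, -, -, hT⟩ := hY
  simp only [Fm, ContinuousLinearMap.comp_apply, hc, map_smul, smul_eq_mul]
  rw [hσ.skew, hX, neg_neg]
  exact mul_ne_zero ha (hT _ (by rw [h.presH, hx]))

omit [IsManifold 𝓘(ℝ, E) ∞ M] in
theorem H_strict (hH : ContMDiff 𝓘(ℝ, E) 𝓘(ℝ, ℝ) ∞ H) (x : N) :
    HasStrictFDerivAt ((fun y => H (π y)) ∘ (chartAt E x).symm) (dif E ℝ (fun y => H (π y)) x)
      (chartAt E x x) := by
  have hz := (chartAt E x).map_source (mem_chart_source E x)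
  have s1 : ContMDiff 𝓘(ℝ, E) 𝓘(ℝ, ℝ) ∞ fun y => H (π y) := hH.comp h.sm_pi
  have s2 : ContDiffAt ℝ ∞ ((fun y => H (π y)) ∘ (chartAt E x).symm) (chartAt E x x) :=
    (s1.contMDiffAt.comp _ (chart_symm_smooth x hz)).contDiffAt
  have e := dif_comp (g := fun y => H (π y)) (f := (chartAt E x).symm) (x := chartAt E x x)
    (s1.mdifferentiableAt (by simp)) ((chart_symm_smooth x hz).mdifferentiableAt (by simp))
  rw [dif_fderiv, (chartAt E x).left_inv (mem_chart_source E x)] at e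
  have e2 : fderiv ℝ ((fun y => H (π y)) ∘ (chartAt E x).symm) (chartAt E x x) =
      dif E ℝ (fun y => H (π y)) x := by
    refine e.trans (ContinuousLinearMap.ext fun v => ?_)
    rw [ContinuousLinearMap.comp_apply, dif_chart_symm_self]
  rw [← e2]
  exact s2.hasStrictFDerivAt (by simp)

theorem mu_strict (hσ : IsSymplectic σ) (hY : IsTransverseLiouville σ H c Y) {x : N}
    (hx : H (π x) = c) : ∃ D : E →L[ℝ] (Fin k → ℝ),
      HasStrictFDerivAt (mu σ Y π φ ∘ (chartAt E x).symm) D (chartAt E x x) ∧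
      ∀ v η, η ⬝ᵥ D v = -σ (π x) (dif E E π x (gen E φ x η)) (dif E E π x v) := by
  obtain ⟨D, h1, h2⟩ := h.Mom_deriv hσ hY hx
  let T : ((Fin k → ℝ) →L[ℝ] ℝ) →L[ℝ] (Fin k → ℝ) :=
    ContinuousLinearMap.pi fun i => ContinuousLinearMap.apply ℝ ℝ (Pi.single i 1)
  refine ⟨T.comp D, T.hasStrictFDerivAt.comp _ h1, fun v η => ?_⟩
  rw [← h2]
  exact dot_single (D v) η

theorem mu_cont (hσ : IsSymplectic σ) (hY : IsTransverseLiouville σ H c Y) :
    Continuous fun x : {x // H (π x) = c} => mu σ Y π φ x.1 := by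
  refine continuous_iff_continuousAt.2 fun x => ?_
  obtain ⟨D, h1, -⟩ := h.mu_strict hσ hY x.2
  have h2 : ContinuousAt (fun y => (mu σ Y π φ ∘ (chartAt E x.1).symm) (chartAt E x.1 y)) x.1 :=
    ContinuousAt.comp (f := chartAt E x.1) h1.continuousAt ((chartAt E x.1).continuousAt (mem_chart_source E _))
  have h3 : ContinuousAt (mu σ Y π φ) x.1 := by
    refine h2.congr ?_
    filter_upwards [chart_source_mem_nhds E x.1] with y hy
    simp [(chartAt E x.1).left_inv hy]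
  exact ContinuousAt.comp h3 continuous_subtype_val.continuousAt

theorem box_or [FiniteDimensional ℝ E] (hσ : IsSymplectic σ) (hH : ContMDiff 𝓘(ℝ, E) 𝓘(ℝ, ℝ) ∞ H)
    (hX : ∀ p v, σ p (XH p) v = -dif E ℝ H p v) (hY : IsTransverseLiouville σ H c Y)
    (x : {x // H (π x) = c}) {η : Fin k → ℝ} (hη : η ≠ 0) :
    Box (fun x : {x // H (π x) = c} => mu σ Y π φ x.1) x η ∨
    ∃ a : ℝ, a ≠ 0 ∧ ∀ t, dif (Fin k → ℝ) E (fun s => π (φ s x)) t η = a • XH (π (φ t x)) := by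
  have := FiniteDimensional.complete ℝ E
  by_cases hc : ∀ e, dif E ℝ (fun y => H (π y)) x e = 0 →
      σ (π x) (dif E E π x (gen E φ x η)) (dif E E π x e) = 0
  · exact Or.inr (h.crit hσ hH hX hY x.2 hη hc)
  left
  push Not at hc
  obtain ⟨e, he, he'⟩ := hc
  obtain ⟨D, h1, h2⟩ := h.mu_strict hσ hY x.2
  exact level_box (f := fun y => H (π y)) (chartAt E x.1) x (mem_chart_source E _)
    (h.H_strict hH x) (h.dif_H_ne hH hY x.2) h1 he (by rw [h2]; exact neg_ne_zero.2 he')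

omit [IsManifold 𝓘(ℝ, E) ∞ M] in
theorem locConn [FiniteDimensional ℝ E] (hH : ContMDiff 𝓘(ℝ, E) 𝓘(ℝ, ℝ) ∞ H)
    (hY : IsTransverseLiouville σ H c Y) : LocallyConnectedSpace {x // H (π x) = c} := by
  have := FiniteDimensional.complete ℝ E
  exact level_locallyConnected (f := fun y => H (π y)) fun y =>
    ⟨chartAt E y.1, _, mem_chart_source E _, h.H_strict hH y, h.dif_H_ne hH hY y.2⟩

end IsTwistedTorus

end Pool.Agent.P.MP_e3ee0c_gt
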