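import Mathlib

open Manifold Set Matrix
open scoped ContDiff

namespace Pool.Agent.P.MP_e3ee0c_gt

variable {E F : Type*} [NormedAddCommGroup E] [NormedSpace ℝ E] [NormedAddCommGroup F]
  [NormedSpace ℝ F] {M N : Type*} [TopologicalSpace M] [TopologicalSpace N]

/-- The differential at x of a map between manifolds modelled on E and F. As in Mathlib, the
tangent space at a point is the model space, read in the preferred chart at that point. -/
noncomputable def dif (E F : Type*) [NormedAddCommGroup E] [NormedSpace ℝ E]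
    [NormedAddCommGroup F] [NormedSpace ℝ F] [ChartedSpace E M] [ChartedSpace F N]
    (f : M → N) (x : M) : E →L[ℝ] F :=
  mfderiv 𝓘(ℝ, E) 𝓘(ℝ, F) f x

variable [ChartedSpace E M]

/-- A field of bilinear forms on M written in the chart at p. -/
noncomputable def chartForm (σ : M → E →L[ℝ] E →L[ℝ] ℝ) (p : M) (z : E) : E →L[ℝ] E →L[ℝ] ℝ :=
  (σ ((chartAt E p).symm z)).bilinearComp (dif E E (chartAt E p).symm z)
    (dif E E (chartAt E p).symm z)

/-- A vector field on M written in the chart at p. -/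
noncomputable def chartField (Y : M → E) (p : M) (z : E) : E :=
  dif E E (chartAt E p) ((chartAt E p).symm z) (Y ((chartAt E p).symm z))

/-- A smooth, skew, nondegenerate and closed field of bilinear forms. -/
structure IsSymplectic (σ : M → E →L[ℝ] E →L[ℝ] ℝ) : Prop where
  skew : ∀ p u v, σ p u v = -σ p v u
  nondeg : ∀ p u, (∀ v, σ p u v = 0) → u = 0
  smooth : ∀ p, ContDiffAt ℝ ∞ (chartForm σ p) (chartAt E p p)
  closed : ∀ p u v w, fderiv ℝ (chartForm σ p) (chartAt E p p) u v w +
    fderiv ℝ (chartForm σ p) (chartAt E p p) v w u +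
    fderiv ℝ (chartForm σ p) (chartAt E p p) w u v = 0

/-- Y is a smooth vector field on an open neighbourhood U of the level H = c whose Lie derivative
of the form is the form itself on U, and Y is transverse to the level. -/
def IsTransverseLiouville (σ : M → E →L[ℝ] E →L[ℝ] ℝ) (H : M → ℝ) (c : ℝ) (Y : M → E) : Prop :=
  ∃ U : Set M, IsOpen U ∧ H ⁻¹' {c} ⊆ U ∧
    (∀ p ∈ U, ContDiffAt ℝ ∞ (chartField Y p) (chartAt E p p) ∧ ∀ u v,
      fderiv ℝ (chartForm σ p) (chartAt E p p) (Y p) u v +
        σ p (fderiv ℝ (chartField Y p) (chartAt E p p) u) v +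
        σ p u (fderiv ℝ (chartField Y p) (chartAt E p p) v) = σ p u v) ∧
    ∀ p, H p = c → dif E ℝ H p (Y p) ≠ 0

/-- A twisted torus symmetry of rank k near the level H = c: a regular covering π with deck group Γ,
and a locally free action φ of the torus of rank k upstairs that preserves the pulled back form and
Hamiltonian and is normalised by Γ through the monodromy ρ. -/
structure IsTwistedTorus [ChartedSpace E N] (σ : M → E →L[ℝ] E →L[ℝ] ℝ) (H : M → ℝ) (c : ℝ)
    (π : N → M) (Γ : Type*) [Group Γ] [MulAction Γ N] {k : ℕ} (ρ : Γ →* GL (Fin k) ℤ)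
    (φ : (Fin k → ℝ) → N → N) : Prop where
  localDiffeo : IsLocalDiffeomorph 𝓘(ℝ, E) 𝓘(ℝ, E) ∞ π
  covers : ∀ p, H p = c → ∃ x, π x = p
  connected : IsPreconnected {x | H (π x) = c}
  deckCont : ∀ γ : Γ, Continuous fun x : N => γ • x
  proper : ProperlyDiscontinuousSMul Γ N
  deck : ∀ (γ : Γ) x, π (γ • x) = π x
  transitive : ∀ x y, π x = π y → ∃ γ : Γ, γ • x = y
  smooth : ContMDiff (𝓘(ℝ, Fin k → ℝ).prod 𝓘(ℝ, E)) 𝓘(ℝ, E) ∞
    (fun q : (Fin k → ℝ) × N => φ q.1 q.2)
  zero : ∀ x, φ 0 x = x
  add : ∀ s t x, φ (s + t) x = φ s (φ t x)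
  periodic : ∀ (m : Fin k → ℤ) x, φ (fun i => (m i : ℝ)) x = x
  locallyFree : ∀ x, H (π x) = c → Function.Injective (dif (Fin k → ℝ) E (fun t => φ t x) 0)
  presH : ∀ t x, H (π (φ t x)) = H (π x)
  presForm : ∀ t x u v, σ (π (φ t x)) (dif E E (fun y => π (φ t y)) x u)
    (dif E E (fun y => π (φ t y)) x v) = σ (π x) (dif E E π x u) (dif E E π x v)
  twist : ∀ (γ : Γ) t x,
    γ • φ t x = φ (((ρ γ : Matrix (Fin k) (Fin k) ℤ).map (Int.cast : ℤ → ℝ)) *ᵥ t) (γ • x)

/-- An infinite group in which every subset that is almost invariant under right multiplication is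
finite or cofinite. For finitely generated groups this says that the group has exactly one end. -/
def OneEnded (G : Type*) [Group G] : Prop :=
  Infinite G ∧ ∀ A : Set G, (∀ g, ((fun a => a * g) '' A \ A).Finite) → A.Finite ∨ Aᶜ.Finite

end Pool.Agent.P.MP_e3ee0c_gt
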