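import Pool.Agent.P.MP_e3ee0c_gt.Defs

namespace Pool.Agent.P.MP_e3ee0c_gt

variable {E : Type*} [NormedAddCommGroup E] [NormedSpace ℝ E] {M N : Type*} [TopologicalSpace M]
  [ChartedSpace E M]

/-- The moment of the generator ξ at x: the Liouville form σ(Y, .) evaluated on the velocity of
the torus action in the direction ξ, averaged over the torus orbit of x. -/
noncomputable def moment (σ : M → E →L[ℝ] E →L[ℝ] ℝ) (Y : M → E) (π : N → M) {k : ℕ}
    (φ : (Fin k → ℝ) → N → N) (ξ : Fin k → ℤ) (x : N) : ℝ :=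
  ∫ t in Set.Icc (0 : Fin k → ℝ) 1, σ (π (φ t x)) (Y (π (φ t x)))
    (dif (Fin k → ℝ) E (fun s => π (φ s x)) t fun i => (ξ i : ℝ))

end Pool.Agent.P.MP_e3ee0c_gt
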