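import Mathlib

open Set

namespace Pool.Agent.P.MP_e3ee0c_gt

variable {k : ℕ} {G : Type*} [Group G]

/-- Pairing of a real vector with a rational vector. -/
noncomputable def ev (q : Fin k → ℝ) : (Fin k → ℚ) →ₗ[ℚ] ℝ where
  toFun ξ := ∑ i, q i * (ξ i : ℝ)
  map_add' a b := by simp [mul_add, Finset.sum_add_distrib]
  map_smul' r a := by
    simp only [Pi.smul_apply, smul_eq_mul, Rat.cast_mul, RingHom.id_apply, Rat.smul_def,
      Finset.mul_sum]
    exact Finset.sum_congr rfl fun i _ => by ring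

theorem ev_apply (q : Fin k → ℝ) (ξ : Fin k → ℚ) : ev q ξ = ∑ i, q i * (ξ i : ℝ) := rfl

/-- Almost invariant subsets. -/
def AI (T : Set G) : Prop := ∀ g, ((fun a => a * g) '' T \ T).Finite

theorem AI.compl {T : Set G} (h : AI T) : AI Tᶜ := by
  intro g
  refine ((h g⁻¹).image (fun a => a * g)).subset ?_
  rintro _ ⟨⟨b, hb, rfl⟩, h2⟩
  exact ⟨b, ⟨⟨b * g, by simpa using h2, by simp⟩, hb⟩, rfl⟩

theorem AI.inter {T T' : Set G} (h : AI T) (h' : AI T') : AI (T ∩ T') := by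
  intro g
  refine ((h g).union (h' g)).subset ?_
  rintro _ ⟨⟨b, hb, rfl⟩, h2⟩
  by_cases h3 : b * g ∈ T
  · exact Or.inr ⟨⟨b, hb.2, rfl⟩, fun h4 => h2 ⟨h3, h4⟩⟩
  · exact Or.inl ⟨⟨b, hb.1, rfl⟩, h3⟩

theorem AI.left {T : Set G} (h : AI T) (g : G) : AI {a | g⁻¹ * a ∈ T} := by
  intro s
  refine ((h s).image (fun a => g * a)).subset ?_
  rintro _ ⟨⟨b, hb, rfl⟩, h2⟩
  exact ⟨g⁻¹ * (b * s), ⟨⟨g⁻¹ * b, hb, by simp [mul_assoc]⟩, h2⟩, by simp⟩

/-- The data of the algebraic lemma. -/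
structure Dat (k : ℕ) (G : Type*) [Group G] where
  act : G → (Fin k → ℚ) →ₗ[ℚ] (Fin k → ℚ)
  Q : Set (Fin k → ℝ)
  one : ∀ ξ, act 1 ξ = ξ
  mul : ∀ a b ξ, act (a * b) ξ = act b (act a ξ)
  int : ∀ g (ξ : Fin k → ℤ), ∃ ξ' : Fin k → ℤ, act g (fun i => ξ i) = fun i => (ξ' i : ℚ)
  bdd : ∃ R, ∀ q ∈ Q, ‖q‖ ≤ R
  span : ∀ η : Fin k → ℝ, η ≠ 0 → ∃ g, ∃ q ∈ Q, ∑ i, η i * ev q (act g (Pi.single i 1)) ≠ 0

namespace Dat

variable (D : Dat k G)

/-- Bounded above on a set of group elements. -/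
def Bdd (T : Set G) (ξ : Fin k → ℚ) : Prop := ∃ C, ∀ a ∈ T, ∀ q ∈ D.Q, ev q (D.act a ξ) ≤ C

variable {D}

theorem Bdd.mono {T T' : Set G} {ξ} (h : D.Bdd T ξ) (hT : T' ⊆ T) : D.Bdd T' ξ := by
  obtain ⟨C, hC⟩ := h
  exact ⟨C, fun a ha => hC a (hT ha)⟩

theorem Bdd.add {T : Set G} {ξ ζ} (h : D.Bdd T ξ) (h' : D.Bdd T ζ) : D.Bdd T (ξ + ζ) := by
  obtain ⟨C, hC⟩ := h
  obtain ⟨C', hC'⟩ := h'
  exact ⟨C + C', fun a ha q hq => by
    rw [map_add, map_add]; exact add_le_add (hC a ha q hq) (hC' a ha q hq)⟩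

theorem Bdd.smul {T : Set G} {ξ} (h : D.Bdd T ξ) {r : ℚ} (hr : 0 ≤ r) : D.Bdd T (r • ξ) := by
  obtain ⟨C, hC⟩ := h
  refine ⟨r * C, fun a ha q hq => ?_⟩
  rw [map_smul, map_smul, Rat.smul_def]
  exact mul_le_mul_of_nonneg_left (hC a ha q hq) (by exact_mod_cast hr)

theorem Bdd.zero (T : Set G) : D.Bdd T 0 := ⟨0, fun a _ q _ => by simp⟩

theorem Bdd.union {T T' : Set G} {ξ} (h : D.Bdd T ξ) (h' : D.Bdd T' ξ) : D.Bdd (T ∪ T') ξ := by
  obtain ⟨C, hC⟩ := h
  obtain ⟨C', hC'⟩ := h'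
  refine ⟨max C C', ?_⟩
  rintro a (ha | ha) q hq
  · exact (hC a ha q hq).trans (le_max_left _ _)
  · exact (hC' a ha q hq).trans (le_max_right _ _)

theorem ev_bdd (D : Dat k G) (ξ : Fin k → ℚ) : ∃ C, ∀ q ∈ D.Q, |ev q ξ| ≤ C := by
  obtain ⟨R, hR⟩ := D.bdd
  refine ⟨∑ i, R * |(ξ i : ℝ)|, fun q hq => ?_⟩
  rw [ev_apply]
  refine (Finset.abs_sum_le_sum_abs _ _).trans (Finset.sum_le_sum fun i _ => ?_)
  rw [abs_mul]
  gcongr
  exact (norm_le_pi_norm q i).trans (hR q hq)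

theorem Bdd.of_finite {T : Set G} (hT : T.Finite) (ξ) : D.Bdd T ξ := by
  induction T, hT using Set.Finite.induction_on with
  | empty => exact ⟨0, by simp⟩
  | @insert a s _ _ ih =>
    obtain ⟨C, hC⟩ := D.ev_bdd (D.act a ξ)
    have : D.Bdd {a} ξ := ⟨C, by
      rintro _ rfl q hq; exact (le_abs_self _).trans (hC q hq)⟩
    simpa using this.union ih

theorem Bdd.left {T : Set G} {ξ} (g : G) (h : D.Bdd T (D.act g ξ)) :
    D.Bdd {a | g⁻¹ * a ∈ T} ξ := by
  obtain ⟨C, hC⟩ := h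
  refine ⟨C, fun a ha q hq => ?_⟩
  have := hC _ ha q hq
  rwa [← D.mul, mul_inv_cancel_left] at this

theorem exists_denom (ξ : Fin k → ℚ) :
    ∃ N : ℚ, 0 < N ∧ ∃ ζ : Fin k → ℤ, N • ξ = fun i => (ζ i : ℚ) := by
  refine ⟨∏ i, ((ξ i).den : ℚ), Finset.prod_pos fun i _ => by exact_mod_cast (ξ i).den_pos, ?_⟩
  have : ∀ i, ∃ z : ℤ, (∏ j, ((ξ j).den : ℚ)) * ξ i = z := by
    intro i
    rw [← Finset.mul_prod_erase _ _ (Finset.mem_univ i)]
    refine ⟨(∏ j ∈ Finset.univ.erase i, ((ξ j).den : ℤ)) * (ξ i).num, ?_⟩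
    push_cast
    rw [← Rat.den_mul_eq_num (ξ i)]
    ring
  choose ζ hζ using this
  exact ⟨ζ, funext fun i => by simpa using hζ i⟩

theorem finite_of_bdd (D : Dat k G) (ξ : Fin k → ℚ) (T : Set G)
    (h : ∀ g, ∀ q ∈ D.Q, ∃ C, ∀ a ∈ T, |ev q (D.act g (D.act a ξ))| ≤ C) :
    ((fun a => D.act a ξ) '' T).Finite := by
  let Z : Submodule ℝ (Fin k → ℝ) :=
    { carrier := {z | ∃ C, ∀ a ∈ T, |ev z (D.act a ξ)| ≤ C}
      add_mem' := by
        rintro z z' ⟨C, hC⟩ ⟨C', hC'⟩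
        refine ⟨C + C', fun a ha => ?_⟩
        have : ev (z + z') (D.act a ξ) = ev z (D.act a ξ) + ev z' (D.act a ξ) := by
          simp [ev, add_mul, Finset.sum_add_distrib]
        rw [this]
        exact (abs_add_le _ _).trans (add_le_add (hC a ha) (hC' a ha))
      zero_mem' := ⟨0, fun a _ => by simp [ev]⟩
      smul_mem' := by
        rintro r z ⟨C, hC⟩
        refine ⟨|r| * C, fun a ha => ?_⟩
        have : ev (r • z) (D.act a ξ) = r * ev z (D.act a ξ) := by
          simp [ev, Finset.mul_sum, mul_assoc]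
        rw [this, abs_mul]
        gcongr
        exact hC a ha }
  have hZ : Z = ⊤ := by
    by_contra hne
    obtain ⟨f, hf0, hf⟩ := Submodule.exists_le_ker_of_lt_top Z (lt_top_iff_ne_top.2 hne)
    have hη : (fun i => f (Pi.single i 1)) ≠ 0 := by
      intro h0
      apply hf0
      refine (Pi.basisFun ℝ (Fin k)).ext fun i => ?_
      simpa using congrFun h0 i
    obtain ⟨g, q, hq, hne⟩ := D.span _ hη
    have hm : (fun i => ev q (D.act g (Pi.single i 1))) ∈ Z := by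
      obtain ⟨C, hC⟩ := h g q hq
      refine ⟨C, fun a ha => ?_⟩
      have : ev (fun i => ev q (D.act g (Pi.single i 1))) (D.act a ξ) =
          ev q (D.act g (D.act a ξ)) := by
        conv_rhs => rw [← Finset.univ_sum_single (D.act a ξ)]
        rw [map_sum, map_sum, ev_apply]
        refine Finset.sum_congr rfl fun i _ => ?_
        have : (Pi.single i (D.act a ξ i) : Fin k → ℚ) = D.act a ξ i • Pi.single i 1 := by
          rw [← Pi.single_smul]; simp
        rw [this, map_smul, map_smul, Rat.smul_def, mul_comm]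
      rw [this]; exact hC a ha
    apply hne
    have h1 : f (fun i => ev q (D.act g (Pi.single i 1))) = 0 := hf hm
    rw [← Finset.univ_sum_single (fun i => ev q (D.act g (Pi.single i 1))), map_sum] at h1
    rw [← h1]
    refine Finset.sum_congr rfl fun i _ => ?_
    have : (Pi.single i (ev q (D.act g (Pi.single i 1))) : Fin k → ℝ) =
        ev q (D.act g (Pi.single i 1)) • Pi.single i 1 := by
      rw [← Pi.single_smul]; simp
    rw [this, map_smul, smul_eq_mul, mul_comm]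
  have hb : ∀ i, ∃ C : ℝ, ∀ a ∈ T, |(D.act a ξ i : ℝ)| ≤ C := by
    intro i
    obtain ⟨C, hC⟩ : (Pi.single i 1 : Fin k → ℝ) ∈ Z := hZ ▸ Submodule.mem_top
    refine ⟨C, fun a ha => ?_⟩
    have := hC a ha
    simpa [ev, Pi.single_apply] using this
  choose C hC using hb
  obtain ⟨N, hN, ζ, hζ⟩ := exists_denom ξ
  refine ((Set.Finite.pi' (fun i : Fin k => Set.finite_Icc (-⌈N * C i⌉) ⌈N * C i⌉)).image
    (fun z : Fin k → ℤ => N⁻¹ • fun i => (z i : ℚ))).subset ?_
  rintro _ ⟨a, ha, rfl⟩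
  obtain ⟨z, hz⟩ := D.int a ζ
  rw [← hζ, map_smul] at hz
  refine ⟨z, fun i => ?_, ?_⟩
  · have h1 : (z i : ℝ) = N * (D.act a ξ i : ℝ) := by
      have := congrFun hz i
      simp only [Pi.smul_apply, smul_eq_mul] at this
      exact_mod_cast this.symm
    have h2 : ((|z i| : ℤ) : ℝ) ≤ (⌈(N : ℝ) * C i⌉ : ℝ) := by
      rw [Int.cast_abs, h1, abs_mul, abs_of_pos (by exact_mod_cast hN)]
      refine le_trans ?_ (Int.le_ceil _)
      gcongr
      exact hC i a ha
    exact abs_le.1 (by exact_mod_cast h2)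
  · simp only
    rw [← hz, smul_smul, inv_mul_cancel₀ hN.ne', one_smul]

theorem eq_zero_of_both (unb : ∀ ξ, ξ ≠ 0 → ¬ D.Bdd univ ξ) {T : Set G} (hT : AI T)
    (hinf : T.Infinite) {ξ} (h1 : D.Bdd T ξ) (h2 : D.Bdd T (-ξ)) : ξ = 0 := by
  by_contra h0
  apply unb ξ h0
  have hF : ((fun a => D.act a ξ) '' T).Finite := by
    refine D.finite_of_bdd ξ T fun g q hq => ?_
    obtain ⟨C, hC⟩ := h1.union (Bdd.of_finite (hT g) ξ)
    obtain ⟨C', hC'⟩ := h2.union (Bdd.of_finite (hT g) (-ξ))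
    refine ⟨max C C', fun a ha => ?_⟩
    have hm : a * g ∈ T ∪ ((fun a => a * g) '' T \ T) := by
      by_cases h : a * g ∈ T
      · exact Or.inl h
      · exact Or.inr ⟨⟨a, ha, rfl⟩, h⟩
    have e1 := hC _ hm q hq
    have e2 := hC' _ hm q hq
    rw [map_neg, map_neg] at e2
    rw [← D.mul, abs_le]
    constructor
    · linarith [le_max_right C C']
    · linarith [le_max_left C C']
  have hv : ∃ a₀ ∈ T, {a ∈ T | D.act a ξ = D.act a₀ ξ}.Infinite := by
    by_contra hcon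
    push Not at hcon
    apply hinf
    refine (hF.biUnion (t := fun v => {a ∈ T | D.act a ξ = v}) ?_).subset ?_
    · rintro _ ⟨a, ha, rfl⟩
      exact hcon a ha
    · intro a ha
      exact mem_biUnion (mem_image_of_mem _ ha) ⟨ha, rfl⟩
  obtain ⟨a₀, -, hv⟩ := hv
  obtain ⟨C, hC⟩ := h1
  refine ⟨C, fun b _ q hq => ?_⟩
  have hi : ((fun a => a * (a₀⁻¹ * b)) '' {a ∈ T | D.act a ξ = D.act a₀ ξ}).Infinite :=
    hv.image (mul_left_injective _).injOn
  obtain ⟨_, ⟨a, ⟨ha, ha'⟩, rfl⟩, hn⟩ := hi.exists_notMem_finite (hT (a₀⁻¹ * b))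
  have hm : a * (a₀⁻¹ * b) ∈ T := by
    by_contra h
    exact hn ⟨⟨a, ha, rfl⟩, h⟩
  have := hC _ hm q hq
  rwa [D.mul, ha', ← D.mul, mul_inv_cancel_left] at this

theorem act_ne_zero (D : Dat k G) (g : G) {ξ} (h : ξ ≠ 0) : D.act g ξ ≠ 0 := by
  intro h0
  apply h
  rw [← D.one ξ, ← mul_inv_cancel g, D.mul, h0, map_zero]

/-- The main algebraic lemma. -/
theorem false_of_ends (D : Dat k G) (hk : 0 < k) (unb : ∀ ξ, ξ ≠ 0 → ¬ D.Bdd univ ξ)
    {A : Set G} (hA : AI A) (hi : A.Infinite) (hi' : Aᶜ.Infinite)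
    (alt : ∀ ξ, ξ ≠ 0 → D.Bdd A ξ ∨ D.Bdd Aᶜ ξ) : False := by
  have anti : ∀ {ξ}, D.Bdd A ξ → D.Bdd A (-ξ) → ξ = 0 := fun h1 h2 =>
    eq_zero_of_both unb hA hi h1 h2
  have other : ∀ {ξ}, ¬ D.Bdd A ξ → D.Bdd Aᶜ ξ := by
    intro ξ h
    by_cases h0 : ξ = 0
    · exact h0 ▸ Bdd.zero _
    · exact (alt ξ h0).resolve_left h
  have total : ∀ {ξ}, ¬ D.Bdd A ξ → D.Bdd A (-ξ) := by
    intro ξ h
    by_contra h'
    have := eq_zero_of_both unb hA.compl hi' (other h) (other h')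
    exact h (this ▸ Bdd.zero _)
  have flip : ∀ {ξ}, D.Bdd A ξ → D.Bdd Aᶜ (-ξ) := by
    intro ξ h
    by_cases h' : D.Bdd A (-ξ)
    · rw [anti h h', neg_zero]; exact Bdd.zero _
    · exact other h'
  have sgn : ∀ g, ∃ e : ℚ, (e = 1 ∨ e = -1) ∧ ∀ ξ, D.Bdd A ξ → D.Bdd A (e • D.act g ξ) := by
    intro g
    have : (A ∩ {a | g⁻¹ * a ∈ A}).Infinite ∨ (A ∩ {a | g⁻¹ * a ∈ Aᶜ}).Infinite := by
      rw [← infinite_union]
      refine hi.mono fun a ha => ?_
      by_cases h : g⁻¹ * a ∈ A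
      · exact Or.inl ⟨ha, h⟩
      · exact Or.inr ⟨ha, h⟩
    rcases this with h | h
    · refine ⟨1, Or.inl rfl, fun ξ hξ => ?_⟩
      rw [one_smul]
      by_contra hn
      have h2 : D.Bdd A (D.act g (-ξ)) := by rw [map_neg]; exact total hn
      have := eq_zero_of_both unb (hA.inter (hA.left g)) h (hξ.mono inter_subset_left)
        ((h2.left g).mono inter_subset_right)
      exact hn (by rw [this, map_zero]; exact Bdd.zero _)
    · refine ⟨-1, Or.inr rfl, fun ξ hξ => ?_⟩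
      rw [neg_one_smul]
      by_contra hn
      have h2 : D.Bdd Aᶜ (D.act g (-ξ)) := by rw [map_neg]; exact other hn
      have := eq_zero_of_both unb (hA.inter (hA.compl.left g)) h (hξ.mono inter_subset_left)
        ((h2.left g).mono inter_subset_right)
      exact hn (by rw [this, map_zero, neg_zero]; exact Bdd.zero _)
  choose e he1 he using sgn
  let W : {η // D.Bdd A η} → Submodule ℚ (Fin k → ℚ) := fun η =>
    { carrier := {ξ | ∀ r : ℚ, D.Bdd A (η.1 + r • ξ)}
      add_mem' := by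
        intro a b ha hb r
        have := ((ha (2 * r)).add (hb (2 * r))).smul (r := 1 / 2) (by norm_num)
        convert this using 1
        module
      zero_mem' := fun r => by simpa using η.2
      smul_mem' := by
        intro c a ha r
        have := ha (r * c)
        rwa [mul_smul] at this }
  have hne : (W '' {η | η.1 ≠ 0}).Nonempty := by
    let ξ : Fin k → ℚ := fun _ => 1
    have h0 : ξ ≠ 0 := fun h => by simpa [ξ] using congrFun h ⟨0, hk⟩
    by_cases h : D.Bdd A ξ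
    · exact ⟨_, ⟨ξ, h⟩, h0, rfl⟩
    · exact ⟨_, ⟨-ξ, total h⟩, neg_ne_zero.2 h0, rfl⟩
  obtain ⟨_, ⟨⟨η, hη⟩, hη0, rfl⟩, hmin⟩ := wellFounded_lt.has_min _ hne
  have hη0' : η ≠ 0 := hη0
  have hW : ∀ ξ, D.Bdd A ξ → ξ ≠ 0 → ξ ∉ W ⟨η, hη⟩ := by
    intro ξ hξ h0 hmem
    refine hmin (W ⟨ξ, hξ⟩) ⟨⟨ξ, hξ⟩, h0, rfl⟩ (lt_of_le_of_ne ?_ ?_)
    · intro ζ hζ r
      have := (hmem (-1)).add (hζ r)
      convert this using 1
      simp only; module
    · intro heq
      have h1 : ξ ∈ W ⟨ξ, hξ⟩ := heq ▸ hmem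
      have h2 := h1 (-2)
      refine h0 (anti hξ ?_)
      convert h2 using 1
      simp only; module
  have hsq : ∀ g, e g * e g = 1 := fun g => by rcases he1 g with h | h <;> simp [h]
  have hg : ∃ g, D.Bdd A (η - e g • D.act g η) ∧ η - e g • D.act g η ≠ 0 := by
    by_contra hcon
    push Not at hcon
    have hall : ∀ g, e g • D.act g η = η := by
      intro g
      by_contra hn
      have h1 : ¬ D.Bdd A (η - e g • D.act g η) := fun h => hn (sub_eq_zero.1 (hcon g h)).symm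
      have h2 := he g⁻¹ _ (total h1)
      have h3 := he g⁻¹ _ (he g _ hη)
      rw [map_smul, ← D.mul, mul_inv_cancel, D.one, smul_smul] at h3
      have h4 : e g⁻¹ * e g = 1 := by
        rcases he1 g with h | h <;> rcases he1 g⁻¹ with h' | h' <;> simp [h, h'] at h3 ⊢
        all_goals exact absurd (anti hη h3) hη0'
      rw [neg_sub, map_sub, map_smul, ← D.mul, mul_inv_cancel, D.one, smul_sub, smul_smul, h4,
        one_smul] at h2
      have h5 := sub_eq_zero.1 (hcon _ h2)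
      apply hn
      conv_lhs => rw [h5]
      rw [map_smul, ← D.mul, inv_mul_cancel, D.one, smul_smul, mul_comm, h4, one_smul]
    apply unb η hη0'
    obtain ⟨C, hC⟩ := D.ev_bdd η
    refine ⟨C, fun a _ q hq => ?_⟩
    have h1 : D.act a η = e a • η := by
      conv_rhs => rw [← hall a]
      rw [smul_smul, hsq, one_smul]
    rw [h1, map_smul]
    have := abs_le.1 (hC q hq)
    rcases he1 a with h | h <;> simp [h] <;> linarith
  obtain ⟨g, hg1, hg2⟩ := hg
  have hr : ∃ r : ℚ, ¬ D.Bdd A (η + r • (η - e g • D.act g η)) := by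
    by_contra hcon
    push Not at hcon
    exact hW _ hg1 hg2 hcon
  obtain ⟨r, hr⟩ := hr
  have hr0 : r < 0 := by
    by_contra h
    exact hr (hη.add (hg1.smul (not_lt.1 h)))
  set n : ℚ := -r with hn
  have hn0 : 0 < n := by linarith
  have z1 : D.Bdd A ((n - 1) • η - n • e g • D.act g η) := by
    convert total hr using 1
    rw [hn]; module
  have z0 : D.Bdd A ((n - 1) • η) := by
    convert z1.add ((he g _ hη).smul hn0.le) using 1
    module
  have z2 : D.Bdd A ((n - 1) • η + n • e g • D.act g η) := z0.add ((he g _ hη).smul hn0.le)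
  have hn1 : 1 ≤ n := by
    by_contra h
    have h1 : 0 < (1 - n)⁻¹ := inv_pos.2 (by linarith)
    refine hη0' (anti hη ?_)
    convert z0.smul h1.le using 1
    rw [smul_smul]
    have : (1 - n)⁻¹ * (n - 1) = -1 := by
      have : 1 - n ≠ 0 := by linarith
      field_simp
      ring
    rw [this, neg_one_smul]
  have contr : ∃ C : ℝ, ∀ a, ∀ q ∈ D.Q,
      n * |ev q (D.act a (D.act g η))| ≤ (n - 1) * |ev q (D.act a η)| + C := by
    obtain ⟨C3, h3⟩ := flip z1
    obtain ⟨C4, h4⟩ := flip z2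
    obtain ⟨C1, h1⟩ := z1
    obtain ⟨C2, h2⟩ := z2
    refine ⟨|C1| + |C2| + |C3| + |C4|, fun a q hq => ?_⟩
    have hn1' : (1 : ℝ) ≤ n := by exact_mod_cast hn1
    have b1 : |((n : ℝ) - 1) * ev q (D.act a η)| = (n - 1) * |ev q (D.act a η)| := by
      rw [abs_mul, abs_of_nonneg (by linarith)]
    have b2 : |(n : ℝ) * (e g * ev q (D.act a (D.act g η)))| =
        n * |ev q (D.act a (D.act g η))| := by
      rw [abs_mul, abs_mul, abs_of_nonneg (by linarith)]
      rcases he1 g with h | h <;> simp [h]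
    rw [← b1, ← b2]
    have := abs_nonneg C1
    have := abs_nonneg C2
    have := abs_nonneg C3
    have := abs_nonneg C4
    have := le_abs_self (((n : ℝ) - 1) * ev q (D.act a η))
    have := neg_abs_le (((n : ℝ) - 1) * ev q (D.act a η))
    by_cases ha : a ∈ A
    · have e1 := h1 a ha q hq
      have e2 := h2 a ha q hq
      simp only [map_sub, map_add, map_smul, Rat.smul_def] at e1 e2
      push_cast at e1 e2
      rw [abs_le]
      constructor <;> linarith [le_abs_self C1, le_abs_self C2]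
    · have e1 := h3 a ha q hq
      have e2 := h4 a ha q hq
      simp only [map_sub, map_add, map_smul, map_neg, Rat.smul_def] at e1 e2
      push_cast at e1 e2
      rw [abs_le]
      constructor <;> linarith [le_abs_self C3, le_abs_self C4]
  obtain ⟨C, hC⟩ := contr
  have hF : ((fun a => D.act a η) '' range (fun j : ℕ => g ^ j)).Finite := by
    refine D.finite_of_bdd η _ fun a q hq => ⟨max |ev q (D.act a η)| C, ?_⟩
    rintro _ ⟨j, rfl⟩
    induction j with
    | zero => simp [D.one]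
    | succ j ih =>
      have h1 := hC (g ^ j * a) q hq
      rw [D.mul, D.mul, ← D.mul g, ← pow_succ'] at h1
      have hn1' : (1 : ℝ) ≤ n := by exact_mod_cast hn1
      have h2 := le_max_right |ev q (D.act a η)| C
      simp only at ih ⊢
      have h3 : (n : ℝ) * |ev q (D.act a (D.act (g ^ (j + 1)) η))| ≤
          n * max |ev q (D.act a η)| C := by nlinarith
      exact le_of_mul_le_mul_left h3 (by linarith)
  let s : ℕ → Fin k → ℚ := fun j => e g ^ j • D.act (g ^ j) η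
  have hs : ∀ j, s (j + 1) = e g • D.act g (s j) := by
    intro j
    simp only [s]
    rw [map_smul, smul_smul, ← D.mul, pow_succ', pow_succ]
  have hd : ∀ j, D.Bdd A (s j - s (j + 1)) ∧ s j - s (j + 1) ≠ 0 := by
    intro j
    induction j with
    | zero => rw [hs]; simpa [s, D.one] using And.intro hg1 hg2
    | succ j ih =>
      have : s (j + 1) - s (j + 1 + 1) = e g • D.act g (s j - s (j + 1)) := by
        rw [hs (j + 1), map_sub, smul_sub, ← hs j]
      rw [this]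
      refine ⟨he g _ ih.1, smul_ne_zero ?_ (D.act_ne_zero g ih.2)⟩
      rcases he1 g with h | h <;> simp [h]
  have hd2 : ∀ i j, D.Bdd A (s i - s (i + j)) := by
    intro i j
    induction j with
    | zero => simpa using Bdd.zero _
    | succ j ih =>
      have := ih.add (hd (i + j)).1
      rwa [sub_add_sub_cancel] at this
  have hinj : Function.Injective s := by
    refine Function.Injective.of_lt_imp_ne fun i j hij h => ?_
    obtain ⟨l, rfl⟩ := Nat.exists_eq_add_of_lt hij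
    have h1 := hd2 (i + 1) l
    rw [show i + 1 + l = i + l + 1 by ring, ← h] at h1
    exact (hd i).2 (anti (hd i).1 (by rwa [neg_sub]))
  refine Set.infinite_of_injective_forall_mem hinj ?_ (hF.union (hF.image Neg.neg))
  intro j
  have hm : D.act (g ^ j) η ∈ (fun a => D.act a η) '' range (fun j : ℕ => g ^ j) :=
    ⟨_, ⟨j, rfl⟩, rfl⟩
  rcases he1 g with h | h
  · left; simpa [s, h] using hm
  · rcases neg_one_pow_eq_or ℚ j with h' | h'
    · left; simp only [s, h, h', one_smul]; exact hm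
    · right; exact ⟨_, hm, by simp only [s, h, h', neg_one_smul]⟩

end Dat

end Pool.Agent.P.MP_e3ee0c_gt
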