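import Pool.Agent.P.MP_e3ee0c_gt.Crit
import Pool.Agent.P.MP_e3ee0c_gt.Ends

open Manifold Set Filter Topology Matrix MeasureTheory
open scoped ContDiff

namespace Pool.Agent.P.MP_e3ee0c_gt

theorem sheet_of_localHomeo {N M : Type*} [TopologicalSpace N] [T2Space N] [LocallyCompactSpace N]
    [PseudoMetricSpace M] {π : N → M} (hπ : IsLocalHomeomorph π) (y : N) {V : Set N}
    (hV : V ∈ 𝓝 y) : ∃ r > 0, ∀ᶠ y' in 𝓝 y, ∀ C, IsPreconnected C → y' ∈ C →
      (∀ a ∈ C, ∀ b ∈ C, dist (π a) (π b) < r) → C ⊆ V := by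
  obtain ⟨e, hy, he⟩ := hπ y
  obtain ⟨C₀, h1, h2, h3⟩ := local_compact_nhds (inter_mem hV (e.open_source.mem_nhds hy))
  have h4 : π '' interior C₀ ∈ 𝓝 (π y) :=
    (hπ.isOpenMap _ isOpen_interior).mem_nhds ⟨y, mem_interior_iff_mem_nhds.2 h1, rfl⟩
  obtain ⟨r, hr, hrs⟩ := Metric.mem_nhds_iff.1 h4
  refine ⟨r / 2, half_pos hr, ?_⟩
  filter_upwards [interior_mem_nhds.2 h1, hπ.continuous.continuousAt.preimage_mem_nhds
    (Metric.ball_mem_nhds (π y) (half_pos hr))] with y' h5 h6 C c1 c2 c3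
  have h7 : C ⊆ interior C₀ := by
    refine c1.subset_left_of_subset_union isOpen_interior h3.isClosed.isOpen_compl
      (disjoint_compl_right.mono_left interior_subset) ?_ ⟨y', c2, h5⟩
    intro a ha
    by_cases h8 : a ∈ C₀
    · left
      have h9 : π a ∈ Metric.ball (π y) r := by
        have := c3 a ha y' c2
        have h10 : dist (π y') (π y) < r / 2 := h6
        rw [Metric.mem_ball]
        linarith [dist_triangle (π a) (π y') (π y)]
      obtain ⟨w, hw, hwa⟩ := hrs h9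
      rw [he] at hwa
      exact e.injOn (h2 (interior_subset hw)).2 (h2 h8).2 hwa ▸ hw
    · exact Or.inr h8
  exact fun a ha => (h2 (interior_subset (h7 ha))).1

variable {E : Type*} [NormedAddCommGroup E] [NormedSpace ℝ E] [FiniteDimensional ℝ E]
  {M N : Type*} [TopologicalSpace M] [TopologicalSpace N] [ChartedSpace E M] [ChartedSpace E N]
  {σ : M → E →L[ℝ] E →L[ℝ] ℝ} {H : M → ℝ} {c : ℝ} {π : N → M} {Γ : Type*} [Group Γ]
  [MulAction Γ N] {k : ℕ} {ρ : Γ →* GL (Fin k) ℤ} {φ : (Fin k → ℝ) → N → N} {Y XH : M → E}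

namespace IsTwistedTorus

variable (h : IsTwistedTorus σ H c π Γ ρ φ)
include h

theorem core (hc : IsCompact (H ⁻¹' {c})) : ∃ K W : Set N, IsCompact K ∧ IsOpen W ∧ W ⊆ K ∧
    ∀ x, H (π x) = c → ∃ γ : Γ, γ • x ∈ W := by
  have := FiniteDimensional.proper_real E
  have := ChartedSpace.locallyCompactSpace E N
  choose f hf using h.covers
  choose C hC hC' using fun x : N => exists_compact_mem_nhds x
  obtain ⟨t, ht⟩ := hc.elim_nhds_subcover' (fun p hp => π '' interior (C (f p hp))) fun p hp =>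
    (h.localDiffeo.isOpenMap _ isOpen_interior).mem_nhds
      ⟨f p hp, mem_interior_iff_mem_nhds.2 (hC' _), hf p hp⟩
  refine ⟨⋃ p ∈ t, C (f p.1 p.2), ⋃ p ∈ t, interior (C (f p.1 p.2)),
    t.isCompact_biUnion fun p _ => hC _, isOpen_biUnion fun p _ => isOpen_interior,
    iUnion₂_mono fun p _ => interior_subset, fun x hx => ?_⟩
  obtain ⟨p, hp, w, hw, hwx⟩ := mem_iUnion₂.1 (ht (show π x ∈ H ⁻¹' {c} from hx))
  obtain ⟨γ, rfl⟩ := h.transitive x w hwx.symm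
  exact ⟨γ, mem_biUnion hp hw⟩

omit [FiniteDimensional ℝ E] in
theorem deckHomeo (γ : Γ) :
    ∃ e : {x // H (π x) = c} ≃ₜ {x // H (π x) = c}, ∀ x, (e x).1 = γ • x.1 := by
  have hm : ∀ (g : Γ) (x : {x // H (π x) = c}), H (π (g • x.1)) = c := fun g x =>
    (congrArg H (h.deck g x.1)).trans x.2
  let f : Γ → {x // H (π x) = c} → {x // H (π x) = c} := fun g x => ⟨g • x.1, hm g x⟩
  have hf : ∀ g, Continuous (f g) := fun g =>
    ((h.deckCont g).comp continuous_subtype_val).subtype_mk (hm g)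
  exact ⟨⟨⟨f γ, f γ⁻¹, fun x => Subtype.ext (inv_smul_smul γ x.1),
    fun x => Subtype.ext (smul_inv_smul γ x.1)⟩, hf γ, hf γ⁻¹⟩, fun _ => rfl⟩

variable [IsManifold 𝓘(ℝ, E) ∞ M] [IsManifold 𝓘(ℝ, E) ∞ N] [T2Space M] [SecondCountableTopology M]
  [T2Space N]

theorem superlevel (hσ : IsSymplectic σ) (hH : ContMDiff 𝓘(ℝ, E) 𝓘(ℝ, ℝ) ∞ H)
    (hX : ∀ p v, σ p (XH p) v = -dif E ℝ H p v) (hY : IsTransverseLiouville σ H c Y)
    (hc : IsCompact (H ⁻¹' {c})) (hne : (H ⁻¹' {c}).Nonempty) (no : ¬ HasOrbit E H c XH)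
    {ξ : Fin k → ℤ} (hξ : ξ ≠ 0) (a : ℝ) :
    {x : {x // H (π x) = c} | a < rv ξ ⬝ᵥ mu σ Y π φ x.1}.Nonempty ∧
      IsPreconnected {x : {x // H (π x) = c} | a < rv ξ ⬝ᵥ mu σ Y π φ x.1} := by
  have := FiniteDimensional.proper_real E
  have := ChartedSpace.locallyCompactSpace E N
  have := ChartedSpace.locallyCompactSpace E M
  let := TopologicalSpace.metrizableSpaceMetric M
  have := h.locConn hH hY
  have : PreconnectedSpace {x // H (π x) = c} := Subtype.preconnectedSpace h.connected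
  have : Nonempty {x // H (π x) = c} := by
    obtain ⟨p, hp⟩ := hne
    obtain ⟨x, rfl⟩ := h.covers p hp
    exact ⟨⟨x, hp⟩⟩
  obtain ⟨K, W, hK, -, hWK, hW⟩ := h.core hc
  have hcl : IsClosed {x | H (π x) = c} :=
    isClosed_eq (hH.continuous.comp h.sm_pi.continuous) continuous_const
  refine pass (p := fun x : {x // H (π x) = c} => π x.1) (K := Subtype.val ⁻¹' K)
    (h.sm_pi.continuous.comp continuous_subtype_val) (h.mu_cont hσ hY)
    (hcl.isClosedEmbedding_subtypeVal.isCompact_preimage hK) ?_ ?_ ?_ ?_ a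
  · intro y V hV
    obtain ⟨V₁, h1, h2⟩ := (mem_nhds_subtype _ _ _).1 hV
    obtain ⟨r, hr, h3⟩ := sheet_of_localHomeo h.localDiffeo.isLocalHomeomorph y.1 h1
    refine ⟨r, hr, ?_⟩
    filter_upwards [continuous_subtype_val.continuousAt.eventually h3] with y' h4 z hz
    obtain ⟨C, c1, c2, c3, c4⟩ := hz
    refine h2 (h4 _ (c1.image _ continuous_subtype_val.continuousOn) (mem_image_of_mem _ c2) ?_
      (mem_image_of_mem _ c3))
    rintro _ ⟨a, ha, rfl⟩ _ ⟨b, hb, rfl⟩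
    exact c4 a ha b hb
  · intro y η hη h0
    rcases h.box_or hσ hH hX hY y hη with h1 | ⟨b, hb, h1⟩
    · exact h1
    · exact absurd (by rw [← dot_mu]; exact h0) (h.crit_ne hσ hX hY y.2 hb h1)
  · intro y ζ s hζ hs
    have h0 : s • rv ζ ≠ 0 := smul_ne_zero hs (by
      intro h1
      have := one_le_norm_rv hζ
      rw [h1, norm_zero] at this
      linarith)
    rcases h.box_or hσ hH hX hY y h0 with h1 | ⟨b, hb, h1⟩
    · exact h1
    · exact absurd (h.orbit y.2 hs hb h1) no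
  · intro x
    obtain ⟨γ, hγ⟩ := hW x.1 x.2
    obtain ⟨e, he⟩ := h.deckHomeo γ
    refine ⟨e, (ρ γ : Matrix (Fin k) (Fin k) ℤ) *ᵥ ξ, fun h0 => hξ ?_, hWK (he x ▸ hγ),
      fun z => by simp only [he, h.deck], fun z => ?_⟩
    · rw [← one_mulVec ξ, ← Units.inv_mul (ρ γ), ← mulVec_mulVec, h0, mulVec_zero]
    · rw [dot_mu, dot_mu, ← rv_mulVec, he]
      exact h.Mom_equiv hσ hY z.2 γ _

theorem superlevelQ (hσ : IsSymplectic σ) (hH : ContMDiff 𝓘(ℝ, E) 𝓘(ℝ, ℝ) ∞ H)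
    (hX : ∀ p v, σ p (XH p) v = -dif E ℝ H p v) (hY : IsTransverseLiouville σ H c Y)
    (hc : IsCompact (H ⁻¹' {c})) (hne : (H ⁻¹' {c}).Nonempty) (no : ¬ HasOrbit E H c XH)
    {ξ : Fin k → ℚ} (hξ : ξ ≠ 0) (a : ℝ) :
    {x : {x // H (π x) = c} | a < Mom σ Y π φ x.1 fun i => ξ i}.Nonempty ∧
      IsPreconnected {x : {x // H (π x) = c} | a < Mom σ Y π φ x.1 fun i => ξ i} := by
  obtain ⟨n, hn, ζ, hζ⟩ := Dat.exists_denom ξ
  have hζ0 : ζ ≠ 0 := by
    rintro rfl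
    exact smul_ne_zero hn.ne' hξ (hζ.trans (by funext i; simp))
  have h1 := h.superlevel hσ hH hX hY hc hne no hζ0 (n * a)
  have h2 : rv ζ = (n : ℝ) • fun i => (ξ i : ℝ) := by
    funext i
    have := congrFun hζ i
    simp only [Pi.smul_apply, smul_eq_mul, rv] at this ⊢
    exact_mod_cast this.symm
  have hn' : (0 : ℝ) < n := by exact_mod_cast hn
  simpa only [dot_mu, h2, map_smul, smul_eq_mul, mul_lt_mul_iff_right₀ hn'] using h1

theorem ends (hσ : IsSymplectic σ) (hH : ContMDiff 𝓘(ℝ, E) 𝓘(ℝ, ℝ) ∞ H)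
    (hX : ∀ p v, σ p (XH p) v = -dif E ℝ H p v) (hY : IsTransverseLiouville σ H c Y)
    (hc : IsCompact (H ⁻¹' {c})) (hne : (H ⁻¹' {c}).Nonempty) (hk : 0 < k) {G : Type*} [Group G]
    {q : Γ →* G} (hq : Function.Surjective q) {ρ' : G →* GL (Fin k) ℤ} (hρ : ∀ γ, ρ γ = ρ' (q γ))
    (hΓ : ¬ OneEnded G) :
    HasOrbit E H c XH := by
  by_contra no
  have sup := fun ξ hξ => h.superlevelQ hσ hH hX hY hc hne no (ξ := ξ) hξ
  obtain ⟨K, W, hK, hWo, hWK, hW⟩ := h.core hc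
  have hcl : IsClosed {x | H (π x) = c} :=
    isClosed_eq (hH.continuous.comp h.sm_pi.continuous) continuous_const
  let act : G → (Fin k → ℚ) →ₗ[ℚ] (Fin k → ℚ) := fun g =>
    Matrix.toLin' ((ρ' g⁻¹ : Matrix (Fin k) (Fin k) ℤ).map (Int.cast : ℤ → ℚ))
  have hev : ∀ (y : N), H (π y) = c → ∀ (g : Γ) (ξ : Fin k → ℚ),
      ev (mu σ Y π φ y) (act (q g) ξ) = Mom σ Y π φ (g • y) fun i => ξ i := by
    intro y hy g ξ
    have e1 := h.Mom_equiv hσ hY (x := g • y) (by rw [h.deck, hy]) g⁻¹ fun i => ξ i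
    rw [inv_smul_smul] at e1
    rw [← e1, ← dot_mu, ev_apply, dotProduct_comm]
    refine Finset.sum_congr rfl fun i _ => ?_
    simp [act, mulVec, dotProduct, hρ]
  have hsurj : ∀ x, H (π x) = c → ∃ (g : Γ) (y : N), y ∈ W ∧ H (π y) = c ∧ x = g • y := by
    intro x hx
    obtain ⟨γ, hγ⟩ := hW x hx
    exact ⟨γ⁻¹, γ • x, hγ, by rw [h.deck, hx], (inv_smul_smul γ x).symm⟩
  let D : Dat k G :=
    { act := act
      Q := mu σ Y π φ '' {y | y ∈ W ∧ H (π y) = c}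
      one := fun ξ => by simp [act]
      mul := fun a b ξ => by
        simp only [act, toLin'_apply, mulVec_mulVec, _root_.mul_inv_rev, map_mul, Units.val_mul,
          Matrix.map_mul_intCast]
      int := fun g ξ => ⟨(ρ' g⁻¹ : Matrix (Fin k) (Fin k) ℤ) *ᵥ ξ, by
        funext i; simp [act, mulVec, dotProduct]⟩
      bdd := by
        obtain ⟨R, hR⟩ := (hcl.isClosedEmbedding_subtypeVal.isCompact_preimage
          hK).exists_bound_of_continuousOn (h.mu_cont hσ hY).continuousOn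
        refine ⟨R, ?_⟩
        rintro _ ⟨y, hy, rfl⟩
        exact hR ⟨y, hy.2⟩ (hWK hy.1)
      span := by
        intro η hη
        by_contra hn
        push Not at hn
        have h0 : ∀ x, H (π x) = c → η ⬝ᵥ mu σ Y π φ x = 0 := by
          intro x hx
          obtain ⟨g, y, h1, h2, rfl⟩ := hsurj x hx
          rw [← hn (q g) _ ⟨y, ⟨h1, h2⟩, rfl⟩]
          refine Finset.sum_congr rfl fun i _ => ?_
          rw [hev y h2, mu]
          congr 2
          funext j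
          simp [Pi.single_apply, apply_ite]
        obtain ⟨p, hp⟩ := hne
        obtain ⟨x, rfl⟩ := h.covers p hp
        rcases h.box_or hσ hH hX hY ⟨x, hp⟩ hη with h1 | ⟨b, hb, h1⟩
        · obtain ⟨V, -, -, h2⟩ := h1 univ univ_mem
          obtain ⟨z, -, hz⟩ := h2.self_of_nhds.1
          have h3 : η ⬝ᵥ mu σ Y π φ x < η ⬝ᵥ mu σ Y π φ z.1 := hz
          rw [h0 x hp, h0 z z.2] at h3
          exact lt_irrefl _ h3
        · exact h.crit_ne hσ hX hY hp hb h1 (by rw [← dot_mu]; exact h0 x hp) }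
  have unb : ∀ ξ, ξ ≠ 0 → ¬ D.Bdd univ ξ := by
    rintro ξ hξ ⟨C, hC⟩
    obtain ⟨x, hx⟩ := (sup ξ hξ C).1
    obtain ⟨g, y, h1, h2, h3⟩ := hsurj x.1 x.2
    have := hC (q g) (mem_univ _) _ ⟨y, ⟨h1, h2⟩, rfl⟩
    rw [show D.act = act from rfl, hev y h2, ← h3] at this
    exact not_lt.2 this hx
  apply hΓ
  refine ⟨?_, fun A hA => ?_⟩
  · by_contra hf
    have : Finite G := not_infinite_iff_finite.1 hf
    exact unb (fun _ => 1) (fun h0 => by simpa using congrFun h0 ⟨0, hk⟩)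
      (Dat.Bdd.of_finite finite_univ _)
  by_contra hcon
  push Not at hcon
  refine D.false_of_ends hk unb hA hcon.1 hcon.2 fun ξ hξ => ?_
  have hF := h.proper.finite_disjoint_inter_image hK hK
  have hB : (⋃ s ∈ {γ : Γ | ((γ • ·) '' K ∩ K).Nonempty},
      (fun a => a * (q s)⁻¹) '' ((fun a => a * q s) '' A \ A)).Finite :=
    hF.biUnion fun s _ => (hA (q s)).image _
  obtain ⟨C, hC⟩ := Dat.Bdd.of_finite (D := D) hB ξ
  let XT : Set G → Set {x // H (π x) = c} := fun T => ⋃ a ∈ q ⁻¹' T, {x | a⁻¹ • x.1 ∈ W}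
  have hXT : ∀ T, IsOpen (XT T) := fun T => isOpen_biUnion fun a _ =>
    hWo.preimage ((h.deckCont a⁻¹).comp continuous_subtype_val)
  have hb : ∀ T, ¬ D.Bdd T ξ →
      ({x : {x // H (π x) = c} | C < Mom σ Y π φ x.1 fun i => ξ i} ∩ XT T).Nonempty := by
    intro T hT
    by_contra hn
    refine hT ⟨C, ?_⟩
    rintro a ha _ ⟨y, hy, rfl⟩
    obtain ⟨a, rfl⟩ := hq a
    rw [show D.act = act from rfl, hev y hy.2]
    by_contra hl
    exact hn ⟨⟨a • y, by rw [h.deck, hy.2]⟩, not_le.1 hl, mem_biUnion ha (by simpa using hy.1)⟩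
  by_contra hn
  push Not at hn
  obtain ⟨x, hx, h1, h2⟩ := (sup ξ hξ C).2 _ _ (hXT A) (hXT Aᶜ) (fun x _ => by
    obtain ⟨γ, hγ⟩ := hW x.1 x.2
    by_cases hm : q γ⁻¹ ∈ A
    · exact Or.inl (mem_biUnion hm (by simpa using hγ))
    · exact Or.inr (mem_biUnion hm (by simpa using hγ))) (hb _ hn.1) (hb _ hn.2)
  obtain ⟨a, ha, h3⟩ := mem_iUnion₂.1 h1
  obtain ⟨b, hb', h4⟩ := mem_iUnion₂.1 h2
  have h5 := hC (q a) (mem_biUnion (x := a⁻¹ * b) ?_
    ⟨q b, ⟨⟨q a, ha, by simp⟩, hb'⟩, by simp⟩) _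
    ⟨a⁻¹ • x.1, ⟨h3, by rw [h.deck, x.2]⟩, rfl⟩
  · rw [show D.act = act from rfl, hev _ (by rw [h.deck, x.2]), smul_inv_smul] at h5
    exact not_lt.2 h5 hx
  · exact ⟨a⁻¹ • x.1, ⟨b⁻¹ • x.1, hWK h4, by simp [mul_smul]⟩, hWK h3⟩

theorem onesided (hσ : IsSymplectic σ) (hH : ContMDiff 𝓘(ℝ, E) 𝓘(ℝ, ℝ) ∞ H)
    (hX : ∀ p v, σ p (XH p) v = -dif E ℝ H p v) (hY : IsTransverseLiouville σ H c Y)
    (hc : IsCompact (H ⁻¹' {c})) (hne : (H ⁻¹' {c}).Nonempty) {ξ : Fin k → ℤ} (hξ : ξ ≠ 0) {b : ℝ}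
    (hb : ∀ x, H (π x) = c →
      b ≤ σ (π x) (Y (π x)) (dif (Fin k → ℝ) E (fun t => π (φ t x)) 0 fun i => (ξ i : ℝ))) :
    HasOrbit E H c XH := by
  by_contra no
  obtain ⟨x, hx⟩ := (h.superlevel hσ hH hX hY hc hne no (neg_ne_zero.2 hξ) (-b)).1
  have h1 : rv (-ξ) = -rv ξ := by funext i; simp [rv]
  have h2 : rv ξ ⬝ᵥ mu σ Y π φ x.1 < b := by
    have h3 : -b < rv (-ξ) ⬝ᵥ mu σ Y π φ x.1 := hx
    rw [h1, neg_dotProduct] at h3
    linarith
  rw [dot_mu, h.Mom_apply hσ hY x.2] at h2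
  have : IsFiniteMeasure (volume.restrict (cube k)) := ⟨by simpa using cube_fin⟩
  have h4 : ∫ _ in cube k, b ≤ ∫ t in cube k, Fm σ Y π φ x.1 t (rv ξ) := by
    refine integral_mono (integrable_const _)
      (integrableOn_cube ((h.Fm_cont hσ hY x.2).clm_apply continuous_const)) fun t => ?_
    have h5 := hb (φ t x.1) (by rw [h.presH, x.2])
    have d0 : HasFDerivAt (fun s : Fin k → ℝ => s + t) (ContinuousLinearMap.id ℝ _) 0 :=
      (hasFDerivAt_id _).add_const t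
    have e := dif_comp (g := fun s => π (φ s x.1)) (f := fun s : Fin k → ℝ => s + t) (x := 0)
      ((h.sm_px _).mdifferentiableAt (by simp)) d0.differentiableAt.mdifferentiableAt
    rw [dif_fderiv, d0.fderiv, zero_add] at e
    simp only [h.add] at e
    rw [e] at h5
    exact h5
  simp only [integral_const, smul_eq_mul, measureReal_restrict_apply_univ, cube_real, one_mul] at h4
  linarith

end IsTwistedTorus

end Pool.Agent.P.MP_e3ee0c_gt
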