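import Pool.Agent.P.MP_e3ee0c_gt.Main
import Pool.Agent.P.MP_e3ee0c_gt.DefsMoment

open Manifold Set Filter Topology Matrix MeasureTheory
open scoped ContDiff

namespace Pool.Agent.P.MP_e3ee0c_gt

theorem cube_ae {k : ℕ} : cube k =ᵐ[volume] Icc (0 : Fin k → ℝ) 1 := by
  have : cube k = Set.pi univ fun _ => Ico (0 : ℝ) 1 := by
    ext t; simp [cube, ZSpan.mem_fundamentalDomain]
  rw [this]
  exact Measure.univ_pi_Ico_ae_eq_Icc

variable {E : Type*} [NormedAddCommGroup E] [NormedSpace ℝ E] [FiniteDimensional ℝ E]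
  {M N : Type*} [TopologicalSpace M] [TopologicalSpace N] [ChartedSpace E M] [ChartedSpace E N]
  {σ : M → E →L[ℝ] E →L[ℝ] ℝ} {H : M → ℝ} {c : ℝ} {π : N → M} {Γ : Type*} [Group Γ]
  [MulAction Γ N] {k : ℕ} {ρ : Γ →* GL (Fin k) ℤ} {φ : (Fin k → ℝ) → N → N} {Y XH : M → E}
  [IsManifold 𝓘(ℝ, E) ∞ M] [IsManifold 𝓘(ℝ, E) ∞ N] [T2Space M] [SecondCountableTopology M]
  [T2Space N]

theorem IsTwistedTorus.criterion (h : IsTwistedTorus σ H c π Γ ρ φ) (hσ : IsSymplectic σ)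
    (hH : ContMDiff 𝓘(ℝ, E) 𝓘(ℝ, ℝ) ∞ H)
    (hX : ∀ p v, σ p (XH p) v = -dif E ℝ H p v) (hY : IsTransverseLiouville σ H c Y)
    (hc : IsCompact (H ⁻¹' {c})) (hne : (H ⁻¹' {c}).Nonempty) {ξ : Fin k → ℤ} (hξ : ξ ≠ 0) {a : ℝ}
    (ha : ¬ IsConnected {x | H (π x) = c ∧ a < moment σ Y π φ ξ x}) : HasOrbit E H c XH := by
  by_contra no
  apply ha
  have h1 := h.superlevel hσ hH hX hY hc hne no hξ a
  have h2 : ∀ x, H (π x) = c → moment σ Y π φ ξ x = rv ξ ⬝ᵥ mu σ Y π φ x := by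
    intro x hx
    rw [dot_mu, h.Mom_apply hσ hY hx, moment, setIntegral_congr_set cube_ae]
    rfl
  have h3 : {x | H (π x) = c ∧ a < moment σ Y π φ ξ x} =
      Subtype.val '' {x : {x // H (π x) = c} | a < rv ξ ⬝ᵥ mu σ Y π φ x.1} := by
    ext x
    constructor
    · rintro ⟨h4, h5⟩
      exact ⟨⟨x, h4⟩, h5.trans_eq (h2 x h4), rfl⟩
    · rintro ⟨y, h5, rfl⟩
      exact ⟨y.2, lt_of_lt_of_eq h5 (h2 y.1 y.2).symm⟩
  rw [h3]
  exact IsConnected.image ⟨h1.1, h1.2⟩ _ continuous_subtype_val.continuousOn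

end Pool.Agent.P.MP_e3ee0c_gt
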