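import Pool.Agent.P.MP_e3ee0c_gt.Forms
import Pool.Agent.P.MP_e3ee0c_gt.Average

open Manifold Set Filter Topology Matrix MeasureTheory
open scoped ContDiff

namespace Pool.Agent.P.MP_e3ee0c_gt

variable {E : Type*} [NormedAddCommGroup E] [NormedSpace ℝ E]
  {M N : Type*} [TopologicalSpace M] [TopologicalSpace N] [ChartedSpace E M] [ChartedSpace E N]
  {σ : M → E →L[ℝ] E →L[ℝ] ℝ} {H : M → ℝ} {c : ℝ} {π : N → M} {Γ : Type*} [Group Γ]
  [MulAction Γ N] {k : ℕ} {ρ : Γ →* GL (Fin k) ℤ} {φ : (Fin k → ℝ) → N → N} {Y : M → E}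

/-- Infinitesimal action. -/
noncomputable def gen (E : Type*) [NormedAddCommGroup E] [NormedSpace ℝ E] [ChartedSpace E N]
    (φ : (Fin k → ℝ) → N → N) (x : N) : (Fin k → ℝ) →L[ℝ] E :=
  dif (Fin k → ℝ) E (fun t => φ t x) 0

/-- The integrand of the averaged moment map. -/
noncomputable def Fm (σ : M → E →L[ℝ] E →L[ℝ] ℝ) (Y : M → E) (π : N → M)
    (φ : (Fin k → ℝ) → N → N) (x : N) (t : Fin k → ℝ) : (Fin k → ℝ) →L[ℝ] ℝ :=
  (σ (π (φ t x)) (Y (π (φ t x)))).comp (dif (Fin k → ℝ) E (fun s => π (φ s x)) t)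

/-- The averaged moment map. -/
noncomputable def Mom (σ : M → E →L[ℝ] E →L[ℝ] ℝ) (Y : M → E) (π : N → M)
    (φ : (Fin k → ℝ) → N → N) (x : N) : (Fin k → ℝ) →L[ℝ] ℝ :=
  ∫ t in cube k, Fm σ Y π φ x t

/-- The action map in the chart at x. -/
noncomputable def Th (E : Type*) [NormedAddCommGroup E] [ChartedSpace E N] (π : N → M)
    (φ : (Fin k → ℝ) → N → N) (x : N) (z : (Fin k → ℝ) × E) : M :=
  π (φ z.1 ((chartAt E x).symm z.2))

/-- Pull back of the Liouville form. -/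
noncomputable def bet (σ : M → E →L[ℝ] E →L[ℝ] ℝ) (Y : M → E) (π : N → M)
    (φ : (Fin k → ℝ) → N → N) (x : N) (z : (Fin k → ℝ) × E) : ((Fin k → ℝ) × E) →L[ℝ] ℝ :=
  (σ (Th E π φ x z) (Y (Th E π φ x z))).comp (dif ((Fin k → ℝ) × E) E (Th E π φ x) z)

namespace IsTwistedTorus

variable (h : IsTwistedTorus σ H c π Γ ρ φ)
include h

theorem sm_pi : ContMDiff 𝓘(ℝ, E) 𝓘(ℝ, E) ∞ π := h.localDiffeo.contMDiff

theorem sm_x (x : N) : ContMDiff 𝓘(ℝ, Fin k → ℝ) 𝓘(ℝ, E) ∞ fun t => φ t x :=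
  h.smooth.comp (contMDiff_id.prodMk contMDiff_const)

theorem sm_t (t : Fin k → ℝ) : ContMDiff 𝓘(ℝ, E) 𝓘(ℝ, E) ∞ fun y => π (φ t y) :=
  h.sm_pi.comp (h.smooth.comp (contMDiff_const.prodMk contMDiff_id))

theorem sm_px (x : N) : ContMDiff 𝓘(ℝ, Fin k → ℝ) 𝓘(ℝ, E) ∞ fun t => π (φ t x) :=
  h.sm_pi.comp (h.sm_x x)

theorem per (m : Fin k → ℤ) (t : Fin k → ℝ) : φ (rv m + t) = φ t := by
  funext x
  rw [h.add]; exact h.periodic m _

theorem dif_orbit (x : N) (t : Fin k → ℝ) : dif (Fin k → ℝ) E (fun s => π (φ s x)) t =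
    (dif E E (fun y => π (φ t y)) x).comp (gen E φ x) := by
  have e1 : (fun s => π (φ s x)) = fun s => (fun y => π (φ t y)) ((fun u => φ u x) (s - t)) := by
    funext s
    simp only [← h.add, add_sub_cancel]
  have d0 : MDifferentiableAt 𝓘(ℝ, Fin k → ℝ) 𝓘(ℝ, Fin k → ℝ) (fun s : Fin k → ℝ => s - t) t :=
    (differentiableAt_id.sub_const t).mdifferentiableAt
  have d1 : MDifferentiableAt 𝓘(ℝ, Fin k → ℝ) 𝓘(ℝ, E) (fun u => φ u x) (t - t) :=
    (h.sm_x x).mdifferentiableAt (by simp)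
  have e2 := dif_comp (g := fun u => φ u x) (f := fun s : Fin k → ℝ => s - t) d1 d0
  rw [e1, dif_comp (g := fun y => π (φ t y)) (f := fun s => φ (s - t) x)
    ((h.sm_t t).mdifferentiableAt (by simp)) (MDifferentiableAt.comp (f := fun s : Fin k → ℝ => s - t) t d1 d0), e2, dif_fderiv]
  simp only [sub_self, h.zero, fderiv_sub_const, fderiv_fun_id, gen, ContinuousLinearMap.comp_id]

theorem Fm_per (x : N) (m : Fin k → ℤ) (t : Fin k → ℝ) :
    Fm σ Y π φ x (rv m + t) = Fm σ Y π φ x t := by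
  simp only [Fm, h.dif_orbit, h.per]

variable [IsManifold 𝓘(ℝ, E) ∞ M] [IsManifold 𝓘(ℝ, E) ∞ N]

omit [IsManifold 𝓘(ℝ, E) ∞ M] in
theorem Th_smooth (x : N) {z : (Fin k → ℝ) × E} (hz : z.2 ∈ (chartAt E x).target) :
    ContMDiffAt 𝓘(ℝ, (Fin k → ℝ) × E) 𝓘(ℝ, E) ∞ (Th E π φ x) z := by
  have h1 : ContMDiffAt 𝓘(ℝ, (Fin k → ℝ) × E) (𝓘(ℝ, Fin k → ℝ).prod 𝓘(ℝ, E)) ∞
      (fun z : (Fin k → ℝ) × E => (z.1, (chartAt E x).symm z.2)) z :=
    contDiff_fst.contMDiff.contMDiffAt.prodMk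
      ((chart_symm_smooth x hz).comp z contDiff_snd.contMDiff.contMDiffAt)
  exact (h.sm_pi.comp h.smooth).contMDiffAt.comp z h1

omit [IsManifold 𝓘(ℝ, E) ∞ M] in
theorem dif_Th_inl (x : N) {z : E} (hz : z ∈ (chartAt E x).target) (t : Fin k → ℝ) :
    (dif ((Fin k → ℝ) × E) E (Th E π φ x) (t, z)).comp (ContinuousLinearMap.inl ℝ _ _) =
      dif (Fin k → ℝ) E (fun s => π (φ s ((chartAt E x).symm z))) t := by
  have d0 : HasFDerivAt (fun s : Fin k → ℝ => (s, z)) (ContinuousLinearMap.inl ℝ _ _) t :=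
    hasFDerivAt_prodMk_left t z
  have := dif_comp (g := Th E π φ x) (f := fun s : Fin k → ℝ => (s, z)) (x := t)
    ((h.Th_smooth x hz).mdifferentiableAt (by simp)) d0.differentiableAt.mdifferentiableAt
  rw [dif_fderiv, d0.fderiv] at this
  exact this.symm

omit [IsManifold 𝓘(ℝ, E) ∞ M] in
theorem dif_Th_inr (x : N) (t : Fin k → ℝ) (v : E) :
    dif ((Fin k → ℝ) × E) E (Th E π φ x) (t, chartAt E x x) (0, v) =
      dif E E (fun y => π (φ t y)) x v := by
  have hz := (chartAt E x).map_source (mem_chart_source E x)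
  have d0 : HasFDerivAt (fun z : E => (t, z)) (ContinuousLinearMap.inr ℝ _ _) (chartAt E x x) :=
    hasFDerivAt_prodMk_right t _
  have e1 := dif_comp (g := Th E π φ x) (f := fun z : E => (t, z)) (x := chartAt E x x)
    ((h.Th_smooth x hz).mdifferentiableAt (by simp)) d0.differentiableAt.mdifferentiableAt
  rw [dif_fderiv, d0.fderiv] at e1
  have e2 := dif_comp (g := fun y => π (φ t y)) (f := (chartAt E x).symm) (x := chartAt E x x)
    ((h.sm_t t).mdifferentiableAt (by simp))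
    ((chart_symm_smooth x hz).mdifferentiableAt (by simp))
  have e3 := congrArg (fun L : E →L[ℝ] E => L v) (e1.symm.trans e2)
  simp only [ContinuousLinearMap.comp_apply, ContinuousLinearMap.inr_apply, dif_chart_symm_self,
    (chartAt E x).left_inv (mem_chart_source E x)] at e3
  exact e3

theorem bet_d (hσ : IsSymplectic σ) (hY : IsTransverseLiouville σ H c Y) {x : N}
    (hx : H (π x) = c) (t : Fin k → ℝ) :
    ContDiffAt ℝ 1 (bet σ Y π φ x) (t, chartAt E x x) ∧ ∀ a b,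
      fderiv ℝ (bet σ Y π φ x) (t, chartAt E x x) a b -
        fderiv ℝ (bet σ Y π φ x) (t, chartAt E x x) b a =
      σ (π (φ t x)) (dif _ E (Th E π φ x) (t, chartAt E x x) a)
        (dif _ E (Th E π φ x) (t, chartAt E x x) b) := by
  obtain ⟨U, -, hU, hL, -⟩ := hY
  have hz := (chartAt E x).map_source (mem_chart_source E x)
  set p := π (φ t x) with hp
  have hpU : p ∈ U := hU (by show H p = c; rw [hp, h.presH, hx])
  have hT : Th E π φ x (t, chartAt E x x) = p := by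
    simp [Th, hp]
  have s1 := h.Th_smooth x (z := (t, chartAt E x x)) hz
  have hG : ContDiffAt ℝ ∞ (fun z => chartAt E p (Th E π φ x z)) (t, chartAt E x x) :=
    ((chart_smooth p (by rw [hT]; exact mem_chart_source E p)).comp _ s1).contDiffAt
  obtain ⟨l1, l2⟩ := lam_d hσ (hL p hpU).1 (hL p hpU).2
  obtain ⟨b1, b2⟩ := pullback_d hG (lam := lamHat σ Y p) (by simpa only [hT] using l1)
  have key : ∀ z : (Fin k → ℝ) × E, z.2 ∈ (chartAt E x).target →
      Th E π φ x z ∈ (chartAt E p).source →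
      fderiv ℝ (fun z => chartAt E p (Th E π φ x z)) z =
        (dif E E (chartAt E p) (Th E π φ x z)).comp (dif _ E (Th E π φ x) z) := by
    intro z h1 h2
    rw [← dif_fderiv]
    exact dif_comp ((chart_smooth p h2).mdifferentiableAt (by simp))
      ((h.Th_smooth x h1).mdifferentiableAt (by simp))
  have hev : bet σ Y π φ x =ᶠ[𝓝 (t, chartAt E x x)] fun z =>
      (lamHat σ Y p (chartAt E p (Th E π φ x z))).comp
        (fderiv ℝ (fun z => chartAt E p (Th E π φ x z)) z) := by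
    have v1 : ∀ᶠ z : (Fin k → ℝ) × E in 𝓝 (t, chartAt E x x), z.2 ∈ (chartAt E x).target :=
      continuousAt_snd.eventually ((chartAt E x).open_target.mem_nhds hz)
    have v2 : ∀ᶠ z in 𝓝 (t, chartAt E x x), Th E π φ x z ∈ (chartAt E p).source :=
      s1.continuousAt.eventually (by rw [hT]; exact chart_source_mem_nhds E p)
    filter_upwards [v1, v2] with z h1 h2
    rw [key z h1 h2]
    refine ContinuousLinearMap.ext fun a => ?_
    simp only [bet, lamHat, ContinuousLinearMap.comp_apply, chartField_apply Y p h2,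
      chartForm_apply σ p h2]
  refine ⟨b1.congr_of_eventuallyEq hev, fun a b => ?_⟩
  rw [hev.fderiv_eq, b2, hT, l2, key _ hz (by rw [hT]; exact mem_chart_source E p), hT,
    dif_chart_self]
  rfl

omit [IsManifold 𝓘(ℝ, E) ∞ M] in
theorem Fm_eq (x : N) {z : E} (hz : z ∈ (chartAt E x).target) (t : Fin k → ℝ) :
    Fm σ Y π φ ((chartAt E x).symm z) t =
      (bet σ Y π φ x (t, z)).comp (ContinuousLinearMap.inl ℝ _ _) := by
  rw [Fm, bet, ContinuousLinearMap.comp_assoc, h.dif_Th_inl x hz]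
  rfl

theorem Fm_cont (hσ : IsSymplectic σ) (hY : IsTransverseLiouville σ H c Y) {x : N}
    (hx : H (π x) = c) : Continuous (Fm σ Y π φ x) := by
  have hz := (chartAt E x).map_source (mem_chart_source E x)
  have : Fm σ Y π φ x = fun t =>
      (bet σ Y π φ x (t, chartAt E x x)).comp (ContinuousLinearMap.inl ℝ _ _) := by
    funext t
    rw [← h.Fm_eq x hz, (chartAt E x).left_inv (mem_chart_source E x)]
  rw [this]
  exact continuous_iff_continuousAt.2 fun t =>
    (ContinuousAt.comp (f := fun t => (t, chartAt E x x)) (h.bet_d hσ hY hx t).1.continuousAt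
      (by fun_prop)).clm_comp continuousAt_const

theorem Mom_apply (hσ : IsSymplectic σ) (hY : IsTransverseLiouville σ H c Y) {x : N}
    (hx : H (π x) = c) (ξ : Fin k → ℝ) :
    Mom σ Y π φ x ξ = ∫ t in cube k, Fm σ Y π φ x t ξ :=
  ContinuousLinearMap.integral_apply (integrableOn_cube (h.Fm_cont hσ hY hx)) ξ

theorem Mom_deriv (hσ : IsSymplectic σ) (hY : IsTransverseLiouville σ H c Y) {x : N}
    (hx : H (π x) = c) : ∃ D : E →L[ℝ] (Fin k → ℝ) →L[ℝ] ℝ,
      HasStrictFDerivAt (Mom σ Y π φ ∘ (chartAt E x).symm) D (chartAt E x x) ∧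
      ∀ v ξ, D v ξ = -σ (π x) (dif E E π x (gen E φ x ξ)) (dif E E π x v) := by
  have hz := (chartAt E x).map_source (mem_chart_source E x)
  set g : (Fin k → ℝ) × E → (Fin k → ℝ) →L[ℝ] ℝ := fun z =>
    (bet σ Y π φ x z).comp (ContinuousLinearMap.inl ℝ _ _) with hg
  have hb := fun t => h.bet_d hσ hY hx t
  have hgd : ∀ t, ContDiffAt ℝ 1 g (t, chartAt E x x) := fun t =>
    (hb t).1.clm_comp contDiffAt_const
  have h1 := avg_hasStrictFDerivAt (g := g) (w₀ := chartAt E x x) fun t _ => hgd t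
  refine ⟨_, h1.congr_of_eventuallyEq ?_, fun v ξ => ?_⟩
  · filter_upwards [(chartAt E x).open_target.mem_nhds hz] with z hz'
    simp only [Function.comp, Mom, h.Fm_eq x hz', hg]
  have i1 := (avg_int (g := g) (w := chartAt E x x) fun t _ => hgd t).2
  have i2 : IntegrableOn (fun t => ((fderiv ℝ g (t, chartAt E x x)).comp
      (ContinuousLinearMap.inr ℝ _ E)) v) (cube k) :=
    Integrable.apply_continuousLinearMap i1 v
  rw [ContinuousLinearMap.integral_apply i1, ContinuousLinearMap.integral_apply i2]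
  set l : (Fin k → ℝ) → ℝ := fun t => bet σ Y π φ x (t, chartAt E x x) (0, v) with hl
  have l1 : ContDiff ℝ 1 l := contDiff_iff_contDiffAt.2 fun t =>
    (ContDiffAt.comp (f := fun t => (t, chartAt E x x)) t (hb t).1 (by fun_prop)).clm_apply
      contDiffAt_const
  have l2 : ∀ (m : Fin k → ℤ) t, l (rv m + t) = l t := by
    intro m t
    simp only [hl, bet, ContinuousLinearMap.comp_apply, h.dif_Th_inr, Th, h.per]
  have l3 : ∀ t, fderiv ℝ l t ξ = fderiv ℝ (bet σ Y π φ x) (t, chartAt E x x) (ξ, 0) (0, v) := by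
    intro t
    have d0 : HasFDerivAt (fun s => bet σ Y π φ x (s, chartAt E x x))
        ((fderiv ℝ (bet σ Y π φ x) (t, chartAt E x x)).comp (ContinuousLinearMap.inl ℝ _ E)) t :=
      HasFDerivAt.comp (f := fun s : Fin k → ℝ => (s, chartAt E x x)) t
        ((hb t).1.differentiableAt (by simp)).hasFDerivAt
        (hasFDerivAt_prodMk_left (𝕜 := ℝ) t (chartAt E x x))
    have d := d0.clm_apply (hasFDerivAt_const (((0 : Fin k → ℝ), v)) t)
    have : fderiv ℝ l t = _ := d.fderiv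
    rw [this]; simp
  have l4 : ∀ t, ((fderiv ℝ g (t, chartAt E x x)).comp (ContinuousLinearMap.inr ℝ _ E)) v ξ =
      fderiv ℝ l t ξ - σ (π x) (dif E E π x (gen E φ x ξ)) (dif E E π x v) := by
    intro t
    have d := ((hb t).1.differentiableAt (by simp)).hasFDerivAt.clm_comp
      (hasFDerivAt_const (ContinuousLinearMap.inl ℝ (Fin k → ℝ) E) _)
    have e1 : fderiv ℝ g (t, chartAt E x x) = _ := d.fderiv
    have e2 := (hb t).2 (ξ, 0) (0, v)
    have e3 := congrArg (fun L : (Fin k → ℝ) →L[ℝ] E => L ξ) (h.dif_Th_inl x hz t)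
    simp only [ContinuousLinearMap.comp_apply, ContinuousLinearMap.inl_apply,
      (chartAt E x).left_inv (mem_chart_source E x), h.dif_orbit] at e3
    rw [e3, h.dif_Th_inr, h.presForm] at e2
    rw [e1, l3, ← e2]
    simp
  simp only [l4]
  have : IsFiniteMeasure (volume.restrict (cube k)) := ⟨by simpa using cube_fin⟩
  rw [integral_sub (integrableOn_cube ((l1.continuous_fderiv (by simp)).clm_apply continuous_const))
    (integrable_const _), avg_deriv_zero l2 l1]
  simp [cube_real]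

theorem Mom_equiv (hσ : IsSymplectic σ) (hY : IsTransverseLiouville σ H c Y) {x : N}
    (hx : H (π x) = c) (γ : Γ) (ξ : Fin k → ℝ) :
    Mom σ Y π φ (γ • x) (((ρ γ : Matrix (Fin k) (Fin k) ℤ).map (Int.cast : ℤ → ℝ)) *ᵥ ξ) =
      Mom σ Y π φ x ξ := by
  set A := (ρ γ : Matrix (Fin k) (Fin k) ℤ).map (Int.cast : ℤ → ℝ) with hA
  rw [h.Mom_apply hσ hY (by rw [h.deck, hx]), h.Mom_apply hσ hY hx,
    ← avg_linear (f := fun t => Fm σ Y π φ (γ • x) t (A *ᵥ ξ))
      (fun m t => by rw [h.Fm_per]) (ρ γ)]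
  refine integral_congr_ae (Eventually.of_forall fun t => ?_)
  have e1 : ∀ s, π (φ (A *ᵥ s) (γ • x)) = π (φ s x) := fun s => by rw [← h.twist, h.deck]
  let L : (Fin k → ℝ) →L[ℝ] (Fin k → ℝ) := LinearMap.toContinuousLinearMap (Matrix.toLin' A)
  have e2 := dif_comp (g := fun s => π (φ s (γ • x))) (f := L) (x := t)
    ((h.sm_px _).mdifferentiableAt (by simp)) L.differentiableAt.mdifferentiableAt
  rw [dif_fderiv, L.fderiv] at e2
  have e3 : (fun s => π (φ (L s) (γ • x))) = fun s => π (φ s x) := funext e1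
  rw [e3] at e2
  simp only [Fm, ContinuousLinearMap.comp_apply, ← hA, e1, e2]
  rfl

end IsTwistedTorus

end Pool.Agent.P.MP_e3ee0c_gt
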