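import Mathlib

/-! Exponentials of nilpotent elements, polynomial curves, and a logarithm. -/

namespace Pool.Agent.P.MP_e3ee0c_gt.Nil

open NormedSpace Filter Topology

section Poly

/-- polynomial curves with values in a real vector space -/
def PF (V : Type*) [AddCommGroup V] [Module ℝ V] : Submodule ℝ (ℝ → V) :=
  Submodule.span ℝ {f | ∃ (i : ℕ) (a : V), f = fun t : ℝ => t ^ i • a}

variable {U V W : Type*} [AddCommGroup U] [Module ℝ U] [AddCommGroup V] [Module ℝ V]
  [AddCommGroup W] [Module ℝ W]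

theorem PF.mono (i : ℕ) (a : V) : (fun t : ℝ => t ^ i • a) ∈ PF V :=
  Submodule.subset_span ⟨i, a, rfl⟩

theorem PF.const (a : V) : (fun _ : ℝ => a) ∈ PF V := by
  have := PF.mono 0 a
  simpa using this

theorem PF.bilin (B : U →ₗ[ℝ] V →ₗ[ℝ] W) {f : ℝ → U} {g : ℝ → V} (hf : f ∈ PF U)
    (hg : g ∈ PF V) : (fun t => B (f t) (g t)) ∈ PF W := by
  induction hf using Submodule.span_induction with
  | mem f hf =>
    obtain ⟨i, a, rfl⟩ := hf
    induction hg using Submodule.span_induction with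
    | mem g hg =>
      obtain ⟨j, b, rfl⟩ := hg
      have : (fun t : ℝ => B (t ^ i • a) (t ^ j • b)) = fun t : ℝ => t ^ (i + j) • B a b := by
        funext t
        simp only [map_smul, LinearMap.smul_apply, smul_smul, pow_add]
        rw [mul_comm]
      rw [this]
      exact PF.mono _ _
    | zero =>
      have : (fun t : ℝ => B (t ^ i • a) ((0 : ℝ → V) t)) = 0 := by funext t; simp
      rw [this]; exact Submodule.zero_mem _
    | add g g' _ _ h h' =>
      have : (fun t : ℝ => B (t ^ i • a) ((g + g') t)) =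
          (fun t : ℝ => B (t ^ i • a) (g t)) + fun t : ℝ => B (t ^ i • a) (g' t) := by
        funext t; simp
      rw [this]; exact Submodule.add_mem _ h h'
    | smul c g _ h =>
      have : (fun t : ℝ => B (t ^ i • a) ((c • g) t)) =
          c • (fun t : ℝ => B (t ^ i • a) (g t)) := by
        funext t; simp
      rw [this]; exact Submodule.smul_mem _ _ h
  | zero =>
    have : (fun t : ℝ => B ((0 : ℝ → U) t) (g t)) = 0 := by funext t; simp
    rw [this]; exact Submodule.zero_mem _
  | add f f' _ _ h h' =>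
    have : (fun t : ℝ => B ((f + f') t) (g t)) =
        (fun t : ℝ => B (f t) (g t)) + fun t : ℝ => B (f' t) (g t) := by
      funext t; simp
    rw [this]; exact Submodule.add_mem _ h h'
  | smul c f _ h =>
    have : (fun t : ℝ => B ((c • f) t) (g t)) = c • (fun t : ℝ => B (f t) (g t)) := by
      funext t; simp
    rw [this]; exact Submodule.smul_mem _ _ h

theorem PF.lin (L : U →ₗ[ℝ] V) {f : ℝ → U} (hf : f ∈ PF U) : (fun t => L (f t)) ∈ PF V := by
  have := PF.bilin ((LinearMap.lsmul ℝ V).flip ∘ₗ L) hf (PF.const (1 : ℝ))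
  simpa using this

theorem PF.exists_poly {f : ℝ → ℝ} (hf : f ∈ PF ℝ) :
    ∃ p : Polynomial ℝ, ∀ t, f t = p.eval t := by
  induction hf using Submodule.span_induction with
  | mem f hf =>
    obtain ⟨i, a, rfl⟩ := hf
    exact ⟨Polynomial.monomial i a, fun t => by simp [mul_comm]⟩
  | zero => exact ⟨0, fun t => by simp⟩
  | add f g _ _ h h' =>
    obtain ⟨p, hp⟩ := h
    obtain ⟨q, hq⟩ := h'
    exact ⟨p + q, fun t => by simp [hp, hq]⟩
  | smul c f _ h =>
    obtain ⟨p, hp⟩ := h
    exact ⟨Polynomial.C c * p, fun t => by simp [hp]⟩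

theorem PF.const_of_bdd_real {f : ℝ → ℝ} (hf : f ∈ PF ℝ) {C : ℝ} (hC : ∀ t, |f t| ≤ C)
    (s t : ℝ) : f s = f t := by
  obtain ⟨p, hp⟩ := PF.exists_poly hf
  have hb : IsBoundedUnder (· ≤ ·) atTop fun x => |p.eval x| :=
    ⟨C, eventually_map.mpr (Eventually.of_forall fun x => by rw [← hp]; exact hC x)⟩
  have hd := (Polynomial.isBoundedUnder_abs_atTop_iff p).mp hb
  rw [hp, hp, Polynomial.eq_C_of_degree_le_zero hd]
  simp

theorem PF.const_of_bdd {E : Type*} [NormedAddCommGroup E] [NormedSpace ℝ E] {f : ℝ → E}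
    (hf : f ∈ PF E) {C : ℝ} (hC : ∀ t, ‖f t‖ ≤ C) (s t : ℝ) : f s = f t := by
  rw [SeparatingDual.eq_iff_forall_dual_eq (R := ℝ)]
  intro L
  refine PF.const_of_bdd_real (PF.lin (L : E →ₗ[ℝ] ℝ) hf) (C := ‖L‖ * C) (fun u => ?_) s t
  exact (L.le_opNorm _).trans (mul_le_mul_of_nonneg_left (hC u) (norm_nonneg _))

end Poly

section Exp

variable {A : Type*} [NormedRing A] [NormedAlgebra ℝ A] [CompleteSpace A]

theorem exp_add' {x y : A} (h : Commute x y) : exp (x + y) = exp x * exp y := by
  let _ : NormedAlgebra ℚ A := NormedAlgebra.restrictScalars ℚ ℝ A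
  exact exp_add_of_commute h

theorem exp_cont : Continuous (exp : A → A) := by
  let _ : NormedAlgebra ℚ A := NormedAlgebra.restrictScalars ℚ ℝ A
  exact exp_continuous

theorem exp_nsmul' (m : ℕ) (x : A) : exp ((m : ℝ) • x) = exp x ^ m := by
  let _ : NormedAlgebra ℚ A := NormedAlgebra.restrictScalars ℚ ℝ A
  rw [Nat.cast_smul_eq_nsmul]
  exact exp_nsmul m x

theorem exp_semiconj {x a b : A} (h : SemiconjBy x a b) : SemiconjBy x (exp a) (exp b) := by
  let _ : NormedAlgebra ℚ A := NormedAlgebra.restrictScalars ℚ ℝ A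
  exact h.exp_right

theorem exp_mul_neg (x : A) : exp x * exp (-x) = 1 := by
  rw [← exp_add' (Commute.refl x).neg_right]; simp

theorem exp_neg_mul (x : A) : exp (-x) * exp x = 1 := by
  rw [← exp_add' (Commute.refl x).neg_left]; simp

theorem exp_smul_add (s t : ℝ) (x : A) : exp ((s + t) • x) = exp (s • x) * exp (t • x) := by
  rw [add_smul, exp_add' (((Commute.refl x).smul_left s).smul_right t)]

theorem exp_smul_mul_neg (t : ℝ) (x : A) : exp (t • x) * exp ((-t) • x) = 1 := by
  rw [← exp_smul_add]; simp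

theorem exp_neg_smul_mul (t : ℝ) (x : A) : exp ((-t) • x) * exp (t • x) = 1 := by
  rw [← exp_smul_add]; simp

theorem cont_exp_smul (x : A) : Continuous fun t : ℝ => exp (t • x) :=
  exp_cont.comp (continuous_id.smul continuous_const)

/-- conjugation commutes with the exponential -/
theorem exp_conj_of_inv {g h : A} (hgh : g * h = 1) (hhg : h * g = 1) (Y : A) :
    exp (g * Y * h) = g * exp Y * h := by
  have h1 : SemiconjBy g Y (g * Y * h) := by
    unfold SemiconjBy
    rw [mul_assoc (g * Y), hhg, mul_one]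
  have h2 := exp_semiconj h1
  unfold SemiconjBy at h2
  rw [h2, mul_assoc _ g h, hgh, mul_one]

omit [CompleteSpace A] in
theorem exp_eq_sum {k : ℕ} {x : A} (hx : x ^ k = 0) :
    exp x = ∑ i ∈ Finset.range k, ((i.factorial : ℝ)⁻¹) • x ^ i := by
  rw [exp_eq_tsum ℝ]
  apply tsum_eq_sum
  intro i hi
  rw [Finset.mem_range, not_lt] at hi
  rw [pow_eq_zero_of_le hi hx, smul_zero]

omit [CompleteSpace A] in
theorem exp_smul_eq_sum {k : ℕ} {x : A} (hx : x ^ k = 0) (t : ℝ) :
    exp (t • x) = ∑ i ∈ Finset.range k, t ^ i • ((i.factorial : ℝ)⁻¹) • x ^ i := by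
  rw [exp_eq_sum (k := k) (by rw [smul_pow, hx, smul_zero])]
  refine Finset.sum_congr rfl fun i _ => ?_
  rw [smul_pow, smul_comm]

omit [CompleteSpace A] in
theorem exp_mem_PF {k : ℕ} {x : A} (hx : x ^ k = 0) : (fun t : ℝ => exp (t • x)) ∈ PF A := by
  have : (fun t : ℝ => exp (t • x)) =
      ∑ i ∈ Finset.range k, fun t : ℝ => t ^ i • ((i.factorial : ℝ)⁻¹) • x ^ i := by
    funext t
    rw [exp_smul_eq_sum hx, Finset.sum_apply]
  rw [this]
  exact Submodule.sum_mem _ fun i _ => PF.mono _ _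

omit [CompleteSpace A] in
theorem exp_neg_mem_PF {k : ℕ} {x : A} (hx : x ^ k = 0) :
    (fun t : ℝ => exp ((-t) • x)) ∈ PF A := by
  have h : (-x) ^ k = 0 := by rw [neg_pow, hx, mul_zero]
  have := exp_mem_PF h
  simpa using this

omit [CompleteSpace A] in
theorem PF.mul {f g : ℝ → A} (hf : f ∈ PF A) (hg : g ∈ PF A) :
    (fun t => f t * g t) ∈ PF A :=
  PF.bilin (LinearMap.mul ℝ A) hf hg

/-- interpolation coefficients extracting the linear term -/
theorem exists_coeff (k : ℕ) : ∃ c : ℕ → ℝ, ∀ i < k,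
    ∑ j ∈ Finset.range k, c j * (j : ℝ) ^ i = if i = 1 then 1 else 0 := by
  classical
  refine ⟨fun j => (Lagrange.basis (Finset.range k) (fun j : ℕ => (j : ℝ)) j).coeff 1,
    fun i hi => ?_⟩
  have hinj : Set.InjOn (fun j : ℕ => (j : ℝ)) (Finset.range k : Set ℕ) :=
    fun a _ b _ h => Nat.cast_injective h
  have h := Lagrange.eq_interpolate (s := Finset.range k) (v := fun j : ℕ => (j : ℝ))
    (f := (Polynomial.X : Polynomial ℝ) ^ i) hinj (by
      rw [Polynomial.degree_X_pow, Finset.card_range]; exact_mod_cast hi)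
  have h2 := congrArg (fun p : Polynomial ℝ => p.coeff 1) h
  simp only [Lagrange.interpolate_apply, Polynomial.finsetSum_coeff, Polynomial.coeff_C_mul,
    Polynomial.eval_pow, Polynomial.eval_X, Polynomial.coeff_X_pow] at h2
  rw [show (if i = 1 then (1 : ℝ) else 0) = if 1 = i then 1 else 0 by simp [eq_comm], h2]
  exact Finset.sum_congr rfl fun j _ => mul_comm _ _

/-- a polynomial logarithm -/
theorem exists_log (k : ℕ) : ∃ L : A → A, Continuous L ∧ (∀ x : A, x ^ k = 0 → L (exp x) = x) ∧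
    ∀ a g : A, Commute a g → Commute a (L g) := by
  obtain ⟨c, hc⟩ := exists_coeff (k + 2)
  refine ⟨fun g => ∑ j ∈ Finset.range (k + 2), c j • g ^ j, by fun_prop, fun x hx => ?_,
    fun a g h => ?_⟩
  · have hx' : x ^ (k + 2) = 0 := pow_eq_zero_of_le (by omega) hx
    simp only [← exp_nsmul', exp_smul_eq_sum hx', Finset.smul_sum, smul_smul]
    rw [Finset.sum_comm]
    have : ∀ i ∈ Finset.range (k + 2),
        ∑ j ∈ Finset.range (k + 2), (c j * ((j : ℝ) ^ i * (i.factorial : ℝ)⁻¹)) • x ^ i =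
          if i = 1 then x else 0 := by
      intro i hi
      rw [← Finset.sum_smul]
      simp only [← mul_assoc]
      rw [← Finset.sum_mul, hc i (Finset.mem_range.mp hi)]
      split_ifs with h
      · subst h; simp
      · simp
    rw [Finset.sum_congr rfl this, Finset.sum_ite_eq']
    simp
  · exact Commute.sum_right _ _ _ fun j _ => (h.pow_right j).smul_right _

end Exp

theorem pow_finrank_eq_zero {A : Type*} [Ring A] [Algebra ℝ A] [FiniteDimensional ℝ A] {x : A}
    (hx : IsNilpotent x) : x ^ Module.finrank ℝ A = 0 := by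
  have h1 : IsNilpotent (LinearMap.mul ℝ A x) := by
    obtain ⟨m, hm⟩ := hx
    refine ⟨m, ?_⟩
    ext a
    have : ∀ j : ℕ, ((LinearMap.mul ℝ A x) ^ j) a = x ^ j * a := by
      intro j
      induction j with
      | zero => simp
      | succ j ih => rw [pow_succ', Module.End.mul_apply, ih, pow_succ', mul_assoc]; rfl
    rw [this, hm]; simp
  have h2 := LinearMap.aeval_self_charpoly (LinearMap.mul ℝ A x)
  rw [LinearMap.isNilpotent_iff_charpoly] at h1
  rw [h1] at h2
  simp only [map_pow, Polynomial.aeval_X] at h2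
  have : ∀ j : ℕ, ((LinearMap.mul ℝ A x) ^ j) 1 = x ^ j := by
    intro j
    induction j with
    | zero => simp
    | succ j ih => rw [pow_succ', Module.End.mul_apply, ih, pow_succ']; rfl
  rw [← this, h2]; simp

end Pool.Agent.P.MP_e3ee0c_gt.Nil
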