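import Mathlib

/-! Calculus of a one-form on a normed space and of its exterior derivative along curves. -/

set_option maxSynthPendingDepth 3

namespace Pool.Agent.P.MP_e3ee0c_gt.Nil

open Filter Topology

variable {E : Type*} [NormedAddCommGroup E] [NormedSpace ℝ E]

/-- exterior derivative of a one-form -/
noncomputable def dA (α : E → E →L[ℝ] ℝ) (g u v : E) : ℝ :=
  fderiv ℝ α g u v - fderiv ℝ α g v u

/-- derivative of the coefficients of the exterior derivative -/
noncomputable def ddA (α : E → E →L[ℝ] ℝ) (g a u v : E) : ℝ :=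
  fderiv ℝ (fderiv ℝ α) g a u v - fderiv ℝ (fderiv ℝ α) g a v u

variable {α : E → E →L[ℝ] ℝ}

theorem dA_anti (g u v : E) : dA α g u v = -dA α g v u := by unfold dA; ring

theorem dA_self (g u : E) : dA α g u u = 0 := by unfold dA; ring

theorem dA_sub_right (g u v w : E) : dA α g u (v - w) = dA α g u v - dA α g u w := by
  unfold dA; simp only [map_sub, sub_apply]; ring

theorem ddA_anti (g a u v : E) : ddA α g a u v = -ddA α g a v u := by unfold ddA; ring

theorem ddA_closed (hα : ContDiff ℝ 2 α) (g a b c : E) :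
    ddA α g a b c + ddA α g b c a + ddA α g c a b = 0 := by
  have h : IsSymmSndFDerivAt ℝ α g := hα.contDiffAt.isSymmSndFDerivAt (by simp)
  unfold ddA
  rw [h a b, h b c, h c a]
  ring

theorem hasDerivAt_form (hα : Differentiable ℝ α) {x u : ℝ → E} {x' u' : E} {t : ℝ}
    (hx : HasDerivAt x x' t) (hu : HasDerivAt u u' t) :
    HasDerivAt (fun s => α (x s) (u s)) (fderiv ℝ α (x t) x' (u t) + α (x t) u') t :=
  ((hα (x t)).hasFDerivAt.comp_hasDerivAt t hx).clm_apply hu

theorem hasDerivAt_dA (hα : ContDiff ℝ 2 α) {x u v : ℝ → E} {x' u' v' : E} {t : ℝ}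
    (hx : HasDerivAt x x' t) (hu : HasDerivAt u u' t) (hv : HasDerivAt v v' t) :
    HasDerivAt (fun s => dA α (x s) (u s) (v s))
      (ddA α (x t) x' (u t) (v t) + dA α (x t) u' (v t) + dA α (x t) (u t) v') t := by
  have h1 : Differentiable ℝ (fderiv ℝ α) :=
    (hα.fderiv_right (m := 1) (by norm_num)).differentiable (by norm_num)
  have h2 : HasDerivAt (fun s => fderiv ℝ α (x s)) (fderiv ℝ (fderiv ℝ α) (x t) x') t :=
    (h1 (x t)).hasFDerivAt.comp_hasDerivAt t hx
  have h3 := (h2.clm_apply hu).clm_apply hv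
  have h4 := (h2.clm_apply hv).clm_apply hu
  refine (h3.sub h4).congr_deriv ?_
  simp only [dA, ddA, add_apply]
  ring

theorem continuous_dA (hα : ContDiff ℝ 2 α) {X : Type*} [TopologicalSpace X] {x u v : X → E}
    (hx : Continuous x) (hu : Continuous u) (hv : Continuous v) :
    Continuous fun s => dA α (x s) (u s) (v s) := by
  have h1 : Continuous (fderiv ℝ α) := hα.continuous_fderiv (by norm_num)
  unfold dA
  exact (((h1.comp hx).clm_apply hu).clm_apply hv).sub (((h1.comp hx).clm_apply hv).clm_apply hu)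

/-- the exterior derivative at a point as a bilinear map -/
noncomputable def dAl (α : E → E →L[ℝ] ℝ) (g : E) : E →ₗ[ℝ] E →ₗ[ℝ] ℝ :=
  LinearMap.mk₂ ℝ (dA α g)
    (fun a b c => by simp only [dA, map_add, add_apply]; ring)
    (fun c a b => by simp only [dA, map_smul, smul_apply, smul_eq_mul]; ring)
    (fun a b c => by simp only [dA, map_add, add_apply]; ring)
    (fun c a b => by simp only [dA, map_smul, smul_apply, smul_eq_mul]; ring)

theorem dAl_apply (g u v : E) : dAl α g u v = dA α g u v := rfl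

/-- differentiation under the integral sign for jointly continuous data -/
theorem hasDerivAt_param {H H' : ℝ → ℝ → ℝ} (hH : Continuous H.uncurry)
    (hH' : Continuous H'.uncurry) (hd : ∀ τ u, HasDerivAt (fun τ => H τ u) (H' τ u) τ)
    (s : ℝ) : HasDerivAt (fun τ => ∫ u in (0 : ℝ)..s, H τ u) (∫ u in (0 : ℝ)..s, H' 0 u) 0 := by
  obtain ⟨C, hC⟩ := ((isCompact_Icc (a := (-1 : ℝ)) (b := 1)).prod
    (isCompact_uIcc (a := (0 : ℝ)) (b := s))).exists_bound_of_continuousOn hH'.continuousOn
  have hc : ∀ τ, Continuous (H τ) := fun τ => hH.comp (Continuous.prodMk_right τ)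
  have hc' : ∀ τ, Continuous (H' τ) := fun τ => hH'.comp (Continuous.prodMk_right τ)
  refine (intervalIntegral.hasDerivAt_integral_of_dominated_loc_of_deriv_le
    (s := Set.Icc (-1 : ℝ) 1) (bound := fun _ => C) (Icc_mem_nhds (by norm_num) (by norm_num))
    (Eventually.of_forall fun τ => (hc τ).aestronglyMeasurable) ((hc 0).intervalIntegrable _ _)
    (hc' 0).aestronglyMeasurable (Eventually.of_forall fun u hu τ hτ => ?_)
    (intervalIntegrable_const) (Eventually.of_forall fun u _ τ _ => hd τ u)).2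
  exact hC (τ, u) ⟨hτ, Set.uIoc_subset_uIcc hu⟩

end Pool.Agent.P.MP_e3ee0c_gt.Nil
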