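import Pool.Agent.P.MP_e3ee0c_gt.NilBasic
import Pool.Agent.P.MP_e3ee0c_gt.NilForm

/-! A lattice in a unipotent group and an invariant one-form. -/

set_option maxSynthPendingDepth 3
set_option linter.unusedSectionVars false

namespace Pool.Agent.P.MP_e3ee0c_gt.Nil

open NormedSpace Filter Topology

attribute [local instance 100] LieRing.ofAssociativeRing in
theorem exists_filtration {A : Type*} [Ring A] [Algebra ℝ A] [FiniteDimensional ℝ A]
    (n : Submodule ℝ A) (hbr : ∀ Y ∈ n, ∀ Z ∈ n, Y * Z - Z * Y ∈ n)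
    (hn : ∀ Y ∈ n, IsNilpotent Y) :
    ∃ (C : ℕ → Set A) (N : ℕ), (∀ Y ∈ n, Y ∈ C 0) ∧ (∀ j, ∀ Y ∈ C j, Y ∈ n) ∧
      (∀ j, ∀ Y ∈ n, ∀ Z ∈ C j, Y * Z - Z * Y ∈ C (j + 1)) ∧
      (∀ j, ∀ Z ∈ C j, -Z ∈ C j) ∧ ∀ Y ∈ C N, Y = 0 := by
  let L : LieSubalgebra ℝ A := { n with lie_mem' := fun {x y} hx hy => hbr x hx y hy }
  have hL : LieRing.IsNilpotent L := by
    rw [LieAlgebra.isNilpotent_iff_forall (R := ℝ)]
    intro x
    exact LieAlgebra.isNilpotent_ad_of_isNilpotent (hn x x.2)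
  obtain ⟨N, hN⟩ := LieModule.IsNilpotent.nilpotent ℝ L L
  refine ⟨fun j => {a | ∃ y : L, y ∈ LieModule.lowerCentralSeries ℝ L L j ∧ (y : A) = a}, N,
    fun Y hY => ⟨⟨Y, hY⟩, by simp, rfl⟩, ?_, ?_, ?_, ?_⟩
  · rintro j Y ⟨y, -, rfl⟩
    exact y.2
  · rintro j Y hY Z ⟨z, hz, rfl⟩
    refine ⟨⁅(⟨Y, hY⟩ : L), z⁆, ?_, rfl⟩
    rw [LieModule.lowerCentralSeries_succ]
    exact LieSubmodule.lie_mem_lie (LieSubmodule.mem_top _) hz
  · rintro j Z ⟨z, hz, rfl⟩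
    exact ⟨-z, neg_mem hz, rfl⟩
  · rintro Y ⟨y, hy, rfl⟩
    rw [hN, LieSubmodule.mem_bot] at hy
    rw [hy]; rfl

variable {A : Type*} [NormedRing A] [NormedAlgebra ℝ A] [FiniteDimensional ℝ A]

/-- unipotent group `exp n`, a cocompact discrete subgroup and an invariant one-form -/
structure Data (A : Type*) [NormedRing A] [NormedAlgebra ℝ A] where
  n : Submodule ℝ A
  hbr : ∀ Y ∈ n, ∀ Z ∈ n, Y * Z - Z * Y ∈ n
  hn : ∀ Y ∈ n, IsNilpotent Y
  hmul : ∀ Y ∈ n, ∀ Z ∈ n, ∃ W ∈ n, exp Y * exp Z = exp W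
  Γ : Set A
  hΓ : ∀ γ ∈ Γ, ∃ Y ∈ n, γ = exp Y
  Γmul : ∀ γ ∈ Γ, ∀ δ ∈ Γ, γ * δ ∈ Γ
  Γinv : ∀ γ ∈ Γ, ∃ δ ∈ Γ, γ * δ = 1
  disc : ∃ ε > 0, ∀ γ ∈ Γ, ‖γ - 1‖ < ε → γ = 1
  K : Set A
  hK : IsCompact K
  hKG : ∀ κ ∈ K, ∃ Y ∈ n, κ = exp Y
  cocpt : ∀ Y ∈ n, ∃ κ ∈ K, ∃ γ ∈ Γ, exp Y = κ * γ
  α : A → A →L[ℝ] ℝ
  hα : ContDiff ℝ 2 α
  hinv : ∀ g, (∃ Y ∈ n, g = exp Y) → ∀ γ ∈ Γ, ∀ Y ∈ n, α (g * γ) (Y * (g * γ)) = α g (Y * g)
  X : A
  hX : X ∈ n
  hX0 : X ≠ 0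
  hker : ∀ g, (∃ Y ∈ n, g = exp Y) → ∀ Y ∈ n,
    (∀ Z ∈ n, dA α g (Y * g) (Z * g) = 0) ↔ ∃ c : ℝ, Y = c • X

namespace Data

variable (D : Data A)

/-- the group -/
def G : Set A := {g | ∃ Y ∈ D.n, g = exp Y}

theorem cs : CompleteSpace A := FiniteDimensional.complete ℝ A

attribute [local instance] cs

theorem pow_eq {Y : A} (hY : Y ∈ D.n) : Y ^ Module.finrank ℝ A = 0 :=
  pow_finrank_eq_zero (D.hn Y hY)

/-- the logarithm -/
noncomputable def lg (A : Type*) [NormedRing A] [NormedAlgebra ℝ A] [FiniteDimensional ℝ A] :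
    A → A := (exists_log (A := A) (Module.finrank ℝ A)).choose

theorem lg_cont : Continuous (lg A) := (exists_log (A := A) (Module.finrank ℝ A)).choose_spec.1

theorem lg_exp' {Y : A} (hY : IsNilpotent Y) : lg A (exp Y) = Y :=
  (exists_log (A := A) (Module.finrank ℝ A)).choose_spec.2.1 Y (pow_finrank_eq_zero hY)

theorem lg_exp {Y : A} (hY : Y ∈ D.n) : lg A (exp Y) = Y := lg_exp' (D.hn Y hY)

theorem lg_comm {a g : A} (h : Commute a g) : Commute a (lg A g) :=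
  (exists_log (A := A) (Module.finrank ℝ A)).choose_spec.2.2 a g h

theorem lg_one : lg A 1 = 0 := by
  have := lg_exp' (A := A) (Y := 0) IsNilpotent.zero
  simpa using this

/-- the inverse on the group, as a continuous function on the algebra -/
noncomputable def iv (g : A) : A := exp (-lg A g)

theorem iv_cont : Continuous (iv : A → A) := exp_cont.comp lg_cont.neg

variable {D}

theorem exp_mem {Y : A} (hY : Y ∈ D.n) : exp Y ∈ D.G := ⟨Y, hY, rfl⟩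

theorem exp_smul_mem {Y : A} (hY : Y ∈ D.n) (t : ℝ) : exp (t • Y) ∈ D.G :=
  exp_mem (D.n.smul_mem t hY)

theorem mul_mem {g h : A} (hg : g ∈ D.G) (hh : h ∈ D.G) : g * h ∈ D.G := by
  obtain ⟨Y, hY, rfl⟩ := hg
  obtain ⟨Z, hZ, rfl⟩ := hh
  exact D.hmul Y hY Z hZ

theorem one_mem : (1 : A) ∈ D.G := ⟨0, D.n.zero_mem, by simp⟩

theorem lg_mem {g : A} (hg : g ∈ D.G) : lg A g ∈ D.n := by
  obtain ⟨Y, hY, rfl⟩ := hg
  rwa [D.lg_exp hY]

theorem exp_lg {g : A} (hg : g ∈ D.G) : exp (lg A g) = g := by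
  obtain ⟨Y, hY, rfl⟩ := hg
  rw [D.lg_exp hY]

theorem iv_mem {g : A} (hg : g ∈ D.G) : iv g ∈ D.G := exp_mem (neg_mem (lg_mem hg))

theorem mul_iv {g : A} (hg : g ∈ D.G) : g * iv g = 1 := by
  have := exp_mul_neg (lg A g)
  rwa [exp_lg hg] at this

theorem iv_mul {g : A} (hg : g ∈ D.G) : iv g * g = 1 := by
  have := exp_neg_mul (lg A g)
  rwa [exp_lg hg] at this

theorem eq_iv {g h : A} (hg : g ∈ D.G) (h1 : g * h = 1) : h = iv g := by
  rw [← one_mul h, ← iv_mul hg, mul_assoc, h1, mul_one]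

theorem Γ_sub {γ : A} (h : γ ∈ D.Γ) : γ ∈ D.G := D.hΓ γ h

theorem K_sub {κ : A} (h : κ ∈ D.K) : κ ∈ D.G := D.hKG κ h

theorem iv_memΓ {γ : A} (h : γ ∈ D.Γ) : iv γ ∈ D.Γ := by
  obtain ⟨δ, hδ, h1⟩ := D.Γinv γ h
  rwa [← eq_iv (Γ_sub h) h1]

theorem decomp {g : A} (hg : g ∈ D.G) : ∃ κ ∈ D.K, ∃ γ ∈ D.Γ, g = κ * γ := by
  obtain ⟨Y, hY, rfl⟩ := hg
  exact D.cocpt Y hY

theorem conj_mem {g h Y : A} (hg : g ∈ D.G) (hgh : g * h = 1) (hY : Y ∈ D.n) :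
    g * Y * h ∈ D.n := by
  have hh := eq_iv hg hgh
  subst hh
  have h1 : exp (g * Y * iv g) ∈ D.G := by
    rw [exp_conj_of_inv (mul_iv hg) (iv_mul hg)]
    exact mul_mem (mul_mem hg (exp_mem hY)) (iv_mem hg)
  have h2 : IsNilpotent (g * Y * iv g) := by
    obtain ⟨m, hm⟩ := D.hn Y hY
    refine ⟨m + 1, ?_⟩
    have : ∀ j : ℕ, (g * Y * iv g) ^ (j + 1) = g * Y ^ (j + 1) * iv g := by
      intro j
      induction j with
      | zero => simp
      | succ j ih =>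
        rw [pow_succ, ih, pow_succ Y (j + 1)]
        simp only [mul_assoc]
        rw [← mul_assoc (iv g) g, iv_mul hg, one_mul]
    rw [this, pow_succ, hm]; simp
  have := lg_mem h1
  rwa [lg_exp' h2] at this

theorem comm_of_central {W g : A} (hW : ∀ Y ∈ D.n, Commute W Y) (hg : g ∈ D.G) :
    Commute W g := by
  obtain ⟨Y, hY, rfl⟩ := hg
  exact (hW Y hY).exp_right

/-- a continuous invariant function is bounded on the group -/
theorem bdd_of_inv {f : A → ℝ} (hf : Continuous f)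
    (hi : ∀ g ∈ D.G, ∀ γ ∈ D.Γ, f (g * γ) = f g) : ∃ C, ∀ g ∈ D.G, |f g| ≤ C := by
  obtain ⟨C, hC⟩ := D.hK.exists_bound_of_continuousOn hf.continuousOn
  refine ⟨C, fun g hg => ?_⟩
  obtain ⟨κ, hκ, γ, hγ, rfl⟩ := decomp hg
  rw [hi κ (K_sub hκ) γ hγ]
  exact hC κ hκ

variable (D)

/-- components of the form in the invariant frame -/
noncomputable def a (Y g : A) : ℝ := D.α g (Y * g)

/-- components of the exterior derivative in the invariant frame -/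
noncomputable def ω (Y Z g : A) : ℝ := dA D.α g (Y * g) (Z * g)

/-- derivative of the component `a Z` along `Y` -/
noncomputable def da (Y Z g : A) : ℝ := fderiv ℝ D.α g (Y * g) (Z * g) + D.α g (Z * (Y * g))

theorem diff : Differentiable ℝ D.α := D.hα.differentiable (by norm_num)

theorem a_cont (Y : A) : Continuous (D.a Y) := by
  unfold a
  exact D.hα.continuous.clm_apply (by fun_prop)

theorem ω_cont (Y Z : A) : Continuous (D.ω Y Z) :=
  continuous_dA D.hα continuous_id (by fun_prop) (by fun_prop)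

theorem da_cont (Y Z : A) : Continuous (D.da Y Z) := by
  have h1 : Continuous (fderiv ℝ D.α) := D.hα.continuous_fderiv (by norm_num)
  unfold da
  exact ((h1.clm_apply (by fun_prop)).clm_apply (by fun_prop)).add
    (D.hα.continuous.clm_apply (by fun_prop))

theorem hasDerivAt_flow (Y g : A) (t : ℝ) :
    HasDerivAt (fun s : ℝ => exp (s • Y) * g) (Y * (exp (t • Y) * g)) t := by
  have := (hasDerivAt_exp_smul_const' (𝕂 := ℝ) Y t).mul_const g
  rwa [mul_assoc] at this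

theorem hasDerivAt_a (Y Z g : A) (t : ℝ) :
    HasDerivAt (fun s : ℝ => D.a Z (exp (s • Y) * g)) (D.da Y Z (exp (t • Y) * g)) t :=
  hasDerivAt_form D.diff (hasDerivAt_flow Y g t) ((hasDerivAt_flow Y g t).const_mul Z)

theorem ω_eq (Y Z g : A) : D.ω Y Z g = D.da Y Z g - D.da Z Y g + D.a (Y * Z - Z * Y) g := by
  simp only [ω, da, a, dA, sub_mul, map_sub, mul_assoc]
  ring

variable {D}

theorem a_inv {Y g γ : A} (hY : Y ∈ D.n) (hg : g ∈ D.G) (hγ : γ ∈ D.Γ) :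
    D.a Y (g * γ) = D.a Y g := D.hinv g hg γ hγ Y hY

theorem da_inv {Y Z g γ : A} (hY : Y ∈ D.n) (hZ : Z ∈ D.n) (hg : g ∈ D.G) (hγ : γ ∈ D.Γ) :
    D.da Y Z (g * γ) = D.da Y Z g := by
  have h1 := D.hasDerivAt_a Y Z (g * γ) 0
  have h2 := D.hasDerivAt_a Y Z g 0
  have h3 : (fun s : ℝ => D.a Z (exp (s • Y) * (g * γ))) =
      fun s : ℝ => D.a Z (exp (s • Y) * g) := by
    funext s
    rw [← mul_assoc, a_inv hZ (mul_mem (exp_smul_mem hY s) hg) hγ]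
  rw [h3] at h1
  simpa using h1.unique h2

theorem ω_inv {Y Z g γ : A} (hY : Y ∈ D.n) (hZ : Z ∈ D.n) (hg : g ∈ D.G) (hγ : γ ∈ D.Γ) :
    D.ω Y Z (g * γ) = D.ω Y Z g := by
  rw [ω_eq, ω_eq, da_inv hY hZ hg hγ, da_inv hZ hY hg hγ, a_inv (D.hbr Y hY Z hZ) hg hγ]

theorem ω_X {Z g : A} (hZ : Z ∈ D.n) (hg : g ∈ D.G) : D.ω D.X Z g = 0 :=
  (D.hker g hg D.X D.hX).mpr ⟨1, by simp⟩ Z hZ

/-- the derivative of the kernel condition -/
theorem ker_deriv {Y Z g : A} (hY : Y ∈ D.n) (hZ : Z ∈ D.n) (hg : g ∈ D.G) :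
    ddA D.α g (Y * g) (D.X * g) (Z * g) + dA D.α g (D.X * (Y * g)) (Z * g) +
      dA D.α g (D.X * g) (Z * (Y * g)) = 0 := by
  have h1 := hasDerivAt_dA D.hα (hasDerivAt_flow Y g 0) ((hasDerivAt_flow Y g 0).const_mul D.X)
    ((hasDerivAt_flow Y g 0).const_mul Z)
  have h2 : (fun s : ℝ => dA D.α (exp (s • Y) * g) (D.X * (exp (s • Y) * g))
      (Z * (exp (s • Y) * g))) = fun _ => 0 := by
    funext s
    exact ω_X hZ (mul_mem (exp_smul_mem hY s) hg)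
  rw [h2] at h1
  simpa using h1.unique (hasDerivAt_const _ _)

/-- the Lie derivative of the exterior derivative along `X` vanishes -/
theorem lie_deriv {Y Z g : A} (hY : Y ∈ D.n) (hZ : Z ∈ D.n) (hg : g ∈ D.G) :
    ddA D.α g (D.X * g) (Y * g) (Z * g) + dA D.α g (D.X * (Y * g)) (Z * g) +
      dA D.α g (Y * g) (D.X * (Z * g)) = 0 := by
  have h1 := ker_deriv hY hZ hg
  have h2 := ker_deriv hZ hY hg
  have h3 := ddA_closed D.hα g (D.X * g) (Y * g) (Z * g)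
  have h4 := ω_X (D.hbr Y hY Z hZ) hg
  rw [ω, sub_mul, dA_sub_right, mul_assoc, mul_assoc] at h4
  have h5 := ddA_anti (α := D.α) g (Y * g) (Z * g) (D.X * g)
  have h6 := dA_anti (α := D.α) g (Y * g) (D.X * (Z * g))
  linarith

/-- the flow of `X` preserves the exterior derivative -/
theorem flow_inv {Y Z g : A} (hY : Y ∈ D.n) (hZ : Z ∈ D.n) (hg : g ∈ D.G) (t : ℝ) :
    dA D.α (exp (t • D.X) * g) (exp (t • D.X) * (Y * g)) (exp (t • D.X) * (Z * g)) =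
      D.ω Y Z g := by
  have hd : ∀ s : ℝ, HasDerivAt (fun t : ℝ => dA D.α (exp (t • D.X) * g)
      (exp (t • D.X) * (Y * g)) (exp (t • D.X) * (Z * g))) 0 s := by
    intro s
    have h1 := hasDerivAt_dA D.hα (hasDerivAt_flow D.X g s) (hasDerivAt_flow D.X (Y * g) s)
      (hasDerivAt_flow D.X (Z * g) s)
    have key : ∀ U : A, exp (s • D.X) * (U * g) =
        exp (s • D.X) * U * exp ((-s) • D.X) * (exp (s • D.X) * g) := by
      intro U
      rw [mul_assoc _ (exp ((-s) • D.X)), ← mul_assoc (exp ((-s) • D.X)), exp_neg_smul_mul,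
        one_mul, mul_assoc]
    have h2 := lie_deriv (conj_mem (exp_smul_mem D.hX s) (exp_smul_mul_neg s D.X) hY)
      (conj_mem (exp_smul_mem D.hX s) (exp_smul_mul_neg s D.X) hZ)
      (mul_mem (exp_smul_mem D.hX s) hg)
    rw [← key, ← key] at h2
    exact h1.congr_deriv h2
  have := is_const_of_deriv_eq_zero (fun s => (hd s).differentiableAt) (fun s => (hd s).deriv) t 0
  simpa [ω] using this

end Data

end Pool.Agent.P.MP_e3ee0c_gt.Nil
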