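import Mathlib

/-! Time change along a periodic positive speed. -/

namespace Pool.Agent.P.MP_e3ee0c_gt.Nil

open Filter Topology

theorem time_change_pos {h : ℝ → ℝ} (hc : Continuous h) (hpos : ∀ t, 0 < h t) {T : ℝ}
    (hT : 0 < T) (hper : ∀ t, h (t + T) = h t) :
    ∃ τ : ℝ → ℝ, τ 0 = 0 ∧ (∀ s, HasDerivAt τ (h (τ s)) s) ∧
      ∃ P > 0, ∀ s, τ (s + P) = τ s + T := by
  have hic : Continuous fun t => (h t)⁻¹ := hc.inv₀ fun t => (hpos t).ne'
  let θ : ℝ → ℝ := fun t => ∫ u in (0 : ℝ)..t, (h u)⁻¹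
  have hθ : ∀ t, HasDerivAt θ (h t)⁻¹ t := fun t => (hic.integral_hasStrictDerivAt 0 t).hasDerivAt
  have hmono : StrictMono θ := strictMono_of_deriv_pos fun t => by
    rw [(hθ t).deriv]; exact inv_pos.mpr (hpos t)
  have hθ0 : θ 0 = 0 := by simp [θ]
  have hshift : ∀ t, θ (t + T) = θ t + θ T := by
    intro t
    have hd : ∀ t, HasDerivAt (fun t => θ (t + T) - θ t) 0 t := fun t => by
      have := ((hθ (t + T)).comp_add_const t T).sub (hθ t)
      rw [hper, sub_self] at this
      exact this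
    have := is_const_of_deriv_eq_zero (fun s => (hd s).differentiableAt)
      (fun s => (hd s).deriv) t 0
    simp only [zero_add, hθ0, sub_zero] at this
    linarith
  have hP : 0 < θ T := hθ0 ▸ hmono hT
  have hcont : Continuous θ := continuous_iff_continuousAt.mpr fun t => (hθ t).continuousAt
  have hnat : ∀ (m : ℕ) (t : ℝ), θ (t + m * T) = θ t + m * θ T := by
    intro m
    induction m with
    | zero => simp
    | succ m ih =>
      intro t
      rw [show t + ((m + 1 : ℕ) : ℝ) * T = t + m * T + T by push_cast; ring, hshift, ih]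
      push_cast; ring
  have hsurj : Function.Surjective θ := by
    intro y
    obtain ⟨m, hm⟩ := exists_nat_ge (|y| / θ T)
    rw [div_le_iff₀ hP] at hm
    have h1 := hnat m 0
    have h2 := hnat m (-(m * T))
    rw [zero_add, hθ0, zero_add] at h1
    rw [neg_add_cancel, hθ0] at h2
    have hle : -(m * T) ≤ m * T := by
      have : 0 ≤ (m : ℝ) * T := by positivity
      linarith
    obtain ⟨t, -, ht⟩ := intermediate_value_Icc hle hcont.continuousOn
      (show y ∈ Set.Icc (θ (-(m * T))) (θ (m * T)) from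
        ⟨by linarith [neg_abs_le y], by linarith [le_abs_self y]⟩)
    exact ⟨t, ht⟩
  let e := hmono.orderIsoOfSurjective θ hsurj
  have he : ∀ t, e t = θ t := fun _ => rfl
  refine ⟨e.symm, ?_, fun s => ?_, θ T, hP, fun s => ?_⟩
  · rw [OrderIso.symm_apply_eq, he, hθ0]
  · have := HasDerivAt.of_local_left_inverse (f := θ) (g := e.symm) (a := s)
      e.symm.continuous.continuousAt (hθ (e.symm s)) (inv_pos.mpr (hpos _)).ne'
      (Eventually.of_forall fun y => by rw [← he, OrderIso.apply_symm_apply])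
    rwa [inv_inv] at this
  · rw [OrderIso.symm_apply_eq, he, hshift, ← he (e.symm s), OrderIso.apply_symm_apply]

theorem time_change {h : ℝ → ℝ} (hc : Continuous h) (hne : ∀ t, h t ≠ 0) {T : ℝ}
    (hT : T ≠ 0) (hper : ∀ t, h (t + T) = h t) :
    ∃ τ : ℝ → ℝ, τ 0 = 0 ∧ (∀ s, HasDerivAt τ (h (τ s)) s) ∧
      ∃ P > 0, (∀ s, τ (s + P) = τ s + T) ∨ (∀ s, τ (s + P) = τ s - T) := by
  have hper' : ∀ t, h (t + |T|) = h t := by
    intro t
    rcases abs_choice T with h1 | h1
    · rw [h1, hper]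
    · rw [h1, ← hper, neg_add_cancel_right]
  have hT' : 0 < |T| := abs_pos.mpr hT
  have hsign : (∀ t, 0 < h t) ∨ ∀ t, h t < 0 := by
    by_contra hcon
    push Not at hcon
    obtain ⟨⟨a, ha⟩, b, hb⟩ := hcon
    obtain ⟨c, hc⟩ := intermediate_value_univ a b hc (show (0 : ℝ) ∈ Set.Icc (h a) (h b) from
      ⟨ha, hb⟩)
    exact hne c hc
  rcases hsign with hpos | hneg
  · obtain ⟨τ, h0, hd, P, hP, hτ⟩ := time_change_pos hc hpos hT' hper'
    refine ⟨τ, h0, hd, P, hP, ?_⟩
    rcases abs_choice T with h1 | h1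
    · left; intro s; rw [hτ, h1]
    · right; intro s; rw [hτ, h1]; ring
  · obtain ⟨τ, h0, hd, P, hP, hτ⟩ := time_change_pos (h := fun t => -h (-t)) (by fun_prop)
      (fun t => neg_pos.mpr (hneg _)) hT' (fun t => by
        simp only [neg_add_rev, neg_inj]
        rw [← hper', add_comm (-|T|), neg_add_cancel_right])
    refine ⟨fun s => -τ s, by simp [h0], fun s => (hd s).neg.congr_deriv (neg_neg _), P, hP, ?_⟩
    rcases abs_choice T with h1 | h1
    · right; intro s; simp only [hτ, h1]; ring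
    · left; intro s; simp only [hτ, h1]; ring

end Pool.Agent.P.MP_e3ee0c_gt.Nil
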