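import Pool.Agent.P.MP_e3ee0c_gt.NilMain
import Pool.Agent.P.MP_e3ee0c_gt.NilTime

/-! All characteristics are closed. -/

set_option maxSynthPendingDepth 3
set_option linter.unusedSectionVars false

namespace Pool.Agent.P.MP_e3ee0c_gt.Nil

open NormedSpace Filter Topology Data

variable {A : Type*} [NormedRing A] [NormedAlgebra ℝ A] [FiniteDimensional ℝ A]

attribute [local instance] cs

theorem Data.periodic (D : Data A) (R : A → A) (hR : ContinuousOn R D.G)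
    (hRX : ∀ g ∈ D.G, ∃ c : ℝ, c ≠ 0 ∧ R g = c • (D.X * g))
    (hRΓ : ∀ g ∈ D.G, ∀ γ ∈ D.Γ, R (g * γ) = R g * γ) {g : A} (hg : g ∈ D.G) :
    ∃ x : ℝ → A, x 0 = g ∧ (∀ t, x t ∈ D.G) ∧ (∀ t, HasDerivAt x (R (x t)) t) ∧
      ∃ P > 0, ∃ γ ∈ D.Γ, ∀ t, x (t + P) = x t * γ := by
  obtain ⟨T, hT, hTΓ⟩ := exists_period (D := D)
  obtain ⟨φ0, hφ0, hφ1⟩ := exists_dual_vector ℝ D.X (norm_ne_zero_iff.mpr D.hX0)
  let φ : A →L[ℝ] ℝ := ‖D.X‖⁻¹ • φ0
  have hφ : φ D.X = 1 := by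
    simp only [φ, smul_apply, hφ1, smul_eq_mul]
    exact inv_mul_cancel₀ (norm_ne_zero_iff.mpr D.hX0)
  let H : A → ℝ := fun y => φ (R y * iv y)
  have hH : ∀ y ∈ D.G, H y ≠ 0 ∧ R y = H y • (D.X * y) := by
    intro y hy
    obtain ⟨c, hc, h⟩ := hRX y hy
    have : H y = c := by
      simp only [H]
      rw [h, smul_mul_assoc, mul_assoc, mul_iv hy, mul_one, map_smul, hφ, smul_eq_mul, mul_one]
    rw [this]
    exact ⟨hc, h⟩
  have hHΓ : ∀ y ∈ D.G, ∀ γ ∈ D.Γ, H (y * γ) = H y := by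
    intro y hy γ hγ
    have h1 : iv (y * γ) = iv γ * iv y := by
      symm
      apply eq_iv (mul_mem hy (Γ_sub hγ))
      rw [mul_assoc, ← mul_assoc γ, mul_iv (Γ_sub hγ), one_mul, mul_iv hy]
    simp only [H]
    rw [hRΓ y hy γ hγ, h1, mul_assoc, ← mul_assoc γ, mul_iv (Γ_sub hγ), one_mul]
  have hmem : ∀ t : ℝ, exp (t • D.X) * g ∈ D.G := fun t => mul_mem (exp_smul_mem D.hX t) hg
  have hcont : Continuous fun t : ℝ => exp (t • D.X) * g :=
    (cont_exp_smul D.X).mul continuous_const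
  have hshift : ∀ t S : ℝ, exp ((t + S) • D.X) * g = exp (t • D.X) * g * exp (S • D.X) := by
    intro t S
    rw [exp_smul_add, mul_assoc, (expX_comm S hg).eq, mul_assoc]
  obtain ⟨τ, h0, hd, P, hP, hτ⟩ := time_change (h := fun t => H (exp (t • D.X) * g)) (T := T)
    (φ.continuous.comp ((hR.comp_continuous hcont hmem).mul (iv_cont.comp hcont)))
    (fun t => (hH _ (hmem t)).1) hT (fun t => by
      simp only [hshift]
      exact hHΓ _ (hmem t) _ hTΓ)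
  refine ⟨fun s => exp (τ s • D.X) * g, by simp [h0], fun s => hmem _, fun s => ?_, P, hP, ?_⟩
  · have := (hasDerivAt_flow D.X g (τ s)).scomp s (hd s)
    rw [← (hH _ (hmem _)).2] at this
    exact this
  · rcases hτ with h | h
    · exact ⟨_, hTΓ, fun s => by simp only [h, hshift]⟩
    · refine ⟨_, iv_memΓ hTΓ, fun s => ?_⟩
      simp only [h, sub_eq_add_neg, hshift]
      rw [eq_iv (exp_smul_mem D.hX T) (exp_smul_mul_neg T D.X)]

theorem isClosed_exp (n : Submodule ℝ A) (hn : ∀ Y ∈ n, IsNilpotent Y) :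
    IsClosed {g : A | ∃ Y ∈ n, g = exp Y} := by
  have : {g : A | ∃ Y ∈ n, g = exp Y} = {g | lg A g ∈ n} ∩ {g | g = exp (lg A g)} := by
    ext g
    constructor
    · rintro ⟨Y, hY, rfl⟩
      simp only [Set.mem_inter_iff, Set.mem_ofPred_eq, lg_exp' (hn Y hY)]
      exact ⟨hY, trivial⟩
    · rintro ⟨h1, h2⟩
      exact ⟨_, h1, h2⟩
  rw [this]
  exact (n.closed_of_finiteDimensional.preimage lg_cont).inter
    (isClosed_eq continuous_id (exp_cont.comp lg_cont))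

theorem nilflow (n : Submodule ℝ A) (hbr : ∀ Y ∈ n, ∀ Z ∈ n, Y * Z - Z * Y ∈ n)
    (hn : ∀ Y ∈ n, IsNilpotent Y)
    (G : Subgroup Aˣ) (hG : ∀ g : Aˣ, g ∈ G ↔ ∃ Y ∈ n, (g : A) = exp Y)
    (Γ : Subgroup G) [DiscreteTopology Γ] [CompactSpace (G ⧸ Γ)]
    (α : A → A →L[ℝ] ℝ) (hα : ContDiff ℝ 2 α)
    (hinv : ∀ g : G, ∀ γ ∈ Γ, ∀ Y ∈ n,
      α ((g * γ : G) : Aˣ) (Y * ((g * γ : G) : Aˣ)) = α (g : Aˣ) (Y * (g : Aˣ)))
    (X : A) (hX : X ∈ n) (hX0 : X ≠ 0)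
    (hker : ∀ g : G, ∀ Y ∈ n, (∀ Z ∈ n, fderiv ℝ α (g : Aˣ) (Y * (g : Aˣ)) (Z * (g : Aˣ)) -
      fderiv ℝ α (g : Aˣ) (Z * (g : Aˣ)) (Y * (g : Aˣ)) = 0) ↔ ∃ c : ℝ, Y = c • X)
    (R : G → A) (hR : Continuous R)
    (hRX : ∀ g : G, ∃ c : ℝ, c ≠ 0 ∧ R g = c • (X * (g : Aˣ)))
    (hRΓ : ∀ g : G, ∀ γ ∈ Γ, R (g * γ) = R g * (γ : Aˣ)) (g : G) :
    ∃ x : ℝ → G, x 0 = g ∧ (∀ t, HasDerivAt (fun s => ((x s : Aˣ) : A)) (R (x t)) t) ∧
      ∃ T > 0, ∀ t, (x (t + T) : G ⧸ Γ) = (x t : G ⧸ Γ) := by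
  classical
  let Gs : Set A := {g : A | ∃ Y ∈ n, g = exp Y}
  let v : G → A := fun g => ((g : Aˣ) : A)
  have hv : ∀ g : G, v g ∈ Gs := fun g => (hG g).mp g.2
  have hvi : Function.Injective v := fun a b h => Subtype.ext (Units.ext h)
  have hvc : Continuous v := Units.continuous_val.comp continuous_subtype_val
  have hvm : ∀ a b : G, v (a * b) = v a * v b := fun a b => rfl
  have hv1 : v 1 = 1 := rfl
  let u : A → Aˣ := fun a => ⟨exp (lg A a), exp (-lg A a), exp_mul_neg _, exp_neg_mul _⟩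
  have huc : Continuous u := Units.continuous_iff.mpr ⟨exp_cont.comp lg_cont, iv_cont⟩
  have huv : ∀ a ∈ Gs, (u a : A) = a := by
    rintro a ⟨Y, hY, rfl⟩
    simp only [u, lg_exp' (hn Y hY)]
  have huG : ∀ a ∈ Gs, u a ∈ G := fun a ha => (hG _).mpr (by rw [huv a ha]; exact ha)
  let w : Gs → G := fun a => ⟨u a, huG a a.2⟩
  have hwc : Continuous w := (huc.comp continuous_subtype_val).subtype_mk _
  have hvw : ∀ a : Gs, v (w a) = a := fun a => huv a a.2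
  have hwv : ∀ g : G, w ⟨v g, hv g⟩ = g := fun g => hvi (hvw _)
  have hsurj : ∀ a ∈ Gs, ∃ g : G, v g = a := fun a ha => ⟨w ⟨a, ha⟩, hvw _⟩
  -- discreteness
  have hdisc : ∃ ε > 0, ∀ γ ∈ v '' (Γ : Set G), ‖γ - 1‖ < ε → γ = 1 := by
    have h1 : IsOpen ({1} : Set Γ) := isOpen_discrete _
    obtain ⟨U, hU, hU1⟩ := isOpen_induced_iff.mp h1
    have h2 : IsOpen (w ⁻¹' U) := hU.preimage hwc
    have h3 : (⟨v 1, hv 1⟩ : Gs) ∈ w ⁻¹' U := by
      rw [Set.mem_preimage, hwv]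
      have : (1 : Γ) ∈ Subtype.val ⁻¹' U := by rw [hU1]; rfl
      exact this
    obtain ⟨ε, hε, hb⟩ := Metric.isOpen_iff.mp h2 _ h3
    refine ⟨ε, hε, ?_⟩
    rintro _ ⟨γ, hγ, rfl⟩ hlt
    have h4 : (⟨v γ, hv γ⟩ : Gs) ∈ w ⁻¹' U := hb (by
      rw [Metric.mem_ball, Subtype.dist_eq, dist_eq_norm]; exact hlt)
    rw [Set.mem_preimage, hwv] at h4
    have h5 : (⟨γ, hγ⟩ : Γ) ∈ Subtype.val ⁻¹' U := h4
    rw [hU1, Set.mem_singleton_iff] at h5
    have : γ = 1 := congrArg Subtype.val h5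
    rw [this, hv1]
  -- cocompactness
  have hco : ∃ r : ℝ, ∀ g : G, ∃ k : G, ‖v k‖ ≤ r ∧ ∃ γ ∈ Γ, g = k * γ := by
    let U : ℕ → Set (G ⧸ Γ) := fun m => QuotientGroup.mk '' {g : G | ‖v g‖ < m}
    have hUo : ∀ m, IsOpen (U m) := fun m =>
      QuotientGroup.isOpenMap_coe _ (isOpen_lt hvc.norm continuous_const)
    obtain ⟨m, hm⟩ := isCompact_univ.elim_directed_cover U hUo (fun q _ => by
      obtain ⟨g, rfl⟩ := QuotientGroup.mk_surjective q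
      obtain ⟨m, hm⟩ := exists_nat_gt ‖v g‖
      exact Set.mem_iUnion.mpr ⟨m, g, hm, rfl⟩) (Monotone.directed_le fun a b hab =>
        Set.image_mono fun g (hg : ‖v g‖ < a) => show ‖v g‖ < b from
          hg.trans_le (by exact_mod_cast hab))
    refine ⟨m, fun g => ?_⟩
    obtain ⟨k, hk, hkg⟩ := hm (Set.mem_univ (g : G ⧸ Γ))
    exact ⟨k, le_of_lt hk, k⁻¹ * g, QuotientGroup.eq.mp hkg, by group⟩
  obtain ⟨r, hr⟩ := hco
  have : ProperSpace A := FiniteDimensional.proper_real A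
  let D : Data A :=
    { n := n, hbr := hbr, hn := hn
      hmul := fun Y hY Z hZ => by
        obtain ⟨a, ha⟩ := hsurj _ ⟨Y, hY, rfl⟩
        obtain ⟨b, hb⟩ := hsurj _ ⟨Z, hZ, rfl⟩
        rw [← ha, ← hb, ← hvm]
        exact hv _
      Γ := v '' (Γ : Set G)
      hΓ := by rintro _ ⟨γ, -, rfl⟩; exact hv γ
      Γmul := by
        rintro _ ⟨γ, hγ, rfl⟩ _ ⟨δ, hδ, rfl⟩
        exact ⟨γ * δ, Γ.mul_mem hγ hδ, rfl⟩
      Γinv := by
        rintro _ ⟨γ, hγ, rfl⟩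
        exact ⟨_, ⟨γ⁻¹, Γ.inv_mem hγ, rfl⟩, by rw [← hvm, mul_inv_cancel, hv1]⟩
      disc := hdisc
      K := Gs ∩ Metric.closedBall 0 r
      hK := (isCompact_closedBall 0 r).inter_left (isClosed_exp n hn)
      hKG := fun κ hκ => hκ.1
      cocpt := fun Y hY => by
        obtain ⟨a, ha⟩ := hsurj _ ⟨Y, hY, rfl⟩
        obtain ⟨k, hk, γ, hγ, h⟩ := hr a
        exact ⟨v k, ⟨hv k, by simpa using hk⟩, v γ, ⟨γ, hγ, rfl⟩, by rw [← ha, h, hvm]⟩
      α := α, hα := hα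
      hinv := by
        rintro a ha _ ⟨γ, hγ, rfl⟩ Y hY
        obtain ⟨a, rfl⟩ := hsurj a ha
        exact hinv a γ hγ Y hY
      X := X, hX := hX, hX0 := hX0
      hker := by
        intro a ha Y hY
        obtain ⟨a, rfl⟩ := hsurj a ha
        exact hker a Y hY }
  let R' : A → A := fun a => if h : a ∈ Gs then R (w ⟨a, h⟩) else 0
  have hR' : ∀ g : G, R' (v g) = R g := fun g => by
    simp only [R', dif_pos (hv g), hwv]
  obtain ⟨x, hx0, hxG, hxd, P, hP, _, ⟨γ, hγ, rfl⟩, hper⟩ := D.periodic R'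
    (by
      rw [continuousOn_iff_continuous_domRestrict]
      have : D.G.domRestrict R' = fun a : Gs => R (w a) := by
        funext a
        exact dif_pos a.2
      rw [this]
      exact hR.comp hwc)
    (by
      intro a ha
      obtain ⟨a, rfl⟩ := hsurj a ha
      rw [hR']
      exact hRX a)
    (by
      rintro a ha _ ⟨γ, hγ, rfl⟩
      obtain ⟨a, rfl⟩ := hsurj a ha
      rw [← hvm, hR', hR']
      exact hRΓ a γ hγ) (hv g)
  refine ⟨fun t => w ⟨x t, hxG t⟩, ?_, fun t => ?_, P, hP, fun t => ?_⟩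
  · apply hvi
    rw [hvw]; exact hx0
  · have h1 : (fun s => v (w ⟨x s, hxG s⟩)) = x := funext fun s => hvw _
    have h2 := hxd t
    rw [← hR', hvw]
    change HasDerivAt (fun s => v (w ⟨x s, hxG s⟩)) _ t
    rw [h1]
    exact h2
  · have : w ⟨x (t + P), hxG _⟩ = w ⟨x t, hxG t⟩ * γ := by
      apply hvi
      rw [hvm, hvw, hvw]
      exact hper t
    simp only [this]
    exact QuotientGroup.mk_mul_of_mem _ hγ

end Pool.Agent.P.MP_e3ee0c_gt.Nil
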