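import Pool.Agent.P.MP_e3ee0c_gt.NilData

/-! The characteristic direction is central and rational. -/

set_option maxSynthPendingDepth 3
set_option linter.unusedSectionVars false

namespace Pool.Agent.P.MP_e3ee0c_gt.Nil.Data

open NormedSpace Filter Topology

variable {A : Type*} [NormedRing A] [NormedAlgebra ℝ A] [FiniteDimensional ℝ A] {D : Data A}

attribute [local instance] cs

variable (D) in
/-- left multiplication by `h` fixes all components of the exterior derivative -/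
def Fix (h : A) : Prop := ∀ g ∈ D.G, ∀ Y ∈ D.n, ∀ Z ∈ D.n, D.ω Y Z (h * g) = D.ω Y Z g

variable (D) in
/-- the one-parameter group of `W` fixes all components -/
def S (W : A) : Prop := W ∈ D.n ∧ ∀ t : ℝ, D.Fix (exp (t • W))

theorem ω_bdd {Y Z : A} (hY : Y ∈ D.n) (hZ : Z ∈ D.n) : ∃ C, ∀ g ∈ D.G, |D.ω Y Z g| ≤ C :=
  bdd_of_inv (D.ω_cont Y Z) fun _ hg _ hγ => ω_inv hY hZ hg hγ

theorem a_bdd {Y : A} (hY : Y ∈ D.n) : ∃ C, ∀ g ∈ D.G, |D.a Y g| ≤ C :=
  bdd_of_inv (D.a_cont Y) fun _ hg _ hγ => a_inv hY hg hγ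

theorem S_X : D.S D.X := by
  refine ⟨D.hX, fun t g hg Y hY Z hZ => ?_⟩
  have key : ∀ s : ℝ, D.ω Y Z (exp (s • D.X) * g) =
      dAl D.α g (exp ((-s) • D.X) * Y * exp (s • D.X) * g)
        (exp ((-s) • D.X) * Z * exp (s • D.X) * g) := by
    intro s
    have h := flow_inv (conj_mem (exp_smul_mem D.hX (-s)) (exp_neg_smul_mul s D.X) hY)
      (conj_mem (exp_smul_mem D.hX (-s)) (exp_neg_smul_mul s D.X) hZ) hg s
    have e : ∀ U : A, exp (s • D.X) * (exp ((-s) • D.X) * U * exp (s • D.X) * g) =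
        U * (exp (s • D.X) * g) := by
      intro U
      simp only [← mul_assoc]
      rw [exp_smul_mul_neg, one_mul]
    rw [e, e] at h
    exact h
  have hp : (fun s : ℝ => D.ω Y Z (exp (s • D.X) * g)) ∈ PF ℝ := by
    simp only [key]
    have hU : ∀ U : A, (fun s : ℝ => exp ((-s) • D.X) * U * exp (s • D.X) * g) ∈ PF A :=
      fun U => PF.mul (PF.mul (PF.mul (exp_neg_mem_PF (D.pow_eq D.hX)) (PF.const U))
        (exp_mem_PF (D.pow_eq D.hX))) (PF.const g)
    exact PF.bilin _ (hU Y) (hU Z)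
  obtain ⟨C, hC⟩ := ω_bdd hY hZ
  have := PF.const_of_bdd_real hp (C := C)
    (fun s => hC _ (mul_mem (exp_smul_mem D.hX s) hg)) t 0
  simpa using this

theorem conj_eq {Y0 Y : A} (hc : Commute Y0 (Y0 * Y - Y * Y0)) (t : ℝ) :
    exp (t • Y0) * Y * exp ((-t) • Y0) = Y + t • (Y0 * Y - Y * Y0) := by
  have hd : ∀ s : ℝ, HasDerivAt (fun t : ℝ => exp (t • Y0) * Y * exp (t • (-Y0)) -
      t • (Y0 * Y - Y * Y0)) 0 s := by
    intro s
    have h1 := ((hasDerivAt_exp_smul_const (𝕂 := ℝ) Y0 s).mul_const Y).mul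
      (hasDerivAt_exp_smul_const' (𝕂 := ℝ) (-Y0) s)
    have h2 := (hasDerivAt_id s).smul_const (Y0 * Y - Y * Y0)
    refine (h1.sub h2).congr_deriv ?_
    have h3 : Commute (exp (s • Y0)) (Y0 * Y - Y * Y0) := (hc.smul_left s).exp_left
    have h4 : exp (s • Y0) * exp (s • (-Y0)) = 1 := by
      rw [smul_neg, exp_mul_neg]
    have h5 : exp (s • Y0) * (Y0 * Y - Y * Y0) * exp (s • (-Y0)) = Y0 * Y - Y * Y0 := by
      rw [h3.eq, mul_assoc, h4, mul_one]
    rw [one_smul, ← h5]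
    noncomm_ring
  have := is_const_of_deriv_eq_zero (fun s => (hd s).differentiableAt) (fun s => (hd s).deriv) t 0
  simp only [zero_smul, exp_zero, one_mul, mul_one, sub_zero] at this
  rw [neg_smul, ← smul_neg]
  exact sub_eq_iff_eq_add.mp this

/-- the Mautner step -/
theorem mautner {Y0 Y : A} (h0 : D.S Y0) (hY : Y ∈ D.n)
    (hc : Commute Y0 (Y0 * Y - Y * Y0)) : D.S (Y0 * Y - Y * Y0) := by
  refine ⟨D.hbr Y0 h0.1 Y hY, fun c g hg U hU V hV => ?_⟩
  set W := Y0 * Y - Y * Y0 with hW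
  let s : ℕ → ℝ := fun m => 1 / ((m : ℝ) + 1)
  have hs : Tendsto s atTop (𝓝 0) := tendsto_one_div_add_atTop_nhds_zero_nat
  let t : ℕ → ℝ := fun m => c * ((m : ℝ) + 1)
  have hst : ∀ m, s m * t m = c := fun m => by
    simp only [s, t]; field_simp
  have hdec : ∀ m, ∃ κ ∈ D.K, ∃ γ ∈ D.Γ, exp ((-t m) • Y0) * g = κ * γ :=
    fun m => decomp (mul_mem (exp_smul_mem h0.1 _) hg)
  choose κ hκ γ hγ hκγ using hdec
  have e1 : ∀ m, D.ω U V (κ m) = D.ω U V g := fun m => by
    rw [← ω_inv hU hV (K_sub (hκ m)) (hγ m), ← hκγ, h0.2 _ g hg U hU V hV]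
  have e2 : ∀ m, D.ω U V (exp (s m • Y + c • W) * g) = D.ω U V (exp (s m • Y) * κ m) := by
    intro m
    have h1 : s m • Y + c • W = exp (t m • Y0) * (s m • Y) * exp ((-t m) • Y0) := by
      rw [mul_smul_comm, smul_mul_assoc, conj_eq hc, smul_add, smul_smul, hst]
    rw [h1, exp_conj_of_inv (exp_smul_mul_neg _ _) (exp_neg_smul_mul _ _), mul_assoc, hκγ,
      mul_assoc, h0.2 _ _ (mul_mem (exp_smul_mem hY _) (mul_mem (K_sub (hκ m)) (Γ_sub (hγ m))))
        U hU V hV, ← mul_assoc, ω_inv hU hV (mul_mem (exp_smul_mem hY _) (K_sub (hκ m))) (hγ m)]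
  obtain ⟨k, -, φ, hφ, hk⟩ := D.hK.tendsto_subseq hκ
  have hsφ : Tendsto (s ∘ φ) atTop (𝓝 0) := hs.comp hφ.tendsto_atTop
  have l1 : Tendsto (fun m => D.ω U V (κ (φ m))) atTop (𝓝 (D.ω U V k)) :=
    ((D.ω_cont U V).tendsto k).comp hk
  have l1' : D.ω U V k = D.ω U V g := by
    simp only [e1] at l1
    exact tendsto_nhds_unique l1 tendsto_const_nhds
  have l2 : Tendsto (fun m => D.ω U V (exp (s (φ m) • Y) * κ (φ m))) atTop
      (𝓝 (D.ω U V (exp ((0 : ℝ) • Y) * k))) :=
    ((D.ω_cont U V).tendsto _).comp ((((cont_exp_smul Y).tendsto 0).comp hsφ).mul hk)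
  have l3 : Tendsto (fun m => D.ω U V (exp (s (φ m) • Y + c • W) * g)) atTop
      (𝓝 (D.ω U V (exp ((0 : ℝ) • Y + c • W) * g))) :=
    ((D.ω_cont U V).tendsto _).comp
      (((exp_cont.tendsto _).comp ((hsφ.smul_const Y).add_const _)).mul_const g)
  simp only [e2] at l3
  have := tendsto_nhds_unique l3 l2
  simp only [zero_smul, zero_add, exp_zero, one_mul] at this
  rw [this, l1']

theorem exists_central : ∃ W, D.S W ∧ W ≠ 0 ∧ ∀ Y ∈ D.n, Commute W Y := by
  obtain ⟨C, N, h0, hn, hbr, hneg, hN⟩ := exists_filtration D.n D.hbr D.hn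
  by_contra hcon
  push Not at hcon
  have step : ∀ j, ∃ W, D.S W ∧ W ≠ 0 ∧ W ∈ C j := by
    intro j
    induction j with
    | zero => exact ⟨D.X, S_X, D.hX0, h0 _ D.hX⟩
    | succ j ih =>
      obtain ⟨W, hW, hW0, hWj⟩ := ih
      have inner : ∃ Y ∈ D.n, W * Y - Y * W ≠ 0 ∧ Commute W (W * Y - Y * W) := by
        by_contra hc
        push Not at hc
        have : ∀ i, ∃ Y ∈ C i, W * Y - Y * W ≠ 0 := by
          intro i
          induction i with
          | zero =>
            obtain ⟨Y, hY, hYc⟩ := hcon W hW hW0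
            exact ⟨Y, h0 Y hY, fun h => hYc (sub_eq_zero.mp h)⟩
          | succ i ih =>
            obtain ⟨Y, hY, hYc⟩ := ih
            exact ⟨_, hbr i W hW.1 Y hY, fun h => hc Y (hn i Y hY) hYc (sub_eq_zero.mp h)⟩
        obtain ⟨Y, hY, hYc⟩ := this N
        rw [hN Y hY] at hYc
        simp at hYc
      obtain ⟨Y, hY, hne, hc⟩ := inner
      refine ⟨_, mautner hW hY hc, hne, ?_⟩
      have := hneg _ _ (hbr j Y hY W hWj)
      rwa [neg_sub] at this
  obtain ⟨W, -, hW0, hWN⟩ := step N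
  exact hW0 (hN W hWN)

/-- a central invariant direction is characteristic -/
theorem central_par {W : A} (hW : D.S W) (hc : ∀ Y ∈ D.n, Commute W Y) :
    ∃ c : ℝ, W = c • D.X := by
  have hKne : D.K.Nonempty := by
    obtain ⟨κ, hκ, -⟩ := decomp (one_mem (D := D))
    exact ⟨κ, hκ⟩
  have hcE : ∀ (u : ℝ) {g : A}, g ∈ D.G → Commute (exp (u • W)) g := fun u g hg =>
    ((comm_of_central hc hg).smul_left u).exp_left
  have main : ∀ s : ℝ, ∃ y ∈ D.K, ∀ Y ∈ D.n,
      D.a Y (exp (s • W) * y) - D.a Y y = s * D.ω W Y y := by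
    intro s
    let M : A → ℝ := fun y => ∫ u in (0 : ℝ)..s, D.a W (exp (u • W) * y)
    have hM : Continuous M := by
      apply intervalIntegral.continuous_parametric_intervalIntegral_of_continuous'
      exact (D.a_cont W).comp (((cont_exp_smul W).comp continuous_snd).mul continuous_fst)
    obtain ⟨y, hy, hmax⟩ := D.hK.exists_isMaxOn hKne hM.continuousOn
    have hyG := K_sub hy
    have hmaxG : ∀ g ∈ D.G, M g ≤ M y := by
      intro g hg
      obtain ⟨κ, hκ, γ, hγ, rfl⟩ := decomp hg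
      have : M (κ * γ) = M κ := by
        simp only [M]
        congr 1
        funext u
        rw [← mul_assoc, a_inv hW.1 (mul_mem (exp_smul_mem hW.1 u) (K_sub hκ)) hγ]
      rw [this]
      exact hmax hκ
    refine ⟨y, hy, fun Y hY => ?_⟩
    have hd := hasDerivAt_param
      (H := fun τ u => D.a W (exp (τ • Y) * (exp (u • W) * y)))
      (H' := fun τ u => D.da Y W (exp (τ • Y) * (exp (u • W) * y)))
      ((D.a_cont W).comp (((cont_exp_smul Y).comp continuous_fst).mul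
        (((cont_exp_smul W).comp continuous_snd).mul continuous_const)))
      ((D.da_cont Y W).comp (((cont_exp_smul Y).comp continuous_fst).mul
        (((cont_exp_smul W).comp continuous_snd).mul continuous_const)))
      (fun τ u => D.hasDerivAt_a Y W _ τ) s
    have hloc : IsLocalMax (fun τ : ℝ => ∫ u in (0 : ℝ)..s,
        D.a W (exp (τ • Y) * (exp (u • W) * y))) 0 := by
      refine Eventually.of_forall fun τ => ?_
      have h1 : (∫ u in (0 : ℝ)..s, D.a W (exp (τ • Y) * (exp (u • W) * y))) =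
          M (exp (τ • Y) * y) := by
        simp only [M]
        congr 1
        funext u
        rw [← mul_assoc, ← mul_assoc, (hcE u (exp_smul_mem hY τ)).eq]
      simp only [h1, zero_smul, exp_zero, one_mul]
      exact hmaxG _ (mul_mem (exp_smul_mem hY τ) hyG)
    have hz := hloc.hasDerivAt_eq_zero hd
    simp only [zero_smul, exp_zero, one_mul] at hz
    have hcont : Continuous fun u : ℝ => exp (u • W) * y := (cont_exp_smul W).mul continuous_const
    have hftc := intervalIntegral.integral_eq_sub_of_hasDerivAt (a := 0) (b := s)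
      (f := fun u : ℝ => D.a Y (exp (u • W) * y))
      (f' := fun u : ℝ => D.da W Y (exp (u • W) * y))
      (fun u _ => D.hasDerivAt_a W Y y u) (((D.da_cont W Y).comp hcont).intervalIntegrable _ _)
    have hpt : ∀ u : ℝ, D.da W Y (exp (u • W) * y) =
        D.ω W Y y + D.da Y W (exp (u • W) * y) := by
      intro u
      have h1 := D.ω_eq W Y (exp (u • W) * y)
      rw [(hc Y hY).eq, sub_self, hW.2 u y hyG W hW.1 Y hY] at h1
      have h2 : D.a 0 (exp (u • W) * y) = 0 := by simp [a]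
      rw [h2] at h1
      linarith
    simp only [hpt, zero_smul, exp_zero, one_mul] at hftc
    have hci : IntervalIntegrable (fun u : ℝ => D.da Y W (exp (u • W) * y))
        MeasureTheory.volume 0 s := ((D.da_cont Y W).comp hcont).intervalIntegrable _ _
    rw [intervalIntegral.integral_add intervalIntegrable_const hci, hz] at hftc
    simp only [intervalIntegral.integral_const, sub_zero, smul_eq_mul, add_zero] at hftc
    exact hftc.symm
  choose y hy hyE using fun m : ℕ => main ((m : ℝ) + 1)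
  obtain ⟨k, hk, φ, hφ, hlim⟩ := D.hK.tendsto_subseq hy
  refine (D.hker k (K_sub hk) W hW.1).mp fun Y hY => ?_
  obtain ⟨C, hC⟩ := a_bdd hY
  have l1 : Tendsto (fun m => D.ω W Y (y (φ m))) atTop (𝓝 (D.ω W Y k)) :=
    ((D.ω_cont W Y).tendsto k).comp hlim
  have l2 : Tendsto (fun m => D.ω W Y (y m)) atTop (𝓝 0) := by
    have hb : Tendsto (fun m : ℕ => 2 * C * (1 / ((m : ℝ) + 1))) atTop (𝓝 0) := by
      simpa using (tendsto_one_div_add_atTop_nhds_zero_nat (𝕜 := ℝ)).const_mul (2 * C)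
    refine squeeze_zero_norm (fun m => ?_) hb
    have h1 := hyE m Y hY
    have h2 := hC _ (mul_mem (exp_smul_mem hW.1 ((m : ℝ) + 1)) (K_sub (hy m)))
    have h3 := hC _ (K_sub (hy m))
    have hm : (0 : ℝ) < (m : ℝ) + 1 := by positivity
    rw [Real.norm_eq_abs, mul_one_div, le_div_iff₀ hm, ← abs_of_pos hm, ← abs_mul, mul_comm,
      ← h1]
    exact (abs_sub _ _).trans (by linarith)
  exact tendsto_nhds_unique l1 (l2.comp hφ.tendsto_atTop)

theorem X_central : ∀ Y ∈ D.n, Commute D.X Y := by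
  obtain ⟨W, hW, hW0, hc⟩ := exists_central (D := D)
  obtain ⟨c, rfl⟩ := central_par hW hc
  have hc0 : c ≠ 0 := fun h => hW0 (by simp [h])
  intro Y hY
  have := (hc Y hY).smul_left c⁻¹
  rwa [smul_smul, inv_mul_cancel₀ hc0, one_smul] at this

theorem expX_comm (t : ℝ) {g : A} (hg : g ∈ D.G) : Commute (exp (t • D.X)) g :=
  ((comm_of_central X_central hg).smul_left t).exp_left

/-- an element of the group commuting with the lattice is central -/
theorem central_of_commΓ {g : A} (hc : ∀ γ ∈ D.Γ, Commute g γ) {Y : A} (hY : Y ∈ D.n) :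
    Commute g Y := by
  have hp : (fun t : ℝ => exp (t • Y) * g * exp ((-t) • Y)) ∈ PF A :=
    PF.mul (PF.mul (exp_mem_PF (D.pow_eq hY)) (PF.const g)) (exp_neg_mem_PF (D.pow_eq hY))
  have hcont : Continuous fun κ : A => κ * g * iv κ :=
    (continuous_id.mul continuous_const).mul iv_cont
  obtain ⟨C, hC⟩ := D.hK.exists_bound_of_continuousOn hcont.continuousOn
  have hb : ∀ t : ℝ, ‖exp (t • Y) * g * exp ((-t) • Y)‖ ≤ C := by
    intro t
    obtain ⟨κ, hκ, γ, hγ, h⟩ := decomp (exp_smul_mem hY t)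
    have h1 : γ * exp ((-t) • Y) = iv κ := by
      apply eq_iv (K_sub hκ)
      rw [← mul_assoc, ← h, exp_smul_mul_neg]
    rw [h, mul_assoc κ γ g, ← (hc γ hγ).eq, ← mul_assoc, mul_assoc _ γ, h1]
    exact hC κ hκ
  have h1 := PF.const_of_bdd hp hb 1 0
  simp only [one_smul, neg_zero, zero_smul, exp_zero, one_mul, mul_one] at h1
  have h2 : Commute g (exp Y) := by
    have h3 := exp_neg_smul_mul 1 Y
    rw [one_smul] at h3
    unfold Commute SemiconjBy
    calc g * exp Y = exp Y * g * exp ((-1 : ℝ) • Y) * exp Y := by rw [h1]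
      _ = exp Y * g := by rw [mul_assoc _ _ (exp Y), h3, mul_one]
  have := lg_comm h2
  rwa [D.lg_exp hY] at this

theorem exists_finite : ∃ s : Finset A, (∀ γ ∈ s, γ ∈ D.Γ) ∧
    ∀ g : A, (∀ γ ∈ s, Commute g γ) → ∀ γ ∈ D.Γ, Commute g γ := by
  obtain ⟨s, hs, hspan⟩ := (Submodule.fg_span_iff_fg_span_finset_subset (R := ℝ) D.Γ).mp
    (IsNoetherian.noetherian _)
  refine ⟨s, fun γ hγ => hs hγ, fun g hg γ hγ => ?_⟩
  have h1 : γ ∈ Submodule.span ℝ (s : Set A) := hspan ▸ Submodule.subset_span hγ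
  clear hγ
  induction h1 using Submodule.span_induction with
  | mem x hx => exact hg x hx
  | zero => exact Commute.zero_right g
  | add x y _ _ hx hy => exact hx.add_right hy
  | smul c x _ hx => exact hx.smul_right c

theorem Fix.pow {h : A} (hh : h ∈ D.G) (hf : D.Fix h) (m : ℕ) : D.Fix (h ^ m) := by
  induction m with
  | zero => intro g _ Y _ Z _; simp
  | succ m ih =>
    intro g hg Y hY Z hZ
    rw [pow_succ, mul_assoc, ih _ (mul_mem hh hg) Y hY Z hZ, hf g hg Y hY Z hZ]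

theorem Fix.mul {h h' : A} (hh : h' ∈ D.G) (hf : D.Fix h) (hf' : D.Fix h') : D.Fix (h * h') := by
  intro g hg Y hY Z hZ
  rw [mul_assoc, hf _ (mul_mem hh hg) Y hY Z hZ, hf' g hg Y hY Z hZ]

/-- small central elements fixing the components produce a central invariant line -/
theorem limit_line (φ : A →L[ℝ] ℝ) {u : ℕ → A} (hu : ∀ i, u i ∈ D.n) (hu0 : ∀ i, u i ≠ 0)
    (hc : ∀ i, ∀ Y ∈ D.n, Commute (u i) Y) (hφ : ∀ i, φ (u i) = 0)
    (hf : ∀ i, D.Fix (exp (u i))) (hlim : Tendsto u atTop (𝓝 0)) :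
    ∃ W, D.S W ∧ W ≠ 0 ∧ φ W = 0 ∧ ∀ Y ∈ D.n, Commute W Y := by
  have : ProperSpace A := FiniteDimensional.proper_real A
  let w : ℕ → A := fun i => ‖u i‖⁻¹ • u i
  have hw : ∀ i, w i ∈ Metric.sphere (0 : A) 1 := fun i => by
    simp only [w, mem_sphere_iff_norm, sub_zero, norm_smul, norm_inv, norm_norm]
    exact inv_mul_cancel₀ (norm_ne_zero_iff.mpr (hu0 i))
  obtain ⟨W, hW, ψ, hψ, hl⟩ := (isCompact_sphere (0 : A) 1).tendsto_subseq hw
  have hWn : W ∈ D.n := D.n.closed_of_finiteDimensional.mem_of_tendsto hl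
    (Eventually.of_forall fun i => D.n.smul_mem _ (hu _))
  have hpos : ∀ s : ℝ, 0 ≤ s → D.Fix (exp (s • W)) := by
    intro s hs g hg Y hY Z hZ
    let m : ℕ → ℕ := fun i => ⌊s / ‖u i‖⌋₊
    have hn0 : Tendsto (fun i => ‖u i‖) atTop (𝓝 0) := by simpa using hlim.norm
    have h1 : Tendsto (fun i => (m i : ℝ) * ‖u i‖) atTop (𝓝 s) := by
      have h2 : Tendsto (fun i => s - ‖u i‖) atTop (𝓝 s) := by simpa using hn0.const_sub s
      refine tendsto_of_tendsto_of_tendsto_of_le_of_le h2 tendsto_const_nhds (fun i => ?_)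
        (fun i => ?_)
      · have hp : 0 < ‖u i‖ := norm_pos_iff.mpr (hu0 i)
        have := Nat.lt_floor_add_one (s / ‖u i‖)
        rw [div_lt_iff₀ hp] at this
        simp only [m]
        linarith
      · have hp : 0 < ‖u i‖ := norm_pos_iff.mpr (hu0 i)
        have := Nat.floor_le (div_nonneg hs hp.le)
        rw [le_div_iff₀ hp] at this
        exact this
    have h3 : ∀ i, (m i : ℝ) • u i = ((m i : ℝ) * ‖u i‖) • w i := fun i => by
      simp only [w, smul_smul]
      rw [mul_assoc, mul_inv_cancel₀ (norm_ne_zero_iff.mpr (hu0 i)), mul_one]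
    have h4 : Tendsto (fun i => D.ω Y Z (exp ((m (ψ i) : ℝ) • u (ψ i)) * g)) atTop
        (𝓝 (D.ω Y Z (exp (s • W) * g))) := by
      simp only [h3]
      exact ((D.ω_cont Y Z).tendsto _).comp
        (((exp_cont.tendsto _).comp ((h1.comp hψ.tendsto_atTop).smul hl)).mul_const g)
    have h5 : ∀ i, D.ω Y Z (exp ((m i : ℝ) • u i) * g) = D.ω Y Z g := fun i => by
      rw [exp_nsmul']
      exact Fix.pow (exp_mem (hu i)) (hf i) _ g hg Y hY Z hZ
    simp only [h5] at h4
    exact (tendsto_nhds_unique tendsto_const_nhds h4).symm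
  refine ⟨W, ⟨hWn, fun t => ?_⟩, ?_, ?_, fun Y hY => ?_⟩
  · rcases le_total 0 t with ht | ht
    · exact hpos t ht
    · intro g hg Y hY Z hZ
      rw [← hpos (-t) (by linarith) _ (mul_mem (exp_smul_mem hWn t) hg) Y hY Z hZ, ← mul_assoc,
        exp_neg_smul_mul, one_mul]
  · rintro rfl
    simp at hW
  · have h1 : Tendsto (fun i => φ (w (ψ i))) atTop (𝓝 (φ W)) := (φ.continuous.tendsto W).comp hl
    have h2 : ∀ i, φ (w i) = 0 := fun i => by simp [w, hφ]
    simp only [h2] at h1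
    exact (tendsto_nhds_unique tendsto_const_nhds h1).symm
  · have h1 : Tendsto (fun i => w (ψ i) * Y) atTop (𝓝 (W * Y)) := hl.mul_const Y
    have h2 : Tendsto (fun i => Y * w (ψ i)) atTop (𝓝 (Y * W)) := hl.const_mul Y
    have h3 : ∀ i, w i * Y = Y * w i := fun i => ((hc i Y hY).smul_left _).eq
    simp only [h3] at h1
    exact tendsto_nhds_unique h1 h2

theorem exists_period : ∃ T : ℝ, T ≠ 0 ∧ exp (T • D.X) ∈ D.Γ := by
  by_contra hcon
  push Not at hcon
  have hdec : ∀ m : ℕ, ∃ κ ∈ D.K, ∃ γ ∈ D.Γ, exp ((m : ℝ) • D.X) = κ * γ :=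
    fun m => decomp (exp_smul_mem D.hX _)
  choose κ hκ γ hγ hκγ using hdec
  obtain ⟨k, hk, ψ, hψ, hl⟩ := D.hK.tendsto_subseq hκ
  let g : ℕ → A := fun i => iv (κ (ψ i)) * κ (ψ (i + 1))
  let j : ℕ → ℝ := fun i => (ψ (i + 1) : ℝ) - ψ i
  let δ : ℕ → A := fun i => γ (ψ i) * iv (γ (ψ (i + 1)))
  have hj : ∀ i, 1 ≤ j i := fun i => by
    have : ψ i + 1 ≤ ψ (i + 1) := hψ (Nat.lt_succ_self i)
    have : (ψ i : ℝ) + 1 ≤ ψ (i + 1) := by exact_mod_cast this
    simp only [j]; linarith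
  have hδ : ∀ i, δ i ∈ D.Γ := fun i => D.Γmul _ (hγ _) _ (iv_memΓ (hγ _))
  have hg : ∀ i, g i ∈ D.G := fun i => mul_mem (iv_mem (K_sub (hκ _))) (K_sub (hκ _))
  have hgl : Tendsto g atTop (𝓝 1) := by
    have h1 := ((iv_cont.tendsto k).comp hl).mul (hl.comp (tendsto_add_atTop_nat 1))
    rw [iv_mul (K_sub hk)] at h1
    exact h1
  have hκ' : ∀ m, κ m = exp ((m : ℝ) • D.X) * iv (γ m) := fun m => by
    rw [hκγ, mul_assoc, mul_iv (Γ_sub (hγ m)), mul_one]
  have hgδ : ∀ i, g i = exp (j i • D.X) * δ i := fun i => by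
    have h1 : iv (κ (ψ i)) = γ (ψ i) * exp ((-(ψ i : ℝ)) • D.X) := by
      symm
      apply eq_iv (K_sub (hκ _))
      rw [← mul_assoc, ← hκγ, exp_smul_mul_neg]
    simp only [g, δ]
    rw [h1, hκ' (ψ (i + 1)), mul_assoc, ← mul_assoc (exp _), ← exp_smul_add, ← mul_assoc,
      ← (expX_comm _ (Γ_sub (hγ _))).eq, mul_assoc]
    congr 3
    simp only [j]; ring
  have hz : Tendsto (fun i => lg A (g i)) atTop (𝓝 0) := by
    have := (lg_cont.tendsto (1 : A)).comp hgl
    rwa [lg_one] at this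
  obtain ⟨ε, hε, hdisc⟩ := D.disc
  have hcomm1 : ∀ γ ∈ D.Γ, ∀ᶠ i in atTop, Commute (g i) γ := by
    intro γ hγ
    have h1 : Tendsto (fun i => g i * γ * iv (g i) * iv γ) atTop (𝓝 (1 * γ * iv 1 * iv γ)) :=
      ((hgl.mul_const γ).mul ((iv_cont.tendsto 1).comp hgl)).mul_const _
    have h2 : (1 : A) * γ * iv 1 * iv γ = 1 := by
      have : iv (1 : A) = 1 := by simp [iv, lg_one]
      rw [this, one_mul, mul_one, mul_iv (Γ_sub hγ)]
    rw [h2] at h1
    filter_upwards [(Metric.tendsto_nhds.mp h1) ε hε] with i hi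
    have h3 : iv (g i) = iv (δ i) * exp ((-j i) • D.X) := by
      symm
      apply eq_iv (hg i)
      rw [hgδ, mul_assoc, ← mul_assoc (δ i), mul_iv (Γ_sub (hδ i)), one_mul, exp_smul_mul_neg]
    have h4 : g i * γ * iv (g i) = δ i * γ * iv (δ i) := by
      have hm : δ i * γ * iv (δ i) ∈ D.G :=
        mul_mem (mul_mem (Γ_sub (hδ i)) (Γ_sub hγ)) (iv_mem (Γ_sub (hδ i)))
      rw [h3, hgδ]
      calc exp (j i • D.X) * δ i * γ * (iv (δ i) * exp ((-j i) • D.X))
          = exp (j i • D.X) * (δ i * γ * iv (δ i)) * exp ((-j i) • D.X) := by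
            simp only [mul_assoc]
        _ = δ i * γ * iv (δ i) := by
            rw [(expX_comm _ hm).eq, mul_assoc, exp_smul_mul_neg, mul_one]
    have h5 : g i * γ * iv (g i) * iv γ = 1 := by
      apply hdisc
      · rw [h4]
        exact D.Γmul _ (D.Γmul _ (D.Γmul _ (hδ i) _ hγ) _ (iv_memΓ (hδ i))) _ (iv_memΓ hγ)
      · rwa [dist_eq_norm] at hi
    unfold Commute SemiconjBy
    calc g i * γ = g i * γ * (iv (g i) * (iv γ * γ) * g i) := by
          rw [iv_mul (Γ_sub hγ), mul_one, iv_mul (hg i), mul_one]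
      _ = (g i * γ * iv (g i) * iv γ) * γ * g i := by simp only [mul_assoc]
      _ = γ * g i := by rw [h5, one_mul]
  obtain ⟨s, hs, hsc⟩ := exists_finite (D := D)
  have hcomm2 : ∀ᶠ i in atTop, ∀ γ ∈ s, Commute (g i) γ :=
    (eventually_all_finset s).mpr fun γ hγ => hcomm1 γ (hs γ hγ)
  have hsmall : ∀ᶠ i in atTop, ‖lg A (g i)‖ < ‖D.X‖ := by
    have := (Metric.tendsto_nhds.mp hz) _ (norm_pos_iff.mpr D.hX0)
    simpa using this
  obtain ⟨N, hN⟩ := eventually_atTop.mp (hcomm2.and hsmall)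
  obtain ⟨φ0, hφ0, hφ1⟩ := exists_dual_vector ℝ D.X (norm_ne_zero_iff.mpr D.hX0)
  let φ : A →L[ℝ] ℝ := ‖D.X‖⁻¹ • φ0
  have hφ : φ D.X = 1 := by
    simp only [φ, smul_apply, hφ1, smul_eq_mul]
    exact inv_mul_cancel₀ (norm_ne_zero_iff.mpr D.hX0)
  let z : ℕ → A := fun i => lg A (g (i + N))
  have hzn : ∀ i, z i ∈ D.n := fun i => lg_mem (hg _)
  have hgc : ∀ i, ∀ Y ∈ D.n, Commute (g (i + N)) Y := fun i Y hY =>
    central_of_commΓ (hsc _ (hN (i + N) (by omega)).1) hY
  have hzc : ∀ i, ∀ Y ∈ D.n, Commute (z i) Y := fun i Y hY => (lg_comm (hgc i Y hY).symm).symm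
  have hzl : Tendsto z atTop (𝓝 0) := hz.comp (tendsto_add_atTop_nat N)
  have hfix : ∀ i, D.Fix (g (i + N)) := by
    intro i x hx Y hY Z hZ
    rw [(comm_of_central (hgc i) hx).eq, hgδ, ← mul_assoc,
      ω_inv hY hZ (mul_mem hx (exp_smul_mem D.hX _)) (hδ _), ← (expX_comm _ hx).eq,
      S_X.2 _ x hx Y hY Z hZ]
  obtain ⟨W, hW, hW0, hφW, hWc⟩ := limit_line (D := D) φ (u := fun i => z i - φ (z i) • D.X)
    (fun i => D.n.sub_mem (hzn i) (D.n.smul_mem _ D.hX))
    (fun i h => by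
      have h1 : z i = φ (z i) • D.X := sub_eq_zero.mp h
      have h2 : g (i + N) = exp (φ (z i) • D.X) := by rw [← h1, exp_lg (hg _)]
      have h3 : δ (i + N) = exp ((φ (z i) - j (i + N)) • D.X) := by
        rw [sub_eq_neg_add, exp_smul_add, ← h2, hgδ, ← mul_assoc, exp_neg_smul_mul, one_mul]
      have h4 : φ (z i) - j (i + N) = 0 := by
        by_contra h5
        exact hcon _ h5 (h3 ▸ hδ _)
      have h5 := (hN (i + N) (by omega)).2
      have h6 : ‖z i‖ = j (i + N) * ‖D.X‖ := by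
        rw [h1, sub_eq_zero.mp h4, norm_smul, Real.norm_eq_abs,
          abs_of_pos (by linarith [hj (i + N)])]
      have h7 : ‖z i‖ < ‖D.X‖ := h5
      nlinarith [hj (i + N), norm_nonneg D.X])
    (fun i Y hY => (hzc i Y hY).sub_left ((X_central Y hY).smul_left _))
    (fun i => by simp [hφ])
    (fun i => by
      have h1 : exp (z i - φ (z i) • D.X) = g (i + N) * exp ((-φ (z i)) • D.X) := by
        rw [sub_eq_add_neg, ← neg_smul, exp_add' ((hzc i _ D.hX).smul_right _), exp_lg (hg _)]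
      rw [h1]
      exact Fix.mul (exp_smul_mem D.hX _) (hfix i) (S_X.2 _))
    (by simpa using hzl.sub (((φ.continuous.tendsto 0).comp hzl).smul_const D.X))
  obtain ⟨c, rfl⟩ := central_par hW hWc
  simp only [map_smul, hφ, smul_eq_mul, mul_one] at hφW
  exact hW0 (by simp [hφW])

end Pool.Agent.P.MP_e3ee0c_gt.Nil.Data
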