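import Mathlib

open Set Filter Topology Matrix

namespace Pool.Agent.P.MP_e3ee0c_gt

variable {X Y : Type*} [TopologicalSpace X] [PseudoMetricSpace Y] {k : ℕ}

/-- x and z lie in a preconnected set whose image has diameter below r. -/
def Near (p : X → Y) (r : ℝ) (x z : X) : Prop :=
  ∃ C, IsPreconnected C ∧ x ∈ C ∧ z ∈ C ∧ ∀ a ∈ C, ∀ b ∈ C, dist (p a) (p b) < r

/-- x and z lie in a preconnected subset of the superlevel set. -/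
def Conn (h : X → ℝ) (t : ℝ) (x z : X) : Prop :=
  ∃ C, IsPreconnected C ∧ x ∈ C ∧ z ∈ C ∧ ∀ a ∈ C, t < h a

/-- Local structure of superlevel sets near a regular point, stable in the parameters. -/
def Box (μ : X → Fin k → ℝ) (y : X) (η : Fin k → ℝ) : Prop :=
  ∀ V₀ ∈ 𝓝 y, ∃ V ∈ 𝓝 y, V ⊆ V₀ ∧ ∀ᶠ q in 𝓝 (η, η ⬝ᵥ μ y),
    (V ∩ {x | q.2 < q.1 ⬝ᵥ μ x}).Nonempty ∧ IsPreconnected (V ∩ {x | q.2 < q.1 ⬝ᵥ μ x})

/-- Integer vector as a real vector. -/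
def rv (ξ : Fin k → ℤ) : Fin k → ℝ := fun i => (ξ i : ℝ)

theorem Near.mono {p : X → Y} {r r' : ℝ} {x z : X} (h : Near p r x z) (hr : r ≤ r') :
    Near p r' x z := by
  obtain ⟨C, h1, h2, h3, h4⟩ := h
  exact ⟨C, h1, h2, h3, fun a ha b hb => (h4 a ha b hb).trans_le hr⟩

theorem Near.refl (p : X → Y) {r : ℝ} (hr : 0 < r) (x : X) : Near p r x x :=
  ⟨{x}, isPreconnected_singleton, rfl, rfl, by
    rintro a rfl b rfl; simpa using hr⟩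

theorem Near.symm {p : X → Y} {r : ℝ} {x z : X} (h : Near p r x z) : Near p r z x := by
  obtain ⟨C, h1, h2, h3, h4⟩ := h
  exact ⟨C, h1, h3, h2, h4⟩

theorem Near.trans {p : X → Y} {r : ℝ} {x y z : X} (h : Near p r x y) (h' : Near p r y z) :
    Near p (2 * r) x z := by
  obtain ⟨C, h1, h2, h3, h4⟩ := h
  obtain ⟨D, g1, g2, g3, g4⟩ := h'
  refine ⟨C ∪ D, h1.union y h3 g2 g1, Or.inl h2, Or.inr g3, ?_⟩
  have key : ∀ a ∈ C ∪ D, dist (p a) (p y) < r := by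
    rintro a (ha | ha)
    · exact h4 a ha y h3
    · exact g4 a ha y g2
  intro a ha b hb
  have := dist_triangle_right (p a) (p b) (p y)
  linarith [key a ha, key b hb]

theorem Near.map {p : X → Y} {r : ℝ} {x z : X} (h : Near p r x z) {f : X → X}
    (hf : Continuous f) (hp : ∀ a, p (f a) = p a) : Near p r (f x) (f z) := by
  obtain ⟨C, h1, h2, h3, h4⟩ := h
  refine ⟨f '' C, h1.image f hf.continuousOn, mem_image_of_mem f h2, mem_image_of_mem f h3, ?_⟩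
  rintro _ ⟨a, ha, rfl⟩ _ ⟨b, hb, rfl⟩
  rw [hp, hp]; exact h4 a ha b hb

theorem Conn.symm {h : X → ℝ} {t : ℝ} {x z : X} (H : Conn h t x z) : Conn h t z x := by
  obtain ⟨C, h1, h2, h3, h4⟩ := H
  exact ⟨C, h1, h3, h2, h4⟩

theorem Conn.trans {h : X → ℝ} {t : ℝ} {x y z : X} (H : Conn h t x y) (H' : Conn h t y z) :
    Conn h t x z := by
  obtain ⟨C, h1, h2, h3, h4⟩ := H
  obtain ⟨D, g1, g2, g3, g4⟩ := H'
  refine ⟨C ∪ D, h1.union y h3 g2 g1, Or.inl h2, Or.inr g3, ?_⟩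
  rintro a (ha | ha)
  · exact h4 a ha
  · exact g4 a ha

theorem Conn.mono {h : X → ℝ} {t t' : ℝ} {x z : X} (H : Conn h t x z) (ht : t' ≤ t) :
    Conn h t' x z := by
  obtain ⟨C, h1, h2, h3, h4⟩ := H
  exact ⟨C, h1, h2, h3, fun a ha => ht.trans_lt (h4 a ha)⟩

theorem exists_small_nbhd [LocallyConnectedSpace X] {p : X → Y} (hp : Continuous p) {r : ℝ}
    (hr : 0 < r) (y : X) :
    ∃ V ∈ 𝓝 y, IsPreconnected V ∧ ∀ a ∈ V, ∀ b ∈ V, dist (p a) (p b) < r := by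
  have h1 : p ⁻¹' Metric.ball (p y) (r / 2) ∈ 𝓝 y :=
    hp.continuousAt.preimage_mem_nhds (Metric.ball_mem_nhds _ (half_pos hr))
  obtain ⟨V, hV, hVc, hVs⟩ := locallyConnectedSpace_iff_subsets_isOpen_isConnected.1 ‹_› y _ h1
  refine ⟨V, hVc.mem_nhds hVs.1, hVs.2.isPreconnected, fun a ha b hb => ?_⟩
  have ha' : dist (p a) (p y) < r / 2 := hV ha
  have hb' : dist (p b) (p y) < r / 2 := hV hb
  linarith [dist_triangle_right (p a) (p b) (p y)]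

theorem one_le_norm_rv {ξ : Fin k → ℤ} (h : ξ ≠ 0) : 1 ≤ ‖rv ξ‖ := by
  obtain ⟨i, hi⟩ := Function.ne_iff.1 h
  have h1 : (1 : ℝ) ≤ |(ξ i : ℝ)| := by
    have : (1 : ℤ) ≤ |ξ i| := Int.one_le_abs hi
    exact_mod_cast this
  exact h1.trans (norm_le_pi_norm (rv ξ) i)

theorem finite_rv_le (R : ℝ) : {ξ : Fin k → ℤ | ‖rv ξ‖ ≤ R}.Finite := by
  refine (Set.Finite.pi' (fun _ : Fin k => Set.finite_Icc (-⌈R⌉) ⌈R⌉)).subset ?_
  intro ξ hξ i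
  have h1 : |(ξ i : ℝ)| ≤ R := (norm_le_pi_norm (rv ξ) i).trans hξ
  have h2 : |ξ i| ≤ ⌈R⌉ := by
    have : ((|ξ i| : ℤ) : ℝ) ≤ (⌈R⌉ : ℝ) := by
      rw [Int.cast_abs]; exact h1.trans (Int.le_ceil R)
    exact_mod_cast this
  exact abs_le.1 h2

/-- The compact set of normalised parameters. -/
def Par (k : ℕ) (T : ℝ) : Set ((Fin k → ℝ) × ℝ) :=
  closure {q | ∃ ξ : Fin k → ℤ, ξ ≠ 0 ∧ ∃ t, |t| ≤ T ∧ q = (‖rv ξ‖⁻¹ • rv ξ, ‖rv ξ‖⁻¹ * t)}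

theorem Par_sub (T : ℝ) : Par k T ⊆ Metric.sphere 0 1 ×ˢ Metric.closedBall 0 T := by
  refine closure_minimal ?_ (Metric.isClosed_sphere.prod Metric.isClosed_closedBall)
  rintro _ ⟨ξ, hξ, t, ht, rfl⟩
  have h1 := one_le_norm_rv hξ
  have h0 : 0 < ‖rv ξ‖ := by linarith
  constructor
  · simp [norm_smul, h0.ne']
  · simp only [Metric.mem_closedBall, dist_zero_right, norm_mul, norm_inv,
      Real.norm_eq_abs]
    rw [abs_norm]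
    calc ‖rv ξ‖⁻¹ * |t| ≤ 1 * |t| := by
          gcongr; exact inv_le_one_of_one_le₀ h1
      _ ≤ T := by simpa using ht

theorem isCompact_Par (T : ℝ) : IsCompact (Par k T) :=
  ((isCompact_sphere _ _).prod (isCompact_closedBall _ _)).of_isClosed_subset isClosed_closure
    (Par_sub T)

theorem Par_cases {T : ℝ} {q : (Fin k → ℝ) × ℝ} (hq : q ∈ Par k T) :
    q.2 = 0 ∨ ∃ ξ : Fin k → ℤ, ξ ≠ 0 ∧ q.1 = ‖rv ξ‖⁻¹ • rv ξ := by
  by_cases h0 : q.2 = 0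
  · exact Or.inl h0
  right
  have hpos : 0 < |q.2| / 2 := half_pos (abs_pos.2 h0)
  set F : Set (Fin k → ℝ) := (fun ξ : Fin k → ℤ => ‖rv ξ‖⁻¹ • rv ξ) ''
    ({ξ | ‖rv ξ‖ ≤ T / (|q.2| / 2)} ∩ {ξ | ξ ≠ 0}) with hF
  have hFf : F.Finite := ((finite_rv_le _).inter_of_left _).image _
  have hO : IsOpen {q' : (Fin k → ℝ) × ℝ | |q.2| / 2 < |q'.2|} :=
    isOpen_lt continuous_const (by fun_prop)
  have hmem : q ∈ {q' : (Fin k → ℝ) × ℝ | |q.2| / 2 < |q'.2|} := by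
    show |q.2| / 2 < |q.2|
    linarith
  have h1 := hO.inter_closure ⟨hmem, hq⟩
  have h2 : q ∈ Prod.fst ⁻¹' F := by
    refine closure_minimal ?_ (hFf.isClosed.preimage continuous_fst) h1
    rintro _ ⟨h, ξ, hξ, t, ht, rfl⟩
    refine ⟨ξ, ⟨?_, hξ⟩, rfl⟩
    have h1 := one_le_norm_rv hξ
    have h0 : 0 < ‖rv ξ‖ := by linarith
    have h' : |q.2| / 2 < ‖rv ξ‖⁻¹ * |t| := by
      simpa [abs_mul, abs_inv] using h
    show ‖rv ξ‖ ≤ T / (|q.2| / 2)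
    rw [le_div_iff₀ hpos]
    rw [inv_mul_eq_div, lt_div_iff₀ h0] at h'
    nlinarith
  obtain ⟨ξ, ⟨-, hξ⟩, h⟩ := h2
  exact ⟨ξ, hξ, h.symm⟩


section facts

variable [LocallyConnectedSpace X] {p : X → Y} {μ : X → Fin k → ℝ} {K : Set X}

theorem cont_pair (hμ : Continuous μ) :
    Continuous fun w : ((Fin k → ℝ) × ℝ) × X => w.1.1 ⬝ᵥ μ w.2 - w.1.2 := by
  have : Continuous fun w : ((Fin k → ℝ) × ℝ) × X => μ w.2 := hμ.comp continuous_snd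
  fun_prop

theorem fact_one (hμ : Continuous μ) (hK : IsCompact K) {P : Set ((Fin k → ℝ) × ℝ)}
    (hP : IsCompact P)
    (sheet : ∀ y, ∀ V ∈ 𝓝 y, ∃ r > 0, ∀ᶠ y' in 𝓝 y, ∀ z, Near p r y' z → z ∈ V)
    (box : ∀ y, ∀ q ∈ P, q.1 ⬝ᵥ μ y = q.2 → Box μ y q.1) :
    ∃ r > 0, ∀ y ∈ K, ∀ q ∈ P, ∀ z₁ z₂, Near p r y z₁ → Near p r y z₂ → q.2 < q.1 ⬝ᵥ μ z₁ →
      q.2 < q.1 ⬝ᵥ μ z₂ → Conn (fun z => q.1 ⬝ᵥ μ z) q.2 z₁ z₂ := by
  have main : ∀ᶠ r in 𝓝 (0 : ℝ), ∀ w ∈ K ×ˢ P, ∀ z₁ z₂, Near p r w.1 z₁ → Near p r w.1 z₂ →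
      w.2.2 < w.2.1 ⬝ᵥ μ z₁ → w.2.2 < w.2.1 ⬝ᵥ μ z₂ →
      Conn (fun z => w.2.1 ⬝ᵥ μ z) w.2.2 z₁ z₂ := by
    refine (hK.prod hP).eventually_forall_of_forall_eventually ?_
    rintro ⟨y, q⟩ ⟨-, hq⟩
    have hV : ∃ V ∈ 𝓝 y, ∀ᶠ q' : (Fin k → ℝ) × ℝ in 𝓝 q,
        IsPreconnected (V ∩ {x | q'.2 < q'.1 ⬝ᵥ μ x}) := by
      rcases lt_trichotomy (q.1 ⬝ᵥ μ y - q.2) 0 with h | h | h
      · have h1 : ∀ᶠ w : ((Fin k → ℝ) × ℝ) × X in 𝓝 (q, y), w.1.1 ⬝ᵥ μ w.2 - w.1.2 < 0 :=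
          (cont_pair hμ).continuousAt.eventually_lt continuousAt_const h
        rw [nhds_prod_eq] at h1
        obtain ⟨pa, ha, pb, hb, hab⟩ := eventually_prod_iff.1 h1
        refine ⟨{x | pb x}, hb, ha.mono fun q' hq' => ?_⟩
        have : {x | pb x} ∩ {x | q'.2 < q'.1 ⬝ᵥ μ x} = ∅ := by
          ext x
          simp only [mem_inter_iff, mem_setOf_eq, mem_empty_iff_false, iff_false, not_and, not_lt]
          intro hx
          have := hab hq' hx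
          simp only at this
          linarith
        rw [this]; exact isPreconnected_empty
      · have h' : q.1 ⬝ᵥ μ y = q.2 := by linarith
        obtain ⟨V, hV, -, hV2⟩ := box y q hq h' univ univ_mem
        rw [h'] at hV2
        exact ⟨V, hV, hV2.mono fun q' hq' => hq'.2⟩
      · have h1 : ∀ᶠ w : ((Fin k → ℝ) × ℝ) × X in 𝓝 (q, y), 0 < w.1.1 ⬝ᵥ μ w.2 - w.1.2 :=
          continuousAt_const.eventually_lt (cont_pair hμ).continuousAt h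
        rw [nhds_prod_eq] at h1
        obtain ⟨pa, ha, pb, hb, hab⟩ := eventually_prod_iff.1 h1
        obtain ⟨V, hV, hVc, hVs⟩ :=
          locallyConnectedSpace_iff_subsets_isOpen_isConnected.1 ‹_› y _ hb
        refine ⟨V, hVc.mem_nhds hVs.1, ha.mono fun q' hq' => ?_⟩
        have : V ∩ {x | q'.2 < q'.1 ⬝ᵥ μ x} = V := by
          refine inter_eq_left.2 fun x hx => ?_
          have := hab hq' (hV hx)
          simp only at this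
          show q'.2 < q'.1 ⬝ᵥ μ x
          linarith
        rw [this]; exact hVs.2.isPreconnected
    obtain ⟨V, hV, hV2⟩ := hV
    obtain ⟨r₀, hr₀, hs⟩ := sheet y V hV
    have e1 : ∀ᶠ z : ℝ × (X × ((Fin k → ℝ) × ℝ)) in 𝓝 (0, (y, q)), z.1 < r₀ :=
      continuousAt_fst.eventually_lt continuousAt_const hr₀
    have e2 := (continuousAt_fst.comp continuousAt_snd :
      ContinuousAt (fun z : ℝ × (X × ((Fin k → ℝ) × ℝ)) => z.2.1) (0, (y, q))).eventually hs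
    have e3 := (continuousAt_snd.comp continuousAt_snd :
      ContinuousAt (fun z : ℝ × (X × ((Fin k → ℝ) × ℝ)) => z.2.2) (0, (y, q))).eventually hV2
    filter_upwards [e1, e2, e3] with z h1 h2 h3 z₁ z₂ n1 n2 l1 l2
    exact ⟨_, h3, ⟨h2 _ (n1.mono h1.le), l1⟩, ⟨h2 _ (n2.mono h1.le), l2⟩, fun a ha => ha.2⟩
  obtain ⟨r, hr, hr0⟩ := ((main.filter_mono nhdsWithin_le_nhds).and
    (self_mem_nhdsWithin (s := Ioi (0 : ℝ)))).exists
  exact ⟨r, hr0, fun y hy q hq => hr (y, q) ⟨hy, hq⟩⟩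

theorem fact_two (hp : Continuous p) (hμ : Continuous μ) (hK : IsCompact K)
    {P : Set ((Fin k → ℝ) × ℝ)} (hP : IsCompact P)
    (box : ∀ y, ∀ q ∈ P, q.1 ⬝ᵥ μ y = q.2 → Box μ y q.1) {r : ℝ} (hr : 0 < r) :
    ∃ ε > 0, ∀ y ∈ K, ∀ q ∈ P, q.2 - ε < q.1 ⬝ᵥ μ y → ∃ z, Near p r y z ∧ q.2 < q.1 ⬝ᵥ μ z := by
  have main : ∀ᶠ ε in 𝓝 (0 : ℝ), ∀ w ∈ K ×ˢ P, w.2.2 - ε < w.2.1 ⬝ᵥ μ w.1 →
      ∃ z, Near p r w.1 z ∧ w.2.2 < w.2.1 ⬝ᵥ μ z := by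
    refine (hK.prod hP).eventually_forall_of_forall_eventually ?_
    rintro ⟨y, q⟩ ⟨-, hq⟩
    have hc : Continuous fun z : ℝ × (X × ((Fin k → ℝ) × ℝ)) =>
        z.2.2.1 ⬝ᵥ μ z.2.1 - z.2.2.2 :=
      (cont_pair hμ).comp (by fun_prop : Continuous fun z : ℝ × (X × ((Fin k → ℝ) × ℝ)) =>
        (z.2.2, z.2.1))
    rcases lt_trichotomy (q.1 ⬝ᵥ μ y - q.2) 0 with h | h | h
    · have h1 : ∀ᶠ z : ℝ × (X × ((Fin k → ℝ) × ℝ)) in 𝓝 (0, (y, q)),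
          z.2.2.1 ⬝ᵥ μ z.2.1 - z.2.2.2 + z.1 < 0 :=
        (hc.add continuous_fst).continuousAt.eventually_lt continuousAt_const (by simpa using h)
      filter_upwards [h1] with z hz hz'
      linarith
    · have h' : q.1 ⬝ᵥ μ y = q.2 := by linarith
      obtain ⟨V₀, hV₀, hc₀, hd₀⟩ := exists_small_nbhd hp hr y
      obtain ⟨V, -, hVs, hV2⟩ := box y q hq h' V₀ hV₀
      rw [h'] at hV2
      have e2 := (continuousAt_fst.comp continuousAt_snd :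
        ContinuousAt (fun z : ℝ × (X × ((Fin k → ℝ) × ℝ)) => z.2.1) (0, (y, q))).eventually hV₀
      have e3 := (continuousAt_snd.comp continuousAt_snd :
        ContinuousAt (fun z : ℝ × (X × ((Fin k → ℝ) × ℝ)) => z.2.2) (0, (y, q))).eventually hV2
      filter_upwards [e2, e3] with z h2 h3 _
      obtain ⟨a, ha1, ha2⟩ := h3.1
      exact ⟨a, ⟨V₀, hc₀, h2, hVs ha1, hd₀⟩, ha2⟩
    · have h1 : ∀ᶠ z : ℝ × (X × ((Fin k → ℝ) × ℝ)) in 𝓝 (0, (y, q)),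
          0 < z.2.2.1 ⬝ᵥ μ z.2.1 - z.2.2.2 :=
        continuousAt_const.eventually_lt hc.continuousAt h
      filter_upwards [h1] with z hz _
      exact ⟨z.2.1, Near.refl p hr _, by linarith⟩
  obtain ⟨ε, hε, hε0⟩ := ((main.filter_mono nhdsWithin_le_nhds).and
    (self_mem_nhdsWithin (s := Ioi (0 : ℝ)))).exists
  exact ⟨ε, hε0, fun y hy q hq => hε (y, q) ⟨hy, hq⟩⟩

/-- Uniform step. -/
theorem uniform_step (hp : Continuous p) (hμ : Continuous μ) (hK : IsCompact K)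
    (sheet : ∀ y, ∀ V ∈ 𝓝 y, ∃ r > 0, ∀ᶠ y' in 𝓝 y, ∀ z, Near p r y' z → z ∈ V)
    (box0 : ∀ y η, η ≠ 0 → η ⬝ᵥ μ y = 0 → Box μ y η)
    (boxZ : ∀ y (ξ : Fin k → ℤ) (s : ℝ), ξ ≠ 0 → s ≠ 0 → Box μ y (s • rv ξ))
    {ξ : Fin k → ℤ}
    (move : ∀ x, ∃ (γ : X ≃ₜ X) (ξ' : Fin k → ℤ), ξ' ≠ 0 ∧ γ x ∈ K ∧ (∀ z, p (γ z) = p z) ∧
      ∀ z, rv ξ' ⬝ᵥ μ (γ z) = rv ξ ⬝ᵥ μ z) (T : ℝ) :
    ∃ ε > 0, ∀ t, |t| ≤ T →
      (∀ x, t - ε < rv ξ ⬝ᵥ μ x → ∃ z, t < rv ξ ⬝ᵥ μ z) ∧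
      ∀ u₁ u₂, t < rv ξ ⬝ᵥ μ u₁ → t < rv ξ ⬝ᵥ μ u₂ →
        Conn (fun z => rv ξ ⬝ᵥ μ z) (t - ε) u₁ u₂ → Conn (fun z => rv ξ ⬝ᵥ μ z) t u₁ u₂ := by
  have box : ∀ y, ∀ q ∈ Par k T, q.1 ⬝ᵥ μ y = q.2 → Box μ y q.1 := by
    intro y q hq h
    rcases Par_cases hq with h0 | ⟨ζ, hζ, h1⟩
    · refine box0 y _ ?_ (h.trans h0)
      intro h2
      have := (Par_sub T hq).1
      simp [h2] at this
    · rw [h1]
      exact boxZ y ζ _ hζ (inv_ne_zero (by linarith [one_le_norm_rv hζ]))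
  obtain ⟨r2, hr2, F1⟩ := fact_one hμ hK (isCompact_Par T) sheet box
  set r := r2 / 2 with hr
  have hr0 : 0 < r := half_pos hr2
  obtain ⟨ε, hε, F2⟩ := fact_two hp hμ hK (isCompact_Par T) box hr0
  have G1 : ∀ t, |t| ≤ T → ∀ x z₁ z₂, Near p r2 x z₁ → Near p r2 x z₂ → t < rv ξ ⬝ᵥ μ z₁ →
      t < rv ξ ⬝ᵥ μ z₂ → Conn (fun z => rv ξ ⬝ᵥ μ z) t z₁ z₂ := by
    intro t ht x z₁ z₂ n1 n2 l1 l2
    obtain ⟨γ, ξ', hξ', hx, hγp, hγ⟩ := move x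
    have h0 : 0 < ‖rv ξ'‖⁻¹ := inv_pos.2 (by linarith [one_le_norm_rv hξ'])
    have hq : (‖rv ξ'‖⁻¹ • rv ξ', ‖rv ξ'‖⁻¹ * t) ∈ Par k T := subset_closure ⟨ξ', hξ', t, ht, rfl⟩
    obtain ⟨C, c1, c2, c3, c4⟩ := F1 _ hx _ hq (γ z₁) (γ z₂) (n1.map γ.continuous hγp)
      (n2.map γ.continuous hγp)
      (by simp only [smul_dotProduct, smul_eq_mul, hγ]; gcongr)
      (by simp only [smul_dotProduct, smul_eq_mul, hγ]; gcongr)
    refine ⟨γ ⁻¹' C, γ.isPreconnected_preimage.2 c1, c2, c3, fun a ha => ?_⟩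
    have := c4 _ ha
    simp only [smul_dotProduct, smul_eq_mul, hγ] at this
    exact lt_of_mul_lt_mul_left this h0.le
  have G2 : ∀ t, |t| ≤ T → ∀ x, t - ε < rv ξ ⬝ᵥ μ x → ∃ z, Near p r x z ∧ t < rv ξ ⬝ᵥ μ z := by
    intro t ht x hx0
    obtain ⟨γ, ξ', hξ', hx, hγp, hγ⟩ := move x
    have h1 := one_le_norm_rv hξ'
    have h0 : 0 < ‖rv ξ'‖⁻¹ := inv_pos.2 (by linarith)
    have h2 : ‖rv ξ'‖⁻¹ ≤ 1 := inv_le_one_of_one_le₀ h1
    have hq : (‖rv ξ'‖⁻¹ • rv ξ', ‖rv ξ'‖⁻¹ * t) ∈ Par k T := subset_closure ⟨ξ', hξ', t, ht, rfl⟩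
    obtain ⟨z, n, l⟩ := F2 _ hx _ hq (by
      simp only [smul_dotProduct, smul_eq_mul, hγ]
      nlinarith [mul_lt_mul_of_pos_left hx0 h0])
    refine ⟨γ.symm z, ?_, ?_⟩
    · have := n.map γ.symm.continuous (fun a => by rw [← hγp (γ.symm a), γ.apply_symm_apply])
      simpa using this
    · simp only [smul_dotProduct, smul_eq_mul] at l
      rw [← hγ, γ.apply_symm_apply]
      exact lt_of_mul_lt_mul_left l h0.le
  refine ⟨ε, hε, fun t ht => ⟨fun x hx => ?_, fun u₁ u₂ l1 l2 hc => ?_⟩⟩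
  · obtain ⟨z, -, hz⟩ := G2 t ht x hx
    exact ⟨z, hz⟩
  obtain ⟨C, c1, c2, c3, c4⟩ := hc
  have hr2' : r2 = 2 * r := by rw [hr]; ring
  have key := c1.induction₂ (fun x x' => ∀ z z', Near p r x z → Near p r x' z' →
      t < rv ξ ⬝ᵥ μ z → t < rv ξ ⬝ᵥ μ z' → Conn (fun z => rv ξ ⬝ᵥ μ z) t z z') ?_ ?_ ?_ c2 c3
  · exact key u₁ u₂ (Near.refl p hr0 _) (Near.refl p hr0 _) l1 l2
  · intro x hx
    obtain ⟨V, hV, hVc, hVd⟩ := exists_small_nbhd hp hr0 x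
    filter_upwards [nhdsWithin_le_nhds hV] with x' hx' z z' n1 n2 l l'
    have n3 : Near p r x x' := ⟨V, hVc, mem_of_mem_nhds hV, hx', hVd⟩
    exact G1 t ht x z z' (n1.mono (by linarith)) (hr2' ▸ n3.trans n2) l l'
  · intro x y z _ hy _ h1 h2 a b n1 n2 l l'
    obtain ⟨w, n, lw⟩ := G2 t ht y (c4 y hy)
    exact (h1 a w n1 n l lw).trans (h2 w b n n2 lw l')
  · intro x y _ _ h a b n1 n2 l l'
    exact (h b a n2 n1 l' l).symm

/-- Superlevel sets are nonempty and preconnected. -/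
theorem pass [PreconnectedSpace X] [Nonempty X]
    (hp : Continuous p) (hμ : Continuous μ) (hK : IsCompact K)
    (sheet : ∀ y, ∀ V ∈ 𝓝 y, ∃ r > 0, ∀ᶠ y' in 𝓝 y, ∀ z, Near p r y' z → z ∈ V)
    (box0 : ∀ y η, η ≠ 0 → η ⬝ᵥ μ y = 0 → Box μ y η)
    (boxZ : ∀ y (ξ : Fin k → ℤ) (s : ℝ), ξ ≠ 0 → s ≠ 0 → Box μ y (s • rv ξ))
    {ξ : Fin k → ℤ}
    (move : ∀ x, ∃ (γ : X ≃ₜ X) (ξ' : Fin k → ℤ), ξ' ≠ 0 ∧ γ x ∈ K ∧ (∀ z, p (γ z) = p z) ∧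
      ∀ z, rv ξ' ⬝ᵥ μ (γ z) = rv ξ ⬝ᵥ μ z) (c : ℝ) :
    {x | c < rv ξ ⬝ᵥ μ x}.Nonempty ∧ IsPreconnected {x | c < rv ξ ⬝ᵥ μ x} := by
  set h : X → ℝ := fun z => rv ξ ⬝ᵥ μ z with hh
  have hc : Continuous h := by
    have := hμ
    simp only [hh]; fun_prop
  have climb : ∀ (Q : ℝ → Prop) (t₀ : ℝ), (∀ t t', t' ≤ t → Q t → Q t') → Q t₀ →
      (∀ T, ∃ ε > 0, ∀ t, |t| ≤ T → t ≤ c → Q (t - ε) → Q t) → Q c := by
    intro Q t₀ hmono h0 hstep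
    obtain ⟨ε, hε, hs⟩ := hstep (|t₀| + |c|)
    have hn : ∀ n : ℕ, Q (min c (t₀ + n * ε)) := by
      intro n
      induction n with
      | zero => exact hmono _ _ (by simp) h0
      | succ n ih =>
        by_cases h1 : min c (t₀ + (n + 1 : ℕ) * ε) ≤ t₀
        · exact hmono _ _ h1 h0
        push Not at h1
        refine hs _ ?_ (min_le_left _ _) (hmono _ _ ?_ ih)
        · rw [abs_le]
          constructor
          · linarith [neg_abs_le t₀, abs_nonneg c]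
          · linarith [min_le_left c (t₀ + (n + 1 : ℕ) * ε), le_abs_self c, abs_nonneg t₀]
        · refine le_min (by linarith [min_le_left c (t₀ + (n + 1 : ℕ) * ε)]) ?_
          have := min_le_right c (t₀ + (n + 1 : ℕ) * ε)
          push_cast at this ⊢
          linarith
    obtain ⟨n, hn'⟩ := exists_nat_ge ((c - t₀) / ε)
    have := hn n
    rwa [min_eq_left] at this
    rw [div_le_iff₀ hε] at hn'
    linarith
  constructor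
  · obtain ⟨x₀⟩ := ‹Nonempty X›
    refine climb (fun t => ∃ z, t < h z) (h x₀ - 1) ?_ ⟨x₀, by linarith⟩ ?_
    · rintro t t' ht ⟨z, hz⟩
      exact ⟨z, ht.trans_lt hz⟩
    · intro T
      obtain ⟨ε, hε, hs⟩ := uniform_step hp hμ hK sheet box0 boxZ move T
      refine ⟨ε, hε, fun t ht _ ⟨z, hz⟩ => (hs t ht).1 z hz⟩
  · refine isPreconnected_of_forall_pair fun u₁ l1 u₂ l2 => ?_
    have start : ∃ t, Conn h t u₁ u₂ := by
      refine isPreconnected_univ.induction₂ (fun x x' => ∃ t, Conn h t x x') ?_ ?_ ?_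
        (mem_univ u₁) (mem_univ u₂)
      · intro x _
        have h1 : {z | h x - 1 < h z} ∈ 𝓝 x :=
          (isOpen_lt continuous_const hc).mem_nhds (by show h x - 1 < h x; linarith)
        obtain ⟨V, hV, hVc, hVs⟩ :=
          locallyConnectedSpace_iff_subsets_isOpen_isConnected.1 ‹_› x _ h1
        filter_upwards [nhdsWithin_le_nhds (hVc.mem_nhds hVs.1)] with x' hx'
        exact ⟨_, V, hVs.2.isPreconnected, hVs.1, hx', fun a ha => hV ha⟩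
      · rintro x y z - - - ⟨t, h1⟩ ⟨t', h2⟩
        exact ⟨min t t', (h1.mono (min_le_left _ _)).trans (h2.mono (min_le_right _ _))⟩
      · rintro x y - - ⟨t, h1⟩
        exact ⟨t, h1.symm⟩
    obtain ⟨t₀, h0⟩ := start
    have := climb (fun t => Conn h t u₁ u₂) t₀ (fun t t' ht H => H.mono ht) h0 (fun T => by
      obtain ⟨ε, hε, hs⟩ := uniform_step hp hμ hK sheet box0 boxZ move T
      exact ⟨ε, hε, fun t ht htc H => (hs t ht).2 u₁ u₂ (htc.trans_lt l1) (htc.trans_lt l2) H⟩)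
    obtain ⟨C, c1, c2, c3, c4⟩ := this
    exact ⟨C, fun a ha => c4 a ha, c2, c3, c1⟩

end facts

end Pool.Agent.P.MP_e3ee0c_gt
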