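import Mathlib
import Pool.Agent.Lib.Flow.Tools

/-! Smooth global flows of smooth Lipschitz vector fields. -/

open Set Filter Topology
open scoped ContDiff

namespace Pool.Agent.Wein

variable {X : Type*} [NormedAddCommGroup X] [NormedSpace ℝ X] [FiniteDimensional ℝ X]

theorem exists_flow (V : X → X) (hV : ContDiff ℝ ∞ V) (L : NNReal) (hL : LipschitzWith L V) :
    ∃ Φ : ℝ × X → X, ContDiff ℝ ∞ Φ ∧ (∀ x, Φ (0, x) = x) ∧
      (∀ t x, HasDerivAt (fun s => Φ (s, x)) (V (Φ (t, x))) t) ∧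
      ∀ s t x, Φ (s + t, x) = Φ (s, Φ (t, x)) := by
  have : CompleteSpace X := FiniteDimensional.complete ℝ X
  exact Pool.Agent.Lib.Flow.exists_smooth_flow V hV L hL

/-- The variational equation. -/
theorem flow_var (V : X → X) (hV : ContDiff ℝ ∞ V) (Φ : ℝ × X → X) (hΦ : ContDiff ℝ ∞ Φ)
    (hd : ∀ t x, HasDerivAt (fun s => Φ (s, x)) (V (Φ (t, x))) t) (x v : X) (t : ℝ) :
    HasDerivAt (fun s => fderiv ℝ Φ (s, x) (0, v))
      (fderiv ℝ V (Φ (t, x)) (fderiv ℝ Φ (t, x) (0, v))) t :=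
  Pool.Agent.Lib.Flow.variation (hΦ.contDiffAt.of_le (WithTop.coe_le_coe.2 (le_top : (2 : ℕ∞) ≤ ⊤)))
    (hV.differentiable (by simp) _) (Eventually.of_forall fun w => hd w.1 w.2) (0, v)

end Pool.Agent.Wein
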