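import Mathlib
import Pool.Agent.P.MP_e3ee0c_gt.WRet
import Pool.Agent.P.MP_e3ee0c_gt.WFlow
import Pool.Agent.P.MP_e3ee0c_gt.WIF

/-! Collar coordinates along the flow of a Liouville field. -/

open Set Filter Topology
open scoped ContDiff InnerProductSpace

namespace Pool.Agent.Wein

/-- The slope of the smooth transition function. -/
lemma st_deriv {x : ℝ} (h0 : 0 < x) (h1 : x < 1) :
    ∃ d, HasDerivAt Real.smoothTransition d x ∧ 0 < d ∧
      (Real.smoothTransition x ≤ 1 / 2 → Real.smoothTransition x ≤ d) := by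
  have hf : ∀ y, HasDerivAt expNegInvGlue (y⁻¹ ^ 2 * expNegInvGlue y) y := fun y => by
    simpa using expNegInvGlue.hasDerivAt_polynomial_eval_inv_mul 1 y
  have h2 : HasDerivAt (fun y => expNegInvGlue (1 - y))
      ((1 - x)⁻¹ ^ 2 * expNegInvGlue (1 - x) * (-1)) x :=
    (hf (1 - x)).comp x ((hasDerivAt_id x).const_sub 1)
  have hp := Real.smoothTransition.pos_denom x
  have h3 := (hf x).div ((hf x).add h2) hp.ne'
  have ha := expNegInvGlue.pos_of_pos h0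
  have hb := expNegInvGlue.pos_of_pos (sub_pos.2 h1)
  have hu : 1 ≤ x⁻¹ ^ 2 := one_le_pow₀ ((one_le_inv₀ h0).2 h1.le)
  have hw : 1 ≤ (1 - x)⁻¹ ^ 2 := one_le_pow₀ ((one_le_inv₀ (sub_pos.2 h1)).2 (by linarith))
  refine ⟨_, h3, ?_, ?_⟩
  · simp only [Pi.add_apply]
    set a := expNegInvGlue x
    set b := expNegInvGlue (1 - x)
    set u := x⁻¹ ^ 2
    set w := (1 - x)⁻¹ ^ 2
    have : u * a * (a + b) - a * (u * a + w * b * -1) = a * b * (u + w) := by ring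
    rw [this]
    positivity
  · simp only [Pi.add_apply, Real.smoothTransition]
    set a := expNegInvGlue x
    set b := expNegInvGlue (1 - x)
    set u := x⁻¹ ^ 2
    set w := (1 - x)⁻¹ ^ 2
    have : u * a * (a + b) - a * (u * a + w * b * -1) = a * b * (u + w) := by ring
    rw [this]
    intro h
    rw [div_le_iff₀ hp] at h
    rw [div_le_div_iff₀ hp (by positivity)]
    have h4 : a + b ≤ b * (u + w) := by nlinarith
    have h5 : 0 ≤ a * (a + b) := by positivity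
    nlinarith [mul_le_mul_of_nonneg_left h4 h5]

/-- A change of time that turns a positive periodic speed into the unit speed. -/
lemma reparam (g : ℝ → ℝ) (hg : Continuous g) (hpos : ∀ t, 0 < g t) (P : ℝ) (hP : 0 < P)
    (hper : ∀ t, g (t + P) = g t) :
    ∃ (τ : ℝ → ℝ) (Q : ℝ), 0 < Q ∧ (∀ t, HasDerivAt τ (g (τ t))⁻¹ t) ∧
      ∀ t, τ (t + Q) = τ t + P := by
  have hint : ∀ a b, IntervalIntegrable g MeasureTheory.volume a b :=
    fun a b => hg.intervalIntegrable a b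
  set S : ℝ → ℝ := fun t => ∫ x in (0 : ℝ)..t, g x with hS
  have hd : ∀ t, HasDerivAt S (g t) t := fun t =>
    (hg.integral_hasStrictDerivAt 0 t).hasDerivAt
  have hmono : StrictMono S := strictMono_of_deriv_pos fun t => by rw [(hd t).deriv]; exact hpos t
  have hcont : Continuous S := continuous_iff_continuousAt.2 fun t => (hd t).continuousAt
  have hp : Function.Periodic g P := hper
  have hsurj : Function.Surjective S :=
    hcont.surjective (hp.tendsto_atTop_intervalIntegral_of_pos' (hint 0 P) hpos hP)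
      (hp.tendsto_atBot_intervalIntegral_of_pos' (hint 0 P) hpos hP)
  let e := hmono.orderIsoOfSurjective S hsurj
  have he : ∀ y, S (e.symm y) = y := fun y => e.apply_symm_apply y
  refine ⟨e.symm, S P, ?_, fun t => ?_, fun t => ?_⟩
  · exact intervalIntegral.intervalIntegral_pos_of_pos (hint 0 P) hpos hP
  · exact HasDerivAt.of_local_left_inverse e.symm.continuous.continuousAt (hd _) (hpos _).ne'
      (Eventually.of_forall he)
  · apply hmono.injective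
    rw [he]
    have := hp.intervalIntegral_add_eq_add 0 (e.symm t) hint
    simp only [zero_add] at this
    change _ = ∫ x in (0 : ℝ)..(e.symm t + P), g x
    rw [this]
    exact congrArg (· + S P) (he t).symm

variable {E : Type} [NormedAddCommGroup E] [InnerProductSpace ℝ E] [FiniteDimensional ℝ E]

/-- Collar coordinates around the level c of H. -/
structure Col (R : Ret E) (H β : E × E → ℝ) (c : ℝ) where
  Z : E × E → E × E
  Ψ : ℝ × (E × E) → E × E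
  T : E × E → ℝ
  U : Set (E × E)
  η : ℝ
  hZ : ContDiff ℝ ∞ Z
  hΨ : ContDiff ℝ ∞ Ψ
  zero : ∀ x, Ψ (0, x) = x
  der : ∀ t x, HasDerivAt (fun s => Ψ (s, x)) (Z (Ψ (t, x))) t
  add : ∀ s t x, Ψ (s + t, x) = Ψ (s, Ψ (t, x))
  mem : ∀ t, ∀ x ∈ Cot R.S, Ψ (t, x) ∈ Cot R.S
  hU : IsOpen U
  hT : ContDiffOn ℝ ∞ T U
  pos : 0 < η
  le_one : η ≤ 1
  lev : ∀ z ∈ U, H (Ψ (-T z, z)) = c
  tube : ∀ σ ∈ Cot R.S, H σ = c → ∀ s, |s| ≤ 2 * η → Ψ (s, σ) ∈ U ∧ T (Ψ (s, σ)) = s ∧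
    0 < fderiv ℝ H (Ψ (s, σ)) (Z (Ψ (s, σ))) ∧
    ∀ᶠ y in 𝓝 (Ψ (s, σ)), y ∈ Cot R.S → Z y ∈ Tan (Cot R.S) y ∧
      ∀ v ∈ Tan (Cot R.S) y, omega (Z y) v = ⟪y.2, v.1⟫_ℝ + fderiv ℝ β y v

/-- The differential of a flow. -/
lemma fderiv_flow {X : Type*} [NormedAddCommGroup X] [NormedSpace ℝ X] {Z : X → X}
    {Ψ : ℝ × X → X} (hΨ : ContDiff ℝ ∞ Ψ)
    (der : ∀ t x, HasDerivAt (fun s => Ψ (s, x)) (Z (Ψ (t, x))) t) (t : ℝ) (x : X) (a : ℝ) :
    fderiv ℝ Ψ (t, x) (a, 0) = a • Z (Ψ (t, x)) := by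
  have h1 : HasFDerivAt Ψ (fderiv ℝ Ψ (t, x)) (t, x) :=
    (hΨ.differentiable (by simp) _).hasFDerivAt
  have h2 : HasDerivAt (fun s : ℝ => (s, x)) ((1 : ℝ), (0 : X)) t :=
    (hasDerivAt_id t).prodMk (hasDerivAt_const t x)
  have h3 := (h1.comp_hasDerivAt t h2).unique (der t x)
  rw [← h3, ← map_smul]
  simp

theorem exists_col (R : Ret E) (H : E × E → ℝ) (hH : ContDiff ℝ ∞ H) (c : ℝ)
    (hV : IsCompact {z | z ∈ Cot R.S ∧ H z = c})
    (Y : E × E → E × E) (hY : ContDiff ℝ ∞ Y) (β : E × E → ℝ)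
    (W : Set (E × E)) (hW : IsOpen W) (hSW : ∀ z ∈ Cot R.S, H z = c → z ∈ W)
    (hL : ∀ z ∈ Cot R.S, z ∈ W → Y z ∈ Tan (Cot R.S) z ∧
      ∀ v ∈ Tan (Cot R.S) z, omega (Y z) v = ⟪z.2, v.1⟫_ℝ + fderiv ℝ β z v)
    (hout : ∀ z ∈ Cot R.S, H z = c → 0 < fderiv ℝ H z (Y z)) :
    Nonempty (Col R H β c) := by
  set K := {z | z ∈ Cot R.S ∧ H z = c} with hK
  obtain ⟨χ, hχ, hχc, -, -, hχ1⟩ := exists_bump K W hV hW fun z hz => hSW z hz.1 hz.2
  have hg : ContDiff ℝ ∞ fun z => χ z • Y z := hχ.smul hY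
  set Z : E × E → E × E := fun z => fderiv ℝ R.hat.r z (χ z • Y z) with hZdef
  have hZ : ContDiff ℝ ∞ Z :=
    (R.hat.smooth.fderiv_right (m := ∞) (by simp)).clm_apply hg
  have hZc : HasCompactSupport Z := by
    refine hχc.mono fun z hz h => hz ?_
    simp [hZdef, h]
  obtain ⟨L, hLip⟩ := hZ.lipschitzWith_of_hasCompactSupport hZc (by simp)
  obtain ⟨Ψ, hΨ, h0, hd, hadd⟩ := exists_flow Z hZ L hLip
  have hmem : ∀ t, ∀ x ∈ Cot R.S, Ψ (t, x) ∈ Cot R.S := fun t x hx =>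
    R.hat.inv_global (fun s => Ψ (s, x)) (fun s => χ (Ψ (s, x)) • Y (Ψ (s, x)))
      (hg.continuous.comp (hΨ.continuous.comp (continuous_id.prodMk continuous_const)))
      (fun s => hd s x) (by rw [h0]; exact hx) t
  have hZY : ∀ y ∈ Cot R.S, y ∈ W → χ y = 1 → Z y = Y y := fun y hy hyW h1 => by
    simp only [hZdef, h1, one_smul]
    exact (R.hat.tan_iff hy _).1 (hL y hy hyW).1
  have hm : ContDiff ℝ ∞ fun p : (E × E) × ℝ => (-p.2, p.1) :=
    contDiff_snd.neg.prodMk contDiff_fst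
  have hG : ContDiff ℝ ∞ fun p : (E × E) × ℝ => H (Ψ (-p.2, p.1)) - c :=
    (hH.comp (hΨ.comp hm)).sub contDiff_const
  obtain ⟨U, W', T, hU, -, hW', -, hKW', hT, hlev, huniq⟩ :=
    implicit_compact (fun p : (E × E) × ℝ => H (Ψ (-p.2, p.1)) - c) univ isOpen_univ
      hG.contDiffOn K hV (fun _ => 0) continuousOn_const (fun _ _ => mem_univ _)
      (fun k hk => by simp [h0, hk.2]) (fun k hk v hv => by
        have e1 : HasFDerivAt (fun p : (E × E) × ℝ => (-p.2, p.1))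
            ((-ContinuousLinearMap.snd ℝ (E × E) ℝ).prod (ContinuousLinearMap.fst ℝ (E × E) ℝ))
            (k, 0) := hasFDerivAt_snd.neg.prodMk hasFDerivAt_fst
        have e2 : HasFDerivAt Ψ (fderiv ℝ Ψ (0, k)) (-(0 : ℝ), k) := by
          rw [neg_zero]; exact (hΨ.differentiable (by simp) _).hasFDerivAt
        have e3 : HasFDerivAt H (fderiv ℝ H k) (Ψ (-(0 : ℝ), k)) := by
          rw [neg_zero, h0]; exact (hH.differentiable (by simp) _).hasFDerivAt
        have e4 := (e3.comp (k, (0 : ℝ)) (e2.comp (k, (0 : ℝ)) e1)).sub_const c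
        have e5 : fderiv ℝ (fun p : (E × E) × ℝ => H (Ψ (-p.2, p.1)) - c) (k, 0) = _ := e4.fderiv
        rw [e5] at hv
        simp only [ContinuousLinearMap.comp_apply, ContinuousLinearMap.prod_apply,
          neg_apply, ContinuousLinearMap.coe_snd',
          ContinuousLinearMap.coe_fst'] at hv
        rw [fderiv_flow hΨ hd, h0, map_smul,
          hZY k hk.1 (hSW k hk.1 hk.2) (hχ1.self_of_nhdsSet k hk)] at hv
        have := hout k hk.1 hk.2
        simpa [this.ne'] using hv)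
  have hc1 : Continuous fun y => fderiv ℝ H y (Z y) :=
    (hH.continuous_fderiv (by simp)).clm_apply hZ.continuous
  have hev : ∀ᶠ s in 𝓝 (0 : ℝ), ∀ σ ∈ K, (Ψ (s, σ), s) ∈ W' ∧
      0 < fderiv ℝ H (Ψ (s, σ)) (Z (Ψ (s, σ))) ∧ ∀ᶠ y in 𝓝 (Ψ (s, σ)), y ∈ W ∧ χ y = 1 := by
    refine hV.eventually_forall_of_forall_eventually fun σ hσ => ?_
    have ht : Tendsto Ψ (𝓝 (0, σ)) (𝓝 σ) := by
      have := hΨ.continuous.tendsto (0, σ)
      rwa [h0] at this
    have a1 : ∀ᶠ z : ℝ × (E × E) in 𝓝 (0, σ), (Ψ z, z.1) ∈ W' :=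
      (ht.prodMk_nhds (continuous_fst.tendsto _)).eventually (hW'.mem_nhds (hKW' σ hσ))
    have a2 : ∀ᶠ y in 𝓝 σ, 0 < fderiv ℝ H y (Z y) := by
      refine (hc1.tendsto σ).eventually (lt_mem_nhds ?_)
      rw [hZY σ hσ.1 (hSW σ hσ.1 hσ.2) (hχ1.self_of_nhdsSet σ hσ)]
      exact hout σ hσ.1 hσ.2
    have a3 : ∀ᶠ y in 𝓝 σ, y ∈ W ∧ χ y = 1 :=
      (Filter.Eventually.and (hW.mem_nhds (hSW σ hσ.1 hσ.2)) (hχ1.filter_mono (nhds_le_nhdsSet hσ)))
    exact a1.and ((ht.eventually a2).and (ht.eventually a3.eventually_nhds))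
  obtain ⟨δ, hδ, hball⟩ := Metric.eventually_nhds_iff.1 hev
  refine ⟨⟨Z, Ψ, T, U, min (δ / 4) 1, hZ, hΨ, h0, hd, hadd, hmem, hU, hT, by positivity,
    min_le_right _ _, fun z hz => sub_eq_zero.1 (hlev z hz).2, fun σ hσ hc s hs => ?_⟩⟩
  have hs' : dist s 0 < δ := by
    rw [Real.dist_eq, sub_zero]
    have := min_le_left (δ / 4) 1
    linarith
  obtain ⟨b1, b2, b3⟩ := hball hs' σ ⟨hσ, hc⟩
  obtain ⟨c1, c2⟩ := huniq _ _ b1 (by simp [← hadd, h0, hc])
  refine ⟨c1, c2.symm, b2, ?_⟩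
  filter_upwards [b3] with y hy hyS
  rw [hZY y hyS hy.1 hy.2]
  exact hL y hyS hy.1

end Pool.Agent.Wein
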