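import Mathlib
import Pool.Agent.P.MP_e3ee0c_gt.WCollarA

/-! The flow of the Liouville field is conformal in the collar; the collar Hamiltonian. -/

open Set Filter Topology
open scoped ContDiff InnerProductSpace

namespace Pool.Agent.Wein

lemma lie_aux {X : Type*} [NormedAddCommGroup X] [NormedSpace ℝ X] (G : GRet X)
    (lam : X →L[ℝ] X →L[ℝ] ℝ) {Z : X → X} (hZ : ContDiff ℝ ∞ Z) {β : X → ℝ}
    (hβ : ContDiff ℝ ∞ β) {x : X} (hx : x ∈ G.S)
    (h : ∀ᶠ y in 𝓝 x, y ∈ G.S → ∀ v ∈ Tan G.S y,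
      lam (Z y) v - lam v (Z y) = lam y v + fderiv ℝ β y v)
    {u v : X} (hu : u ∈ Tan G.S x) (hv : v ∈ Tan G.S x) :
    lam (fderiv ℝ Z x u) v - lam v (fderiv ℝ Z x u) +
      (lam u (fderiv ℝ Z x v) - lam (fderiv ℝ Z x v) u) = lam u v - lam v u := by
  have hZx : HasFDerivAt Z (fderiv ℝ Z x) x := (hZ.differentiable (by simp) x).hasFDerivAt
  have hβx : HasFDerivAt (fderiv ℝ β) (fderiv ℝ (fderiv ℝ β) x) x :=
    ((hβ.fderiv_right (m := ∞) (by simp)).differentiable (by simp) x).hasFDerivAt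
  obtain ⟨B, hB⟩ : ∃ B : X →L[ℝ] X →L[ℝ] ℝ, ∀ a b, B a b = lam a b - lam b a :=
    ⟨lam - lam.flip, fun _ _ => rfl⟩
  have hα1 : HasFDerivAt (fun y => B (Z y)) (B.comp (fderiv ℝ Z x)) x :=
    HasFDerivAt.comp x (g := fun y => B y) B.hasFDerivAt hZx
  have hα2 : HasFDerivAt (fun y => lam y) lam x := lam.hasFDerivAt
  have hα : HasFDerivAt (fun y => B (Z y) - lam y - fderiv ℝ β y)
      (B.comp (fderiv ℝ Z x) - lam - fderiv ℝ (fderiv ℝ β) x) x :=
    HasFDerivAt.fun_sub (F := X →L[ℝ] ℝ) (HasFDerivAt.fun_sub (F := X →L[ℝ] ℝ) hα1 hα2) hβx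
  have key := G.dclosed _ hx hα.differentiableAt (by
    filter_upwards [h] with y hy hyS w hw
    change B (Z y) w - lam y w - fderiv ℝ β y w = 0
    rw [hB, hy hyS w hw]
    ring) hu hv
  rw [hα.fderiv] at key
  have hs := (hβ.contDiffAt (x := x)).isSymmSndFDerivAt
    (by simp only [minSmoothness_of_isRCLikeNormedField]; exact WithTop.coe_le_coe.2 le_top)
  have hs' := hs.eq u v
  change B (fderiv ℝ Z x u) v - lam u v - fderiv ℝ (fderiv ℝ β) x u v =
    B (fderiv ℝ Z x v) u - lam v u - fderiv ℝ (fderiv ℝ β) x v u at key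
  rw [hB, hB] at key
  linarith

variable {E : Type} [NormedAddCommGroup E] [InnerProductSpace ℝ E]

lemma exists_lam : ∃ lam : (E × E) →L[ℝ] (E × E) →L[ℝ] ℝ, ∀ y v, lam y v = ⟪y.2, v.1⟫_ℝ :=
  ⟨ContinuousLinearMap.bilinearComp (innerSL ℝ : E →L[ℝ] E →L[ℝ] ℝ)
    (ContinuousLinearMap.snd ℝ E E) (ContinuousLinearMap.fst ℝ E E), fun _ _ => rfl⟩

lemma omega_self (v : E × E) : omega v v = 0 := by simp [omega]

lemma omega_swap (u v : E × E) : omega u v = -omega v u := by simp [omega]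

lemma omega_smul_left (a : ℝ) (u v : E × E) : omega (a • u) v = a * omega u v := by
  simp [omega, inner_smul_left, inner_smul_right, mul_sub]

lemma omega_der {a b : ℝ → E × E} {a' b' : E × E} {t : ℝ} (ha : HasDerivAt a a' t)
    (hb : HasDerivAt b b' t) :
    HasDerivAt (fun s => omega (a s) (b s)) (omega a' (b t) + omega (a t) b') t := by
  have a1 : HasDerivAt (fun s => (a s).1) a'.1 t :=
    (ContinuousLinearMap.fst ℝ E E).hasFDerivAt.comp_hasDerivAt (f := a) t ha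
  have a2 : HasDerivAt (fun s => (a s).2) a'.2 t :=
    (ContinuousLinearMap.snd ℝ E E).hasFDerivAt.comp_hasDerivAt (f := a) t ha
  have b1 : HasDerivAt (fun s => (b s).1) b'.1 t :=
    (ContinuousLinearMap.fst ℝ E E).hasFDerivAt.comp_hasDerivAt (f := b) t hb
  have b2 : HasDerivAt (fun s => (b s).2) b'.2 t :=
    (ContinuousLinearMap.snd ℝ E E).hasFDerivAt.comp_hasDerivAt (f := b) t hb
  refine ((a2.inner ℝ b1).sub (b2.inner ℝ a1)).congr_deriv ?_
  simp only [omega]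
  ring

/-- The Lie derivative of the symplectic form along a Liouville field. -/
lemma omega_lie (R : Ret E) {Z : E × E → E × E} (hZ : ContDiff ℝ ∞ Z) {β : E × E → ℝ}
    (hβ : ContDiff ℝ ∞ β) {x : E × E} (hx : x ∈ Cot R.S)
    (h : ∀ᶠ y in 𝓝 x, y ∈ Cot R.S → Z y ∈ Tan (Cot R.S) y ∧
      ∀ v ∈ Tan (Cot R.S) y, omega (Z y) v = ⟪y.2, v.1⟫_ℝ + fderiv ℝ β y v)
    {u v : E × E} (hu : u ∈ Tan (Cot R.S) x) (hv : v ∈ Tan (Cot R.S) x) :
    omega (fderiv ℝ Z x u) v + omega u (fderiv ℝ Z x v) = omega u v := by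
  obtain ⟨lam, hlam⟩ := exists_lam (E := E)
  have := lie_aux R.hat lam hZ hβ hx (by
    filter_upwards [h] with y hy hyS w hw
    rw [hlam, hlam, hlam]
    exact (hy hyS).2 w hw) hu hv
  simpa only [hlam, omega] using this

lemma orbit_tan {N : Set E} {F : E × E → ℝ} {z : ℝ → E × E} (hz : IsOrbit N F z) {t : ℝ}
    {v : E × E} (hv : HasDerivAt z v t) : v ∈ Tan (Cot N) (z t) :=
  Tan.of_hasDerivAt hv (Eventually.of_forall fun s => (hz s).1)

lemma orbit_const {N : Set E} {F : E × E → ℝ} (hF : Differentiable ℝ F) {z : ℝ → E × E}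
    (hz : IsOrbit N F z) (t : ℝ) : F (z t) = F (z 0) := by
  have h : ∀ s, HasDerivAt (fun s => F (z s)) 0 s := fun s => by
    obtain ⟨v, hv, ho⟩ := (hz s).2
    have h1 := ho v (orbit_tan hz hv)
    rw [omega_self, eq_comm, neg_eq_zero] at h1
    exact h1 ▸ (hF (z s)).hasFDerivAt.comp_hasDerivAt s hv
  exact is_const_of_deriv_eq_zero (fun s => (h s).differentiableAt) (fun s => (h s).deriv) t 0

variable [FiniteDimensional ℝ E]

namespace Col

variable {R : Ret E} {H β : E × E → ℝ} {c : ℝ} (C : Col R H β c)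

omit [FiniteDimensional ℝ E] in
lemma slice (t : ℝ) (x : E × E) : HasFDerivAt (fun y => C.Ψ (t, y))
    ((fderiv ℝ C.Ψ (t, x)).comp (ContinuousLinearMap.inr ℝ ℝ (E × E))) x :=
  (C.hΨ.differentiable (by simp) _).hasFDerivAt.comp x (hasFDerivAt_prodMk_right t x)

omit [FiniteDimensional ℝ E] in
lemma tan (t : ℝ) {x v : E × E} (hv : v ∈ Tan (Cot R.S) x) :
    fderiv ℝ C.Ψ (t, x) (0, v) ∈ Tan (Cot R.S) (C.Ψ (t, x)) := by
  have := Tan.map (S' := Cot R.S) hv (C.slice t x).differentiableAt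
    (Eventually.of_forall fun y hy => C.mem t y hy)
  rwa [(C.slice t x).fderiv] at this

omit [FiniteDimensional ℝ E] in
lemma fderiv_zero (x : E × E) (a : ℝ) (v : E × E) :
    fderiv ℝ C.Ψ (0, x) (a, v) = a • C.Z x + v := by
  have h1 := C.slice 0 x
  have h2 : (fun y => C.Ψ (0, y)) = id := funext C.zero
  rw [h2] at h1
  have h3 := congrArg (fun L => L v) (h1.unique (hasFDerivAt_id x))
  have h4 : (a, v) = (a, (0 : E × E)) + (0, v) := by simp
  rw [h4, map_add, fderiv_flow C.hΨ C.der, C.zero]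
  simpa using h3

/-- The flow is conformally symplectic in the collar. -/
lemma conf (hβ : ContDiff ℝ ∞ β) {σ : E × E} (hσ : σ ∈ Cot R.S) (hc : H σ = c) {a b : E × E}
    (ha : a ∈ Tan (Cot R.S) σ) (hb : b ∈ Tan (Cot R.S) σ) {s : ℝ} (h0 : 0 ≤ s)
    (h1 : s ≤ 2 * C.η) :
    Real.exp (-s) * omega (fderiv ℝ C.Ψ (s, σ) (0, a)) (fderiv ℝ C.Ψ (s, σ) (0, b)) =
      omega a b := by
  have hd : ∀ t ∈ Icc 0 s, HasDerivAt (fun t => Real.exp (-t) *
      omega (fderiv ℝ C.Ψ (t, σ) (0, a)) (fderiv ℝ C.Ψ (t, σ) (0, b))) 0 t := fun t ht => by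
    have e1 := flow_var C.Z C.hZ C.Ψ C.hΨ C.der σ a t
    have e2 := flow_var C.Z C.hZ C.Ψ C.hΨ C.der σ b t
    have e3 := omega_lie R C.hZ hβ (C.mem t σ hσ)
      (C.tube σ hσ hc t (by rw [abs_of_nonneg ht.1]; exact ht.2.trans h1)).2.2.2
      (C.tan t ha) (C.tan t hb)
    have e4 := ((hasDerivAt_neg t).exp).mul (omega_der e1 e2)
    refine e4.congr_deriv ?_
    rw [e3]
    ring
  have := constant_of_has_deriv_right_zero
    (fun t ht => (hd t ht).continuousAt.continuousWithinAt)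
    (fun t ht => (hd t (Ico_subset_Icc_self ht)).hasDerivWithinAt) s ⟨h0, le_rfl⟩
  simpa [C.fderiv_zero] using this

omit [FiniteDimensional ℝ E] in
lemma mono (hH : ContDiff ℝ ∞ H) {σ : E × E} (hσ : σ ∈ Cot R.S) (hc : H σ = c) :
    StrictMonoOn (fun s => H (C.Ψ (s, σ))) (Icc (-(2 * C.η)) (2 * C.η)) := by
  have hd : ∀ s, HasDerivAt (fun s => H (C.Ψ (s, σ)))
      (fderiv ℝ H (C.Ψ (s, σ)) (C.Z (C.Ψ (s, σ)))) s := fun s =>
    (hH.differentiable (by simp) _).hasFDerivAt.comp_hasDerivAt s (C.der s σ)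
  refine strictMonoOn_of_deriv_pos (convex_Icc _ _)
    (fun s _ => (hd s).continuousAt.continuousWithinAt) fun s hs => ?_
  rw [(hd s).deriv]
  exact (C.tube σ hσ hc s (abs_le.2 (mem_Icc.1 (interior_subset hs)))).2.2.1

omit [FiniteDimensional ℝ E] in
lemma cancel (s : ℝ) (y : E × E) : C.Ψ (s, C.Ψ (-s, y)) = y := by
  rw [← C.add, add_neg_cancel, C.zero]

omit [FiniteDimensional ℝ E] in
lemma sign (hH : ContDiff ℝ ∞ H) {y : E × E} (hy : y ∈ Cot R.S) (hU : y ∈ C.U)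
    (hT : |C.T y| < 2 * C.η) : H y ≤ c ↔ C.T y ≤ 0 := by
  have hp := C.pos
  have := (C.mono hH (C.mem (-C.T y) y hy) (C.lev y hU)).le_iff_le (a := C.T y) (b := 0)
    (abs_le.1 hT.le) ⟨by linarith, by linarith⟩
  simpa only [C.cancel, C.zero, C.lev y hU] using this

/-- The closed collar. -/
def K : Set (E × E) := C.Ψ '' (Icc 0 C.η ×ˢ {σ | σ ∈ Cot R.S ∧ H σ = c})

omit [FiniteDimensional ℝ E] in
lemma K_compact (hK : IsCompact {σ | σ ∈ Cot R.S ∧ H σ = c}) : IsCompact C.K :=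
  (isCompact_Icc.prod hK).image C.hΨ.continuous

omit [FiniteDimensional ℝ E] in
lemma of_mem_K {y : E × E} (hy : y ∈ C.K) : y ∈ C.U ∧ |C.T y| < 2 * C.η := by
  obtain ⟨⟨s, σ⟩, ⟨hs, hσ⟩, rfl⟩ := hy
  have hp := C.pos
  have h1 : |s| < 2 * C.η := by rw [abs_of_nonneg hs.1]; linarith [hs.2]
  obtain ⟨a, b, -⟩ := C.tube σ hσ.1 hσ.2 s h1.le
  exact ⟨a, by rwa [b]⟩

omit [FiniteDimensional ℝ E] in
lemma isOpen_box : IsOpen {y | y ∈ C.U ∧ |C.T y| < 2 * C.η} :=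
  C.hT.continuousOn.abs.isOpen_inter_preimage C.hU isOpen_Iio

/-- The collar Hamiltonian. -/
lemma exists_F (hH : ContDiff ℝ ∞ H) (hK : IsCompact {σ | σ ∈ Cot R.S ∧ H σ = c}) :
    ∃ F : E × E → ℝ, ContDiff ℝ ∞ F ∧ ∀ y ∈ Cot R.S, (H y ≤ c → F y = 0) ∧
      (y ∈ C.U ∧ |C.T y| < 2 * C.η → F y = Real.smoothTransition (C.T y / C.η)) ∧
      (c < H y ∧ y ∉ C.K → F y = 1) := by
  have hp := C.pos
  have i1 : ∀ y ∈ Cot R.S, y ∈ C.U ∧ |C.T y| < 2 * C.η → H y ≤ c →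
      Real.smoothTransition (C.T y / C.η) = 0 := fun y hy hb h =>
    Real.smoothTransition.zero_of_nonpos
      (div_nonpos_of_nonpos_of_nonneg ((C.sign hH hy hb.1 hb.2).1 h) hp.le)
  have i2 : ∀ y ∈ Cot R.S, y ∈ C.U ∧ |C.T y| < 2 * C.η → c < H y ∧ y ∉ C.K →
      Real.smoothTransition (C.T y / C.η) = 1 := fun y hy hb h => by
    refine Real.smoothTransition.one_of_one_le ((one_le_div hp).2 ?_)
    by_contra hlt
    have h0 : 0 ≤ C.T y := by
      by_contra h0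
      exact absurd ((C.sign hH hy hb.1 hb.2).2 (not_le.1 h0).le) (not_le.2 h.1)
    exact h.2 ⟨(C.T y, C.Ψ (-C.T y, y)),
      ⟨⟨h0, (not_le.1 hlt).le⟩, C.mem _ y hy, C.lev y hb.1⟩, C.cancel _ _⟩
  have hcv : ∀ (p : Prop) (k : ℝ), Convex ℝ {v : ℝ | p → v = k} := fun p k => by
    by_cases h : p
    · simp [h]
    · simpa [h] using convex_univ
  obtain ⟨F, hF⟩ := exists_contMDiffMap_forall_mem_convex_of_local
    (modelWithCornersSelf ℝ (E × E)) (n := ⊤)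
    (t := fun y => {v : ℝ | y ∈ Cot R.S ∧ H y ≤ c → v = 0} ∩
      ({v : ℝ | y ∈ Cot R.S ∧ (y ∈ C.U ∧ |C.T y| < 2 * C.η) →
        v = Real.smoothTransition (C.T y / C.η)} ∩
      {v : ℝ | y ∈ Cot R.S ∧ (c < H y ∧ y ∉ C.K) → v = 1}))
    (fun y => (hcv _ _).inter ((hcv _ _).inter (hcv _ _))) (fun x => by
      by_cases hx : x ∈ Cot R.S
      swap
      · exact ⟨(Cot R.S)ᶜ, R.hat.closed.isOpen_compl.mem_nhds hx, fun _ => 0, contMDiffOn_const,
          fun y hy => ⟨fun h => rfl, fun h => absurd h.1 hy, fun h => absurd h.1 hy⟩⟩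
      by_cases hb : x ∈ C.U ∧ |C.T x| < 2 * C.η
      · refine ⟨_, C.isOpen_box.mem_nhds hb, fun y => Real.smoothTransition (C.T y / C.η),
          ?_, fun y hy => ⟨fun h => i1 y h.1 hy h.2, fun _ => rfl, fun h => i2 y h.1 hy h.2⟩⟩
        exact ((Real.smoothTransition.contDiff.comp_contDiffOn
          (C.hT.div_const C.η)).mono fun y hy => hy.1).contMDiffOn
      rcases lt_trichotomy (H x) c with h | h | h
      · exact ⟨{y | H y < c}, (isOpen_lt hH.continuous continuous_const).mem_nhds h, fun _ => 0,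
          contMDiffOn_const, fun y hy => ⟨fun _ => rfl, fun h => (i1 y h.1 h.2 hy.le).symm,
            fun h => absurd h.2.1 (not_lt.2 hy.le)⟩⟩
      · exact absurd (C.of_mem_K ⟨(0, x), ⟨⟨le_rfl, hp.le⟩, hx, h⟩, C.zero x⟩) hb
      · exact ⟨{y | c < H y ∧ y ∉ C.K},
          ((isOpen_lt continuous_const hH.continuous).inter
            (C.K_compact hK).isClosed.isOpen_compl).mem_nhds ⟨h, fun hk => hb (C.of_mem_K hk)⟩,
          fun _ => 1, contMDiffOn_const, fun y hy => ⟨fun h => absurd hy.1 (not_lt.2 h.2),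
            fun h => (i2 y h.1 h.2 hy).symm, fun _ => rfl⟩⟩)
  exact ⟨F, F.contMDiff.contDiff, fun y hy => ⟨fun h => (hF y).1 ⟨hy, h⟩,
    fun h => (hF y).2.1 ⟨hy, h⟩, fun h => (hF y).2.2 ⟨hy, h⟩⟩⟩

omit [FiniteDimensional ℝ E] in
lemma T_diff {y : E × E} (hy : y ∈ C.U) : HasFDerivAt C.T (fderiv ℝ C.T y) y :=
  ((C.hT.contDiffAt (C.hU.mem_nhds hy)).differentiableAt (by simp)).hasFDerivAt

omit [FiniteDimensional ℝ E] in
lemma dT_Z {σ : E × E} (hσ : σ ∈ Cot R.S) (hc : H σ = c) {s : ℝ} (hs : |s| < 2 * C.η) :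
    fderiv ℝ C.T (C.Ψ (s, σ)) (C.Z (C.Ψ (s, σ))) = 1 := by
  have h1 := (C.T_diff (C.tube σ hσ hc s hs.le).1).comp_hasDerivAt s (C.der s σ)
  refine h1.unique ((hasDerivAt_id s).congr_of_eventuallyEq ?_)
  filter_upwards [(isOpen_lt continuous_abs continuous_const).mem_nhds hs] with t ht
  exact (C.tube σ hσ hc t (le_of_lt ht)).2.1

omit [FiniteDimensional ℝ E] in
lemma dH_eq (hH : ContDiff ℝ ∞ H) {σ : E × E} (hσ : σ ∈ Cot R.S) (hc : H σ = c) {s : ℝ}
    (hs : |s| ≤ 2 * C.η) (u : E × E) : fderiv ℝ H σ u =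
      fderiv ℝ C.T (C.Ψ (s, σ)) (fderiv ℝ C.Ψ (s, σ) (0, u)) * fderiv ℝ H σ (C.Z σ) := by
  obtain ⟨hU, hT, -⟩ := C.tube σ hσ hc s hs
  have e1 := ((((C.T_diff hU).comp σ (C.slice s σ)).neg).add_const s).prodMk (hasFDerivAt_id σ)
  have e2 : HasFDerivAt C.Ψ (fderiv ℝ C.Ψ (0, σ)) (-C.T (C.Ψ (s, σ)) + s, σ) := by
    rw [hT, neg_add_cancel]; exact (C.hΨ.differentiable (by simp) _).hasFDerivAt
  have e3 : HasFDerivAt H (fderiv ℝ H σ) (C.Ψ (-C.T (C.Ψ (s, σ)) + s, σ)) := by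
    rw [hT, neg_add_cancel, C.zero]; exact (hH.differentiable (by simp) _).hasFDerivAt
  have e4 := HasFDerivAt.comp σ (f := fun x => C.Ψ (-C.T (C.Ψ (s, x)) + s, x)) e3
    (HasFDerivAt.comp σ (f := fun x => (-C.T (C.Ψ (s, x)) + s, x)) e2 e1)
  have e5 : HasFDerivAt (fun _ : E × E => c) _ σ := e4.congr_of_eventuallyEq (by
    filter_upwards [(C.slice s σ).continuousAt.eventually (C.hU.mem_nhds hU)] with x hx
    simp only [Function.comp, C.add]
    exact (C.lev _ hx).symm)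
  have e6 := congrArg (fun L => L u) (e5.unique (hasFDerivAt_const c σ))
  simp only [ContinuousLinearMap.comp_apply, ContinuousLinearMap.prod_apply, neg_apply,
    ContinuousLinearMap.inr_apply, ContinuousLinearMap.id_apply, C.fderiv_zero, map_add,
    map_smul, smul_eq_mul, zero_apply] at e6
  linarith

end Col

end Pool.Agent.Wein
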