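import Mathlib
import Pool.Agent.P.MP_e3ee0c_gt.WCollarB

/-! The action gap of the collar Hamiltonian, and the way back to the level of H. -/

open Set Filter Topology
open scoped ContDiff InnerProductSpace

namespace Pool.Agent.Wein

lemma st_strict : StrictMonoOn Real.smoothTransition (Ioo 0 1) :=
  strictMonoOn_of_deriv_pos (convex_Ioo _ _) Real.smoothTransition.continuous.continuousOn
    fun x hx => by
      have hx' : x ∈ Ioo (0 : ℝ) 1 := interior_subset hx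
      obtain ⟨d, h, hd, -⟩ := st_deriv hx'.1 hx'.2
      rwa [h.deriv]

variable {E : Type} [NormedAddCommGroup E] [InnerProductSpace ℝ E]

namespace Col

variable {R : Ret E} {H β : E × E → ℝ} {c : ℝ} (C : Col R H β c)

/-- F is a collar Hamiltonian. -/
def IsF (F : E × E → ℝ) : Prop :=
  ContDiff ℝ ∞ F ∧ ∀ y ∈ Cot R.S, (H y ≤ c → F y = 0) ∧
    (y ∈ C.U ∧ |C.T y| < 2 * C.η → F y = Real.smoothTransition (C.T y / C.η)) ∧
    (c < H y ∧ y ∉ C.K → F y = 1)

variable {C} {F : E × E → ℝ}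

lemma IsF.mid (hF : C.IsF F) {y : E × E} (hy : y ∈ Cot R.S) (h0 : F y ≠ 0) (h1 : F y ≠ 1) :
    ∃ s σ, σ ∈ Cot R.S ∧ H σ = c ∧ 0 < s ∧ s < C.η ∧ y = C.Ψ (s, σ) ∧
      F y = Real.smoothTransition (s / C.η) := by
  obtain ⟨a, b, d⟩ := hF.2 y hy
  have hp := C.pos
  have hc : c < H y := not_le.1 fun h => h0 (a h)
  have hK : y ∈ C.K := by_contra fun h => h1 (d ⟨hc, h⟩)
  have hb := b (C.of_mem_K hK)
  obtain ⟨⟨s, σ⟩, ⟨hs, hσ⟩, rfl⟩ := hK
  rw [(C.tube σ hσ.1 hσ.2 s (by rw [abs_of_nonneg hs.1]; linarith [hs.2])).2.1] at hb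
  refine ⟨s, σ, hσ.1, hσ.2, ?_, ?_, rfl, hb⟩
  · rw [hb, Ne, Real.smoothTransition.zero_iff_nonpos, not_le] at h0
    exact (div_pos_iff_of_pos_right hp).1 h0
  · rw [hb, Ne, Real.smoothTransition.eq_one_iff_one_le, not_le] at h1
    exact (div_lt_one hp).1 h1

lemma IsF.bounds (hF : C.IsF F) {y : E × E} (hy : y ∈ Cot R.S) : 0 ≤ F y ∧ F y ≤ 1 := by
  by_cases h0 : F y = 0
  · simp [h0]
  by_cases h1 : F y = 1
  · simp [h1]
  obtain ⟨s, σ, -, -, -, -, -, h⟩ := hF.mid hy h0 h1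
  rw [h]
  exact ⟨Real.smoothTransition.nonneg _, Real.smoothTransition.le_one _⟩

lemma IsF.dF (hF : C.IsF F) {σ : E × E} (hσ : σ ∈ Cot R.S) (hc : H σ = c) {s : ℝ} (h0 : 0 < s)
    (h1 : s < C.η) {u : E × E} (hu : u ∈ Tan (Cot R.S) (C.Ψ (s, σ))) :
    fderiv ℝ F (C.Ψ (s, σ)) u =
      deriv Real.smoothTransition (s / C.η) / C.η * fderiv ℝ C.T (C.Ψ (s, σ)) u := by
  have hp := C.pos
  have hs : |s| < 2 * C.η := by rw [abs_of_pos h0]; linarith
  obtain ⟨hU, hT, -⟩ := C.tube σ hσ hc s hs.le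
  have e1 : HasDerivAt Real.smoothTransition (deriv Real.smoothTransition (s / C.η))
      (C.T (C.Ψ (s, σ)) / C.η) := by
    rw [hT]
    exact ((Real.smoothTransition.contDiff (n := 1)).differentiable (by simp) _).hasDerivAt
  have e2 := HasDerivAt.comp_hasFDerivAt (C.Ψ (s, σ)) (f := fun y => C.T y / C.η) e1
    ((C.T_diff hU).mul_const C.η⁻¹)
  rw [Tan.fderiv_congr hu (hF.1.differentiable (by simp) _) e2.differentiableAt (by
    filter_upwards [C.isOpen_box.mem_nhds ⟨hU, by rwa [hT]⟩] with y hy hyS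
    exact (hF.2 y hyS).2.1 hy), e2.fderiv]
  simp only [smul_apply, smul_eq_mul]
  ring

lemma IsF.gap (hF : C.IsF F) (hβ : ContDiff ℝ ∞ β) {M : ℝ} (hM0 : 0 ≤ M)
    (hM : ∀ y ∈ C.K, |β y| ≤ M) (z : ℝ → E × E) (A : ℝ → ℝ) (hz : IsOrbit R.S F z)
    (hA : ∀ t, HasDerivAt A (⟪(z t).2, (deriv z t).1⟫_ℝ - F (z t)) t) (hκ : F (z 0) < 1 / 2)
    (s : ℝ) (hs : 0 ≤ s) : -(2 * M) ≤ A s - A 0 := by
  have hFd : Differentiable ℝ F := hF.1.differentiable (by simp)
  have hp := C.pos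
  by_cases h0 : F (z 0) = 0
  · have h : ∀ t, HasDerivAt A 0 t := fun t => by
      obtain ⟨v, hv, ho⟩ := (hz t).2
      have ht : F (z t) = 0 := (orbit_const hFd hz t).trans h0
      have : v = 0 := R.omega_nondeg (hz t).1 (orbit_tan hz hv) fun u hu => by
        rw [ho u hu, Tan.fderiv_eq_zero hu (hFd _)
          (Or.inl (Eventually.of_forall fun y hy => ht ▸ (hF.bounds hy).1)), neg_zero]
      simpa [hv.deriv, this, ht] using hA t
    rw [is_const_of_deriv_eq_zero (fun s => (h s).differentiableAt) (fun s => (h s).deriv) s 0]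
    linarith
  have hmid := fun t => hF.mid (hz t).1 (by rwa [orbit_const hFd hz t])
    (by rw [orbit_const hFd hz t]; linarith)
  have hK : ∀ t, z t ∈ C.K := fun t => by
    obtain ⟨r, σ, a1, a2, a3, a4, a5, -⟩ := hmid t
    exact ⟨(r, σ), ⟨⟨a3.le, a4.le⟩, a1, a2⟩, a5.symm⟩
  have h : ∀ t, ∃ d, 0 ≤ d ∧ HasDerivAt (fun t => A t + β (z t)) d t := fun t => by
    obtain ⟨v, hv, ho⟩ := (hz t).2
    obtain ⟨r, σ, a1, a2, a3, a4, a5, a6⟩ := hmid t
    have hr : |r| < 2 * C.η := by rw [abs_of_pos a3]; linarith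
    have hv' := orbit_tan hz hv
    have b1 := (C.tube σ a1 a2 r hr.le).2.2.2.self_of_nhds (C.mem r σ a1)
    have b2 := hF.dF a1 a2 a3 a4 b1.1
    rw [C.dT_Z a1 a2 hr, mul_one] at b2
    rw [← a5] at b1 b2
    have b3 := b1.2 v hv'
    rw [omega_swap, ho _ b1.1, neg_neg, b2] at b3
    refine ⟨_, ?_, (hA t).add
      ((hβ.differentiable (by simp) _).hasFDerivAt.comp_hasDerivAt t hv)⟩
    obtain ⟨d, c1, c2, c3⟩ := st_deriv (div_pos a3 hp) ((div_lt_one hp).2 a4)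
    rw [c1.deriv] at b3
    rw [← a6, orbit_const hFd hz t] at c3
    have c4 : d ≤ d / C.η := le_div_self c2.le hp C.le_one
    rw [hv.deriv, orbit_const hFd hz t]
    linarith [c3 hκ.le]
  choose d hd0 hd using h
  have hmono : Monotone fun t => A t + β (z t) :=
    monotone_of_deriv_nonneg (fun t => (hd t).differentiableAt) fun t => by
      rw [(hd t).deriv]; exact hd0 t
  have e1 : A 0 + β (z 0) ≤ A s + β (z s) := hmono hs
  have e2 := abs_le.1 (hM _ (hK 0))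
  have e3 := abs_le.1 (hM _ (hK s))
  linarith [e2.1, e3.2]

variable [FiniteDimensional ℝ E]

lemma IsF.back (hF : C.IsF F) (hH : ContDiff ℝ ∞ H) (hβ : ContDiff ℝ ∞ β) {z : ℝ → E × E}
    {P : ℝ} (hz : IsOrbit R.S F z) (hP : 0 < P) (hper : ∀ t, z (t + P) = z t)
    (h0 : 0 < F (z 0)) (h1 : F (z 0) < 1) :
    ∃ (w : ℝ → E × E) (Q : ℝ), IsOrbit R.S H w ∧ 0 < Q ∧ (∀ t, w (t + Q) = w t) ∧
      ∀ t, H (w t) = c := by
  have hFd : Differentiable ℝ F := hF.1.differentiable (by simp)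
  have hp := C.pos
  have hmid := fun t => hF.mid (hz t).1 (by rw [orbit_const hFd hz t]; exact h0.ne')
    (by rw [orbit_const hFd hz t]; exact h1.ne)
  obtain ⟨s, σ0, -, -, hs0, hs1, -, hs⟩ := hmid 0
  have hsa : |s| < 2 * C.η := by rw [abs_of_pos hs0]; linarith
  set w : ℝ → E × E := fun t => C.Ψ (-s, z t) with hw
  have hwS : ∀ t, w t ∈ Cot R.S := fun t => C.mem _ _ (hz t).1
  have hzw : ∀ t, C.Ψ (s, w t) = z t := fun t => C.cancel s (z t)
  have hwc : ∀ t, H (w t) = c := fun t => by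
    obtain ⟨r, σ, a1, a2, a3, a4, a5, a6⟩ := hmid t
    rw [orbit_const hFd hz t, hs] at a6
    have := st_strict.injOn ⟨div_pos hs0 hp, (div_lt_one hp).2 hs1⟩
      ⟨div_pos a3 hp, (div_lt_one hp).2 a4⟩ a6
    have hr : s = r := by field_simp at this; exact this
    simp only [hw, a5, hr, ← C.add, neg_add_cancel, C.zero, a2]
  obtain ⟨d, c1, c2, -⟩ := st_deriv (div_pos hs0 hp) ((div_lt_one hp).2 hs1)
  have hpos : ∀ t, 0 < fderiv ℝ H (w t) (C.Z (w t)) := fun t => by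
    have := (C.tube (w t) (hwS t) (hwc t) 0 (by rw [abs_zero]; linarith)).2.2.1
    rwa [C.zero] at this
  set g : ℝ → ℝ := fun t => Real.exp (-s) * (d / C.η) / fderiv ℝ H (w t) (C.Z (w t)) with hg
  have hder : ∀ t, ∃ a, HasDerivAt w a t ∧
      ∀ u ∈ Tan (Cot R.S) (w t), omega a u = -(g t * fderiv ℝ H (w t) u) := fun t => by
    obtain ⟨v, hv, ho⟩ := (hz t).2
    obtain ⟨a, ha⟩ : ∃ a, HasDerivAt w a t :=
      ⟨_, HasFDerivAt.comp_hasDerivAt t (f := z) (C.slice (-s) (z t)) hv⟩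
    refine ⟨a, ha, fun u hu => ?_⟩
    have hat : a ∈ Tan (Cot R.S) (w t) := Tan.of_hasDerivAt ha (Eventually.of_forall hwS)
    have e1 : fderiv ℝ C.Ψ (s, w t) (0, a) = v := by
      have := HasFDerivAt.comp_hasDerivAt t (f := w) (C.slice s (w t)) ha
      exact this.unique (hv.congr_of_eventuallyEq (Eventually.of_forall hzw))
    have e2 := C.conf hβ (hwS t) (hwc t) hat hu hs0.le (by linarith)
    have e3 := C.tan s hu
    have e4 := hF.dF (hwS t) (hwc t) hs0 hs1 e3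
    have e5 := C.dH_eq hH (hwS t) (hwc t) hsa.le u
    rw [hzw] at e3
    rw [e1, ho _ e3, ← hzw t, e4, c1.deriv] at e2
    rw [← e2, e5, hg]
    have := (hpos t).ne'
    field_simp
  choose a ha hoa using hder
  have hwc' : Continuous w := continuous_iff_continuousAt.2 fun t => (ha t).continuousAt
  have hgc : Continuous g :=
    continuous_const.div (((hH.continuous_fderiv (by simp)).clm_apply C.hZ.continuous).comp hwc')
      fun t => (hpos t).ne'
  have hgp : ∀ t, 0 < g t := fun t => div_pos (mul_pos (Real.exp_pos _) (div_pos c2 hp)) (hpos t)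
  have hwp : ∀ t, w (t + P) = w t := fun t => by simp only [hw, hper]
  obtain ⟨τ, Q, hQ, hτ, hτp⟩ := reparam g hgc hgp P hP fun t => by simp only [hg, hwp]
  refine ⟨fun t => w (τ t), Q, fun t => ⟨hwS _, (g (τ t))⁻¹ • a (τ t),
    (ha (τ t)).scomp t (hτ t), fun u hu => ?_⟩, hQ, fun t => by simp only [hτp, hwp],
    fun t => hwc _⟩
  rw [omega_smul_left, hoa _ u hu]
  have := (hgp (τ t)).ne'
  field_simp

end Col

end Pool.Agent.Wein
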