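import Mathlib
import Pool.Agent.P.MP_e3ee0c_gt.WRet

/-! The dimension of the tangent spaces. -/

open Set Filter Topology
open scoped ContDiff InnerProductSpace

namespace Pool.Agent.Wein

variable {E : Type} [NormedAddCommGroup E] [InnerProductSpace ℝ E] [FiniteDimensional ℝ E]

/-- The dimension of the tangent space. -/
noncomputable def Ret.rk (R : Ret E) (x : E) : ℕ :=
  Module.finrank ℝ (LinearMap.range (R.P x : E →ₗ[ℝ] E))

lemma Ret.trace_P (R : Ret E) {x : E} (hx : x ∈ R.S) :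
    LinearMap.trace ℝ E (R.P x : E →ₗ[ℝ] E) = R.rk x := by
  have h : LinearMap.IsProj (LinearMap.range (R.P x : E →ₗ[ℝ] E)) (R.P x : E →ₗ[ℝ] E) :=
    ⟨fun v => ⟨v, rfl⟩, by
      rintro _ ⟨v, rfl⟩
      exact R.P_idem hx v⟩
  exact h.trace

theorem Ret.rk_const (R : Ret E) (hN : IsPathConnected R.S) : ∃ n, ∀ x ∈ R.S, R.rk x = n := by
  obtain ⟨x0, hx0⟩ := hN.nonempty
  refine ⟨R.rk x0, fun x hx => ?_⟩
  let τ : (E →L[ℝ] E) →ₗ[ℝ] ℝ := (LinearMap.trace ℝ E).comp (ContinuousLinearMap.coeLM ℝ)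
  have hc : Continuous fun y => τ (R.P y) :=
    τ.continuous_of_finiteDimensional.comp R.P_smooth.continuous
  have h1 : ContinuousOn (fun y => ((R.rk y : ℕ) : ℝ)) R.S :=
    hc.continuousOn.congr fun y hy => (R.trace_P hy).symm
  have h2 : ContinuousOn R.rk R.S :=
    (Nat.isClosedEmbedding_coe_real.isInducing.continuousOn_iff).2 h1
  exact hN.isConnected.isPreconnected.constant h2 hx hx0

end Pool.Agent.Wein
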