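import Mathlib
import Pool.Agent.P.MP_e3ee0c_gt.WRk

/-! Circle valued functions with compact support on a cotangent bundle lift to the line. -/

open Set Filter Topology
open scoped ContDiff InnerProductSpace unitInterval

namespace Pool.Agent.Wein

/-- A continuous function on a compact space descends along a map to a Hausdorff space. -/
lemma lift_descend {K X : Type*} [TopologicalSpace K] [CompactSpace K] [TopologicalSpace X]
    [T2Space X] (q : K → X) (hq : Continuous q) (G : K → ℝ) (hG : Continuous G)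
    (h : ∀ a b, q a = q b → G a = G b) :
    ∃ g : X → ℝ, ContinuousOn g (range q) ∧ (∀ a, g (q a) = G a) ∧ ∀ z, z ∉ range q → g z = 0 := by
  classical
  let g : X → ℝ := fun z => if hz : ∃ a, q a = z then G hz.choose else 0
  have h1 : ∀ a, g (q a) = G a := fun a => by
    have hz : ∃ b, q b = q a := ⟨a, rfl⟩
    simp only [g, dif_pos hz]
    exact h _ _ hz.choose_spec
  refine ⟨g, ?_, h1, fun z hz => ?_⟩
  · rw [continuousOn_iff_isClosed]
    intro t ht
    refine ⟨q '' (G ⁻¹' t), (((ht.preimage hG).isCompact).image hq).isClosed, ?_⟩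
    ext z
    constructor
    · rintro ⟨hz, a, rfl⟩
      exact ⟨⟨a, by rw [mem_preimage, ← h1]; exact hz, rfl⟩, a, rfl⟩
    · rintro ⟨⟨a, ha, rfl⟩, -⟩
      exact ⟨by rw [mem_preimage, h1]; exact ha, a, rfl⟩
  · have hz' : ¬ ∃ a, q a = z := hz
    simp only [g, dif_neg hz']

variable {E : Type} [NormedAddCommGroup E] [InnerProductSpace ℝ E] [FiniteDimensional ℝ E]

/-- The unit sphere bundle. -/
def Ret.Sph (R : Ret E) : Set (E × E) := {z | z ∈ Cot R.S ∧ ‖z.2‖ = 1}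

lemma Ret.isCompact_Sph (R : Ret E) : IsCompact R.Sph := by
  have h1 : IsClosed R.Sph :=
    R.hat.closed.inter (isClosed_eq (continuous_norm.comp continuous_snd) continuous_const)
  refine (R.compact.prod (isCompact_sphere (0 : E) 1)).of_isClosed_subset h1 ?_
  rintro z ⟨hz, hn⟩
  exact ⟨hz.1, by simpa using hn⟩

omit [FiniteDimensional ℝ E] in
lemma Ret.smul_mem_cot (R : Ret E) {z : E × E} (hz : z ∈ Cot R.S) (c : ℝ) :
    (z.1, c • z.2) ∈ Cot R.S := by
  obtain ⟨h1, h2⟩ := (R.mem_cot z).1 hz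
  exact (R.mem_cot _).2 ⟨h1, by simp only [map_smul, h2]⟩

lemma Ret.one_lt_rank (R : Ret E) {x : E} (h : 2 ≤ R.rk x) :
    1 < Module.rank ℝ (LinearMap.range (R.P x : E →ₗ[ℝ] E)) := by
  rw [← Module.finrank_eq_rank]
  have h2 : 1 < R.rk x := h
  exact_mod_cast h2

omit [FiniteDimensional ℝ E] in
lemma Ret.mem_Sph (R : Ret E) {x : E} (hx : x ∈ R.S)
    (v : Metric.sphere (0 : LinearMap.range (R.P x : E →ₗ[ℝ] E)) 1) :
    (x, ((v : LinearMap.range (R.P x : E →ₗ[ℝ] E)) : E)) ∈ R.Sph := by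
  obtain ⟨⟨v, w, hw⟩, hv⟩ := v
  refine ⟨(R.mem_cot _).2 ⟨hx, ?_⟩, by simpa using hv⟩
  subst hw
  exact R.P_idem hx w

/-- A lift of a function that is constant on the fibres is constant on the fibres. -/
lemma Ret.const_fibre (R : Ret E) (hdim : ∀ x ∈ R.S, 2 ≤ R.rk x) (G : R.Sph → ℝ)
    (hG : Continuous G)
    (h : ∀ a b : R.Sph, a.1.1 = b.1.1 → (G a : UnitAddCircle) = G b) (a b : R.Sph)
    (hab : a.1.1 = b.1.1) : G a = G b := by
  obtain ⟨⟨x, u⟩, ha⟩ := a
  obtain ⟨⟨y, v⟩, hb⟩ := b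
  obtain rfl : x = y := hab
  have hx : x ∈ R.S := ha.1.1
  have : PreconnectedSpace (Metric.sphere (0 : LinearMap.range (R.P x : E →ₗ[ℝ] E)) 1) :=
    Subtype.preconnectedSpace (isPreconnected_sphere (R.one_lt_rank (hdim x hx)) 0 1)
  let j : Metric.sphere (0 : LinearMap.range (R.P x : E →ₗ[ℝ] E)) 1 → R.Sph :=
    fun w => ⟨_, R.mem_Sph hx w⟩
  have hj : Continuous j := Continuous.subtype_mk (by fun_prop) _
  exact (AddCircle.isCoveringMap_coe (1 : ℝ)).const_of_comp (g := G ∘ j) (hG.comp hj)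
    (fun w w' => h (j w) (j w') rfl)
    ⟨⟨u, u, ((R.mem_cot _).1 ha.1).2⟩, by simpa using ha.2⟩
    ⟨⟨v, v, ((R.mem_cot _).1 hb.1).2⟩, by simpa using hb.2⟩

theorem exists_lift (R : Ret E) (hdim : ∀ x ∈ R.S, 2 ≤ R.rk x) (f : E × E → UnitAddCircle)
    (hf : ContinuousOn f (Cot R.S)) (Rb : ℝ) (hRb : 0 < Rb)
    (hR : ∀ z ∈ Cot R.S, Rb ≤ ‖z.2‖ → f z = 0) :
    ∃ g : E × E → ℝ, ContinuousOn g (Cot R.S) ∧ (∀ z ∈ Cot R.S, (g z : UnitAddCircle) = f z) ∧
      ∀ z ∈ Cot R.S, Rb ≤ ‖z.2‖ → g z = 0 := by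
  have : CompactSpace R.Sph := isCompact_iff_compactSpace.1 R.isCompact_Sph
  let q : I × R.Sph → E × E := fun a => (a.2.1.1, ((1 - (a.1 : ℝ)) * Rb) • a.2.1.2)
  have hq : Continuous q := by fun_prop
  have hqm : ∀ a, q a ∈ Cot R.S := fun a => R.smul_mem_cot a.2.2.1 _
  have hqn : ∀ a, ‖(q a).2‖ = (1 - (a.1 : ℝ)) * Rb := fun a => by
    have h1 : 0 ≤ (1 - (a.1 : ℝ)) * Rb := mul_nonneg (sub_nonneg.2 a.1.2.2) hRb.le
    simp only [q]
    rw [norm_smul, a.2.2.2, mul_one, Real.norm_of_nonneg h1]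
  let H : C(I × R.Sph, UnitAddCircle) := ⟨f ∘ q, hf.comp_continuous hq hqm⟩
  have H0 : ∀ a, H (0, a) = (((ContinuousMap.const R.Sph (0 : ℝ)) a : ℝ) : UnitAddCircle) := by
    intro a
    have := hR (q (0, a)) (hqm _) (by rw [hqn]; simp)
    simpa [H] using this
  let G := (AddCircle.isCoveringMap_coe (1 : ℝ)).liftHomotopy H (ContinuousMap.const _ 0) H0
  have hG1 : ∀ a, (G a : UnitAddCircle) = f (q a) := fun a =>
    congr_fun ((AddCircle.isCoveringMap_coe (1 : ℝ)).liftHomotopy_lifts H _ H0) a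
  have hG0 : ∀ a, G (0, a) = 0 := fun a =>
    (AddCircle.isCoveringMap_coe (1 : ℝ)).liftHomotopy_zero H _ H0 a
  have hfac : ∀ a b, q a = q b → G a = G b := by
    rintro ⟨t, a⟩ ⟨s, b⟩ hab
    have h1 : (1 - (t : ℝ)) * Rb = (1 - (s : ℝ)) * Rb := by
      have e1 := hqn (t, a)
      have e2 := hqn (s, b)
      rw [hab] at e1
      exact e1.symm.trans e2
    have h2 : t = s := by
      have := mul_right_cancel₀ hRb.ne' h1
      exact Subtype.ext (by linarith)
    subst h2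
    have h3 : a.1.1 = b.1.1 := (Prod.ext_iff.1 hab).1
    by_cases ht : (1 - (t : ℝ)) * Rb = 0
    · refine R.const_fibre hdim (fun c => G (t, c)) (by fun_prop) (fun c d hcd => ?_) a b h3
      rw [hG1, hG1]
      simp only [q, ht, zero_smul, hcd]
    · have h4 : a.1.2 = b.1.2 := smul_right_injective E ht (Prod.ext_iff.1 hab).2
      rw [show a = b from Subtype.ext (Prod.ext h3 h4)]
  obtain ⟨g, hg, hg1, hg2⟩ := lift_descend q hq G G.continuous hfac
  have hg0 : ∀ z : E × E, Rb ≤ ‖z.2‖ → g z = 0 := by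
    intro z hz
    by_cases hzq : z ∈ range q
    · obtain ⟨⟨t, a⟩, rfl⟩ := hzq
      rw [hqn] at hz
      have h1 : t = 0 := Subtype.ext (le_antisymm (by
        by_contra hc
        have hc' : (0 : ℝ) < t := not_le.1 hc
        have := mul_pos hc' hRb
        simp only at hz
        linarith) t.2.1)
      rw [hg1, h1, hG0]
    · exact hg2 z hzq
  have hsur : ∀ z ∈ Cot R.S, ‖z.2‖ < Rb → z ∈ range q := by
    rintro ⟨x, p⟩ hz hn
    have hx : x ∈ R.S := hz.1
    have hn' : ‖p‖ < Rb := hn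
    have ht : 1 - ‖p‖ / Rb ∈ I := by
      have h1 : ‖p‖ / Rb ≤ 1 := (div_le_one hRb).2 hn'.le
      have h2 : 0 ≤ ‖p‖ / Rb := by positivity
      constructor <;> linarith
    have he : (1 - (1 - ‖p‖ / Rb)) * Rb = ‖p‖ := by field_simp; ring
    by_cases hp : p = 0
    · obtain ⟨w, hw⟩ := (isConnected_sphere (R.one_lt_rank (hdim x hx)) 0 zero_le_one).nonempty
      refine ⟨(⟨_, ht⟩, ⟨_, R.mem_Sph hx ⟨w, hw⟩⟩), ?_⟩
      simp only [q]
      rw [he, hp, norm_zero, zero_smul]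
    · have hp' : ‖p‖ ≠ 0 := norm_ne_zero_iff.2 hp
      refine ⟨(⟨_, ht⟩, ⟨_, R.smul_mem_cot hz ‖p‖⁻¹, norm_smul_inv_norm hp⟩), ?_⟩
      simp only [q]
      rw [he, smul_smul, mul_inv_cancel₀ hp', one_smul]
  refine ⟨g, ?_, fun z hz => ?_, fun z _ hz => hg0 z hz⟩
  · have h1 : ContinuousOn g {z : E × E | Rb ≤ ‖z.2‖} :=
      continuousOn_const.congr fun z hz => hg0 z hz
    refine (hg.union_of_isClosed h1 (isCompact_range hq).isClosed
      (isClosed_le continuous_const (by fun_prop))).mono fun z hz => ?_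
    rcases lt_or_ge ‖z.2‖ Rb with h | h
    · exact Or.inl (hsur z hz h)
    · exact Or.inr h
  · rcases lt_or_ge ‖z.2‖ Rb with h | h
    · obtain ⟨a, rfl⟩ := hsur z hz h
      rw [hg1, hG1]
    · rw [hg0 z h, hR z hz h]
      simp

end Pool.Agent.Wein
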