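import Mathlib

/-! The shifted logarithmic barrier. -/

open Set Filter Topology
open scoped ContDiff

namespace Pool.Agent.Wein

structure Bar (d t₁ c : ℝ) where
  a : ℝ
  apos : 0 < a
  ale : a ≤ d
  m : ℝ → ℝ
  g : ℝ → ℝ
  ms : ContDiff ℝ ∞ m
  gs : ContDiffOn ℝ ∞ g (Iio (d + a))
  md : ∀ t, 0 ≤ deriv m t ∧ deriv m t ≤ 1
  mono : Monotone m
  m_low : ∀ t ≤ t₁, m t = t
  m_le : ∀ t, m t ≤ t
  m_high : ∀ t, d ≤ t → m t = t - a
  m_lt : ∀ t < d + a, m t < d
  gd : ∀ t < d + a, HasDerivAt g (1 / (d - m t)) t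
  g_low : ∀ t ≤ t₁, g t = -Real.log (d - t)
  g_le : ∀ t < d + a, g t ≤ -Real.log (d - m t) + c
  g_le' : ∀ t < d, g t ≤ -Real.log (d - t)
  g_ge : ∀ t, 0 ≤ t → t < d + a → -Real.log d + t / d ≤ g t
  g_lip : ∀ t t', t ≤ d + a / 2 → t' ≤ d + a / 2 → g t' - g t ≤ 2 / a * |t' - t|

lemma exists_cut (t₁ t₂ : ℝ) (h : t₁ < t₂) : ∃ (ζ : ℝ → ℝ) (L : ℝ), ContDiff ℝ ∞ ζ ∧ 0 < L ∧
    (∀ t, 0 ≤ ζ t ∧ ζ t ≤ 1) ∧ (∀ t ≤ t₁, ζ t = 0) ∧ (∀ t, t₂ ≤ t → ζ t = 1) ∧
    (∀ t, 0 ≤ deriv ζ t ∧ deriv ζ t ≤ L) ∧ (∀ t ≤ t₁, deriv ζ t = 0) ∧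
    ∀ t, t₂ ≤ t → deriv ζ t = 0 := by
  have hp : 0 < t₂ - t₁ := sub_pos.mpr h
  set ζ : ℝ → ℝ := fun t => Real.smoothTransition ((t - t₁) / (t₂ - t₁)) with hζ
  have hs : ContDiff ℝ ∞ ζ :=
    Real.smoothTransition.contDiff.comp ((contDiff_id.sub contDiff_const).div_const _)
  have h01 : ∀ t, 0 ≤ ζ t ∧ ζ t ≤ 1 := fun t =>
    ⟨Real.smoothTransition.nonneg _, Real.smoothTransition.le_one _⟩
  have h0 : ∀ t ≤ t₁, ζ t = 0 := fun t ht =>
    Real.smoothTransition.zero_of_nonpos (div_nonpos_of_nonpos_of_nonneg (by linarith) hp.le)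
  have h1 : ∀ t, t₂ ≤ t → ζ t = 1 := fun t ht =>
    Real.smoothTransition.one_of_one_le (by rw [le_div_iff₀ hp]; linarith)
  have hm : Monotone ζ := fun a b hab =>
    Real.smoothTransition.monotone (by gcongr)
  have d0 : ∀ t ≤ t₁, deriv ζ t = 0 := fun t ht =>
    IsLocalMin.deriv_eq_zero (Eventually.of_forall fun y => by rw [h0 t ht]; exact (h01 y).1)
  have d1 : ∀ t, t₂ ≤ t → deriv ζ t = 0 := fun t ht =>
    IsLocalMax.deriv_eq_zero (Eventually.of_forall fun y => by rw [h1 t ht]; exact (h01 y).2)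
  have hc : Continuous (deriv ζ) := hs.continuous_deriv (by simp)
  obtain ⟨L, hL⟩ := (isCompact_Icc (a := t₁) (b := t₂)).bddAbove_image hc.continuousOn
  refine ⟨ζ, max L 1, hs, by positivity, h01, h0, h1, fun t => ⟨hm.deriv_nonneg, ?_⟩, d0, d1⟩
  by_cases ht : t ∈ Icc t₁ t₂
  · exact (hL (mem_image_of_mem _ ht)).trans (le_max_left _ _)
  · rw [mem_Icc, not_and_or, not_le, not_le] at ht
    rcases ht with ht | ht
    · rw [d0 t ht.le]; positivity
    · rw [d1 t ht.le]; positivity

theorem exists_bar (d t₁ c : ℝ) (h0 : 0 < t₁) (h1 : t₁ < d) (hc : 0 < c) :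
    Nonempty (Bar d t₁ c) := by
  obtain ⟨t₂, h12, h2d⟩ := exists_between h1
  obtain ⟨ζ, L, hs, hL, h01, z0, z1, hd, d0, d1⟩ := exists_cut t₁ t₂ h12
  have hd2 : 0 < d - t₂ := sub_pos.mpr h2d
  obtain ⟨a, ha, had, haL, hac⟩ : ∃ a : ℝ, 0 < a ∧ a ≤ d ∧ a * L ≤ 1 ∧ a / (d - t₂) ≤ c := by
    refine ⟨min d (min (1 / L) (c * (d - t₂))), lt_min (by linarith) (lt_min (by positivity)
      (by positivity)), min_le_left _ _, ?_, ?_⟩
    · rw [← le_div_iff₀ hL]; exact (min_le_right _ _).trans (min_le_left _ _)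
    · rw [div_le_iff₀ hd2]; exact (min_le_right _ _).trans (min_le_right _ _)
  have hζd : ∀ t, HasDerivAt ζ (deriv ζ t) t := fun t =>
    (hs.differentiable (by simp) t).hasDerivAt
  set m : ℝ → ℝ := fun t => t - a * ζ t with hm
  have ms : ContDiff ℝ ∞ m := contDiff_id.sub (contDiff_const.mul hs)
  have hmd : ∀ t, HasDerivAt m (1 - a * deriv ζ t) t := fun t =>
    (hasDerivAt_id t).sub ((hζd t).const_mul a)
  have md : ∀ t, 0 ≤ deriv m t ∧ deriv m t ≤ 1 := fun t => by
    rw [(hmd t).deriv]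
    have := hd t
    constructor <;> nlinarith [this.1, this.2]
  have mono : Monotone m :=
    monotone_of_deriv_nonneg (ms.differentiable (by simp)) fun t => (md t).1
  have m_low : ∀ t ≤ t₁, m t = t := fun t ht => by simp [hm, z0 t ht]
  have m_le : ∀ t, m t ≤ t := fun t => by
    have := mul_nonneg ha.le (h01 t).1
    simp only [hm]; linarith
  have m_high : ∀ t, d ≤ t → m t = t - a := fun t ht => by simp [hm, z1 t (by linarith)]
  have m_lt : ∀ t < d + a, m t < d := fun t ht => by
    rcases le_or_gt d t with h | h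
    · rw [m_high t h]; linarith
    · exact (m_le t).trans_lt h
  set h : ℝ → ℝ := fun t => a * deriv ζ t / (d - m t) with hh
  have hζ' : ContDiff ℝ ∞ (deriv ζ) := (contDiff_infty_iff_deriv.mp hs).2
  have hhs : ContDiff ℝ ∞ h := by
    rw [contDiff_iff_contDiffAt]
    intro t
    rcases lt_or_ge t d with ht | ht
    · exact (contDiff_const.mul hζ').contDiffAt.div (contDiff_const.sub ms).contDiffAt
        (sub_pos.mpr (m_lt t (by linarith))).ne'
    · refine (contDiffAt_const (c := (0 : ℝ))).congr_of_eventuallyEq ?_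
      filter_upwards [Ioi_mem_nhds (show t₂ < t by linarith)] with y hy
      simp [hh, d1 y (le_of_lt hy)]
  have hle : ∀ t, h t ≤ a * deriv ζ t / (d - t₂) := fun t => by
    rcases le_or_gt t₂ t with ht | ht
    · simp [hh, d1 t ht]
    · have := m_le t
      exact div_le_div_of_nonneg_left (mul_nonneg ha.le (hd t).1) hd2 (by linarith)
  set k : ℝ → ℝ := fun t => ∫ s in t₁..t, h s with hk
  have hkd : ∀ t, HasDerivAt k (h t) t := fun t =>
    (hhs.continuous.integral_hasStrictDerivAt t₁ t).hasDerivAt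
  have hks : ContDiff ℝ ∞ k := by
    rw [contDiff_infty_iff_deriv]
    refine ⟨fun t => (hkd t).differentiableAt, ?_⟩
    rw [show deriv k = h from funext fun t => (hkd t).deriv]
    exact hhs
  have k0 : ∀ t ≤ t₁, k t = 0 := fun t ht => by
    simp only [hk]
    rw [intervalIntegral.integral_congr (g := fun _ => 0)]
    · simp
    · intro s hs
      rw [uIcc_of_ge ht] at hs
      simp [hh, d0 s hs.2]
  have kc : ∀ t, k t ≤ c := fun t => by
    rcases le_or_gt t t₁ with ht | ht
    · rw [k0 t ht]; exact hc.le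
    have hφ : ∀ t, HasDerivAt (fun t => a * ζ t / (d - t₂) - k t)
        (a * deriv ζ t / (d - t₂) - h t) t := fun t =>
      (((hζd t).const_mul a).div_const _).sub (hkd t)
    have := monotone_of_deriv_nonneg (fun t => (hφ t).differentiableAt)
      (fun t => by rw [(hφ t).deriv]; linarith [hle t]) ht.le
    simp only [z0 t₁ le_rfl, k0 t₁ le_rfl] at this
    have h3 : a * ζ t / (d - t₂) ≤ a / (d - t₂) := by
      gcongr; nlinarith [(h01 t).2]
    simp at this
    linarith
  set g : ℝ → ℝ := fun t => -Real.log (d - m t) + k t with hg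
  have gd : ∀ t < d + a, HasDerivAt g (1 / (d - m t)) t := fun t ht => by
    have hp := sub_pos.mpr (m_lt t ht)
    have := ((((hmd t).const_sub d).log hp.ne').neg).add (hkd t)
    refine this.congr_deriv ?_
    simp only [hh]; field_simp; ring
  have g_low : ∀ t ≤ t₁, g t = -Real.log (d - t) := fun t ht => by
    simp [hg, m_low t ht, k0 t ht]
  refine ⟨⟨a, ha, had, m, g, ms, ?_, md, mono, m_low, m_le, m_high, m_lt, gd, g_low,
    fun t _ => by simp only [hg]; linarith [kc t], ?_, ?_, ?_⟩⟩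
  · exact (((contDiff_const.sub ms).contDiffOn.log fun t ht =>
      (sub_pos.mpr (m_lt t ht)).ne').neg).add hks.contDiffOn
  · intro t ht
    rcases le_or_gt t t₁ with h | h
    · exact (g_low t h).le
    have hψ : ∀ s < d, HasDerivAt (fun s => -Real.log (d - s) - g s)
        (1 / (d - s) - 1 / (d - m s)) s := fun s hs => by
      have := ((((hasDerivAt_id s).const_sub d).log (sub_pos.mpr hs).ne').neg).sub
        (gd s (by linarith))
      refine this.congr_deriv ?_
      simp [div_eq_mul_inv]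
    have := monotoneOn_of_deriv_nonneg (convex_Iio d)
      (fun s hs => (hψ s hs).continuousAt.continuousWithinAt)
      (fun s hs => (hψ s (mem_Iio.mp (interior_subset hs))).differentiableAt.differentiableWithinAt)
      (fun s hs => by
        have hs' : s < d := mem_Iio.mp (interior_subset hs)
        rw [(hψ s hs').deriv, sub_nonneg]
        exact one_div_le_one_div_of_le (by linarith) (by linarith [m_le s])) h1 ht h.le
    simp only [g_low t₁ le_rfl] at this
    linarith
  · intro t ht0 ht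
    have hψ : ∀ s < d + a, HasDerivAt (fun s => g s - s / d) (1 / (d - m s) - 1 / d) s :=
      fun s hs => (gd s hs).sub ((hasDerivAt_id s).div_const d)
    have := monotoneOn_of_deriv_nonneg (convex_Ico 0 (d + a))
      (fun s hs => (hψ s hs.2).continuousAt.continuousWithinAt)
      (fun s hs => (hψ s (interior_subset hs).2).differentiableAt.differentiableWithinAt)
      (fun s hs => by
        have hs' := interior_subset hs
        rw [(hψ s hs'.2).deriv, sub_nonneg]
        have := mono hs'.1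
        rw [m_low 0 h0.le] at this
        exact one_div_le_one_div_of_le (sub_pos.mpr (m_lt s hs'.2)) (by linarith))
      ⟨le_rfl, by linarith⟩ ⟨ht0, ht⟩ ht0
    simp only [g_low 0 h0.le] at this
    simp at this
    linarith
  · intro t t' ht ht'
    have := (convex_Iic (d + a / 2)).norm_image_sub_le_of_norm_hasDerivWithin_le
      (f := g) (f' := fun s => 1 / (d - m s)) (C := 2 / a)
      (fun s hs => (gd s (by have : s ≤ d + a / 2 := hs; linarith)).hasDerivWithinAt)
      (fun s hs => by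
        have h1 : m s ≤ m (d + a / 2) := mono hs
        rw [m_high (d + a / 2) (by linarith)] at h1
        rw [Real.norm_eq_abs, abs_of_pos (one_div_pos.mpr (by linarith)),
          show 2 / a = 1 / (a / 2) by field_simp]
        exact one_div_le_one_div_of_le (by linarith) (by linarith)) ht ht'
    exact (le_abs_self _).trans this

end Pool.Agent.Wein
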