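import Mathlib
import Pool.Agent.Lib.Brouwer.Basic
import Pool.Agent.P.MP_e3ee0c_gt.WRet

/-! Uniform local geometry of a compact retract and the twist maps. -/

open Set Filter Topology
open scoped ContDiff InnerProductSpace

namespace Pool.Agent.Wein

variable {E : Type} [NormedAddCommGroup E] [InnerProductSpace ℝ E]

structure Geo (E : Type) [NormedAddCommGroup E] [InnerProductSpace ℝ E] extends Ret E where
  δ : ℝ
  δpos : 0 < δ
  ball : ∀ x ∈ S, ∀ u, ‖u - x‖ ≤ 8 * δ → u ∈ W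
  mv : ∀ x ∈ S, ∀ u u', ‖u - x‖ ≤ 8 * δ → ‖u' - x‖ ≤ 8 * δ →
    ‖r u - r u' - fderiv ℝ r x (u - u')‖ ≤ 1 / 4 * ‖u - u'‖

theorem exists_geo [FiniteDimensional ℝ E] (R : Ret E) : ∃ G : Geo E, G.toRet = R := by
  obtain ⟨ε, hε, hW⟩ := R.compact.exists_cthickening_subset_open R.isOpen R.sub
  have hK : IsCompact (Metric.cthickening ε R.S) := R.compact.cthickening
  have hc : Continuous (fderiv ℝ R.r) := R.smooth.continuous_fderiv (by simp)
  have huc : UniformContinuousOn (fderiv ℝ R.r) (Metric.cthickening ε R.S) :=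
    hK.uniformContinuousOn_of_continuous hc.continuousOn
  obtain ⟨η, hη, hη'⟩ := Metric.uniformContinuousOn_iff.mp huc (1 / 4) (by norm_num)
  have hm : 0 < min ε (η / 2) := lt_min hε (by linarith)
  have hmem : ∀ x ∈ R.S, ∀ u, ‖u - x‖ ≤ 8 * (min ε (η / 2) / 8) →
      u ∈ Metric.cthickening ε R.S := by
    intro x hx u hu
    refine Metric.mem_cthickening_of_dist_le u x ε R.S hx ?_
    rw [dist_eq_norm]
    have := min_le_left ε (η / 2)
    linarith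
  refine ⟨{ toRet := R, δ := min ε (η / 2) / 8, δpos := by positivity, ball := ?_, mv := ?_ }, rfl⟩
  · intro x hx u hu
    exact hW (hmem x hx u hu)
  · intro x hx u u' hu hu'
    have hd : Differentiable ℝ R.r := R.smooth.differentiable (by simp)
    refine (convex_closedBall x (8 * (min ε (η / 2) / 8))).norm_image_sub_le_of_norm_fderiv_le'
      (𝕜 := ℝ) (fun y _ => hd y) (fun y hy => ?_) ?_ ?_
    · have hy' : ‖y - x‖ ≤ 8 * (min ε (η / 2) / 8) := by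
        simpa [dist_eq_norm] using hy
      have h1 := hη' y (hmem x hx y hy') x (hmem x hx x (by simp; positivity)) (by
        rw [dist_eq_norm]
        have := min_le_right ε (η / 2)
        linarith)
      rw [dist_eq_norm] at h1
      exact h1.le
    · simpa [dist_eq_norm] using hu'
    · simpa [dist_eq_norm] using hu

namespace Geo

variable (G : Geo E)

lemma mvP {x : E} (hx : x ∈ G.S) {u u' : E} (h : ‖u - x‖ ≤ 8 * G.δ) (h' : ‖u' - x‖ ≤ 8 * G.δ) :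
    ‖G.r u - G.r u' - G.P x (u - u')‖ ≤ 1 / 4 * ‖u - u'‖ := G.mv x hx u u' h h'

lemma pair_small {x y y' : E} (hx : x ∈ G.S) (hy : y ∈ G.S) (hy' : y' ∈ G.S)
    (h : ‖x - y‖ ≤ 8 * G.δ) (h' : ‖x - y'‖ ≤ 8 * G.δ) :
    ‖(y - y') - G.P x (y - y')‖ ≤ 1 / 4 * ‖y - y'‖ := by
  have := G.mvP hx (u := y) (u' := y') (by rwa [norm_sub_rev]) (by rwa [norm_sub_rev])
  rwa [G.fix y hy, G.fix y' hy'] at this

lemma pair_lower {x y y' : E} (hx : x ∈ G.S) (hy : y ∈ G.S) (hy' : y' ∈ G.S)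
    (h : ‖x - y‖ ≤ 8 * G.δ) (h' : ‖x - y'‖ ≤ 8 * G.δ) :
    3 / 4 * ‖y - y'‖ ≤ ‖G.P x (y - y')‖ := by
  have h1 := G.pair_small hx hy hy' h h'
  have h2 : ‖y - y'‖ ≤ ‖(y - y') - G.P x (y - y')‖ + ‖G.P x (y - y')‖ := by
    simpa using norm_add_le ((y - y') - G.P x (y - y')) (G.P x (y - y'))
  linarith

lemma self_near (x : E) : ‖x - x‖ ≤ 8 * G.δ := by
  have := G.δpos
  simp only [sub_self, norm_zero]
  positivity

lemma lower {x y : E} (hx : x ∈ G.S) (hy : y ∈ G.S) (h : ‖x - y‖ ≤ 8 * G.δ) :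
    3 / 4 * ‖x - y‖ ≤ ‖G.P x (x - y)‖ :=
  G.pair_lower hx hx hy (G.self_near x) h

/-- Radial monotonicity. -/
lemma rm {x y y' : E} (hx : x ∈ G.S) (hy : y ∈ G.S) (hy' : y' ∈ G.S) (h : ‖x - y‖ ≤ 8 * G.δ)
    (h' : ‖x - y'‖ ≤ 8 * G.δ) {t : ℝ} (ht0 : 0 ≤ t) (ht1 : t ≤ 1)
    (he : G.P x (x - y') = t • G.P x (x - y)) : ‖x - y'‖ ≤ ‖x - y‖ := by
  have e1 := G.pyth hx (x - y)
  have e2 := G.pyth hx (x - y')
  have l1 := G.lower hx hy h
  have s1 := G.pair_small hx hx hy (G.self_near x) h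
  have l2 := G.pair_lower hx hy hy' h h'
  have s2 := G.pair_small hx hy hy' h h'
  have e3 : G.P x (y - y') = -((1 - t) • G.P x (x - y)) := by
    have : y - y' = (x - y') - (x - y) := by abel
    rw [this, map_sub, he, sub_smul, one_smul]
    abel
  have e4 : ‖G.P x (y - y')‖ = (1 - t) * ‖G.P x (x - y)‖ := by
    rw [e3, norm_neg, norm_smul, Real.norm_eq_abs, abs_of_nonneg (by linarith)]
  have e5 : ‖G.P x (x - y')‖ = t * ‖G.P x (x - y)‖ := by
    rw [he, norm_smul, Real.norm_eq_abs, abs_of_nonneg ht0]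
  have e6 : ‖(x - y') - G.P x (x - y')‖ ≤
      ‖(x - y) - G.P x (x - y)‖ + ‖(y - y') - G.P x (y - y')‖ := by
    have : (x - y') - G.P x (x - y') =
        ((x - y) - G.P x (x - y)) + ((y - y') - G.P x (y - y')) := by
      have : x - y' = (x - y) + (y - y') := by abel
      rw [this, map_add]
      abel
    rw [this]
    exact norm_add_le _ _
  set a := ‖G.P x (x - y)‖ with ha
  set b := ‖(x - y) - G.P x (x - y)‖ with hb
  set b' := ‖(x - y') - G.P x (x - y')‖ with hb'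
  have a0 : 0 ≤ a := norm_nonneg _
  have b0 : 0 ≤ b := norm_nonneg _
  have b0' : 0 ≤ b' := norm_nonneg _
  have hba : b ≤ a / 3 := by linarith
  have hb'le : b' ≤ b + (1 - t) * a / 3 := by linarith
  have hs : 0 ≤ (1 - t) * a := mul_nonneg (by linarith) a0
  have hsq : b' ^ 2 ≤ (b + (1 - t) * a / 3) ^ 2 := pow_le_pow_left₀ b0' hb'le 2
  have k1 : b * ((1 - t) * a) ≤ a / 3 * ((1 - t) * a) := mul_le_mul_of_nonneg_right hba hs
  have k2 : 0 ≤ ((1 - t) * a) * (t * a) := mul_nonneg hs (mul_nonneg ht0 a0)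
  have k3 : 0 ≤ ((1 - t) * a) * a := mul_nonneg hs a0
  have fin : ‖x - y'‖ ^ 2 ≤ ‖x - y‖ ^ 2 := by
    rw [e1, e2, e5]
    nlinarith
  exact (pow_le_pow_iff_left₀ (norm_nonneg _) (norm_nonneg _) two_ne_zero).mp fin

lemma inj {x y y' : E} (hx : x ∈ G.S) (hy : y ∈ G.S) (hy' : y' ∈ G.S) (h : ‖x - y‖ ≤ 8 * G.δ)
    (h' : ‖x - y'‖ ≤ 8 * G.δ) (he : G.P x (x - y') = G.P x (x - y)) : y' = y := by
  have l2 := G.pair_lower hx hy hy' h h'
  have e3 : G.P x (y - y') = 0 := by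
    have : y - y' = (x - y') - (x - y) := by abel
    rw [this, map_sub, he, sub_self]
  rw [e3, norm_zero] at l2
  have : ‖y - y'‖ = 0 := le_antisymm (by linarith) (norm_nonneg _)
  exact (sub_eq_zero.mp (norm_eq_zero.mp this)).symm

/-- The tangential gradient in x of a function of the squared distance with derivative ψ. -/
noncomputable def tw (ψ : ℝ → ℝ) (x y : E) : E := (2 * ψ (‖x - y‖ ^ 2)) • G.P x (x - y)

lemma tw_inj_aux {ψ : ℝ → ℝ} {I : Set ℝ} (hm : MonotoneOn ψ I) (hp : ∀ t ∈ I, 0 < ψ t)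
    {x y y' : E} (hx : x ∈ G.S) (hy : y ∈ G.S) (hy' : y' ∈ G.S) (h : ‖x - y‖ ≤ 8 * G.δ)
    (h' : ‖x - y'‖ ≤ 8 * G.δ) (hI : ‖x - y‖ ^ 2 ∈ I) (hI' : ‖x - y'‖ ^ 2 ∈ I)
    (he : G.tw ψ x y' = G.tw ψ x y) (hle : ψ (‖x - y‖ ^ 2) ≤ ψ (‖x - y'‖ ^ 2)) : y' = y := by
  have p1 := hp _ hI
  have p2 := hp _ hI'
  have e : G.P x (x - y') = (ψ (‖x - y‖ ^ 2) / ψ (‖x - y'‖ ^ 2)) • G.P x (x - y) := by
    have hne : (2 * ψ (‖x - y'‖ ^ 2)) ≠ 0 := by positivity
    apply smul_right_injective E hne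
    unfold tw at he
    simp only
    rw [he, smul_smul]
    congr 1
    field_simp
  have hr := G.rm hx hy hy' h h' (by positivity) ((div_le_one p2).mpr hle) e
  have hq : ‖x - y'‖ ^ 2 ≤ ‖x - y‖ ^ 2 := pow_le_pow_left₀ (norm_nonneg _) hr 2
  have heq : ψ (‖x - y‖ ^ 2) = ψ (‖x - y'‖ ^ 2) := le_antisymm hle (hm hI' hI hq)
  rw [heq, div_self p2.ne', one_smul] at e
  exact G.inj hx hy hy' h h' e

lemma tw_inj {ψ : ℝ → ℝ} {I : Set ℝ} (hm : MonotoneOn ψ I) (hp : ∀ t ∈ I, 0 < ψ t) {x y y' : E}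
    (hx : x ∈ G.S) (hy : y ∈ G.S) (hy' : y' ∈ G.S) (h : ‖x - y‖ ≤ 8 * G.δ)
    (h' : ‖x - y'‖ ≤ 8 * G.δ) (hI : ‖x - y‖ ^ 2 ∈ I) (hI' : ‖x - y'‖ ^ 2 ∈ I)
    (he : G.tw ψ x y' = G.tw ψ x y) : y' = y := by
  rcases le_total (ψ (‖x - y‖ ^ 2)) (ψ (‖x - y'‖ ^ 2)) with hle | hle
  · exact G.tw_inj_aux hm hp hx hy hy' h h' hI hI' he hle
  · exact (G.tw_inj_aux hm hp hx hy' hy h' h hI' hI he.symm hle).symm

/-- The twist map of the logarithmic barrier. -/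
noncomputable def pi (x y : E) : E := G.tw (fun t => 1 / (G.δ ^ 2 - t)) x y

lemma near_of_sq {x y : E} (h : ‖x - y‖ ^ 2 ≤ G.δ ^ 2) : ‖x - y‖ ≤ 8 * G.δ := by
  have hd := G.δpos
  have := (pow_le_pow_iff_left₀ (norm_nonneg _) hd.le two_ne_zero).mp h
  linarith

lemma pi_inj {x y y' : E} (hx : x ∈ G.S) (hy : y ∈ G.S) (hy' : y' ∈ G.S)
    (h : ‖x - y‖ ^ 2 < G.δ ^ 2) (h' : ‖x - y'‖ ^ 2 < G.δ ^ 2) (he : G.pi x y' = G.pi x y) :
    y' = y := by
  refine G.tw_inj (I := Iio (G.δ ^ 2)) ?_ ?_ hx hy hy' (G.near_of_sq h.le) (G.near_of_sq h'.le)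
    h h' he
  · intro a _ b hb hab
    have hb' : b < G.δ ^ 2 := hb
    exact one_div_le_one_div_of_le (by linarith) (by linarith)
  · intro t ht
    have ht' : t < G.δ ^ 2 := ht
    have : 0 < G.δ ^ 2 - t := by linarith
    positivity

/-- The closed form of the equation for the inverse of the twist map. -/
lemma of_closed {x y p : E} (hx : x ∈ G.S) (hy : y ∈ G.S) (h : ‖x - y‖ ≤ 8 * G.δ)
    (he : G.P x (x - y) = (1 / 2 * max (G.δ ^ 2 - ‖x - y‖ ^ 2) 0) • p) :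
    ‖x - y‖ ^ 2 < G.δ ^ 2 ∧ G.pi x y = p := by
  have hd := G.δpos
  have hq : ‖x - y‖ ^ 2 < G.δ ^ 2 := by
    by_contra hn
    have hn' : G.δ ^ 2 ≤ ‖x - y‖ ^ 2 := not_lt.mp hn
    rw [max_eq_right (by linarith), mul_zero, zero_smul] at he
    have l := G.lower hx hy h
    rw [he, norm_zero] at l
    have h0 : ‖x - y‖ = 0 := le_antisymm (by linarith) (norm_nonneg _)
    rw [h0] at hn'
    have : 0 < G.δ ^ 2 := by positivity
    linarith
  refine ⟨hq, ?_⟩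
  have hpos : 0 < G.δ ^ 2 - ‖x - y‖ ^ 2 := by linarith
  unfold pi tw
  rw [he, max_eq_left hpos.le, smul_smul]
  have : 2 * (1 / (G.δ ^ 2 - ‖x - y‖ ^ 2)) * (1 / 2 * (G.δ ^ 2 - ‖x - y‖ ^ 2)) = 1 := by
    field_simp
  rw [this, one_smul]

lemma to_closed {x y p : E} (hq : ‖x - y‖ ^ 2 < G.δ ^ 2) (he : G.pi x y = p) :
    G.P x (x - y) = (1 / 2 * max (G.δ ^ 2 - ‖x - y‖ ^ 2) 0) • p := by
  have hpos : 0 < G.δ ^ 2 - ‖x - y‖ ^ 2 := by linarith
  rw [← he, max_eq_left hpos.le]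
  unfold pi tw
  rw [smul_smul]
  have : 1 / 2 * (G.δ ^ 2 - ‖x - y‖ ^ 2) * (2 * (1 / (G.δ ^ 2 - ‖x - y‖ ^ 2))) = 1 := by
    field_simp
  rw [this, one_smul]

lemma exists_pre [FiniteDimensional ℝ E] {x p : E} (hx : x ∈ G.S) (hp : G.P x p = p) :
    ∃ y ∈ G.S, ‖x - y‖ ^ 2 < G.δ ^ 2 ∧ G.pi x y = p := by
  have hd := G.δpos
  have hrc : Continuous G.r := G.smooth.continuous
  set c : ℝ := 2 * G.δ with hc
  have hcpos : 0 < c := by positivity
  let y : E → E := fun w => G.r (x + G.P x (c • w))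
  have hyc : Continuous y := by
    refine hrc.comp (continuous_const.add ((G.P x).continuous.comp (continuous_const_smul c)))
  let f : E → E := fun w => G.P x (y w - x) + (c • w - G.P x (c • w)) +
    (1 / 2 * max (G.δ ^ 2 - ‖x - y w‖ ^ 2 - ‖c • w - G.P x (c • w)‖ ^ 2) 0) • p
  have hfc : Continuous f := by
    have h1 : Continuous fun w : E => c • w - G.P x (c • w) :=
      (continuous_const_smul c).sub ((G.P x).continuous.comp (continuous_const_smul c))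
    have h2 : Continuous fun w : E => G.P x (y w - x) :=
      (G.P x).continuous.comp (hyc.sub continuous_const)
    refine (h2.add h1).add (Continuous.smul ?_ continuous_const)
    refine continuous_const.mul (Continuous.max ?_ continuous_const)
    exact (continuous_const.sub ((continuous_const.sub hyc).norm.pow 2)).sub (h1.norm.pow 2)
  obtain ⟨w, hw, hz⟩ := Pool.Agent.Lib.Brouwer.exists_zero_or_inward f hfc
  have hw1 : ‖w‖ ≤ 1 := by simpa using hw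
  have hv : ‖c • w‖ = c * ‖w‖ := by rw [norm_smul, Real.norm_eq_abs, abs_of_pos hcpos]
  have hv2 : ‖c • w‖ ≤ 2 * G.δ := by rw [hv]; nlinarith
  have hPv : ‖G.P x (c • w)‖ ≤ 2 * G.δ := (G.norm_P_le hx _).trans hv2
  have hnear : ‖x + G.P x (c • w) - x‖ ≤ 8 * G.δ := by
    rw [add_sub_cancel_left]; linarith
  have hyS : y w ∈ G.S := G.maps (G.ball x hx _ hnear)
  have herr : ‖y w - x - G.P x (c • w)‖ ≤ 1 / 4 * ‖G.P x (c • w)‖ := by
    have := G.mvP hx hnear (G.self_near x)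
    rwa [G.fix x hx, add_sub_cancel_left, G.P_idem hx] at this
  have hup : ‖x - y w‖ ≤ 8 * G.δ := by
    have : ‖y w - x‖ ≤ ‖y w - x - G.P x (c • w)‖ + ‖G.P x (c • w)‖ := by
      simpa using norm_add_le (y w - x - G.P x (c • w)) (G.P x (c • w))
    rw [norm_sub_rev]
    linarith
  rcases hz with hz | ⟨h1, h2⟩
  · have hz' : G.P x (y w - x) + (c • w - G.P x (c • w)) +
        (1 / 2 * max (G.δ ^ 2 - ‖x - y w‖ ^ 2 - ‖c • w - G.P x (c • w)‖ ^ 2) 0) • p = 0 := hz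
    have hP := congrArg (G.P x) hz'
    rw [map_add, map_add, map_sub (G.P x) (c • w), G.P_idem hx, G.P_idem hx, sub_self, add_zero,
      map_smul, hp, map_zero] at hP
    have hn : c • w - G.P x (c • w) = 0 := by
      have e : c • w - G.P x (c • w) = (G.P x (y w - x) + (c • w - G.P x (c • w)) +
        (1 / 2 * max (G.δ ^ 2 - ‖x - y w‖ ^ 2 - ‖c • w - G.P x (c • w)‖ ^ 2) 0) • p) -
        (G.P x (y w - x) +
        (1 / 2 * max (G.δ ^ 2 - ‖x - y w‖ ^ 2 - ‖c • w - G.P x (c • w)‖ ^ 2) 0) • p) := by abel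
      rw [e, hz', hP, sub_self]
    rw [hn, norm_zero] at hP
    refine ⟨y w, hyS, G.of_closed hx hyS hup ?_⟩
    have e : G.P x (x - y w) = -G.P x (y w - x) := by rw [← map_neg, neg_sub]
    rw [e, neg_eq_iff_add_eq_zero]
    simpa using hP
  · exfalso
    have e1 := G.pyth hx (c • w)
    rw [hv, h1, mul_one] at e1
    have hlow : 3 / 4 * ‖G.P x (c • w)‖ ≤ ‖x - y w‖ := by
      have : ‖G.P x (c • w)‖ ≤ ‖y w - x‖ + ‖y w - x - G.P x (c • w)‖ := by
        simpa using norm_sub_le (y w - x) (y w - x - G.P x (c • w))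
      rw [norm_sub_rev]
      linarith
    have hlow2 : (3 / 4 * ‖G.P x (c • w)‖) ^ 2 ≤ ‖x - y w‖ ^ 2 :=
      pow_le_pow_left₀ (by positivity) hlow 2
    have hd2 : 0 < G.δ ^ 2 := by positivity
    have hc2 : c ^ 2 = 4 * G.δ ^ 2 := by rw [hc]; ring
    have hmax : max (G.δ ^ 2 - ‖x - y w‖ ^ 2 - ‖c • w - G.P x (c • w)‖ ^ 2) 0 = 0 := by
      apply max_eq_right
      nlinarith [sq_nonneg ‖c • w - G.P x (c • w)‖]
    have h3 : ⟪f w, c • w⟫_ℝ ≤ 0 := by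
      rw [inner_smul_right]
      exact mul_nonpos_of_nonneg_of_nonpos hcpos.le h2
    have e2 : f w = G.P x (y w - x) + (c • w - G.P x (c • w)) := by
      simp only [f]
      rw [hmax, mul_zero, zero_smul, add_zero]
    have e3 : ⟪G.P x (y w - x), c • w⟫_ℝ =
        ‖G.P x (c • w)‖ ^ 2 + ⟪y w - x - G.P x (c • w), G.P x (c • w)⟫_ℝ := by
      rw [G.P_symm hx, inner_sub_left (y w - x), real_inner_self_eq_norm_sq]
      ring
    have e4 : ⟪c • w - G.P x (c • w), c • w⟫_ℝ = ‖c • w - G.P x (c • w)‖ ^ 2 := by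
      have k : ⟪G.P x (c • w), c • w⟫_ℝ = ‖G.P x (c • w)‖ ^ 2 := by
        rw [← real_inner_self_eq_norm_sq, ← G.P_symm hx, G.P_idem hx]
      rw [inner_sub_left, real_inner_self_eq_norm_sq, k, G.pyth hx (c • w)]
      ring
    have e5 : -(‖y w - x - G.P x (c • w)‖ * ‖G.P x (c • w)‖) ≤
        ⟪y w - x - G.P x (c • w), G.P x (c • w)⟫_ℝ :=
      (abs_le.mp (abs_real_inner_le_norm _ _)).1
    have e6 : ‖y w - x - G.P x (c • w)‖ * ‖G.P x (c • w)‖ ≤
        1 / 4 * ‖G.P x (c • w)‖ * ‖G.P x (c • w)‖ :=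
      mul_le_mul_of_nonneg_right herr (norm_nonneg _)
    rw [e2, inner_add_left, e3, e4] at h3
    nlinarith [sq_nonneg ‖c • w - G.P x (c • w)‖, sq_nonneg ‖G.P x (c • w)‖]

theorem exists_inv [FiniteDimensional ℝ E] : ∃ Y : E × E → E, ContinuousOn Y (Cot G.S) ∧
    ∀ z ∈ Cot G.S, Y z ∈ G.S ∧ ‖z.1 - Y z‖ ^ 2 < G.δ ^ 2 ∧ G.pi z.1 (Y z) = z.2 := by
  have hex : ∀ z : E × E, ∃ y, z ∈ Cot G.S →
      y ∈ G.S ∧ ‖z.1 - y‖ ^ 2 < G.δ ^ 2 ∧ G.pi z.1 y = z.2 := by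
    intro z
    by_cases hz : z ∈ Cot G.S
    · obtain ⟨h1, h2⟩ := (G.mem_cot z).mp hz
      obtain ⟨y, hy⟩ := G.exists_pre h1 h2
      exact ⟨y, fun _ => hy⟩
    · exact ⟨0, fun h => absurd h hz⟩
  choose Y hY using hex
  refine ⟨Y, fun z hz => ?_, hY⟩
  have hz1 : z.1 ∈ G.S := hz.1
  refine G.compact.tendsto_nhds_of_unique_mapClusterPt
    (eventually_mem_nhdsWithin.mono fun w hw => (hY w hw).1) fun y hy hcl => ?_
  obtain ⟨U, hU, hlim⟩ := mapClusterPt_iff_ultrafilter.mp hcl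
  have hid : Tendsto (fun w : E × E => w) (U : Filter (E × E)) (𝓝 z) :=
    hU.trans nhdsWithin_le_nhds
  have hpair : Tendsto (fun w : E × E => (w, Y w)) (U : Filter (E × E)) (𝓝 (z, y)) :=
    hid.prodMk_nhds hlim
  have hev : ∀ᶠ w in (U : Filter (E × E)), w ∈ Cot G.S := hU eventually_mem_nhdsWithin
  have hPc : Continuous G.P := G.P_smooth.continuous
  have c0 : Continuous fun a : (E × E) × E => a.1.1 - a.2 := by fun_prop
  have cl1 : IsClosed {a : (E × E) × E | ‖a.1.1 - a.2‖ ≤ 8 * G.δ} :=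
    isClosed_le c0.norm continuous_const
  have cl2 : IsClosed {a : (E × E) × E | G.P a.1.1 (a.1.1 - a.2) =
      (1 / 2 * max (G.δ ^ 2 - ‖a.1.1 - a.2‖ ^ 2) 0) • a.1.2} := by
    refine isClosed_eq ((hPc.comp (by fun_prop)).clm_apply c0) ?_
    refine Continuous.smul ?_ (by fun_prop)
    exact continuous_const.mul
      (Continuous.max (continuous_const.sub (c0.norm.pow 2)) continuous_const)
  have m1 := cl1.mem_of_tendsto hpair (hev.mono fun w hw => G.near_of_sq (hY w hw).2.1.le)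
  have m2 := cl2.mem_of_tendsto hpair
    (hev.mono fun w hw => G.to_closed (hY w hw).2.1 (hY w hw).2.2)
  obtain ⟨k1, k2⟩ := G.of_closed hz1 hy m1 m2
  obtain ⟨j1, j2, j3⟩ := hY z hz
  exact G.pi_inj hz1 j1 hy j2 k1 (k2.trans j3.symm)

lemma tube {x u : E} (hx : x ∈ G.S) (h : ‖u - x‖ ≤ G.δ) :
    G.r u ∈ G.S ∧ ‖G.r u - x‖ ≤ 2 * G.δ ∧
      ‖G.P (G.r u) (u - G.r u)‖ ≤ 1 / 4 * ‖u - G.r u‖ := by
  have hd := G.δpos
  have h8 : ‖u - x‖ ≤ 8 * G.δ := by linarith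
  have hS : G.r u ∈ G.S := G.maps (G.ball x hx u h8)
  have h1 := G.mvP hx h8 (G.self_near x)
  rw [G.fix x hx] at h1
  have h2 : ‖G.r u - x‖ ≤ 2 * G.δ := by
    have a1 : ‖G.r u - x‖ ≤ ‖G.r u - x - G.P x (u - x)‖ + ‖G.P x (u - x)‖ := by
      simpa using norm_add_le (G.r u - x - G.P x (u - x)) (G.P x (u - x))
    have a2 := G.norm_P_le hx (u - x)
    linarith
  refine ⟨hS, h2, ?_⟩
  have h3 : ‖u - G.r u‖ ≤ 8 * G.δ := by
    have a1 : ‖u - G.r u‖ ≤ ‖u - x‖ + ‖G.r u - x‖ := by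
      simpa using norm_sub_le (u - x) (G.r u - x)
    linarith
  have h4 := G.mvP hS h3 (G.self_near (G.r u))
  rwa [G.fix _ hS, sub_self, zero_sub, norm_neg] at h4

lemma normal_small {x y : E} (hx : x ∈ G.S) (hy : y ∈ G.S) (h : ‖x - y‖ ≤ 8 * G.δ) :
    ‖(x - y) - G.P x (x - y)‖ ≤ 1 / 4 * ‖x - y‖ :=
  G.pair_small hx hx hy (G.self_near x) h

end Geo

end Pool.Agent.Wein
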