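import Mathlib
import Pool.Agent.P.MP_e3ee0c_gt.WRet
import Pool.Agent.P.MP_e3ee0c_gt.WFlow
import Pool.Agent.P.MP_e3ee0c_gt.WIF

/-! The Hamiltonian flow on the cotangent bundle and its action. -/

open Set Filter Topology
open scoped ContDiff InnerProductSpace

namespace Pool.Agent.Wein

variable {E : Type} [NormedAddCommGroup E] [InnerProductSpace ℝ E]

structure Ham (R : Ret E) (F : E × E → ℝ) where
  Φ : ℝ × (E × E) → E × E
  A : ℝ × (E × E) → ℝ
  Φs : ContDiff ℝ ∞ Φ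
  As : ContDiff ℝ ∞ A
  zero : ∀ z, Φ (0, z) = z
  add : ∀ s t z, Φ (s + t, z) = Φ (s, Φ (t, z))
  mem : ∀ t, ∀ z ∈ Cot R.S, Φ (t, z) ∈ Cot R.S
  orbit : ∀ z ∈ Cot R.S, IsOrbit R.S F (fun t => Φ (t, z))
  stat : ∀ z ∈ Cot R.S, (F z = 0 ∨ F z = 1) → ∀ t, Φ (t, z) = z
  Fconst : ∀ z ∈ Cot R.S, ∀ t, F (Φ (t, z)) = F z
  Azero : ∀ z, A (0, z) = 0
  Aderiv : ∀ z ∈ Cot R.S, ∀ t, HasDerivAt (fun s => A (s, z))
    (⟪(Φ (t, z)).2, (deriv (fun s => Φ (s, z)) t).1⟫_ℝ - F (Φ (t, z))) t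
  Aadd : ∀ s t, ∀ z ∈ Cot R.S, A (s + t, z) = A (t, z) + A (s, Φ (t, z))
  Astat : ∀ z ∈ Cot R.S, (∀ t, Φ (t, z) = z) → ∀ t, A (t, z) = -t * F z
  var : ∀ t θ, ∀ z ∈ Cot R.S, ∀ v ∈ Tan (Cot R.S) z, fderiv ℝ A (t, z) (θ, v) =
    ⟪(Φ (t, z)).2, (fderiv ℝ Φ (t, z) (θ, v)).1⟫_ℝ - ⟪z.2, v.1⟫_ℝ - θ * F z

/-- The flow of a field together with the integral of a function along it. -/
theorem ham_aug {Y : Type} [NormedAddCommGroup Y] [NormedSpace ℝ Y] [FiniteDimensional ℝ Y]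
    (X : Y → Y) (hX : ContDiff ℝ ∞ X) (K : NNReal) (hK : LipschitzWith K X)
    (L : Y → ℝ) (hL : ContDiff ℝ ∞ L) (K' : NNReal) (hK' : LipschitzWith K' L) :
    ∃ (Φ : ℝ × Y → Y) (A : ℝ × Y → ℝ), ContDiff ℝ ∞ Φ ∧ ContDiff ℝ ∞ A ∧ (∀ z, Φ (0, z) = z) ∧
      (∀ z, A (0, z) = 0) ∧ (∀ t z, HasDerivAt (fun s => Φ (s, z)) (X (Φ (t, z))) t) ∧
      (∀ t z, HasDerivAt (fun s => A (s, z)) (L (Φ (t, z))) t) ∧
      (∀ s t z, Φ (s + t, z) = Φ (s, Φ (t, z))) ∧
      (∀ s t z, A (s + t, z) = A (t, z) + A (s, Φ (t, z))) ∧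
      (∀ t z ξ, HasDerivAt (fun s => fderiv ℝ Φ (s, z) ξ)
        (fderiv ℝ X (Φ (t, z)) (fderiv ℝ Φ (t, z) ξ)) t) ∧
      (∀ t z ξ, HasDerivAt (fun s => fderiv ℝ A (s, z) ξ)
        (fderiv ℝ L (Φ (t, z)) (fderiv ℝ Φ (t, z) ξ)) t) := by
  set V : Y × ℝ → Y × ℝ := fun w => (X w.1, L w.1) with hV
  have hVs : ContDiff ℝ ∞ V := (hX.comp contDiff_fst).prodMk (hL.comp contDiff_fst)
  have hVl : LipschitzWith (max (K * 1) (K' * 1)) V :=
    (hK.comp LipschitzWith.prod_fst).prodMk (hK'.comp LipschitzWith.prod_fst)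
  obtain ⟨Ψ, hΨ, h0, hd, hadd⟩ := exists_flow V hVs _ hVl
  have hshift : ∀ s z a, Ψ (s, (z, a)) = Ψ (s, (z, 0)) + (0, a) := by
    intro s z a
    have := Pool.Agent.Lib.Flow.curve_unique (v := V) (c := fun s => Ψ (s, (z, a)))
      (d := fun s => Ψ (s, (z, 0)) + (0, a))
      (fun t => hVs.contDiffAt.of_le (by simp)) (fun t => hd t _)
      (fun t => by
        have h1 := (hd t (z, 0)).add_const ((0 : Y), a)
        simpa [hV] using h1) (t₀ := 0) (by simp [h0])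
    exact congrFun this s
  set Q : ℝ × Y → Y × ℝ := fun w => Ψ (w.1, (w.2, 0)) with hQ
  have hQs : ContDiff ℝ ∞ Q := hΨ.comp (contDiff_fst.prodMk (contDiff_snd.prodMk contDiff_const))
  have hQd : Differentiable ℝ Q := hQs.differentiable (by simp)
  have hQt : ∀ t z, HasDerivAt (fun s => Q (s, z)) (V (Q (t, z))) t := fun t z => hd t (z, 0)
  have e1 : ∀ w ξ, fderiv ℝ (fun w => (Q w).1) w ξ = (fderiv ℝ Q w ξ).1 := by
    intro w ξ
    rw [(hQd w).hasFDerivAt.fst.fderiv]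
    rfl
  have e2 : ∀ w ξ, fderiv ℝ (fun w => (Q w).2) w ξ = (fderiv ℝ Q w ξ).2 := by
    intro w ξ
    rw [(hQd w).hasFDerivAt.snd.fderiv]
    rfl
  have eV : ∀ w η, fderiv ℝ V w η = (fderiv ℝ X w.1 η.1, fderiv ℝ L w.1 η.1) := by
    intro w η
    have a1 := (hX.differentiable (by simp) w.1).hasFDerivAt.comp w hasFDerivAt_fst
    have a2 := (hL.differentiable (by simp) w.1).hasFDerivAt.comp w hasFDerivAt_fst
    have a3 : fderiv ℝ V w = _ := (a1.prodMk a2).fderiv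
    rw [a3]
    rfl
  have hvar : ∀ t z ξ, HasDerivAt (fun s => fderiv ℝ Q (s, z) ξ)
      (fderiv ℝ V (Q (t, z)) (fderiv ℝ Q (t, z) ξ)) t := fun t z ξ =>
    Pool.Agent.Lib.Flow.variation
      (hQs.contDiffAt.of_le (WithTop.coe_le_coe.2 (le_top : (2 : ℕ∞) ≤ ⊤)))
      (hVs.differentiable (by simp) _) (Eventually.of_forall fun w => hQt w.1 w.2) ξ
  have hQadd : ∀ s t z, Q (s + t, z) = Q (s, (Q (t, z)).1) + (0, (Q (t, z)).2) := by
    intro s t z
    show Ψ (s + t, (z, 0)) = Ψ (s, ((Q (t, z)).1, 0)) + (0, (Q (t, z)).2)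
    rw [hadd, ← hshift]
  refine ⟨fun w => (Q w).1, fun w => (Q w).2, hQs.fst, hQs.snd, fun z => ?_, fun z => ?_,
    fun t z => ?_, fun t z => ?_, fun s t z => ?_, fun s t z => ?_, fun t z ξ => ?_,
    fun t z ξ => ?_⟩
  · simp [hQ, h0]
  · simp [hQ, h0]
  · exact (hasFDerivAt_fst (𝕜 := ℝ)).comp_hasDerivAt t (hQt t z)
  · exact (hasFDerivAt_snd (𝕜 := ℝ)).comp_hasDerivAt t (hQt t z)
  · simp [hQadd]
  · simp [hQadd, add_comm]
  · simp only [e1]
    have := (hasFDerivAt_fst (𝕜 := ℝ)).comp_hasDerivAt t (hvar t z ξ)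
    rw [eV] at this
    exact this
  · simp only [e1, e2]
    have := (hasFDerivAt_snd (𝕜 := ℝ)).comp_hasDerivAt t (hvar t z ξ)
    rw [eV] at this
    exact this

/-- The symplectic gradient of a function on E × E. -/
theorem ham_grad [FiniteDimensional ℝ E] (H : E × E → ℝ) (hH : ContDiff ℝ ∞ H) :
    ∃ X0 : E × E → E × E, ContDiff ℝ ∞ X0 ∧ (∀ z b, ⟪(X0 z).1, b⟫_ℝ = fderiv ℝ H z (0, b)) ∧
      ∀ z a, ⟪(X0 z).2, a⟫_ℝ = -fderiv ℝ H z (a, 0) := by
  have : CompleteSpace E := FiniteDimensional.complete ℝ E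
  have hD : ContDiff ℝ ∞ (fderiv ℝ H) := hH.fderiv_right (m := ∞) (by simp)
  set T : (E →L[ℝ] ℝ) →L[ℝ] E :=
    (InnerProductSpace.toDual ℝ E).symm.toContinuousLinearEquiv.toContinuousLinearMap with hT
  have hTa : ∀ (l : E →L[ℝ] ℝ) (a : E), ⟪T l, a⟫_ℝ = l a := fun l a =>
    InnerProductSpace.toDual_symm_apply
  refine ⟨fun z => (T ((fderiv ℝ H z).comp (ContinuousLinearMap.inr ℝ E E)),
    -T ((fderiv ℝ H z).comp (ContinuousLinearMap.inl ℝ E E))), ?_, fun z b => ?_, fun z a => ?_⟩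
  · exact (T.contDiff.comp (hD.clm_comp contDiff_const)).prodMk
      (T.contDiff.comp (hD.clm_comp contDiff_const)).neg
  · simp [hTa]
  · simp [hTa]

theorem ham_field [FiniteDimensional ℝ E] (R : Ret E) (F : E × E → ℝ) (hF : ContDiff ℝ ∞ F)
    (h01 : ∀ z ∈ Cot R.S, 0 ≤ F z ∧ F z ≤ 1) (Rb : ℝ)
    (hR : ∀ z ∈ Cot R.S, Rb ≤ ‖z.2‖ → F z = 1) :
    ∃ (X g : E × E → E × E) (L : E × E → ℝ) (K K' : NNReal), ContDiff ℝ ∞ X ∧ LipschitzWith K X ∧
      ContDiff ℝ ∞ L ∧ LipschitzWith K' L ∧ Continuous g ∧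
      (∀ z, X z = fderiv ℝ R.hat.r z (g z)) ∧
      (∀ z ∈ Cot R.S, X z ∈ Tan (Cot R.S) z) ∧
      (∀ z ∈ Cot R.S, ∀ u ∈ Tan (Cot R.S) z, omega (X z) u = -fderiv ℝ F z u) ∧
      (∀ z ∈ Cot R.S, (F z = 0 ∨ F z = 1) → X z = 0) ∧
      ∀ z ∈ Cot R.S, L z = ⟪z.2, (X z).1⟫_ℝ - F z := by
  have hr : Differentiable ℝ R.hat.r := R.hat.smooth.differentiable (by simp)
  have hFd : Differentiable ℝ F := hF.differentiable (by simp)
  obtain ⟨X0, hX0, hX1, hX2⟩ := ham_grad (F ∘ R.hat.r) (hF.comp R.hat.smooth)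
  obtain ⟨χ, hχ, hχc, -, -, hχ1⟩ := exists_bump (R.S ×ˢ Metric.closedBall (0 : E) Rb) univ
    (R.compact.prod (isCompact_closedBall 0 Rb)) isOpen_univ (subset_univ _)
  have hone : ∀ z ∈ Cot R.S, χ z = 1 ∨ F z = 1 := by
    intro z hz
    rcases le_total Rb ‖z.2‖ with h | h
    · exact Or.inr (hR z hz h)
    · exact Or.inl (hχ1.self_of_nhdsSet z ⟨hz.1, by simpa using h⟩)
  have hext : ∀ z ∈ Cot R.S, (F z = 0 ∨ F z = 1) → ∀ u ∈ Tan (Cot R.S) z, fderiv ℝ F z u = 0 := by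
    intro z hz h u hu
    apply Tan.fderiv_eq_zero hu (hFd z)
    rcases h with h | h
    · exact Or.inl (Eventually.of_forall fun y hy => h ▸ (h01 y hy).1)
    · exact Or.inr (Eventually.of_forall fun y hy => h ▸ (h01 y hy).2)
  have hcomp : ∀ z ∈ Cot R.S, ∀ u, fderiv ℝ (F ∘ R.hat.r) z u =
      fderiv ℝ F z (fderiv ℝ R.hat.r z u) := by
    intro z hz u
    rw [fderiv_comp z (hFd _) (hr z), R.hat.fix z hz]
    rfl
  set g : E × E → E × E := fun z => χ z • X0 z with hg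
  have hgs : ContDiff ℝ ∞ g := hχ.smul hX0
  set X : E × E → E × E := fun z => fderiv ℝ R.hat.r z (g z) with hX
  have hXs : ContDiff ℝ ∞ X := (R.hat.smooth.fderiv_right (m := ∞) (by simp)).clm_apply hgs
  have hXc : HasCompactSupport X := by
    refine hχc.mono fun z hz => ?_
    intro h
    apply hz
    simp [hX, hg, h]
  have htan : ∀ z ∈ Cot R.S, X z ∈ Tan (Cot R.S) z := fun z hz =>
    (R.hat.tan_iff hz _).2 (R.hat.idem hz _)
  have hom : ∀ z ∈ Cot R.S, ∀ u ∈ Tan (Cot R.S) z, omega (X z) u = -fderiv ℝ F z u := by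
    intro z hz u hu
    obtain ⟨hx, hp⟩ := (R.mem_cot z).1 hz
    have hu1 := R.tan_cot_fst hz hu
    have huu : fderiv ℝ R.hat.r z u = u := (R.hat.tan_iff hz u).1 hu
    have h1 : ⟪u.2, R.P z.1 (X0 z).1⟫_ℝ = ⟪(X0 z).1, u.2⟫_ℝ := by
      rw [← R.P_symm hx, real_inner_comm, hX1, hX1, hcomp z hz, hcomp z hz, R.fderiv_hat hz,
        R.fderiv_hat hz]
      simp [R.P_idem hx]
    have h2 : omega (fderiv ℝ R.hat.r z (X0 z)) u = -fderiv ℝ F z u := by
      rw [R.fderiv_hat hz]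
      simp only [omega, inner_add_left]
      rw [R.DP_normal hx (R.P_idem hx _) hp hu1, R.P_symm hx, hu1, h1, hX1, hX2]
      have h3 : fderiv ℝ (F ∘ R.hat.r) z u = fderiv ℝ (F ∘ R.hat.r) z (u.1, 0) +
          fderiv ℝ (F ∘ R.hat.r) z (0, u.2) := by
        rw [← map_add]
        simp
      rw [hcomp z hz u, huu] at h3
      linarith
    have h4 : omega (X z) u = χ z * omega (fderiv ℝ R.hat.r z (X0 z)) u := by
      simp only [hX, hg, map_smul, omega, Prod.smul_fst, Prod.smul_snd, inner_smul_left,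
        inner_smul_right, conj_trivial]
      ring
    rw [h4, h2]
    rcases hone z hz with h | h
    · rw [h, one_mul]
    · rw [hext z hz (Or.inr h) u hu]
      simp
  have hst : ∀ z ∈ Cot R.S, (F z = 0 ∨ F z = 1) → X z = 0 := fun z hz h =>
    R.omega_nondeg hz (htan z hz) fun u hu => by rw [hom z hz u hu, hext z hz h u hu, neg_zero]
  set M : E × E → ℝ := fun z => χ z * (⟪z.2, (X z).1⟫_ℝ - F z + 1) with hM
  have hMs : ContDiff ℝ ∞ M :=
    hχ.mul (((contDiff_snd.inner ℝ hXs.fst).sub hF).add contDiff_const)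
  have hMc : HasCompactSupport M := hχc.mul_right
  obtain ⟨K, hK⟩ := ContDiff.lipschitzWith_of_hasCompactSupport hXc hXs (by simp)
  obtain ⟨K', hK'⟩ := ContDiff.lipschitzWith_of_hasCompactSupport hMc hMs (by simp)
  refine ⟨X, g, fun z => M z - 1, K, K', hXs, hK, hMs.sub contDiff_const, ?_, hgs.continuous,
    fun z => rfl, htan, hom, hst, fun z hz => ?_⟩
  · refine LipschitzWith.of_dist_le_mul fun a b => ?_
    simpa [dist_sub_right] using hK'.dist_le_mul a b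
  · rcases hone z hz with h | h
    · simp [hM, h]
    · simp [hM, h, hst z hz (Or.inr h)]

theorem exists_ham [FiniteDimensional ℝ E] (R : Ret E) (F : E × E → ℝ) (hF : ContDiff ℝ ∞ F)
    (h01 : ∀ z ∈ Cot R.S, 0 ≤ F z ∧ F z ≤ 1) (Rb : ℝ)
    (hR : ∀ z ∈ Cot R.S, Rb ≤ ‖z.2‖ → F z = 1) : Nonempty (Ham R F) := by
  obtain ⟨X, g, L, K, K', hX, hK, hL, hK', hg, hXg, htan, hom, hst, hLe⟩ :=
    ham_field R F hF h01 Rb hR
  obtain ⟨Φ, A, hΦ, hA, h0, hA0, hd, hAd, hadd, hAadd, hvΦ, hvA⟩ := ham_aug X hX K hK L hL K' hK'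
  have hFd : Differentiable ℝ F := hF.differentiable (by simp)
  have hXd : Differentiable ℝ X := hX.differentiable (by simp)
  have hLd : Differentiable ℝ L := hL.differentiable (by simp)
  have hΦd : Differentiable ℝ Φ := hΦ.differentiable (by simp)
  have hAdd : Differentiable ℝ A := hA.differentiable (by simp)
  have hmem : ∀ t, ∀ z ∈ Cot R.S, Φ (t, z) ∈ Cot R.S := by
    intro t z hz
    refine R.hat.inv_global (fun s => Φ (s, z)) (fun s => g (Φ (s, z)))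
      (hg.comp (hΦ.continuous.comp (continuous_id.prodMk continuous_const))) (fun s => ?_)
      (by show Φ (0, z) ∈ Cot R.S; rw [h0]; exact hz) t
    rw [← hXg]
    exact hd s z
  have hFc : ∀ z ∈ Cot R.S, ∀ t, F (Φ (t, z)) = F z := by
    intro z hz t
    have h1 : ∀ s, HasDerivAt (fun s => F (Φ (s, z))) 0 s := by
      intro s
      have h2 := (hFd (Φ (s, z))).hasFDerivAt.comp_hasDerivAt s (hd s z)
      have h3 := hom _ (hmem s z hz) _ (htan _ (hmem s z hz))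
      have h4 : fderiv ℝ F (Φ (s, z)) (X (Φ (s, z))) = 0 := by
        simp only [omega, sub_self] at h3
        linarith
      rw [h4] at h2
      exact h2
    have := is_const_of_deriv_eq_zero (fun s => (h1 s).differentiableAt) (fun s => (h1 s).deriv) t 0
    simpa [h0] using this
  refine ⟨⟨Φ, A, hΦ, hA, h0, hadd, hmem, fun z hz t => ⟨hmem t z hz, _, hd t z,
    hom _ (hmem t z hz)⟩, fun z hz h t => ?_, hFc, hA0, fun z hz t => ?_,
    fun s t z _ => hAadd s t z, fun z hz h t => ?_, fun t θ z hz v hv => ?_⟩⟩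
  · have := Pool.Agent.Lib.Flow.curve_const (v := X) (c := fun s => Φ (s, z)) (t₀ := 0)
      (hX.contDiffAt.of_le (by simp)) (fun s => hd s z) (by simpa [h0] using hst z hz h) t
    simpa [h0] using this
  · rw [(hd t z).deriv, ← hLe _ (hmem t z hz)]
    exact hAd t z
  · have hz0 : X z = 0 := by
      have h1 := hd 0 z
      simp only [h] at h1
      exact h1.unique (hasDerivAt_const _ _)
    have h1 : ∀ s, HasDerivAt (fun s => A (s, z) + s * F z) 0 s := by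
      intro s
      have h2 := (hAd s z).add ((hasDerivAt_id s).mul_const (F z))
      rw [h s, hLe z hz, hz0] at h2
      exact h2.congr_deriv (by simp)
    have := is_const_of_deriv_eq_zero (fun s => (h1 s).differentiableAt) (fun s => (h1 s).deriv) t 0
    simp only [hA0, zero_mul, add_zero] at this
    linarith
  · have hsl : ∀ (s : ℝ) (w : E × E), HasFDerivAt (fun y : E × E => ((s, y) : ℝ × (E × E)))
        (ContinuousLinearMap.inr ℝ ℝ (E × E)) w := fun s w => hasFDerivAt_prodMk_right s w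
    have hw : ∀ s, fderiv ℝ Φ (s, z) (0, v) ∈ Tan (Cot R.S) (Φ (s, z)) := by
      intro s
      have h1 := (hΦd (s, z)).hasFDerivAt.comp z (hsl s z)
      have h2 := Tan.map hv (S' := Cot R.S) h1.differentiableAt
        (Eventually.of_forall fun y hy => hmem s y hy)
      rw [h1.fderiv] at h2
      exact h2
    have h1 : ∀ s, HasDerivAt (fun s => fderiv ℝ A (s, z) (0, v) -
        ⟪(Φ (s, z)).2, (fderiv ℝ Φ (s, z) (0, v)).1⟫_ℝ) 0 s := by
      intro s
      have a1 : HasDerivAt (fun s => (Φ (s, z)).2) (X (Φ (s, z))).2 s :=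
        (ContinuousLinearMap.snd ℝ E E).hasFDerivAt.comp_hasDerivAt s (hd s z)
      have a2 : HasDerivAt (fun s => (fderiv ℝ Φ (s, z) (0, v)).1)
          (fderiv ℝ X (Φ (s, z)) (fderiv ℝ Φ (s, z) (0, v))).1 s :=
        (ContinuousLinearMap.fst ℝ E E).hasFDerivAt.comp_hasDerivAt s (hvΦ s z (0, v))
      have a3 := (hvA s z (0, v)).sub (a1.inner ℝ a2)
      have b1 := ((hasFDerivAt_snd (𝕜 := ℝ) (p := Φ (s, z))).inner ℝ
        (hXd (Φ (s, z))).hasFDerivAt.fst).sub (hFd (Φ (s, z))).hasFDerivAt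
      have b2 := Tan.fderiv_congr (hw s) (hLd _) b1.differentiableAt
        (Eventually.of_forall fun y hy => hLe y hy)
      rw [b1.fderiv] at b2
      have b3 := hom _ (hmem s z hz) _ (hw s)
      refine a3.congr_deriv ?_
      rw [b2]
      simp only [omega] at b3
      simp
      linarith
    have h2 := is_const_of_deriv_eq_zero (fun s => (h1 s).differentiableAt)
      (fun s => (h1 s).deriv) t 0
    have c1 : fderiv ℝ A (0, z) (0, v) = 0 := by
      have d1 := (hAdd (0, z)).hasFDerivAt.comp z (hsl 0 z)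
      have d2 : (A ∘ fun y : E × E => (((0 : ℝ), y) : ℝ × (E × E))) = fun _ => 0 := funext hA0
      rw [d2] at d1
      exact congrArg (fun l => l v) (d1.unique (hasFDerivAt_const _ _))
    have c2 : fderiv ℝ Φ (0, z) (0, v) = v := by
      have d1 := (hΦd (0, z)).hasFDerivAt.comp z (hsl 0 z)
      have d2 : (Φ ∘ fun y : E × E => (((0 : ℝ), y) : ℝ × (E × E))) = id := funext h0
      rw [d2] at d1
      exact congrArg (fun l => l v) (d1.unique (hasFDerivAt_id _))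
    have c3 := Pool.Agent.Lib.Flow.fderiv_time (hAdd (t, z)) (hAd t z)
    have c4 := Pool.Agent.Lib.Flow.fderiv_time (hΦd (t, z)) (hd t z)
    have c5 : ((θ, v) : ℝ × (E × E)) = θ • ((1, 0) : ℝ × (E × E)) + (0, v) := by simp
    simp only [c1, c2, h0] at h2
    rw [c5, map_add, map_add, map_smul, map_smul, c3, c4, hLe _ (hmem t z hz), hFc z hz t]
    simp only [Prod.fst_add, Prod.smul_fst, inner_add_right, inner_smul_right, smul_eq_mul]
    linarith

end Pool.Agent.Wein
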