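import Mathlib
import Pool.Agent.P.MP_e3ee0c_gt.WGeo
import Pool.Agent.P.MP_e3ee0c_gt.WHam

/-! The generating function of a short piece of the Hamiltonian flow. -/

open Set Filter Topology
open scoped ContDiff InnerProductSpace

namespace Pool.Agent.Wein

variable {E : Type} [NormedAddCommGroup E] [InnerProductSpace ℝ E]

structure Step (G : Geo E) (F : E × E → ℝ) (Hm : Ham G.toRet F) where
  τ₀ : ℝ
  τpos : 0 < τ₀
  w : ℝ × E × E → ℝ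
  ws : ContDiff ℝ ∞ w
  pm : ℝ × E × E → E
  mem : ∀ τ ∈ Icc 0 τ₀, ∀ x ∈ G.S, ∀ y ∈ G.S, ‖x - y‖ ^ 2 < G.δ ^ 2 →
    (x, pm (τ, x, y)) ∈ Cot G.S
  lt : ∀ τ ∈ Icc 0 τ₀, ∀ x ∈ G.S, ∀ y ∈ G.S, ‖x - y‖ ^ 2 < G.δ ^ 2 →
    ‖(Hm.Φ (τ, x, pm (τ, x, y))).1 - y‖ ^ 2 < G.δ ^ 2
  out : ∀ τ ∈ Icc 0 τ₀, ∀ x ∈ G.S, ∀ y ∈ G.S, ‖x - y‖ ^ 2 < G.δ ^ 2 →
    (Hm.Φ (τ, x, pm (τ, x, y))).2 = G.pi (Hm.Φ (τ, x, pm (τ, x, y))).1 y
  val : ∀ τ ∈ Icc 0 τ₀, ∀ x ∈ G.S, ∀ y ∈ G.S, ‖x - y‖ ^ 2 < G.δ ^ 2 →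
    Real.log (G.δ ^ 2 - ‖x - y‖ ^ 2) + w (τ, x, y) = Hm.A (τ, x, pm (τ, x, y)) +
      Real.log (G.δ ^ 2 - ‖(Hm.Φ (τ, x, pm (τ, x, y))).1 - y‖ ^ 2)
  der : ∀ τ ∈ Icc 0 τ₀, ∀ x ∈ G.S, ∀ y ∈ G.S, ‖x - y‖ ^ 2 < G.δ ^ 2 →
    ∀ θ u v, G.P x u = u → G.P y v = v → fderiv ℝ w (τ, x, y) (θ, u, v) =
      -θ * F (x, pm (τ, x, y)) + ⟪G.pi x y - pm (τ, x, y), u⟫_ℝ +
        ⟪G.pi y x - G.pi y (Hm.Φ (τ, x, pm (τ, x, y))).1, v⟫_ℝ
  stat : ∀ τ ∈ Icc 0 τ₀, ∀ x ∈ G.S, ∀ y ∈ G.S, ‖x - y‖ ^ 2 < G.δ ^ 2 →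
    (∀ t, Hm.Φ (t, x, G.pi x y) = (x, G.pi x y)) → pm (τ, x, y) = G.pi x y

namespace Geo

variable (G : Geo E)

lemma stp_P_pi {x : E} (hx : x ∈ G.S) (y : E) : G.P x (G.pi x y) = G.pi x y := by
  unfold pi tw
  rw [map_smul, G.P_idem hx]

lemma stp_pi_mem_cot {x : E} (hx : x ∈ G.S) (y : E) : (x, G.pi x y) ∈ Cot G.S :=
  (G.mem_cot _).2 ⟨hx, G.stp_P_pi hx y⟩

lemma stp_contDiffAt_pi {X : Type*} [NormedAddCommGroup X] [NormedSpace ℝ X] {a b : X → E} {k : X}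
    (ha : ContDiffAt ℝ ∞ a k) (hb : ContDiffAt ℝ ∞ b k) (h : ‖a k - b k‖ ^ 2 < G.δ ^ 2) :
    ContDiffAt ℝ ∞ (fun k => G.pi (a k) (b k)) k := by
  unfold pi tw
  have h1 : ContDiffAt ℝ ∞ (fun k => ‖a k - b k‖ ^ 2) k := (ha.sub hb).norm_sq ℝ
  have h2 : ContDiffAt ℝ ∞ (fun k => 1 / (G.δ ^ 2 - ‖a k - b k‖ ^ 2)) k :=
    contDiffAt_const.div (contDiffAt_const.sub h1) (by linarith)
  exact (contDiffAt_const.mul h2).smul
    ((G.P_smooth.contDiffAt.comp k ha).clm_apply (ha.sub hb))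

lemma stp_exists_thr (Rb : ℝ) : ∃ t₁ < G.δ ^ 2, ∀ x ∈ G.S, ∀ y ∈ G.S, t₁ ≤ ‖x - y‖ ^ 2 →
    ‖x - y‖ ^ 2 < G.δ ^ 2 → Rb ≤ ‖G.pi x y‖ := by
  have hδ := G.δpos
  have hR : 0 < |Rb| + 1 := by positivity
  set ε := min (G.δ ^ 2 / 2) (G.δ / (2 * (|Rb| + 1))) with hε
  have hε0 : 0 < ε := lt_min (by positivity) (by positivity)
  refine ⟨G.δ ^ 2 - ε, by linarith, fun x hx y hy h1 h2 => ?_⟩
  have e1 : ε ≤ G.δ ^ 2 / 2 := min_le_left _ _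
  have e2 : ε ≤ G.δ / (2 * (|Rb| + 1)) := min_le_right _ _
  have n0 := norm_nonneg (x - y)
  have hlt : ‖x - y‖ < G.δ := by nlinarith
  have hge : G.δ / 2 ≤ ‖x - y‖ := by nlinarith
  have hl := G.lower hx hy (by linarith)
  have hpos : 0 < G.δ ^ 2 - ‖x - y‖ ^ 2 := by linarith
  have hn : ‖G.pi x y‖ = 2 * (1 / (G.δ ^ 2 - ‖x - y‖ ^ 2)) * ‖G.P x (x - y)‖ := by
    unfold pi tw
    rw [norm_smul, Real.norm_of_nonneg (by positivity)]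
  rw [hn]
  have e3 : (G.δ ^ 2 - ‖x - y‖ ^ 2) * (2 * (|Rb| + 1)) ≤ G.δ := by
    rw [le_div_iff₀ (by positivity)] at e2
    nlinarith
  have e4 : 2 * (1 / (G.δ ^ 2 - ‖x - y‖ ^ 2)) * ‖G.P x (x - y)‖
      = 2 * ‖G.P x (x - y)‖ / (G.δ ^ 2 - ‖x - y‖ ^ 2) := by
    field_simp
  rw [e4, le_div_iff₀ hpos]
  have e5 := le_abs_self Rb
  have e6 : Rb * (G.δ ^ 2 - ‖x - y‖ ^ 2) ≤ (|Rb| + 1) * (G.δ ^ 2 - ‖x - y‖ ^ 2) :=
    mul_le_mul_of_nonneg_right (by linarith) hpos.le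
  nlinarith

/-- The derivative of the logarithmic barrier along a pair of curves. -/
lemma stp_hasDerivAt_log {a b : ℝ → E} {a' b' : E} (ha : HasDerivAt a a' 0) (hb : HasDerivAt b b' 0)
    (ha0 : a 0 ∈ G.S) (hb0 : b 0 ∈ G.S) (ha' : G.P (a 0) a' = a') (hb' : G.P (b 0) b' = b')
    (h : ‖a 0 - b 0‖ ^ 2 < G.δ ^ 2) :
    HasDerivAt (fun t => Real.log (G.δ ^ 2 - ‖a t - b t‖ ^ 2))
      (-(⟪G.pi (a 0) (b 0), a'⟫_ℝ + ⟪G.pi (b 0) (a 0), b'⟫_ℝ)) 0 := by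
  have h1 : HasDerivAt (fun t => ‖a t - b t‖ ^ 2) (2 * ⟪a 0 - b 0, a' - b'⟫_ℝ) 0 :=
    (ha.sub hb).norm_sq
  have hpos : G.δ ^ 2 - ‖a 0 - b 0‖ ^ 2 ≠ 0 := by linarith
  have h2 := (h1.const_sub (G.δ ^ 2)).log hpos
  convert h2 using 1
  unfold pi tw
  rw [real_inner_smul_left, real_inner_smul_left, G.P_symm ha0, G.P_symm hb0, ha', hb',
    norm_sub_rev (b 0) (a 0), inner_sub_right, ← neg_sub (a 0) (b 0), inner_neg_left]
  field_simp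
  ring

end Geo

lemma stp_exists_curve (G : Geo E) {x y u v : E} (hx : x ∈ G.S) (hy : y ∈ G.S) (hu : G.P x u = u)
    (hv : G.P y v = v) : ∃ a b : ℝ → E, a 0 = x ∧ b 0 = y ∧ HasDerivAt a u 0 ∧
      HasDerivAt b v 0 ∧ ∀ᶠ t in 𝓝 (0 : ℝ), a t ∈ G.S ∧ b t ∈ G.S := by
  obtain ⟨a, a0, ha, da⟩ := (G.mem_tan hx u).2 hu
  obtain ⟨b, b0, hb, db⟩ := (G.mem_tan hy v).2 hv
  exact ⟨a, b, a0, b0, da, db, ha.and hb⟩

/-- The implicit solution near the compact set of close pairs at time zero. -/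
lemma stp_exists_solution [FiniteDimensional ℝ E] (G : Geo E) (F : E × E → ℝ) (Hm : Ham G.toRet F)
    (t₁ : ℝ) (ht : t₁ < G.δ ^ 2) :
    ∃ (U : Set (ℝ × E × E)) (p : ℝ × E × E → E), IsOpen U ∧ ContDiffOn ℝ ∞ p U ∧
      (∀ x ∈ G.S, ∀ y ∈ G.S, ‖x - y‖ ^ 2 ≤ t₁ → ((0 : ℝ), x, y) ∈ U) ∧
      (∀ k ∈ U, ‖k.2.1 - k.2.2‖ ^ 2 < G.δ ^ 2 ∧
        ‖(Hm.Φ (k.1, G.r k.2.1, G.P (G.r k.2.1) (p k))).1 - G.r k.2.2‖ ^ 2 < G.δ ^ 2) ∧
      ∀ τ, ∀ x ∈ G.S, ∀ y ∈ G.S, (τ, x, y) ∈ U → G.P x (p (τ, x, y)) = p (τ, x, y) ∧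
        (Hm.Φ (τ, x, p (τ, x, y))).2 = G.pi (Hm.Φ (τ, x, p (τ, x, y))).1 y ∧
        ((∀ t, Hm.Φ (t, x, G.pi x y) = (x, G.pi x y)) → p (τ, x, y) = G.pi x y) := by
  set Z : (ℝ × E × E) × E → E × E :=
    fun w => Hm.Φ (w.1.1, G.r w.1.2.1, G.P (G.r w.1.2.1) w.2) with hZ
  have hr1 : ContDiff ℝ ∞ (fun w : (ℝ × E × E) × E => G.r w.1.2.1) :=
    G.smooth.comp (contDiff_fst.snd.fst)
  have hr2 : ContDiff ℝ ∞ (fun w : (ℝ × E × E) × E => G.r w.1.2.2) :=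
    G.smooth.comp (contDiff_fst.snd.snd)
  have hP : ContDiff ℝ ∞ (fun w : (ℝ × E × E) × E => G.P (G.r w.1.2.1)) :=
    G.P_smooth.comp hr1
  have hZs : ContDiff ℝ ∞ Z :=
    Hm.Φs.comp (contDiff_fst.fst.prodMk (hr1.prodMk (hP.clm_apply contDiff_snd)))
  set Ψ : (ℝ × E × E) × E → E := fun w =>
    G.P (G.r w.1.2.1) ((Z w).2 - G.pi (Z w).1 (G.r w.1.2.2)) + (w.2 - G.P (G.r w.1.2.1) w.2)
    with hΨ
  set O : Set ((ℝ × E × E) × E) := {w | ‖(Z w).1 - G.r w.1.2.2‖ ^ 2 < G.δ ^ 2} with hO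
  have hOo : IsOpen O :=
    isOpen_lt ((hZs.fst.sub hr2).continuous.norm.pow 2) continuous_const
  have hΨs : ContDiffOn ℝ ∞ Ψ O := by
    intro w hw
    refine ContDiffAt.contDiffWithinAt ?_
    exact (hP.contDiffAt.clm_apply (hZs.snd.contDiffAt.sub
      (G.stp_contDiffAt_pi hZs.fst.contDiffAt hr2.contDiffAt hw))).add
      (contDiffAt_snd.sub (hP.contDiffAt.clm_apply contDiffAt_snd))
  set K : Set (ℝ × E × E) :=
    ({0} ×ˢ G.S ×ˢ G.S) ∩ {k | ‖k.2.1 - k.2.2‖ ^ 2 ≤ t₁} with hK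
  have hKc : IsCompact K :=
    (isCompact_singleton.prod (G.compact.prod G.compact)).inter_right
      (isClosed_le (by fun_prop) continuous_const)
  have hKm : ∀ k ∈ K, ∃ x ∈ G.S, ∃ y ∈ G.S, ‖x - y‖ ^ 2 ≤ t₁ ∧ k = (0, x, y) := by
    rintro ⟨τ, x, y⟩ ⟨⟨h0, hx, hy⟩, h⟩
    exact ⟨x, hx, y, hy, h, by rw [show τ = 0 from h0]⟩
  set s : ℝ × E × E → E := fun k => G.pi k.2.1 k.2.2 with hs
  have hsc : ∀ k : ℝ × E × E, ‖k.2.1 - k.2.2‖ ^ 2 < G.δ ^ 2 → ContinuousAt s k := fun k hk =>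
    (G.stp_contDiffAt_pi (contDiff_snd.fst.contDiffAt) (contDiff_snd.snd.contDiffAt) hk).continuousAt
  have hZ0 : ∀ x ∈ G.S, ∀ y v, Z ((0, x, y), v) = (x, G.P x v) := by
    intro x hx y v
    simp only [hZ, Hm.zero, G.fix x hx]
  have hΨ0 : ∀ x ∈ G.S, ∀ y ∈ G.S, ∀ v, Ψ ((0, x, y), v) = v - G.pi x y := by
    intro x hx y hy v
    simp only [hΨ, hZ0 x hx, G.fix x hx, G.fix y hy, map_sub, G.P_idem hx, G.stp_P_pi hx]
    abel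
  have hmemO : ∀ k ∈ K, (k, s k) ∈ O := by
    intro k hk
    obtain ⟨x, hx, y, hy, h, rfl⟩ := hKm k hk
    simp only [hO, mem_ofPred_eq, hZ0 x hx, G.fix y hy]
    linarith
  obtain ⟨U, W, p, hU, hKU, hW, hWO, hsW, hp, hsol, huniq⟩ := implicit_compact Ψ O hOo hΨs K hKc s
    (fun k hk => by
      obtain ⟨x, hx, y, hy, h, rfl⟩ := hKm k hk
      exact (hsc _ (by simp only; linarith)).continuousWithinAt)
    hmemO
    (fun k hk => by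
      obtain ⟨x, hx, y, hy, h, rfl⟩ := hKm k hk
      rw [hΨ0 x hx y hy]
      simp [hs])
    (fun k hk v hv => by
      have hd : HasFDerivAt Ψ (fderiv ℝ Ψ (k, s k)) (k, s k) :=
        ((hΨs.contDiffAt (hOo.mem_nhds (hmemO k hk))).differentiableAt (by simp)).hasFDerivAt
      have h1 : HasFDerivAt (fun v : E => Ψ (k, v))
          ((fderiv ℝ Ψ (k, s k)).comp (ContinuousLinearMap.inr ℝ (ℝ × E × E) E)) (s k) :=
        HasFDerivAt.comp (s k) (g := Ψ) (f := fun v : E => (k, v)) hd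
          (hasFDerivAt_prodMk_right k (s k))
      obtain ⟨x, hx, y, hy, h, rfl⟩ := hKm k hk
      have h2 : HasFDerivAt (fun v : E => Ψ ((0, x, y), v)) (ContinuousLinearMap.id ℝ E)
          (s (0, x, y)) := by
        simp only [hΨ0 x hx y hy]
        exact (hasFDerivAt_id _).sub_const _
      have h3 := congrArg (fun L : E →L[ℝ] E => L v) (h1.unique h2)
      simpa [hv] using h3.symm)
  have hpK : ∀ k ∈ K, p k = s k := fun k hk => by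
    obtain ⟨x, hx, y, hy, h, rfl⟩ := hKm k hk
    refine ((huniq _ _ (hsW _ hk) ?_).2).symm
    rw [hΨ0 x hx y hy]
    simp [hs]
  set D : Set (ℝ × E × E) := {k | ‖k.2.1 - k.2.2‖ ^ 2 < G.δ ^ 2} with hD
  have hDo : IsOpen D := isOpen_lt (by fun_prop) continuous_const
  have hc1 : ContinuousOn (fun k => ‖G.P (G.r k.2.1) - G.P (Z (k, p k)).1‖) U := by
    have a1 : ContinuousOn (fun k : ℝ × E × E => (k, p k)) U :=
      continuousOn_id.prodMk hp.continuousOn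
    exact ((hP.continuous.comp_continuousOn a1).sub
      ((G.P_smooth.continuous.comp hZs.fst.continuous).comp_continuousOn a1)).norm
  have hc2 : ContinuousOn (fun k : ℝ × E × E => (k, s k)) D := fun k hk =>
    (continuousAt_id.prodMk (hsc k hk)).continuousWithinAt
  have hU1 : IsOpen (U ∩ (fun k => ‖G.P (G.r k.2.1) - G.P (Z (k, p k)).1‖) ⁻¹' Iio 1) :=
    hc1.isOpen_inter_preimage hU isOpen_Iio
  have hU2 : IsOpen (D ∩ (fun k : ℝ × E × E => (k, s k)) ⁻¹' W) :=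
    hc2.isOpen_inter_preimage hDo hW
  refine ⟨_, p, hU1.inter hU2, hp.mono (fun k hk => hk.1.1), ?_, ?_, ?_⟩
  · intro x hx y hy h
    have hk : ((0 : ℝ), x, y) ∈ K := ⟨⟨rfl, hx, hy⟩, h⟩
    refine ⟨⟨hKU hk, ?_⟩, ?_, hsW _ hk⟩
    · simp only [mem_preimage, hZ0 x hx, G.fix x hx, sub_self, norm_zero, mem_Iio]
      exact one_pos
    · simp only [hD, mem_ofPred_eq]
      linarith
  · intro k hk
    exact ⟨hk.2.1, hWO (hsol k hk.1.1).1⟩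
  · intro τ x hx y hy hk
    have e := (hsol _ hk.1.1).2
    have hlt : ‖G.P (G.r x) - G.P (Z ((τ, x, y), p (τ, x, y))).1‖ < 1 := hk.1.2
    simp only [hΨ, G.fix x hx, G.fix y hy] at e
    have e1 : G.P x ((Z ((τ, x, y), p (τ, x, y))).2 -
        G.pi (Z ((τ, x, y), p (τ, x, y))).1 y) = 0 := by
      have := congrArg (G.P x) e
      rwa [map_add, G.P_idem hx, map_sub (G.P x) (p _), G.P_idem hx, sub_self, add_zero,
        map_zero] at this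
    have e2 : G.P x (p (τ, x, y)) = p (τ, x, y) := by
      rw [e1, zero_add] at e
      exact (sub_eq_zero.1 e).symm
    have eZ : Z ((τ, x, y), p (τ, x, y)) = Hm.Φ (τ, x, p (τ, x, y)) := by
      simp only [hZ, G.fix x hx, e2]
    rw [eZ] at e1 hlt
    rw [G.fix x hx] at hlt
    refine ⟨e2, ?_, ?_⟩
    · have hc := (G.mem_cot _).1 (Hm.mem τ (x, p (τ, x, y)) ((G.mem_cot _).2 ⟨hx, e2⟩))
      set z := Hm.Φ (τ, x, p (τ, x, y))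
      set v := z.2 - G.pi z.1 y with hv
      have hv1 : G.P z.1 v = v := by rw [hv, map_sub, hc.2, G.stp_P_pi hc.1]
      have hv2 : (G.P x - G.P z.1) v = -v := by
        rw [sub_apply, e1, hv1, zero_sub]
      have hv3 := (G.P x - G.P z.1).le_opNorm v
      rw [hv2, norm_neg] at hv3
      have hv4 : ‖v‖ = 0 := by
        by_contra hne
        have : 0 < ‖v‖ := lt_of_le_of_ne (norm_nonneg v) (Ne.symm hne)
        nlinarith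
      exact sub_eq_zero.1 (norm_eq_zero.1 hv4)
    · intro hst
      refine ((huniq (τ, x, y) (G.pi x y) hk.2.2 ?_).2).symm
      simp only [hΨ, hZ, G.fix x hx, G.fix y hy, G.stp_P_pi hx, hst τ, sub_self, map_zero, add_zero]

theorem exists_step [FiniteDimensional ℝ E] (G : Geo E) (F : E × E → ℝ) (hF : ContDiff ℝ ∞ F)
    (Hm : Ham G.toRet F) (Rb : ℝ) (hR : ∀ z ∈ Cot G.S, Rb ≤ ‖z.2‖ → F z = 1) :
    Nonempty (Step G F Hm) := by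
  classical
  obtain ⟨t₁, ht, hthr⟩ := G.stp_exists_thr Rb
  obtain ⟨U, p, hU, hp, h0, hlt, hsol⟩ := stp_exists_solution G F Hm t₁ ht
  have hF1 : ∀ x ∈ G.S, ∀ y ∈ G.S, t₁ ≤ ‖x - y‖ ^ 2 → ‖x - y‖ ^ 2 < G.δ ^ 2 →
      F (x, G.pi x y) = 1 := fun x hx y hy h1 h2 =>
    hR _ (G.stp_pi_mem_cot hx y) (hthr x hx y hy h1 h2)
  have hst : ∀ x ∈ G.S, ∀ y ∈ G.S, t₁ ≤ ‖x - y‖ ^ 2 → ‖x - y‖ ^ 2 < G.δ ^ 2 →
      ∀ t, Hm.Φ (t, x, G.pi x y) = (x, G.pi x y) := fun x hx y hy h1 h2 =>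
    Hm.stat _ (G.stp_pi_mem_cot hx y) (Or.inr (hF1 x hx y hy h1 h2))
  set K : ℝ → Set (ℝ × E × E) := fun c =>
    (Icc 0 c ×ˢ G.S ×ˢ G.S) ∩ {k | ‖k.2.1 - k.2.2‖ ^ 2 ≤ t₁} with hK
  have hKc : ∀ c, IsCompact (K c) := fun c =>
    (isCompact_Icc.prod (G.compact.prod G.compact)).inter_right
      (isClosed_le (by fun_prop) continuous_const)
  obtain ⟨τ₀, hτ₀, hth⟩ := (hKc 0).exists_cthickening_subset_open hU (by
    rintro ⟨τ, x, y⟩ ⟨⟨hτ, hx, hy⟩, h⟩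
    have : τ = 0 := le_antisymm hτ.2 hτ.1
    subst this
    exact h0 x hx y hy h)
  have hKU : K τ₀ ⊆ U := by
    rintro ⟨τ, x, y⟩ ⟨⟨hτ, hx, hy⟩, h⟩
    refine hth (Metric.mem_cthickening_of_dist_le _ ((0 : ℝ), x, y) _ _
      ⟨⟨⟨le_rfl, le_rfl⟩, hx, hy⟩, h⟩ ?_)
    rw [Prod.dist_eq, dist_self, Real.dist_eq, sub_zero, abs_of_nonneg hτ.1]
    exact max_le hτ.2 hτ₀.le
  obtain ⟨χ, hχ, -, hχU, -, hχ1⟩ := exists_bump (K τ₀) U (hKc τ₀) hU hKU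
  set Z : ℝ × E × E → ℝ × E × E := fun k => (k.1, G.r k.2.1, G.P (G.r k.2.1) (p k)) with hZ
  set w₁ : ℝ × E × E → ℝ := fun k => Hm.A (Z k) +
    Real.log (G.δ ^ 2 - ‖(Hm.Φ (Z k)).1 - G.r k.2.2‖ ^ 2) -
    Real.log (G.δ ^ 2 - ‖k.2.1 - k.2.2‖ ^ 2) with hw₁
  have hr1 : ContDiff ℝ ∞ (fun k : ℝ × E × E => G.r k.2.1) := G.smooth.comp contDiff_snd.fst
  have hr2 : ContDiff ℝ ∞ (fun k : ℝ × E × E => G.r k.2.2) := G.smooth.comp contDiff_snd.snd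
  have hZs : ContDiffOn ℝ ∞ Z U := contDiffOn_fst.prodMk (hr1.contDiffOn.prodMk
    ((G.P_smooth.comp hr1).contDiffOn.clm_apply hp))
  have hw₁s : ContDiffOn ℝ ∞ w₁ U := by
    refine ((Hm.As.comp_contDiffOn hZs).add (ContDiffOn.log (contDiffOn_const.sub
      (((Hm.Φs.fst.comp_contDiffOn hZs).sub hr2.contDiffOn).norm_sq ℝ)) ?_)).sub
      (ContDiffOn.log (contDiffOn_const.sub
        ((contDiff_snd.fst.sub contDiff_snd.snd).contDiffOn.norm_sq ℝ)) ?_)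
    · intro k hk
      exact (sub_pos.2 (hlt k hk).2).ne'
    · intro k hk
      exact (sub_pos.2 (hlt k hk).1).ne'
  have hZe : ∀ τ, ∀ x ∈ G.S, ∀ y ∈ G.S, (τ, x, y) ∈ U → Z (τ, x, y) = (τ, x, p (τ, x, y)) := by
    intro τ x hx y hy hk
    simp only [hZ, G.fix x hx, (hsol τ x hx y hy hk).1]
  have hw₁e : ∀ τ, ∀ x ∈ G.S, ∀ y ∈ G.S, (τ, x, y) ∈ U → w₁ (τ, x, y) =
      Hm.A (τ, x, p (τ, x, y)) + Real.log (G.δ ^ 2 - ‖(Hm.Φ (τ, x, p (τ, x, y))).1 - y‖ ^ 2) -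
        Real.log (G.δ ^ 2 - ‖x - y‖ ^ 2) := by
    intro τ x hx y hy hk
    simp only [hw₁, hZe τ x hx y hy hk, G.fix y hy]
  set w : ℝ × E × E → ℝ := fun k => χ k • (w₁ k + k.1) - k.1 with hw
  have hws : ContDiff ℝ ∞ w :=
    (contDiff_smul_cut U hU χ hχ hχU _ (hw₁s.add contDiffOn_fst)).sub contDiff_fst
  have hin : ∀ k ∈ K τ₀, w =ᶠ[𝓝 k] w₁ := by
    intro k hk
    filter_upwards [hχ1.filter_mono (nhds_le_nhdsSet hk)] with k' hk'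
    simp [hw, hk']
  have hout : ∀ τ, ∀ x ∈ G.S, ∀ y ∈ G.S, t₁ ≤ ‖x - y‖ ^ 2 → ‖x - y‖ ^ 2 < G.δ ^ 2 →
      w (τ, x, y) = -τ := by
    intro τ x hx y hy h1 h2
    by_cases hk : (τ, x, y) ∈ U
    · have e := (hsol τ x hx y hy hk).2.2 (hst x hx y hy h1 h2)
      have e' := hw₁e τ x hx y hy hk
      rw [e, hst x hx y hy h1 h2, Hm.Astat _ (G.stp_pi_mem_cot hx y) (hst x hx y hy h1 h2),
        hF1 x hx y hy h1 h2] at e'
      simp only [hw, e']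
      simp
    · have : χ (τ, x, y) = 0 := image_eq_zero_of_notMem_tsupport fun h => hk (hχU h)
      simp [hw, this]
  set pm : ℝ × E × E → E := fun k =>
    if ‖k.2.1 - k.2.2‖ ^ 2 ≤ t₁ then p k else G.pi k.2.1 k.2.2 with hpm
  have hpm1 : ∀ τ x y, ‖x - y‖ ^ 2 ≤ t₁ → pm (τ, x, y) = p (τ, x, y) := fun τ x y h => if_pos h
  have hpm2 : ∀ τ x y, ¬ ‖x - y‖ ^ 2 ≤ t₁ → pm (τ, x, y) = G.pi x y := fun τ x y h => if_neg h
  have hmK : ∀ τ ∈ Icc 0 τ₀, ∀ x ∈ G.S, ∀ y ∈ G.S, ‖x - y‖ ^ 2 ≤ t₁ → (τ, x, y) ∈ K τ₀ :=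
    fun τ hτ x hx y hy h => ⟨⟨hτ, hx, hy⟩, h⟩
  refine ⟨⟨τ₀, hτ₀, w, hws, pm, ?_, ?_, ?_, ?_, ?_, ?_⟩⟩
  · intro τ hτ x hx y hy h
    by_cases hq : ‖x - y‖ ^ 2 ≤ t₁
    · rw [hpm1 τ x y hq]
      exact (G.mem_cot _).2 ⟨hx, (hsol τ x hx y hy (hKU (hmK τ hτ x hx y hy hq))).1⟩
    · rw [hpm2 τ x y hq]
      exact G.stp_pi_mem_cot hx y
  · intro τ hτ x hx y hy h
    by_cases hq : ‖x - y‖ ^ 2 ≤ t₁
    · have hk := hKU (hmK τ hτ x hx y hy hq)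
      have := (hlt _ hk).2
      simp only [G.fix x hx, G.fix y hy, (hsol τ x hx y hy hk).1] at this
      rwa [hpm1 τ x y hq]
    · rw [hpm2 τ x y hq, hst x hx y hy (not_le.1 hq).le h]
      exact h
  · intro τ hτ x hx y hy h
    by_cases hq : ‖x - y‖ ^ 2 ≤ t₁
    · rw [hpm1 τ x y hq]
      exact (hsol τ x hx y hy (hKU (hmK τ hτ x hx y hy hq))).2.1
    · rw [hpm2 τ x y hq, hst x hx y hy (not_le.1 hq).le h]
  · intro τ hτ x hx y hy h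
    by_cases hq : ‖x - y‖ ^ 2 ≤ t₁
    · have hk := hmK τ hτ x hx y hy hq
      rw [hpm1 τ x y hq, (hin _ hk).eq_of_nhds, hw₁e τ x hx y hy (hKU hk)]
      ring
    · have h1 := (not_le.1 hq).le
      rw [hpm2 τ x y hq, hst x hx y hy h1 h, hout τ x hx y hy h1 h,
        Hm.Astat _ (G.stp_pi_mem_cot hx y) (hst x hx y hy h1 h), hF1 x hx y hy h1 h]
      ring
  · intro τ hτ x hx y hy h θ u v hu hv
    obtain ⟨a, b, a0, b0, da, db, hab⟩ := stp_exists_curve G hx hy hu hv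
    have dτ : HasDerivAt (fun t : ℝ => τ + t * θ) θ 0 := by
      simpa using ((hasDerivAt_id (0 : ℝ)).mul_const θ).const_add τ
    set γ : ℝ → ℝ × E × E := fun t => (τ + t * θ, a t, b t) with hγ
    have dγ : HasDerivAt γ (θ, u, v) 0 := dτ.prodMk (da.prodMk db)
    have γ0 : γ 0 = (τ, x, y) := by simp [hγ, a0, b0]
    have dw : HasDerivAt (fun t => w (γ t)) (fderiv ℝ w (τ, x, y) (θ, u, v)) 0 := by
      have := ((hws.differentiable (by simp)) (γ 0)).hasFDerivAt.comp_hasDerivAt 0 dγ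
      rwa [γ0] at this
    have cγ : Tendsto γ (𝓝 0) (𝓝 (τ, x, y)) := γ0 ▸ dγ.continuousAt.tendsto
    by_cases hq : ‖x - y‖ ^ 2 ≤ t₁
    · have hk := hmK τ hτ x hx y hy hq
      have hkU := hKU hk
      rw [hpm1 τ x y hq]
      obtain ⟨p', dp⟩ : ∃ p', HasDerivAt (fun t => p (γ t)) p' 0 := by
        have h1 : DifferentiableAt ℝ p (γ 0) := by
          rw [γ0]
          exact (hp.contDiffAt (hU.mem_nhds hkU)).differentiableAt (by simp)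
        exact ⟨_, h1.hasFDerivAt.comp_hasDerivAt 0 dγ⟩
      set z : ℝ → E × E := fun t => (a t, p (γ t)) with hz
      have dz : HasDerivAt z (u, p') 0 := da.prodMk dp
      have z0 : z 0 = (x, p (τ, x, y)) := by simp only [hz, a0, γ0]
      have evU : ∀ᶠ t in 𝓝 (0 : ℝ), γ t ∈ U := cγ.eventually (hU.mem_nhds hkU)
      have evC : ∀ᶠ t in 𝓝 (0 : ℝ), z t ∈ Cot G.S := by
        filter_upwards [evU, hab] with t h1 h2
        exact (G.mem_cot _).2 ⟨h2.1, (hsol _ _ h2.1 _ h2.2 h1).1⟩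
      have hzC : (x, p (τ, x, y)) ∈ Cot G.S := z0 ▸ evC.self_of_nhds
      have htan : (u, p') ∈ Tan (Cot G.S) (x, p (τ, x, y)) := z0 ▸ Tan.of_hasDerivAt dz evC
      set ζ : ℝ → ℝ × E × E := fun t => (τ + t * θ, z t) with hζ
      have dζ : HasDerivAt ζ (θ, u, p') 0 := dτ.prodMk dz
      have ζ0 : ζ 0 = (τ, x, p (τ, x, y)) := by simp only [hζ, z0, zero_mul, add_zero]
      have dA : HasDerivAt (fun t => Hm.A (ζ t))
          (fderiv ℝ Hm.A (τ, x, p (τ, x, y)) (θ, u, p')) 0 := by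
        have := ((Hm.As.differentiable (by simp)) (ζ 0)).hasFDerivAt.comp_hasDerivAt 0 dζ
        rwa [ζ0] at this
      have dΦ : HasDerivAt (fun t => Hm.Φ (ζ t))
          (fderiv ℝ Hm.Φ (τ, x, p (τ, x, y)) (θ, u, p')) 0 := by
        have := ((Hm.Φs.differentiable (by simp)) (ζ 0)).hasFDerivAt.comp_hasDerivAt 0 dζ
        rwa [ζ0] at this
      have dΦ1 : HasDerivAt (fun t => (Hm.Φ (ζ t)).1)
          (fderiv ℝ Hm.Φ (τ, x, p (τ, x, y)) (θ, u, p')).1 0 := dΦ.fst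
      have evS : ∀ᶠ t in 𝓝 (0 : ℝ), (Hm.Φ (ζ t)).1 ∈ G.S := by
        filter_upwards [evC] with t h1
        exact (Hm.mem _ _ h1).1
      have hS0 : (Hm.Φ (ζ 0)).1 ∈ G.S := evS.self_of_nhds
      have hξ := (G.mem_tan hS0 _).1 (Tan.of_hasDerivAt dΦ1 evS)
      have hq' : ‖(Hm.Φ (ζ 0)).1 - b 0‖ ^ 2 < G.δ ^ 2 := by
        have := (hlt _ hkU).2
        simp only [G.fix x hx, G.fix y hy, (hsol τ x hx y hy hkU).1] at this
        rwa [ζ0, b0]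
      have d1 := G.stp_hasDerivAt_log dΦ1 db hS0 (b0 ▸ hy) hξ (b0 ▸ hv) hq'
      have d2 := G.stp_hasDerivAt_log da db (a0 ▸ hx) (b0 ▸ hy) (a0 ▸ hu) (b0 ▸ hv)
        (by rw [a0, b0]; exact h)
      have d3 := (dA.add d1).sub d2
      have ev : (fun t => w (γ t)) =ᶠ[𝓝 0] fun t => Hm.A (ζ t) +
          Real.log (G.δ ^ 2 - ‖(Hm.Φ (ζ t)).1 - b t‖ ^ 2) -
          Real.log (G.δ ^ 2 - ‖a t - b t‖ ^ 2) := by
        filter_upwards [evU, hab, cγ.eventually (hin _ hk)] with t h1 h2 h3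
        rw [h3]
        exact hw₁e _ _ h2.1 _ h2.2 h1
      have e := dw.unique (d3.congr_of_eventuallyEq ev)
      rw [e, Hm.var τ θ _ hzC _ htan, ζ0, a0, b0, (hsol τ x hx y hy hkU).2.1, inner_sub_left,
        inner_sub_left]
      ring
    · have h1 := not_le.1 hq
      rw [hpm2 τ x y hq, hst x hx y hy h1.le h, hF1 x hx y hy h1.le h]
      have cq : Tendsto (fun t => ‖a t - b t‖ ^ 2) (𝓝 0) (𝓝 (‖x - y‖ ^ 2)) := by
        have : Tendsto (fun t => ‖a t - b t‖ ^ 2) (𝓝 0) (𝓝 (‖a 0 - b 0‖ ^ 2)) :=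
          ((da.continuousAt.tendsto.sub db.continuousAt.tendsto).norm.pow 2)
        rwa [a0, b0] at this
      have ev : (fun t => w (γ t)) =ᶠ[𝓝 0] fun t => -(τ + t * θ) := by
        filter_upwards [hab, cq.eventually (lt_mem_nhds h1), cq.eventually (gt_mem_nhds h)]
          with t h2 h3 h4
        exact hout _ _ h2.1 _ h2.2 h3.le h4
      have e := dw.unique (dτ.neg.congr_of_eventuallyEq ev)
      rw [e]
      simp
  · intro τ hτ x hx y hy h hs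
    by_cases hq : ‖x - y‖ ^ 2 ≤ t₁
    · rw [hpm1 τ x y hq]
      exact (hsol τ x hx y hy (hKU (hmK τ hτ x hx y hy hq))).2.2 hs
    · exact hpm2 τ x y hq

end Pool.Agent.Wein
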