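import Mathlib
import Pool.Agent.P.MP_e3ee0c_gt.WStep
import Pool.Agent.P.MP_e3ee0c_gt.WBar

/-! All the data of the argument, and the letters of the generating functions. -/

open Set Filter Topology
open scoped ContDiff InnerProductSpace

namespace Pool.Agent.Wein

variable {E : Type} [NormedAddCommGroup E] [InnerProductSpace ℝ E]

structure Sys (E : Type) [NormedAddCommGroup E] [InnerProductSpace ℝ E] extends Geo E where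
  F : E × E → ℝ
  Hm : Ham toRet F
  St : Step toGeo F Hm
  h01 : ∀ z ∈ Cot S, 0 ≤ F z ∧ F z ≤ 1
  Rb : ℝ
  hR : ∀ z ∈ Cot S, Rb ≤ ‖z.2‖ → F z = 1
  t₁ : ℝ
  t₁pos : 0 < t₁
  t₁lt : t₁ < δ ^ 2
  thr : Rb * (δ ^ 2 - t₁) ≤ √t₁
  Br : Bar (δ ^ 2) t₁ (St.τ₀ / 2)
  Y : E × E → E
  Ycont : ContinuousOn Y (Cot S)
  Yspec : ∀ z ∈ Cot S, Y z ∈ S ∧ ‖z.1 - Y z‖ ^ 2 < δ ^ 2 ∧ toGeo.pi z.1 (Y z) = z.2
  μ : ℝ
  μpos : 0 < μ
  μ1 : (δ + μ) ^ 2 ≤ δ ^ 2 + Br.a / 2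
  μ2 : 6 * δ * μ / Br.a ≤ St.τ₀ / 4
  κ : ℝ
  C0 : ℝ
  κnn : 0 ≤ κ
  κle : κ ≤ 1
  gap : ∀ z ∈ Cot S, ∀ s, 0 ≤ s → F z < κ → -C0 ≤ Hm.A (s, z)
  slow : ∀ z ∈ Cot S, ∀ t, |t| ≤ St.τ₀ → ‖(Hm.Φ (t, z)).1 - z.1‖ ≤ δ
  E0 : Type
  [n0 : NormedAddCommGroup E0]
  [i0 : InnerProductSpace ℝ E0]
  G0 : Geo E0
  pr : E → E0
  prc : Continuous pr
  prm : ∀ x ∈ S, pr x ∈ G0.S
  prs : ∀ x ∈ S, ∀ y ∈ S, ‖x - y‖ ≤ 4 * δ → ‖pr x - pr y‖ ≤ G0.δ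
  per : ∀ z ∈ Cot S, ∀ s, 0 < s → Hm.Φ (s, z) = z → (∀ t, pr (Hm.Φ (t, z)).1 = pr z.1) ∧
    ((∀ t, (Hm.Φ (t, z)).1 = z.1) ∨ ∀ γ : C(UnitAddCircle, S),
      (∀ t : ℝ, (γ t : E) = (Hm.Φ (t * s, z)).1) → ¬ γ.Nullhomotopic)

attribute [instance] Sys.n0 Sys.i0

namespace Sys

variable (S : Sys E)

/-- All periodic orbits are stationary. -/
def NoPer : Prop :=
  ∀ z ∈ Cot S.S, ∀ s, 0 < s → S.Hm.Φ (s, z) = z → ∀ t, S.Hm.Φ (t, z) = z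

/-- The twist map of the shifted barrier. -/
noncomputable def pit (x y : E) : E := S.tw (fun t => 1 / (S.δ ^ 2 - S.Br.m t)) x y

noncomputable def core (τ : ℝ) (x y x' : E) : ℝ :=
  Real.log (S.δ ^ 2 - ‖x - y‖ ^ 2) + S.St.w (τ, x, y) + S.Br.g (‖y - x'‖ ^ 2)

noncomputable def Q (x n : E) : ℝ := ‖S.P x n‖ ^ 2 - ‖n - S.P x n‖ ^ 2

/-- The conditions on a letter with vertices x, y, x'. -/
def OK (x y x' : E) : Prop :=
  x ∈ S.S ∧ y ∈ S.S ∧ ‖x - y‖ ^ 2 < S.δ ^ 2 ∧ ‖y - x'‖ ^ 2 < S.δ ^ 2 + S.Br.a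

lemma w_zero {x y : E} (hx : x ∈ S.S) (hy : y ∈ S.S) (h : ‖x - y‖ ^ 2 < S.δ ^ 2) :
    S.St.w (0, x, y) = 0 := by
  have := S.St.val 0 ⟨le_rfl, S.St.τpos.le⟩ x hx y hy h
  rw [S.Hm.zero, S.Hm.Azero] at this
  simpa using this

lemma w_anti {x y : E} (hx : x ∈ S.S) (hy : y ∈ S.S) (h : ‖x - y‖ ^ 2 < S.δ ^ 2) {τ τ' : ℝ}
    (h0 : 0 ≤ τ) (h1 : τ ≤ τ') (h2 : τ' ≤ S.St.τ₀) :
    S.St.w (τ', x, y) ≤ S.St.w (τ, x, y) ∧ S.St.w (τ, x, y) ≤ S.St.w (τ', x, y) + (τ' - τ) := by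
  have hd : ∀ t ∈ Icc 0 S.St.τ₀, HasDerivAt (fun s => S.St.w (s, x, y))
      (-S.F (x, S.St.pm (t, x, y))) t := by
    intro t ht
    have h1 : HasDerivAt (fun s : ℝ => (s, x, y)) ((1 : ℝ), (0 : E), (0 : E)) t :=
      (hasDerivAt_id t).prodMk (hasDerivAt_const t (x, y))
    have h2 := (S.St.ws.differentiable (by simp) (t, x, y)).hasFDerivAt.comp_hasDerivAt t h1
    rw [S.St.der t ht x hx y hy h 1 0 0 (map_zero _) (map_zero _)] at h2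
    exact h2.congr_deriv (by simp)
  have hF : ∀ t ∈ Icc 0 S.St.τ₀, 0 ≤ S.F (x, S.St.pm (t, x, y)) ∧
      S.F (x, S.St.pm (t, x, y)) ≤ 1 := fun t ht => S.h01 _ (S.St.mem t ht x hx y hy h)
  have m1 : τ ∈ Icc 0 S.St.τ₀ := ⟨h0, h1.trans h2⟩
  have m2 : τ' ∈ Icc 0 S.St.τ₀ := ⟨h0.trans h1, h2⟩
  constructor
  · exact antitoneOn_of_deriv_nonpos (convex_Icc 0 S.St.τ₀)
      (fun t ht => (hd t ht).continuousAt.continuousWithinAt)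
      (fun t ht => (hd t (interior_subset ht)).differentiableAt.differentiableWithinAt)
      (fun t ht => by
        rw [(hd t (interior_subset ht)).deriv]; linarith [(hF t (interior_subset ht)).1]) m1 m2 h1
  · have hd' : ∀ t ∈ Icc 0 S.St.τ₀, HasDerivAt (fun s => S.St.w (s, x, y) + s)
        (-S.F (x, S.St.pm (t, x, y)) + 1) t := fun t ht => (hd t ht).add (hasDerivAt_id t)
    have := monotoneOn_of_deriv_nonneg (convex_Icc 0 S.St.τ₀)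
      (fun t ht => (hd' t ht).continuousAt.continuousWithinAt)
      (fun t ht => (hd' t (interior_subset ht)).differentiableAt.differentiableWithinAt)
      (fun t ht => by
        rw [(hd' t (interior_subset ht)).deriv]; linarith [(hF t (interior_subset ht)).2]) m1 m2 h1
    simp only at this
    linarith

/-- If the point of the cotangent bundle given by x, y is stationary then w is explicit. -/
lemma w_stat {x y : E} (hx : x ∈ S.S) (hy : y ∈ S.S) (h : ‖x - y‖ ^ 2 < S.δ ^ 2) {τ : ℝ}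
    (hτ : τ ∈ Icc 0 S.St.τ₀) (hF : S.F (x, S.pi x y) = 0 ∨ S.F (x, S.pi x y) = 1) :
    S.St.pm (τ, x, y) = S.pi x y ∧ S.St.w (τ, x, y) = -τ * S.F (x, S.pi x y) := by
  have hz : (x, S.pi x y) ∈ Cot S.S := by
    refine (S.toRet.mem_cot _).mpr ⟨hx, ?_⟩
    simp only [Geo.pi, Geo.tw, map_smul, S.toRet.P_idem hx]
  have hs := S.Hm.stat _ hz hF
  have h1 := S.St.stat τ hτ x hx y hy h hs
  have h2 := S.St.val τ hτ x hx y hy h
  rw [h1, hs τ, S.Hm.Astat _ hz hs τ] at h2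
  exact ⟨h1, by simp only at h2; linarith⟩

lemma tw_big {x y : E} (hx : x ∈ S.S) (hy : y ∈ S.S) (h1 : S.t₁ ≤ ‖x - y‖ ^ 2)
    (h : ‖x - y‖ ^ 2 < S.δ ^ 2 + S.Br.a) {ψ : ℝ → ℝ}
    (hψ : 1 / (S.δ ^ 2 - S.t₁) ≤ ψ (‖x - y‖ ^ 2)) : S.Rb ≤ ‖S.tw ψ x y‖ := by
  have hδ := S.δpos
  have hp : 0 < S.δ ^ 2 - S.t₁ := sub_pos.mpr S.t₁lt
  have h8 : ‖x - y‖ ≤ 8 * S.δ :=
    pow_le_pow_left₀ (norm_nonneg _) (le_refl _) 2 |> fun _ =>
      abs_le_of_sq_le_sq' (by nlinarith [S.Br.ale]) (by positivity) |>.2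
  have h2 := S.toGeo.lower hx hy h8
  have h3 : √S.t₁ ≤ ‖x - y‖ := Real.sqrt_le_iff.mpr ⟨norm_nonneg _, h1⟩
  have h4 : S.Rb ≤ √S.t₁ * (1 / (S.δ ^ 2 - S.t₁)) := by
    rw [mul_one_div, le_div_iff₀ hp]; exact S.thr
  have h5 : 0 < 1 / (S.δ ^ 2 - S.t₁) := by positivity
  rw [Geo.tw, norm_smul, Real.norm_eq_abs, abs_of_pos (by linarith)]
  have h6 := Real.sqrt_nonneg S.t₁
  calc S.Rb ≤ √S.t₁ * (1 / (S.δ ^ 2 - S.t₁)) := h4
    _ ≤ (2 * ‖S.P x (x - y)‖) * ψ (‖x - y‖ ^ 2) := by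
      gcongr; linarith
    _ = _ := by ring

lemma pi_big {x y : E} (hx : x ∈ S.S) (hy : y ∈ S.S) (h1 : S.t₁ ≤ ‖x - y‖ ^ 2)
    (h : ‖x - y‖ ^ 2 < S.δ ^ 2) : S.Rb ≤ ‖S.pi x y‖ := by
  refine S.tw_big hx hy h1 (by linarith [S.Br.apos]) ?_
  exact one_div_le_one_div_of_le (by linarith) (by linarith)

lemma pit_big {x y : E} (hx : x ∈ S.S) (hy : y ∈ S.S) (h1 : S.t₁ ≤ ‖x - y‖ ^ 2)
    (h : ‖x - y‖ ^ 2 < S.δ ^ 2 + S.Br.a) : S.Rb ≤ ‖S.pit x y‖ := by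
  refine S.tw_big hx hy h1 h ?_
  have h2 := S.Br.mono h1
  rw [S.Br.m_low _ le_rfl] at h2
  exact one_div_le_one_div_of_le (sub_pos.mpr (S.Br.m_lt _ h)) (by linarith)

lemma OK.step {S : Sys E} {x y x' : E} (h : S.OK x y x') : ‖x - x'‖ ≤ 3 * S.δ := by
  have hδ := S.δpos
  have h1 : ‖x - y‖ ≤ S.δ := (abs_le_of_sq_le_sq' h.2.2.1.le hδ.le).2
  have h2 : ‖y - x'‖ ≤ 2 * S.δ :=
    (abs_le_of_sq_le_sq' (by nlinarith [h.2.2.2, S.Br.ale]) (by positivity)).2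
  linarith [norm_sub_le_norm_sub_add_norm_sub x y x']

/-- The unit letter at x with parameter p: first vertex, middle vertex, normal variable. -/
noncomputable def un (x p : E) : E × E × E := (x, S.Y (x, S.P x p), p - S.P x p)

/-- The value of a letter c followed by the vertex x'. -/
noncomputable def lett (τ : ℝ) (c : E × E × E) (x' : E) : ℝ :=
  S.core τ c.1 c.2.1 x' + S.Q c.1 c.2.2

lemma un_mem {x : E} (hx : x ∈ S.S) (p : E) : (x, S.P x p) ∈ Cot S.S :=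
  (S.toRet.mem_cot _).mpr ⟨hx, S.toRet.P_idem hx p⟩

lemma un_normal {x : E} (hx : x ∈ S.S) (p : E) : S.P x (p - S.P x p) = 0 := by
  rw [map_sub, S.toRet.P_idem hx, sub_self]

lemma μ_le : S.μ ≤ S.δ := by
  by_contra h
  nlinarith [S.μ1, S.Br.ale, S.δpos, S.μpos]

lemma un_dist {x x' : E} (hx : x ∈ S.S) (h : ‖x - x'‖ ≤ S.μ) (p : E) :
    ‖S.Y (x, S.P x p) - x'‖ ^ 2 ≤ S.δ ^ 2 + S.Br.a / 2 := by
  have h1 : ‖x - S.Y (x, S.P x p)‖ ≤ S.δ :=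
    (abs_le_of_sq_le_sq' (S.Yspec _ (S.un_mem hx p)).2.1.le S.δpos.le).2
  have h2 := norm_sub_le_norm_sub_add_norm_sub (S.Y (x, S.P x p)) x x'
  rw [norm_sub_rev _ x] at h2
  exact (pow_le_pow_left₀ (norm_nonneg _) (by linarith) 2).trans S.μ1

lemma un_val {x : E} (hx : x ∈ S.S) (x' p : E) {τ : ℝ} (hτ : τ ∈ Icc 0 S.St.τ₀) :
    S.lett τ (S.un x p) x' ≤ Real.log (S.δ ^ 2 - ‖x - S.Y (x, S.P x p)‖ ^ 2) +
      S.Br.g (‖S.Y (x, S.P x p) - x'‖ ^ 2) - ‖p - S.P x p‖ ^ 2 := by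
  obtain ⟨h1, h2, -⟩ := S.Yspec _ (S.un_mem hx p)
  have h3 := (S.w_anti hx h1 h2 le_rfl hτ.1 hτ.2).1
  rw [S.w_zero hx h1 h2] at h3
  simp only [lett, core, un, Q, S.un_normal hx, norm_zero, sub_zero]
  linarith

lemma un_le' {x x' : E} (hx : x ∈ S.S) (h : ‖x - x'‖ ≤ S.μ) (p : E) {τ : ℝ}
    (hτ : τ ∈ Icc 0 S.St.τ₀) :
    S.lett τ (S.un x p) x' ≤ 6 * S.δ * ‖x - x'‖ / S.Br.a - ‖p - S.P x p‖ ^ 2 := by
  have h1 := S.un_val hx x' p hτ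
  have h2 : ‖x - S.Y (x, S.P x p)‖ ^ 2 < S.δ ^ 2 := (S.Yspec _ (S.un_mem hx p)).2.1
  have h3 := S.un_dist hx h p
  have ha := S.Br.apos
  have h4 := S.Br.g_lip (‖x - S.Y (x, S.P x p)‖ ^ 2) _ (by linarith) h3
  have h5 := S.Br.g_le' _ h2
  set y := S.Y (x, S.P x p)
  have h6 : ‖x - y‖ ≤ S.δ := (abs_le_of_sq_le_sq' h2.le S.δpos.le).2
  have h7 : |‖y - x'‖ - ‖x - y‖| ≤ ‖x - x'‖ := by
    rw [norm_sub_rev x y]
    simpa [norm_sub_rev x' x] using abs_norm_sub_norm_le (y - x') (y - x)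
  have h8 : |‖y - x'‖ ^ 2 - ‖x - y‖ ^ 2| ≤ 3 * S.δ * ‖x - x'‖ := by
    rw [sq_sub_sq, abs_mul, abs_of_nonneg (by positivity)]
    have := S.μ_le
    have := (abs_le.mp h7).2
    have := S.δpos
    exact mul_le_mul (by linarith) h7 (abs_nonneg _) (by positivity)
  have h9 : 2 / S.Br.a * |‖y - x'‖ ^ 2 - ‖x - y‖ ^ 2| ≤ 6 * S.δ * ‖x - x'‖ / S.Br.a :=
    calc _ ≤ 2 / S.Br.a * (3 * S.δ * ‖x - x'‖) := by gcongr
      _ = _ := by ring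
  linarith

lemma un_cont : ContinuousOn (fun q : E × E => S.un q.1 q.2) (S.S ×ˢ univ) := by
  have hP : Continuous fun q : E × E => S.P q.1 q.2 :=
    (S.toRet.P_smooth.continuous.comp continuous_fst).clm_apply continuous_snd
  refine continuousOn_fst.prodMk (ContinuousOn.prodMk ?_ (continuous_snd.sub hP).continuousOn)
  exact S.Ycont.comp (continuous_fst.prodMk hP).continuousOn fun q hq => S.un_mem hq.1 q.2

lemma un_ok {x x' : E} (hx : x ∈ S.S) (h : ‖x - x'‖ ≤ S.μ) (p : E) :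
    S.OK (S.un x p).1 (S.un x p).2.1 x' := by
  obtain ⟨h1, h2, -⟩ := S.Yspec _ (S.un_mem hx p)
  exact ⟨hx, h1, h2, (S.un_dist hx h p).trans_lt (by linarith [S.Br.apos])⟩

lemma un_le {x x' : E} (hx : x ∈ S.S) (h : ‖x - x'‖ ≤ S.μ) (p : E) {τ : ℝ}
    (hτ : τ ∈ Icc 0 S.St.τ₀) : S.lett τ (S.un x p) x' ≤ S.St.τ₀ / 4 := by
  have h1 := S.un_le' hx h p hτ
  have h2 : 6 * S.δ * ‖x - x'‖ / S.Br.a ≤ 6 * S.δ * S.μ / S.Br.a := by
    have := S.δpos; have := S.Br.apos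
    gcongr
  linarith [S.μ2, sq_nonneg ‖p - S.P x p‖]

lemma un_le_zero {x : E} (hx : x ∈ S.S) (p : E) {τ : ℝ} (hτ : τ ∈ Icc 0 S.St.τ₀) :
    S.lett τ (S.un x p) x ≤ 0 := by
  have h1 := S.un_le' hx (x' := x) (by simpa using S.μpos.le) p hτ
  simp only [sub_self, norm_zero, mul_zero, zero_div] at h1
  linarith [sq_nonneg ‖p - S.P x p‖]

lemma un_proper (L : ℝ) : ∃ R : ℝ, ∀ x ∈ S.S, ∀ x', ‖x - x'‖ ≤ S.μ → ∀ p, R ≤ ‖p‖ →
    ∀ τ ∈ Icc 0 S.St.τ₀, S.lett τ (S.un x p) x' ≤ -L := by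
  have hδ := S.δpos
  have ha := S.Br.apos
  set K := S.Br.g 0 + 2 / S.Br.a * (S.δ ^ 2 + S.Br.a / 2) with hK
  refine ⟨2 * S.δ * Real.exp (K + L) + (|L| + S.St.τ₀ + 1), fun x hx x' h p hp τ hτ => ?_⟩
  have h0 : ‖p‖ ≤ ‖S.P x p‖ + ‖p - S.P x p‖ := by
    simpa using norm_add_le (S.P x p) (p - S.P x p)
  by_cases hn : |L| + S.St.τ₀ + 1 ≤ ‖p - S.P x p‖
  · have h1 := S.un_le' hx h p hτ
    have h2 : 6 * S.δ * ‖x - x'‖ / S.Br.a ≤ 6 * S.δ * S.μ / S.Br.a := by gcongr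
    nlinarith [S.μ2, le_abs_self L, abs_nonneg L, S.St.τpos]
  have h1 := S.un_val hx x' p hτ
  obtain ⟨-, h2, h3⟩ := S.Yspec _ (S.un_mem hx p)
  have h4 := S.un_dist hx h p
  simp only at h2 h3
  set y := S.Y (x, S.P x p)
  have h5 := S.Br.g_lip 0 _ (by positivity) h4
  rw [sub_zero, abs_of_nonneg (by positivity)] at h5
  have h6 : 2 / S.Br.a * ‖y - x'‖ ^ 2 ≤ 2 / S.Br.a * (S.δ ^ 2 + S.Br.a / 2) := by gcongr
  have hq : 0 < S.δ ^ 2 - ‖x - y‖ ^ 2 := sub_pos.mpr h2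
  have h7 : ‖S.P x p‖ * (S.δ ^ 2 - ‖x - y‖ ^ 2) ≤ 2 * S.δ := by
    have h8 : ‖x - y‖ ≤ S.δ := (abs_le_of_sq_le_sq' h2.le hδ.le).2
    have h9 := S.toRet.norm_P_le hx (x - y)
    rw [← h3, Geo.pi, Geo.tw, norm_smul, Real.norm_eq_abs, abs_of_pos (by positivity)]
    field_simp
    linarith
  have h8 : Real.exp (K + L) * (S.δ ^ 2 - ‖x - y‖ ^ 2) ≤ 1 := by
    have : 2 * S.δ * Real.exp (K + L) * (S.δ ^ 2 - ‖x - y‖ ^ 2) ≤
        ‖S.P x p‖ * (S.δ ^ 2 - ‖x - y‖ ^ 2) := by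
      gcongr; linarith
    nlinarith
  have h9 := Real.log_nonpos (by positivity) h8
  rw [Real.log_mul (Real.exp_pos _).ne' hq.ne', Real.log_exp] at h9
  linarith [sq_nonneg ‖p - S.P x p‖]

lemma un_coord {x : E} (hx : x ∈ S.S) (p : E) :
    S.pi (S.un x p).1 (S.un x p).2.1 + ((S.un x p).2.2 - S.P x (S.un x p).2.2) = p := by
  have h3 : S.pi x (S.Y (x, S.P x p)) = S.P x p := (S.Yspec _ (S.un_mem hx p)).2.2
  simp only [un, h3, S.un_normal hx]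
  abel

end Sys

/-- The same geometry with a smaller scale. -/
def Geo.shrink (G : Geo E) (d : ℝ) (h0 : 0 < d) (h1 : d ≤ G.δ) : Geo E where
  toRet := G.toRet
  δ := d
  δpos := h0
  ball x hx u hu := G.ball x hx u (by linarith)
  mv x hx u u' hu hu' := G.mv x hx u u' (by linarith) (by linarith)

/-- The same generating function on a shorter time interval. -/
def Step.shrink {G : Geo E} {F : E × E → ℝ} {Hm : Ham G.toRet F} (St : Step G F Hm) (τ : ℝ)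
    (h0 : 0 < τ) (h1 : τ ≤ St.τ₀) : Step G F Hm where
  τ₀ := τ
  τpos := h0
  w := St.w
  ws := St.ws
  pm := St.pm
  mem t ht := St.mem t ⟨ht.1, ht.2.trans h1⟩
  lt t ht := St.lt t ⟨ht.1, ht.2.trans h1⟩
  out t ht := St.out t ⟨ht.1, ht.2.trans h1⟩
  val t ht := St.val t ⟨ht.1, ht.2.trans h1⟩
  der t ht := St.der t ⟨ht.1, ht.2.trans h1⟩
  stat t ht := St.stat t ⟨ht.1, ht.2.trans h1⟩

/-- In a short time the base point moves little. -/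
lemma Ham.slow [FiniteDimensional ℝ E] {R : Ret E} {F : E × E → ℝ} (Hm : Ham R F) (Rb : ℝ)
    (hR : ∀ z ∈ Cot R.S, Rb ≤ ‖z.2‖ → F z = 1) {d : ℝ} (hd : 0 < d) :
    ∃ τ : ℝ, 0 < τ ∧ ∀ z ∈ Cot R.S, ∀ t, |t| ≤ τ → ‖(Hm.Φ (t, z)).1 - z.1‖ ≤ d := by
  have := FiniteDimensional.proper_real E
  have hK : IsCompact (R.S ×ˢ Metric.closedBall (0 : E) Rb) :=
    R.compact.prod (isCompact_closedBall _ _)
  have hc : Continuous fun p : ℝ × (E × E) => ‖(Hm.Φ p).1 - p.2.1‖ := by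
    have := Hm.Φs.continuous
    fun_prop
  have hev : ∀ᶠ t in 𝓝 (0 : ℝ), ∀ z ∈ R.S ×ˢ Metric.closedBall (0 : E) Rb,
      ‖(Hm.Φ (t, z)).1 - z.1‖ < d :=
    hK.eventually_forall_of_forall_eventually fun z _ =>
      hc.continuousAt.eventually (gt_mem_nhds (by simpa [Hm.zero] using hd))
  obtain ⟨ε, hε, hb⟩ := Metric.eventually_nhds_iff.1 hev
  refine ⟨ε / 2, half_pos hε, fun z hz t ht => ?_⟩
  by_cases h : Rb ≤ ‖z.2‖
  · rw [Hm.stat z hz (Or.inr (hR z hz h)), sub_self, norm_zero]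
    exact hd.le
  · exact (hb (by rw [Real.dist_eq, sub_zero]; linarith) z
      ⟨hz.1, by simpa using (not_le.1 h).le⟩).le

/-- The data exist as soon as every periodic orbit of F is stationary, or has a constant image
under pr and a base curve that is constant or not null-homotopic. -/
theorem exists_sys0 [FiniteDimensional ℝ E] {E0 : Type} [NormedAddCommGroup E0]
    [InnerProductSpace ℝ E0] [FiniteDimensional ℝ E0] (R : Ret E) (R0 : Ret E0) (pr : E → E0)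
    (hpr : Continuous pr)
    (hm : ∀ x ∈ R.S, pr x ∈ R0.S) (F : E × E → ℝ) (hF : ContDiff ℝ ∞ F)
    (h01 : ∀ z ∈ Cot R.S, 0 ≤ F z ∧ F z ≤ 1) (Rb : ℝ)
    (hR : ∀ z ∈ Cot R.S, Rb ≤ ‖z.2‖ → F z = 1) (κ C0 : ℝ) (hκ : 0 ≤ κ)
    (hgap : ∀ (z : ℝ → E × E) (A : ℝ → ℝ), IsOrbit R.S F z →
      (∀ t, HasDerivAt A (⟪(z t).2, (deriv z t).1⟫_ℝ - F (z t)) t) → F (z 0) < κ →
      ∀ s, 0 ≤ s → -C0 ≤ A s - A 0)
    (hno : ∀ (z : ℝ → E × E) (T : ℝ), IsOrbit R.S F z → 0 < T → (∀ t, z (t + T) = z t) →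
      (F (z 0) = 0 ∨ F (z 0) = 1) ∨ ((∀ t, pr (z t).1 = pr (z 0).1) ∧
        ((∀ t, (z t).1 = (z 0).1) ∨ ∀ γ : C(UnitAddCircle, R.S),
          (∀ t : ℝ, (γ t : E) = (z (t * T)).1) → ¬ γ.Nullhomotopic))) :
    ∃ S : Sys E, S.S = R.S ∧ S.F = F ∧ S.κ = min κ 1 ∧ ∀ l : UnitAddCircle → E,
      (∀ γ : C(UnitAddCircle, R0.S), (∀ t, (γ t : E0) = pr (l t)) → ¬ γ.Nullhomotopic) →
      ∀ γ : C(UnitAddCircle, S.G0.S), (∀ t, (γ t : S.E0) = S.pr (l t)) → ¬ γ.Nullhomotopic := by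
  obtain ⟨G0, rfl⟩ := exists_geo R0
  obtain ⟨G1, rfl⟩ := exists_geo R
  obtain ⟨e, he, hpe⟩ := Metric.uniformContinuousOn_iff.1
    (G1.compact.uniformContinuousOn_of_continuous hpr.continuousOn) G0.δ G0.δpos
  obtain ⟨G, hG, hGe⟩ : ∃ G : Geo E, G.toRet = G1.toRet ∧ G.δ ≤ e / 8 :=
    ⟨G1.shrink (min G1.δ (e / 8)) (lt_min G1.δpos (by positivity)) (min_le_left _ _), rfl,
      min_le_right _ _⟩
  generalize G1.toRet = R at *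
  subst hG
  obtain ⟨Hm⟩ := exists_ham G.toRet F hF h01 Rb hR
  obtain ⟨St0⟩ := exists_step G F hF Hm Rb hR
  obtain ⟨τ1, hτ1, hslow⟩ := Hm.slow Rb hR G.δpos
  obtain ⟨St, hSt⟩ : ∃ St : Step G F Hm, St.τ₀ ≤ τ1 :=
    ⟨St0.shrink (min St0.τ₀ τ1) (lt_min St0.τpos hτ1) (min_le_left _ _), min_le_right _ _⟩
  obtain ⟨Y, hY, hY'⟩ := G.exists_inv
  have hδ := G.δpos
  have hτ := St.τpos
  obtain ⟨t₁, h1, h2, h3⟩ : ∃ t₁ : ℝ, 0 < t₁ ∧ t₁ < G.δ ^ 2 ∧ Rb * (G.δ ^ 2 - t₁) ≤ √t₁ := by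
    have hb : 0 < G.δ / 2 / (|Rb| + 1) := by positivity
    refine ⟨max (G.δ ^ 2 / 4) (G.δ ^ 2 - G.δ / 2 / (|Rb| + 1)), lt_max_of_lt_left (by positivity),
      max_lt (by nlinarith) (by linarith), ?_⟩
    set t := max (G.δ ^ 2 / 4) (G.δ ^ 2 - G.δ / 2 / (|Rb| + 1))
    have e1 : G.δ / 2 ≤ √t := Real.le_sqrt_of_sq_le ((by linarith : _ ≤ G.δ ^ 2 / 4).trans
      (le_max_left _ _))
    have e2 : G.δ ^ 2 - t ≤ G.δ / 2 / (|Rb| + 1) := by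
      linarith [le_max_right (G.δ ^ 2 / 4) (G.δ ^ 2 - G.δ / 2 / (|Rb| + 1))]
    have e3 : 0 ≤ G.δ ^ 2 - t :=
      sub_nonneg.mpr (max_le (by nlinarith) (by linarith))
    rw [le_div_iff₀ (by positivity)] at e2
    nlinarith [le_abs_self Rb]
  obtain ⟨Br⟩ := exists_bar (G.δ ^ 2) t₁ (St.τ₀ / 2) h1 h2 (by positivity)
  have ha := Br.apos
  obtain ⟨μ, m0, m1, m2⟩ : ∃ μ : ℝ, 0 < μ ∧ (G.δ + μ) ^ 2 ≤ G.δ ^ 2 + Br.a / 2 ∧
      6 * G.δ * μ / Br.a ≤ St.τ₀ / 4 := by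
    refine ⟨min G.δ (min (Br.a / (6 * G.δ)) (Br.a * St.τ₀ / (24 * G.δ))), by positivity, ?_, ?_⟩
    · set μ := min G.δ (min (Br.a / (6 * G.δ)) (Br.a * St.τ₀ / (24 * G.δ)))
      have e0 : 0 < μ := by positivity
      have e1 : μ ≤ G.δ := min_le_left _ _
      have e2 : μ ≤ Br.a / (6 * G.δ) := (min_le_right _ _).trans (min_le_left _ _)
      rw [le_div_iff₀ (by positivity)] at e2
      nlinarith
    · set μ := min G.δ (min (Br.a / (6 * G.δ)) (Br.a * St.τ₀ / (24 * G.δ)))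
      have e2 : μ ≤ Br.a * St.τ₀ / (24 * G.δ) := (min_le_right _ _).trans (min_le_right _ _)
      rw [le_div_iff₀ (by positivity)] at e2
      rw [div_le_iff₀ ha]
      linarith
  refine ⟨⟨G, F, Hm, St, h01, Rb, hR, t₁, h1, h2, h3, Br, Y, hY, hY', μ, m0, m1, m2, min κ 1, C0,
    by positivity, min_le_right _ _, fun z hz s hs h => ?_,
    fun z hz t ht => hslow z hz t (ht.trans hSt), E0, G0, pr, hpr, hm, fun x hx y hy h => ?_,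
    fun z hz s hs h => ?_⟩, rfl, rfl, rfl, fun _ h => h⟩
  · have := hgap _ (fun s => Hm.A (s, z)) (Hm.orbit z hz) (Hm.Aderiv z hz)
      (by simpa only [Hm.zero] using h.trans_le (min_le_left _ _)) s hs
    simpa only [Hm.Azero, sub_zero] using this
  · rw [← dist_eq_norm] at h ⊢
    exact (hpe x hx y hy (by linarith)).le
  · have := hno _ s (Hm.orbit z hz) hs fun t => by simp only [Hm.add, h]
    simp only [Hm.zero] at this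
    rcases this with h' | h'
    · have e := Hm.stat z hz h'
      exact ⟨fun t => by rw [e], Or.inl fun t => by rw [e]⟩
    · exact h'

/-- The data exist as soon as F has no periodic orbit on a level strictly between 0 and 1. -/
theorem exists_sys [FiniteDimensional ℝ E] (R : Ret E) (F : E × E → ℝ) (hF : ContDiff ℝ ∞ F)
    (h01 : ∀ z ∈ Cot R.S, 0 ≤ F z ∧ F z ≤ 1) (Rb : ℝ)
    (hR : ∀ z ∈ Cot R.S, Rb ≤ ‖z.2‖ → F z = 1) (κ C0 : ℝ) (hκ : 0 ≤ κ)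
    (hgap : ∀ (z : ℝ → E × E) (A : ℝ → ℝ), IsOrbit R.S F z →
      (∀ t, HasDerivAt A (⟪(z t).2, (deriv z t).1⟫_ℝ - F (z t)) t) → F (z 0) < κ →
      ∀ s, 0 ≤ s → -C0 ≤ A s - A 0)
    (hno : ∀ (z : ℝ → E × E) (T : ℝ), IsOrbit R.S F z → 0 < T → (∀ t, z (t + T) = z t) →
      F (z 0) = 0 ∨ F (z 0) = 1) :
    ∃ S : Sys E, S.S = R.S ∧ S.F = F ∧ S.κ = min κ 1 ∧ S.NoPer := by
  obtain ⟨S, hS, hSF, hκ', -⟩ := exists_sys0 R R id continuous_id (fun _ h => h) F hF h01 Rb hR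
    κ C0 hκ hgap fun z T hz hT hp => Or.inl (hno z T hz hT hp)
  refine ⟨S, hS, hSF, hκ', fun z hz s hs h => ?_⟩
  have := hno _ s (by rw [← hS, ← hSF]; exact S.Hm.orbit z hz) hs fun t => by
    simp only [S.Hm.add, h]
  simp only [S.Hm.zero, ← hSF] at this
  exact S.Hm.stat z hz this

end Pool.Agent.Wein
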