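import Mathlib
import Pool.Agent.P.MP_e3ee0c_gt.WSys

/-! Closed chains, their generating function and its critical points. -/

open Set Filter Topology
open scoped ContDiff InnerProductSpace

namespace Pool.Agent.Wein

variable {E : Type} [NormedAddCommGroup E] [InnerProductSpace ℝ E]

abbrev Cfg (E : Type) (m : ℕ) (J : Type) : Type := (Fin m → E × E) × (J → E)

namespace Sys

variable (S : Sys E) {m : ℕ} [NeZero m] {J : Type} [Fintype J]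

noncomputable def act (b : J → Fin m) (τ : Fin m → ℝ) (ζ : Cfg E m J) : ℝ :=
  ∑ i, S.core (τ i) (ζ.1 i).1 (ζ.1 i).2 (ζ.1 (i + 1)).1 + ∑ j, S.Q (ζ.1 (b j)).1 (ζ.2 j)

def Z (m : ℕ) [NeZero m] (J : Type) : Set (Cfg E m J) :=
  {ζ | ∀ i, S.OK (ζ.1 i).1 (ζ.1 i).2 (ζ.1 (i + 1)).1}

/-- The relation between a critical chain and the initial point z of the orbit it describes. -/
structure Inner (fr : Prop) (s : ℝ) (ζ : Cfg E m J) (z : E × E) : Prop where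
  mem : z ∈ Cot S.S
  closed : ¬ fr → S.Hm.Φ (s, z) = z
  const : (∀ t, S.Hm.Φ (t, z) = z) ∨ s = 0 → ∀ i, (ζ.1 i).1 = z.1
  vert : ∃ σ : ℕ → ℝ, σ 0 = 0 ∧ σ m = s ∧ (∀ k, σ (k + 1) ≤ σ k + S.St.τ₀) ∧
    ∀ i : Fin m, (ζ.1 i).1 = (S.Hm.Φ (σ i, z)).1

lemma act_anti (b : J → Fin m) {τ τ' : Fin m → ℝ} (h0 : ∀ i, 0 ≤ τ i) (h1 : ∀ i, τ i ≤ τ' i)
    (h2 : ∀ i, τ' i ≤ S.St.τ₀) {ζ : Cfg E m J} (hζ : ζ ∈ S.Z m J) :
    S.act b τ' ζ ≤ S.act b τ ζ ∧ S.act b τ ζ ≤ S.act b τ' ζ + ∑ i, (τ' i - τ i) := by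
  have h := fun i => S.w_anti (hζ i).1 (hζ i).2.1 (hζ i).2.2.1 (h0 i) (h1 i) (h2 i)
  unfold act core
  constructor
  · gcongr with i
    exact (h i).1
  · rw [add_right_comm, ← Finset.sum_add_distrib]
    refine add_le_add (Finset.sum_le_sum fun i _ => ?_) le_rfl
    linarith [(h i).2]

end Sys

end Pool.Agent.Wein
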