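import Mathlib
import Pool.Agent.P.MP_e3ee0c_gt.WGhostA

/-! From one fibre to all fibres (section 4 of the proof). -/

open Set Filter Topology
open scoped ContDiff InnerProductSpace

namespace Pool.Agent.Wein

variable {E : Type} [NormedAddCommGroup E] [InnerProductSpace ℝ E]

/-- Truncation to the unit interval. -/
def ghClamp (t : ℝ) : ℝ := max 0 (min t 1)

lemma ghClamp_cont : Continuous ghClamp := by
  unfold ghClamp; fun_prop

lemma ghClamp_mem (t : ℝ) : ghClamp t ∈ Icc (0 : ℝ) 1 :=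
  ⟨le_max_left _ _, max_le zero_le_one (min_le_right _ _)⟩

lemma ghClamp_low {t : ℝ} (h : t ≤ 0) : ghClamp t = 0 :=
  max_eq_left ((min_le_left _ _).trans h)

lemma ghClamp_high {t : ℝ} (h : 1 ≤ t) : ghClamp t = 1 := by
  unfold ghClamp
  rw [min_eq_right h, max_eq_right zero_le_one]

/-- A contraction of the neighbourhood of v in S to the point x0. -/
lemma Sys.gh_track (S : Sys E) (hN : IsPathConnected S.S) {x0 v : E} (hx0 : x0 ∈ S.S)
    (hv : v ∈ S.S) : ∃ Λ : E × ℝ → E, Continuous Λ ∧ (∀ x ∈ S.S, Λ (x, 0) = x) ∧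
      (∀ x, Λ (x, 1) = x0) ∧ ∀ x, ‖x - v‖ ≤ S.δ → ∀ t, Λ (x, t) ∈ S.S := by
  obtain ⟨γ, hγ⟩ := hN.joinedIn v hv x0 hx0
  have hr : Continuous S.r := S.smooth.continuous
  have hcl := ghClamp_cont
  have hext := γ.continuous_extend
  refine ⟨fun q => S.r (q.1 + ghClamp (2 * q.2) • (v - q.1)) + γ.extend (2 * q.2 - 1) - v,
    by fun_prop, ?_, ?_, ?_⟩
  · intro x hx
    simp only [mul_zero]
    rw [ghClamp_low le_rfl, γ.extend_of_le_zero (by norm_num)]
    simp [S.fix x hx]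
  · intro x
    simp only [mul_one]
    rw [ghClamp_high (by norm_num), γ.extend_of_one_le (by norm_num)]
    simp [S.fix v hv]
  · intro x hx t
    rcases le_total (2 * t) 1 with h | h
    · simp only
      rw [γ.extend_of_le_zero (by linarith), add_sub_cancel_right]
      refine S.maps (S.ball v hv _ ?_)
      have h1 : x + ghClamp (2 * t) • (v - x) - v = (1 - ghClamp (2 * t)) • (x - v) := by
        simp only [smul_sub, sub_smul, one_smul]; abel
      have h2 := ghClamp_mem (2 * t)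
      rw [h1, norm_smul, Real.norm_eq_abs, abs_of_nonneg (by linarith [h2.2])]
      have h3 : (1 - ghClamp (2 * t)) * ‖x - v‖ ≤ 1 * ‖x - v‖ :=
        mul_le_mul_of_nonneg_right (by linarith [h2.1]) (norm_nonneg _)
      linarith [S.δpos]
    · simp only
      rw [ghClamp_high h]
      have h1 : x + (1 : ℝ) • (v - x) = v := by simp
      rw [h1, S.fix v hv, add_sub_cancel_left]
      have h2 : γ.extend (2 * t - 1) ∈ range γ := by
        rw [← γ.extend_range]; exact mem_range_self _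
      obtain ⟨s, hs⟩ := h2
      rw [← hs]
      exact hγ s

/-- One block: the homotopy of the fibre over x0 is transported to the fibres near v. -/
lemma Sys.gh_block (S : Sys E) (hN : IsPathConnected S.S) {x0 v : E} (hx0 : x0 ∈ S.S)
    (hv : v ∈ S.S) (T : ℝ) : ∃ T' : ℝ, 0 ≤ T' ∧ ∀ (B : ℝ) M H, S.IsKill {x0} M T (-B) H →
      ∃ M' H', S.GhFam M' T' Prod.fst Prod.fst H' ∧ ∀ x ∈ S.S, ‖x - v‖ ≤ S.δ / 2 →
        ∀ u, 1 ≤ u → ∀ P, S.Val M' (H' (x, u, P)) ≤ T' - B := by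
  obtain ⟨Λ, hΛc, hΛ0, hΛ1, hΛS⟩ := S.gh_track hN hx0 hv
  have hK : IsCompact (S.S ×ˢ Icc (0 : ℝ) 1) := S.compact.prod isCompact_Icc
  obtain ⟨η, hη, hu⟩ := Metric.uniformContinuousOn_iff.1
    (hK.uniformContinuousOn_of_continuous hΛc.continuousOn) S.μ S.μpos
  obtain ⟨J0, hJ0⟩ := exists_nat_one_div_lt hη
  set J : ℕ := J0 + 1 with hJ
  have hJpos : (0 : ℝ) < J := by positivity
  have hJη : 1 / (J : ℝ) < η := by simpa [hJ] using hJ0
  have hτ := S.St.τpos
  have hcl := ghClamp_cont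
  have hδ := S.δpos
  let a : E × ℝ → ℝ := fun q => ghClamp q.2 * ghClamp (2 - 2 * ‖q.1 - v‖ / S.δ)
  have hac : Continuous a := by fun_prop
  let s : E × ℝ → ℝ := fun q => ghClamp (2 * a q)
  have hsc : Continuous s := by fun_prop
  let y : E × ℝ → ℕ → E := fun q i => Λ (q.1, s q * (i / J))
  have hyc : ∀ i, Continuous fun q => y q i := fun i => by fun_prop
  have ha0 : ∀ x, ∀ u ≤ 0, a (x, u) = 0 := by
    intro x u hu
    simp only [a, ghClamp_low hu, zero_mul]
  have hs0 : ∀ q, a q = 0 → s q = 0 := by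
    intro q hq
    simp only [s, hq, mul_zero, ghClamp_low le_rfl]
  have hy0 : ∀ x ∈ S.S, ∀ u, a (x, u) = 0 → ∀ i, y (x, u) i = x := by
    intro x hx u h i
    simp only [y, hs0 _ h, zero_mul, hΛ0 x hx]
  have hyS : ∀ x ∈ S.S, ∀ u i, y (x, u) i ∈ S.S := by
    intro x hx u i
    rcases le_total ‖x - v‖ S.δ with h | h
    · exact hΛS x h _
    · rw [hy0 x hx u]
      · exact hx
      · have : 2 - 2 * ‖x - v‖ / S.δ ≤ 0 := by
          rw [sub_nonpos, le_div_iff₀ hδ]; linarith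
        simp only [a, ghClamp_low this, mul_zero]
  have hmem : ∀ q, ∀ i : ℕ, i ≤ J → s q * ((i : ℝ) / J) ∈ Icc (0 : ℝ) 1 := by
    intro q i hi
    have h1 := ghClamp_mem (2 * a q)
    have h2 : (i : ℝ) / J ≤ 1 := by
      rw [div_le_one hJpos]; exact_mod_cast hi
    have h3 : (0 : ℝ) ≤ (i : ℝ) / J := by positivity
    exact ⟨mul_nonneg h1.1 h3, mul_le_one₀ h1.2 h3 h2⟩
  have hstep : ∀ x ∈ S.S, ∀ u, ∀ i < J, ‖y (x, u) i - y (x, u) (i + 1)‖ ≤ S.μ := by
    intro x hx u i hi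
    have h1 := hu (x, s (x, u) * ((i : ℝ) / J)) ⟨hx, hmem _ i hi.le⟩
      (x, s (x, u) * (((i + 1 : ℕ) : ℝ) / J)) ⟨hx, hmem _ (i + 1) hi⟩ (by
        rw [Prod.dist_eq, dist_self, Real.dist_eq]
        refine max_lt hη (lt_of_le_of_lt ?_ hJη)
        have h2 := ghClamp_mem (2 * a (x, u))
        have h3 : s (x, u) * ((i : ℝ) / J) - s (x, u) * (((i + 1 : ℕ) : ℝ) / J) =
            -(s (x, u) * (1 / J)) := by
          push_cast; ring
        rw [h3, abs_neg, abs_of_nonneg (mul_nonneg h2.1 (by positivity))]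
        exact mul_le_of_le_one_left (by positivity) h2.2)
    rw [dist_eq_norm] at h1
    exact h1.le
  have hyJ : ∀ x u, 1 ≤ 2 * a (x, u) → y (x, u) J = x0 := by
    intro x u h
    simp only [y, s, ghClamp_high h, div_self hJpos.ne', mul_one, hΛ1]
  have hfirst : ∀ x ∈ S.S, ∀ u, y (x, u) 0 = x := by
    intro x hx u
    simp only [y, Nat.cast_zero, zero_div, mul_zero, hΛ0 x hx]
  have F1 := S.ghFam_unit J y hyc (fun x hx u i hi => ⟨hyS x hx u i, hstep x hx u i hi⟩)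
    (fun x hx u hu i _ => hy0 x hx u (ha0 x u hu) i)
  have F3 := S.ghFam_unit J (fun q i => y q (J - i)) (fun i => hyc _)
    (fun x hx u i hi => ⟨hyS x hx u _, by
      have h1 := hstep x hx u (J - (i + 1)) (by omega)
      rw [show J - (i + 1) + 1 = J - i by omega, norm_sub_rev] at h1
      exact h1⟩)
    (fun x hx u hu i _ => hy0 x hx u (ha0 x u hu) _)
  refine ⟨J * (S.St.τ₀ / 4) + (max T 0 + J * (S.St.τ₀ / 4)), by positivity, ?_⟩
  intro B M H hH
  have F2 := S.ghFam_mid hx0 hH (fun q => y q J) (fun q => 2 * a q - 1) (hyc J) (by fun_prop)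
    (fun x hx u => hyS x hx u J)
    (fun x _ u => (le_total (2 * a (x, u)) 1).imp (fun h => by linarith) (hyJ x u))
    (fun x hx u hu => ⟨by rw [ha0 x u hu]; norm_num, hy0 x hx u (ha0 x u hu) J⟩)
  have F23 := F2.cat F3
  have F := F1.cat F23
  refine ⟨_, _, ⟨F.cont, F.valid, ?_, ?_, F.le, F.start, F.proper⟩, ?_⟩
  · intro x hx u P
    rw [F.src x hx u P]
    exact hfirst x hx u
  · intro x hx u P
    rw [F.tgt x hx u P]
    simpa using hfirst x hx u
  · intro x hx hxv u hu P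
    have ha1 : a (x, u) = 1 := by
      have : 1 ≤ 2 - 2 * ‖x - v‖ / S.δ := by
        have : 2 * ‖x - v‖ / S.δ ≤ 1 := by
          rw [div_le_one hδ]; linarith
        linarith
      simp only [a, ghClamp_high hu, ghClamp_high this, mul_one]
    rw [F1.val_cat F23 hx, F2.val_cat F3 hx,
      S.ghMid_high H (fun q => y q J) (fun q => 2 * a q - 1) (hyJ x u (by rw [ha1]; norm_num))]
    have h1 := F1.le x hx u P
    have h2 := hH.stop x0 rfl (2 * a (x, u) - 1) (by rw [ha1]; norm_num) (fun i => P (J + i))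
    have h3 := F3.le x hx u (fun i => P (J + (M + i)))
    have h4 := le_max_right T 0
    linarith

variable [FiniteDimensional ℝ E]

theorem Sys.ghost (S : Sys E) (hN : IsPathConnected S.S) {x : E} (hx : x ∈ S.S) (T : ℝ)
    (h : ∀ B : ℝ, ∃ M H, S.IsKill {x} M T (-B) H) :
    ∃ M T' H, S.IsKill S.S M T' (-1) H := by
  have key : ∃ T' : ℝ, ∀ (B : ℝ) M H, S.IsKill {x} M T (-B) H →
      ∃ M' H', S.GhFam M' T' Prod.fst Prod.fst H' ∧ ∀ y ∈ S.S, y ∈ S.S →
        ∀ u, 1 ≤ u → ∀ P, S.Val M' (H' (y, u, P)) ≤ T' - B := by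
    refine S.compact.induction_on (p := fun s : Set E => ∃ T' : ℝ, ∀ (B : ℝ) M H,
      S.IsKill {x} M T (-B) H → ∃ M' H', S.GhFam M' T' Prod.fst Prod.fst H' ∧
        ∀ y ∈ S.S, y ∈ s → ∀ u, 1 ≤ u → ∀ P, S.Val M' (H' (y, u, P)) ≤ T' - B) ?_ ?_ ?_ ?_
    · obtain ⟨T', -, hT'⟩ := S.gh_block hN hx hx T
      refine ⟨T', fun B M H hH => ?_⟩
      obtain ⟨M', H', h1, -⟩ := hT' B M H hH
      exact ⟨M', H', h1, fun y _ hy => hy.elim⟩
    · rintro s t hst ⟨T', hT'⟩
      refine ⟨T', fun B M H hH => ?_⟩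
      obtain ⟨M', H', h1, h2⟩ := hT' B M H hH
      exact ⟨M', H', h1, fun y hy hys => h2 y hy (hst hys)⟩
    · rintro s t ⟨T1, hT1⟩ ⟨T2, hT2⟩
      refine ⟨T1 + T2, fun B M H hH => ?_⟩
      obtain ⟨M1, H1, h1, h1'⟩ := hT1 B M H hH
      obtain ⟨M2, H2, h2, h2'⟩ := hT2 B M H hH
      refine ⟨_, _, h1.cat h2, fun y hy hys u hu P => ?_⟩
      rw [h1.val_cat h2 hy]
      rcases hys with hys | hys
      · have a1 := h1' y hy hys u hu P
        have a2 := h2.le y hy u (fun i => P (M1 + i))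
        linarith
      · have a1 := h1.le y hy u P
        have a2 := h2' y hy hys u hu (fun i => P (M1 + i))
        linarith
    · intro v hv
      obtain ⟨T', -, hT'⟩ := S.gh_block hN hx hv T
      refine ⟨Metric.closedBall v (S.δ / 2), mem_nhdsWithin_of_mem_nhds
        (Metric.closedBall_mem_nhds v (by linarith [S.δpos])), T', fun B M H hH => ?_⟩
      obtain ⟨M', H', h1, h2⟩ := hT' B M H hH
      exact ⟨M', H', h1, fun y hy hys => h2 y hy (by simpa [dist_eq_norm] using hys)⟩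
  obtain ⟨T', hT'⟩ := key
  obtain ⟨M, H, hH⟩ := h (T' + 1)
  obtain ⟨M', H', h1, h2⟩ := hT' _ M H hH
  refine ⟨M', T', H', h1.cont, h1.valid, h1.src, h1.tgt, h1.le, h1.start, ?_, h1.proper⟩
  intro y hy u hu P
  have := h2 y hy hy u hu P
  linarith

end Pool.Agent.Wein
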