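import Mathlib
import Pool.Agent.P.MP_e3ee0c_gt.WFlow
import Pool.Agent.P.MP_e3ee0c_gt.WIF

/-! The abstract moving level deformation lemma. -/

open Set Filter Topology
open scoped ContDiff

namespace Pool.Agent.Wein

/-- The flow of a time dependent smooth field with compact support. -/
theorem exists_time_flow {X : Type*} [NormedAddCommGroup X] [NormedSpace ℝ X]
    [FiniteDimensional ℝ X] (V : ℝ × X → X) (hV : ContDiff ℝ ∞ V) (hc : HasCompactSupport V) :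
    ∃ e : ℝ × X → X, Continuous e ∧ (∀ z, e (0, z) = z) ∧
      (∀ t z, HasDerivAt (fun s => e (s, z)) (V (t, e (t, z))) t) ∧
      (∀ z y t0, (∀ t, V (t, y) = 0) → e (t0, z) = y → z = y) ∧
      ∀ z, (∀ t ∈ Icc (0 : ℝ) 1, V (t, z) = 0) → ∀ t ∈ Icc (0 : ℝ) 1, e (t, z) = z := by
  obtain ⟨K, hK⟩ := hV.lipschitzWith_of_hasCompactSupport hc (by simp)
  have hKt : ∀ t : ℝ, LipschitzWith K fun z => V (t, z) := fun t => by
    simpa [Function.comp_def] using hK.comp (LipschitzWith.prodMk_left t)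
  obtain ⟨Φ, hΦ, h0, hd, -⟩ := exists_flow (fun w : ℝ × X => ((1 : ℝ), V w))
    (contDiff_const.prodMk hV) _ ((LipschitzWith.const (1 : ℝ)).prodMk hK)
  have h1 : ∀ t z, (Φ (t, (0, z))).1 = t := by
    intro t z
    have h2 : ∀ s, HasDerivAt (fun s => (Φ (s, ((0 : ℝ), z))).1 - s) 0 s := fun s => by
      have h4 : HasDerivAt (fun s => (Φ (s, ((0 : ℝ), z))).1) 1 s :=
        (ContinuousLinearMap.fst ℝ ℝ X).hasFDerivAt.comp_hasDerivAt s (hd s (0, z))
      simpa using h4.fun_sub (hasDerivAt_id' s)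
    have h3 := is_const_of_deriv_eq_zero (fun s => (h2 s).differentiableAt)
      (fun s => (h2 s).deriv) t 0
    rw [h0] at h3
    linarith
  have he : ∀ t z, HasDerivAt (fun s => (Φ (s, ((0 : ℝ), z))).2)
      (V (t, (Φ (t, ((0 : ℝ), z))).2)) t := by
    intro t z
    have : HasDerivAt (fun s => (Φ (s, ((0 : ℝ), z))).2) (V (Φ (t, ((0 : ℝ), z)))) t :=
      (ContinuousLinearMap.snd ℝ ℝ X).hasFDerivAt.comp_hasDerivAt t (hd t (0, z))
    have e1 : Φ (t, ((0 : ℝ), z)) = (t, (Φ (t, ((0 : ℝ), z))).2) := Prod.ext (h1 t z) rfl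
    rw [← e1]; exact this
  refine ⟨fun w => (Φ (w.1, (0, w.2))).2, ?_, fun z => by simp [h0], he, ?_, ?_⟩
  · have := hΦ.continuous
    fun_prop
  · intro z y t0 hy ht
    have := ODE_solution_unique_univ (v := fun t z => V (t, z)) (s := fun _ => univ)
      (f := fun s => (Φ (s, ((0 : ℝ), z))).2) (g := fun _ => y) (t₀ := t0)
      (fun t => (hKt t).lipschitzOnWith) (fun t => ⟨he t z, trivial⟩)
      (fun t => ⟨by rw [hy]; exact hasDerivAt_const t y, trivial⟩) ht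
    simpa [h0] using congrFun this 0
  · intro z hz
    exact ODE_solution_unique (v := fun t z => V (t, z)) (g := fun _ => z) hKt
      (fun t _ => (he t z).continuousAt.continuousWithinAt)
      (fun t _ => (he t z).hasDerivWithinAt) continuousOn_const
      (fun t ht => by rw [hz t (Ico_subset_Icc_self ht)]; exact hasDerivWithinAt_const _ _ _)
      (by simp [h0])

theorem abstract_deform {X Y : Type*} [NormedAddCommGroup X] [NormedSpace ℝ X]
    [FiniteDimensional ℝ X] [NormedAddCommGroup Y] [NormedSpace ℝ Y] {ι : Type*} [Fintype ι]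
    (O Z : Set X) (hO : IsOpen O) (hZO : Z ⊆ O)
    (Ψ : ℝ × X → ℝ) (hΨ : ContDiffOn ℝ ∞ Ψ (univ ×ˢ O))
    (B : ι → X → X) (hB : ∀ j, ContDiffOn ℝ ∞ (B j) O) (hB1 : ∀ j, ∀ z ∈ Z, ‖B j z‖ ≤ 1)
    (Λ : X → ℝ) (hΛ : DifferentiableOn ℝ Λ O) (C : ℝ)
    (hΛB : ∀ j, ∀ z ∈ Z, |fderiv ℝ Λ z (B j z)| ≤ C)
    (hcpt : ∀ c, IsCompact {z | z ∈ Z ∧ Λ z ≤ c})
    (hinv : ∀ (v : ℝ → X) (g : ι → ℝ → ℝ) (T : ℝ), 0 ≤ T →
      (∀ j, ContinuousOn (g j) (Icc 0 T)) →
      (∀ t ∈ Icc 0 T, v t ∈ O ∧ HasDerivAt v (∑ j, g j t • B j (v t)) t) → v 0 ∈ Z → v T ∈ Z)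
    (L : X →L[ℝ] Y) (hL : ∀ j, ∀ z ∈ O, L (B j z) = 0)
    (M : ℝ) (hM : ∀ u ∈ Icc (0 : ℝ) 1, ∀ z ∈ Z, fderiv ℝ Ψ (u, z) (1, 0) ≤ M)
    (η b : ℝ) (hη : 0 < η) (hb : 0 < b)
    (hPS : ∀ u ∈ Icc (0 : ℝ) 1, ∀ z ∈ Z, |Ψ (u, z)| ≤ b →
      η ≤ ∑ j, fderiv ℝ Ψ (u, z) (0, B j z) ^ 2 ∨ fderiv ℝ Ψ (u, z) (1, 0) < 0) :
    ∃ D : ℝ, 0 ≤ D ∧ ∀ K ⊆ Z, IsCompact K → ∃ e : ℝ × X → X, Continuous e ∧
      (∀ z, e (0, z) = z) ∧ (∀ u z, L (e (u, z)) = L z) ∧
      (∀ z ∈ K, ∀ u ∈ Icc (0 : ℝ) 1, e (u, z) ∈ Z ∧ (Ψ (0, z) ≤ 0 → Ψ (u, e (u, z)) ≤ 0)) ∧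
      (∀ z ∈ K, ∀ u ∈ Icc (0 : ℝ) 1, ∀ u' ∈ Icc (0 : ℝ) 1,
        ‖e (u, z) - e (u', z)‖ ≤ D * |u - u'|) ∧
      ∀ z, (∀ u ∈ Icc (0 : ℝ) 1, Ψ (u, z) ≤ -b) → ∀ u ∈ Icc (0 : ℝ) 1, e (u, z) = z := by
  set W : Set (ℝ × X) := univ ×ˢ O with hW
  have hWo : IsOpen W := isOpen_univ.prod hO
  set a : ι → ℝ × X → ℝ := fun j w => fderiv ℝ Ψ w (0, B j w.2) with ha
  set G : ℝ × X → ℝ := fun w => ∑ j, a j w ^ 2 with hG
  have hG0 : ∀ w, 0 ≤ G w := fun w => Finset.sum_nonneg fun k _ => sq_nonneg _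
  have haG : ∀ k w, a k w ^ 2 ≤ G w := fun k w =>
    Finset.single_le_sum (f := fun k => a k w ^ 2) (fun k _ => sq_nonneg _) (Finset.mem_univ k)
  set M' : ℝ := (|M| + 1) * (1 + η) / η with hM'
  have hM0 : 0 ≤ M' := by positivity
  set χ : ℝ → ℝ := fun t => Real.smoothTransition ((t + b) / b) with hχ
  have hχc : ContDiff ℝ ∞ χ :=
    Real.smoothTransition.contDiff.comp ((contDiff_id.add contDiff_const).div_const b)
  set co : ι → ℝ × X → ℝ := fun k w => -(M' * χ (Ψ w) * (a k w / (1 + G w))) with hco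
  have hco_le : ∀ k w, |co k w| ≤ M' := by
    intro k w
    have h1 : |a k w / (1 + G w)| ≤ 1 := by
      have := hG0 w
      rw [abs_div, abs_of_pos (by linarith : 0 < 1 + G w), div_le_one (by linarith)]
      nlinarith [haG k w, sq_abs (a k w), sq_nonneg (|a k w| - 1)]
    have h2 : 0 ≤ χ (Ψ w) := Real.smoothTransition.nonneg _
    have h3 : χ (Ψ w) ≤ 1 := Real.smoothTransition.le_one _
    simp only [hco, abs_neg, abs_mul, abs_of_nonneg hM0, abs_of_nonneg h2]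
    calc _ ≤ M' * 1 * 1 := by gcongr
      _ = M' := by ring
  have hBw : ∀ j, ContDiffOn ℝ ∞ (fun w : ℝ × X => B j w.2) W := fun j =>
    (hB j).comp contDiffOn_snd fun w hw => hw.2
  have hac : ∀ j, ContDiffOn ℝ ∞ (a j) W := fun j =>
    (hΨ.fderiv_of_isOpen hWo (by simp)).clm_apply (contDiffOn_const.prodMk (hBw j))
  have hGc : ContDiffOn ℝ ∞ G W := ContDiffOn.sum fun j _ => (hac j).pow 2
  have hcoc : ∀ j, ContDiffOn ℝ ∞ (co j) W := fun j =>
    ((contDiffOn_const.mul (hχc.comp_contDiffOn hΨ)).mul ((hac j).div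
      (contDiffOn_const.add hGc) fun w _ => (add_pos_of_pos_of_nonneg one_pos (hG0 w)).ne')).neg
  refine ⟨Fintype.card ι * M', by positivity, fun K hKZ hK => ?_⟩
  obtain ⟨c, hc⟩ := hK.bddAbove_image (hΛ.continuousOn.mono (hKZ.trans hZO))
  set D1 : ℝ := Fintype.card ι * (M' * |C|) with hD1
  have hD10 : 0 ≤ D1 := by positivity
  obtain ⟨κ, hκ, hκc, hκW, hκ01, hκ1⟩ := exists_bump (Icc (0 : ℝ) 1 ×ˢ {z | z ∈ Z ∧ Λ z ≤ c + D1})
    W (isCompact_Icc.prod (hcpt _)) hWo fun w hw => ⟨trivial, hZO hw.2.1⟩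
  set g : ι → ℝ × X → ℝ := fun j w => κ w • co j w with hg
  have hgc : ∀ j, ContDiff ℝ ∞ (g j) := fun j => contDiff_smul_cut W hWo κ hκ hκW _ (hcoc j)
  have hg_le : ∀ j w, |g j w| ≤ M' := fun j w => by
    simp only [hg, smul_eq_mul, abs_mul, abs_of_nonneg (hκ01 w).1]
    calc _ ≤ 1 * M' := by gcongr; exacts [(hκ01 w).2, hco_le j w]
      _ = M' := one_mul _
  set V : ℝ × X → X := fun w => κ w • ∑ j, co j w • B j w.2 with hV
  have hVg : ∀ w, V w = ∑ j, g j w • B j w.2 := fun w => by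
    simp only [hV, hg, Finset.smul_sum, smul_smul, smul_eq_mul]
  have hVc : ContDiff ℝ ∞ V := contDiff_smul_cut W hWo κ hκ hκW _
    (ContDiffOn.sum fun j _ => (hcoc j).smul (hBw j))
  have hκO : ∀ w : ℝ × X, w.2 ∉ O → κ w = 0 := fun w hw =>
    image_eq_zero_of_notMem_tsupport fun h => hw (hκW h).2
  obtain ⟨e, he, he0, hed, heu, hef⟩ := exists_time_flow V hVc hκc.smul_right
  have heO : ∀ z ∈ O, ∀ t, e (t, z) ∈ O := by
    intro z hz t
    by_contra hn
    have := heu z _ t (fun s => by simp [hV, hκO (s, e (t, z)) hn]) rfl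
    exact hn (this ▸ hz)
  have heZ : ∀ z ∈ Z, ∀ t, 0 ≤ t → e (t, z) ∈ Z := by
    intro z hz t ht
    refine hinv (fun s => e (s, z)) (fun j s => g j (s, e (s, z))) t ht (fun j => ?_)
      (fun s _ => ⟨heO z (hZO hz) s, ?_⟩) (by rwa [he0])
    · have := (hgc j).continuous
      exact Continuous.continuousOn (by fun_prop)
    · have := hed s z
      rwa [hVg] at this
  have hsum : ∀ (s : ι → ℝ) (r : ℝ), (∀ k, s k ≤ r) → ∑ k, s k ≤ Fintype.card ι * r :=
    fun s r hs => by simpa using Finset.sum_le_card_nsmul Finset.univ s _ fun k _ => hs k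
  have hκe : ∀ z ∈ K, ∀ t ∈ Icc (0 : ℝ) 1, κ (t, e (t, z)) = 1 := by
    intro z hz t ht
    refine hκ1.self_of_nhdsSet _ ⟨ht, heZ z (hKZ hz) t ht.1, ?_⟩
    have h1 : ∀ s ∈ Icc (0 : ℝ) 1, HasDerivWithinAt (fun s => Λ (e (s, z)))
        (fderiv ℝ Λ (e (s, z)) (V (s, e (s, z)))) (Icc 0 1) s := fun s _ =>
      ((hΛ.differentiableAt (hO.mem_nhds (heO z (hZO (hKZ hz)) s))).hasFDerivAt.comp_hasDerivAt s
        (hed s z)).hasDerivWithinAt
    have h2 := (convex_Icc (0 : ℝ) 1).norm_image_sub_le_of_norm_hasDerivWithin_le (C := D1) h1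
      (fun s hs => by
        rw [hVg, map_sum]
        refine (norm_sum_le _ _).trans (hsum _ _ fun j => ?_)
        rw [map_smul, norm_smul, Real.norm_eq_abs, Real.norm_eq_abs]
        exact mul_le_mul (hg_le _ _) ((hΛB j _ (heZ z (hKZ hz) s hs.1)).trans (le_abs_self C))
          (abs_nonneg _) hM0) (left_mem_Icc.2 zero_le_one) ht
    rw [he0, sub_zero, Real.norm_eq_abs, Real.norm_eq_abs, abs_of_nonneg ht.1] at h2
    have h3 : Λ z ≤ c := hc ⟨z, hz, rfl⟩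
    have h4 := mul_le_mul_of_nonneg_left ht.2 hD10
    have h5 := (abs_le.1 h2).2
    change Λ (e (t, z)) ≤ c + D1
    linarith
  refine ⟨e, he, he0, fun u z => ?_, fun z hz u hu => ⟨heZ z (hKZ hz) u hu.1, fun h0 => ?_⟩,
    fun z hz u hu u' hu' => ?_, fun z hz => hef z fun t ht => ?_⟩
  · have h2 : ∀ s, HasDerivAt (fun s => L (e (s, z))) 0 s := fun s => by
      have h3 := L.hasFDerivAt.comp_hasDerivAt s (hed s z)
      have h4 : L (V (s, e (s, z))) = 0 := by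
        by_cases hO' : e (s, z) ∈ O
        · simp [hVg, map_sum, hL _ _ hO']
        · simp [hV, hκO (s, e (s, z)) hO']
      rwa [h4] at h3
    have h3 := is_const_of_deriv_eq_zero (fun s => (h2 s).differentiableAt)
      (fun s => (h2 s).deriv) u 0
    rwa [he0] at h3
  · have hd : ∀ s, HasDerivAt (fun s => Ψ (s, e (s, z)))
        (fderiv ℝ Ψ (s, e (s, z)) (1, V (s, e (s, z)))) s := fun s =>
      ((hΨ.contDiffAt (hWo.mem_nhds (x := (s, e (s, z)))
        ⟨trivial, heO z (hZO (hKZ hz)) s⟩)).differentiableAt (by simp)).hasFDerivAt.comp_hasDerivAt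
        s ((hasDerivAt_id s).prodMk (hed s z))
    refine image_le_of_deriv_right_lt_deriv_boundary (f := fun s => Ψ (s, e (s, z)))
      (B := fun _ => 0) (B' := fun _ => 0) (fun s _ => (hd s).continuousAt.continuousWithinAt)
      (fun s _ => (hd s).hasDerivWithinAt) (by simpa [he0] using h0)
      (fun s => hasDerivAt_const s 0) (fun s hs hΨ0 => ?_) hu
    have hs' := Ico_subset_Icc_self hs
    set y := e (s, z) with hy
    have hyZ : y ∈ Z := heZ z (hKZ hz) s hs.1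
    have e1 : (((1 : ℝ), V (s, y)) : ℝ × X) = (1, 0) + ∑ k, co k (s, y) • ((0 : ℝ), B k y) := by
      ext
      · simp [Prod.fst_sum]
      · simp [Prod.snd_sum, hV, hy, hκe z hz s hs']
    have e2 : χ (Ψ (s, y)) = 1 := by
      simp only [hχ, hΨ0, zero_add, div_self hb.ne', Real.smoothTransition.one]
    have e3 : ∑ k, co k (s, y) * a k (s, y) = -(M' * (G (s, y) / (1 + G (s, y)))) := by
      simp only [hco, e2]
      conv_rhs => rw [hG]
      simp only [Finset.sum_div, Finset.mul_sum, ← Finset.sum_neg_distrib]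
      exact Finset.sum_congr rfl fun k _ => by ring
    rw [e1, map_add, map_sum]
    simp only [map_smul, smul_eq_mul]
    change _ + ∑ k, co k (s, y) * a k (s, y) < 0
    rw [e3]
    have h5 := hG0 (s, y)
    rcases hPS s hs' y hyZ (by rw [hΨ0, abs_zero]; exact hb.le) with h | h
    · have h6 : η / (1 + η) ≤ G (s, y) / (1 + G (s, y)) := by
        rw [div_le_div_iff₀ (by linarith) (by linarith)]
        change η ≤ G (s, y) at h
        linarith
      have h7 := mul_le_mul_of_nonneg_left h6 hM0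
      have h8 : M' * (η / (1 + η)) = |M| + 1 := by rw [hM']; field_simp
      linarith [hM s hs' y hyZ, le_abs_self M]
    · have : 0 ≤ M' * (G (s, y) / (1 + G (s, y))) := by positivity
      linarith
  · refine (convex_Icc (0 : ℝ) 1).norm_image_sub_le_of_norm_hasDerivWithin_le
      (f := fun s => e (s, z)) (fun s _ => (hed s z).hasDerivWithinAt) (fun s hs => ?_) hu' hu
    rw [hVg]
    refine (norm_sum_le _ _).trans (hsum _ _ fun j => ?_)
    rw [norm_smul, Real.norm_eq_abs]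
    simpa using mul_le_mul (hg_le j (s, e (s, z))) (hB1 j _ (heZ z (hKZ hz) s hs.1))
      (norm_nonneg _) hM0
  · have e2 : χ (Ψ (t, z)) = 0 := Real.smoothTransition.zero_of_nonpos
      (div_nonpos_of_nonpos_of_nonneg (by linarith [hz t ht]) hb.le)
    simp [hV, hco, e2]

end Pool.Agent.Wein
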