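import Mathlib
import Pool.Agent.P.MP_e3ee0c_gt.WConf

/-! Derivatives of the generating function of closed chains. -/

open Set Filter Topology
open scoped ContDiff InnerProductSpace

namespace Pool.Agent.Wein

variable {E : Type} [NormedAddCommGroup E] [InnerProductSpace ℝ E]

lemma hasDerivAt_normSq {f : ℝ → E} {f' : E} {t : ℝ} (h : HasDerivAt f f' t) :
    HasDerivAt (fun s => ‖f s‖ ^ 2) (2 * ⟪f t, f'⟫_ℝ) t := h.norm_sq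

namespace Sys

variable (S : Sys E) {m : ℕ} [NeZero m] {J : Type} [Fintype J]

/-- The open set on which the generating function is smooth. -/
def O (m : ℕ) [NeZero m] (J : Type) : Set (Cfg E m J) :=
  {ζ | ∀ i, ‖(ζ.1 i).1 - (ζ.1 i).2‖ ^ 2 < S.δ ^ 2 ∧
    ‖(ζ.1 i).2 - (ζ.1 (i + 1)).1‖ ^ 2 < S.δ ^ 2 + S.Br.a}

omit [Fintype J] in
lemma isOpen_O : IsOpen (S.O m J) := by
  have : S.O m J = ⋂ i, ({ζ : Cfg E m J | ‖(ζ.1 i).1 - (ζ.1 i).2‖ ^ 2 < S.δ ^ 2} ∩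
      {ζ : Cfg E m J | ‖(ζ.1 i).2 - (ζ.1 (i + 1)).1‖ ^ 2 < S.δ ^ 2 + S.Br.a}) := by
    ext ζ; simp [O]
  rw [this]
  refine isOpen_iInter_of_finite fun i => IsOpen.inter ?_ ?_ <;>
    exact isOpen_lt (by fun_prop) continuous_const

omit [Fintype J] in
lemma Z_sub_O : S.Z m J ⊆ S.O m J := fun _ h i => ⟨(h i).2.2.1, (h i).2.2.2⟩

lemma core_deriv {τ : ℝ → ℝ} {x y x' : ℝ → E} {θ : ℝ} {u v u' : E} {t : ℝ}
    (hτ : HasDerivAt τ θ t) (hx : HasDerivAt x u t) (hy : HasDerivAt y v t)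
    (hx' : HasDerivAt x' u' t) (h1 : ‖x t - y t‖ ^ 2 < S.δ ^ 2)
    (h2 : ‖y t - x' t‖ ^ 2 < S.δ ^ 2 + S.Br.a) :
    HasDerivAt (fun s => S.core (τ s) (x s) (y s) (x' s))
      (-(2 * ⟪x t - y t, u - v⟫_ℝ) / (S.δ ^ 2 - ‖x t - y t‖ ^ 2) +
        fderiv ℝ S.St.w (τ t, x t, y t) (θ, u, v) +
        1 / (S.δ ^ 2 - S.Br.m (‖y t - x' t‖ ^ 2)) * (2 * ⟪y t - x' t, v - u'⟫_ℝ)) t := by
  unfold core
  refine HasDerivAt.add (HasDerivAt.add ?_ ?_) ?_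
  · have := ((hasDerivAt_normSq (hx.sub hy)).const_sub (S.δ ^ 2)).log (by
      simp only [Pi.sub_apply]; linarith)
    simpa using this
  · exact ((S.St.ws.differentiable (by simp)) _).hasFDerivAt.comp_hasDerivAt t
      (hτ.prodMk (hx.prodMk hy))
  · exact (S.Br.gd _ h2).comp t (hasDerivAt_normSq (hy.sub hx'))

lemma Q_deriv {x n : ℝ → E} {u η : E} {t : ℝ} (hx : HasDerivAt x u t) (hn : HasDerivAt n η t) :
    HasDerivAt (fun s => S.Q (x s) (n s))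
      (2 * ⟪S.P (x t) (n t), fderiv ℝ S.P (x t) u (n t) + S.P (x t) η⟫_ℝ -
        2 * ⟪n t - S.P (x t) (n t), η - (fderiv ℝ S.P (x t) u (n t) + S.P (x t) η)⟫_ℝ) t := by
  have hP : HasDerivAt (fun s => S.P (x s)) (fderiv ℝ S.P (x t) u) t :=
    ((S.P_smooth.differentiable (by simp)) _).hasFDerivAt.comp_hasDerivAt t hx
  have h1 : HasDerivAt (fun s => S.P (x s) (n s)) (fderiv ℝ S.P (x t) u (n t) + S.P (x t) η) t :=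
    hP.clm_apply hn
  exact (hasDerivAt_normSq h1).sub (hasDerivAt_normSq (hn.sub h1))

/-- The derivative of the generating function in the direction θ, v. -/
noncomputable def Dact (b : J → Fin m) (τ : Fin m → ℝ) (ζ : Cfg E m J) (θ : Fin m → ℝ)
    (v : Cfg E m J) : ℝ :=
  ∑ i, (-(2 * ⟪(ζ.1 i).1 - (ζ.1 i).2, (v.1 i).1 - (v.1 i).2⟫_ℝ) /
        (S.δ ^ 2 - ‖(ζ.1 i).1 - (ζ.1 i).2‖ ^ 2) +
      fderiv ℝ S.St.w (τ i, (ζ.1 i).1, (ζ.1 i).2) (θ i, (v.1 i).1, (v.1 i).2) +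
      1 / (S.δ ^ 2 - S.Br.m (‖(ζ.1 i).2 - (ζ.1 (i + 1)).1‖ ^ 2)) *
        (2 * ⟪(ζ.1 i).2 - (ζ.1 (i + 1)).1, (v.1 i).2 - (v.1 (i + 1)).1⟫_ℝ)) +
  ∑ j, (2 * ⟪S.P (ζ.1 (b j)).1 (ζ.2 j),
        fderiv ℝ S.P (ζ.1 (b j)).1 (v.1 (b j)).1 (ζ.2 j) + S.P (ζ.1 (b j)).1 (v.2 j)⟫_ℝ -
      2 * ⟪ζ.2 j - S.P (ζ.1 (b j)).1 (ζ.2 j), v.2 j -
        (fderiv ℝ S.P (ζ.1 (b j)).1 (v.1 (b j)).1 (ζ.2 j) + S.P (ζ.1 (b j)).1 (v.2 j))⟫_ℝ)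

lemma act_deriv (b : J → Fin m) {τ : ℝ → Fin m → ℝ} {ζ : ℝ → Cfg E m J} {θ : Fin m → ℝ}
    {v : Cfg E m J} {t : ℝ} (hτ : ∀ i, HasDerivAt (fun s => τ s i) (θ i) t)
    (hζ : HasDerivAt ζ v t) (hO : ζ t ∈ S.O m J) :
    HasDerivAt (fun s => S.act b (τ s) (ζ s)) (S.Dact b (τ t) (ζ t) θ v) t := by
  have h1 : ∀ i, HasDerivAt (fun s => (ζ s).1 i) (v.1 i) t := fun i =>
    (hasDerivAt_pi.1 hζ.fst) i
  have h2 : ∀ j, HasDerivAt (fun s => (ζ s).2 j) (v.2 j) t := fun j =>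
    (hasDerivAt_pi.1 hζ.snd) j
  unfold act Dact
  refine HasDerivAt.add (HasDerivAt.fun_sum fun i _ => ?_) (HasDerivAt.fun_sum fun j _ => ?_)
  · exact S.core_deriv (hτ i) (h1 i).fst (h1 i).snd (h1 (i + 1)).fst (hO i).1 (hO i).2
  · exact S.Q_deriv (h1 (b j)).fst (h2 j)

lemma act_smooth (b : J → Fin m) :
    ContDiffOn ℝ ∞ (fun p : (Fin m → ℝ) × Cfg E m J => S.act b p.1 p.2) (univ ×ˢ S.O m J) := by
  unfold act core Q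
  refine ContDiffOn.add (ContDiffOn.sum fun i _ => ?_) (ContDiffOn.sum fun j _ => ?_)
  · refine ContDiffOn.add (ContDiffOn.add ?_ ?_) ?_
    · refine ContDiffOn.log (ContDiff.contDiffOn ?_) fun p hp => ?_
      · exact contDiff_const.sub (ContDiff.norm_sq ℝ (by fun_prop))
      · have := (hp.2 i).1
        linarith
    · exact (S.St.ws.comp (by fun_prop)).contDiffOn
    · refine S.Br.gs.comp (ContDiff.contDiffOn (ContDiff.norm_sq ℝ (by fun_prop))) fun p hp => ?_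
      exact (hp.2 i).2
  · have hP : ContDiff ℝ ∞ (fun p : (Fin m → ℝ) × Cfg E m J =>
        S.P (p.2.1 (b j)).1 (p.2.2 j)) :=
      (S.P_smooth.comp (by fun_prop)).clm_apply (by fun_prop)
    exact ((hP.norm_sq ℝ).sub (ContDiff.norm_sq ℝ (ContDiff.sub (by fun_prop) hP))).contDiffOn

/-- Projection of a direction on the tangent spaces. -/
noncomputable def proj (ζ v : Cfg E m J) : Cfg E m J :=
  (fun i => (S.P (ζ.1 i).1 (v.1 i).1, S.P (ζ.1 i).2 (v.1 i).2), v.2)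

lemma inner_tw (ψ : ℝ → ℝ) {x : E} (hx : x ∈ S.S) (y u : E) :
    ⟪S.tw ψ x y, u⟫_ℝ = ψ (‖x - y‖ ^ 2) * (2 * ⟪x - y, S.P x u⟫_ℝ) := by
  rw [Geo.tw, real_inner_smul_left, S.P_symm hx]; ring

lemma P_tw (ψ : ℝ → ℝ) {x : E} (hx : x ∈ S.S) (y : E) : S.P x (S.tw ψ x y) = S.tw ψ x y := by
  rw [Geo.tw, map_smul, S.P_idem hx]

lemma Dact_proj (b : J → Fin m) (τ : Fin m → ℝ) {ζ : Cfg E m J} (hζ : ζ ∈ S.Z m J)
    (θ : Fin m → ℝ) (v : Cfg E m J) :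
    S.Dact b τ ζ θ (S.proj ζ v) =
      ∑ i, fderiv ℝ S.St.w (τ i, (ζ.1 i).1, (ζ.1 i).2)
          (θ i, S.P (ζ.1 i).1 (v.1 i).1, S.P (ζ.1 i).2 (v.1 i).2) -
        ∑ i, ⟪S.pi (ζ.1 i).1 (ζ.1 i).2, (v.1 i).1⟫_ℝ +
        ∑ i, ⟪S.pit (ζ.1 i).2 (ζ.1 (i + 1)).1 - S.pi (ζ.1 i).2 (ζ.1 i).1, (v.1 i).2⟫_ℝ +
        ∑ i, ⟪S.pit (ζ.1 (i + 1)).1 (ζ.1 i).2, (v.1 (i + 1)).1⟫_ℝ +
        ∑ j, 2 * ⟪ζ.2 j, fderiv ℝ S.P (ζ.1 (b j)).1 (S.P (ζ.1 (b j)).1 (v.1 (b j)).1) (ζ.2 j)⟫_ℝ +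
        ∑ j, 2 * ⟪(2 : ℝ) • S.P (ζ.1 (b j)).1 (ζ.2 j) - ζ.2 j, v.2 j⟫_ℝ := by
  unfold Dact
  rw [← Finset.sum_sub_distrib, ← Finset.sum_add_distrib, ← Finset.sum_add_distrib, add_assoc,
    ← Finset.sum_add_distrib]
  congr 1
  · refine Finset.sum_congr rfl fun i _ => ?_
    have hx := (hζ i).1
    have hy := (hζ i).2.1
    have hx' := (hζ (i + 1)).1
    simp only [proj, Geo.pi, pit, inner_sub_left (S.tw _ _ _), S.inner_tw _ hx, S.inner_tw _ hy,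
      S.inner_tw _ hx', inner_sub_right]
    rw [norm_sub_rev (ζ.1 i).2 (ζ.1 i).1, norm_sub_rev (ζ.1 (i + 1)).1 (ζ.1 i).2,
      ← neg_sub (ζ.1 i).1 (ζ.1 i).2, ← neg_sub (ζ.1 i).2 (ζ.1 (i + 1)).1, inner_neg_left,
      inner_neg_left]
    ring
  · refine Finset.sum_congr rfl fun j _ => ?_
    have hx := (hζ (b j)).1
    have e1 : ⟪S.P (ζ.1 (b j)).1 (ζ.2 j), S.P (ζ.1 (b j)).1 (v.2 j)⟫_ℝ =
        ⟪S.P (ζ.1 (b j)).1 (ζ.2 j), v.2 j⟫_ℝ := by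
      rw [← S.P_symm hx, S.P_idem hx]
    have e2 : ⟪ζ.2 j, S.P (ζ.1 (b j)).1 (v.2 j)⟫_ℝ = ⟪S.P (ζ.1 (b j)).1 (ζ.2 j), v.2 j⟫_ℝ := by
      rw [← S.P_symm hx]
    simp only [proj, inner_sub_left, inner_sub_right, inner_add_right, real_inner_smul_left, e1, e2]
    ring

end Sys

end Pool.Agent.Wein
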