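import Mathlib
import Pool.Agent.P.MP_e3ee0c_gt.WpCrit

/-! Almost critical chains near the barriers. -/

open Set Filter Topology
open scoped ContDiff InnerProductSpace

namespace Pool.Agent.Wein

variable {E : Type} [NormedAddCommGroup E] [InnerProductSpace ℝ E]

lemma tendsto_zero_of_inner {α κ : Type*} [Fintype κ] (e : OrthonormalBasis κ ℝ E) {l : Filter α}
    {f : α → E} (h : ∀ k, Tendsto (fun n => ⟪f n, e k⟫_ℝ) l (𝓝 0)) : Tendsto f l (𝓝 0) := by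
  have : f = fun n => ∑ k, ⟪f n, e k⟫_ℝ • e k := by
    funext n
    conv_lhs => rw [← e.sum_repr' (f n)]
    simp only [real_inner_comm]
  rw [this]
  have h0 : (0 : E) = ∑ k : κ, (0 : ℝ) • e k := by simp
  rw [h0]
  exact tendsto_finsetSum _ fun k _ => (h k).smul_const _

lemma eq_zero_of_inner {κ : Type*} [Fintype κ] (e : OrthonormalBasis κ ℝ E) {v : E}
    (h : ∀ k, ⟪v, e k⟫_ℝ = 0) : v = 0 := by
  rw [← e.sum_repr' v]
  exact Finset.sum_eq_zero fun k _ => by rw [real_inner_comm, h k, zero_smul]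

lemma exists_lim {α X : Type*} [TopologicalSpace X] (U : Ultrafilter α) {K : Set X}
    (hK : IsCompact K) {f : α → X} (h : ∀ n, f n ∈ K) : ∃ x ∈ K, Tendsto f U (𝓝 x) := by
  obtain ⟨x, hx, hle⟩ := hK.ultrafilter_le_nhds (U.map f) (by
    rw [Ultrafilter.coe_map, le_principal_iff, mem_map]
    exact univ_mem' h)
  exact ⟨x, hx, hle⟩

lemma one_div_div_one_div_aux {a b : ℝ} (ha : a ≠ 0) (hb : b ≠ 0) : 1 / a / (1 / b) = b / a := by
  field_simp

namespace Sys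

variable (S : Sys E) {m : ℕ} [NeZero m] {J : Type} [Fintype J]

noncomputable def th (ζ : Cfg E m J) (i : Fin m) : ℝ :=
  1 / (S.δ ^ 2 - ‖(ζ.1 i).1 - (ζ.1 i).2‖ ^ 2)

noncomputable def tht (ζ : Cfg E m J) (i : Fin m) : ℝ :=
  1 / (S.δ ^ 2 - S.Br.m (‖(ζ.1 i).2 - (ζ.1 (i + 1)).1‖ ^ 2))

noncomputable def Th (ζ : Cfg E m J) : ℝ := 1 + ∑ i, (S.th ζ i + S.tht ζ i)

omit [Fintype J] in
lemma th_pos {ζ : Cfg E m J} (h : ζ ∈ S.O m J) (i : Fin m) : 0 < S.th ζ i :=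
  one_div_pos.2 (by linarith [(h i).1])

omit [Fintype J] in
lemma tht_pos {ζ : Cfg E m J} (h : ζ ∈ S.O m J) (i : Fin m) : 0 < S.tht ζ i :=
  one_div_pos.2 (by linarith [S.Br.m_lt _ (h i).2])

omit [Fintype J] in
lemma le_Th {ζ : Cfg E m J} (h : ζ ∈ S.O m J) (i : Fin m) :
    1 + (S.th ζ i + S.tht ζ i) ≤ S.Th ζ := by
  unfold Th
  gcongr
  exact Finset.single_le_sum (f := fun i => S.th ζ i + S.tht ζ i)
    (fun k _ => (add_pos (S.th_pos h k) (S.tht_pos h k)).le) (Finset.mem_univ i)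

omit [Fintype J] in
lemma one_le_Th {ζ : Cfg E m J} (h : ζ ∈ S.O m J) : 1 ≤ S.Th ζ := by
  have := S.le_Th h 0
  linarith [S.th_pos h 0, S.tht_pos h 0]

lemma norm_refl {x : E} (hx : x ∈ S.S) (n : E) : ‖(2 : ℝ) • S.P x n - n‖ = ‖n‖ := by
  have h1 := S.pyth hx ((2 : ℝ) • S.P x n - n)
  have h2 := S.pyth hx n
  have e1 : S.P x ((2 : ℝ) • S.P x n - n) = S.P x n := by
    rw [map_sub, map_smul, S.P_idem hx, two_smul]; abel
  rw [e1] at h1
  have e2 : (2 : ℝ) • S.P x n - n - S.P x n = -(n - S.P x n) := by rw [two_smul]; abel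
  rw [e2, norm_neg, ← h2] at h1
  exact (pow_left_inj₀ (norm_nonneg _) (norm_nonneg _) two_ne_zero).1 h1

lemma n_tendsto [DecidableEq J] {α κ : Type*} [Fintype κ] (e : OrthonormalBasis κ ℝ E)
    {l : Filter α} (b : J → Fin m) {τ : α → Fin m → ℝ} {ζ : α → Cfg E m J}
    (hζ : ∀ n, ζ n ∈ S.Z m J)
    (hn : ∀ j k, Tendsto (fun n => S.Dact b (τ n) (ζ n) 0 (S.proj (ζ n) (dn m j (e k)))) l (𝓝 0))
    (j : J) : Tendsto (fun n => (ζ n).2 j) l (𝓝 0) := by
  have h1 : Tendsto (fun n => (2 : ℝ) • S.P ((ζ n).1 (b j)).1 ((ζ n).2 j) - (ζ n).2 j) l (𝓝 0) := by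
    refine tendsto_zero_of_inner e fun k => ?_
    have := (hn j k).const_mul (1 / 2)
    simp only [S.Dact_dn b _ (hζ _)] at this
    convert this using 2 <;> ring
  rw [tendsto_zero_iff_norm_tendsto_zero] at h1 ⊢
  simpa only [S.norm_refl (hζ _ _).1] using h1

theorem at_infinity [DecidableEq J] {α κ : Type*} [Fintype κ] (e : OrthonormalBasis κ ℝ E)
    (U : Ultrafilter α) (b : J → Fin m) (fr : Prop) {τ : α → Fin m → ℝ}
    (hτ : ∀ n i, τ n i ∈ Icc 0 S.St.τ₀) {ζ : α → Cfg E m J} (hζ : ∀ n, ζ n ∈ S.Z m J)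
    (hT : Tendsto (fun n => S.Th (ζ n)) U atTop)
    (hn : ∀ j k, Tendsto (fun n => S.Dact b (τ n) (ζ n) 0 (S.proj (ζ n) (dn m j (e k)))) U (𝓝 0))
    (hy : ∀ i k, Tendsto (fun n => (S.Th (ζ n))⁻¹ *
      S.Dact b (τ n) (ζ n) 0 (S.proj (ζ n) (dy J i (e k)))) U (𝓝 0))
    (hx : ∀ i k, ¬ (fr ∧ i + 1 = 0) → Tendsto (fun n => (S.Th (ζ n))⁻¹ *
      S.Dact b (τ n) (ζ n) 0 (S.proj (ζ n) (dx J (i + 1) (e k)))) U (𝓝 0))
    {ε : ℝ} (hε : 0 < ε) : ∀ᶠ n in (U : Filter α),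
      (∀ i, S.F (((ζ n).1 i).1, S.St.pm (τ n i, ((ζ n).1 i).1, ((ζ n).1 i).2)) = 1) ∧
      S.act b (τ n) (ζ n) ≤ -∑ i, τ n i + m * (S.St.τ₀ / 2) + ε := by
  have hO : ∀ n, ζ n ∈ S.O m J := fun n => S.Z_sub_O (hζ n)
  have hN := S.n_tendsto e b hζ hn
  choose X hX hXl using fun i => exists_lim U S.compact (f := fun n => ((ζ n).1 i).1)
    fun n => (hζ n i).1
  choose Y hY hYl using fun i => exists_lim U S.compact (f := fun n => ((ζ n).1 i).2)
    fun n => (hζ n i).2.1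
  choose T hT' hTl using fun i => exists_lim U isCompact_Icc (f := fun n => τ n i)
    fun n => hτ n i
  have hTpos : ∀ n, 0 < S.Th (ζ n) := fun n => lt_of_lt_of_le one_pos (S.one_le_Th (hO n))
  have hw : ∀ n i, (S.Th (ζ n))⁻¹ * S.th (ζ n) i ∈ Icc (0 : ℝ) 1 ∧
      (S.Th (ζ n))⁻¹ * S.tht (ζ n) i ∈ Icc (0 : ℝ) 1 := fun n i => by
    have h1 := S.le_Th (hO n) i
    have h2 := S.th_pos (hO n) i
    have h3 := S.tht_pos (hO n) i
    have h4 := hTpos n
    refine ⟨⟨by positivity, ?_⟩, by positivity, ?_⟩ <;> rw [inv_mul_le_iff₀ h4] <;> linarith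
  choose θ hθ hθl using fun i => exists_lim U isCompact_Icc
    (f := fun n => (S.Th (ζ n))⁻¹ * S.th (ζ n) i) fun n => (hw n i).1
  choose ϑ hϑ hϑl using fun i => exists_lim U isCompact_Icc
    (f := fun n => (S.Th (ζ n))⁻¹ * S.tht (ζ n) i) fun n => (hw n i).2
  have hinv : Tendsto (fun n => (S.Th (ζ n))⁻¹) U (𝓝 0) := hT.inv_tendsto_atTop
  have hq : ∀ i, Tendsto (fun n => ‖((ζ n).1 i).1 - ((ζ n).1 i).2‖ ^ 2) U
      (𝓝 (‖X i - Y i‖ ^ 2)) := fun i => (((hXl i).sub (hYl i)).norm).pow 2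
  have hq' : ∀ i, Tendsto (fun n => ‖((ζ n).1 i).2 - ((ζ n).1 (i + 1)).1‖ ^ 2) U
      (𝓝 (‖Y i - X (i + 1)‖ ^ 2)) := fun i => (((hYl i).sub (hXl (i + 1))).norm).pow 2
  have hqle : ∀ i, ‖X i - Y i‖ ^ 2 ≤ S.δ ^ 2 := fun i =>
    le_of_tendsto' (hq i) fun n => (hO n i).1.le
  have hqle' : ∀ i, ‖Y i - X (i + 1)‖ ^ 2 ≤ S.δ ^ 2 + S.Br.a := fun i =>
    le_of_tendsto' (hq' i) fun n => (hO n i).2.le
  have ha := S.Br.apos
  have hδ := S.δpos
  -- a positive limit weight forces the edge to the barrier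
  have hb1 : ∀ i, (S.δ ^ 2 - ‖X i - Y i‖ ^ 2) * θ i = 0 := fun i => by
    refine tendsto_nhds_unique (((hq i).const_sub _).mul (hθl i)) (hinv.congr fun n => ?_)
    have : S.δ ^ 2 - ‖((ζ n).1 i).1 - ((ζ n).1 i).2‖ ^ 2 ≠ 0 := by linarith [(hO n i).1]
    simp only [th]; field_simp
  have hb2 : ∀ i, (S.δ ^ 2 - S.Br.m (‖Y i - X (i + 1)‖ ^ 2)) * ϑ i = 0 := fun i => by
    refine tendsto_nhds_unique
      ((((S.Br.ms.continuous.tendsto _).comp (hq' i)).const_sub _).mul (hϑl i))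
      (hinv.congr fun n => ?_)
    have : S.δ ^ 2 - S.Br.m (‖((ζ n).1 i).2 - ((ζ n).1 (i + 1)).1‖ ^ 2) ≠ 0 := by
      linarith [S.Br.m_lt _ (hO n i).2]
    simp only [tht, Function.comp]; field_simp
  have hB1 : ∀ i, θ i ≠ 0 → ‖X i - Y i‖ ^ 2 = S.δ ^ 2 := fun i h => by
    have := (mul_eq_zero.1 (hb1 i)).resolve_right h; linarith
  have hB2 : ∀ i, ϑ i ≠ 0 → ‖Y i - X (i + 1)‖ ^ 2 = S.δ ^ 2 + S.Br.a := fun i h => by
    have := (mul_eq_zero.1 (hb2 i)).resolve_right h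
    by_contra hc
    linarith [S.Br.m_lt _ (lt_of_le_of_ne (hqle' i) hc)]
  have hsum : ∑ i, (θ i + ϑ i) = 1 := by
    refine tendsto_nhds_unique (tendsto_finsetSum _ fun i _ => (hθl i).add (hϑl i)) ?_
    have := hinv.const_sub 1
    rw [sub_zero] at this
    refine this.congr fun n => ?_
    simp only [← mul_add, ← Finset.mul_sum]
    have h1 : ∑ i, (S.th (ζ n) i + S.tht (ζ n) i) = S.Th (ζ n) - 1 := by simp [Th]
    rw [h1, mul_sub, inv_mul_cancel₀ (hTpos n).ne', mul_one]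
  have hPc : Continuous S.P := S.P_smooth.continuous
  have hDw : Continuous (fderiv ℝ S.St.w) := S.St.ws.continuous_fderiv (by simp)
  have hDP : Continuous (fderiv ℝ S.P) := S.P_smooth.continuous_fderiv (by simp)
  have hP : ∀ {f g : α → E} {x y : E}, Tendsto f U (𝓝 x) → Tendsto g U (𝓝 y) →
      Tendsto (fun n => S.P (f n) (g n)) U (𝓝 (S.P x y)) := fun {f g x y} hf hg =>
    (isBoundedBilinearMap_apply.continuous.tendsto (S.P x, y)).comp
      (((hPc.tendsto x).comp hf).prodMk_nhds hg)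
  have hW : ∀ i {g : α → ℝ × E × E} {y : ℝ × E × E}, Tendsto g U (𝓝 y) →
      Tendsto (fun n => (S.Th (ζ n))⁻¹ *
        fderiv ℝ S.St.w (τ n i, ((ζ n).1 i).1, ((ζ n).1 i).2) (g n)) U (𝓝 0) := by
    intro i g y hg
    have := hinv.mul ((isBoundedBilinearMap_apply.continuous.tendsto
      (fderiv ℝ S.St.w (T i, X i, Y i), y)).comp (((hDw.tendsto _).comp
        ((hTl i).prodMk_nhds ((hXl i).prodMk_nhds (hYl i)))).prodMk_nhds hg))
    rw [zero_mul] at this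
    exact this
  -- the limit equations
  have Ey : ∀ i, (2 * ϑ i) • S.P (Y i) (Y i - X (i + 1)) = (2 * θ i) • S.P (Y i) (Y i - X i) := by
    intro i
    rw [← sub_eq_zero]
    refine eq_zero_of_inner e fun k => ?_
    have h1 := (hy i k).sub (hW i ((tendsto_const_nhds (x := (0 : ℝ))).prodMk_nhds
      ((tendsto_const_nhds (x := (0 : E))).prodMk_nhds
        (hP (hYl i) (tendsto_const_nhds (x := e k))))))
    rw [sub_zero] at h1
    have h2 := ((((hϑl i).const_mul 2).smul (hP (hYl i) ((hYl i).sub (hXl (i + 1))))).sub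
      (((hθl i).const_mul 2).smul (hP (hYl i) ((hYl i).sub (hXl i))))).inner (𝕜 := ℝ)
      (tendsto_const_nhds (x := e k))
    refine tendsto_nhds_unique h2 (h1.congr fun n => ?_)
    rw [S.Dact_dy b _ (hζ n)]
    simp only [pit, Geo.pi, Geo.tw, th, tht, inner_sub_left, real_inner_smul_left,
      norm_sub_rev ((ζ n).1 i).2 ((ζ n).1 i).1]
    ring
  have Ex : ∀ i, ¬ (fr ∧ i + 1 = 0) → (2 * ϑ i) • S.P (X (i + 1)) (X (i + 1) - Y i) =
      (2 * θ (i + 1)) • S.P (X (i + 1)) (X (i + 1) - Y (i + 1)) := by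
    intro i hi
    rw [← sub_eq_zero]
    refine eq_zero_of_inner e fun k => ?_
    have h0 : Tendsto (fun n => (S.Th (ζ n))⁻¹ * ∑ j, if b j = i + 1 then
        2 * ⟪(ζ n).2 j, fderiv ℝ S.P ((ζ n).1 (i + 1)).1 (S.P ((ζ n).1 (i + 1)).1 (e k))
          ((ζ n).2 j)⟫_ℝ else 0) U (𝓝 0) := by
      have h3 : Tendsto (fun n => fderiv ℝ S.P ((ζ n).1 (i + 1)).1
          (S.P ((ζ n).1 (i + 1)).1 (e k))) U
          (𝓝 (fderiv ℝ S.P (X (i + 1)) (S.P (X (i + 1)) (e k)))) :=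
        (isBoundedBilinearMap_apply.continuous.tendsto (_, _)).comp
          (((hDP.tendsto _).comp (hXl (i + 1))).prodMk_nhds (hP (hXl (i + 1)) tendsto_const_nhds))
      have h4 : Tendsto (fun n => ∑ j, if b j = i + 1 then
          2 * ⟪(ζ n).2 j, fderiv ℝ S.P ((ζ n).1 (i + 1)).1 (S.P ((ζ n).1 (i + 1)).1 (e k))
            ((ζ n).2 j)⟫_ℝ else 0) U (𝓝 (∑ j, if b j = i + 1 then
          2 * ⟪(0 : E), fderiv ℝ S.P (X (i + 1)) (S.P (X (i + 1)) (e k)) 0⟫_ℝ else 0)) := by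
        refine tendsto_finsetSum _ fun j _ => ?_
        split_ifs
        · exact ((hN j).inner (𝕜 := ℝ) ((isBoundedBilinearMap_apply.continuous.tendsto
            (_, _)).comp (h3.prodMk_nhds (hN j)))).const_mul 2
        · exact tendsto_const_nhds
      have := hinv.mul h4
      rwa [zero_mul] at this
    have h1 := ((hx i k hi).sub (hW (i + 1) ((tendsto_const_nhds (x := (0 : ℝ))).prodMk_nhds
      ((hP (hXl (i + 1)) (tendsto_const_nhds (x := e k))).prodMk_nhds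
        (tendsto_const_nhds (x := (0 : E))))))).sub h0
    rw [sub_zero, sub_zero] at h1
    have h2 := ((((hϑl i).const_mul 2).smul (hP (hXl (i + 1)) ((hXl (i + 1)).sub (hYl i)))).sub
      (((hθl (i + 1)).const_mul 2).smul
        (hP (hXl (i + 1)) ((hXl (i + 1)).sub (hYl (i + 1)))))).inner (𝕜 := ℝ)
      (tendsto_const_nhds (x := e k))
    refine tendsto_nhds_unique h2 (h1.congr fun n => ?_)
    rw [S.Dact_dx b _ (hζ n)]
    simp only [pit, Geo.pi, Geo.tw, th, tht, inner_sub_left, real_inner_smul_left,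
      norm_sub_rev ((ζ n).1 (i + 1)).1 ((ζ n).1 i).2]
    ring
  have hne : ∀ {x y : E}, x ∈ S.S → y ∈ S.S → S.δ ^ 2 ≤ ‖x - y‖ ^ 2 →
      ‖x - y‖ ^ 2 ≤ S.δ ^ 2 + S.Br.a → S.P x (x - y) ≠ 0 := by
    intro x y hx hy h1 h2 h0
    have := S.lower hx hy (S.le8 h2)
    rw [h0, norm_zero] at this
    have h3 : ‖x - y‖ = 0 := le_antisymm (by linarith) (norm_nonneg _)
    rw [h3] at h1
    nlinarith
  have p1 : ∀ i, θ i = 0 ↔ ϑ i = 0 := fun i => by
    constructor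
    · intro h
      by_contra hc
      have h1 := Ey i
      rw [h, mul_zero, zero_smul, smul_eq_zero] at h1
      exact hne (hY i) (hX _) (by rw [hB2 i hc]; linarith) (hqle' i)
        (h1.resolve_left (by simpa using hc))
    · intro h
      by_contra hc
      have h1 := (Ey i).symm
      rw [h, mul_zero, zero_smul, smul_eq_zero] at h1
      exact hne (hY i) (hX _) (by rw [norm_sub_rev, hB1 i hc])
        (by rw [norm_sub_rev, hB1 i hc]; linarith) (h1.resolve_left (by simpa using hc))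
  have p2 : ∀ i, i + 1 ≠ 0 → (θ (i + 1) = 0 ↔ ϑ i = 0) := fun i hi => by
    have hE := Ex i fun h => hi h.2
    constructor
    · intro h
      by_contra hc
      rw [h, mul_zero, zero_smul, smul_eq_zero] at hE
      exact hne (hX _) (hY i) (by rw [norm_sub_rev, hB2 i hc]; linarith)
        (by rw [norm_sub_rev]; exact hqle' i) (hE.resolve_left (by simpa using hc))
    · intro h
      by_contra hc
      have h1 := hE.symm
      rw [h, mul_zero, zero_smul, smul_eq_zero] at h1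
      exact hne (hX _) (hY _) (by rw [hB1 _ hc]) (by rw [hB1 _ hc]; linarith)
        (h1.resolve_left (by simpa using hc))
  have p3 : ∀ k < m, (θ (Fin.ofNat m k) = 0 ↔ θ 0 = 0) := by
    intro k
    induction k with
    | zero => intro _; rw [show Fin.ofNat m 0 = 0 by ext; simp [Fin.ofNat]]
    | succ k ih =>
      intro hk
      rw [ofNat_succ, p2 _ (ofNat_ne_zero hk), ← p1, ih (by omega)]
  have p4 : ∀ i, θ i ≠ 0 := by
    have h0 : θ 0 ≠ 0 := fun h0 => by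
      have : ∀ i, θ i = 0 := fun i => by
        obtain ⟨l, hl, rfl⟩ := exists_ofNat i
        exact (p3 l hl).2 h0
      simp [this, fun i => (p1 i).1 (this i)] at hsum
    intro i
    obtain ⟨l, hl, rfl⟩ := exists_ofNat i
    exact fun h => h0 ((p3 l hl).1 h)
  have p5 : ∀ i, ϑ i ≠ 0 := fun i h => p4 i ((p1 i).2 h)
  have p6 : ∀ i, ϑ i ≤ θ i := fun i => by
    by_contra hc
    have := S.weight_le (hX i) (hY i) (hX (i + 1))
      (S.le8 (by rw [norm_sub_rev]; linarith [hqle i])) (S.le8 (hqle' i))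
      (s := 2 * θ i) (t := 2 * ϑ i) (by linarith [(hθ i).1]) (by linarith [not_le.1 hc]) (Ey i)
    have h4 : ‖Y i - X (i + 1)‖ ^ 2 ≤ ‖Y i - X i‖ ^ 2 := by gcongr
    rw [hB2 i (p5 i), norm_sub_rev, hB1 i (p4 i)] at h4
    linarith
  have ev1 : ∀ᶠ n in (U : Filter α), ∀ i, S.t₁ ≤ ‖((ζ n).1 i).1 - ((ζ n).1 i).2‖ ^ 2 :=
    eventually_all.2 fun i => (hq i).eventually_const_le (by rw [hB1 i (p4 i)]; exact S.t₁lt)
  have hlim : Tendsto (fun n => ∑ i, Real.log ((S.Th (ζ n))⁻¹ * S.tht (ζ n) i /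
      ((S.Th (ζ n))⁻¹ * S.th (ζ n) i)) + ∑ j, S.Q ((ζ n).1 (b j)).1 ((ζ n).2 j)) U
      (𝓝 (∑ i, Real.log (ϑ i / θ i) + ∑ j, S.Q (X (b j)) 0)) := by
    refine Tendsto.add (tendsto_finsetSum _ fun i _ => ?_) (tendsto_finsetSum _ fun j _ => ?_)
    · exact ((hϑl i).div (hθl i) (p4 i)).log (div_ne_zero (p5 i) (p4 i))
    · exact ((hP (hXl _) (hN j)).norm.pow 2).sub (((hN j).sub (hP (hXl _) (hN j))).norm.pow 2)
  have hneg : ∑ i, Real.log (ϑ i / θ i) + ∑ j, S.Q (X (b j)) 0 < ε := by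
    have h1 : ∑ i, Real.log (ϑ i / θ i) ≤ 0 := Finset.sum_nonpos fun i _ =>
      Real.log_nonpos (div_nonneg (hϑ i).1 (hθ i).1)
        ((div_le_one (lt_of_le_of_ne (hθ i).1 (p4 i).symm)).2 (p6 i))
    simp only [Q, map_zero, norm_zero, sub_self, Finset.sum_const_zero]
    linarith
  filter_upwards [ev1, hlim.eventually_lt_const hneg] with n h1 h2
  have hF : ∀ i, S.F (((ζ n).1 i).1, S.pi ((ζ n).1 i).1 ((ζ n).1 i).2) = 1 := fun i =>
    S.hR _ ((S.mem_cot _).2 ⟨(hζ n i).1,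
      S.P_tw (fun t => 1 / (S.δ ^ 2 - t)) (hζ n i).1 ((ζ n).1 i).2⟩)
      (S.pi_big (hζ n i).1 (hζ n i).2.1 (h1 i) (hO n i).1)
  have hs := fun i => S.w_stat (hζ n i).1 (hζ n i).2.1 (hO n i).1 (hτ n i) (Or.inr (hF i))
  refine ⟨fun i => by rw [(hs i).1, hF i], ?_⟩
  have hc : ∀ i, S.core (τ n i) ((ζ n).1 i).1 ((ζ n).1 i).2 ((ζ n).1 (i + 1)).1 ≤
      -τ n i + S.St.τ₀ / 2 + Real.log ((S.Th (ζ n))⁻¹ * S.tht (ζ n) i /
        ((S.Th (ζ n))⁻¹ * S.th (ζ n) i)) := fun i => by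
    have g1 := S.Br.g_le _ (hO n i).2
    have g2 : 0 < S.δ ^ 2 - S.Br.m (‖((ζ n).1 i).2 - ((ζ n).1 (i + 1)).1‖ ^ 2) := by
      linarith [S.Br.m_lt _ (hO n i).2]
    have g3 : 0 < S.δ ^ 2 - ‖((ζ n).1 i).1 - ((ζ n).1 i).2‖ ^ 2 := by linarith [(hO n i).1]
    rw [core, (hs i).2, hF i, mul_div_mul_left _ _ (inv_pos.2 (hTpos n)).ne', th, tht,
      one_div_div_one_div_aux g2.ne' g3.ne', Real.log_div g3.ne' g2.ne']
    linarith
  have := Finset.sum_le_sum fun i (_ : i ∈ Finset.univ) => hc i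
  simp only [Finset.sum_add_distrib, Finset.sum_neg_distrib, Finset.sum_const, Finset.card_univ,
    Fintype.card_fin, nsmul_eq_mul] at this
  unfold act
  linarith

end Sys

end Pool.Agent.Wein
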