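import Mathlib
import Pool.Agent.P.MP_e3ee0c_gt.WpLam
import Pool.Agent.P.MP_e3ee0c_gt.WAD

/-! The moving level deformation of closed chains. -/

open Set Filter Topology
open scoped ContDiff InnerProductSpace

namespace Pool.Agent.Wein

variable {E : Type} [NormedAddCommGroup E] [InnerProductSpace ℝ E] [FiniteDimensional ℝ E]

namespace Sys

variable (S : Sys E) {m : ℕ} [NeZero m] {J : Type} [Fintype J]

/-- The adapted vector fields. -/
noncomputable def fld [DecidableEq J] (fr : Prop)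
    (c : (Fin m ⊕ Fin m ⊕ J) × Fin (Module.finrank ℝ E)) (ζ : Cfg E m J) : Cfg E m J :=
  S.wt c.1 ζ • S.proj ζ (raw fr c.1 (stdOrthonormalBasis ℝ E c.2))

lemma fld_smooth [DecidableEq J] (fr : Prop) (c : (Fin m ⊕ Fin m ⊕ J) × Fin (Module.finrank ℝ E)) :
    ContDiffOn ℝ ∞ (S.fld fr c) (S.O m J) :=
  (S.wt_smooth c.1).smul (S.proj_smooth _).contDiffOn

lemma fld_norm [DecidableEq J] (fr : Prop) (c : (Fin m ⊕ Fin m ⊕ J) × Fin (Module.finrank ℝ E))
    {ζ : Cfg E m J} (hζ : ζ ∈ S.Z m J) :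
    ‖S.fld fr c ζ‖ ≤ 1 ∧ ∀ i, ‖(S.fld fr c ζ).1 i‖ ≤ (S.Th ζ)⁻¹ := by
  have h1 := S.one_le_Th (S.Z_sub_O hζ)
  have h2 : 0 < (S.Th ζ)⁻¹ := inv_pos.2 (by linarith)
  have h3 : (S.Th ζ)⁻¹ ≤ 1 := inv_le_one_of_one_le₀ h1
  have h4 : ‖raw fr c.1 (stdOrthonormalBasis ℝ E c.2)‖ ≤ 1 :=
    (norm_raw_le fr c.1 _).trans ((stdOrthonormalBasis ℝ E).orthonormal.1 c.2).le
  have h5 := (S.norm_proj hζ _).trans h4
  have h6 := fun i => (S.norm_proj_fst hζ _ i).trans h4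
  have key : S.wt c.1 ζ = (S.Th ζ)⁻¹ →
      ‖S.fld fr c ζ‖ ≤ 1 ∧ ∀ i, ‖(S.fld fr c ζ).1 i‖ ≤ (S.Th ζ)⁻¹ := fun h => by
    refine ⟨?_, fun i => ?_⟩
    · rw [fld, norm_smul, h, Real.norm_of_nonneg h2.le]
      exact mul_le_one₀ h3 (norm_nonneg _) h5
    · rw [fld, Prod.smul_fst, Pi.smul_apply, norm_smul, h, Real.norm_of_nonneg h2.le]
      exact mul_le_of_le_one_right h2.le (h6 i)
  obtain ⟨i | i | j, k⟩ := c
  · exact key rfl
  · exact key rfl
  · refine ⟨by simpa [fld, wt] using h5, fun i => ?_⟩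
    simp [fld, wt, proj, raw, dn, h2.le]

lemma Z_inv [DecidableEq J] (fr : Prop) (v : ℝ → Cfg E m J)
    (g : (Fin m ⊕ Fin m ⊕ J) × Fin (Module.finrank ℝ E) → ℝ → ℝ) (T : ℝ) (hT : 0 ≤ T)
    (hg : ∀ c, ContinuousOn (g c) (Icc 0 T))
    (hv : ∀ t ∈ Icc 0 T, v t ∈ S.O m J ∧ HasDerivAt v (∑ c, g c t • S.fld fr c (v t)) t)
    (h0 : v 0 ∈ S.Z m J) : v T ∈ S.Z m J := by
  have hvc : ContinuousOn v (Icc 0 T) := fun t ht => (hv t ht).2.continuousAt.continuousWithinAt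
  have hw : ∀ c : (Fin m ⊕ Fin m ⊕ J) × Fin (Module.finrank ℝ E),
      ContinuousOn (fun t => S.wt c.1 (v t)) (Icc 0 T) := fun c =>
    (S.wt_smooth c.1).continuousOn.comp hvc fun t ht => (hv t ht).1
  intro i
  have h1 : ∀ t ∈ Icc 0 T, HasDerivAt (fun s => (v s).1 i)
      ((∑ c, g c t • S.fld fr c (v t)).1 i) t := fun t ht => (hasDerivAt_pi.1 (hv t ht).2.fst) i
  refine ⟨?_, ?_, (hv T ⟨hT, le_rfl⟩).1 i⟩
  · refine S.toGRet.inv (fun s => ((v s).1 i).1) (fun t => ∑ c, (g c t * S.wt c.1 (v t)) •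
      ((raw fr c.1 (stdOrthonormalBasis ℝ E c.2)).1 i).1) T hT ?_ (fun t ht => ?_) (h0 i).1
    · exact continuousOn_finsetSum _ fun c _ => ((hg c).mul (hw c)).smul continuousOn_const
    · have h2 : HasDerivAt (fun s => ((v s).1 i).1)
          ((∑ c, g c t • S.fld fr c (v t)).1 i).1 t := (h1 t ht).fst
      refine h2.congr_deriv ?_
      simp only [Prod.fst_sum, Finset.sum_apply, map_sum, map_smul, fld, Prod.smul_fst,
        Pi.smul_apply, proj, mul_smul]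
      rfl
  · refine S.toGRet.inv (fun s => ((v s).1 i).2) (fun t => ∑ c, (g c t * S.wt c.1 (v t)) •
      ((raw fr c.1 (stdOrthonormalBasis ℝ E c.2)).1 i).2) T hT ?_ (fun t ht => ?_) (h0 i).2.1
    · exact continuousOn_finsetSum _ fun c _ => ((hg c).mul (hw c)).smul continuousOn_const
    · have h2 : HasDerivAt (fun s => ((v s).1 i).2)
          ((∑ c, g c t • S.fld fr c (v t)).1 i).2 t := (h1 t ht).snd
      refine h2.congr_deriv ?_
      simp only [Prod.fst_sum, Prod.snd_sum, Finset.sum_apply, map_sum, map_smul, fld,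
        Prod.smul_fst, Prod.smul_snd, Pi.smul_apply, proj, mul_smul]
      rfl

/-- The times are τ0 + u τ1 and the level is ℓ0 - u lam, for u from 0 to 1. If fr holds the first
vertex is frozen. -/
theorem deform (b : J → Fin m) (fr : Prop) (τ0 τ1 : Fin m → ℝ) (h0 : ∀ i, 0 ≤ τ0 i)
    (h1 : ∀ i, 0 ≤ τ1 i) (h01 : ∀ i, τ0 i + τ1 i ≤ S.St.τ₀) (ℓ0 lam bw : ℝ) (hlam : 0 ≤ lam)
    (hbw : 0 < bw) (Z' : Set (Cfg E m J)) (hZ' : Z' ⊆ S.Z m J)
    (hcl : ∀ ζ ∈ S.Z m J, ζ ∈ closure Z' → ζ ∈ Z')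
    (hpath : ∀ (v : ℝ → Cfg E m J) (T : ℝ), 0 ≤ T → ContinuousOn v (Icc 0 T) →
      (∀ t ∈ Icc 0 T, v t ∈ S.Z m J) → v 0 ∈ Z' → v T ∈ Z')
    (hin : ∀ u ∈ Icc (0 : ℝ) 1, ∀ ζ ∈ Z', ∀ z, S.Inner fr (∑ i, (τ0 i + u * τ1 i)) ζ z →
      |S.Hm.A (∑ i, (τ0 i + u * τ1 i), z) - (ℓ0 - u * lam)| ≤ bw → lam < S.F z * ∑ i, τ1 i)
    (hout : lam < ∑ i, τ1 i ∨ ∀ u ∈ Icc (0 : ℝ) 1,
      -∑ i, (τ0 i + u * τ1 i) + m * (S.St.τ₀ / 2) < ℓ0 - u * lam - bw) :
    ∃ D : ℝ, 0 ≤ D ∧ ∀ K ⊆ Z', IsCompact K → ∃ e : ℝ × Cfg E m J → Cfg E m J, Continuous e ∧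
      (∀ u ≤ 0, ∀ ζ, e (u, ζ) = ζ) ∧ (∀ u, 1 ≤ u → ∀ ζ, e (u, ζ) = e (1, ζ)) ∧
      (fr → ∀ u ζ, ((e (u, ζ)).1 0).1 = (ζ.1 0).1) ∧
      (∀ ζ ∈ K, ∀ u, e (u, ζ) ∈ Z') ∧
      (∀ ζ ∈ K, S.act b τ0 ζ ≤ ℓ0 → ∀ u ∈ Icc (0 : ℝ) 1,
        S.act b (fun i => τ0 i + u * τ1 i) (e (u, ζ)) ≤ ℓ0 - u * lam) ∧
      (∀ ζ ∈ K, ∀ u u', ‖e (u, ζ) - e (u', ζ)‖ ≤ D * |u - u'|) ∧
      ∀ ζ ∈ S.Z m J, S.act b τ0 ζ ≤ ℓ0 - lam - bw → ∀ u, e (u, ζ) = ζ := by
  classical
  set τ : ℝ → Fin m → ℝ := fun u i => τ0 i + u * τ1 i with hτ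
  have hτm : ∀ u ∈ Icc (0 : ℝ) 1, ∀ i, τ u i ∈ Icc 0 S.St.τ₀ := fun u hu i => by
    have := mul_le_mul_of_nonneg_right hu.2 (h1 i)
    exact ⟨add_nonneg (h0 i) (mul_nonneg hu.1 (h1 i)), by simp only [hτ]; linarith [h01 i]⟩
  set Ψ : ℝ × Cfg E m J → ℝ := fun p => S.act b (τ p.1) p.2 - (ℓ0 - p.1 * lam) with hΨ
  have hΨs : ContDiffOn ℝ ∞ Ψ (univ ×ˢ S.O m J) := by
    refine ContDiffOn.sub ?_ (by fun_prop)
    refine (S.act_smooth b).comp (f := fun p : ℝ × Cfg E m J => (τ p.1, p.2))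
      (ContDiff.contDiffOn ?_) fun p hp => ⟨mem_univ _, hp.2⟩
    exact ContDiff.prodMk (contDiff_pi.2 fun i => by simp only [hτ]; fun_prop) contDiff_snd
  have hop : IsOpen ((univ : Set ℝ) ×ˢ S.O m J) := isOpen_univ.prod S.isOpen_O
  have hD : ∀ u, ∀ ζ ∈ S.O m J, ∀ s v, fderiv ℝ Ψ (u, ζ) (s, v) =
      S.Dact b (τ u) ζ (fun i => s * τ1 i) v + s * lam := by
    intro u ζ hζ s v
    refine fderiv_eq_of_line ((hΨs.contDiffAt (hop.mem_nhds ⟨mem_univ _, hζ⟩)).differentiableAt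
      (by simp)) ?_
    have hl : HasDerivAt (fun t : ℝ => ζ + t • v) v 0 := by
      simpa using ((hasDerivAt_id (0 : ℝ)).smul_const v).const_add ζ
    have hu : HasDerivAt (fun t : ℝ => u + t * s) s 0 := by
      simpa using ((hasDerivAt_id (0 : ℝ)).mul_const s).const_add u
    have a := S.act_deriv b (τ := fun t => τ (u + t * s)) (θ := fun i => s * τ1 i)
      (fun i => (hu.mul_const (τ1 i)).const_add (τ0 i)) hl (by simpa using hζ)
    have a2 := a.sub ((hu.mul_const lam).const_sub ℓ0)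
    simp only [zero_mul, add_zero, zero_smul, sub_neg_eq_add] at a2
    exact a2
  have hDt : ∀ u ∈ Icc (0 : ℝ) 1, ∀ ζ ∈ S.Z m J, fderiv ℝ Ψ (u, ζ) (1, 0) =
      -∑ i, τ1 i * S.F ((ζ.1 i).1, S.St.pm (τ u i, (ζ.1 i).1, (ζ.1 i).2)) + lam := by
    intro u hu ζ hζ
    rw [hD u ζ (S.Z_sub_O hζ), S.Dact_time b (hτm u hu) hζ]
    simp
  have hDf : ∀ u, ∀ ζ ∈ S.O m J, ∀ c, fderiv ℝ Ψ (u, ζ) (0, S.fld fr c ζ) =
      S.wt c.1 ζ * S.Dact b (τ u) ζ 0 (S.proj ζ (raw fr c.1 (stdOrthonormalBasis ℝ E c.2))) := by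
    intro u ζ hζ c
    have : ((0 : ℝ), S.fld fr c ζ) =
        S.wt c.1 ζ • ((0 : ℝ), S.proj ζ (raw fr c.1 (stdOrthonormalBasis ℝ E c.2))) := by
      simp [fld]
    rw [this, map_smul, hD u ζ hζ]
    simp only [zero_mul, add_zero, smul_eq_mul]
    rfl
  have hF0 : ∀ u ∈ Icc (0 : ℝ) 1, ∀ ζ ∈ S.Z m J, ∀ i,
      0 ≤ S.F ((ζ.1 i).1, S.St.pm (τ u i, (ζ.1 i).1, (ζ.1 i).2)) := fun u hu ζ hζ i =>
    (S.h01 _ (S.St.mem _ (hτm u hu i) _ (hζ i).1 _ (hζ i).2.1 (hζ i).2.2.1)).1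
  -- the compactness condition
  obtain ⟨η, hη, hPS⟩ : ∃ η, 0 < η ∧ ∀ u ∈ Icc (0 : ℝ) 1, ∀ ζ ∈ Z', |Ψ (u, ζ)| ≤ bw →
      η ≤ ∑ c, fderiv ℝ Ψ (u, ζ) (0, S.fld fr c ζ) ^ 2 ∨ fderiv ℝ Ψ (u, ζ) (1, 0) < 0 := by
    by_contra hc
    push Not at hc
    choose u hu ζ hζ' hw hs ht using fun n : ℕ => hc (1 / ((n : ℝ) + 1)) Nat.one_div_pos_of_nat
    have hζ : ∀ n, ζ n ∈ S.Z m J := fun n => hZ' (hζ' n)
    have hO : ∀ n, ζ n ∈ S.O m J := fun n => S.Z_sub_O (hζ n)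
    set U : Ultrafilter ℕ := Ultrafilter.of atTop
    have hU : (U : Filter ℕ) ≤ atTop := Ultrafilter.of_le _
    have ha : ∀ c, Tendsto (fun n => fderiv ℝ Ψ (u n, ζ n) (0, S.fld fr c (ζ n))) U (𝓝 0) := by
      intro c
      have : Tendsto (fun n => fderiv ℝ Ψ (u n, ζ n) (0, S.fld fr c (ζ n)) ^ 2) U (𝓝 0) := by
        refine squeeze_zero (fun n => sq_nonneg _) (fun n => le_trans ?_ (hs n).le)
          (tendsto_one_div_add_atTop_nhds_zero_nat.mono_left hU)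
        exact Finset.single_le_sum
          (f := fun c => fderiv ℝ Ψ (u n, ζ n) (0, S.fld fr c (ζ n)) ^ 2)
          (fun c _ => sq_nonneg _) (Finset.mem_univ c)
      have h2 := this.sqrt
      simp only [Real.sqrt_sq_eq_abs, Real.sqrt_zero] at h2
      exact tendsto_zero_iff_abs_tendsto_zero _ |>.2 h2
    have ha' := ha
    simp only [hDf _ _ (hO _)] at ha'
    have hn : ∀ j k, Tendsto (fun n => S.Dact b (τ (u n)) (ζ n) 0
        (S.proj (ζ n) (dn m j (stdOrthonormalBasis ℝ E k)))) U (𝓝 0) := fun j k => by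
      simpa only [wt, raw, one_mul] using ha' (Sum.inr (Sum.inr j), k)
    obtain ⟨u', hu', hul⟩ := exists_lim U isCompact_Icc hu
    have hsl : Tendsto (fun n => ∑ i, τ (u n) i) U (𝓝 (∑ i, τ u' i)) :=
      tendsto_finsetSum _ fun i _ => (hul.mul_const _).const_add _
    by_cases hT : Tendsto (fun n => S.Th (ζ n)) U atTop
    · have key := fun ε hε => S.at_infinity (stdOrthonormalBasis ℝ E) U b fr
        (fun n => hτm (u n) (hu n)) hζ hT hn
        (fun i k => by simpa only [wt, raw] using ha' (Sum.inr (Sum.inl i), k))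
        (fun i k hi => by simpa only [wt, raw, if_neg hi] using ha' (Sum.inl (i + 1), k))
        (ε := ε) hε
      rcases hout with ho | ho
      · obtain ⟨n, hn1, -⟩ := (key 1 one_pos).exists
        have := ht n
        rw [hDt _ (hu n) _ (hζ n)] at this
        simp only [hn1, mul_one] at this
        linarith
      · have ho' := ho u' hu'
        set ε := (ℓ0 - u' * lam - bw - (-∑ i, τ u' i + m * (S.St.τ₀ / 2))) / 2 with hε
        have hε0 : 0 < ε := by simp only [hε, hτ]; linarith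
        have l1 : Tendsto (fun n => -∑ i, τ (u n) i + m * (S.St.τ₀ / 2) + ε - (ℓ0 - u n * lam)) U
            (𝓝 (-∑ i, τ u' i + m * (S.St.τ₀ / 2) + ε - (ℓ0 - u' * lam))) :=
          ((hsl.neg.add_const _).add_const _).sub ((hul.mul_const _).const_sub _)
        have l2 := l1.eventually_lt_const (show _ < -bw by linarith)
        obtain ⟨n, ⟨-, hn1⟩, hn2⟩ := ((key ε hε0).and l2).exists
        have := (abs_le.1 (hw n)).1
        simp only [hΨ] at this
        linarith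
    · obtain ⟨C, hC⟩ : ∃ C, ∀ᶠ n in (U : Filter ℕ), S.Th (ζ n) < C := by
        rw [tendsto_atTop] at hT
        push Not at hT
        exact hT
      have hN := S.n_tendsto (stdOrthonormalBasis ℝ E) b hζ hn
      have hC0 : 0 < C := by
        obtain ⟨n, hn⟩ := hC.exists
        linarith [S.one_le_Th (hO n)]
      have hev : ∀ᶠ n in (U : Filter ℕ), ζ n ∈ S.ZC m J (1 / C) 1 := by
        have e1 : ∀ᶠ n in (U : Filter ℕ), ∀ j, ‖(ζ n).2 j‖ ≤ 1 := eventually_all.2 fun j =>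
          (hN j).norm.eventually_le_const (by simp)
        filter_upwards [hC, e1] with n c1 c2
        refine ⟨fun i => ⟨(hζ n i).1, (hζ n i).2.1, ?_, ?_⟩, c2⟩
        · have := S.le_Th (hO n) i
          have p := S.tht_pos (hO n) i
          exact (one_div_le (by linarith [(hO n i).1]) hC0).1 (by rw [← th]; linarith)
        · have := S.le_Th (hO n) i
          have p := S.th_pos (hO n) i
          exact (one_div_le (by linarith [S.Br.m_lt _ (hO n i).2]) hC0).1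
            (by rw [← tht]; linarith)
      obtain ⟨ζ', hζC, hl⟩ := (S.ZC_compact (m := m) (J := J) (1 / C) 1).ultrafilter_le_nhds
        (U.map ζ) (by rw [Ultrafilter.coe_map, le_principal_iff, mem_map]; exact hev)
      have hl : Tendsto ζ U (𝓝 ζ') := hl
      have hζZ : ζ' ∈ S.Z m J := S.ZC_sub (by positivity) _ hζC
      have hζO := S.Z_sub_O hζZ
      have hζZ' : ζ' ∈ Z' := hcl _ hζZ (mem_closure_of_tendsto hl (Eventually.of_forall hζ'))
      have hp : Tendsto (fun n => (u n, ζ n)) U (𝓝 (u', ζ')) := hul.prodMk_nhds hl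
      have hnb := hop.mem_nhds (show (u', ζ') ∈ _ from ⟨mem_univ _, hζO⟩)
      have hdc : Tendsto (fun n => fderiv ℝ Ψ (u n, ζ n)) U (𝓝 (fderiv ℝ Ψ (u', ζ'))) :=
        ((hΨs.continuousOn_fderiv_of_isOpen hop (by simp)).continuousAt hnb).tendsto.comp hp
      have c1 : |Ψ (u', ζ')| ≤ bw :=
        le_of_tendsto' ((hΨs.continuousOn.continuousAt hnb).tendsto.comp hp).abs hw
      have c2 : 0 ≤ fderiv ℝ Ψ (u', ζ') (1, 0) :=
        ge_of_tendsto' ((isBoundedBilinearMap_apply.continuous.tendsto (_, _)).comp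
          (hdc.prodMk_nhds tendsto_const_nhds)) ht
      have c3 : ∀ c, fderiv ℝ Ψ (u', ζ') (0, S.fld fr c ζ') = 0 := fun c =>
        tendsto_nhds_unique ((isBoundedBilinearMap_apply.continuous.tendsto (_, _)).comp
          (hdc.prodMk_nhds (tendsto_const_nhds.prodMk_nhds
            (((S.fld_smooth fr c).continuousOn.continuousAt
              (S.isOpen_O.mem_nhds hζO)).tendsto.comp hl)))) (ha c)
      have hwt : ∀ c, S.wt c ζ' ≠ 0 := fun c => by
        have : (S.Th ζ')⁻¹ ≠ 0 := inv_ne_zero (by linarith [S.one_le_Th hζO])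
        rcases c with i | i | j
        · exact this
        · exact this
        · exact one_ne_zero
      rw [hDt _ hu' _ hζZ] at c2
      rcases S.crit_of_basis (stdOrthonormalBasis ℝ E) b fr (hτm u' hu') hζZ fun c k => by
        have := c3 (c, k)
        rw [hDf _ _ hζO] at this
        exact (mul_eq_zero.1 this).resolve_left (hwt c) with ⟨z, hz, hA, hF⟩ | ⟨hF, hA⟩
      · have := hin u' hu' ζ' hζZ' z hz (by rw [← hA]; exact c1)
        simp only [hF, ← Finset.sum_mul] at c2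
        linarith
      · rcases hout with ho | ho
        · simp only [hF, mul_one] at c2
          linarith
        · have := ho u' hu'
          have h3 := (abs_le.1 c1).1
          simp only [hΨ, hτ] at h3 hA
          linarith
  set L : Cfg E m J →L[ℝ] E := if fr then (ContinuousLinearMap.fst ℝ E E).comp
    ((ContinuousLinearMap.proj (0 : Fin m)).comp (ContinuousLinearMap.fst ℝ _ _)) else 0 with hL
  obtain ⟨D, hD0, H⟩ := abstract_deform (S.O m J) Z' S.isOpen_O (hZ'.trans S.Z_sub_O) Ψ hΨs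
    (S.fld fr) (S.fld_smooth fr) (fun c z hz => (S.fld_norm fr c (hZ' hz)).1) S.Lam
    (S.Lam_smooth.differentiableOn (by simp)) (32 * S.δ + Fintype.card J)
    (fun c z hz => S.Lam_bound (hZ' hz) (S.fld_norm fr c (hZ' hz)).2 fun j =>
      ((norm_le_pi_norm _ j).trans (norm_snd_le _)).trans (S.fld_norm fr c (hZ' hz)).1)
    (fun c => by
      obtain ⟨ε, C, hε, hsub⟩ := S.Lam_sub (m := m) (J := J) c
      have hs : {z | z ∈ Z' ∧ S.Lam z ≤ c} ⊆ S.ZC m J ε C := fun z hz => hsub z (hZ' hz.1) hz.2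
      have hK := S.ZC_compact (m := m) (J := J) ε C
      refine hK.of_isClosed_subset (isClosed_of_closure_subset fun z hz => ?_) hs
      have hzZ := S.ZC_sub hε C (closure_minimal hs hK.isClosed hz)
      refine ⟨hcl z hzZ (closure_mono (fun y hy => hy.1) hz), ?_⟩
      exact ContinuousWithinAt.closure_le hz ((S.Lam_smooth.continuousOn.continuousAt
        (S.isOpen_O.mem_nhds (S.Z_sub_O hzZ))).continuousWithinAt) continuousWithinAt_const
        fun y hy => hy.2)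
    (fun v g T hT hg hv hv0 => by
      refine hpath v T hT (fun t ht => (hv t ht).2.continuousAt.continuousWithinAt)
        (fun t ht => ?_) hv0
      exact S.Z_inv fr v g t ht.1 (fun c => (hg c).mono (Icc_subset_Icc_right ht.2))
        (fun s hs => hv s (Icc_subset_Icc_right ht.2 hs)) (hZ' hv0))
    L (fun c z _ => by
      by_cases hfr : fr
      · rw [hL, if_pos hfr]
        simp [fld, proj, raw_frozen hfr]
      · simp [hL, hfr])
    lam (fun u hu z hz => by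
      rw [hDt u hu z (hZ' hz)]
      have := Finset.sum_nonneg fun i (_ : i ∈ Finset.univ) =>
        mul_nonneg (h1 i) (hF0 u hu z (hZ' hz) i)
      linarith)
    η bw hη hbw hPS
  refine ⟨D, hD0, fun K hK hKc => ?_⟩
  obtain ⟨e, ec, e0, eL, eZ, eD, eS⟩ := H K hK hKc
  have hcl01 : ∀ u : ℝ, max 0 (min u 1) ∈ Icc (0 : ℝ) 1 := fun u =>
    ⟨le_max_left _ _, max_le zero_le_one (min_le_right _ _)⟩
  refine ⟨fun p => e (max 0 (min p.1 1), p.2), ec.comp (by fun_prop), fun u hu ζ => ?_,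
    fun u hu ζ => ?_, fun hfr u ζ => ?_, fun ζ hζ u => (eZ ζ hζ _ (hcl01 u)).1,
    fun ζ hζ hle u hu => ?_, fun ζ hζ u u' => ?_, fun ζ hζ hle u => eS ζ (fun s hs => ?_) _
      (hcl01 u)⟩
  · simp only
    rw [max_eq_left ((min_le_left _ _).trans hu), e0]
  · simp only
    rw [min_eq_right hu, min_self]
  · simpa [hL, hfr] using eL (max 0 (min u 1)) ζ
  · have := (eZ ζ hζ u hu).2 (by
      have : τ 0 = τ0 := by ext i; simp [hτ]
      simp only [hΨ, this]; linarith)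
    simp only [hΨ] at this
    simp only
    rw [min_eq_left hu.2, max_eq_right hu.1]
    linarith
  · refine (eD ζ hζ _ (hcl01 u) _ (hcl01 u')).trans (mul_le_mul_of_nonneg_left ?_ hD0)
    refine (abs_max_sub_max_le_max _ _ _ _).trans (max_le (by simp) ?_)
    exact (abs_min_sub_min_le_max _ _ _ _).trans (max_le le_rfl (by simp))
  · have := (S.act_anti b h0 (τ' := τ s) (fun i => le_add_of_nonneg_right
      (mul_nonneg hs.1 (h1 i))) (fun i => (hτm s hs i).2) hζ).1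
    have h2 := mul_le_mul_of_nonneg_right hs.2 hlam
    simp only [hΨ]
    linarith

end Sys

end Pool.Agent.Wein
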