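import Mathlib
import Pool.Agent.P.MP_e3ee0c_gt.WGeo

/-! Closed chains of points with short steps and their homotopy classes. -/

open Set Filter Topology

namespace Pool.Agent.Wein

variable {E : Type} [NormedAddCommGroup E] [InnerProductSpace ℝ E]

namespace TopAux

/-- Projection of the line on the unit interval. -/
noncomputable def clamp (t : ℝ) : ℝ := max 0 (min 1 t)

lemma clamp_cont : Continuous clamp := by
  unfold clamp; fun_prop

lemma clamp_mem (t : ℝ) : clamp t ∈ Icc (0 : ℝ) 1 :=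
  ⟨le_max_left _ _, max_le zero_le_one (min_le_left _ _)⟩

lemma clamp_zero : clamp 0 = 0 := by simp [clamp]

lemma clamp_one : clamp 1 = 1 := by simp [clamp]

omit [InnerProductSpace ℝ E] in
lemma homotopic_of {X : Type} [TopologicalSpace X] {S : Set E} (f g : C(X, S))
    (K : ℝ × X → E) (hK : Continuous K) (hS : ∀ s ∈ Icc (0 : ℝ) 1, ∀ t, K (s, t) ∈ S)
    (h0 : ∀ t, K (0, t) = f t) (h1 : ∀ t, K (1, t) = g t) : f.Homotopic g := by
  refine ⟨⟨⟨fun p => ⟨K ((p.1 : ℝ), p.2), hS _ p.1.2 _⟩, ?_⟩, ?_, ?_⟩⟩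
  · refine Continuous.subtype_mk ?_ _
    exact hK.comp ((continuous_subtype_val.comp continuous_fst).prodMk continuous_snd)
  · intro t
    exact Subtype.ext (h0 t)
  · intro t
    exact Subtype.ext (h1 t)

/-- The hat functions of the subdivision of the circle. -/
noncomputable def hat (m : ℕ) (i : Fin m) (t : UnitAddCircle) : ℝ :=
  max 0 (1 - m * ‖t - ((((i : ℕ) : ℝ) / m : ℝ) : UnitAddCircle)‖)

lemma hat_cont (m : ℕ) (i : Fin m) : Continuous (hat m i) := by
  unfold hat; fun_prop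

lemma hat_nonneg (m : ℕ) (i : Fin m) (t : UnitAddCircle) : 0 ≤ hat m i t := le_max_left _ _

lemma hat_pos_iff {m : ℕ} [NeZero m] (i : Fin m) (t : UnitAddCircle) :
    0 < hat m i t ↔ ‖t - ((((i : ℕ) : ℝ) / m : ℝ) : UnitAddCircle)‖ < 1 / m := by
  have hm : (0 : ℝ) < m := by exact_mod_cast NeZero.pos m
  unfold hat
  rw [lt_max_iff, lt_div_iff₀ hm]
  constructor
  · rintro (h | h)
    · exact absurd h (lt_irrefl _)
    · linarith
  · intro h
    right
    linarith

lemma exists_hat_pos {m : ℕ} [NeZero m] (t : UnitAddCircle) : ∃ i : Fin m, 0 < hat m i t := by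
  have hm : (0 : ℝ) < m := by exact_mod_cast NeZero.pos m
  have hmz : (0 : ℤ) < m := by exact_mod_cast NeZero.pos m
  obtain ⟨τ, rfl⟩ := QuotientAddGroup.mk_surjective t
  set k : ℤ := ⌊τ * m⌋ with hk
  have h0 : 0 ≤ k % m := Int.emod_nonneg _ hmz.ne'
  have h1 : k % m < m := Int.emod_lt_of_pos _ hmz
  refine ⟨⟨(k % m).toNat, by omega⟩, ?_⟩
  rw [hat_pos_iff]
  have hc : (((k % m).toNat : ℕ) : ℝ) = ((k % m : ℤ) : ℝ) := by
    have : (((k % m).toNat : ℕ) : ℤ) = k % m := Int.toNat_of_nonneg h0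
    exact_mod_cast congrArg (fun z : ℤ => (z : ℝ)) this
  simp only [hc]
  rw [← AddCircle.coe_sub, UnitAddCircle.norm_eq]
  refine lt_of_le_of_lt (round_le _ (k / m)) ?_
  have hd : (k : ℝ) = m * ((k / m : ℤ) : ℝ) + ((k % m : ℤ) : ℝ) := by
    exact_mod_cast (Int.mul_ediv_add_emod k m).symm
  have he : τ - ((k % m : ℤ) : ℝ) / m - ((k / m : ℤ) : ℝ) = (τ * m - k) / m := by
    rw [hd]; field_simp; ring
  have hf1 : (k : ℝ) ≤ τ * m := Int.floor_le _
  have hf2 : τ * m < k + 1 := Int.lt_floor_add_one _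
  rw [he, abs_of_nonneg (div_nonneg (by linarith) hm.le)]
  exact div_lt_div_of_pos_right (by linarith) hm

lemma eq_succ {m : ℕ} [NeZero m] {i j : Fin m} {k : ℤ}
    (h : ((i : ℕ) : ℤ) - ((j : ℕ) : ℤ) - k * m = 1) : i = j + 1 := by
  apply Fin.ext
  rw [Fin.val_add, Fin.val_one', Nat.add_mod_mod]
  have h1 : (((j : ℕ) + 1 : ℕ) : ℤ) % m = ((i : ℕ) : ℤ) % m := by
    have : (((j : ℕ) + 1 : ℕ) : ℤ) = ((i : ℕ) : ℤ) + (-k) * m := by push_cast; linarith
    rw [this, Int.add_mul_emod_self_right]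
  have h2 : ((j : ℕ) + 1) % m = (i : ℕ) % m := by exact_mod_cast h1
  rw [h2, Nat.mod_eq_of_lt i.2]

lemma eq_of {m : ℕ} [NeZero m] {i j : Fin m} {k : ℤ}
    (h : ((i : ℕ) : ℤ) - ((j : ℕ) : ℤ) - k * m = 0) : i = j := by
  apply Fin.ext
  have h1 : ((j : ℕ) : ℤ) % m = ((i : ℕ) : ℤ) % m := by
    have : ((j : ℕ) : ℤ) = ((i : ℕ) : ℤ) + (-k) * m := by linarith
    rw [this, Int.add_mul_emod_self_right]
  have h2 : (j : ℕ) % m = (i : ℕ) % m := by exact_mod_cast h1
  rw [Nat.mod_eq_of_lt i.2, Nat.mod_eq_of_lt j.2] at h2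
  exact h2.symm

lemma near {m : ℕ} [NeZero m] {i j : Fin m} {t : UnitAddCircle} (hi : 0 < hat m i t)
    (hj : 0 < hat m j t) : i = j ∨ i = j + 1 ∨ j = i + 1 := by
  have hm : (0 : ℝ) < m := by exact_mod_cast NeZero.pos m
  rw [hat_pos_iff] at hi hj
  have h : ‖(((((i : ℕ) : ℝ) / m - ((j : ℕ) : ℝ) / m : ℝ)) : UnitAddCircle)‖ < 2 / m := by
    rw [AddCircle.coe_sub]
    have := norm_sub_le (t - ((((j : ℕ) : ℝ) / m : ℝ) : UnitAddCircle))
      (t - ((((i : ℕ) : ℝ) / m : ℝ) : UnitAddCircle))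
    rw [sub_sub_sub_cancel_left] at this
    have e : (2 : ℝ) / m = 1 / m + 1 / m := by ring
    linarith
  rw [UnitAddCircle.norm_eq] at h
  set k : ℤ := round (((i : ℕ) : ℝ) / m - ((j : ℕ) : ℝ) / m) with hk
  have he : ((i : ℕ) : ℝ) / m - ((j : ℕ) : ℝ) / m - k =
      ((((i : ℕ) : ℤ) - ((j : ℕ) : ℤ) - k * m : ℤ) : ℝ) / m := by
    push_cast; field_simp
  rw [he, abs_div, abs_of_pos hm, div_lt_div_iff_of_pos_right hm] at h
  have h2 : |((i : ℕ) : ℤ) - ((j : ℕ) : ℤ) - k * m| < 2 := by exact_mod_cast h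
  rw [abs_lt] at h2
  have : ((i : ℕ) : ℤ) - ((j : ℕ) : ℤ) - k * m = 0 ∨ ((i : ℕ) : ℤ) - ((j : ℕ) : ℤ) - k * m = 1 ∨
      ((i : ℕ) : ℤ) - ((j : ℕ) : ℤ) - k * m = -1 := by omega
  rcases this with h | h | h
  · exact Or.inl (eq_of h)
  · exact Or.inr (Or.inl (eq_succ h))
  · exact Or.inr (Or.inr (eq_succ (k := -k) (by linarith)))

lemma sum_pos {m : ℕ} [NeZero m] (t : UnitAddCircle) : 0 < ∑ i : Fin m, hat m i t := by
  obtain ⟨j, hj⟩ := exists_hat_pos (m := m) t
  exact Finset.sum_pos' (fun i _ => hat_nonneg m i t) ⟨j, Finset.mem_univ _, hj⟩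

/-- The polygon through the points of a chain. -/
noncomputable def pl {m : ℕ} (x : Fin m → E) (t : UnitAddCircle) : E :=
  (∑ i : Fin m, hat m i t)⁻¹ • ∑ i : Fin m, hat m i t • x i

lemma pl_cont {m : ℕ} [NeZero m] {X : Type} [TopologicalSpace X] {x : X → Fin m → E}
    {t : X → UnitAddCircle} (hx : Continuous x) (ht : Continuous t) :
    Continuous fun p => pl (x p) (t p) := by
  unfold pl
  refine Continuous.smul (Continuous.inv₀ ?_ fun p => (sum_pos (t p)).ne') ?_
  · exact continuous_finsetSum _ fun i _ => (hat_cont m i).comp ht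
  · exact continuous_finsetSum _ fun i _ =>
      ((hat_cont m i).comp ht).smul ((continuous_apply i).comp hx)

lemma pl_near {m : ℕ} [NeZero m] (x : Fin m → E) (t : UnitAddCircle) (y : E) (ρ : ℝ)
    (h : ∀ i, 0 < hat m i t → ‖x i - y‖ ≤ ρ) : ‖pl x t - y‖ ≤ ρ := by
  have hs := sum_pos (m := m) t
  have e : pl x t - y = (∑ i : Fin m, hat m i t)⁻¹ • ∑ i : Fin m, hat m i t • (x i - y) := by
    simp only [pl, smul_sub, Finset.sum_sub_distrib, ← Finset.sum_smul, smul_smul,
      inv_mul_cancel₀ hs.ne', one_smul]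
  rw [e, norm_smul, norm_inv, Real.norm_of_nonneg hs.le, inv_mul_le_iff₀ hs, Finset.sum_mul]
  refine (norm_sum_le _ _).trans (Finset.sum_le_sum fun i _ => ?_)
  rw [norm_smul, Real.norm_of_nonneg (hat_nonneg m i t)]
  rcases (hat_nonneg m i t).eq_or_lt with h0 | h0
  · rw [← h0]; simp
  · exact mul_le_mul_of_nonneg_left (h i h0) h0.le

end TopAux

open TopAux

namespace Geo

variable (G : Geo E) {m : ℕ} [NeZero m]

def StepLe (ρ : ℝ) (x : Fin m → E) : Prop := ∀ i, x i ∈ G.S ∧ ‖x i - x (i + 1)‖ ≤ ρ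

/-- The chain can be joined to a constant chain through chains with short steps. -/
def Triv (x : Fin m → E) : Prop :=
  ∃ c : ℝ → Fin m → E, Continuous c ∧ c 0 = x ∧ (∀ t, G.StepLe (4 * G.δ) (c t)) ∧
    ∃ x0, c 1 = fun _ => x0

lemma triv_const {x : Fin m → E} {x0 : E} (h0 : x0 ∈ G.S) (h : ∀ i, x i = x0) : G.Triv x := by
  refine ⟨fun _ _ => x0, continuous_const, (funext h).symm, fun t i => ⟨h0, ?_⟩, x0, rfl⟩
  have := G.δpos
  simp only [sub_self, norm_zero]
  positivity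

lemma triv_concat (p : ℝ → Fin m → E) (hp : Continuous p)
    (hs : ∀ t, G.StepLe (4 * G.δ) (p t)) (h : G.Triv (p 1)) : G.Triv (p 0) := by
  obtain ⟨c, hc, hc0, hcs, x0, hc1⟩ := h
  refine ⟨fun t => if t ≤ 1 / 2 then p (2 * t) else c (2 * t - 1), ?_, ?_, ?_, x0, ?_⟩
  · refine Continuous.if_le (by fun_prop) (by fun_prop) continuous_id continuous_const ?_
    intro t ht
    have ht' : t = 1 / 2 := ht
    rw [ht']
    norm_num [hc0]
  · norm_num
  · intro t
    by_cases ht : t ≤ 1 / 2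
    · simp only [if_pos ht]; exact hs _
    · simp only [if_neg ht]; exact hcs _
  · norm_num [hc1]

lemma triv_of_path (v : ℝ → Fin m → E) (T : ℝ) (hT : 0 ≤ T) (hv : ContinuousOn v (Icc 0 T))
    (hs : ∀ t ∈ Icc 0 T, G.StepLe (3 * G.δ) (v t)) (h : G.Triv (v T)) : G.Triv (v 0) := by
  have hmem : ∀ t, T * clamp t ∈ Icc 0 T := fun t =>
    ⟨mul_nonneg hT (clamp_mem t).1, mul_le_of_le_one_right hT (clamp_mem t).2⟩
  have := G.triv_concat (fun t => v (T * clamp t))
    (hv.comp_continuous (continuous_const.mul clamp_cont) hmem)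
    (fun t i => ⟨(hs _ (hmem t) i).1, (hs _ (hmem t) i).2.trans (by linarith [G.δpos])⟩)
    (by simpa only [clamp_one, mul_one] using h)
  simpa only [clamp_zero, mul_zero] using this

omit [NeZero m] in
lemma r_near {x u : E} (hx : x ∈ G.S) (h : ‖u - x‖ ≤ 8 * G.δ) :
    G.r u ∈ G.S ∧ ‖G.r u - x‖ ≤ 5 / 4 * ‖u - x‖ := by
  refine ⟨G.maps (G.ball x hx u h), ?_⟩
  have h1 := G.mv x hx u x h (by simp only [sub_self, norm_zero]; linarith [G.δpos])
  rw [G.fix x hx] at h1
  have h2 : ‖fderiv ℝ G.r x (u - x)‖ ≤ ‖u - x‖ := G.toRet.norm_P_le hx _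
  have h3 := norm_add_le (G.r u - x - fderiv ℝ G.r x (u - x)) (fderiv ℝ G.r x (u - x))
  rw [sub_add_cancel] at h3
  linarith

lemma triv_open {x : Fin m → E} (hs : G.StepLe (3 * G.δ) x) (h : G.Triv x) :
    ∀ᶠ x' in 𝓝 x, G.StepLe (3 * G.δ) x' → G.Triv x' := by
  have hδ := G.δpos
  filter_upwards [Metric.ball_mem_nhds x (show 0 < G.δ / 4 by positivity)] with x' hx' hs'
  have hd : ∀ i, ‖x' i - x i‖ ≤ G.δ / 4 := fun i => by
    rw [← dist_eq_norm]
    exact (dist_le_pi_dist x' x i).trans (le_of_lt hx')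
  have hu : ∀ t i, ‖x i + (1 - clamp t) • (x' i - x i) - x i‖ ≤ G.δ / 4 := fun t i => by
    have ht := clamp_mem t
    rw [add_sub_cancel_left, norm_smul, Real.norm_of_nonneg (by linarith [ht.2])]
    exact (mul_le_of_le_one_left (norm_nonneg _) (by linarith [ht.1])).trans (hd i)
  have hr : ∀ t i, G.r (x i + (1 - clamp t) • (x' i - x i)) ∈ G.S ∧
      ‖G.r (x i + (1 - clamp t) • (x' i - x i)) - x i‖ ≤ G.δ / 2 := fun t i => by
    have := G.r_near (hs i).1 ((hu t i).trans (by linarith))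
    exact ⟨this.1, this.2.trans (by linarith [hu t i])⟩
  have hc : Continuous fun t i => G.r (x i + (1 - clamp t) • (x' i - x i)) :=
    continuous_pi fun i => G.smooth.continuous.comp
      (continuous_const.add ((continuous_const.sub clamp_cont).smul continuous_const))
  have := G.triv_concat (fun t i => G.r (x i + (1 - clamp t) • (x' i - x i))) hc
    (fun t i => ⟨(hr t i).1, by
      have h1 := (hr t i).2
      have h2 := (hr t (i + 1)).2
      have h3 := (hs i).2
      have h4 := dist_triangle4 (G.r (x i + (1 - clamp t) • (x' i - x i))) (x i) (x (i + 1))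
        (G.r (x (i + 1) + (1 - clamp t) • (x' (i + 1) - x (i + 1))))
      rw [dist_comm (x (i + 1))] at h4
      simp only [dist_eq_norm] at h4
      linarith⟩)
    (by
      have e : (fun i => G.r (x i + (1 - clamp 1) • (x' i - x i))) = x := by
        funext i
        rw [clamp_one, sub_self, zero_smul, add_zero, G.fix _ (hs i).1]
      simpa only [e] using h)
  have e : (fun i => G.r (x i + (1 - clamp 0) • (x' i - x i))) = x' := by
    funext i
    rw [clamp_zero, sub_zero, one_smul, add_sub_cancel, G.fix _ (hs' i).1]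
  simpa only [e] using this

lemma pl_mem {x : Fin m → E} (hs : G.StepLe (4 * G.δ) x) (t : UnitAddCircle) :
    G.r (pl x t) ∈ G.S := by
  have hδ := G.δpos
  obtain ⟨j, hj⟩ := exists_hat_pos (m := m) t
  refine (G.r_near (hs j).1 ((pl_near x t (x j) (4 * G.δ) fun i hi => ?_).trans (by linarith))).1
  rcases near hi hj with h | h | h
  · rw [h, sub_self, norm_zero]; positivity
  · rw [h, norm_sub_rev]; exact (hs j).2
  · rw [h]; exact (hs i).2

omit [NeZero m] in
/-- Fine subdivisions of a loop that is not null-homotopic are not trivial. -/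
theorem exists_nontriv (γ : C(UnitAddCircle, G.S)) (hγ : ¬ γ.Nullhomotopic) :
    ∃ m₀ : ℕ, ∀ (m : ℕ) [NeZero m], m₀ ≤ m →
      ¬ G.Triv (fun i : Fin m => ((γ (((i : ℕ) : ℝ) / m : ℝ) : G.S) : E)) := by
  have hδ := G.δpos
  obtain ⟨ε, hε, huc⟩ := Metric.uniformContinuous_iff.1
    (CompactSpace.uniformContinuous_of_continuous γ.continuous) G.δ hδ
  obtain ⟨m₀, hm₀⟩ := exists_nat_gt (1 / ε)
  refine ⟨m₀, fun m _ hm ⟨c, hc, hc0, hcs, x0, hc1⟩ => hγ ?_⟩
  have hmpos : (0 : ℝ) < m := by exact_mod_cast NeZero.pos m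
  have hme : 1 / (m : ℝ) < ε := by
    have h1 : (m₀ : ℝ) ≤ m := by exact_mod_cast hm
    rw [div_lt_iff₀ hmpos]
    rw [div_lt_iff₀ hε] at hm₀
    nlinarith
  have hx0 : x0 ∈ G.S := by
    have := (hcs 1 0).1
    rwa [hc1] at this
  have hr := G.smooth.continuous
  have hK : Continuous fun p : ℝ × UnitAddCircle => pl (c p.1) p.2 :=
    pl_cont (hc.comp continuous_fst) continuous_snd
  have hK0 : Continuous fun t : UnitAddCircle => pl (c 0) t :=
    pl_cont continuous_const continuous_id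
  let f0 : C(UnitAddCircle, G.S) :=
    ⟨fun t => ⟨G.r (pl (c 0) t), G.pl_mem (hcs 0) t⟩, (hr.comp hK0).subtype_mk _⟩
  have hγc : Continuous fun t : UnitAddCircle => (γ t : E) :=
    continuous_subtype_val.comp γ.continuous
  have hnear : ∀ t, ‖pl (c 0) t - (γ t : E)‖ ≤ G.δ := fun t => by
    refine pl_near _ _ _ _ fun i hi => ?_
    rw [hat_pos_iff, norm_sub_rev, ← dist_eq_norm] at hi
    have := huc (hi.trans hme)
    rw [Subtype.dist_eq, dist_eq_norm] at this
    rw [hc0]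
    exact this.le
  have H1 : γ.Homotopic f0 := by
    refine homotopic_of γ f0 (fun p => G.r ((γ p.2 : E) + p.1 • (pl (c 0) p.2 - (γ p.2 : E))))
      (hr.comp ((hγc.comp continuous_snd).add (continuous_fst.smul
        ((hK0.comp continuous_snd).sub (hγc.comp continuous_snd))))) ?_ ?_ ?_
    · intro s hs t
      refine (G.r_near (γ t).2 ?_).1
      rw [add_sub_cancel_left, norm_smul, Real.norm_of_nonneg hs.1]
      exact (mul_le_of_le_one_left (norm_nonneg _) hs.2).trans ((hnear t).trans (by linarith))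
    · intro t
      simp only [zero_smul, add_zero]
      exact G.fix _ (γ t).2
    · intro t
      simp only [one_smul, add_sub_cancel]
      rfl
  have H2 : f0.Homotopic (ContinuousMap.const _ ⟨x0, hx0⟩) := by
    refine homotopic_of _ _ (fun p => G.r (pl (c p.1) p.2)) (hr.comp hK)
      (fun s _ t => G.pl_mem (hcs s) t) (fun t => rfl) fun t => ?_
    have : pl (c 1) t = x0 := by
      have h := pl_near (c 1) t x0 0 fun i _ => by rw [hc1]; simp
      rwa [norm_le_zero_iff, sub_eq_zero] at h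
    simp only [this]
    exact G.fix _ hx0
  exact ⟨_, H1.trans H2⟩

end Geo

end Pool.Agent.Wein
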