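import Mathlib
import Pool.Agent.P.MP_e3ee0c_gt.WFam
import Pool.Agent.P.MP_e3ee0c_gt.WPS
import Pool.Agent.P.MP_e3ee0c_gt.WTop

/-! The moving level deformation applied to proper families of closed chains. -/

open Set Filter Topology
open scoped ContDiff InnerProductSpace

namespace Pool.Agent.Wein

variable {E : Type} [NormedAddCommGroup E] [InnerProductSpace ℝ E] [FiniteDimensional ℝ E]

lemma kill_compact {X : Type*} [TopologicalSpace X] (m : ℕ) (f : (ℕ → E) → X) (hf : Continuous f)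
    (hdep : ∀ P P', (∀ i < m, P i = P' i) → f P = f P') (R : ℝ) :
    ∃ K ⊆ range f, IsCompact K ∧ ∀ P, (∀ i < m, ‖P i‖ ≤ R) → f P ∈ K := by
  have := FiniteDimensional.proper_real E
  refine ⟨f '' (univ.pi fun i => if i < m then Metric.closedBall 0 R else {0}),
    image_subset_range _ _, (isCompact_univ_pi fun i => ?_).image hf, fun P hP => ?_⟩
  · split_ifs
    exacts [isCompact_closedBall _ _, isCompact_singleton]
  · refine ⟨fun i => if i < m then P i else 0, fun i _ => ?_, hdep _ _ fun i hi => if_pos hi⟩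
    by_cases hi : i < m
    · simpa [hi] using hP i hi
    · simp [hi]

namespace Sys

variable (S : Sys E)

theorem deform_fam {m : ℕ} [NeZero m] (fr : Prop) (τ0 τ1 : ℕ → ℝ) (h0 : ∀ i, 0 ≤ τ0 i)
    (h1 : ∀ i, 0 ≤ τ1 i) (h01 : ∀ i, τ0 i + τ1 i ≤ S.St.τ₀) (ℓ0 lam : ℝ) (hlam : 0 ≤ lam)
    (Z' : Set (Cfg E m (Fin m))) (hZ' : Z' ⊆ S.Z m (Fin m))
    (hcl : ∀ ζ ∈ S.Z m (Fin m), ζ ∈ closure Z' → ζ ∈ Z')
    (hpath : ∀ (v : ℝ → Cfg E m (Fin m)) (T : ℝ), 0 ≤ T → ContinuousOn v (Icc 0 T) →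
      (∀ t ∈ Icc 0 T, v t ∈ S.Z m (Fin m)) → v 0 ∈ Z' → v T ∈ Z')
    (hin : ∀ s, 0 ≤ s → ∀ ζ ∈ Z', ∀ z, S.Inner fr s ζ z → S.Hm.A (s, z) ≤ ℓ0 + 1 / 2 →
      lam < S.F z * ∑ i ∈ Finset.range m, τ1 i)
    (hout : lam < ∑ i ∈ Finset.range m, τ1 i) {T : ℝ} {a : (ℕ → E) → E} {c : (ℕ → E) → Ch E}
    (hc : S.IsFam univ (fun P => P) m T a a c)
    (hdep : ∀ P P', (∀ i < m, P i = P' i) → ∀ i < m, c P i = c P' i)
    (hZ : ∀ P, toCfg m (c P) ∈ Z') (hle : ∀ P, S.ValT τ0 m (c P) ≤ ℓ0) :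
    ∃ D : ℝ, 0 ≤ D ∧ ∃ (a' : ℝ × (ℕ → E) → E) (c' : ℝ × (ℕ → E) → Ch E), Continuous a' ∧
      (∀ p, a' p ∈ S.S) ∧ S.IsFam univ (fun p => p.2) m ℓ0 a' a' c' ∧
      (∀ u ≤ 0, ∀ P, a' (u, P) = a P ∧ ∀ i < m, c' (u, P) i = c P i) ∧
      (fr → ∀ p, a' p = a p.2) ∧ (∀ u, 1 ≤ u → ∀ P, S.Val m (c' (u, P)) ≤ ℓ0 - lam) ∧
      (∀ u u' P, ‖a' (u, P) - a' (u', P)‖ ≤ D * |u - u'|) ∧
      ∀ u P P', (∀ i < m, P i = P' i) → a' (u, P) = a' (u, P') ∧ c' (u, P) = c' (u, P') := by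
  have hτ := S.St.τpos
  have hs1 : ∑ i : Fin m, τ1 i = ∑ i ∈ Finset.range m, τ1 i := (Finset.sum_range τ1).symm
  obtain ⟨D, hD, hdef⟩ := S.deform (id : Fin m → Fin m) fr (fun i => τ0 i) (fun i => τ1 i)
    (fun i => h0 i) (fun i => h1 i) (fun i => h01 i) ℓ0 lam (1 / 2) hlam (by norm_num) Z' hZ' hcl
    hpath (fun u hu ζ hζ z hz hA => by
      rw [hs1]
      refine hin _ (Finset.sum_nonneg fun (i : Fin m) _ =>
        add_nonneg (h0 i) (mul_nonneg hu.1 (h1 i))) ζ hζ z hz ?_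
      linarith [(abs_le.mp hA).2, mul_nonneg hu.1 hlam]) (Or.inl (hs1 ▸ hout))
  have hcl' : ∀ P, (c P m).1 = (c P 0).1 := fun P =>
    (hc.tgt P (mem_univ _)).trans (hc.src P (mem_univ _)).symm
  set f : (ℕ → E) → Cfg E m (Fin m) := fun P => toCfg m (c P) with hf
  have hfc : Continuous f := continuousOn_univ.mp (continuousOn_toCfg hc.cont)
  have hfd : ∀ P P', (∀ i < m, P i = P' i) → f P = f P' := by
    intro P P' h
    simp only [hf, toCfg]
    congr 1 <;> funext i <;> rw [hdep P P' h i i.2]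
  have hval : ∀ ζ, S.Val m (ofCfg ζ) = S.act id (fun _ => S.St.τ₀) ζ := fun ζ =>
    S.valT_ofCfg (fun _ => S.St.τ₀) ζ
  have hvalf : ∀ P, S.act id (fun _ => S.St.τ₀) (f P) = S.Val m (c P) := fun P =>
    S.act_toCfg (fun _ => S.St.τ₀) (hcl' P)
  have hact0 : ∀ P, S.act id (fun i : Fin m => τ0 i) (f P) ≤ ℓ0 := fun P =>
    (S.act_toCfg τ0 (hcl' P)).trans_le (hle P)
  have hτ0 : ∀ i, τ0 i ≤ S.St.τ₀ := fun i => by linarith [h01 i, h1 i]
  have hanti : ∀ {τ : Fin m → ℝ}, (∀ i, 0 ≤ τ i) → (∀ i, τ i ≤ S.St.τ₀) → ∀ ζ ∈ Z',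
      S.act id (fun _ => S.St.τ₀) ζ ≤ S.act id τ ζ := fun hτ1 hτ2 ζ hζ =>
    (S.act_anti id hτ1 hτ2 (fun _ => le_rfl) (hZ' hζ)).1
  obtain ⟨R, hR⟩ := hc.proper (-(ℓ0 - lam - 1 / 2 - m * S.St.τ₀))
  have hfar : ∀ P, (∃ i < m, R ≤ ‖P i‖) →
      S.act id (fun i : Fin m => τ0 i) (f P) ≤ ℓ0 - lam - 1 / 2 := by
    intro P hP
    have e1 := hR P (mem_univ _) hP
    have e2 := (S.act_anti id (τ := fun i : Fin m => τ0 i) (τ' := fun _ => S.St.τ₀)
      (fun i => h0 i) (fun i => hτ0 i) (fun _ => le_rfl) (hZ' (hZ P))).2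
    have e3 : ∑ i : Fin m, (S.St.τ₀ - τ0 i) ≤ ∑ _i : Fin m, S.St.τ₀ :=
      Finset.sum_le_sum fun i _ => by linarith [h0 i]
    simp only [Finset.sum_const, Finset.card_univ, Fintype.card_fin, nsmul_eq_mul] at e3
    rw [hvalf] at e2
    linarith
  obtain ⟨K, hKf, hK, hPK⟩ := kill_compact m f hfc hfd R
  obtain ⟨e, ec, e0, e1, efr, eZ, ele, elip, efix⟩ :=
    hdef K (fun ζ hζ => by obtain ⟨P, rfl⟩ := hKf hζ; exact hZ P) hK
  have hfix : ∀ P, (∃ i < m, R ≤ ‖P i‖) → ∀ u, e (u, f P) = f P := fun P hP =>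
    efix _ (hZ' (hZ P)) (hfar P hP)
  have hdich : ∀ P, f P ∈ K ∨ ∃ i < m, R ≤ ‖P i‖ := by
    intro P
    by_cases h : ∃ i < m, R ≤ ‖P i‖
    · exact Or.inr h
    · push Not at h
      exact Or.inl (hPK P fun i hi => (h i hi).le)
  have hmem : ∀ u P, e (u, f P) ∈ Z' := by
    intro u P
    rcases hdich P with h | h
    · exact eZ _ h u
    · rw [hfix P h]
      exact hZ P
  have hlev : ∀ u ∈ Icc (0 : ℝ) 1, ∀ P, S.Val m (ofCfg (e (u, f P))) ≤ ℓ0 - u * lam := by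
    intro u hu P
    rw [hval]
    rcases hdich P with h | h
    · refine (hanti (fun i => add_nonneg (h0 i) (mul_nonneg hu.1 (h1 i))) (fun i => ?_) _
        (hmem u P)).trans (ele _ h (hact0 P) u hu)
      nlinarith [h01 i, h1 i, hu.2]
    · rw [hfix P h]
      refine (hanti (fun i => h0 i) (fun i => hτ0 i) _ (hZ P)).trans ((hfar P h).trans ?_)
      nlinarith [hu.2]
  have hlev1 : ∀ u, 1 ≤ u → ∀ P, S.Val m (ofCfg (e (u, f P))) ≤ ℓ0 - lam := by
    intro u hu P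
    rw [e1 u hu]
    simpa using hlev 1 ⟨zero_le_one, le_rfl⟩ P
  have hec : Continuous fun p : ℝ × (ℕ → E) => e (p.1, f p.2) := by fun_prop
  have hf0 : ∀ P, ((f P).1 0).1 = a P := fun P => hc.src P (mem_univ _)
  refine ⟨D, hD, fun p => ((e (p.1, f p.2)).1 0).1, fun p => ofCfg (e (p.1, f p.2)),
    by fun_prop, fun p => (hZ' (hmem p.1 p.2) 0).1, ⟨fun i _ => ?_, fun p _ => ?_,
      fun p _ => ofCfg_zero _, fun p _ => ofCfg_self _, fun p _ => ?_, fun L => ?_⟩,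
    fun u hu P => ?_, fun h p => (efr h _ _).trans (hf0 _), hlev1, fun u u' P => ?_,
    fun u P P' h => ?_⟩
  · exact ((continuous_ofCfg i).comp hec).continuousOn
  · exact S.valid_ofCfg (hZ' (hmem p.1 p.2))
  · rcases le_total p.1 0 with h | h
    · have := hlev 0 ⟨le_rfl, zero_le_one⟩ p.2
      rw [e0 0 le_rfl] at this
      simpa only [e0 _ h, zero_mul, sub_zero] using this
    · rcases le_total p.1 1 with h' | h'
      · linarith [hlev p.1 ⟨h, h'⟩ p.2, mul_nonneg h hlam]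
      · linarith [hlev1 p.1 h' p.2]
  · obtain ⟨R', hR'⟩ := hc.proper L
    refine ⟨max R R', fun p _ ⟨i, hi, hP⟩ => ?_⟩
    simp only [hfix p.2 ⟨i, hi, (le_max_left _ _).trans hP⟩]
    rw [hval, hvalf]
    exact hR' p.2 (mem_univ _) ⟨i, hi, (le_max_right _ _).trans hP⟩
  · simp only [e0 u hu]
    exact ⟨hf0 P, fun i hi => ofCfg_toCfg _ hi⟩
  · rcases hdich P with h | h
    · refine le_trans ?_ (elip _ h u u')
      exact (norm_fst_le ((e (u, f P) - e (u', f P)).1 0)).trans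
        ((norm_le_pi_norm (e (u, f P) - e (u', f P)).1 0).trans (norm_fst_le _))
    · simp only [hfix P h, sub_self, norm_zero]
      positivity
  · simp only [hfd P P' h, and_self]

omit [FiniteDimensional ℝ E] in
lemma stepLe_of_mem {m : ℕ} [NeZero m] {J : Type} {ζ : Cfg E m J} (h : ζ ∈ S.Z m J) :
    S.toGeo.StepLe (3 * S.δ) fun i => (ζ.1 i).1 := fun i => ⟨(h i).1, (h i).step⟩

/-- First use of the deformation: the unit over a polygon that is not trivial. -/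
theorem use_one (hnp : S.NoPer) {m : ℕ} [NeZero m] (v : ℕ → E)
    (hv : ∀ i < m, v i ∈ S.S ∧ ‖v i - v (i + 1)‖ ≤ S.μ)
    (hvm : v m = v 0) (hnt : ¬ S.toGeo.Triv fun i : Fin m => v i) :
    ∃ D : ℝ, 0 ≤ D ∧ ∃ (a' : ℝ × (ℕ → E) → E) (c' : ℝ × (ℕ → E) → Ch E), Continuous a' ∧
      (∀ p, a' p ∈ S.S) ∧ S.IsFam univ (fun p => p.2) m (m * (S.St.τ₀ / 4)) a' a' c' ∧
      (∀ P, a' (0, P) = v 0 ∧ ∀ i < m, c' (0, P) i = S.unit v P i) ∧
      (∀ P, S.Val m (c' (1, P)) ≤ -(m * (S.St.τ₀ / 4))) ∧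
      (∀ u u' P, ‖a' (u, P) - a' (u', P)‖ ≤ D * |u - u'|) ∧
      ∀ u P P', (∀ i < m, P i = P' i) → a' (u, P) = a' (u, P') ∧ c' (u, P) = c' (u, P') := by
  have hτ := S.St.τpos
  have hm : (0 : ℝ) < m := Nat.cast_pos.mpr (NeZero.pos m)
  have hc : S.IsFam univ (fun P => P) m (m * (S.St.τ₀ / 4)) (fun _ => v 0) (fun _ => v 0)
      (fun P => S.unit v P) :=
    isFam_unit (v := fun _ => v) (fun _ _ => continuousOn_const)
      (fun i _ => (continuous_apply i).continuousOn) (fun _ _ => hv) (fun _ _ => rfl)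
      (fun _ _ => hvm)
  have hvc : Continuous fun (ζ : Cfg E m (Fin m)) (i : Fin m) => (ζ.1 i).1 := by fun_prop
  obtain ⟨D, hD, a', c', k1, k2, k3, k4, -, k6, k7, k8⟩ := S.deform_fam False (fun _ => 0)
    (fun _ => S.St.τ₀) (fun _ => le_rfl) (fun _ => hτ.le) (fun _ => by simp)
    (m * (S.St.τ₀ / 4)) (m * (S.St.τ₀ / 2)) (by positivity)
    {ζ | ζ ∈ S.Z m (Fin m) ∧ ¬ S.toGeo.Triv fun i => (ζ.1 i).1} (fun _ h => h.1)
    (fun ζ hζ hcl => ⟨hζ, fun ht => by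
      have h1 := hvc.continuousAt.eventually (S.toGeo.triv_open (S.stepLe_of_mem hζ) ht)
      obtain ⟨ζ', h2, h3⟩ := (h1.and_frequently (mem_closure_iff_frequently.mp hcl)).exists
      exact h3.2 (h2 (S.stepLe_of_mem h3.1))⟩)
    (fun w T hT hw hZ h0 => ⟨hZ T ⟨hT, le_rfl⟩, fun ht => h0.2
      (S.toGeo.triv_of_path (fun t i => ((w t).1 i).1) T hT (hvc.comp_continuousOn hw)
        (fun t h => S.stepLe_of_mem (hZ t h)) ht)⟩)
    (fun s hs ζ hζ z hz _ => by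
      refine (hζ.2 (S.toGeo.triv_const hz.mem.1 (hz.const ?_))).elim
      rcases hs.lt_or_eq with h | h
      · exact Or.inl (hnp z hz.mem s h (hz.closed not_false))
      · exact Or.inr h.symm)
    (by simp only [Finset.sum_const, Finset.card_range, nsmul_eq_mul]; nlinarith [mul_pos hm hτ])
    hc (fun P P' h i hi => by simp only [unit, h i hi])
    (fun P => ⟨S.toCfg_mem (S.unit_valid hv P) hvm, hnt⟩)
    (fun P => S.unit_le hv P fun _ _ => ⟨le_rfl, hτ.le⟩)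
  exact ⟨D, hD, a', c', k1, k2, k3, k4 0 le_rfl, fun P => by linarith [k6 1 le_rfl P], k7, k8⟩

/-- Second use of the deformation: j more unit letters at the frozen base point. -/
theorem use_two (hκ : 0 < S.κ) {m j : ℕ} (hj : 0 < j) {T ℓ : ℝ} (hℓ : ℓ + 1 ≤ -S.C0) {a : (ℕ → E) → E}
    {c : (ℕ → E) → Ch E} (ha : Continuous a) (haS : ∀ P, a P ∈ S.S)
    (hc : S.IsFam univ (fun P => P) m T a a c) (hle : ∀ P, S.Val m (c P) ≤ ℓ)
    (hdep : ∀ P P', (∀ i < m, P i = P' i) → a P = a P' ∧ c P = c P') :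
    ∃ c' : ℝ × (ℕ → E) → Ch E,
      S.IsFam univ (fun p => p.2) (m + j) ℓ (fun p => a p.2) (fun p => a p.2) c' ∧
      (∀ P, ∀ i < m + j,
        c' (0, P) i = cat m (c P) (S.unit (fun _ => a P) fun i => P (m + i)) i) ∧
      ∀ u, 1 ≤ u → ∀ P, S.Val (m + j) (c' (u, P)) ≤ ℓ - j * S.St.τ₀ * S.κ / 2 := by
  have hτ := S.St.τpos
  have hκ1 := S.κle
  have hj' : (0 : ℝ) < j := Nat.cast_pos.mpr hj
  have : NeZero (m + j) := ⟨by omega⟩
  have hu : S.IsFam univ (fun P i => P (m + i)) j 0 a a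
      (fun P => S.unit (fun _ => a P) fun i => P (m + i)) :=
    isFam_const ha.continuousOn (fun i _ => (continuous_apply _).continuousOn) fun P _ => haS P
  have hc2 := hc.cat hu
  have hsum : ∑ i ∈ Finset.range (m + j), (if i < m then 0 else S.St.τ₀) = j * S.St.τ₀ := by
    rw [Finset.sum_range_add, Finset.sum_eq_zero fun i hi => if_pos (Finset.mem_range.mp hi)]
    simp
  obtain ⟨D, -, a', c', -, -, k3, k4, k5, k6, -, -⟩ := S.deform_fam (m := m + j) True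
    (fun i => if i < m then S.St.τ₀ else 0) (fun i => if i < m then 0 else S.St.τ₀)
    (fun i => by split_ifs; exacts [hτ.le, le_rfl]) (fun i => by split_ifs; exacts [le_rfl, hτ.le])
    (fun i => by split_ifs <;> simp) ℓ (j * S.St.τ₀ * S.κ / 2) (by positivity)
    (S.Z (m + j) (Fin (m + j))) subset_rfl (fun _ h _ => h) (fun w T hT _ hZ _ => hZ T ⟨hT, le_rfl⟩)
    (fun s hs ζ _ z hz hA => by
      rw [hsum]
      have hF : S.κ ≤ S.F z := by
        by_contra h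
        linarith [S.gap z hz.mem s hs (not_le.mp h)]
      nlinarith [mul_pos hj' hτ, mul_pos (mul_pos hj' hτ) hκ])
    (by rw [hsum]; nlinarith [mul_pos hj' hτ]) hc2
    (fun P P' h i hi => by
      obtain ⟨h1, h2⟩ := hdep P P' fun i hi => h i (by omega)
      by_cases him : i < m
      · rw [cat_lt him, cat_lt him, h2]
      · rw [cat_ge (not_lt.mp him), cat_ge (not_lt.mp him), h1]
        simp only [unit]
        rw [h _ (by omega)])
    (fun P => S.toCfg_mem (hc2.valid P (mem_univ _))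
      ((hc2.tgt P (mem_univ _)).trans (hc2.src P (mem_univ _)).symm))
    (fun P => by
      rw [S.valT_cat _ _ _ _ _ ((hc.tgt P (mem_univ _)).trans (hu.src P (mem_univ _)).symm)]
      have e1 : S.ValT (fun i => if i < m then S.St.τ₀ else 0) m (c P) = S.Val m (c P) :=
        Finset.sum_congr rfl fun i hi => by simp only [if_pos (Finset.mem_range.mp hi)]
      have e2 := S.unit_le_zero j (haS P) (fun i => P (m + i))
        (τ := fun i => if m + i < m then S.St.τ₀ else 0) fun i _ => by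
          rw [if_neg (by omega)]
          exact ⟨le_rfl, hτ.le⟩
      linarith [hle P])
  have ea : a' = fun p => a p.2 := funext (k5 trivial)
  rw [ea] at k3
  exact ⟨c', k3, fun P => (k4 0 le_rfl P).2, k6⟩

end Sys

end Pool.Agent.Wein
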