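import Mathlib
import Pool.Agent.P.MP_e3ee0c_gt.WFam
import Pool.Agent.P.MP_e3ee0c_gt.WPS
import Pool.Agent.P.MP_e3ee0c_gt.WTop
import Pool.Agent.P.MP_e3ee0c_gt.WKillA

/-! The unit of one fibre can be pushed to arbitrarily low levels (section 3 of the proof). -/

open Set Filter Topology
open scoped ContDiff InnerProductSpace

namespace Pool.Agent.Wein

open TopAux

variable {E : Type} [NormedAddCommGroup E] [InnerProductSpace ℝ E] [FiniteDimensional ℝ E]

lemma kill_clamp_low {t : ℝ} (h : t ≤ 0) : clamp t = 0 :=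
  max_eq_left ((min_le_right _ _).trans h)

lemma kill_clamp_high {t : ℝ} (h : 1 ≤ t) : clamp t = 1 := by
  simp [clamp, min_eq_left h]

omit [NormedAddCommGroup E] [InnerProductSpace ℝ E] [FiniteDimensional ℝ E] in
lemma kill_cat_eq {m k : ℕ} {c c' f : Ch E} (h : ∀ i < m, c i = f i)
    (h' : ∀ i < k, c' i = f (m + i)) : ∀ i < m + k, cat m c c' i = f i := by
  intro i hi
  by_cases him : i < m
  · rw [cat_lt him, h i him]
  · obtain ⟨j, rfl⟩ := Nat.exists_eq_add_of_le (not_lt.mp him)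
    rw [cat_add, h' j (by omega)]

lemma kill_step {t n : ℝ} (ht : t ∈ Icc (0 : ℝ) 1) (hn : 0 < n) {a b : ℝ} (h : |a - b| = 1) :
    |t * (a / n) - t * (b / n)| ≤ 1 / n := by
  rw [← mul_sub, ← sub_div, abs_mul, abs_div, h, abs_of_nonneg ht.1, abs_of_pos hn]
  exact mul_le_of_le_one_left (by positivity) ht.2

omit [FiniteDimensional ℝ E] in
/-- The middle block of the killing homotopy before the last deformation. -/
lemma Sys.kill_mid (S : Sys E) {m : ℕ} (hm : 0 < m) (j : ℕ) (g : ℝ → E) (hg : Continuous g)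
    (hgS : ∀ t, g t ∈ S.S) (hg1 : g 1 = g 0)
    (hgs : ∀ s t, |s - t| ≤ 1 / (m : ℝ) → ‖g s - g t‖ ≤ S.μ)
    {a : ℝ × (ℕ → E) → E} {c : ℝ × (ℕ → E) → Ch E} (ha : Continuous a) (haS : ∀ p, a p ∈ S.S)
    (hc : S.IsFam univ (fun p => p.2) m (m * (S.St.τ₀ / 4)) a a c)
    (h0 : ∀ P, a (0, P) = g 0 ∧ ∀ i < m, c (0, P) i = S.unit (fun i => g ((i : ℝ) / m)) P i) :
    ∃ B : ℝ × (ℕ → E) → Ch E, S.IsFam univ (fun p => p.2) (m + j) (m * (S.St.τ₀ / 4))
      (fun p => a (clamp (p.1 - 1), p.2))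
      (fun p => if p.1 - 1 ≤ 0 then g (clamp p.1) else a (clamp (p.1 - 1), p.2)) B ∧
      (∀ u ≤ 0, ∀ P, ∀ i < m + j, B (u, P) i = S.un (g 0) (P i)) ∧
      ∀ P, B (2, P) = cat m (c (1, P)) (S.unit (fun _ => a (1, P)) fun i => P (m + i)) := by
  have hm' : (0 : ℝ) < m := Nat.cast_pos.mpr hm
  have hcl := clamp_cont
  set β : ℝ × (ℕ → E) → E :=
    fun p => if p.1 - 1 ≤ 0 then g (clamp p.1) else a (clamp (p.1 - 1), p.2) with hβ
  have hβc : Continuous β := by
    refine Continuous.if_le (by fun_prop) (by fun_prop) (by fun_prop) continuous_const ?_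
    intro p hp
    rw [hp, clamp_zero, (h0 _).1, kill_clamp_high (by linarith), hg1]
  have hβS : ∀ p, β p ∈ S.S := by
    intro p
    simp only [hβ]
    split_ifs
    exacts [hgS _, haS _]
  have hU1 : S.IsFam (univ ∩ {p : ℝ × (ℕ → E) | p.1 - 1 ≤ 0}) (fun p => p.2) m
      (m * (S.St.τ₀ / 4)) (fun p => a (clamp (p.1 - 1), p.2)) β
      (fun p => S.unit (fun i => g (clamp p.1 * ((i : ℝ) / m))) p.2) := by
    refine Sys.isFam_unit (v := fun (p : ℝ × (ℕ → E)) (i : ℕ) => g (clamp p.1 * ((i : ℝ) / m)))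
      (fun i _ => by fun_prop) (fun i _ => by fun_prop) (fun p _ i _ => ⟨hgS _, hgs _ _ ?_⟩)
      (fun p hp => ?_) (fun p hp => ?_)
    · exact kill_step (clamp_mem _) hm' (by simp)
    · simp only [kill_clamp_low hp.2, (h0 _).1, Nat.cast_zero, zero_div, mul_zero]
    · simp only [hβ, if_pos (show p.1 - 1 ≤ 0 from hp.2), div_self hm'.ne', mul_one]
  have hU2 : S.IsFam (univ ∩ {p : ℝ × (ℕ → E) | 0 ≤ p.1 - 1}) (fun p => p.2) m
      (m * (S.St.τ₀ / 4)) (fun p => a (clamp (p.1 - 1), p.2)) β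
      (fun p => c (clamp (p.1 - 1), p.2)) := by
    refine hc.comp (f := fun p : ℝ × (ℕ → E) => (clamp (p.1 - 1), p.2)) (by fun_prop)
      (mapsTo_univ _ _) (fun _ _ _ _ => rfl) (fun _ _ => rfl) (fun p hp => ?_)
    simp only [hβ]
    split_ifs with h
    · have h' : p.1 - 1 = 0 := le_antisymm h hp.2
      rw [h', clamp_zero, (h0 _).1, kill_clamp_high (by linarith), hg1]
    · rfl
  have hB1 := Sys.IsFam.paste (f := fun p : ℝ × (ℕ → E) => p.1 - 1) (by fun_prop) hU1 hU2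
    (fun p _ hp i hi => by
      have hp' : p.1 - 1 = 0 := hp
      simp only [hp', clamp_zero, (h0 _).2 i hi, kill_clamp_high (show 1 ≤ p.1 by linarith),
        one_mul])
  have hU3 : S.IsFam univ (fun (p : ℝ × (ℕ → E)) i => p.2 (m + i)) j 0 β β
      (fun p => S.unit (fun _ => β p) fun i => p.2 (m + i)) :=
    Sys.isFam_const hβc.continuousOn (fun i _ => by fun_prop) fun p _ => hβS p
  refine ⟨_, (hB1.cat hU3).mono (add_zero _).le, fun u hu P => ?_, fun P => ?_⟩
  · have hu' : u - 1 ≤ 0 := by linarith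
    refine kill_cat_eq (f := fun i => S.un (g 0) (P i)) (fun i _ => ?_) (fun i _ => ?_)
    · simp only [if_pos hu', kill_clamp_low hu, zero_mul, Sys.unit]
    · simp only [hβ, if_pos hu', kill_clamp_low hu, Sys.unit]
  · have h2 : ¬ (2 : ℝ) - 1 ≤ 0 := by norm_num
    simp only [hβ, if_neg h2, kill_clamp_high (show (1 : ℝ) ≤ 2 - 1 by norm_num)]

theorem Sys.kill (S : Sys E) (hnp : S.NoPer) (hκ : 0 < S.κ)
    (γ : C(UnitAddCircle, S.S)) (hγ : ¬ γ.Nullhomotopic) :
    ∃ x ∈ S.S, ∃ T : ℝ, ∀ B : ℝ, ∃ M H, S.IsKill {x} M T (-B) H := by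
  have hτ := S.St.τpos
  have hμ := S.μpos
  have hcl := clamp_cont
  obtain ⟨m₀, hm₀⟩ := S.toGeo.exists_nontriv γ hγ
  set g : ℝ → E := fun t => ((γ (t : UnitAddCircle) : S.S) : E) with hgdef
  have hgu : UniformContinuous g :=
    uniformContinuous_subtype_val.comp ((CompactSpace.uniformContinuous_of_continuous
      γ.continuous).comp (uniformContinuous_addMonoidHom_of_continuous
        (f := QuotientAddGroup.mk' (AddSubgroup.zmultiples (1 : ℝ)))
        QuotientAddGroup.continuous_mk))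
  have hg : Continuous g := hgu.continuous
  have hgS : ∀ t, g t ∈ S.S := fun t => (γ t).2
  have hg1 : g 1 = g 0 := by
    simp only [hgdef, AddCircle.coe_period, AddCircle.coe_zero]
  obtain ⟨ε, hε, hεg⟩ := Metric.uniformContinuous_iff.mp hgu S.μ hμ
  obtain ⟨m, hm⟩ := exists_nat_gt (max (max (m₀ : ℝ) (1 / ε)) (4 * (S.C0 + 1) / S.St.τ₀))
  have hm1 : m₀ ≤ m := by
    exact_mod_cast (((le_max_left _ _).trans (le_max_left _ _)).trans hm.le : (m₀ : ℝ) ≤ m)
  have hm2 : 1 / ε < m := ((le_max_right _ _).trans (le_max_left _ _)).trans_lt hm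
  have hm3 : 4 * (S.C0 + 1) / S.St.τ₀ < m := (le_max_right _ _).trans_lt hm
  have hm' : (0 : ℝ) < m := lt_trans (by positivity) hm2
  have hm0 : 0 < m := Nat.cast_pos.mp hm'
  have : NeZero m := ⟨hm0.ne'⟩
  have hgs : ∀ s t, |s - t| ≤ 1 / (m : ℝ) → ‖g s - g t‖ ≤ S.μ := by
    intro s t h
    rw [← dist_eq_norm]
    refine (hεg ?_).le
    rw [Real.dist_eq]
    exact h.trans_lt ((one_div_lt hε hm').mp hm2)
  have hnt : ¬ S.toGeo.Triv fun i : Fin m => g (((i : ℕ) : ℝ) / m) := hm₀ m hm1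
  clear_value g
  obtain ⟨D, hD, a, c, ha, haS, hc, h0, h1, hlip, hdep⟩ :=
    S.use_one hnp (m := m) (fun i => g ((i : ℝ) / m)) (fun i _ => ⟨hgS _, hgs _ _ (by
      simpa using kill_step (t := 1) ⟨zero_le_one, le_rfl⟩ hm' (a := i) (b := (i + 1 : ℕ))
        (by simp))⟩) (by simp only [div_self hm'.ne', Nat.cast_zero, zero_div, hg1]) hnt
  simp only [Nat.cast_zero, zero_div] at h0
  obtain ⟨J, hJ⟩ := exists_nat_gt (D / S.μ)
  have hJ' : (0 : ℝ) < J := lt_of_le_of_lt (by positivity) hJ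
  have has : ∀ s t P, |s - t| ≤ 1 / (J : ℝ) → ‖a (s, P) - a (t, P)‖ ≤ S.μ := by
    intro s t P h
    refine (hlip s t P).trans ((mul_le_mul_of_nonneg_left h hD).trans ?_)
    rw [div_lt_iff₀ hμ] at hJ
    rw [mul_one_div, div_le_iff₀ hJ']
    linarith
  refine ⟨g 0, hgS 0, J * (S.St.τ₀ / 4) + (m * (S.St.τ₀ / 4) +
    (J * (S.St.τ₀ / 4) + m * (S.St.τ₀ / 4))), fun B => ?_⟩
  obtain ⟨j, hj⟩ := exists_nat_gt (max 0 ((B + J * S.St.τ₀) / (S.St.τ₀ * S.κ / 2)))
  have hj0 : 0 < j := Nat.cast_pos.mp ((le_max_left _ _).trans_lt hj)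
  have hj1 := (div_lt_iff₀ (by positivity)).mp ((le_max_right _ _).trans_lt hj)
  obtain ⟨B1, hB1, hB10, hB12⟩ := S.kill_mid hm0 j g hg hgS hg1 hgs ha haS hc h0
  obtain ⟨c', hc', hc0, hc1⟩ := S.use_two hκ (m := m) hj0 (ℓ := -(m * (S.St.τ₀ / 4)))
    (by rw [div_lt_iff₀ hτ] at hm3; linarith) (a := fun P => a (1, P)) (c := fun P => c (1, P))
    (by fun_prop) (fun P => haS _)
    (hc.comp (f := fun P => (1, P)) (by fun_prop) (mapsTo_univ _ _) (fun _ _ _ _ => rfl)
      (fun _ _ => rfl) (fun _ _ => rfl)) h1 (hdep 1)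
  have hB2 : S.IsFam (univ ∩ {p : ℝ × (ℕ → E) | 0 ≤ p.1 - 2}) (fun p => p.2) (m + j)
      (m * (S.St.τ₀ / 4)) (fun p => a (clamp (p.1 - 1), p.2))
      (fun p => if p.1 - 1 ≤ 0 then g (clamp p.1) else a (clamp (p.1 - 1), p.2))
      (fun p => c' (p.1 - 2, p.2)) := by
    refine (hc'.comp (f := fun p : ℝ × (ℕ → E) => (p.1 - 2, p.2)) (by fun_prop)
      (mapsTo_univ _ _) (fun _ _ _ _ => rfl) (fun p hp => ?_) (fun p hp => ?_)).mono
      (by nlinarith [mul_pos hm' hτ])
    · have hp' : 0 ≤ p.1 - 2 := hp.2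
      rw [kill_clamp_high (by linarith)]
    · have hp' : 0 ≤ p.1 - 2 := hp.2
      rw [if_neg (by linarith), kill_clamp_high (by linarith)]
  have hB := Sys.IsFam.paste (f := fun p : ℝ × (ℕ → E) => p.1 - 2) (by fun_prop)
    (hB1.comp (f := id) continuousOn_id (mapsTo_univ _ _) (fun _ _ _ _ => rfl) (fun _ _ => rfl)
      (fun _ _ => rfl)) hB2
    (fun p _ hp i hi => by
      obtain ⟨u, P⟩ := p
      obtain rfl : u = 2 := by linarith [show u - 2 = 0 from hp]
      simp only [id, sub_self, hB12, hc0 P i hi])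
  -- the four blocks over the space of all parameters
  have fB := hB.comp (s' := ({g 0} : Set E) ×ˢ univ)
    (f := fun p : E × ℝ × (ℕ → E) => (3 * p.2.1, fun i => p.2.2 (J + i))) (by fun_prop)
    (mapsTo_univ _ _) (pr' := fun p i => p.2.2 (J + i)) (fun _ _ _ _ => rfl) (fun _ _ => rfl)
    (fun _ _ => rfl)
  have fA : S.IsFam (({g 0} : Set E) ×ˢ univ) (fun p : E × ℝ × (ℕ → E) => p.2.2) J
      (J * (S.St.τ₀ / 4)) (fun p => p.1)
      (fun p => a (clamp (3 * p.2.1 - 1), fun i => p.2.2 (J + i))) _ :=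
    Sys.isFam_unit
      (v := fun p k => a (clamp (3 * p.2.1 - 1) * ((k : ℝ) / J), fun i => p.2.2 (J + i)))
      (fun i _ => by fun_prop) (fun i _ => by fun_prop)
      (fun p _ i _ => ⟨haS _, has _ _ _ (kill_step (clamp_mem _) hJ' (by simp))⟩)
      (fun p hp => by
        simp only [Nat.cast_zero, zero_div, mul_zero, (h0 _).1]
        exact (hp.1 : p.1 = g 0).symm)
      (fun p _ => by simp only [div_self hJ'.ne', mul_one])
  have fC : S.IsFam (({g 0} : Set E) ×ˢ univ)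
      (fun (p : E × ℝ × (ℕ → E)) i => p.2.2 (J + (m + j + i))) J (J * (S.St.τ₀ / 4))
      (fun p => if 3 * p.2.1 - 1 ≤ 0 then g (clamp (3 * p.2.1)) else
        a (clamp (3 * p.2.1 - 1), fun i => p.2.2 (J + i)))
      (fun p => g (clamp (3 * p.2.1))) _ :=
    Sys.isFam_unit
      (v := fun p k => if 3 * p.2.1 - 1 ≤ 0 then g (clamp (3 * p.2.1)) else
        a (clamp (3 * p.2.1 - 1) * ((J - k : ℝ) / J), fun i => p.2.2 (J + i)))
      (fun i _ => (Continuous.if_le (by fun_prop) (by fun_prop) (by fun_prop) continuous_const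
        fun p hp => by
          rw [hp, clamp_zero, zero_mul, (h0 _).1, kill_clamp_high (by linarith), hg1]).continuousOn)
      (fun i _ => by fun_prop)
      (fun p _ i _ => by
        split_ifs
        · exact ⟨hgS _, by simpa using hμ.le⟩
        · exact ⟨haS _, has _ _ _ (kill_step (clamp_mem _) hJ' (by simp))⟩)
      (fun p _ => by simp only [Nat.cast_zero, sub_zero, div_self hJ'.ne', mul_one])
      (fun p _ => by
        split_ifs with h
        · rfl
        · rw [sub_self, zero_div, mul_zero, (h0 _).1, kill_clamp_high (t := 3 * p.2.1)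
            (by linarith), hg1])
  have fD : S.IsFam (({g 0} : Set E) ×ˢ univ)
      (fun (p : E × ℝ × (ℕ → E)) i => p.2.2 (J + (m + j + (J + i)))) m (m * (S.St.τ₀ / 4))
      (fun p => g (clamp (3 * p.2.1))) (fun p => p.1) _ :=
    Sys.isFam_unit (v := fun p k => g (clamp (3 * p.2.1) * ((m - k : ℝ) / m)))
      (fun i _ => by fun_prop) (fun i _ => by fun_prop)
      (fun p _ i _ => ⟨hgS _, hgs _ _ (kill_step (clamp_mem _) hm' (by simp))⟩)
      (fun p _ => by simp only [Nat.cast_zero, sub_zero, div_self hm'.ne', mul_one])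
      (fun p hp => by
        simp only [sub_self, zero_div, mul_zero]
        exact (hp.1 : p.1 = g 0).symm)
  have fCD := fC.cat fD
  have fBCD := fB.cat fCD
  refine ⟨_, _, (fA.cat fBCD).isKill (fun x hx u hu P => ?_) (fun x hx u hu P => ?_)⟩
  · obtain rfl : x = g 0 := hx
    have h1 : 3 * u ≤ 0 := by linarith
    have h2 : 3 * u - 1 ≤ 0 := by linarith
    have h3 : 3 * u - 2 ≤ 0 := by linarith
    refine kill_cat_eq (f := fun i => S.un (g 0) (P i)) (fun i _ => ?_)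
      (kill_cat_eq (f := fun i => S.un (g 0) (P (J + i))) (fun i hi => ?_)
        (kill_cat_eq (f := fun i => S.un (g 0) (P (J + (m + j + i)))) (fun i _ => ?_)
          (fun i _ => ?_)))
    · simp only [Sys.unit, kill_clamp_low h2, zero_mul, (h0 _).1]
    · simp only [if_pos h3, id, hB10 _ h1 _ i hi]
    · simp only [Sys.unit, if_pos h2, kill_clamp_low h1]
    · simp only [Sys.unit, kill_clamp_low h1, zero_mul]
  · have hp : (x, u, P) ∈ ({g 0} : Set E) ×ˢ (univ : Set (ℝ × (ℕ → E))) := ⟨hx, mem_univ _⟩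
    have e1 := fA.val_cat fBCD hp
    have e2 := fB.val_cat fCD hp
    have e3 := fA.le _ hp
    have e4 := fCD.le _ hp
    have e5 := hc1 (3 * u - 2) (by linarith) fun i => P (J + i)
    have h3 : ¬ 3 * u - 2 ≤ 0 := by linarith
    simp only [if_neg h3] at e1 e2 e3 e4 e5 ⊢
    rw [e1, e2]
    nlinarith [mul_pos hJ' hτ]

end Pool.Agent.Wein
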