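import Mathlib
import Pool.Agent.Lib.Brouwer.Basic
import Pool.Agent.P.MP_e3ee0c_gt.WIF

/-! Homotopy invariance of the degree on a varying domain, in the form needed. -/

open Set Filter Topology

namespace Pool.Agent.Wein

theorem deg_zero {X : Type*} [NormedAddCommGroup X] [NormedSpace ℝ X] [FiniteDimensional ℝ X]
    (Ω : Set (ℝ × X)) (hΩ : IsOpen Ω) (h : ℝ × X → X) (hh : ContinuousOn h Ω)
    (hK : IsCompact {p | p ∈ Ω ∧ p.1 ∈ Icc (0 : ℝ) 1 ∧ h p = 0}) (z0 : X) (h0 : (0, z0) ∈ Ω)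
    (hid : ∀ z, (0, z) ∈ Ω → h (0, z) = z - z0) : ∃ z, (1, z) ∈ Ω ∧ h (1, z) = 0 := by
  by_contra hno
  push Not at hno
  obtain ⟨χ, hχ, hcs, hsup, h01, h1⟩ := exists_bump _ Ω hK hΩ fun p hp => hp.1
  have hone : ∀ p ∈ Ω, p.1 ∈ Icc (0 : ℝ) 1 → h p = 0 → χ p = 1 :=
    fun p a b c => h1.self_of_nhdsSet p ⟨a, b, c⟩
  have hin : ∀ p, χ p ≠ 0 → p ∈ Ω := fun p hp => hsup (subset_tsupport _ hp)
  have hc : Continuous fun p => χ p • h p := by
    rw [continuous_iff_continuousAt]
    intro x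
    by_cases hx : x ∈ Ω
    · exact hχ.continuous.continuousAt.smul (hh.continuousAt (hΩ.mem_nhds hx))
    · have e : χ =ᶠ[𝓝 x] 0 := notMem_tsupport_iff_eventuallyEq.1 fun h => hx (hsup h)
      refine (continuousAt_const (y := (0 : X))).congr ?_
      filter_upwards [e] with y hy
      simp [hy]
  obtain ⟨R0, hR0⟩ := (hcs.isCompact.image
    (f := fun p : ℝ × X => ‖p.2 - z0‖) (by fun_prop)).bddAbove
  set R := max R0 0 + 1 with hR
  have hR1 : 1 ≤ R := by have := le_max_right R0 0; linarith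
  have hfar : ∀ p : ℝ × X, ‖p.2 - z0‖ = R → χ p = 0 := by
    intro p hp
    by_contra hne
    have h2 : ‖p.2 - z0‖ ≤ R0 := hR0 ⟨p, subset_tsupport _ hne, rfl⟩
    have := le_max_left R0 0
    linarith
  let v : ℝ × X → ℝ × X := fun w => (min w.1 1, w.2)
  let c : ℝ × X → ℝ := fun w => min 1 (max 0 (2 - w.1))
  let Θ : ℝ × X → ℝ × X := fun w => (1 - 2 * c w * χ (v w), c w • (χ (v w) • h (v w)))
  have hv : Continuous v := by fun_prop
  have hcc : Continuous c := by fun_prop
  have hΘ : Continuous Θ :=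
    (continuous_const.sub ((continuous_const.mul hcc).mul (hχ.continuous.comp hv))).prodMk
      (hcc.smul (hc.comp hv))
  have hne : ∀ w : ℝ × X, 0 ≤ w.1 → Θ w ≠ 0 := by
    intro w hw e
    have e1 : 1 - 2 * c w * χ (v w) = 0 := congrArg Prod.fst e
    have e2 : c w • (χ (v w) • h (v w)) = 0 := congrArg Prod.snd e
    have c0 : c w ≠ 0 := by intro k; rw [k] at e1; norm_num at e1
    have x0 : χ (v w) ≠ 0 := by intro k; rw [k] at e1; norm_num at e1
    have hz : h (v w) = 0 := by simpa [c0, x0] using e2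
    rcases le_total w.1 1 with k | k
    · have c1 : c w = 1 := min_eq_left (le_max_of_le_right (by linarith))
      have x1 : χ (v w) = 1 :=
        hone _ (hin _ x0) ⟨le_min hw zero_le_one, min_le_right _ _⟩ hz
      rw [c1, x1] at e1; norm_num at e1
    · have e3 : v w = (1, w.2) := Prod.ext (min_eq_right k) rfl
      exact hno w.2 (e3 ▸ hin _ x0) (e3 ▸ hz)
  have hB : ∀ w ∈ Metric.closedBall ((R, z0) : ℝ × X) R, 0 ≤ w.1 := by
    intro w hw
    have h3 := Metric.mem_closedBall.1 hw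
    rw [Prod.dist_eq] at h3
    have h2 : dist w.1 R ≤ R := (le_max_left _ _).trans h3
    rw [Real.dist_eq, abs_le] at h2
    linarith [h2.1]
  have hnorm : ∀ w : ℝ × X, 0 ≤ w.1 → ‖(R / ‖Θ w‖) • Θ w‖ = R := by
    intro w hw
    have : 0 < ‖Θ w‖ := norm_pos_iff.2 (hne w hw)
    rw [norm_smul, Real.norm_of_nonneg (by positivity)]
    field_simp
  obtain ⟨w, hw, hfix⟩ := Pool.Agent.Lib.Brouwer.brouwer (Metric.closedBall ((R, z0) : ℝ × X) R)
    (isCompact_closedBall _ _) (convex_closedBall _ _) ⟨_, Metric.mem_closedBall_self (by linarith)⟩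
    (fun w => (R, z0) - (R / ‖Θ w‖) • Θ w)
    (continuousOn_const.sub ((continuousOn_const.div hΘ.norm.continuousOn
      fun w hw => norm_ne_zero_iff.2 (hne w (hB w hw))).smul hΘ.continuousOn))
    (fun w hw => by
      rw [Metric.mem_closedBall, dist_eq_norm, sub_sub_cancel_left, norm_neg, hnorm w (hB w hw)])
  have hw0 := hB w hw
  have ht : 0 < R / ‖Θ w‖ := div_pos (by linarith) (norm_pos_iff.2 (hne w hw0))
  have hsph : ‖w - (R, z0)‖ = R := by
    have : w - (R, z0) = -((R / ‖Θ w‖) • Θ w) := by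
      conv_lhs => rw [← hfix]
      exact sub_sub_cancel_left _ _
    rw [this, norm_neg, hnorm w hw0]
  generalize R / ‖Θ w‖ = t at ht hfix
  have f1 : R - t * (1 - 2 * c w * χ (v w)) = w.1 := congrArg Prod.fst hfix
  have f2 : z0 - t • (c w • (χ (v w) • h (v w))) = w.2 := congrArg Prod.snd hfix
  rw [Prod.norm_def] at hsph
  simp only [Prod.fst_sub, Prod.snd_sub, Real.norm_eq_abs] at hsph
  rcases max_choice |w.1 - R| ‖w.2 - z0‖ with k | k
  · rw [k] at hsph
    rcases abs_eq (by linarith : 0 ≤ R) |>.1 hsph with k2 | k2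
    · have c0 : c w = 0 := by
        have : max 0 (2 - w.1) = 0 := max_eq_left (by linarith)
        simp [c, this]
      rw [c0] at f1
      linarith
    · have k3 : w.1 = 0 := by linarith
      have c1 : c w = 1 := min_eq_left (le_max_of_le_right (by linarith))
      have e3 : v w = (0, w.2) := Prod.ext (by simp [v, k3]) rfl
      have e4 : χ (0, w.2) • h (0, w.2) = χ (0, w.2) • (w.2 - z0) := by
        by_cases x0 : χ (0, w.2) = 0
        · simp [x0]
        · rw [hid _ (hin _ x0)]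
      rw [c1, e3] at f1 f2
      rw [e4, one_smul, smul_smul] at f2
      have e5 : (1 + t * χ (0, w.2)) • (w.2 - z0) = 0 := by
        rw [add_smul, one_smul]
        nth_rewrite 1 [← f2]
        abel
      have e6 : 1 + t * χ (0, w.2) ≠ 0 := by
        have := mul_nonneg ht.le (h01 (0, w.2)).1
        linarith
      have e7 : w.2 = z0 := sub_eq_zero.1 ((smul_eq_zero.1 e5).resolve_left e6)
      have e8 : χ (0, z0) = 1 := hone _ h0 ⟨le_rfl, zero_le_one⟩ (by rw [hid _ h0, sub_self])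
      rw [e7, e8] at f1
      linarith
  · rw [k] at hsph
    have x0 : χ (v w) = 0 := hfar _ hsph
    rw [x0] at f2
    simp only [zero_smul, smul_zero, sub_zero] at f2
    rw [← f2, sub_self, norm_zero] at hsph
    linarith

end Pool.Agent.Wein
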