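import Mathlib
import Pool.Agent.P.MP_e3ee0c_gt.WFam
import Pool.Agent.P.MP_e3ee0c_gt.WPS
import Pool.Agent.P.MP_e3ee0c_gt.WDeg

/-! The unit of the whole bundle cannot be pushed below zero (section 5 of the proof). -/

open Set Filter Topology
open scoped ContDiff InnerProductSpace

namespace Pool.Agent.Wein

variable {E : Type} [NormedAddCommGroup E] [InnerProductSpace ℝ E]

namespace Link

variable {M : ℕ}

def bs [NeZero M] : Option (Fin M) → Fin M := fun j => j.elim 0 id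

def ex (n : E) (ζ : Cfg E M (Fin M)) : Cfg E M (Option (Fin M)) :=
  (ζ.1, fun j => j.elim n ζ.2)

def pad (P : Fin M → E) : ℕ → E := fun i => if h : i < M then P ⟨i, h⟩ else 0

omit [InnerProductSpace ℝ E] in
lemma pad_cont : Continuous (pad : (Fin M → E) → ℕ → E) := by
  refine continuous_pi fun i => ?_
  unfold pad
  split_ifs with h
  · exact continuous_apply _
  · exact continuous_const

omit [InnerProductSpace ℝ E] in
lemma pad_val (P : Fin M → E) (i : Fin M) : pad P i = P i := by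
  simp [pad]

variable [NeZero M]

lemma act_ex (S : Sys E) (τ : Fin M → ℝ) (n : E) (ζ : Cfg E M (Fin M)) :
    S.act bs τ (ex n ζ) = S.act id τ ζ + S.Q (ζ.1 0).1 n := by
  simp only [Sys.act, ex, bs, Fintype.sum_option, Option.elim_none, Option.elim_some, id]
  ring

noncomputable def phi (S : Sys E) (a : E) (Λ : ℝ) (ζ : Cfg E M (Option (Fin M))) :
    E × (Fin M → E) :=
  ((ζ.1 0).1 + Λ⁻¹ • ζ.2 none - a, fun i => S.pi (ζ.1 i).1 (ζ.1 i).2 +
    (ζ.2 (some i) - S.P (ζ.1 i).1 (ζ.2 (some i))))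

lemma phi_cont (S : Sys E) (a : E) (Λ : ℝ) :
    ContinuousOn (phi S a Λ : Cfg E M (Option (Fin M)) → E × (Fin M → E))
      {ζ | ∀ i, ‖(ζ.1 i).1 - (ζ.1 i).2‖ ^ 2 < S.δ ^ 2} := by
  have hP : Continuous S.P := S.P_smooth.continuous
  refine ContinuousOn.prodMk (Continuous.continuousOn (by fun_prop)) ?_
  refine continuousOn_pi.2 fun i => ?_
  have h1 : Continuous fun ζ : Cfg E M (Option (Fin M)) => S.P (ζ.1 i).1 := hP.comp (by fun_prop)
  refine ContinuousOn.add ?_ (Continuous.continuousOn ?_)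
  · unfold Geo.pi Geo.tw
    refine ContinuousOn.smul (ContinuousOn.mul continuousOn_const ?_) (Continuous.continuousOn ?_)
    · refine ContinuousOn.div continuousOn_const (Continuous.continuousOn (by fun_prop)) ?_
      intro ζ hζ
      exact (sub_pos.2 (hζ i)).ne'
    · exact h1.clm_apply (by fun_prop)
  · exact Continuous.sub (by fun_prop) (h1.clm_apply (by fun_prop))

lemma pi_self (S : Sys E) (x : E) : S.pi x x = 0 := by
  simp [Geo.pi, Geo.tw]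

/-- A zero of one of the fibre coordinates. -/
lemma coord_zero (S : Sys E) {x y n : E} (hx : x ∈ S.S) (hy : y ∈ S.S)
    (h : ‖x - y‖ ^ 2 < S.δ ^ 2) (hz : S.pi x y + (n - S.P x n) = 0) :
    y = x ∧ 0 ≤ S.Q x n := by
  have hδ := S.δpos
  have h1 : S.P x (S.pi x y) = S.pi x y := by
    simp only [Geo.pi, Geo.tw, map_smul]
    rw [S.P_idem hx]
  have h2 : S.P x (n - S.P x n) = 0 := by
    rw [map_sub, S.P_idem hx, sub_self]
  have h3 : S.pi x y = 0 := by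
    have := congrArg (S.P x) hz
    rwa [map_add, h1, h2, add_zero, map_zero] at this
  have h4 : n - S.P x n = 0 := by rwa [h3, zero_add] at hz
  constructor
  · have h5 : S.P x (x - y) = 0 := by
      have h6 : (2 * (1 / (S.δ ^ 2 - ‖x - y‖ ^ 2)) : ℝ) ≠ 0 := by
        have := sub_pos.2 h
        positivity
      simp only [Geo.pi, Geo.tw] at h3
      exact (smul_eq_zero.1 h3).resolve_left h6
    have h7 : ‖x - y‖ ≤ 8 * S.δ := by
      have := abs_lt_of_sq_lt_sq' h hδ.le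
      linarith [this.2]
    have h8 := S.lower hx hy h7
    rw [h5, norm_zero] at h8
    have h9 : ‖x - y‖ = 0 := le_antisymm (by linarith) (norm_nonneg _)
    exact (sub_eq_zero.1 (norm_eq_zero.1 h9)).symm
  · unfold Sys.Q
    rw [h4, norm_zero]
    nlinarith [sq_nonneg ‖S.P x n‖]

lemma Q_ge (S : Sys E) {x a : E} (hx : x ∈ S.S) (ha : a ∈ S.S) (h : ‖x - a‖ ≤ 8 * S.δ) (c : ℝ) :
    7 / 8 * ‖c • (x - a)‖ ^ 2 ≤ S.Q x (c • (x - a)) := by
  have h1 := S.normal_small hx ha h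
  have h2 := S.pyth hx (c • (x - a))
  have h3 : ‖c • (x - a) - S.P x (c • (x - a))‖ ≤ 1 / 4 * ‖c • (x - a)‖ := by
    rw [map_smul, ← smul_sub, norm_smul, norm_smul]
    nlinarith [norm_nonneg c]
  unfold Sys.Q
  nlinarith [norm_nonneg (c • (x - a) - S.P x (c • (x - a))), norm_nonneg (c • (x - a))]

lemma Q_le (S : Sys E) {x u : E} (hx : x ∈ S.S) (h : ‖u - x‖ ≤ S.δ) (c : ℝ) :
    S.Q (S.r u) (c • (u - S.r u)) ≤ 0 := by
  obtain ⟨h0, -, h1⟩ := S.tube hx h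
  have h2 := S.pyth h0 (c • (u - S.r u))
  have h3 : ‖S.P (S.r u) (c • (u - S.r u))‖ ≤ 1 / 4 * ‖c • (u - S.r u)‖ := by
    rw [map_smul, norm_smul, norm_smul]
    nlinarith [norm_nonneg c]
  unfold Sys.Q
  nlinarith [norm_nonneg (S.P (S.r u) (c • (u - S.r u))), norm_nonneg (c • (u - S.r u))]

/-- The lower bound for the generating function at a zero of the linking map. -/
lemma lower (S : Sys E) {a : E} (ha : a ∈ S.S) {r0 : ℝ} (hr : r0 ≤ S.δ)
    (h0 : ∀ x ∈ S.S, ‖x - a‖ ≤ r0 → S.F (x, 0) = 0) {Λ : ℝ} (hΛ : 0 < Λ)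
    {ζ : Cfg E M (Option (Fin M))} (hζ : ζ ∈ S.Z M (Option (Fin M)))
    (hb : ∀ i, ‖(ζ.1 i).1 - a‖ ≤ r0) (hz : phi S a Λ ζ = 0) :
    ‖ζ.2 none‖ = Λ * ‖(ζ.1 0).1 - a‖ ∧
    ∑ i, ‖(ζ.1 i).1 - (ζ.1 (i + 1)).1‖ ^ 2 / S.δ ^ 2 + 7 / 8 * ‖ζ.2 none‖ ^ 2 ≤
      S.act bs (fun _ => S.St.τ₀) ζ := by
  have hδ := S.δpos
  have h1 : (ζ.1 0).1 + Λ⁻¹ • ζ.2 none - a = 0 := congrArg Prod.fst hz
  have h2 : ∀ i, S.pi (ζ.1 i).1 (ζ.1 i).2 + (ζ.2 (some i) - S.P (ζ.1 i).1 (ζ.2 (some i))) = 0 :=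
    fun i => congrFun (congrArg Prod.snd hz) i
  have h3 := fun i => coord_zero S (hζ i).1 (hζ i).2.1 (hζ i).2.2.1 (h2 i)
  have h4 : ζ.2 none = (-Λ) • ((ζ.1 0).1 - a) := by
    have h5 : Λ⁻¹ • ζ.2 none = -((ζ.1 0).1 - a) := by
      rw [← sub_eq_zero, ← h1]; abel
    have h6 := congrArg (fun v => Λ • v) h5
    simp only [smul_smul, mul_inv_cancel₀ hΛ.ne', one_smul] at h6
    rw [h6, smul_neg, neg_smul]
  constructor
  · rw [h4, norm_smul, Real.norm_eq_abs, abs_neg, abs_of_pos hΛ]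
  unfold Sys.act
  rw [Fintype.sum_option]
  have h7 : 7 / 8 * ‖ζ.2 none‖ ^ 2 ≤ S.Q (ζ.1 (bs none)).1 (ζ.2 none) := by
    rw [h4]
    exact Q_ge S (hζ 0).1 ha (by linarith [hb 0]) _
  have h8 : 0 ≤ ∑ i, S.Q (ζ.1 (bs (some i))).1 (ζ.2 (some i)) :=
    Finset.sum_nonneg fun i _ => (h3 i).2
  have h9 : ∑ i, ‖(ζ.1 i).1 - (ζ.1 (i + 1)).1‖ ^ 2 / S.δ ^ 2 ≤
      ∑ i, S.core S.St.τ₀ (ζ.1 i).1 (ζ.1 i).2 (ζ.1 (i + 1)).1 := by
    refine Finset.sum_le_sum fun i _ => ?_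
    have hi := hζ i
    unfold Sys.OK at hi
    rw [(h3 i).1] at hi ⊢
    have hF : S.F ((ζ.1 i).1, S.pi (ζ.1 i).1 (ζ.1 i).1) = 0 := by
      rw [pi_self]; exact h0 _ hi.1 (hb i)
    have hw := (S.w_stat hi.1 hi.1 hi.2.2.1 ⟨S.St.τpos.le, le_rfl⟩ (Or.inl hF)).2
    have hg := S.Br.g_ge _ (sq_nonneg _) hi.2.2.2
    unfold Sys.core
    rw [hw, hF]
    simp only [sub_self, norm_zero, ne_eq, OfNat.ofNat_ne_zero, not_false_eq_true, zero_pow,
      sub_zero, mul_zero, add_zero]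
    linarith
  linarith

omit [InnerProductSpace ℝ E] in
lemma chain_bound (x : Fin M → E) (a : E) {ρ : ℝ} (h0 : ‖x 0 - a‖ ≤ ρ)
    (h : ∀ i, ‖x i - x (i + 1)‖ ≤ ρ) (i : Fin M) : ‖x i - a‖ ≤ M * ρ := by
  have hρ : 0 ≤ ρ := (norm_nonneg _).trans h0
  have key : ∀ k : ℕ, ‖x (Fin.ofNat M k) - a‖ ≤ (k + 1) * ρ := by
    intro k
    induction k with
    | zero =>
      have : Fin.ofNat M 0 = 0 := Fin.ext (by simp)
      rw [this]; simpa using h0
    | succ k ih =>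
      have h1 : Fin.ofNat M (k + 1) = Fin.ofNat M k + 1 := by
        apply Fin.ext
        simp [Fin.val_add]
      rw [h1]
      have h2 := h (Fin.ofNat M k)
      have h3 : x (Fin.ofNat M k + 1) - a =
          (x (Fin.ofNat M k) - a) - (x (Fin.ofNat M k) - x (Fin.ofNat M k + 1)) := by abel
      rw [h3]
      refine (norm_sub_le _ _).trans ?_
      push_cast
      linarith
  have h4 := key i
  have h5 : Fin.ofNat M (i : ℕ) = i := Fin.ext (by simp)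
  rw [h5] at h4
  have h6 : ((i : ℕ) : ℝ) + 1 ≤ M := by exact_mod_cast i.2
  nlinarith

/-- The family of closed chains. -/
noncomputable def fam (S : Sys E) (M : ℕ) (H : E × ℝ × (ℕ → E) → Ch E) (Λ : ℝ)
    (p : ℝ × E × (Fin M → E)) : Cfg E M (Option (Fin M)) :=
  ex (Λ • (p.2.1 - S.r p.2.1)) (toCfg M (H (S.r p.2.1, p.1, pad p.2.2)))

section Fam

variable {S : Sys E} {T : ℝ} {H : E × ℝ × (ℕ → E) → Ch E} (h : S.IsKill S.S M T (-1) H) (Λ : ℝ)
include h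

omit [NeZero M] in
lemma fam_cont : ContinuousOn (fam S M H Λ) {p | S.r p.2.1 ∈ S.S} := by
  have hr : Continuous S.r := S.smooth.continuous
  have hq : Continuous fun p : ℝ × E × (Fin M → E) => (S.r p.2.1, p.1, pad p.2.2) :=
    (hr.comp (by fun_prop)).prodMk (continuous_fst.prodMk (pad_cont.comp (by fun_prop)))
  have hH : ∀ i : Fin M, ContinuousOn
      (fun p : ℝ × E × (Fin M → E) => H (S.r p.2.1, p.1, pad p.2.2) i) {p | S.r p.2.1 ∈ S.S} :=
    fun i => (h.cont i i.2).comp hq.continuousOn fun p hp => ⟨hp, trivial⟩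
  unfold fam ex toCfg
  refine ContinuousOn.prodMk (continuousOn_pi.2 fun i => (hH i).fst.prodMk (hH i).snd.fst) ?_
  refine continuousOn_pi.2 fun j => ?_
  cases j with
  | none => exact Continuous.continuousOn (by simp only [Option.elim_none]; fun_prop)
  | some i => exact (hH i).snd.snd

lemma fam_mem {p : ℝ × E × (Fin M → E)} (hp : S.r p.2.1 ∈ S.S) :
    fam S M H Λ p ∈ S.Z M (Option (Fin M)) :=
  S.toCfg_mem (h.valid _ hp _ _) (by rw [h.src _ hp, h.tgt _ hp])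

lemma fam_act {p : ℝ × E × (Fin M → E)} {x : E} (hx : x ∈ S.S) (hp : ‖p.2.1 - x‖ ≤ S.δ) :
    S.act bs (fun _ => S.St.τ₀) (fam S M H Λ p) ≤ S.Val M (H (S.r p.2.1, p.1, pad p.2.2)) := by
  have hr := (S.tube hx hp).1
  unfold fam
  rw [act_ex, S.act_toCfg (fun _ => S.St.τ₀) (by rw [h.src _ hr, h.tgt _ hr])]
  have h1 : ((toCfg M (H (S.r p.2.1, p.1, pad p.2.2))).1 0).1 = S.r p.2.1 := h.src _ hr _ _
  rw [h1]
  have h2 := Q_le S hx hp Λ
  unfold Sys.Val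
  linarith

omit [NeZero M] in
lemma val_start {x : E} (hx : x ∈ S.S) (P : ℕ → E) : S.Val M (H (x, 0, P)) ≤ 0 := by
  unfold Sys.Val Sys.ValT
  refine Finset.sum_nonpos fun i hi => ?_
  have hi' := Finset.mem_range.1 hi
  have h1 : (H (x, 0, P) (i + 1)).1 = x := by
    rcases (Nat.succ_le_of_lt hi').lt_or_eq with h2 | h2
    · rw [h.start x hx 0 le_rfl P _ h2]; rfl
    · rw [Nat.succ_eq_add_one] at h2
      rw [h2]; exact h.tgt x hx 0 P
  rw [h1, h.start x hx 0 le_rfl P i hi']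
  exact S.un_le_zero hx _ ⟨S.St.τpos.le, le_rfl⟩

omit [NeZero M] in
lemma fam_start_fst {z : E × (Fin M → E)} (hz : S.r z.1 ∈ S.S) (i : Fin M) :
    ((fam S M H Λ (0, z)).1 i).1 = S.r z.1 := by
  show (H (S.r z.1, 0, pad z.2) i).1 = _
  rw [h.start _ hz 0 le_rfl _ i i.2]; rfl

lemma phi_start (a : E) (hΛ : 0 < Λ) {z : E × (Fin M → E)} (hz : S.r z.1 ∈ S.S) :
    phi S a Λ (fam S M H Λ (0, z)) = z - (a, 0) := by
  refine Prod.ext ?_ (funext fun i => ?_)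
  · show ((fam S M H Λ (0, z)).1 0).1 + Λ⁻¹ • (Λ • (z.1 - S.r z.1)) - a = z.1 - a
    rw [fam_start_fst h Λ hz, smul_smul, inv_mul_cancel₀ hΛ.ne', one_smul]
    abel
  · show S.pi (H (S.r z.1, 0, pad z.2) i).1 (H (S.r z.1, 0, pad z.2) i).2.1 +
      ((H (S.r z.1, 0, pad z.2) i).2.2 - S.P (H (S.r z.1, 0, pad z.2) i).1
        (H (S.r z.1, 0, pad z.2) i).2.2) = z.2 i - 0
    rw [h.start _ hz 0 le_rfl _ i i.2, pad_val, sub_zero]
    exact S.un_coord hz _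

end Fam

end Link

variable [FiniteDimensional ℝ E]

open Link in
theorem Sys.link_aux (S : Sys E) (hnp : S.NoPer) {a : E}
     (ha : a ∈ S.S) {r0 : ℝ} (hr0 : 0 < r0) (hr : r0 ≤ S.δ)
    (h0 : ∀ x ∈ S.S, ‖x - a‖ ≤ r0 → S.F (x, 0) = 0) {M : ℕ} [NeZero M] {T : ℝ}
    {H : E × ℝ × (ℕ → E) → Ch E} (h : S.IsKill S.S M T (-1) H) : False := by
  have hδ := S.δpos
  have hτ := S.St.τpos
  have hM : (1 : ℝ) ≤ M := by exact_mod_cast Nat.one_le_iff_ne_zero.2 (NeZero.ne M)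
  obtain ⟨ρ, hρ, hρM⟩ : ∃ ρ : ℝ, 0 < ρ ∧ M * ρ = r0 / 2 :=
    ⟨r0 / 2 / M, by positivity, by field_simp⟩
  have hρδ : ρ ≤ S.δ / 2 := by nlinarith
  obtain ⟨η, hη, hηρ⟩ : ∃ η : ℝ, 0 < η ∧ η = ρ ^ 2 / S.δ ^ 2 := ⟨_, by positivity, rfl⟩
  have hη4 : η ≤ 1 / 4 := by
    rw [hηρ, div_le_iff₀ (by positivity)]
    nlinarith
  obtain ⟨ℓ, hℓT, hℓ1⟩ : ∃ ℓ : ℝ, T ≤ ℓ ∧ 1 ≤ ℓ := ⟨max T 1, le_max_left _ _, le_max_right _ _⟩
  have hsum : ∀ u : ℝ, ∑ _i : Fin M, (S.St.τ₀ + u * 0) = M * S.St.τ₀ := by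
    intro u; simp
  obtain ⟨D, hD, hdef⟩ := S.deform (m := M) (J := Option (Fin M)) bs False (fun _ => S.St.τ₀)
    (fun _ => 0) (fun _ => hτ.le) (fun _ => le_rfl) (fun _ => by simp) ℓ (ℓ - η) (η / 2)
    (by linarith) (by linarith) (S.Z M (Option (Fin M))) Subset.rfl (fun ζ hζ _ => hζ)
    (fun v T hT _ hv _ => hv T ⟨hT, le_rfl⟩)
    (by
      intro u hu ζ _ z hz hA
      exfalso
      rw [hsum] at hz hA
      have hs : 0 < M * S.St.τ₀ := by positivity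
      have h1 := hnp z hz.mem _ hs (hz.closed not_false)
      rw [S.Hm.Astat z hz.mem h1] at hA
      have h2 := (S.h01 z hz.mem).1
      have h3 := (abs_le.1 hA).1
      have h4 : 0 ≤ M * S.St.τ₀ * S.F z := by positivity
      have h5 : u * (ℓ - η) ≤ ℓ - η := by nlinarith [hu.2]
      linarith)
    (Or.inr (by
      intro u hu
      rw [hsum]
      have h4 : 0 ≤ M * S.St.τ₀ := by positivity
      have h5 : u * (ℓ - η) ≤ ℓ - η := by nlinarith [hu.2]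
      linarith))
  obtain ⟨Λ, hΛ, hΛρ⟩ : ∃ Λ : ℝ, 0 < Λ ∧ Λ * ρ = 1 + D :=
    ⟨(1 + D) / ρ, by positivity, by field_simp⟩
  obtain ⟨R, hR, hRp⟩ : ∃ R : ℝ, 0 < R ∧ ∀ x ∈ S.S, ∀ u P, (∃ i < M, R ≤ ‖P i‖) →
      S.Val M (H (x, u, P)) ≤ -1 := by
    obtain ⟨R, hR⟩ := h.proper 1
    refine ⟨max R 1, by positivity, fun x hx u P ⟨i, hi, hP⟩ => hR x hx u P ⟨i, hi, ?_⟩⟩
    exact (le_max_left _ _).trans hP
  set Tc : Set E := {u | ∃ x ∈ S.S, ‖u - x‖ ≤ S.δ} with hTc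
  have hTcc : IsCompact Tc := by
    have h1 : Tc = (fun q : E × E => q.1 + q.2) '' (S.S ×ˢ Metric.closedBall 0 S.δ) := by
      ext u
      constructor
      · rintro ⟨x, hx, hu⟩
        exact ⟨(x, u - x), ⟨hx, by simpa using hu⟩, by simp⟩
      · rintro ⟨⟨x, v⟩, ⟨hx, hv⟩, rfl⟩
        exact ⟨x, hx, by simpa using hv⟩
    rw [h1]
    exact (S.compact.prod (isCompact_closedBall _ _)).image (by fun_prop)
  have hTr : ∀ u ∈ Tc, S.r u ∈ S.S := fun u ⟨x, hx, hu⟩ => (S.tube hx hu).1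
  set C : Set (ℝ × E × (Fin M → E)) := Icc 0 1 ×ˢ Tc ×ˢ Metric.closedBall 0 R with hC
  have hCc : IsCompact C := isCompact_Icc.prod (hTcc.prod (isCompact_closedBall _ _))
  have hGc := fam_cont h Λ
  have hGC : ContinuousOn (fam S M H Λ) C := hGc.mono fun p hp => hTr _ hp.2.1
  obtain ⟨e, hec, he0, -, -, heZ, heA, heD, heF⟩ := hdef (fam S M H Λ '' C)
    (by rintro _ ⟨p, hp, rfl⟩; exact fam_mem h Λ (hTr _ hp.2.1)) (hCc.image_of_continuousOn hGC)
  have hact : ∀ p : ℝ × E × (Fin M → E), p.2.1 ∈ Tc →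
      S.act bs (fun _ => S.St.τ₀) (fam S M H Λ p) ≤ S.Val M (H (S.r p.2.1, p.1, pad p.2.2)) :=
    fun p ⟨x, hx, hu⟩ => fam_act h Λ hx hu
  have hfix : ∀ p : ℝ × E × (Fin M → E), p.2.1 ∈ Tc →
      S.Val M (H (S.r p.2.1, p.1, pad p.2.2)) ≤ 0 → e (1, fam S M H Λ p) = fam S M H Λ p :=
    fun p hp hv => heF _ (fam_mem h Λ (hTr _ hp)) (by linarith [hact p hp]) 1
  have hno : ∀ p : ℝ × E × (Fin M → E), p.2.1 ∈ Tc →
      S.Val M (H (S.r p.2.1, p.1, pad p.2.2)) ≤ -1 →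
      (∀ i, ‖((e (1, fam S M H Λ p)).1 i).1 - a‖ ≤ r0) →
      phi S a Λ (e (1, fam S M H Λ p)) ≠ 0 := by
    intro p hp hv hb hz
    rw [hfix p hp (by linarith)] at hb hz
    have h1 := (lower S ha hr h0 hΛ (fam_mem h Λ (hTr _ hp)) hb hz).2
    have h2 : 0 ≤ ∑ i, ‖((fam S M H Λ p).1 i).1 - ((fam S M H Λ p).1 (i + 1)).1‖ ^ 2 / S.δ ^ 2 :=
      Finset.sum_nonneg fun i _ => by positivity
    have h3 := hact p hp
    nlinarith [sq_nonneg ‖(fam S M H Λ p).2 none‖]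
  set U : Set (ℝ × E × (Fin M → E)) := {p | p.2.1 ∈ Metric.thickening S.δ S.S} with hU
  have hUo : IsOpen U := Metric.isOpen_thickening.preimage (by fun_prop)
  have hUT : ∀ p ∈ U, p.2.1 ∈ Tc := by
    intro p hp
    obtain ⟨x, hx, hd⟩ := Metric.mem_thickening_iff.1 hp
    exact ⟨x, hx, by rw [← dist_eq_norm]; exact hd.le⟩
  set g : ℝ × E × (Fin M → E) → Cfg E M (Option (Fin M)) := fun p => e (1, fam S M H Λ p) with hg
  have hgc : ContinuousOn g {p | S.r p.2.1 ∈ S.S} :=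
    hec.comp_continuousOn (continuousOn_const.prodMk hGc)
  set V : Set (Cfg E M (Option (Fin M))) :=
    {ζ | (∀ i, ‖(ζ.1 i).1 - a‖ < r0) ∧ ∀ i, ‖(ζ.1 i).1 - (ζ.1 i).2‖ ^ 2 < S.δ ^ 2} with hV
  have hVo : IsOpen V := by
    rw [hV, ofPred_and, ofPred_forall, ofPred_forall]
    exact (isOpen_iInter_of_finite fun i => isOpen_lt (by fun_prop) continuous_const).inter
      (isOpen_iInter_of_finite fun i => isOpen_lt (by fun_prop) continuous_const)
  set Ω : Set (ℝ × E × (Fin M → E)) := (U ∩ g ⁻¹' V) ∩ {p | ‖p.2.2‖ < R} with hΩ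
  have hΩo : IsOpen Ω :=
    ((hgc.mono fun p hp => hTr _ (hUT p hp)).isOpen_inter_preimage hUo hVo).inter
      (isOpen_lt (by fun_prop) continuous_const)
  have hh : ContinuousOn (fun p => phi S a Λ (g p)) Ω :=
    (phi_cont S a Λ).comp (hgc.mono fun p hp => hTr _ (hUT p hp.1.1)) fun p hp => hp.1.2.2
  have hgZ : ∀ p ∈ C, g p ∈ S.Z M (Option (Fin M)) := fun p hp => heZ _ ⟨p, hp, rfl⟩ 1
  have hK : IsCompact {p | p ∈ Ω ∧ p.1 ∈ Icc (0 : ℝ) 1 ∧ phi S a Λ (g p) = 0} := by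
    have hgC : ContinuousOn g C := hgc.mono fun p hp => hTr _ hp.2.1
    have hhC : ContinuousOn (fun p => phi S a Λ (g p)) C :=
      (phi_cont S a Λ).comp hgC fun p hp i => (hgZ p hp i).2.2.1
    have hcl : IsClosed {ζ : Cfg E M (Option (Fin M)) | ∀ i, ‖(ζ.1 i).1 - a‖ ≤ r0} := by
      rw [ofPred_forall]
      exact isClosed_iInter fun i => isClosed_le (by fun_prop) continuous_const
    have h1 := hgC.preimage_isClosed_of_isClosed hCc.isClosed hcl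
    have h2 := hhC.preimage_isClosed_of_isClosed hCc.isClosed (isClosed_singleton (x := 0))
    have h3 := hCc.of_isClosed_subset (h1.inter h2) fun p hp => hp.1.1
    convert h3 using 1
    ext p
    constructor
    · rintro ⟨⟨⟨hpU, hpV⟩, hpR⟩, hp1, hp0⟩
      have hpC : p ∈ C := ⟨hp1, hUT p hpU, by simpa using le_of_lt hpR⟩
      exact ⟨⟨hpC, fun i => (hpV.1 i).le⟩, hpC, hp0⟩
    · rintro ⟨⟨hpC, hb⟩, -, hz⟩
      have hb' : ∀ i, ‖((g p).1 i).1 - a‖ ≤ r0 := hb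
      have hz' : phi S a Λ (g p) = 0 := hz
      have hpT : p.2.1 ∈ Tc := hpC.2.1
      obtain ⟨hn, hlow⟩ := lower S ha hr h0 hΛ (hgZ p hpC) hb' hz'
      have hup : S.act bs (fun _ => S.St.τ₀) (g p) ≤ η := by
        have h4 := heA _ ⟨p, hpC, rfl⟩
          (((hact p hpT).trans (h.le _ (hTr _ hpT) _ _)).trans hℓT) 1 ⟨zero_le_one, le_rfl⟩
        simp only [mul_zero, add_zero, one_mul, sub_sub_cancel] at h4
        exact h4
      have hs0 : ∀ i ∈ Finset.univ,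
          0 ≤ ‖((g p).1 i).1 - ((g p).1 (i + 1)).1‖ ^ 2 / S.δ ^ 2 := fun i _ => by positivity
      have hs1 := Finset.sum_nonneg hs0
      have hn1 : ‖(g p).2 none‖ ≤ 1 :=
        (abs_le_of_sq_le_sq' (by nlinarith) zero_le_one).2
      have hx0 : ‖((g p).1 0).1 - a‖ ≤ ρ := by
        refine le_of_mul_le_mul_left ?_ hΛ
        linarith
      have hst : ∀ i, ‖((g p).1 i).1 - ((g p).1 (i + 1)).1‖ ≤ ρ := by
        intro i
        have h5 := Finset.single_le_sum hs0 (Finset.mem_univ i)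
        have h6 : ‖((g p).1 i).1 - ((g p).1 (i + 1)).1‖ ^ 2 / S.δ ^ 2 ≤ ρ ^ 2 / S.δ ^ 2 := by
          nlinarith [sq_nonneg ‖(g p).2 none‖]
        rw [div_le_div_iff_of_pos_right (by positivity)] at h6
        exact (abs_le_of_sq_le_sq' h6 hρ.le).2
      refine ⟨⟨⟨?_, fun i => ?_, fun i => (hgZ p hpC i).2.2.1⟩, ?_⟩, hpC.1, hz'⟩
      · have h5 := heD _ ⟨p, hpC, rfl⟩ 1 0
        rw [he0 0 le_rfl, sub_zero, abs_one, mul_one] at h5
        have h6 : ‖(g p).2 none - (fam S M H Λ p).2 none‖ ≤ D :=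
          ((norm_le_pi_norm (g p - fam S M H Λ p).2 none).trans (norm_snd_le _)).trans h5
        have h7 : ‖(fam S M H Λ p).2 none‖ = Λ * ‖p.2.1 - S.r p.2.1‖ := by
          show ‖Λ • (p.2.1 - S.r p.2.1)‖ = _
          rw [norm_smul, Real.norm_eq_abs, abs_of_pos hΛ]
        have h8 := norm_sub_norm_le ((fam S M H Λ p).2 none) ((g p).2 none)
        rw [norm_sub_rev] at h8
        have h9 : ‖p.2.1 - S.r p.2.1‖ ≤ ρ := by
          refine le_of_mul_le_mul_left ?_ hΛ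
          linarith
        exact Metric.mem_thickening_iff.2 ⟨_, hTr _ hpT, by rw [dist_eq_norm]; linarith⟩
      · have h5 := chain_bound (fun i => ((g p).1 i).1) a hx0 hst i
        linarith
      · by_contra hc
        have hc' : R ≤ ‖p.2.2‖ := not_lt.1 hc
        have h5 : ∃ i : Fin M, R ≤ ‖p.2.2 i‖ := by
          by_contra h6
          push Not at h6
          exact absurd ((pi_norm_lt_iff hR).2 h6) hc
        obtain ⟨i, hi⟩ := h5
        exact hno p hpT (hRp _ (hTr _ hpT) _ _ ⟨i, i.2, by rwa [pad_val]⟩) hb' hz'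
  have hstart : ∀ z : E × (Fin M → E), z.1 ∈ Tc → g (0, z) = fam S M H Λ (0, z) :=
    fun z hz => hfix (0, z) hz (val_start h (hTr _ hz) _)
  have haT : a ∈ Tc := ⟨a, ha, by simpa using hδ.le⟩
  obtain ⟨z, hzΩ, hz⟩ := deg_zero Ω hΩo (fun p => phi S a Λ (g p)) hh hK (a, 0)
    (by
      refine ⟨⟨Metric.self_subset_thickening hδ _ ha, ?_⟩, by simpa using hR⟩
      show g (0, (a, 0)) ∈ V
      rw [hstart _ haT]
      refine ⟨fun i => ?_, fun i => (fam_mem h Λ (p := (0, (a, 0))) (hTr _ haT) i).2.2.1⟩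
      rw [fam_start_fst h Λ (hTr _ haT), S.fix a ha]
      simpa using hr0)
    (by
      intro z hz
      have h1 := hUT _ hz.1.1
      show phi S a Λ (g (0, z)) = _
      rw [hstart z h1]
      exact phi_start h Λ a hΛ (hTr _ h1))
  have h1 := hUT _ hzΩ.1.1
  exact hno (1, z) h1 (h.stop _ (hTr _ h1) 1 le_rfl _) (fun i => (hzΩ.1.2.1 i).le) hz

theorem Sys.link (S : Sys E) (hnp : S.NoPer) {a : E} (ha : a ∈ S.S) {r0 : ℝ} (hr0 : 0 < r0)
    (h0 : ∀ x ∈ S.S, ‖x - a‖ ≤ r0 → S.F (x, 0) = 0) {M : ℕ} {T : ℝ}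
    {H : E × ℝ × (ℕ → E) → Ch E} (h : S.IsKill S.S M T (-1) H) : False := by
  rcases Nat.eq_zero_or_pos M with rfl | hM
  · have h1 := h.stop a ha 1 le_rfl 0
    simp only [Sys.Val, Sys.ValT, Finset.range_zero, Finset.sum_empty] at h1
    linarith
  · have : NeZero M := ⟨hM.ne'⟩
    exact S.link_aux hnp ha (lt_min hr0 S.δpos) (min_le_right _ _)
      (fun x hx hb => h0 x hx (hb.trans (min_le_left _ _))) h

end Pool.Agent.Wein
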