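import Mathlib
import Pool.Agent.P.MP_e3ee0c_gt.WCore
import Pool.Agent.P.MP_e3ee0c_gt.WCollarC

/-! From the level of H to a Hamiltonian supported in a collar, and back. -/

open Set Filter Topology
open scoped ContDiff InnerProductSpace

namespace Pool.Agent.Wein

variable {E : Type} [NormedAddCommGroup E] [InnerProductSpace ℝ E] [FiniteDimensional ℝ E]

theorem collar (R : Ret E) (hN : IsPathConnected R.S) (γ : C(UnitAddCircle, R.S))
    (hγ : ¬ γ.Nullhomotopic) (H : E × E → ℝ) (hH : ContDiff ℝ ∞ H) (c : ℝ)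
    (hV : IsCompact {z | z ∈ Cot R.S ∧ H z ≤ c})
    (Y : E × E → E × E) (hY : ContDiff ℝ ∞ Y) (β : E × E → ℝ) (hβ : ContDiff ℝ ∞ β)
    (W : Set (E × E)) (hW : IsOpen W) (hSW : ∀ z ∈ Cot R.S, H z = c → z ∈ W)
    (hL : ∀ z ∈ Cot R.S, z ∈ W → Y z ∈ Tan (Cot R.S) z ∧
      ∀ v ∈ Tan (Cot R.S) z, omega (Y z) v = ⟪z.2, v.1⟫_ℝ + fderiv ℝ β z v)
    (hout : ∀ z ∈ Cot R.S, H z = c → 0 < fderiv ℝ H z (Y z))
    (a : E) (ha : a ∈ R.S) (hac : H (a, 0) < c) :
    ∃ (z : ℝ → E × E) (T : ℝ), IsOrbit R.S H z ∧ 0 < T ∧ (∀ t, z (t + T) = z t) ∧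
      ∀ t, H (z t) = c := by
  have hK : IsCompact {z | z ∈ Cot R.S ∧ H z = c} :=
    hV.of_isClosed_subset (R.hat.closed.inter (isClosed_eq hH.continuous continuous_const))
      fun z hz => ⟨hz.1, hz.2.le⟩
  obtain ⟨C⟩ := exists_col R H hH c hK Y hY β W hW hSW hL hout
  obtain ⟨F, hF⟩ : ∃ F, C.IsF F := C.exists_F hH hK
  have hC := C.K_compact hK
  obtain ⟨B, hB⟩ := (hV.union hC).isBounded.exists_norm_le
  obtain ⟨M, hM⟩ := hC.exists_bound_of_continuousOn hβ.continuous.continuousOn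
  have hc : ContinuousAt (fun x : E => H (x, 0)) a :=
    (hH.continuous.comp (continuous_id.prodMk continuous_const)).continuousAt
  obtain ⟨δ, hδ, hball⟩ := Metric.eventually_nhds_iff.1 (hc.eventually (gt_mem_nhds hac))
  obtain ⟨z, P, hz, hP, hper, h0, h1⟩ := core R hN γ hγ F hF.1 (fun z hz => hF.bounds hz) (B + 1)
    (fun z hz h => by
      have hn : ¬ ‖z‖ ≤ B := fun h' => by linarith [norm_snd_le z]
      exact (hF.2 z hz).2.2 ⟨not_le.1 fun h' => hn (hB z (Or.inl ⟨hz, h'⟩)),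
        fun h' => hn (hB z (Or.inr h'))⟩)
    a ha (δ / 2) (half_pos hδ)
    (fun x hx h => (hF.2 (x, 0) ((R.mem_cot _).2 ⟨hx, map_zero _⟩)).1
      (hball (by rw [dist_eq_norm]; linarith)).le)
    (1 / 2) (2 * max M 0) (by norm_num)
    (fun z A hz hA hκ s hs => hF.gap hβ (le_max_right _ _)
      (fun y hy => (hM y hy).trans (le_max_left _ _)) z A hz hA hκ s hs)
  exact hF.back hH hβ hz hP hper h0 h1

end Pool.Agent.Wein
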