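import Mathlib
import Pool.Agent.P.MP_e3ee0c_gt.WCollar
import Pool.Agent.P.MP_e3ee0c_gt.WTub

/-! Fibre translations and the main theorem. -/

open Set Filter Topology
open scoped ContDiff InnerProductSpace

namespace Pool.Agent.Wein

variable {E : Type} [NormedAddCommGroup E] [InnerProductSpace ℝ E] [FiniteDimensional ℝ E]

/-- Translation of the fibres by s. -/
def tr (s : E → E) (z : E × E) : E × E := (z.1, z.2 + s z.1)

/-- The differential of the translation. -/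
noncomputable def dtr (s : E → E) (x : E) (v : E × E) : E × E := (v.1, v.2 + fderiv ℝ s x v.1)

lemma tr_smooth {s : E → E} (hs : ContDiff ℝ ∞ s) : ContDiff ℝ ∞ (tr s) :=
  contDiff_fst.prodMk (contDiff_snd.add (hs.comp contDiff_fst))

lemma tr_diff {s : E → E} (hs : ContDiff ℝ ∞ s) (z : E × E) : DifferentiableAt ℝ (tr s) z :=
  (tr_smooth hs).differentiable (by simp) z

lemma fderiv_tr {s : E → E} (hs : ContDiff ℝ ∞ s) (z v : E × E) :
    fderiv ℝ (tr s) z v = dtr s z.1 v := by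
  have h1 : HasFDerivAt s (fderiv ℝ s z.1) z.1 := (hs.differentiable (by simp) z.1).hasFDerivAt
  have h2 : HasFDerivAt (tr s) ((ContinuousLinearMap.fst ℝ E E).prod
      (ContinuousLinearMap.snd ℝ E E + (fderiv ℝ s z.1).comp (ContinuousLinearMap.fst ℝ E E))) z :=
    hasFDerivAt_fst.prodMk (hasFDerivAt_snd.add (h1.comp z hasFDerivAt_fst))
  rw [h2.fderiv]
  rfl

lemma tr_neg_tr (s : E → E) (z : E × E) : tr (-s) (tr s z) = z := by
  simp [tr]

lemma tr_tr_neg (s : E → E) (z : E × E) : tr s (tr (-s) z) = z := by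
  simp [tr]

lemma dtr_neg_dtr (s : E → E) (x : E) (v : E × E) : dtr (-s) x (dtr s x v) = v := by
  simp [dtr, fderiv_neg]

lemma dtr_dtr_neg (s : E → E) (x : E) (v : E × E) : dtr s x (dtr (-s) x v) = v := by
  simp [dtr, fderiv_neg]

/-- A closed one-form on the base, written as a tangent field. -/
structure Shift (R : Ret E) (s : E → E) : Prop where
  smooth : ContDiff ℝ ∞ s
  tan : ∀ x ∈ R.S, R.P x (s x) = s x
  cl : ∀ x ∈ R.S, ∀ u v, R.P x u = u → R.P x v = v →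
    ⟪fderiv ℝ s x u, v⟫_ℝ = ⟪fderiv ℝ s x v, u⟫_ℝ

namespace Shift

variable {R : Ret E} {s : E → E}

lemma neg (h : Shift R s) : Shift R (-s) where
  smooth := h.smooth.neg
  tan x hx := by simp [h.tan x hx]
  cl x hx u v hu hv := by simp [fderiv_neg, h.cl x hx u v hu hv]

lemma mem (h : Shift R s) {z : E × E} (hz : z ∈ Cot R.S) : tr s z ∈ Cot R.S := by
  obtain ⟨h1, h2⟩ := (R.mem_cot z).1 hz
  refine (R.mem_cot _).2 ⟨h1, ?_⟩
  simp only [tr, map_add, h2, h.tan _ h1]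

lemma tan_mem (h : Shift R s) {z v : E × E} (hv : v ∈ Tan (Cot R.S) z) :
    dtr s z.1 v ∈ Tan (Cot R.S) (tr s z) := by
  rw [← fderiv_tr h.smooth]
  exact Tan.map hv (tr_diff h.smooth z) (Eventually.of_forall fun _ hy => h.mem hy)

lemma omega_dtr (h : Shift R s) {z u v : E × E} (hz : z ∈ Cot R.S) (hu : u ∈ Tan (Cot R.S) z)
    (hv : v ∈ Tan (Cot R.S) z) : omega (dtr s z.1 u) (dtr s z.1 v) = omega u v := by
  have := h.cl z.1 hz.1 u.1 v.1 (R.tan_cot_fst hz hu) (R.tan_cot_fst hz hv)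
  simp only [omega, dtr, inner_add_left, this]
  ring

lemma fderiv_comp_tr (h : Shift R s) {H : E × E → ℝ} (hH : ContDiff ℝ ∞ H) (z v : E × E) :
    fderiv ℝ (H ∘ tr s) z v = fderiv ℝ H (tr s z) (dtr s z.1 v) := by
  rw [fderiv_comp z (hH.differentiable (by simp) _) (tr_diff h.smooth z),
    ContinuousLinearMap.comp_apply, fderiv_tr h.smooth]

lemma orbit (h : Shift R s) {H : E × E → ℝ} (hH : ContDiff ℝ ∞ H) {z : ℝ → E × E}
    (hz : IsOrbit R.S (H ∘ tr s) z) : IsOrbit R.S H (fun t => tr s (z t)) := fun t => by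
  obtain ⟨h1, v, h2, h3⟩ := hz t
  have hv : v ∈ Tan (Cot R.S) (z t) :=
    Tan.of_hasDerivAt h2 (Eventually.of_forall fun r => (hz r).1)
  refine ⟨h.mem h1, dtr s (z t).1 v, ?_, fun u hu => ?_⟩
  · rw [← fderiv_tr h.smooth]
    exact (tr_diff h.smooth (z t)).hasFDerivAt.comp_hasDerivAt t h2
  · have h4 : dtr (-s) (z t).1 u ∈ Tan (Cot R.S) (z t) := by
      have := h.neg.tan_mem hu
      rwa [tr_neg_tr] at this
    have h5 := h3 _ h4
    rw [h.fderiv_comp_tr hH, dtr_dtr_neg, ← h.omega_dtr h1 hv h4, dtr_dtr_neg] at h5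
    exact h5

end Shift

lemma shift_proj (R : Ret E) {θ : E → E} (hθ : ContDiff ℝ ∞ θ)
    (hcl : ∀ x ∈ R.S, ∀ u ∈ Tan R.S x, ∀ v ∈ Tan R.S x,
      ⟪fderiv ℝ θ x u, v⟫_ℝ = ⟪fderiv ℝ θ x v, u⟫_ℝ) (p : E) :
    Shift R (fun x => R.P x (θ x - p)) where
  smooth := R.P_smooth.clm_apply (hθ.sub contDiff_const)
  tan x hx := R.P_idem hx _
  cl x hx := by
    have h1 : HasFDerivAt R.P (fderiv ℝ R.P x) x :=
      (R.P_smooth.differentiable (by simp) x).hasFDerivAt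
    have h2 : HasFDerivAt (fun y => θ y - p) (fderiv ℝ θ x) x :=
      (hθ.differentiable (by simp) x).hasFDerivAt.sub_const p
    have h3 : ∀ u v, R.P x u = u → R.P x v = v →
        ⟪fderiv ℝ (fun y => R.P y (θ y - p)) x u, v⟫_ℝ
          = ⟪fderiv ℝ θ x u, v⟫_ℝ + ⟪θ x - p, fderiv ℝ R.P x u v⟫_ℝ := fun u v hu hv => by
      rw [(h1.clm_apply h2).fderiv]
      simp only [add_apply, ContinuousLinearMap.comp_apply,
        ContinuousLinearMap.flip_apply, inner_add_left]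
      rw [R.P_symm hx, hv, R.DP_symm hx hu]
    intro u v hu hv
    rw [h3 u v hu hv, h3 v u hv hu, R.DP_comm x u v,
      hcl x hx u ((R.mem_tan hx u).2 hu) v ((R.mem_tan hx v).2 hv)]

theorem main (N : Set E) (hN : IsSubmanifold N) (hc : IsCompact N) (hp : IsPathConnected N)
    (γ : C(UnitAddCircle, N)) (hγ : ¬ γ.Nullhomotopic)
    (H : E × E → ℝ) (hH : ContDiff ℝ ∞ H) (c : ℝ) (hne : ∃ z ∈ Cot N, H z = c)
    (hV : IsCompact {z | z ∈ Cot N ∧ H z ≤ c})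
    (Y : E × E → E × E) (hY : ContDiff ℝ ∞ Y) (β : E × E → ℝ) (hβ : ContDiff ℝ ∞ β)
    (θ : E → E) (hθ : ContDiff ℝ ∞ θ)
    (hcl : ∀ x ∈ N, ∀ u ∈ Tan N x, ∀ v ∈ Tan N x,
      ⟪fderiv ℝ θ x u, v⟫_ℝ = ⟪fderiv ℝ θ x v, u⟫_ℝ)
    (W : Set (E × E)) (hW : IsOpen W) (hSW : ∀ z ∈ Cot N, H z = c → z ∈ W)
    (hL : ∀ z ∈ Cot N, z ∈ W → Y z ∈ Tan (Cot N) z ∧
      ∀ v ∈ Tan (Cot N) z, omega (Y z) v = ⟪z.2 + θ z.1, v.1⟫_ℝ + fderiv ℝ β z v)
    (hout : ∀ z ∈ Cot N, H z = c → 0 < fderiv ℝ H z (Y z)) :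
    ∃ (z : ℝ → E × E) (T : ℝ), IsOrbit N H z ∧ 0 < T ∧ (∀ t, z (t + T) = z t) ∧
      ∀ t, H (z t) = c := by
  obtain ⟨R, rfl⟩ := exists_ret N hN hc
  obtain ⟨z0, hz0, hlt⟩ : ∃ z0 ∈ Cot R.S, H z0 < c := by
    by_contra hcon
    push Not at hcon
    obtain ⟨z, hz, hzc⟩ := hne
    have h1 := Tan.fderiv_eq_zero (hL z hz (hSW z hz hzc)).1 (hH.differentiable (by simp) z)
      (Or.inl (Eventually.of_forall fun y hy => hzc ▸ hcon y hy))
    exact (hout z hz hzc).ne' h1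
  obtain ⟨s, hs⟩ : ∃ s : E → E, s = fun x => R.P x (θ x - (z0.2 + θ z0.1)) := ⟨_, rfl⟩
  have hS : Shift R s := hs ▸ shift_proj R hθ hcl _
  have hS' := hS.neg
  have hβ' : ContDiff ℝ ∞ fun z : E × E => ⟪z0.2 + θ z0.1, z.1⟫_ℝ :=
    contDiff_const.inner ℝ contDiff_fst
  obtain ⟨z, T, h1, h2, h3, h4⟩ := collar R hp γ hγ (H ∘ tr (-s)) (hH.comp (tr_smooth hS'.smooth)) c
    (by
      have : {z | z ∈ Cot R.S ∧ (H ∘ tr (-s)) z ≤ c} = tr s '' {z | z ∈ Cot R.S ∧ H z ≤ c} := by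
        ext z
        constructor
        · rintro ⟨a, b⟩
          exact ⟨tr (-s) z, ⟨hS'.mem a, b⟩, tr_tr_neg s z⟩
        · rintro ⟨w, ⟨a, b⟩, rfl⟩
          exact ⟨hS.mem a, by rwa [Function.comp_apply, tr_neg_tr]⟩
      rw [this]
      exact hV.image (tr_smooth hS.smooth).continuous)
    (fun z => dtr s z.1 (Y (tr (-s) z)))
    (by
      have a1 : ContDiff ℝ ∞ fun z : E × E => Y (tr (-s) z) := hY.comp (tr_smooth hS'.smooth)
      have a2 : ContDiff ℝ ∞ (fderiv ℝ s) := hS.smooth.fderiv_right (by simp)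
      exact a1.fst.prodMk (a1.snd.add ((a2.comp contDiff_fst).clm_apply a1.fst)))
    (fun z => (β ∘ tr (-s)) z + ⟪z0.2 + θ z0.1, z.1⟫_ℝ)
    ((hβ.comp (tr_smooth hS'.smooth)).add hβ')
    (tr (-s) ⁻¹' W) (hW.preimage (tr_smooth hS'.smooth).continuous)
    (fun z hz hzc => hSW _ (hS'.mem hz) hzc)
    (fun z hz hzW => by
      obtain ⟨a1, a2⟩ := hL _ (hS'.mem hz) hzW
      have a3 : dtr s z.1 (Y (tr (-s) z)) ∈ Tan (Cot R.S) z := by
        have := hS.tan_mem a1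
        rwa [tr_tr_neg] at this
      refine ⟨a3, fun v hv => ?_⟩
      have a4 := a2 _ (hS'.tan_mem hv)
      have a5 : fderiv ℝ (fun z : E × E => ⟪z0.2 + θ z0.1, z.1⟫_ℝ) z v
          = ⟪z0.2 + θ z0.1, v.1⟫_ℝ := by
        have : HasFDerivAt (fun z : E × E => ⟪z0.2 + θ z0.1, z.1⟫_ℝ)
            ((innerSL ℝ (z0.2 + θ z0.1)).comp (ContinuousLinearMap.fst ℝ E E)) z :=
          ((innerSL ℝ (z0.2 + θ z0.1)).comp (ContinuousLinearMap.fst ℝ E E)).hasFDerivAt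
        rw [this.fderiv]
        rfl
      have a6 : ⟪s z.1, v.1⟫_ℝ = ⟪θ z.1 - (z0.2 + θ z0.1), v.1⟫_ℝ := by
        rw [hs]
        simp only
        rw [R.P_symm hz.1, R.tan_cot_fst hz hv]
      rw [← hS'.omega_dtr hz a3 hv, dtr_neg_dtr, a4,
        fderiv_fun_add ((hβ.comp (tr_smooth hS'.smooth)).differentiable (by simp) z)
          (hβ'.differentiable (by simp) z), add_apply, a5,
        hS'.fderiv_comp_tr hβ]
      simp only [tr, dtr, Pi.neg_apply, inner_add_left, inner_neg_left, a6, inner_sub_left]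
      ring)
    (fun z hz hzc => by
      rw [hS'.fderiv_comp_tr hH, dtr_neg_dtr]
      exact hout _ (hS'.mem hz) hzc)
    z0.1 hz0.1
    (by
      have : tr (-s) (z0.1, 0) = z0 := by
        have a1 := ((R.mem_cot z0).1 hz0).2
        simp [tr, hs, a1]
      rwa [Function.comp_apply, this])
  exact ⟨fun t => tr (-s) (z t), T, hS'.orbit hH h1, h2, fun t => by simp only [h3], h4⟩

end Pool.Agent.Wein
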