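import Mathlib
import Pool.Agent.P.MP_e3ee0c_gt.WRk
import Pool.Agent.P.MP_e3ee0c_gt.WGeo

/-! Conformally symplectic injections with large factors do not fit in a compact set. -/

open Set Filter Topology
open scoped ContDiff InnerProductSpace

namespace Pool.Agent.Wein

section Volume

open MeasureTheory

variable {V : Type*} [NormedAddCommGroup V] [NormedSpace ℝ V]
  {F : Type*} [NormedAddCommGroup F] [NormedSpace ℝ F]
  {ι : Type*} [Fintype ι] [DecidableEq ι]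

/-- The Gram determinant of a bilinear form pulled back along a linear map. -/
noncomputable def gramDet (b : Module.Basis ι ℝ F) (Ω : V →L[ℝ] V →L[ℝ] ℝ) (A : F →L[ℝ] V) : ℝ :=
  (Matrix.of fun i j => Ω (A (b i)) (A (b j))).det

lemma gramDet_eq (b : Module.Basis ι ℝ F) (Ω : V →L[ℝ] V →L[ℝ] ℝ) (A : F →L[ℝ] V) :
    gramDet b Ω A = (LinearMap.BilinForm.toMatrix b
      (Ω.toBilinForm.comp (A : F →ₗ[ℝ] V) (A : F →ₗ[ℝ] V))).det := by
  unfold gramDet
  congr 1
  ext i j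
  simp [LinearMap.BilinForm.toMatrix_apply]

lemma gramDet_comp (b : Module.Basis ι ℝ F) (Ω : V →L[ℝ] V →L[ℝ] ℝ) (S : F →L[ℝ] V)
    (B : F →L[ℝ] F) : gramDet b Ω (S.comp B) = B.det ^ 2 * gramDet b Ω S := by
  rw [gramDet_eq, gramDet_eq]
  have h : Ω.toBilinForm.comp (S.comp B : F →ₗ[ℝ] V) (S.comp B : F →ₗ[ℝ] V) =
      (Ω.toBilinForm.comp (S : F →ₗ[ℝ] V) (S : F →ₗ[ℝ] V)).comp (B : F →ₗ[ℝ] F)
        (B : F →ₗ[ℝ] F) := by
    ext u v
    simp
  rw [h, LinearMap.BilinForm.toMatrix_comp b b, Matrix.det_mul, Matrix.det_mul,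
    Matrix.det_transpose, LinearMap.det_toMatrix]
  unfold ContinuousLinearMap.det
  ring

lemma gramDet_continuous (b : Module.Basis ι ℝ F) (Ω : V →L[ℝ] V →L[ℝ] ℝ) :
    Continuous (gramDet b Ω) := by
  unfold gramDet
  refine Continuous.matrix_det (continuous_matrix fun i j => ?_)
  simp only [Matrix.of_apply]
  fun_prop

lemma gramDet_smul (b : Module.Basis ι ℝ F) (Ω : V →L[ℝ] V →L[ℝ] ℝ) (A A' : F →L[ℝ] V) (l : ℝ)
    (h : ∀ u v, Ω (A' u) (A' v) = l * Ω (A u) (A v)) :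
    gramDet b Ω A' = l ^ Fintype.card ι * gramDet b Ω A := by
  unfold gramDet
  rw [← Matrix.det_smul]
  congr 1
  ext i j
  simp [h]

lemma gramDet_ne_zero (b : Module.Basis ι ℝ F) (Ω : V →L[ℝ] V →L[ℝ] ℝ) (A : F →L[ℝ] V)
    (h : ∀ u, (∀ v, Ω (A u) (A v) = 0) → u = 0) : gramDet b Ω A ≠ 0 := by
  intro h0
  obtain ⟨c, hc, hv⟩ := Matrix.exists_vecMul_eq_zero_iff.2 h0
  apply hc
  have h1 : ∀ j, Ω (A (∑ i, c i • b i)) (A (b j)) = 0 := by
    intro j
    have := congrFun hv j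
    simpa [Matrix.vecMul, dotProduct, map_sum] using this
  have h2 : ∑ i, c i • b i = 0 := by
    apply h
    intro v
    have e : A v = ∑ j, b.repr v j • A (b j) := by
      conv_lhs => rw [← b.sum_repr v]
      simp only [map_sum, map_smul]
    rw [e, map_sum]
    refine Finset.sum_eq_zero fun j _ => ?_
    rw [map_smul, h1, smul_zero]
  funext i
  exact Fintype.linearIndependent_iff.1 b.linearIndependent c h2 i

lemma gramDet_eq_zero (b : Module.Basis ι ℝ F) (Ω : V →L[ℝ] V →L[ℝ] ℝ) (A : F →L[ℝ] V)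
    {u : F} (hu : u ≠ 0) (h : A u = 0) : gramDet b Ω A = 0 := by
  apply Matrix.exists_vecMul_eq_zero_iff.1
  refine ⟨fun i => b.repr u i, ?_, ?_⟩
  · intro h0
    apply hu
    rw [← b.sum_repr u]
    refine Finset.sum_eq_zero fun i _ => ?_
    rw [congrFun h0 i]
    simp
  · funext j
    have h1 : Ω (A (∑ i, b.repr u i • b i)) (A (b j)) = 0 := by
      rw [b.sum_repr u, h]
      simp
    simp only [map_sum, map_smul, sum_apply, smul_apply,
      smul_eq_mul] at h1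
    simpa [Matrix.vecMul, dotProduct] using h1

lemma gramDet_le [FiniteDimensional ℝ F] (b : Module.Basis ι ℝ F) (Ω : V →L[ℝ] V →L[ℝ] ℝ)
    (m : ℝ) (hm : 0 ≤ m) :
    ∃ C : ℝ, 0 < C ∧ ∀ (A : F →L[ℝ] V) (κ : V →L[ℝ] F), (∀ a, ‖A a‖ ≤ m * ‖κ (A a)‖) →
      |gramDet b Ω A| ≤ C * (κ.comp A).det ^ 2 := by
  set β : ℝ := ∑ i, ‖b i‖ with hβ
  have hβ0 : 0 ≤ β := Finset.sum_nonneg fun i _ => norm_nonneg _
  have hb : ∀ i, ‖b i‖ ≤ β := fun i =>
    Finset.single_le_sum (f := fun i => ‖b i‖) (fun i _ => norm_nonneg _) (Finset.mem_univ i)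
  set x : ℝ := ‖Ω‖ * (m * β) * (m * β) with hx
  have hx0 : 0 ≤ x := by positivity
  refine ⟨(Fintype.card ι).factorial * x ^ Fintype.card ι + 1, by positivity, ?_⟩
  intro A κ hA
  by_cases hdet : (κ.comp A).det = 0
  · obtain ⟨u, hu, hu0⟩ : ∃ u, u ≠ 0 ∧ κ (A u) = 0 := by
      have h1 := LinearMap.bot_lt_ker_of_det_eq_zero hdet
      obtain ⟨u, hu1, hu2⟩ := SetLike.exists_of_lt h1
      exact ⟨u, by simpa using hu2, by simpa using hu1⟩
    have h2 := hA u
    rw [hu0, norm_zero, mul_zero] at h2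
    rw [gramDet_eq_zero b Ω A hu (norm_le_zero_iff.1 h2), hdet]
    simp
  · set B := (κ.comp A).toContinuousLinearEquivOfDetNeZero hdet with hB
    set S : F →L[ℝ] V := A.comp (B.symm : F →L[ℝ] F) with hS
    have hBa : ∀ a, B a = κ (A a) := fun a => rfl
    have h1 : A = S.comp (κ.comp A) := by
      ext a
      simp [hS, ← hBa]
    have h2 : ∀ a, ‖S a‖ ≤ m * ‖a‖ := by
      intro a
      have := hA (B.symm a)
      rw [← hBa, B.apply_symm_apply] at this
      exact this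
    have h3 : |gramDet b Ω S| ≤ (Fintype.card ι).factorial * x ^ Fintype.card ι := by
      have := Matrix.det_le (A := Matrix.of fun i j => Ω (S (b i)) (S (b j)))
        (abv := AbsoluteValue.abs) (x := x) (by
          intro i j
          have e1 : ‖S (b i)‖ ≤ m * β := (h2 _).trans (mul_le_mul_of_nonneg_left (hb i) hm)
          have e2 : ‖S (b j)‖ ≤ m * β := (h2 _).trans (mul_le_mul_of_nonneg_left (hb j) hm)
          have e3 := Ω.le_opNorm₂ (S (b i)) (S (b j))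
          simp only [AbsoluteValue.abs_apply, Matrix.of_apply]
          rw [Real.norm_eq_abs] at e3
          refine e3.trans ?_
          rw [hx]
          gcongr)
      simpa [gramDet] using this
    have h4 : gramDet b Ω A = (κ.comp A).det ^ 2 * gramDet b Ω S := by
      conv_lhs => rw [h1]
      exact gramDet_comp b Ω S _
    rw [h4, abs_mul, abs_of_nonneg (sq_nonneg _), mul_comm]
    gcongr
    linarith

lemma near_bound (G : GRet V) (w : V) :
    ∃ ρ : ℝ, 0 < ρ ∧ (∀ y ∈ G.S, ∀ y' ∈ G.S, dist y w ≤ ρ → dist y' w ≤ ρ →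
      fderiv ℝ G.r w y = fderiv ℝ G.r w y' → y = y') ∧
      ∀ y ∈ G.S, dist y w ≤ ρ → ∀ u ∈ Tan G.S y, ‖u‖ ≤ 2 * ‖fderiv ℝ G.r w u‖ := by
  have hc : Continuous (fderiv ℝ G.r) := G.smooth.continuous_fderiv (by simp)
  have hd : Differentiable ℝ G.r := G.smooth.differentiable (by simp)
  obtain ⟨δ, hδ, h⟩ := Metric.continuousAt_iff.1 (hc.continuousAt (x := w)) (1 / 2) (by norm_num)
  have hb : ∀ y ∈ Metric.closedBall w (δ / 2), ‖fderiv ℝ G.r y - fderiv ℝ G.r w‖ ≤ 1 / 2 := by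
    intro y hy
    have := h (x := y) (lt_of_le_of_lt (Metric.mem_closedBall.1 hy) (by linarith))
    rw [dist_eq_norm] at this
    exact this.le
  refine ⟨δ / 2, by linarith, ?_, ?_⟩
  · intro y hy y' hy' h1 h2 he
    have := (convex_closedBall w (δ / 2)).norm_image_sub_le_of_norm_fderiv_le'
      (𝕜 := ℝ) (fun z _ => hd z) hb (x := y') (y := y) h2 h1
    rw [G.fix y hy, G.fix y' hy', map_sub, he, sub_self, sub_zero] at this
    have h0 : ‖y - y'‖ = 0 := le_antisymm (by linarith [norm_nonneg (y - y')]) (norm_nonneg _)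
    exact sub_eq_zero.1 (norm_eq_zero.1 h0)
  · intro y hy h1 u hu
    have e := (G.tan_iff hy u).1 hu
    have h2 := (fderiv ℝ G.r y - fderiv ℝ G.r w).le_of_opNorm_le (hb y h1) u
    rw [sub_apply, e] at h2
    have h3 : ‖u‖ ≤ ‖u - fderiv ℝ G.r w u‖ + ‖fderiv ℝ G.r w u‖ := by
      simpa using norm_add_le (u - fderiv ℝ G.r w u) (fderiv ℝ G.r w u)
    linarith

/-- A small parametrised piece of the retract. -/
lemma exists_param (G : GRet V) (b : Module.Basis ι ℝ F) (Ω : V →L[ℝ] V →L[ℝ] ℝ) {z0 : V}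
    (hz0 : z0 ∈ G.S) (κ : V →L[ℝ] F) (j : F →L[ℝ] V) (h1 : ∀ a, κ (j a) = a)
    (h2 : ∀ v, j (κ v) = fderiv ℝ G.r z0 v)
    (hnd : ∀ v ∈ Tan G.S z0, (∀ u ∈ Tan G.S z0, Ω v u = 0) → v = 0) {K : Set V}
    (hint : ∀ᶠ y in 𝓝 z0, y ∈ G.S → y ∈ K) :
    ∃ (c : F → V) (ρ γ : ℝ), 0 < ρ ∧ 0 < γ ∧ Differentiable ℝ c ∧
      InjOn c (Metric.closedBall 0 ρ) ∧ ∀ a ∈ Metric.closedBall (0 : F) ρ, c a ∈ K ∧
        (∀ v, fderiv ℝ c a v ∈ Tan G.S (c a)) ∧ γ ≤ |gramDet b Ω (fderiv ℝ c a)| := by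
  have hd : Differentiable ℝ G.r := G.smooth.differentiable (by simp)
  set c : F → V := fun a => G.r (z0 + j a) with hc
  have hlin : ContDiff ℝ ∞ fun a : F => z0 + j a := contDiff_const.add j.contDiff
  have hcs : ContDiff ℝ ∞ c := G.smooth.comp hlin
  have hcd : Differentiable ℝ c := hcs.differentiable (by simp)
  have hD : ∀ a, fderiv ℝ c a = (fderiv ℝ G.r (z0 + j a)).comp j := by
    intro a
    exact ((hd (z0 + j a)).hasFDerivAt.comp a (j.hasFDerivAt.const_add z0)).fderiv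
  have hc0 : c 0 = z0 := by simp [hc, G.fix z0 hz0]
  have hD0 : fderiv ℝ c 0 = j := by
    ext a
    rw [hD]
    simp [← h2, h1]
  have hjt : ∀ a, j a ∈ Tan G.S z0 := by
    intro a
    rw [G.tan_iff hz0, ← h2, h1]
  have hg0 : gramDet b Ω (fderiv ℝ c 0) ≠ 0 := by
    rw [hD0]
    apply gramDet_ne_zero
    intro u hu
    have := hnd (j u) (hjt u) (by
      intro v hv
      rw [← (G.tan_iff hz0 v).1 hv, ← h2]
      exact hu _)
    rw [← h1 u, this, map_zero]
  have hDc : Continuous (fderiv ℝ c) := hcs.continuous_fderiv (by simp)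
  have hgc : Continuous fun a => |gramDet b Ω (fderiv ℝ c a)| :=
    ((gramDet_continuous b Ω).comp hDc).abs
  have hpos : 0 < |gramDet b Ω (fderiv ℝ c 0)| := abs_pos.2 hg0
  have e1 : ∀ᶠ a in 𝓝 (0 : F), |gramDet b Ω (fderiv ℝ c 0)| / 2 < |gramDet b Ω (fderiv ℝ c a)| :=
    hgc.continuousAt.eventually (lt_mem_nhds (by linarith))
  have e2 : ∀ᶠ a in 𝓝 (0 : F), z0 + j a ∈ G.W := by
    apply hlin.continuous.continuousAt.eventually
    simpa using G.isOpen.mem_nhds (G.sub hz0)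
  have e3 : ∀ᶠ a in 𝓝 (0 : F), c a ∈ G.S → c a ∈ K := by
    have : Tendsto c (𝓝 0) (𝓝 z0) := by
      rw [← hc0]
      exact hcs.continuous.tendsto 0
    exact this.eventually hint
  have e4 : ∀ᶠ a in 𝓝 (0 : F),
      ‖κ.comp (fderiv ℝ c a) - ContinuousLinearMap.id ℝ F‖ < 1 / 2 := by
    have hq : Continuous fun a => ‖κ.comp (fderiv ℝ c a) - ContinuousLinearMap.id ℝ F‖ := by
      fun_prop
    apply hq.continuousAt.eventually (gt_mem_nhds _)
    have : κ.comp (fderiv ℝ c 0) - ContinuousLinearMap.id ℝ F = 0 := by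
      ext a
      simp [hD0, h1]
    simp [this]
  obtain ⟨ρ, hρ, hall⟩ := Metric.eventually_nhds_iff.1 (e1.and (e2.and (e3.and e4)))
  have hall' : ∀ a ∈ Metric.closedBall (0 : F) (ρ / 2), _ := fun a ha =>
    hall (y := a) (lt_of_le_of_lt (Metric.mem_closedBall.1 ha) (by linarith))
  refine ⟨c, ρ / 2, |gramDet b Ω (fderiv ℝ c 0)| / 2, by linarith, by linarith, hcd, ?_, ?_⟩
  · intro a ha a' ha' he
    have := (convex_closedBall (0 : F) (ρ / 2)).norm_image_sub_le_of_norm_hasFDerivWithin_le'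
      (𝕜 := ℝ) (f := fun a => κ (c a)) (f' := fun a => κ.comp (fderiv ℝ c a))
      (φ := ContinuousLinearMap.id ℝ F) (C := 1 / 2)
      (fun z _ => (κ.hasFDerivAt.comp z (hcd z).hasFDerivAt).hasFDerivWithinAt)
      (fun z hz => (hall' z hz).2.2.2.le) ha' ha
    simp only [he, sub_self, zero_sub, norm_neg, ContinuousLinearMap.id_apply] at this
    have h0 : ‖a - a'‖ = 0 := le_antisymm (by linarith [norm_nonneg (a - a')]) (norm_nonneg _)
    exact sub_eq_zero.1 (norm_eq_zero.1 h0)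
  · intro a ha
    obtain ⟨a1, a2, a3, -⟩ := hall' a ha
    refine ⟨a3 (G.maps a2), fun v => ?_, a1.le⟩
    rw [hD]
    exact G.fderiv_mem_tan a2 _

theorem no_expand_gen [FiniteDimensional ℝ F] [Nontrivial F] (G : GRet V)
    (Ω : V →L[ℝ] V →L[ℝ] ℝ)
    (hch : ∀ w ∈ G.S, ∃ (κ : V →L[ℝ] F) (j : F →L[ℝ] V), (∀ a, κ (j a) = a) ∧
      ∀ v, j (κ v) = fderiv ℝ G.r w v)
    (K : Set V) (hK : IsCompact K) (hKS : K ⊆ G.S) (z0 : V) (hz0 : z0 ∈ G.S)
    (hnd : ∀ v ∈ Tan G.S z0, (∀ u ∈ Tan G.S z0, Ω v u = 0) → v = 0)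
    (hint : ∀ᶠ y in 𝓝 z0, y ∈ G.S → y ∈ K) (φ : ℝ → V → V)
    (hφ : ∀ t, Differentiable ℝ (φ t)) (hinj : ∀ t, Function.Injective (φ t))
    (hcot : ∀ t, MapsTo (φ t) G.S G.S) (hmaps : ∀ t, 0 ≤ t → MapsTo (φ t) K K)
    (hconf : ∀ t, 0 ≤ t → ∀ z ∈ K, ∀ u ∈ Tan G.S z, ∀ v ∈ Tan G.S z,
      Ω (fderiv ℝ (φ t) z u) (fderiv ℝ (φ t) z v) = Real.exp t * Ω u v) : False := by
  classical
  borelize F
  set μ : Measure F := Measure.addHaar with hμ
  set b := Module.finBasis ℝ F with hb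
  have hd1 : 1 ≤ Fintype.card (Fin (Module.finrank ℝ F)) := by
    rw [Fintype.card_fin]
    exact Module.finrank_pos
  obtain ⟨κ0, j0, h01, h02⟩ := hch z0 hz0
  obtain ⟨c, ρ, γ, hρ, hγ, hcd, hcinj, hc⟩ := exists_param G b Ω hz0 κ0 j0 h01 h02 hnd hint
  set A : Set F := Metric.closedBall 0 ρ with hA
  have key : ∃ D : ENNReal, D ≠ ⊤ ∧ ∀ n : ℕ, n * μ (A ∩ (φ n ∘ c) ⁻¹' K) ≤ D := by
    refine hK.induction_on (p := fun S => ∃ D : ENNReal, D ≠ ⊤ ∧
      ∀ n : ℕ, n * μ (A ∩ (φ n ∘ c) ⁻¹' S) ≤ D) ⟨0, by simp, by simp⟩ ?_ ?_ ?_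
    · rintro S S' hS ⟨D, hD, h⟩
      refine ⟨D, hD, fun n => le_trans ?_ (h n)⟩
      gcongr
    · rintro S S' ⟨D, hD, h⟩ ⟨D', hD', h'⟩
      refine ⟨D + D', ENNReal.add_ne_top.2 ⟨hD, hD'⟩, fun n => ?_⟩
      rw [preimage_union, inter_union_distrib_left]
      calc (n : ENNReal) * μ (A ∩ (φ n ∘ c) ⁻¹' S ∪ A ∩ (φ n ∘ c) ⁻¹' S')
          ≤ n * (μ (A ∩ (φ n ∘ c) ⁻¹' S) + μ (A ∩ (φ n ∘ c) ⁻¹' S')) := by
            gcongr
            exact measure_union_le _ _
        _ ≤ D + D' := by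
            rw [mul_add]
            exact add_le_add (h n) (h' n)
    · intro w hw
      obtain ⟨κ, j, -, h2⟩ := hch w (hKS hw)
      obtain ⟨r, hr, hi, hl⟩ := near_bound G w
      obtain ⟨C, hC, hCle⟩ := gramDet_le b Ω (2 * ‖j‖) (by positivity)
      set S : Set V := K ∩ Metric.closedBall w r with hS
      have hSc : IsCompact S := hK.inter_right Metric.isClosed_closedBall
      have hfin : μ (κ '' S) ≠ ⊤ := (hSc.image κ.continuous).measure_lt_top.ne
      set L : ℝ := Real.sqrt (γ / C) / 2 with hL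
      have hLpos : 0 < L := by
        have := Real.sqrt_pos.2 (div_pos hγ hC)
        positivity
      refine ⟨S, inter_mem_nhdsWithin K (Metric.closedBall_mem_nhds w hr),
        ENNReal.ofReal L⁻¹ * μ (κ '' S), ENNReal.mul_ne_top ENNReal.ofReal_ne_top hfin,
        fun n => ?_⟩
      have hn0 : (0 : ℝ) ≤ n := Nat.cast_nonneg n
      have hgd : Differentiable ℝ (φ n ∘ c) := (hφ n).comp hcd
      set s : Set F := A ∩ (φ n ∘ c) ⁻¹' S with hs
      have hsm : MeasurableSet s :=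
        (Metric.isClosed_closedBall.inter (hSc.isClosed.preimage hgd.continuous)).measurableSet
      have hDg : ∀ a, fderiv ℝ (φ n ∘ c) a = (fderiv ℝ (φ n) (c a)).comp (fderiv ℝ c a) :=
        fun a => fderiv_comp a (hφ n _) (hcd _)
      have hdet : ∀ a ∈ s, L * n ≤ |(κ.comp (fderiv ℝ (φ n ∘ c) a)).det| := by
        rintro a ⟨ha, haS⟩
        obtain ⟨c1, c2, c3⟩ := hc a ha
        have t1 : ∀ v, fderiv ℝ (φ n ∘ c) a v ∈ Tan G.S (φ n (c a)) := by
          intro v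
          rw [hDg]
          exact Tan.map (c2 v) (hφ n _) (Eventually.of_forall fun y hy => hcot n hy)
        have t2 := hCle (fderiv ℝ (φ n ∘ c) a) κ (by
          intro v
          have k1 := hl _ (hKS haS.1) haS.2 _ (t1 v)
          rw [← h2] at k1
          have k2 := j.le_opNorm (κ (fderiv ℝ (φ n ∘ c) a v))
          linarith)
        have t3 := gramDet_smul b Ω (fderiv ℝ c a) (fderiv ℝ (φ n ∘ c) a) (Real.exp n) (by
          intro u v
          rw [hDg]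
          exact hconf n hn0 _ c1 _ (c2 u) _ (c2 v))
        have t4 : ((n : ℝ) / 2) ^ 2 ≤
            Real.exp n ^ Fintype.card (Fin (Module.finrank ℝ F)) := by
          have k1 : (n : ℝ) / 2 ≤ Real.exp (n / 2) := by
            linarith [Real.add_one_le_exp ((n : ℝ) / 2)]
          have k2 : ((n : ℝ) / 2) ^ 2 ≤ Real.exp n := by
            have : Real.exp n = Real.exp (n / 2) ^ 2 := by
              rw [← Real.exp_nat_mul]
              congr 1
              push_cast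
              ring
            rw [this]
            gcongr
          exact k2.trans (le_self_pow₀ (Real.one_le_exp hn0) (by omega))
        rw [t3, abs_mul, abs_of_nonneg (by positivity)] at t2
        have t5 : ((n : ℝ) / 2) ^ 2 * γ ≤ C * (κ.comp (fderiv ℝ (φ n ∘ c) a)).det ^ 2 :=
          le_trans (by gcongr) t2
        apply Real.le_sqrt_of_sq_le ?_ |>.trans (Real.sqrt_sq_eq_abs _).le
        have t6 : (L * n) ^ 2 = ((n : ℝ) / 2) ^ 2 * γ / C := by
          rw [hL, mul_pow, div_pow, Real.sq_sqrt (div_pos hγ hC).le]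
          ring
        rw [t6, div_le_iff₀ hC]
        linarith
      have hinjs : InjOn (fun a => κ ((φ n ∘ c) a)) s := by
        rintro a ⟨ha, haS⟩ a' ⟨ha', haS'⟩ he
        apply hcinj ha ha'
        apply hinj n
        apply hi _ (hKS haS.1) _ (hKS haS'.1) haS.2 haS'.2
        rw [← h2, ← h2]
        exact congrArg j he
      have hcv := lintegral_abs_det_fderiv_eq_addHaar_image μ hsm
        (f := fun a => κ ((φ n ∘ c) a)) (f' := fun a => κ.comp (fderiv ℝ (φ n ∘ c) a))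
        (fun a _ => (κ.hasFDerivAt.comp a (hgd a).hasFDerivAt).hasFDerivWithinAt) hinjs
      have hle : ENNReal.ofReal (L * n) * μ s ≤ μ (κ '' S) := by
        calc ENNReal.ofReal (L * n) * μ s = ∫⁻ _ in s, ENNReal.ofReal (L * n) ∂μ := by
              rw [setLIntegral_const]
          _ ≤ ∫⁻ a in s, ENNReal.ofReal |(κ.comp (fderiv ℝ (φ n ∘ c) a)).det| ∂μ :=
              setLIntegral_mono' hsm fun a ha => ENNReal.ofReal_le_ofReal (hdet a ha)
          _ = _ := hcv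
          _ ≤ μ (κ '' S) := by
              apply measure_mono
              rintro _ ⟨a, ha, rfl⟩
              exact ⟨_, ha.2, rfl⟩
      calc (n : ENNReal) * μ s = ENNReal.ofReal L⁻¹ * (ENNReal.ofReal (L * n) * μ s) := by
            rw [← mul_assoc, ← ENNReal.ofReal_mul (by positivity), ← mul_assoc,
              inv_mul_cancel₀ hLpos.ne', one_mul, ENNReal.ofReal_natCast]
        _ ≤ _ := by gcongr
  obtain ⟨D, hD, h⟩ := key
  have hApos : μ A ≠ 0 := (Metric.measure_closedBall_pos μ 0 hρ).ne'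
  obtain ⟨n, hn⟩ := ENNReal.exists_nat_mul_gt hApos hD
  have e : A ∩ (φ n ∘ c) ⁻¹' K = A :=
    inter_eq_left.2 fun a ha => hmaps n (Nat.cast_nonneg n) (hc a ha).1
  have := h n
  rw [e] at this
  exact absurd hn (not_lt.2 this)

end Volume

variable {E : Type} [NormedAddCommGroup E] [InnerProductSpace ℝ E] [FiniteDimensional ℝ E]

lemma Ret.exists_chart (R : Ret E) (n : ℕ) (hdim : ∀ x ∈ R.S, R.rk x = n) {w : E × E}
    (hw : w ∈ Cot R.S) :
    ∃ (κ : E × E →L[ℝ] (Fin n → ℝ) × (Fin n → ℝ)) (j : (Fin n → ℝ) × (Fin n → ℝ) →L[ℝ] E × E),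
      (∀ a, κ (j a) = a) ∧ ∀ v, j (κ v) = fderiv ℝ R.hat.r w v := by
  obtain ⟨hx, hp⟩ := (R.mem_cot w).1 hw
  set T := LinearMap.range (R.P w.1 : E →ₗ[ℝ] E) with hT
  have hfr : Module.finrank ℝ T = Module.finrank ℝ (Fin n → ℝ) := by
    rw [Module.finrank_fin_fun]
    exact hdim _ hx
  set e : T ≃L[ℝ] (Fin n → ℝ) := ContinuousLinearEquiv.ofFinrankEq hfr with he
  set q : E →L[ℝ] (Fin n → ℝ) :=
    (e : T →L[ℝ] (Fin n → ℝ)).comp ((R.P w.1).codRestrict T fun v => ⟨v, rfl⟩) with hq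
  set i : (Fin n → ℝ) →L[ℝ] E := T.subtypeL.comp (e.symm : (Fin n → ℝ) →L[ℝ] T) with hi
  have hPi : ∀ a, R.P w.1 (i a) = i a := by
    intro a
    obtain ⟨v, hv⟩ := (e.symm a).2
    have : i a = R.P w.1 v := hv.symm
    rw [this, R.P_idem hx]
  have hiq : ∀ v, i (q v) = R.P w.1 v := by
    intro v
    simp [hi, hq]
  have hqP : ∀ v, q (R.P w.1 v) = q v := by
    intro v
    simp only [hq, ContinuousLinearMap.comp_apply]
    congr 1
    exact Subtype.ext (R.P_idem hx v)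
  have hqi : ∀ a, q (i a) = a := by
    intro a
    have : (R.P w.1).codRestrict T (fun v => ⟨v, rfl⟩) (i a) = e.symm a := Subtype.ext (hPi a)
    simp only [hq, ContinuousLinearMap.comp_apply]
    rw [this]
    exact e.apply_symm_apply a
  refine ⟨q.prodMap q, (i.comp (ContinuousLinearMap.fst ℝ _ _)).prod
    ((((fderiv ℝ R.P w.1).flip w.2).comp (i.comp (ContinuousLinearMap.fst ℝ _ _))) +
      i.comp (ContinuousLinearMap.snd ℝ _ _)), ?_, ?_⟩
  · intro a
    have h0 : q (fderiv ℝ R.P w.1 (i a.1) w.2) = 0 := by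
      rw [← hqP, R.P_DP hx (hPi _) hp, map_zero]
    ext1
    · simp [hqi]
    · simp [hqi, h0]
  · intro v
    rw [R.fderiv_hat hw]
    simp [hiq]

theorem no_expand (R : Ret E) (n : ℕ) (hn : 0 < n) (hdim : ∀ x ∈ R.S, R.rk x = n)
    (K : Set (E × E)) (hK : IsCompact K) (hKS : K ⊆ Cot R.S) (z0 : E × E) (hz0 : z0 ∈ Cot R.S)
    (hint : ∀ᶠ y in 𝓝 z0, y ∈ Cot R.S → y ∈ K) (φ : ℝ → E × E → E × E)
    (hφ : ∀ t, Differentiable ℝ (φ t)) (hinj : ∀ t, Function.Injective (φ t))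
    (hcot : ∀ t, MapsTo (φ t) (Cot R.S) (Cot R.S)) (hmaps : ∀ t, 0 ≤ t → MapsTo (φ t) K K)
    (hconf : ∀ t, 0 ≤ t → ∀ z ∈ K, ∀ u ∈ Tan (Cot R.S) z, ∀ v ∈ Tan (Cot R.S) z,
      omega (fderiv ℝ (φ t) z u) (fderiv ℝ (φ t) z v) = Real.exp t * omega u v) : False := by
  have : Nonempty (Fin n) := ⟨⟨0, hn⟩⟩
  let B : E × E →L[ℝ] E × E →L[ℝ] ℝ := (innerSL ℝ : E →L[ℝ] E →L[ℝ] ℝ).bilinearComp
    (ContinuousLinearMap.snd ℝ E E) (ContinuousLinearMap.fst ℝ E E)
  have hΩ : ∀ u v : E × E, (B - B.flip) u v = omega u v := by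
    intro u v
    simp [B, omega]
  refine no_expand_gen (F := (Fin n → ℝ) × (Fin n → ℝ)) R.hat (B - B.flip)
    (fun w hw => R.exists_chart n hdim hw) K hK hKS z0 hz0 ?_ hint φ hφ hinj hcot hmaps ?_
  · intro v hv h
    exact R.omega_nondeg hz0 hv fun u hu => by rw [← hΩ]; exact h u hu
  · intro t ht z hz u hu v hv
    rw [hΩ, hΩ]
    exact hconf t ht z hz u hu v hv

end Pool.Agent.Wein
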