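import Mathlib
import Pool.Agent.P.MP_e3ee0c_gt.WVolA
import Pool.Agent.P.MP_e3ee0c_gt.WMain

/-! A Liouville field cannot point into a compact domain along its whole boundary. -/

open Set Filter Topology
open scoped ContDiff InnerProductSpace

namespace Pool.Agent.Wein

/-- The Lie derivative of a constant two-form along the field dual to a one-form. -/
lemma lie_gen {X : Type*} [NormedAddCommGroup X] [NormedSpace ℝ X] (G : GRet X)
    (B : X →L[ℝ] X →L[ℝ] ℝ) {Z : X → X} {DZ : X →L[ℝ] X} {α : X → X →L[ℝ] ℝ}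
    {Dα : X →L[ℝ] X →L[ℝ] ℝ} {x : X} (hx : x ∈ G.S) (hZ : HasFDerivAt Z DZ x)
    (hα : HasFDerivAt α Dα x)
    (h : ∀ᶠ y in 𝓝 x, y ∈ G.S → ∀ v ∈ Tan G.S y, B (Z y) v = α y v)
    {u v : X} (hu : u ∈ Tan G.S x) (hv : v ∈ Tan G.S x) :
    B (DZ u) v - B (DZ v) u = Dα u v - Dα v u := by
  have h1 : HasFDerivAt (fun y => B (Z y)) (B.comp DZ) x :=
    HasFDerivAt.comp x (g := fun y => B y) B.hasFDerivAt hZ
  have h2 : HasFDerivAt (fun y => B (Z y) - α y) (B.comp DZ - Dα) x :=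
    HasFDerivAt.fun_sub (F := X →L[ℝ] ℝ) h1 hα
  have key := G.dclosed _ hx h2.differentiableAt (by
    filter_upwards [h] with y hy hyS w hw
    change B (Z y) w - α y w = 0
    rw [hy hyS w hw, sub_self]) hu hv
  rw [h2.fderiv] at key
  change B (DZ u) v - Dα u v = B (DZ v) u - Dα v u at key
  linarith

lemma lie_tw {X : Type*} [NormedAddCommGroup X] [NormedSpace ℝ X] (G : GRet X)
    (B lam : X →L[ℝ] X →L[ℝ] ℝ) {Z f : X → X} (hZ : ContDiff ℝ ∞ Z) (hf : ContDiff ℝ ∞ f)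
    {β : X → ℝ} (hβ : ContDiff ℝ ∞ β) {x : X} (hx : x ∈ G.S)
    (h : ∀ᶠ y in 𝓝 x, y ∈ G.S → ∀ v ∈ Tan G.S y, B (Z y) v = lam (f y) v + fderiv ℝ β y v)
    {u v : X} (hu : u ∈ Tan G.S x) (hv : v ∈ Tan G.S x) :
    B (fderiv ℝ Z x u) v - B (fderiv ℝ Z x v) u =
      lam (fderiv ℝ f x u) v - lam (fderiv ℝ f x v) u := by
  have hZx : HasFDerivAt Z (fderiv ℝ Z x) x := (hZ.differentiable (by simp) x).hasFDerivAt
  have hfx : HasFDerivAt f (fderiv ℝ f x) x := (hf.differentiable (by simp) x).hasFDerivAt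
  have hβx : HasFDerivAt (fderiv ℝ β) (fderiv ℝ (fderiv ℝ β) x) x :=
    ((hβ.fderiv_right (m := ∞) (by simp)).differentiable (by simp) x).hasFDerivAt
  have h1 : HasFDerivAt (fun y => lam (f y)) (lam.comp (fderiv ℝ f x)) x :=
    HasFDerivAt.comp x (g := fun y => lam y) lam.hasFDerivAt hfx
  have h2 : HasFDerivAt (fun y => lam (f y) + fderiv ℝ β y)
      (lam.comp (fderiv ℝ f x) + fderiv ℝ (fderiv ℝ β) x) x :=
    HasFDerivAt.fun_add (F := X →L[ℝ] ℝ) h1 hβx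
  have key := lie_gen G B hx hZx h2 h hu hv
  have hs := (hβ.contDiffAt (x := x)).isSymmSndFDerivAt
    (by simp only [minSmoothness_of_isRCLikeNormedField]; exact WithTop.coe_le_coe.2 le_top)
  have hs' := hs.eq u v
  change B (fderiv ℝ Z x u) v - B (fderiv ℝ Z x v) u =
    lam (fderiv ℝ f x u) v + fderiv ℝ (fderiv ℝ β) x u v -
      (lam (fderiv ℝ f x v) u + fderiv ℝ (fderiv ℝ β) x v u) at key
  linarith

lemma exists_form {X : Type*} [NormedAddCommGroup X] [NormedSpace ℝ X]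
    (lam : X →L[ℝ] X →L[ℝ] ℝ) {f : X → X} (hf : ContDiff ℝ ∞ f) {β : X → ℝ}
    (hβ : ContDiff ℝ ∞ β) : ∃ α : X → X →L[ℝ] ℝ, ContDiff ℝ ∞ α ∧
      ∀ y v, α y v = lam (f y) v + fderiv ℝ β y v := by
  have h1 : ContDiff ℝ ∞ fun y => lam (f y) := lam.contDiff.comp hf
  have h2 : ContDiff ℝ ∞ (fderiv ℝ β) := hβ.fderiv_right (m := ∞) (by simp)
  exact ⟨fun y => lam (f y) + fderiv ℝ β y, h1.add h2, fun _ _ => rfl⟩

variable {E : Type} [NormedAddCommGroup E] [InnerProductSpace ℝ E] [FiniteDimensional ℝ E]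

/-- The Lie derivative of the symplectic form along a Liouville field with a closed term. -/
lemma omega_lie_closed (R : Ret E) {Z : E × E → E × E} (hZ : ContDiff ℝ ∞ Z) {β : E × E → ℝ}
    (hβ : ContDiff ℝ ∞ β) {θ : E → E} (hθ : ContDiff ℝ ∞ θ)
    (hcl : ∀ x ∈ R.S, ∀ u ∈ Tan R.S x, ∀ v ∈ Tan R.S x,
      ⟪fderiv ℝ θ x u, v⟫_ℝ = ⟪fderiv ℝ θ x v, u⟫_ℝ) {x : E × E} (hx : x ∈ Cot R.S)
    (h : ∀ᶠ y in 𝓝 x, y ∈ Cot R.S →
      ∀ v ∈ Tan (Cot R.S) y, omega (Z y) v = ⟪y.2 + θ y.1, v.1⟫_ℝ + fderiv ℝ β y v)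
    {u v : E × E} (hu : u ∈ Tan (Cot R.S) x) (hv : v ∈ Tan (Cot R.S) x) :
    omega (fderiv ℝ Z x u) v + omega u (fderiv ℝ Z x v) = omega u v := by
  obtain ⟨lam, hlam⟩ := exists_lam (E := E)
  obtain ⟨B, hB⟩ : ∃ B : (E × E) →L[ℝ] (E × E) →L[ℝ] ℝ, ∀ a b, B a b = omega a b :=
    ⟨lam - lam.flip, fun a b => by
      change lam a b - lam b a = _
      rw [hlam, hlam]
      rfl⟩
  have key := lie_tw R.hat B lam hZ (tr_smooth hθ) hβ hx (by
    filter_upwards [h] with y hy hyS w hw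
    rw [hB, hlam]
    exact hy hyS w hw) hu hv
  have hc := hcl x.1 hx.1 u.1 ((R.mem_tan hx.1 _).2 (R.tan_cot_fst hx hu)) v.1
    ((R.mem_tan hx.1 _).2 (R.tan_cot_fst hx hv))
  rw [hB, hB, hlam, hlam, fderiv_tr hθ, fderiv_tr hθ] at key
  simp only [dtr, inner_add_left] at key
  rw [omega_swap u (fderiv ℝ Z x v)]
  have e : omega u v = ⟪u.2, v.1⟫_ℝ - ⟪v.2, u.1⟫_ℝ := rfl
  linarith

/-- The symplectic dual of a smooth one-form. -/
lemma exists_dual (R : Ret E) (α : E × E → (E × E) →L[ℝ] ℝ) (hα : ContDiff ℝ ∞ α) :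
    ∃ g : E × E → E × E, ContDiff ℝ ∞ g ∧ ∀ z ∈ Cot R.S, ∀ u ∈ Tan (Cot R.S) z,
      omega (fderiv ℝ R.hat.r z (g z)) u = α z u := by
  have : CompleteSpace E := FiniteDimensional.complete ℝ E
  have hD : ContDiff ℝ ∞ (fderiv ℝ R.hat.r) := R.hat.smooth.fderiv_right (m := ∞) (by simp)
  obtain ⟨A, hAdef⟩ : ∃ A : E × E → (E × E) →L[ℝ] ℝ,
      A = fun z => (α z).comp (fderiv ℝ R.hat.r z) := ⟨_, rfl⟩
  have hA : ContDiff ℝ ∞ A := hAdef ▸ hα.clm_comp hD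
  have hAa : ∀ z u, A z u = α z (fderiv ℝ R.hat.r z u) := fun z u => by rw [hAdef]; rfl
  set T : (E →L[ℝ] ℝ) →L[ℝ] E :=
    (InnerProductSpace.toDual ℝ E).symm.toContinuousLinearEquiv.toContinuousLinearMap with hT
  have hTa : ∀ (l : E →L[ℝ] ℝ) (a : E), ⟪T l, a⟫_ℝ = l a := fun l a =>
    InnerProductSpace.toDual_symm_apply
  obtain ⟨g, hg, hg1, hg2⟩ : ∃ g : E × E → E × E, ContDiff ℝ ∞ g ∧
      (∀ z b, ⟪(g z).1, b⟫_ℝ = -A z (0, b)) ∧ ∀ z a, ⟪(g z).2, a⟫_ℝ = A z (a, 0) := by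
    refine ⟨fun z => (-T ((A z).comp (ContinuousLinearMap.inr ℝ E E)),
      T ((A z).comp (ContinuousLinearMap.inl ℝ E E))), ?_, fun z b => ?_, fun z a => ?_⟩
    · exact (T.contDiff.comp (hA.clm_comp contDiff_const)).neg.prodMk
        (T.contDiff.comp (hA.clm_comp contDiff_const))
    · simp [hTa]
    · simp [hTa]
  refine ⟨g, hg, fun z hz u hu => ?_⟩
  obtain ⟨hx, hp⟩ := (R.mem_cot z).1 hz
  have hu1 := R.tan_cot_fst hz hu
  have huu : fderiv ℝ R.hat.r z u = u := (R.hat.tan_iff hz u).1 hu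
  have h1 : ⟪u.2, R.P z.1 (g z).1⟫_ℝ = ⟪(g z).1, u.2⟫_ℝ := by
    rw [← R.P_symm hx, real_inner_comm, hg1, hg1, hAa, hAa, R.fderiv_hat hz, R.fderiv_hat hz]
    simp [R.P_idem hx]
  rw [R.fderiv_hat hz]
  simp only [omega, inner_add_left]
  rw [R.DP_normal hx (R.P_idem hx _) hp hu1, R.P_symm hx, hu1, h1, hg1, hg2]
  have h3 : A z u = A z (u.1, 0) + A z (0, u.2) := by
    rw [← map_add]
    simp
  rw [hAa z u, huu] at h3
  linarith

theorem not_inward (R : Ret E) (n : ℕ) (hn : 0 < n) (hdim : ∀ x ∈ R.S, R.rk x = n)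
    (H : E × E → ℝ) (hH : ContDiff ℝ ∞ H) (c : ℝ) (hne : ∃ z ∈ Cot R.S, H z < c)
    (hV : IsCompact {z | z ∈ Cot R.S ∧ H z ≤ c})
    (Y : E × E → E × E) (hY : ContDiff ℝ ∞ Y) (β : E × E → ℝ) (hβ : ContDiff ℝ ∞ β)
    (θ : E → E) (hθ : ContDiff ℝ ∞ θ)
    (hcl : ∀ x ∈ R.S, ∀ u ∈ Tan R.S x, ∀ v ∈ Tan R.S x,
      ⟪fderiv ℝ θ x u, v⟫_ℝ = ⟪fderiv ℝ θ x v, u⟫_ℝ)
    (W : Set (E × E)) (hW : IsOpen W) (hSW : ∀ z ∈ Cot R.S, H z = c → z ∈ W)
    (hL : ∀ z ∈ Cot R.S, z ∈ W → Y z ∈ Tan (Cot R.S) z ∧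
      ∀ v ∈ Tan (Cot R.S) z, omega (Y z) v = ⟪z.2 + θ z.1, v.1⟫_ℝ + fderiv ℝ β z v)
    (hin : ∀ z ∈ Cot R.S, H z = c → fderiv ℝ H z (Y z) < 0) : False := by
  have _ := hY
  have _ := hW
  obtain ⟨lam, hlam⟩ := exists_lam (E := E)
  obtain ⟨α, hα, hαa⟩ := exists_form lam (tr_smooth hθ) hβ
  obtain ⟨g0, hg0, hdual⟩ := exists_dual R α hα
  set K := {z | z ∈ Cot R.S ∧ H z ≤ c} with hK
  obtain ⟨χ, hχ, hχc, -, -, hχ1⟩ := exists_bump K univ hV isOpen_univ (subset_univ _)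
  have hg : ContDiff ℝ ∞ fun z => χ z • g0 z := hχ.smul hg0
  set Z : E × E → E × E := fun z => fderiv ℝ R.hat.r z (χ z • g0 z) with hZdef
  have hZ : ContDiff ℝ ∞ Z :=
    (R.hat.smooth.fderiv_right (m := ∞) (by simp)).clm_apply hg
  have hZc : HasCompactSupport Z := by
    refine hχc.mono fun z hz h => hz ?_
    simp [hZdef, h]
  obtain ⟨L, hLip⟩ := hZ.lipschitzWith_of_hasCompactSupport hZc (by simp)
  obtain ⟨Ψ, hΨ, h0, hd, hadd⟩ := exists_flow Z hZ L hLip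
  have hmem : ∀ t, ∀ x ∈ Cot R.S, Ψ (t, x) ∈ Cot R.S := fun t x hx =>
    R.hat.inv_global (fun s => Ψ (s, x)) (fun s => χ (Ψ (s, x)) • g0 (Ψ (s, x)))
      (hg.continuous.comp (hΨ.continuous.comp (continuous_id.prodMk continuous_const)))
      (fun s => hd s x) (by rw [h0]; exact hx) t
  have hom : ∀ y ∈ Cot R.S, χ y = 1 → ∀ v ∈ Tan (Cot R.S) y,
      omega (Z y) v = ⟪y.2 + θ y.1, v.1⟫_ℝ + fderiv ℝ β y v := fun y hy h1 v hv => by
    simp only [hZdef, h1, one_smul]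
    rw [hdual y hy v hv, hαa, hlam]
    rfl
  have hZY : ∀ y ∈ Cot R.S, H y = c → Z y = Y y := fun y hy hc => by
    obtain ⟨a1, a2⟩ := hL y hy (hSW y hy hc)
    have a3 : fderiv ℝ R.hat.r y (Z y) = Z y := R.hat.idem hy _
    have a4 : fderiv ℝ R.hat.r y (Y y) = Y y := (R.hat.tan_iff hy _).1 a1
    have a5 : Z y - Y y ∈ Tan (Cot R.S) y := (R.hat.tan_iff hy _).2 (by rw [map_sub, a3, a4])
    refine sub_eq_zero.1 (R.omega_nondeg hy a5 fun u hu => ?_)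
    have a6 := hom y hy (hχ1.self_of_nhdsSet y ⟨hy, hc.le⟩) u hu
    have a7 := a2 u hu
    simp only [omega, Prod.fst_sub, Prod.snd_sub, inner_sub_left, inner_sub_right] at a6 a7 ⊢
    linarith
  have hmaps : ∀ t, 0 ≤ t → ∀ x ∈ K, Ψ (t, x) ∈ K := fun t ht x hx => by
    refine ⟨hmem t x hx.1, ?_⟩
    have hder : ∀ s, HasDerivAt (fun s => H (Ψ (s, x)))
        (fderiv ℝ H (Ψ (s, x)) (Z (Ψ (s, x)))) s := fun s =>
      (hH.differentiable (by simp) _).hasFDerivAt.comp_hasDerivAt s (hd s x)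
    exact image_le_of_deriv_right_lt_deriv_boundary (a := 0) (b := t)
      (f := fun s => H (Ψ (s, x))) (fun s _ => (hder s).continuousAt.continuousWithinAt)
      (fun s _ => (hder s).hasDerivWithinAt) (B := fun _ => c) (B' := fun _ => 0)
      (by simpa [h0] using hx.2) (fun s => hasDerivAt_const s c)
      (fun s _ hs => by
        rw [hZY _ (hmem s x hx.1) hs]
        exact hin _ (hmem s x hx.1) hs) ⟨ht, le_rfl⟩
  have hsl : ∀ (t : ℝ) (x : E × E), HasFDerivAt (fun y => Ψ (t, y))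
      ((fderiv ℝ Ψ (t, x)).comp (ContinuousLinearMap.inr ℝ ℝ (E × E))) x := fun t x =>
    (hΨ.differentiable (by simp) _).hasFDerivAt.comp x (hasFDerivAt_prodMk_right t x)
  have htan : ∀ (t : ℝ) {x v : E × E}, v ∈ Tan (Cot R.S) x →
      fderiv ℝ Ψ (t, x) (0, v) ∈ Tan (Cot R.S) (Ψ (t, x)) := fun t x v hv => by
    have := Tan.map (S' := Cot R.S) hv (hsl t x).differentiableAt
      (Eventually.of_forall fun y hy => hmem t y hy)
    rwa [(hsl t x).fderiv] at this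
  have hzero : ∀ x v : E × E, fderiv ℝ Ψ (0, x) (0, v) = v := fun x v => by
    have h1 := hsl 0 x
    have h2 : (fun y => Ψ (0, y)) = id := funext h0
    rw [h2] at h1
    exact congrArg (fun M => M v) (h1.unique (hasFDerivAt_id x))
  obtain ⟨z0, hz0, hlt⟩ := hne
  refine no_expand R n hn hdim K hV (fun z hz => hz.1) z0 hz0 ?_ (fun t y => Ψ (t, y))
    (fun t x => (hsl t x).differentiableAt) (fun t a b hab => ?_) (fun t x hx => hmem t x hx)
    (fun t ht x hx => hmaps t ht x hx) (fun s hs z hz a ha b hb => ?_)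
  · filter_upwards [hH.continuous.continuousAt.eventually (gt_mem_nhds hlt)] with y hy hyS
    exact ⟨hyS, hy.le⟩
  · have h1 : Ψ (t, a) = Ψ (t, b) := hab
    have h2 : Ψ (-t + t, a) = Ψ (-t + t, b) := by rw [hadd, hadd, h1]
    rwa [neg_add_cancel, h0, h0] at h2
  · have hder : ∀ t ∈ Icc 0 s, HasDerivAt (fun t => Real.exp (-t) *
        omega (fderiv ℝ Ψ (t, z) (0, a)) (fderiv ℝ Ψ (t, z) (0, b))) 0 t := fun t ht => by
      have e1 := flow_var Z hZ Ψ hΨ hd z a t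
      have e2 := flow_var Z hZ Ψ hΨ hd z b t
      have e3 := omega_lie_closed R hZ hβ hθ hcl (hmem t z hz.1)
        (by
          filter_upwards [hχ1.filter_mono (nhds_le_nhdsSet (hmaps t ht.1 z hz))] with y hy hyS
          exact hom y hyS hy)
        (htan t ha) (htan t hb)
      have e4 := ((hasDerivAt_neg t).exp).mul (omega_der e1 e2)
      refine e4.congr_deriv ?_
      rw [e3]
      ring
    have h1 := constant_of_has_deriv_right_zero
      (fun t ht => (hder t ht).continuousAt.continuousWithinAt)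
      (fun t ht => (hder t (Ico_subset_Icc_self ht)).hasDerivWithinAt) s ⟨hs, le_rfl⟩
    simp only [hzero, neg_zero, Real.exp_zero, one_mul] at h1
    rw [(hsl s z).fderiv]
    simp only [ContinuousLinearMap.comp_apply, ContinuousLinearMap.inr_apply]
    rw [← h1, ← mul_assoc, ← Real.exp_add, add_neg_cancel, Real.exp_zero, one_mul]

end Pool.Agent.Wein
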