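import Mathlib
import Pool.Agent.P.MP_e3ee0c_gt.WRet
import Pool.Agent.P.MP_e3ee0c_gt.WIF

/-! Circle bundles with a connection: the descent of covectors. -/

open Set Filter Topology
open scoped ContDiff InnerProductSpace

namespace Pool.Agent.Wein

variable {E E' : Type} [NormedAddCommGroup E] [InnerProductSpace ℝ E] [FiniteDimensional ℝ E]
  [NormedAddCommGroup E'] [InnerProductSpace ℝ E'] [FiniteDimensional ℝ E']

/-- The transpose as a continuous linear map. -/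
theorem exists_adj : ∃ adj : (E' →L[ℝ] E) →L[ℝ] (E →L[ℝ] E'),
    ∀ A q u, ⟪adj A q, u⟫_ℝ = ⟪q, A u⟫_ℝ := by
  have := FiniteDimensional.complete ℝ E
  have := FiniteDimensional.complete ℝ E'
  let f : (E' →L[ℝ] E) →ₗ[ℝ] (E →L[ℝ] E') :=
    { toFun := fun A => ContinuousLinearMap.adjoint A
      map_add' := fun A B => map_add _ A B
      map_smul' := fun c A => by simp }
  exact ⟨LinearMap.toContinuousLinearMap f, fun A q u =>
    ContinuousLinearMap.adjoint_inner_left A u q⟩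

/-- A circle bundle with the vertical field ξ, the connection form α and the curvature b. -/
structure Bun (RP : Ret E') (RN : Ret E) (π : E' → E) (ξ α : E' → E')
    (b : E → E →L[ℝ] E →L[ℝ] ℝ) : Prop where
  πs : ContDiff ℝ ∞ π
  ξs : ContDiff ℝ ∞ ξ
  αs : ContDiff ℝ ∞ α
  bs : ContDiff ℝ ∞ b
  maps : ∀ x ∈ RP.S, π x ∈ RN.S
  onto : ∀ y ∈ RN.S, ∃ x ∈ RP.S, π x = y
  sub : ∀ x ∈ RP.S, ∀ w, RN.P (π x) w = w → ∃ u, RP.P x u = u ∧ fderiv ℝ π x u = w
  ξt : ∀ x ∈ RP.S, RP.P x (ξ x) = ξ x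
  ξk : ∀ x ∈ RP.S, fderiv ℝ π x (ξ x) = 0
  ker : ∀ x ∈ RP.S, ∀ u, RP.P x u = u → fderiv ℝ π x u = 0 → ∃ a : ℝ, u = a • ξ x
  one : ∀ x ∈ RP.S, ⟪α x, ξ x⟫_ℝ = 1
  curv : ∀ x ∈ RP.S, ∀ u v, RP.P x u = u → RP.P x v = v →
    ⟪fderiv ℝ α x u, v⟫_ℝ - ⟪fderiv ℝ α x v, u⟫_ℝ =
      b (π x) (fderiv ℝ π x u) (fderiv ℝ π x v)

namespace Bun

variable {RP : Ret E'} {RN : Ret E} {π : E' → E} {ξ α : E' → E'} {b : E → E →L[ℝ] E →L[ℝ] ℝ}
  (B : Bun RP RN π ξ α b)

include B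

omit [FiniteDimensional ℝ E] [FiniteDimensional ℝ E'] in
lemma Ds : ContDiff ℝ ∞ (fderiv ℝ π) := B.πs.fderiv_right (m := ∞) (by simp)

omit [FiniteDimensional ℝ E] [FiniteDimensional ℝ E'] in
lemma Dt {x u : E'} (hx : x ∈ RP.S) (hu : RP.P x u = u) :
    RN.P (π x) (fderiv ℝ π x u) = fderiv ℝ π x u :=
  (RN.mem_tan (B.maps x hx) _).1 (Tan.map ((RP.mem_tan hx u).2 hu)
    (B.πs.differentiable (by simp) x) (Eventually.of_forall B.maps))

omit [FiniteDimensional ℝ E] [FiniteDimensional ℝ E'] in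
lemma skew {y u : E} (hy : y ∈ RN.S) (hu : RN.P y u = u) : b y u u = 0 := by
  obtain ⟨x, hx, rfl⟩ := B.onto y hy
  obtain ⟨v, hv, rfl⟩ := B.sub x hx u hu
  rw [← B.curv x hx v v hv hv, sub_self]

omit [FiniteDimensional ℝ E] [FiniteDimensional ℝ E'] in
lemma ext {x : E'} (hx : x ∈ RP.S) {q q' : E} (hq : RN.P (π x) q = q) (hq' : RN.P (π x) q' = q')
    (h : ∀ u, RP.P x u = u → ⟪q, fderiv ℝ π x u⟫_ℝ = ⟪q', fderiv ℝ π x u⟫_ℝ) : q = q' := by
  obtain ⟨u, hu, e⟩ := B.sub x hx (q - q') (by rw [map_sub, hq, hq'])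
  have := h u hu
  rw [e, ← sub_eq_zero, ← inner_sub_left, inner_self_eq_zero] at this
  exact sub_eq_zero.1 this

/-- Covectors that kill the vertical field descend smoothly. -/
theorem exists_L : ∃ L : E' → E' →L[ℝ] E, ContDiff ℝ ∞ L ∧ ∀ x ∈ RP.S, ∀ c,
    RN.P (π x) (L x c) = L x c ∧
    (⟪c, ξ x⟫_ℝ = 0 → ∀ u, RP.P x u = u → ⟪L x c, fderiv ℝ π x u⟫_ℝ = ⟪c, u⟫_ℝ) := by
  have := FiniteDimensional.complete ℝ E
  obtain ⟨adj, hadj⟩ := exists_adj (E := E) (E' := E')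
  set A : E' → E' →L[ℝ] E := fun x => ((RN.P (π x)).comp (fderiv ℝ π x)).comp (RP.P x) with hA
  have hPs : ContDiff ℝ ∞ fun x => RN.P (π x) := RN.P_smooth.comp B.πs
  have hAs : ContDiff ℝ ∞ A := (hPs.clm_comp B.Ds).clm_comp RP.P_smooth
  set G : E' → E →L[ℝ] E := fun x => (A x).comp (adj (fderiv ℝ π x)) + (1 - RN.P (π x)) with hG
  have hGs : ContDiff ℝ ∞ G :=
    (hAs.clm_comp (adj.contDiff.comp B.Ds)).add (contDiff_const.sub hPs)
  have hAe : ∀ x ∈ RP.S, ∀ c, A x c = fderiv ℝ π x (RP.P x c) := fun x hx c =>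
    B.Dt hx (RP.P_idem hx c)
  have hGe : ∀ x ∈ RP.S, ∀ v, G x v =
      fderiv ℝ π x (RP.P x (adj (fderiv ℝ π x) v)) + (v - RN.P (π x) v) := fun x hx v => by
    rw [← hAe x hx]
    rfl
  have htan : ∀ x ∈ RP.S, ∀ v, RN.P (π x) (G x v) = G x v → RN.P (π x) v = v := fun x hx v h => by
    rw [hGe x hx, map_add, B.Dt hx (RP.P_idem hx _), map_sub, RN.P_idem (B.maps x hx), sub_self,
      add_right_inj, eq_comm, sub_eq_zero] at h
    exact h.symm
  have hu : ∀ x ∈ RP.S, IsUnit (G x) := fun x hx => by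
    have hi : Function.Injective (G x) := by
      rw [injective_iff_map_eq_zero]
      intro v hv
      have h1 := htan x hx v (by rw [hv, map_zero])
      rw [hGe x hx, h1, sub_self, add_zero] at hv
      have h2 : RP.P x (adj (fderiv ℝ π x) v) = 0 := by
        rw [← inner_self_eq_zero (𝕜 := ℝ), RP.P_symm hx, RP.P_idem hx, hadj, hv, inner_zero_right]
      refine B.ext hx h1 (map_zero _) fun u hu => ?_
      rw [← hadj, ← hu, ← RP.P_symm hx, h2, inner_zero_left, inner_zero_left]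
    exact ContinuousLinearMap.isUnit_iff_bijective.2
      ⟨hi, (LinearMap.injective_iff_surjective (f := (G x : E →ₗ[ℝ] E))).1 hi⟩
  have hO : IsOpen {x | IsUnit (G x)} := Units.isOpen.preimage hGs.continuous
  obtain ⟨χ, hχ, -, hχs, -, hχ1⟩ := exists_bump RP.S _ RP.compact hO hu
  have hI : ContDiffOn ℝ ∞ (fun x => (Ring.inverse (G x)).comp (A x)) {x | IsUnit (G x)} := by
    refine ContDiffOn.clm_comp (fun x hx => ?_) hAs.contDiffOn
    obtain ⟨g, hg⟩ := hx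
    have h1 : ContDiffAt ℝ ∞ Ring.inverse (G x) := hg ▸ contDiffAt_ringInverse ℝ g
    exact (h1.comp x hGs.contDiffAt).contDiffWithinAt
  refine ⟨_, contDiff_smul_cut _ hO χ hχ hχs _ hI, fun x hx c => ?_⟩
  simp only [hχ1.self_of_nhdsSet x hx, one_smul, ContinuousLinearMap.comp_apply]
  set q := Ring.inverse (G x) (A x c) with hq
  have h1 : G x q = A x c := by
    have := congrArg (fun M : E →L[ℝ] E => M (A x c)) (Ring.mul_inverse_cancel _ (hu x hx))
    exact this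
  have h2 : RN.P (π x) q = q := htan x hx q (by rw [h1, hAe x hx, B.Dt hx (RP.P_idem hx _)])
  refine ⟨h2, fun hc u hu' => ?_⟩
  rw [hGe x hx, h2, sub_self, add_zero, hAe x hx, ← sub_eq_zero, ← map_sub, ← map_sub] at h1
  obtain ⟨a, ha⟩ := B.ker x hx _ (RP.P_idem hx _) h1
  have h3 : a = 0 := by
    have h4 := congrArg (fun v => ⟪v, ξ x⟫_ℝ) ha
    simp only [RP.P_symm hx, B.ξt x hx, inner_sub_left, hadj, B.ξk x hx, inner_zero_right, hc,
      sub_self, inner_smul_left, conj_trivial] at h4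
    refine (mul_eq_zero.1 h4.symm).resolve_right fun h5 => ?_
    have h6 := B.one x hx
    rw [inner_self_eq_zero.1 h5, inner_zero_right] at h6
    exact zero_ne_one h6
  have h4 := congrArg (fun v => ⟪v, u⟫_ℝ) ha
  simp only [RP.P_symm hx, hu', inner_sub_left, hadj, h3, zero_smul, inner_zero_left] at h4
  linarith

end Bun

end Pool.Agent.Wein
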