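import Mathlib
import Pool.Agent.P.MP_e3ee0c_gt.TLin
import Pool.Agent.P.MP_e3ee0c_gt.TDefs

/-! The reduction map from the cotangent bundle of the total space. -/

open Set Filter Topology
open scoped ContDiff InnerProductSpace

namespace Pool.Agent.Wein

variable {E E' : Type} [NormedAddCommGroup E] [InnerProductSpace ℝ E]
  [NormedAddCommGroup E'] [InnerProductSpace ℝ E']

/-- The moment map of the vertical field. -/
noncomputable def mu (ξ : E' → E') (z : E' × E') : ℝ := ⟪z.2, ξ z.1⟫_ℝ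

/-- The choices needed for the reduction map. -/
structure Red (RP : Ret E') (RN : Ret E) (π : E' → E) (ξ α : E' → E')
    (b : E → E →L[ℝ] E →L[ℝ] ℝ) where
  B : Bun RP RN π ξ α b
  adj : (E' →L[ℝ] E) →L[ℝ] (E →L[ℝ] E')
  hadj : ∀ A q u, ⟪adj A q, u⟫_ℝ = ⟪q, A u⟫_ℝ
  L : E' → E' →L[ℝ] E
  Ls : ContDiff ℝ ∞ L
  hL : ∀ x ∈ RP.S, ∀ c, RN.P (π x) (L x c) = L x c ∧
    (⟪c, ξ x⟫_ℝ = 0 → ∀ u, RP.P x u = u → ⟪L x c, fderiv ℝ π x u⟫_ℝ = ⟪c, u⟫_ℝ)
  κ : ℝ → ℝ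
  κs : ContDiff ℝ ∞ κ
  hκ : ∀ t ∈ Ioo (1 / 2 : ℝ) (3 / 2), κ t * t = 1

variable {RP : Ret E'} {RN : Ret E} {π : E' → E} {ξ α : E' → E'} {b : E → E →L[ℝ] E →L[ℝ] ℝ}

theorem Bun.exists_red [FiniteDimensional ℝ E] [FiniteDimensional ℝ E']
    (B : Bun RP RN π ξ α b) : Nonempty (Red RP RN π ξ α b) := by
  obtain ⟨adj, hadj⟩ := exists_adj (E := E) (E' := E')
  obtain ⟨L, Ls, hL⟩ := B.exists_L
  obtain ⟨ψ, hψ, -, hs, -, h1⟩ := exists_bump (Icc (1 / 2 : ℝ) (3 / 2)) (Ioi 0) isCompact_Icc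
    isOpen_Ioi fun t ht => lt_of_lt_of_le (by norm_num) ht.1
  refine ⟨⟨B, adj, hadj, L, Ls, hL, fun t => ψ t • t⁻¹, contDiff_smul_cut _ isOpen_Ioi ψ hψ hs _
    (contDiffOn_id.inv fun t ht => ne_of_gt ht), fun t ht => ?_⟩⟩
  rw [h1.self_of_nhdsSet t (Ioo_subset_Icc_self ht), one_smul]
  exact inv_mul_cancel₀ (by linarith [ht.1])

lemma mu_smooth (hξ : ContDiff ℝ ∞ ξ) : ContDiff ℝ ∞ (mu ξ) :=
  contDiff_snd.inner ℝ (hξ.comp contDiff_fst)

namespace Red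

variable (D : Red RP RN π ξ α b)

/-- The reduction map. -/
noncomputable def dn (z : E' × E') : E × E := (π z.1, D.L z.1 (D.κ (mu ξ z) • z.2 - α z.1))

/-- The covector over x with moment m that reduces to q. -/
noncomputable def up (k : ℝ × E' × E) : E' × E' :=
  (k.2.1, k.1 • RP.P k.2.1 (D.adj (fderiv ℝ π k.2.1) k.2.2 + α k.2.1))

/-- The Liouville form divided by the moment. -/
noncomputable def be (z v : E' × E') : ℝ := ⟪(D.dn z).2, fderiv ℝ π z.1 v.1⟫_ℝ + ⟪α z.1, v.1⟫_ℝ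

lemma dn_smooth : ContDiff ℝ ∞ D.dn :=
  (D.B.πs.comp contDiff_fst).prodMk ((D.Ls.comp contDiff_fst).clm_apply
    (((D.κs.comp (mu_smooth D.B.ξs)).smul contDiff_snd).sub (D.B.αs.comp contDiff_fst)))

lemma up_smooth : ContDiff ℝ ∞ D.up :=
  contDiff_snd.fst.prodMk (contDiff_fst.smul ((RP.P_smooth.comp contDiff_snd.fst).clm_apply
    (((D.adj.contDiff.comp (D.B.Ds.comp contDiff_snd.fst)).clm_apply contDiff_snd.snd).add
      (D.B.αs.comp contDiff_snd.fst))))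

lemma dn_mem {z : E' × E'} (hz : z.1 ∈ RP.S) : D.dn z ∈ Cot RN.S :=
  (RN.mem_cot _).2 ⟨D.B.maps _ hz, (D.hL _ hz _).1⟩

lemma up_mem {x : E'} (hx : x ∈ RP.S) (m : ℝ) (q : E) : D.up (m, x, q) ∈ Cot RP.S :=
  (RP.mem_cot _).2 ⟨hx, by simp only [up, map_smul, RP.P_idem hx]⟩

lemma inner_up {x u : E'} (hx : x ∈ RP.S) (hu : RP.P x u = u) (m : ℝ) (q : E) :
    ⟪(D.up (m, x, q)).2, u⟫_ℝ = m * (⟪q, fderiv ℝ π x u⟫_ℝ + ⟪α x, u⟫_ℝ) := by
  simp only [up, inner_smul_left, conj_trivial, RP.P_symm hx, hu, inner_add_left, D.hadj]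

lemma mu_up {x : E'} (hx : x ∈ RP.S) (m : ℝ) (q : E) : mu ξ (D.up (m, x, q)) = m := by
  have := D.inner_up hx (D.B.ξt x hx) m q
  rw [D.B.ξk x hx, inner_zero_right, zero_add, D.B.one x hx, mul_one] at this
  exact this

lemma inner_eq {z : E' × E'} (hz : z.1 ∈ RP.S) (hm : mu ξ z ∈ Ioo (1 / 2 : ℝ) (3 / 2))
    {v : E' × E'} (hv : RP.P z.1 v.1 = v.1) : ⟪z.2, v.1⟫_ℝ = mu ξ z * D.be z v := by
  have h1 := D.hκ _ hm
  have h2 := (D.hL _ hz (D.κ (mu ξ z) • z.2 - α z.1)).2 (by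
    rw [inner_sub_left, inner_smul_left, D.B.one _ hz, conj_trivial, sub_eq_zero]
    exact h1) v.1 hv
  rw [inner_sub_left, inner_smul_left, conj_trivial] at h2
  simp only [be, dn, h2]
  linear_combination (-⟪z.2, v.1⟫_ℝ) * h1

lemma dn_up {x : E'} (hx : x ∈ RP.S) {m : ℝ} (hm : m ∈ Ioo (1 / 2 : ℝ) (3 / 2)) {q : E}
    (hq : RN.P (π x) q = q) : D.dn (D.up (m, x, q)) = (π x, q) := by
  refine Prod.ext rfl (D.B.ext hx (D.hL x hx _).1 hq fun u hu => ?_)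
  have h1 := D.inner_eq (z := D.up (m, x, q)) (v := (u, 0)) hx (by rwa [D.mu_up hx]) hu
  rw [D.mu_up hx] at h1
  have h2 := D.inner_up hx hu m q
  have h3 : m ≠ 0 := by linarith [hm.1]
  have h4 := mul_left_cancel₀ h3 (h1.symm.trans h2)
  exact add_right_cancel h4

lemma up_dn {z : E' × E'} (hz : z ∈ Cot RP.S) (hm : mu ξ z ∈ Ioo (1 / 2 : ℝ) (3 / 2)) :
    D.up (mu ξ z, z.1, (D.dn z).2) = z := by
  refine Prod.ext rfl ?_
  have h1 := ((RP.mem_cot _).1 (D.up_mem hz.1 (mu ξ z) (D.dn z).2)).2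
  have h2 := ((RP.mem_cot _).1 hz).2
  have h3 : RP.P z.1 ((D.up (mu ξ z, z.1, (D.dn z).2)).2 - z.2) =
      (D.up (mu ξ z, z.1, (D.dn z).2)).2 - z.2 := by
    rw [map_sub, h2]
    exact congrArg (· - z.2) h1
  rw [← sub_eq_zero, ← inner_self_eq_zero (𝕜 := ℝ), inner_sub_left, D.inner_up hz.1 h3,
    D.inner_eq (v := (_, 0)) hz.1 hm h3]
  exact sub_self _

lemma fderiv_dn_fst (z u : E' × E') : (fderiv ℝ D.dn z u).1 = fderiv ℝ π z.1 u.1 := by
  have h1 := (D.dn_smooth.differentiable (by simp) z).hasFDerivAt.fst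
  have h2 := (D.B.πs.differentiable (by simp) z.1).hasFDerivAt.comp z hasFDerivAt_fst
  exact congrArg (fun l => l u) (h1.unique h2)

lemma dn_tan {z u : E' × E'} (hu : u ∈ Tan (Cot RP.S) z) :
    fderiv ℝ D.dn z u ∈ Tan (Cot RN.S) (D.dn z) :=
  Tan.map hu (D.dn_smooth.differentiable (by simp) z)
    (Eventually.of_forall fun _ hy => D.dn_mem hy.1)

/-- Tangent vectors can be lifted. -/
lemma lift {z : E' × E'} (hz : z ∈ Cot RP.S) (hm : mu ξ z ∈ Ioo (1 / 2 : ℝ) (3 / 2)) (a : ℝ)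
    {u1 : E'} (hu : RP.P z.1 u1 = u1) {w : E × E} (hw : w ∈ Tan (Cot RN.S) (D.dn z))
    (he : fderiv ℝ π z.1 u1 = w.1) : ∃ u ∈ Tan (Cot RP.S) z, u.1 = u1 ∧
      fderiv ℝ (mu ξ) z u = a ∧ fderiv ℝ D.dn z u = w := by
  have hy := D.dn_mem hz.1
  obtain ⟨x, x0, hxS, hx⟩ := (RP.mem_tan hz.1 u1).2 hu
  have hπ : HasDerivAt (fun t => π (x t)) w.1 0 := by
    have := (D.B.πs.differentiable (by simp) (x 0)).hasFDerivAt.comp_hasDerivAt 0 hx
    rwa [x0, he] at this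
  have hq : HasDerivAt (fun t : ℝ => (D.dn z).2 + t • w.2) w.2 0 := by
    simpa using ((hasDerivAt_id (0 : ℝ)).smul_const w.2).const_add (D.dn z).2
  set η : ℝ → E × E := fun t => RN.hat.r (π (x t), (D.dn z).2 + t • w.2) with hη
  have e0 : (π (x 0), (D.dn z).2 + (0 : ℝ) • w.2) = D.dn z := by
    rw [x0, zero_smul, add_zero]
    rfl
  have η0 : η 0 = D.dn z := by
    simp only [hη, e0]
    exact RN.hat.fix _ hy
  have dη : HasDerivAt η w 0 := by
    have := (RN.hat.smooth.differentiable (by simp)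
      (π (x 0), (D.dn z).2 + (0 : ℝ) • w.2)).hasFDerivAt.comp_hasDerivAt 0 (hπ.prodMk hq)
    rwa [e0, (RN.hat.tan_iff hy _).1 hw] at this
  have hmm : HasDerivAt (fun t : ℝ => mu ξ z + t * a) a 0 := by
    simpa using ((hasDerivAt_id (0 : ℝ)).mul_const a).const_add (mu ξ z)
  set k : ℝ → ℝ × E' × E := fun t => (mu ξ z + t * a, x t, (η t).2) with hk
  have dk : HasDerivAt k (a, u1, w.2) 0 := hmm.prodMk (hx.prodMk dη.snd)
  have c0 : D.up (k 0) = z := by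
    simp only [hk, zero_mul, add_zero, x0, η0]
    exact D.up_dn hz hm
  have dc := (D.up_smooth.differentiable (by simp) (k 0)).hasFDerivAt.comp_hasDerivAt 0 dk
  have hJ : ∀ᶠ t in 𝓝 (0 : ℝ), mu ξ z + t * a ∈ Ioo (1 / 2 : ℝ) (3 / 2) :=
    hmm.continuousAt.eventually (isOpen_Ioo.mem_nhds (by simpa using hm))
  refine ⟨_, ⟨D.up ∘ k, c0, hxS.mono fun t ht => D.up_mem ht _ _, dc⟩,
    HasDerivAt.unique dc.fst hx, ?_, ?_⟩
  · have h1 := ((mu_smooth D.B.ξs).differentiable (by simp)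
      (D.up (k 0))).hasFDerivAt.comp_hasDerivAt 0 dc
    rw [c0] at h1
    refine h1.unique (hmm.congr_of_eventuallyEq ?_)
    filter_upwards [hxS] with t ht
    exact D.mu_up ht _ _
  · have h1 := (D.dn_smooth.differentiable (by simp)
      (D.up (k 0))).hasFDerivAt.comp_hasDerivAt 0 dc
    rw [c0] at h1
    refine h1.unique (dη.congr_of_eventuallyEq ?_)
    filter_upwards [hxS, hJ] with t ht ht'
    have h2 : RN.r (π (x t)) = π (x t) := RN.fix _ (D.B.maps _ ht)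
    have h3 : η t = (π (x t), RN.P (π (x t)) ((D.dn z).2 + t • w.2)) := by
      simp only [hη, Ret.hat, h2]
    simp only [Function.comp, hk, h3]
    exact D.dn_up ht ht' (RN.P_idem (D.B.maps _ ht) _)

/-- The symplectic form upstairs in terms of the twisted form downstairs. -/
lemma form {z : E' × E'} (hz : z ∈ Cot RP.S) (hm : mu ξ z ∈ Ioo (1 / 2 : ℝ) (3 / 2))
    {u v : E' × E'} (hu : u ∈ Tan (Cot RP.S) z) (hv : v ∈ Tan (Cot RP.S) z) :
    omega u v = fderiv ℝ (mu ξ) z u * D.be z v - fderiv ℝ (mu ξ) z v * D.be z u +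
      mu ξ z * omegaM b (D.dn z) (fderiv ℝ D.dn z u) (fderiv ℝ D.dn z v) := by
  have d1 := ((mu_smooth D.B.ξs).differentiable (by simp) z).hasFDerivAt
  have d2 := (D.dn_smooth.differentiable (by simp) z).hasFDerivAt.snd
  have d3 := (D.B.Ds.differentiable (by simp) z.1).hasFDerivAt.comp z hasFDerivAt_fst
  have d4 := (D.B.αs.differentiable (by simp) z.1).hasFDerivAt.comp z hasFDerivAt_fst
  have d5 := (hasFDerivAt_snd (𝕜 := ℝ) (p := z)).sub
    (d1.smul (((D.adj.hasFDerivAt.comp z d3).clm_apply d2).add d4))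
  set W : E' × E' → E' := fun y =>
    y.2 - mu ξ y • (D.adj (fderiv ℝ π y.1) (D.dn y).2 + α y.1) with hW
  obtain ⟨j, hj⟩ : ∃ j : E' →L[ℝ] (E' × E') →L[ℝ] ℝ, ∀ p y, j p y = ⟪p, y.1⟫_ℝ :=
    ⟨((ContinuousLinearMap.compL ℝ (E' × E') E' ℝ).flip (ContinuousLinearMap.fst ℝ E' E')).comp
      (innerSL ℝ), fun p y => rfl⟩
  have d6 : HasFDerivAt (fun y => j (W y)) _ z :=
    HasFDerivAt.comp z (g := j) (f := W) j.hasFDerivAt d5
  have key := RP.hat.dclosed (fun y => j (W y)) hz d6.differentiableAt (by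
    filter_upwards [(mu_smooth D.B.ξs).continuous.continuousAt.eventually
      (isOpen_Ioo.mem_nhds hm)] with y hy hyS v hv
    rw [hj, hW]
    simp only [inner_sub_left, inner_smul_left, conj_trivial, inner_add_left, D.hadj]
    rw [D.inner_eq hyS.1 hy (RP.tan_cot_fst hyS hv)]
    exact sub_self _) hu hv
  rw [d6.fderiv] at key
  have hsym : IsSymmSndFDerivAt ℝ π z.1 :=
    D.B.πs.contDiffAt.isSymmSndFDerivAt (by
      rw [minSmoothness_of_isRCLikeNormedField]; exact ENat.LEInfty.out)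
  have h1 := hsym.eq u.1 v.1
  have h2 := D.B.curv z.1 hz.1 u.1 v.1 (RP.tan_cot_fst hz hu) (RP.tan_cot_fst hz hv)
  simp only [ContinuousLinearMap.comp_apply, hj, sub_apply,
    add_apply, smul_apply, ContinuousLinearMap.coe_snd',
    ContinuousLinearMap.coe_fst', ContinuousLinearMap.smulRight_apply,
    ContinuousLinearMap.flip_apply, Function.comp, inner_sub_left, inner_add_left,
    inner_smul_left, conj_trivial, D.hadj, Pi.add_apply] at key
  simp only [omegaM, omega, be, D.fderiv_dn_fst]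
  rw [h1] at key
  have h3 : (D.dn z).1 = π z.1 := rfl
  rw [h3, ← h2]
  linarith

end Red

end Pool.Agent.Wein
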