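import Mathlib
import Pool.Agent.P.MP_e3ee0c_gt.WFam
import Pool.Agent.P.MP_e3ee0c_gt.WTop

/-! Families of chains cut out by equations: definitions and algebra. -/

open Set Filter Topology
open scoped ContDiff InnerProductSpace

namespace Pool.Agent.Wein

variable {E : Type} [NormedAddCommGroup E] [InnerProductSpace ℝ E]

/-- Parameters: variables for the equations, and variables for the letters. -/
abbrev Pm (E : Type) : Type := (ℕ → E × ℝ) × (ℕ → E)

def sh (k M : ℕ) (v : Pm E) : Pm E := (fun i => v.1 (k + i), fun i => v.2 (M + i))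

/-- A family of chains with M letters on a domain, cut out by k equations. -/
structure Vc (E : Type) where
  k : ℕ
  M : ℕ
  Ω : Set (Pm E)
  q : Pm E → ℕ → E × ℝ
  c : Pm E → Ch E

section Alg

omit [NormedAddCommGroup E] [InnerProductSpace ℝ E]

lemma sh_sh (k M k' M' : ℕ) (v : Pm E) : sh k' M' (sh k M v) = sh (k + k') (M + M') v := by
  simp only [sh, add_assoc]

lemma Vc.ext' {α β : Vc E} (h1 : α.k = β.k) (h2 : α.M = β.M) (h3 : α.Ω = β.Ω) (h4 : α.q = β.q)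
    (h5 : α.c = β.c) : α = β := by
  cases α; cases β; simp_all

def Vc.mul (α β : Vc E) : Vc E where
  k := α.k + β.k
  M := α.M + β.M
  Ω := {v | v ∈ α.Ω ∧ sh α.k α.M v ∈ β.Ω}
  q v i := if i < α.k then α.q v i else β.q (sh α.k α.M v) (i - α.k)
  c v := cat α.M (α.c v) (β.c (sh α.k α.M v))

instance : Semigroup (Vc E) where
  mul := Vc.mul
  mul_assoc α β γ := by
    refine Vc.ext' (add_assoc _ _ _) (add_assoc _ _ _) ?_ ?_ ?_
    · ext v
      change (v ∈ α.Ω ∧ sh α.k α.M v ∈ β.Ω) ∧ sh (α.k + β.k) (α.M + β.M) v ∈ γ.Ω ↔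
        v ∈ α.Ω ∧ sh α.k α.M v ∈ β.Ω ∧ sh β.k β.M (sh α.k α.M v) ∈ γ.Ω
      rw [sh_sh, and_assoc]
    · funext v i
      change (if i < α.k + β.k then (if i < α.k then α.q v i else β.q (sh α.k α.M v) (i - α.k))
          else γ.q (sh (α.k + β.k) (α.M + β.M) v) (i - (α.k + β.k))) =
        if i < α.k then α.q v i else (if i - α.k < β.k then β.q (sh α.k α.M v) (i - α.k)
          else γ.q (sh β.k β.M (sh α.k α.M v)) (i - α.k - β.k))
      rw [sh_sh, Nat.sub_sub]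
      split_ifs <;> first | rfl | omega
    · funext v i
      change cat (α.M + β.M) (cat α.M (α.c v) (β.c (sh α.k α.M v)))
          (γ.c (sh (α.k + β.k) (α.M + β.M) v)) i =
        cat α.M (α.c v) (cat β.M (β.c (sh α.k α.M v)) (γ.c (sh β.k β.M (sh α.k α.M v)))) i
      rw [sh_sh]
      simp only [cat, Nat.sub_sub]
      split_ifs <;> first | rfl | omega

lemma Vc.mul_k (α β : Vc E) : (α * β).k = α.k + β.k := rfl

lemma Vc.mul_M (α β : Vc E) : (α * β).M = α.M + β.M := rfl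

lemma Vc.mem_mul {α β : Vc E} {v : Pm E} :
    v ∈ (α * β).Ω ↔ v ∈ α.Ω ∧ sh α.k α.M v ∈ β.Ω := Iff.rfl

lemma Vc.mul_q (α β : Vc E) (v : Pm E) (i : ℕ) :
    (α * β).q v i = if i < α.k then α.q v i else β.q (sh α.k α.M v) (i - α.k) := rfl

lemma Vc.mul_c (α β : Vc E) (v : Pm E) :
    (α * β).c v = cat α.M (α.c v) (β.c (sh α.k α.M v)) := rfl

open Classical in
/-- The family that is α on O and β off O. -/
noncomputable def Vc.uni (O : Set (Pm E)) (α β : Vc E) : Vc E where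
  k := α.k
  M := α.M
  Ω := {v | (v ∈ O ∧ v ∈ α.Ω) ∨ (v ∉ O ∧ v ∈ β.Ω)}
  q v := if v ∈ O then α.q v else β.q v
  c v := if v ∈ O then α.c v else β.c v

lemma Vc.mul_uni (O : Set (Pm E)) (γ α β : Vc E) :
    γ * Vc.uni O α β = Vc.uni (sh γ.k γ.M ⁻¹' O) (γ * α) (γ * β) := by
  refine Vc.ext' rfl rfl ?_ ?_ ?_
  · ext v
    simp only [Vc.mem_mul, Vc.uni, mem_ofPred_eq, mem_preimage]
    tauto
  · funext v i
    by_cases h : sh γ.k γ.M v ∈ O <;> simp [Vc.mul_q, Vc.uni, h]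
  · funext v
    by_cases h : sh γ.k γ.M v ∈ O <;> simp [Vc.mul_c, Vc.uni, h]

lemma Vc.uni_mul (O : Set (Pm E)) {α β : Vc E} (hk : β.k = α.k) (hM : β.M = α.M) (γ : Vc E) :
    Vc.uni O α β * γ = Vc.uni O (α * γ) (β * γ) := by
  refine Vc.ext' rfl rfl ?_ ?_ ?_
  · ext v
    simp only [Vc.mem_mul, Vc.uni, mem_ofPred_eq, hk, hM]
    tauto
  · funext v i
    by_cases h : v ∈ O <;> simp [Vc.mul_q, Vc.uni, h, hk, hM]
  · funext v
    by_cases h : v ∈ O <;> simp [Vc.mul_c, Vc.uni, h, hk, hM]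

end Alg

omit [InnerProductSpace ℝ E] in
lemma sh_cont (k M : ℕ) : Continuous (sh k M : Pm E → Pm E) := by
  unfold sh
  fun_prop

/-- The solutions of the equations. -/
def Vc.Zs (α : Vc E) : Set (Pm E) := {v | v ∈ α.Ω ∧ ∀ i < α.k, α.q v i = 0}

omit [InnerProductSpace ℝ E] in
lemma Vc.mem_Zs_mul {α β : Vc E} {v : Pm E} :
    v ∈ (α * β).Zs ↔ v ∈ α.Zs ∧ sh α.k α.M v ∈ β.Zs := by
  constructor
  · rintro ⟨⟨h1, h2⟩, h3⟩
    refine ⟨⟨h1, fun i hi => ?_⟩, h2, fun i hi => ?_⟩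
    · have := h3 i (by rw [Vc.mul_k]; omega)
      rwa [Vc.mul_q, if_pos hi] at this
    · have := h3 (α.k + i) (by rw [Vc.mul_k]; omega)
      rwa [Vc.mul_q, if_neg (by omega), Nat.add_sub_cancel_left] at this
  · rintro ⟨⟨h1, h3⟩, h2, h4⟩
    refine ⟨⟨h1, h2⟩, fun i hi => ?_⟩
    rw [Vc.mul_k] at hi
    rw [Vc.mul_q]
    split_ifs with h
    exacts [h3 i h, h4 _ (by omega)]

/-- The total domain of a family over W. -/
def dom {W : Type} (σ : W → Vc E) : Set (W × Pm E) := {p | p.2 ∈ (σ p.1).Ω}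

/-- The total set of solutions of a family over W. -/
def zer {W : Type} (σ : W → Vc E) : Set (W × Pm E) := {p | p.2 ∈ (σ p.1).Zs}

namespace Sys

variable (S : Sys E)

/-- The unit over the polygon p, with k trivial equations. -/
noncomputable def nrm (k M : ℕ) (p : ℕ → E) : Vc E :=
  ⟨k, M, univ, fun v => v.1, fun v => S.unit p v.2⟩

/-- The unit over the constant polygon. -/
noncomputable def cst (k M : ℕ) (x : E) : Vc E := S.nrm k M fun _ => x

lemma nrm_mul (k M k' M' : ℕ) (p p' : ℕ → E) : S.nrm k M p * S.nrm k' M' p' =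
    S.nrm (k + k') (M + M') fun i => if i < M then p i else p' (i - M) := by
  refine Vc.ext' rfl rfl ?_ ?_ ?_
  · ext v
    simp [Vc.mem_mul, nrm]
  · funext v i
    simp only [Vc.mul_q, nrm, sh]
    split_ifs with h
    · rfl
    · rw [Nat.add_sub_cancel' (not_lt.1 h)]
  · funext v i
    simp only [Vc.mul_c, nrm, sh, cat, unit]
    split_ifs with h
    · rfl
    · rw [Nat.add_sub_cancel' (not_lt.1 h)]

lemma cst_mul (k M k' M' : ℕ) (x : E) :
    S.cst k M x * S.cst k' M' x = S.cst (k + k') (M + M') x := by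
  simp only [cst, nrm_mul, ite_self]

lemma cst_k (k M : ℕ) (x : E) : (S.cst k M x).k = k := rfl

lemma cst_M (k M : ℕ) (x : E) : (S.cst k M x).M = M := rfl

/-- The solutions whose chain has a value at least ℓ. -/
def top {W : Type} (σ : W → Vc E) (M : ℕ) (ℓ : ℝ) : Set (W × Pm E) :=
  {p | p ∈ zer σ ∧ ℓ ≤ S.Val M ((σ p.1).c p.2)}

/-- A family over W of chains from a to b below the level T whose solutions above the level
T - Δ form a closed set with bounded equation variables. -/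
structure Good {W : Type} [TopologicalSpace W] (σ : W → Vc E) (k M : ℕ) (T Δ : ℝ)
    (a b : W → E) : Prop where
  hk : ∀ w, (σ w).k = k
  hM : ∀ w, (σ w).M = M
  opn : IsOpen (dom σ)
  qc : ∀ i < k, ContinuousOn (fun p : W × Pm E => (σ p.1).q p.2 i) (dom σ)
  cc : ∀ i < M, ContinuousOn (fun p : W × Pm E => (σ p.1).c p.2 i) (dom σ)
  fam : S.IsFam (zer σ) (fun p => p.2.2) M T (fun p => a p.1) (fun p => b p.1)
    (fun p => (σ p.1).c p.2)
  bc : Continuous b
  cls : IsClosed (S.top σ M (T - Δ))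
  bdd : ∃ R : ℝ, ∀ p ∈ S.top σ M (T - Δ), ∀ i < k, ‖p.2.1 i‖ ≤ R

/-- All chains over solutions have value at most ℓ. -/
def Low (α : Vc E) (ℓ : ℝ) : Prop := ∀ v ∈ α.Zs, S.Val α.M (α.c v) ≤ ℓ

/-- A homotopy from α to β of closed chains at x, with domains in O. -/
def Htp (T Δ : ℝ) (x : E) (O : Set (Pm E)) (α β : Vc E) : Prop :=
  ∃ H : ℝ → Vc E, S.Good H α.k α.M T Δ (fun _ => x) (fun _ => x) ∧ (∀ u, (H u).Ω ⊆ O) ∧
    H 0 = α ∧ H 1 = β

/-- The family α can be pushed below the level ℓ. -/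
def Kill (T Δ : ℝ) (x : E) (O : Set (Pm E)) (α : Vc E) (ℓ : ℝ) : Prop :=
  ∃ β, S.Htp T Δ x O α β ∧ S.Low β ℓ

end Sys

open TopAux in
/-- The building blocks of the recursion. -/
structure Kit (S : Sys E) (x : E) (n0 m1 J : ℕ) (T1 T2 T3 ℓ Δ : ℝ) where
  bX : ℝ → E
  bY : ℝ → E
  plus : ℝ → Vc E
  minus : ℝ → Vc E
  mid : ℝ → Vc E
  rev : ℝ → Vc E
  up : ℝ → Vc E
  dn : ℝ → Vc E
  bk : ℝ → Vc E
  O : Set (Pm E)
  bXc : Continuous bX
  bYc : Continuous bY
  bXS : ∀ u, bX u ∈ S.S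
  bYS : ∀ u, bY u ∈ S.S
  bX0 : bX 0 = x
  bY0 : bY 0 = x
  bY1 : bY 1 = x
  plus_good : S.Good plus 1 n0 T1 Δ bX bX
  minus_good : S.Good minus 1 n0 T1 Δ bY bY
  plus_low : S.Low (plus 1) ℓ
  minus_low : S.Low (minus (-1)) ℓ
  minus_one : minus 1 = minus 0
  plus_dom : ∀ u, (plus u).Ω ⊆ O
  minus_dom : ∀ u, (minus u).Ω ⊆ Oᶜ
  mid_good : S.Good mid 1 n0 T1 Δ (fun _ => x) (fun u => bY (clamp u))
  mid_zero : mid 0 = S.cst 1 n0 x
  rev_good : S.Good rev 0 m1 T2 Δ (fun u => bY (clamp u)) (fun _ => x)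
  rev_zero : rev 0 = S.cst 0 m1 x
  split : S.Htp T1 Δ x univ (mid 1) (Vc.uni O (plus 0) (minus 0))
  up_good : S.Good up 0 J T3 Δ (fun _ => x) (fun u => bX (clamp u))
  up_zero : up 0 = S.cst 0 J x
  dn_good : S.Good dn 0 J T3 Δ (fun u => bX (clamp u)) (fun u => bY (-clamp u))
  dn_zero : dn 0 = S.cst 0 J x
  bk_good : S.Good bk 0 J T3 Δ (fun u => bY (-clamp u)) (fun _ => x)
  bk_zero : bk 0 = S.cst 0 J x

end Pool.Agent.Wein
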