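import Mathlib
import Pool.Agent.P.MP_e3ee0c_gt.XDefs

/-! Basic properties of good families. -/

open Set Filter Topology
open scoped ContDiff InnerProductSpace

namespace Pool.Agent.Wein

variable {E : Type} [NormedAddCommGroup E] [InnerProductSpace ℝ E]

namespace Sys

variable {S : Sys E}

/-- The value of a continuous family of valid chains is continuous. -/
lemma val_cont {X : Type} [TopologicalSpace X] {s : Set X} {M : ℕ} {c : X → Ch E}
    (hc : ∀ i < M, ContinuousOn (fun p => c p i) s) (hM : ContinuousOn (fun p => (c p M).1) s)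
    (hv : ∀ p ∈ s, S.Valid M (c p)) : ContinuousOn (fun p => S.Val M (c p)) s := by
  unfold Val ValT
  refine continuousOn_finsetSum _ fun i hi => ?_
  have hi := Finset.mem_range.mp hi
  have h1 := (hc i hi).fst
  have h2 := (hc i hi).snd.fst
  have h3 := (hc i hi).snd.snd
  have h4 : ContinuousOn (fun p => (c p (i + 1)).1) s := by
    rcases (Nat.succ_le_of_lt hi).lt_or_eq with h | h
    · exact (hc _ h).fst
    · have h' : i + 1 = M := h
      rw [h']
      exact hM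
  have hP : ContinuousOn (fun p => S.P (c p i).1 (c p i).2.2) s :=
    (S.P_smooth.continuous.comp_continuousOn h1).clm_apply h3
  unfold lett core Q
  refine ((ContinuousOn.add (ContinuousOn.add ?_ ?_) ?_).add ?_)
  · refine ContinuousOn.log (continuousOn_const.sub ((h1.sub h2).norm.pow 2)) fun p hp => ?_
    exact (sub_pos.mpr (hv p hp i hi).2.2.1).ne'
  · exact S.St.ws.continuous.comp_continuousOn (continuousOn_const.prodMk (h1.prodMk h2))
  · exact S.Br.gs.continuousOn.comp ((h2.sub h4).norm.pow 2) fun p hp => (hv p hp i hi).2.2.2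
  · exact (hP.norm.pow 2).sub ((h3.sub hP).norm.pow 2)

/-- A unit costs only at the steps where the polygon moves. -/
lemma unit_le_card {m : ℕ} {v : ℕ → E} (hv : ∀ i < m, v i ∈ S.S ∧ ‖v i - v (i + 1)‖ ≤ S.μ)
    (A : Finset ℕ) (hA : ∀ i < m, i ∉ A → v (i + 1) = v i) (P : ℕ → E) {τ : ℕ → ℝ}
    (hτ : ∀ i < m, τ i ∈ Icc 0 S.St.τ₀) :
    S.ValT τ m (S.unit v P) ≤ A.card * (S.St.τ₀ / 4) := by
  classical
  have hq : 0 ≤ S.St.τ₀ / 4 := by linarith [S.St.τpos]
  have h1 : S.ValT τ m (S.unit v P) ≤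
      ∑ i ∈ Finset.range m, if i ∈ A then S.St.τ₀ / 4 else 0 := by
    refine Finset.sum_le_sum fun i hi => ?_
    have hi := Finset.mem_range.mp hi
    split_ifs with h
    · exact S.un_le (hv i hi).1 (hv i hi).2 (P i) (hτ i hi)
    · have e : (S.unit v P (i + 1)).1 = v i := hA i hi h
      rw [e]
      exact S.un_le_zero (hv i hi).1 (P i) (hτ i hi)
  refine h1.trans ?_
  rw [← Finset.sum_filter, Finset.sum_const, nsmul_eq_mul]
  refine mul_le_mul_of_nonneg_right ?_ hq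
  exact_mod_cast Finset.card_le_card fun i hi => (Finset.mem_filter.mp hi).2

variable {W : Type} [TopologicalSpace W] {σ : W → Vc E} {k M : ℕ} {T Δ : ℝ} {a b : W → E}

/-- The closedness condition follows from a closed set between the high solutions and all
solutions. -/
lemma Good.of_cl (hk : ∀ w, (σ w).k = k) (hM : ∀ w, (σ w).M = M) (opn : IsOpen (dom σ))
    (qc : ∀ i < k, ContinuousOn (fun p : W × Pm E => (σ p.1).q p.2 i) (dom σ))
    (cc : ∀ i < M, ContinuousOn (fun p : W × Pm E => (σ p.1).c p.2 i) (dom σ))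
    (fam : S.IsFam (zer σ) (fun p => p.2.2) M T (fun p => a p.1) (fun p => b p.1)
      (fun p => (σ p.1).c p.2))
    (bc : Continuous b) (Cl : Set (W × Pm E)) (hCl : IsClosed Cl) (h1 : Cl ⊆ zer σ)
    (h2 : S.top σ M (T - Δ) ⊆ Cl) (R : ℝ) (hR : ∀ p ∈ Cl, ∀ i < k, ‖p.2.1 i‖ ≤ R) :
    S.Good σ k M T Δ a b := by
  have hV : ContinuousOn (fun p : W × Pm E => S.Val M ((σ p.1).c p.2)) (zer σ) :=
    val_cont fam.cont ((bc.comp continuous_fst).continuousOn.congr fun p hp => fam.tgt p hp)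
      fam.valid
  have e : S.top σ M (T - Δ) =
      Cl ∩ (fun p : W × Pm E => S.Val M ((σ p.1).c p.2)) ⁻¹' Ici (T - Δ) := by
    ext p
    exact ⟨fun hp => ⟨h2 hp, hp.2⟩, fun hp => ⟨h1 hp.1, hp.2⟩⟩
  refine ⟨hk, hM, opn, qc, cc, fam, bc, ?_, R, fun p hp => hR p (h2 hp)⟩
  rw [e]
  exact (hV.mono h1).preimage_isClosed_of_isClosed hCl isClosed_Ici

lemma Good.mono (h : S.Good σ k M T Δ a b) {T' : ℝ} (hT : T ≤ T') : S.Good σ k M T' Δ a b := by
  obtain ⟨R, hR⟩ := h.bdd
  exact Good.of_cl h.hk h.hM h.opn h.qc h.cc (h.fam.mono hT) h.bc _ h.cls (fun p hp => hp.1)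
    (fun p hp => ⟨hp.1, le_trans (by linarith) hp.2⟩) R hR

lemma Good.comp (h : S.Good σ k M T Δ a b) {W' : Type} [TopologicalSpace W'] {f : W' → W}
    (hf : Continuous f) :
    S.Good (fun w => σ (f w)) k M T Δ (fun w => a (f w)) (fun w => b (f w)) := by
  have hg : Continuous fun p : W' × Pm E => (f p.1, p.2) := by fun_prop
  obtain ⟨R, hR⟩ := h.bdd
  refine ⟨fun w => h.hk _, fun w => h.hM _, h.opn.preimage hg,
    fun i hi => (h.qc i hi).comp hg.continuousOn fun p hp => hp,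
    fun i hi => (h.cc i hi).comp hg.continuousOn fun p hp => hp,
    h.fam.comp hg.continuousOn (fun p hp => hp) (fun _ _ _ _ => rfl) (fun _ _ => rfl)
      (fun _ _ => rfl),
    h.bc.comp hf, h.cls.preimage hg, R, fun p hp => hR (f p.1, p.2) hp⟩

lemma Good.low (h : S.Good σ k M T Δ a b) (w : W) : S.Low (σ w) T := by
  intro v hv
  rw [h.hM]
  exact h.fam.le (w, v) hv

lemma Low.mono {α : Vc E} {ℓ ℓ' : ℝ} (h : S.Low α ℓ) (hℓ : ℓ ≤ ℓ') : S.Low α ℓ' :=
  fun v hv => (h v hv).trans hℓ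

lemma low_mul {σ' : W → Vc E} {k' M' : ℕ} {T' Δ' : ℝ} {d : W → E} (h : S.Good σ k M T Δ a b)
    (h' : S.Good σ' k' M' T' Δ' b d) (w : W) {ℓ ℓ' : ℝ} (h1 : S.Low (σ w) ℓ)
    (h2 : S.Low (σ' w) ℓ') : S.Low (σ w * σ' w) (ℓ + ℓ') := by
  intro v hv
  obtain ⟨hv1, hv2⟩ := Vc.mem_Zs_mul.1 hv
  have e1 := h.fam.tgt (w, v) hv1
  have e2 := h'.fam.src (w, sh (σ w).k (σ w).M v) hv2
  rw [Vc.mul_M, Vc.mul_c, S.val_cat _ _ _ _
    (by rw [h.hM w]; exact e1.trans (by rw [← h.hM w]; exact e2.symm))]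
  exact add_le_add (h1 v hv1) (h2 _ hv2)

lemma low_uni (O : Set (Pm E)) {α β : Vc E} (hk : β.k = α.k) (hM : β.M = α.M) {ℓ : ℝ}
    (h1 : S.Low α ℓ) (h2 : S.Low β ℓ) : S.Low (Vc.uni O α β) ℓ := by
  intro v hv
  by_cases h : v ∈ O
  · have hz : v ∈ α.Zs := by
      refine ⟨?_, fun i hi => ?_⟩
      · rcases hv.1 with h' | h'
        exacts [h'.2, absurd h h'.1]
      · simpa [Vc.uni, h] using hv.2 i hi
    simpa [Vc.uni, h] using h1 v hz
  · have hz : v ∈ β.Zs := by
      refine ⟨?_, fun i hi => ?_⟩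
      · rcases hv.1 with h' | h'
        exacts [absurd h'.1 h, h'.2]
      · simpa [Vc.uni, h] using hv.2 i (hk ▸ hi)
    simpa [Vc.uni, h, hM] using h2 v hz

/-- Units over continuous families of polygons. -/
lemma good_nrm (k M : ℕ) (Δ : ℝ) {v : W → ℕ → E} (hv : ∀ i ≤ M, Continuous fun w => v w i)
    (hs : ∀ w, ∀ i < M, v w i ∈ S.S ∧ ‖v w i - v w (i + 1)‖ ≤ S.μ) (A : Finset ℕ)
    (hA : ∀ w, ∀ i < M, i ∉ A → v w (i + 1) = v w i) (ha : ∀ w, v w 0 = a w)
    (hb : ∀ w, v w M = b w) :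
    S.Good (fun w => S.nrm k M (v w)) k M (A.card * (S.St.τ₀ / 4)) Δ a b := by
  have hP : ∀ i, Continuous fun p : W × Pm E => p.2.2 i := fun i => by fun_prop
  have hq : ∀ i, Continuous fun p : W × Pm E => p.2.1 i := fun i => by fun_prop
  have hv' : ∀ i < M, Continuous fun p : W × Pm E => v p.1 i := fun i hi =>
    (hv i hi.le).comp continuous_fst
  have hf := isFam_unit (S := S) (s := zer fun w => S.nrm k M (v w))
    (pr := fun p : W × Pm E => p.2.2) (v := fun p => v p.1) (a := fun p => a p.1)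
    (b := fun p => b p.1) (fun i hi => (hv' i hi).continuousOn) (fun i _ => (hP i).continuousOn)
    (fun p _ => hs p.1) (fun p _ => ha p.1) (fun p _ => hb p.1)
  have hz : (zer fun w => S.nrm k M (v w)) = ⋂ i, ⋂ (_ : i < k), {p | p.2.1 i = 0} := by
    ext p
    simp [zer, Vc.Zs, nrm]
  refine Good.of_cl (fun _ => rfl) (fun _ => rfl) ?_ (fun i _ => (hq i).continuousOn)
    (fun i hi => S.unit_cont (hv' i hi).continuousOn (hP i).continuousOn
      fun p _ => (hs p.1 i hi).1)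
    ⟨hf.cont, hf.valid, hf.src, hf.tgt, fun p _ => unit_le_card (hs p.1) A (hA p.1) _
      fun _ _ => ⟨S.St.τpos.le, le_rfl⟩, hf.proper⟩
    ((hv M le_rfl).congr hb) _ ?_ subset_rfl (fun p hp => hp.1) 0 fun p hp i hi => ?_
  · exact isOpen_univ
  · rw [hz]
    exact isClosed_iInter fun i => isClosed_iInter fun _ => isClosed_eq (hq i) continuous_const
  · have : p.2.1 i = 0 := hp.2 i hi
    rw [this, norm_zero]

lemma good_cst (k M : ℕ) (Δ : ℝ) (ha : Continuous a) (hs : ∀ w, a w ∈ S.S) :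
    S.Good (fun w => S.cst k M (a w)) k M 0 Δ a a := by
  have h := good_nrm (S := S) (a := a) (b := a) k M Δ (v := fun w _ => a w) (fun _ _ => ha)
    (fun w _ _ => ⟨hs w, by simpa using S.μpos.le⟩) ∅ (fun _ _ _ _ => rfl) (fun _ => rfl)
    (fun _ => rfl)
  simpa [cst] using h

end Sys

end Pool.Agent.Wein
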