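import Mathlib
import Pool.Agent.P.MP_e3ee0c_gt.XGoodA

/-! Products, pasting and unions of good families. -/

open Set Filter Topology
open scoped ContDiff InnerProductSpace

namespace Pool.Agent.Wein

variable {E : Type} [NormedAddCommGroup E] [InnerProductSpace ℝ E]

namespace Sys

variable {S : Sys E} {W : Type} [TopologicalSpace W] {σ σ' : W → Vc E} {k M : ℕ} {T Δ : ℝ}
  {a b : W → E}

lemma Good.mul {k' M' : ℕ} {T' : ℝ} {d : W → E} (h : S.Good σ k M T Δ a b)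
    (h' : S.Good σ' k' M' T' Δ b d) :
    S.Good (fun w => σ w * σ' w) (k + k') (M + M') (T + T') Δ a d := by
  let g : W × Pm E → W × Pm E := fun p => (p.1, sh k M p.2)
  have hg : Continuous g := continuous_fst.prodMk ((sh_cont k M).comp continuous_snd)
  have hdom : dom (fun w => σ w * σ' w) = dom σ ∩ g ⁻¹' dom σ' := by
    ext p
    change p.2 ∈ (σ p.1 * σ' p.1).Ω ↔ p.2 ∈ (σ p.1).Ω ∧ sh k M p.2 ∈ (σ' p.1).Ω
    rw [Vc.mem_mul, h.hk, h.hM]
  have hzer : zer (fun w => σ w * σ' w) = zer σ ∩ g ⁻¹' zer σ' := by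
    ext p
    change p.2 ∈ (σ p.1 * σ' p.1).Zs ↔ p.2 ∈ (σ p.1).Zs ∧ sh k M p.2 ∈ (σ' p.1).Zs
    rw [Vc.mem_Zs_mul, h.hk, h.hM]
  have hc : ∀ p : W × Pm E, (σ p.1 * σ' p.1).c p.2 =
      cat M ((σ p.1).c p.2) ((σ' (g p).1).c (g p).2) := fun p => by
    rw [Vc.mul_c, h.hk, h.hM]
  have hq : ∀ (p : W × Pm E) i, (σ p.1 * σ' p.1).q p.2 i =
      if i < k then (σ p.1).q p.2 i else (σ' (g p).1).q (g p).2 (i - k) := fun p i => by
    rw [Vc.mul_q, h.hk, h.hM]
  have f1 : S.IsFam (zer σ ∩ g ⁻¹' zer σ') (fun p => p.2.2) M T (fun p => a p.1)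
      (fun p => b p.1) (fun p => (σ p.1).c p.2) :=
    h.fam.comp (f := id) continuousOn_id (fun _ hp => hp.1) (fun _ _ _ _ => rfl)
      (fun _ _ => rfl) (fun _ _ => rfl)
  have f2 : S.IsFam (zer σ ∩ g ⁻¹' zer σ') (fun p i => p.2.2 (M + i)) M' T' (fun p => b p.1)
      (fun p => d p.1) (fun p => (σ' (g p).1).c (g p).2) :=
    h'.fam.comp (f := g) hg.continuousOn (fun _ hp => hp.2) (fun _ _ _ _ => rfl)
      (fun _ _ => rfl) (fun _ _ => rfl)
  obtain ⟨R, hR⟩ := h.bdd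
  obtain ⟨R', hR'⟩ := h'.bdd
  refine Good.of_cl (fun w => ?_) (fun w => ?_) ?_ (fun i hi => ?_) ?_ ?_ h'.bc
    (S.top σ M (T - Δ) ∩ g ⁻¹' S.top σ' M' (T' - Δ)) (h.cls.inter (h'.cls.preimage hg)) ?_ ?_
    (max R R') ?_
  · rw [Vc.mul_k, h.hk, h'.hk]
  · rw [Vc.mul_M, h.hM, h'.hM]
  · rw [hdom]
    exact h.opn.inter (h'.opn.preimage hg)
  · rw [hdom]
    simp only [hq]
    by_cases hik : i < k
    · simp only [if_pos hik]
      exact (h.qc i hik).mono inter_subset_left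
    · simp only [if_neg hik]
      exact (h'.qc (i - k) (by omega)).comp hg.continuousOn fun _ hp => hp.2
  · rw [hdom]
    simp only [hc]
    exact continuousOn_cat (fun i hi => (h.cc i hi).mono inter_subset_left)
      fun i hi => (h'.cc i hi).comp hg.continuousOn fun _ hp => hp.2
  · rw [hzer]
    simp only [hc]
    exact f1.cat f2
  · rw [hzer]
    exact fun p hp => ⟨hp.1.1, hp.2.1⟩
  · rintro p ⟨hp, hv⟩
    rw [hzer] at hp
    simp only [hc] at hv
    rw [f1.val_cat f2 hp] at hv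
    have h1 := f1.le p hp
    have h2 := f2.le p hp
    exact ⟨⟨hp.1, by linarith⟩, hp.2, by linarith⟩
  · intro p hp i hi
    by_cases hik : i < k
    · exact (hR p hp.1 i hik).trans (le_max_left _ _)
    · obtain ⟨j, rfl⟩ := Nat.exists_eq_add_of_le (not_lt.mp hik)
      exact (hR' (g p) hp.2 j (by omega)).trans (le_max_right _ _)

omit [InnerProductSpace ℝ E] in
/-- Continuity of a function that is defined by cases on the sign of f. -/
lemma xgoodb_paste {Y : Type} [TopologicalSpace Y] {s : Set (W × Pm E)} {f : W → ℝ}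
    (hf : Continuous f) {F G H : W × Pm E → Y} (hF : ContinuousOn F (s ∩ {p | f p.1 ≤ 0}))
    (hG : ContinuousOn G (s ∩ {p | 0 ≤ f p.1})) (h1 : ∀ p, f p.1 ≤ 0 → H p = F p)
    (h2 : ∀ p, 0 ≤ f p.1 → H p = G p) : ContinuousOn H s := by
  have hf' : Continuous fun p : W × Pm E => f p.1 := hf.comp continuous_fst
  have e : H = fun p => if f p.1 ≤ 0 then F p else G p := by
    funext p
    split_ifs with h0
    exacts [h1 p h0, h2 p (not_le.mp h0).le]
  rw [e]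
  refine ContinuousOn.if (fun p hp => ?_) ?_ ?_
  · have h0 : f p.1 = 0 := frontier_le_subset_eq hf' continuous_const hp.2
    rw [← h1 p h0.le, h2 p h0.ge]
  · rw [(isClosed_le hf' continuous_const).closure_eq]
    exact hF
  · refine hG.mono (inter_subset_inter_right _ ?_)
    exact closure_minimal (fun p hp => (not_le.mp hp).le) (isClosed_le continuous_const hf')

/-- Pasting along the zero set of a continuous function of the parameter. -/
lemma Good.paste {a' b' : W → E} (h : S.Good σ k M T Δ a b) (h' : S.Good σ' k M T Δ a' b')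
    {f : W → ℝ} (hf : Continuous f) (he : ∀ w, f w = 0 → σ w = σ' w ∧ b w = b' w) :
    S.Good (fun w => if f w ≤ 0 then σ w else σ' w) k M T Δ
      (fun w => if f w ≤ 0 then a w else a' w) (fun w => if f w ≤ 0 then b w else b' w) := by
  have hf' : Continuous fun p : W × Pm E => f p.1 := hf.comp continuous_fst
  obtain ⟨τ, hτ⟩ : ∃ τ : W → Vc E, τ = fun w => if f w ≤ 0 then σ w else σ' w := ⟨_, rfl⟩
  have t1 : ∀ w, f w ≤ 0 → τ w = σ w := fun w h0 => by rw [hτ]; exact if_pos h0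
  have t2 : ∀ w, 0 ≤ f w → τ w = σ' w := fun w h0 => by
    rcases h0.lt_or_eq with h0 | h0
    · rw [hτ]; exact if_neg (not_le.mpr h0)
    · rw [t1 w h0.ge, (he w h0.symm).1]
  rw [← hτ]
  have d1 : dom τ ∩ {p | f p.1 ≤ 0} ⊆ dom σ := fun p hp => by
    have := hp.1
    change p.2 ∈ (τ p.1).Ω at this
    rwa [t1 _ hp.2] at this
  have d2 : dom τ ∩ {p | 0 ≤ f p.1} ⊆ dom σ' := fun p hp => by
    have := hp.1
    change p.2 ∈ (τ p.1).Ω at this
    rwa [t2 _ hp.2] at this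
  have z1 : ∀ p : W × Pm E, f p.1 ≤ 0 → (p ∈ zer τ ↔ p ∈ zer σ) := fun p hp => by
    change p.2 ∈ (τ p.1).Zs ↔ p.2 ∈ (σ p.1).Zs
    rw [t1 _ hp]
  have z2 : ∀ p : W × Pm E, 0 ≤ f p.1 → (p ∈ zer τ ↔ p ∈ zer σ') := fun p hp => by
    change p.2 ∈ (τ p.1).Zs ↔ p.2 ∈ (σ' p.1).Zs
    rw [t2 _ hp]
  have cc : ∀ i < M, ContinuousOn (fun p : W × Pm E => (τ p.1).c p.2 i) (dom τ) := fun i hi =>
    xgoodb_paste hf ((h.cc i hi).mono d1) ((h'.cc i hi).mono d2)
      (fun p hp => by rw [t1 _ hp]) (fun p hp => by rw [t2 _ hp])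
  have htop : S.top τ M (T - Δ) = (S.top σ M (T - Δ) ∩ {p | f p.1 ≤ 0}) ∪
      (S.top σ' M (T - Δ) ∩ {p | 0 ≤ f p.1}) := by
    ext p
    constructor
    · rintro ⟨hp, hv⟩
      rcases le_total (f p.1) 0 with h0 | h0
      · rw [t1 _ h0] at hv
        exact Or.inl ⟨⟨(z1 p h0).1 hp, hv⟩, h0⟩
      · rw [t2 _ h0] at hv
        exact Or.inr ⟨⟨(z2 p h0).1 hp, hv⟩, h0⟩
    · rintro (⟨⟨hp, hv⟩, h0⟩ | ⟨⟨hp, hv⟩, h0⟩)
      · exact ⟨(z1 p h0).2 hp, by rwa [t1 _ h0]⟩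
      · exact ⟨(z2 p h0).2 hp, by rwa [t2 _ h0]⟩
  refine ⟨fun w => ?_, fun w => ?_, ?_, fun i hi => ?_, cc,
    ⟨fun i hi => (cc i hi).mono fun _ hp => hp.1, fun p hp => ?_, fun p hp => ?_, fun p hp => ?_,
      fun p hp => ?_, fun L => ?_⟩, ?_, ?_, ?_⟩
  · rcases le_total (f w) 0 with h0 | h0
    · rw [t1 w h0, h.hk]
    · rw [t2 w h0, h'.hk]
  · rcases le_total (f w) 0 with h0 | h0
    · rw [t1 w h0, h.hM]
    · rw [t2 w h0, h'.hM]
  · have : dom τ = (dom σ ∩ dom σ') ∪ (dom σ ∩ {p | f p.1 < 0}) ∪ (dom σ' ∩ {p | 0 < f p.1}) := by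
      ext p
      constructor
      · intro hp
        rcases lt_trichotomy (f p.1) 0 with h0 | h0 | h0
        · exact Or.inl (Or.inr ⟨d1 ⟨hp, h0.le⟩, h0⟩)
        · exact Or.inl (Or.inl ⟨d1 ⟨hp, h0.le⟩, d2 ⟨hp, h0.ge⟩⟩)
        · exact Or.inr ⟨d2 ⟨hp, h0.le⟩, h0⟩
      · intro hp
        change p.2 ∈ (τ p.1).Ω
        rcases hp with (⟨hp, hp'⟩ | ⟨hp, h0⟩) | ⟨hp, h0⟩
        · rcases le_total (f p.1) 0 with h0 | h0
          · rw [t1 _ h0]; exact hp
          · rw [t2 _ h0]; exact hp'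
        · rw [t1 _ (le_of_lt h0)]; exact hp
        · rw [t2 _ (le_of_lt h0)]; exact hp
    rw [this]
    exact ((h.opn.inter h'.opn).union (h.opn.inter (isOpen_lt hf' continuous_const))).union
      (h'.opn.inter (isOpen_lt continuous_const hf'))
  · exact xgoodb_paste hf ((h.qc i hi).mono d1) ((h'.qc i hi).mono d2)
      (fun p hp => by rw [t1 _ hp]) (fun p hp => by rw [t2 _ hp])
  · rcases le_total (f p.1) 0 with h0 | h0
    · rw [t1 _ h0]; exact h.fam.valid p ((z1 p h0).1 hp)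
    · rw [t2 _ h0]; exact h'.fam.valid p ((z2 p h0).1 hp)
  · split_ifs with h0
    · rw [t1 _ h0]; exact h.fam.src p ((z1 p h0).1 hp)
    · have h0 := (not_le.mp h0).le
      rw [t2 _ h0]; exact h'.fam.src p ((z2 p h0).1 hp)
  · split_ifs with h0
    · rw [t1 _ h0]; exact h.fam.tgt p ((z1 p h0).1 hp)
    · have h0 := (not_le.mp h0).le
      rw [t2 _ h0]; exact h'.fam.tgt p ((z2 p h0).1 hp)
  · rcases le_total (f p.1) 0 with h0 | h0
    · rw [t1 _ h0]; exact h.fam.le p ((z1 p h0).1 hp)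
    · rw [t2 _ h0]; exact h'.fam.le p ((z2 p h0).1 hp)
  · obtain ⟨R, hR⟩ := h.fam.proper L
    obtain ⟨R', hR'⟩ := h'.fam.proper L
    refine ⟨max R R', fun p hp ⟨i, hi, hP⟩ => ?_⟩
    rcases le_total (f p.1) 0 with h0 | h0
    · rw [t1 _ h0]; exact hR p ((z1 p h0).1 hp) ⟨i, hi, (le_max_left _ _).trans hP⟩
    · rw [t2 _ h0]; exact hR' p ((z2 p h0).1 hp) ⟨i, hi, (le_max_right _ _).trans hP⟩
  · exact Continuous.if_le h.bc h'.bc hf continuous_const fun w hw => (he w hw).2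
  · rw [htop]
    exact (h.cls.inter (isClosed_le hf' continuous_const)).union
      (h'.cls.inter (isClosed_le continuous_const hf'))
  · obtain ⟨R, hR⟩ := h.bdd
    obtain ⟨R', hR'⟩ := h'.bdd
    refine ⟨max R R', fun p hp i hi => ?_⟩
    rw [htop] at hp
    rcases hp with hp | hp
    · exact (hR p hp.1 i hi).trans (le_max_left _ _)
    · exact (hR' p hp.1 i hi).trans (le_max_right _ _)

omit [InnerProductSpace ℝ E] in
/-- Continuity on a union of two open sets. -/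
lemma xgoodb_union {X Y : Type} [TopologicalSpace X] [TopologicalSpace Y] {s t : Set X}
    (hs : IsOpen s) (ht : IsOpen t) {F G H : X → Y} (hF : ContinuousOn F s)
    (hG : ContinuousOn G t) (h1 : ∀ p ∈ s, H p = F p) (h2 : ∀ p ∈ t, H p = G p) :
    ContinuousOn H (s ∪ t) := by
  rintro p (hp | hp)
  · exact ((hF.congr h1).continuousAt (hs.mem_nhds hp)).continuousWithinAt
  · exact ((hG.congr h2).continuousAt (ht.mem_nhds hp)).continuousWithinAt

/-- The union of two families with disjoint domains. -/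
lemma Good.uni (h : S.Good σ k M T Δ a b) (h' : S.Good σ' k M T Δ a b) (O : Set (Pm E))
    (h1 : ∀ w, (σ w).Ω ⊆ O) (h2 : ∀ w, (σ' w).Ω ⊆ Oᶜ) :
    S.Good (fun w => Vc.uni O (σ w) (σ' w)) k M T Δ a b := by
  obtain ⟨τ, hτ⟩ : ∃ τ : W → Vc E, τ = fun w => Vc.uni O (σ w) (σ' w) := ⟨_, rfl⟩
  have hk : ∀ w, (τ w).k = k := fun w => by rw [hτ]; exact h.hk w
  have hM : ∀ w, (τ w).M = M := fun w => by rw [hτ]; exact h.hM w
  have hΩ : ∀ w v, v ∈ (τ w).Ω ↔ v ∈ (σ w).Ω ∨ v ∈ (σ' w).Ω := fun w v => by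
    rw [hτ]
    exact ⟨fun hv => hv.imp And.right And.right,
      fun hv => hv.imp (fun hv => ⟨h1 w hv, hv⟩) fun hv => ⟨h2 w hv, hv⟩⟩
  have q1 : ∀ p ∈ dom σ, (τ p.1).q p.2 = (σ p.1).q p.2 := fun p hp => by
    rw [hτ]; exact if_pos (h1 _ hp)
  have q2 : ∀ p ∈ dom σ', (τ p.1).q p.2 = (σ' p.1).q p.2 := fun p hp => by
    rw [hτ]; exact if_neg (h2 _ hp)
  have c1 : ∀ p ∈ dom σ, (τ p.1).c p.2 = (σ p.1).c p.2 := fun p hp => by
    rw [hτ]; exact if_pos (h1 _ hp)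
  have c2 : ∀ p ∈ dom σ', (τ p.1).c p.2 = (σ' p.1).c p.2 := fun p hp => by
    rw [hτ]; exact if_neg (h2 _ hp)
  rw [← hτ]
  have hdom : dom τ = dom σ ∪ dom σ' := Set.ext fun p => hΩ p.1 p.2
  have hzer : ∀ p, p ∈ zer τ ↔ p ∈ zer σ ∨ p ∈ zer σ' := fun p => by
    constructor
    · rintro ⟨hp, hq⟩
      rw [hk] at hq
      rcases (hΩ _ _).1 hp with hp | hp
      · rw [q1 p hp] at hq
        exact Or.inl ⟨hp, by rwa [h.hk]⟩
      · rw [q2 p hp] at hq
        exact Or.inr ⟨hp, by rwa [h'.hk]⟩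
    · rintro (⟨hp, hq⟩ | ⟨hp, hq⟩)
      · rw [h.hk] at hq
        exact ⟨(hΩ _ _).2 (Or.inl hp), by rwa [hk, q1 p hp]⟩
      · rw [h'.hk] at hq
        exact ⟨(hΩ _ _).2 (Or.inr hp), by rwa [hk, q2 p hp]⟩
  have cc : ∀ i < M, ContinuousOn (fun p : W × Pm E => (τ p.1).c p.2 i) (dom τ) := fun i hi => by
    rw [hdom]
    exact xgoodb_union h.opn h'.opn (h.cc i hi) (h'.cc i hi) (fun p hp => by rw [c1 p hp])
      (fun p hp => by rw [c2 p hp])
  have htop : S.top τ M (T - Δ) = S.top σ M (T - Δ) ∪ S.top σ' M (T - Δ) := by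
    ext p
    constructor
    · rintro ⟨hp, hv⟩
      rcases (hzer p).1 hp with hp | hp
      · exact Or.inl ⟨hp, by rwa [c1 p hp.1] at hv⟩
      · exact Or.inr ⟨hp, by rwa [c2 p hp.1] at hv⟩
    · rintro (⟨hp, hv⟩ | ⟨hp, hv⟩)
      · exact ⟨(hzer p).2 (Or.inl hp), by rwa [c1 p hp.1]⟩
      · exact ⟨(hzer p).2 (Or.inr hp), by rwa [c2 p hp.1]⟩
  refine ⟨hk, hM, ?_, fun i hi => ?_, cc,
    ⟨fun i hi => (cc i hi).mono fun _ hp => hp.1, fun p hp => ?_, fun p hp => ?_, fun p hp => ?_,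
      fun p hp => ?_, fun L => ?_⟩, h.bc, ?_, ?_⟩
  · rw [hdom]
    exact h.opn.union h'.opn
  · rw [hdom]
    exact xgoodb_union h.opn h'.opn (h.qc i hi) (h'.qc i hi) (fun p hp => by rw [q1 p hp])
      (fun p hp => by rw [q2 p hp])
  · rcases (hzer p).1 hp with hp | hp
    · rw [c1 p hp.1]; exact h.fam.valid p hp
    · rw [c2 p hp.1]; exact h'.fam.valid p hp
  · rcases (hzer p).1 hp with hp | hp
    · rw [c1 p hp.1]; exact h.fam.src p hp
    · rw [c2 p hp.1]; exact h'.fam.src p hp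
  · rcases (hzer p).1 hp with hp | hp
    · rw [c1 p hp.1]; exact h.fam.tgt p hp
    · rw [c2 p hp.1]; exact h'.fam.tgt p hp
  · rcases (hzer p).1 hp with hp | hp
    · rw [c1 p hp.1]; exact h.fam.le p hp
    · rw [c2 p hp.1]; exact h'.fam.le p hp
  · obtain ⟨R, hR⟩ := h.fam.proper L
    obtain ⟨R', hR'⟩ := h'.fam.proper L
    refine ⟨max R R', fun p hp ⟨i, hi, hP⟩ => ?_⟩
    rcases (hzer p).1 hp with hp | hp
    · rw [c1 p hp.1]; exact hR p hp ⟨i, hi, (le_max_left _ _).trans hP⟩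
    · rw [c2 p hp.1]; exact hR' p hp ⟨i, hi, (le_max_right _ _).trans hP⟩
  · rw [htop]
    exact h.cls.union h'.cls
  · obtain ⟨R, hR⟩ := h.bdd
    obtain ⟨R', hR'⟩ := h'.bdd
    refine ⟨max R R', fun p hp i hi => ?_⟩
    rw [htop] at hp
    rcases hp with hp | hp
    · exact (hR p hp i hi).trans (le_max_left _ _)
    · exact (hR' p hp i hi).trans (le_max_right _ _)

end Sys

end Pool.Agent.Wein
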