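import Mathlib
import Pool.Agent.P.MP_e3ee0c_gt.XGoodB
import Pool.Agent.P.MP_e3ee0c_gt.WGhost

/-! From one fibre to all fibres. -/

open Set Filter Topology
open scoped ContDiff InnerProductSpace

namespace Pool.Agent.Wein

variable {E : Type} [NormedAddCommGroup E] [InnerProductSpace ℝ E]

/-- One block: the homotopy at x is transported to the fibres near v. -/
lemma Sys.xblock (S : Sys E) (hN : IsPathConnected S.S) {x v : E} (hx : x ∈ S.S) (hv : v ∈ S.S) :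
    ∃ T' : ℝ, 0 ≤ T' ∧ ∀ (k M : ℕ) (T Δ ℓ : ℝ), 0 ≤ T → S.Kill T Δ x univ (S.cst k M x) ℓ →
      ∃ (k' M' : ℕ) (G : S.S × ℝ → Vc E),
        S.Good G k' M' (T + T') Δ (fun p => (p.1 : E)) (fun p => (p.1 : E)) ∧
        (∀ y : S.S, G (y, 0) = S.cst k' M' y) ∧
        ∀ y : S.S, ‖(y : E) - v‖ ≤ S.δ / 2 → S.Low (G (y, 1)) (T' + ℓ) := by
  obtain ⟨Λ, hΛc, hΛ0, hΛ1, hΛS⟩ := S.gh_track hN hx hv
  have hK : IsCompact (S.S ×ˢ Icc (0 : ℝ) 1) := S.compact.prod isCompact_Icc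
  obtain ⟨η, hη, hu⟩ := Metric.uniformContinuousOn_iff.1
    (hK.uniformContinuousOn_of_continuous hΛc.continuousOn) S.μ S.μpos
  obtain ⟨J0, hJ0⟩ := exists_nat_one_div_lt hη
  set J : ℕ := J0 + 1 with hJ
  have hJpos : (0 : ℝ) < J := by positivity
  have hJη : 1 / (J : ℝ) < η := by simpa [hJ] using hJ0
  have hτ := S.St.τpos
  have hcl := ghClamp_cont
  have hδ := S.δpos
  let a : E × ℝ → ℝ := fun q => ghClamp q.2 * ghClamp (2 - 2 * ‖q.1 - v‖ / S.δ)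
  have hac : Continuous a := by fun_prop
  let s : E × ℝ → ℝ := fun q => ghClamp (2 * a q)
  have hsc : Continuous s := by fun_prop
  let y : E × ℝ → ℕ → E := fun q i => Λ (q.1, s q * (i / J))
  have hyc : ∀ i, Continuous fun q => y q i := fun i => by fun_prop
  have ha0 : ∀ z, ∀ u ≤ 0, a (z, u) = 0 := by
    intro z u hu
    simp only [a, ghClamp_low hu, zero_mul]
  have hs0 : ∀ q, a q = 0 → s q = 0 := by
    intro q hq
    simp only [s, hq, mul_zero, ghClamp_low le_rfl]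
  have hy0 : ∀ z ∈ S.S, ∀ u, a (z, u) = 0 → ∀ i, y (z, u) i = z := by
    intro z hz u h i
    simp only [y, hs0 _ h, zero_mul, hΛ0 z hz]
  have hyS : ∀ z ∈ S.S, ∀ u i, y (z, u) i ∈ S.S := by
    intro z hz u i
    rcases le_total ‖z - v‖ S.δ with h | h
    · exact hΛS z h _
    · rw [hy0 z hz u]
      · exact hz
      · have : 2 - 2 * ‖z - v‖ / S.δ ≤ 0 := by
          rw [sub_nonpos, le_div_iff₀ hδ]; linarith
        simp only [a, ghClamp_low this, mul_zero]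
  have hmem : ∀ q, ∀ i : ℕ, i ≤ J → s q * ((i : ℝ) / J) ∈ Icc (0 : ℝ) 1 := by
    intro q i hi
    have h1 := ghClamp_mem (2 * a q)
    have h2 : (i : ℝ) / J ≤ 1 := by
      rw [div_le_one hJpos]; exact_mod_cast hi
    have h3 : (0 : ℝ) ≤ (i : ℝ) / J := by positivity
    exact ⟨mul_nonneg h1.1 h3, mul_le_one₀ h1.2 h3 h2⟩
  have hstep : ∀ z ∈ S.S, ∀ u, ∀ i < J, ‖y (z, u) i - y (z, u) (i + 1)‖ ≤ S.μ := by
    intro z hz u i hi
    have h1 := hu (z, s (z, u) * ((i : ℝ) / J)) ⟨hz, hmem _ i hi.le⟩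
      (z, s (z, u) * (((i + 1 : ℕ) : ℝ) / J)) ⟨hz, hmem _ (i + 1) hi⟩ (by
        rw [Prod.dist_eq, dist_self, Real.dist_eq]
        refine max_lt hη (lt_of_le_of_lt ?_ hJη)
        have h2 := ghClamp_mem (2 * a (z, u))
        have h3 : s (z, u) * ((i : ℝ) / J) - s (z, u) * (((i + 1 : ℕ) : ℝ) / J) =
            -(s (z, u) * (1 / J)) := by
          push_cast; ring
        rw [h3, abs_neg, abs_of_nonneg (mul_nonneg h2.1 (by positivity))]
        exact mul_le_of_le_one_left (by positivity) h2.2)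
    rw [dist_eq_norm] at h1
    exact h1.le
  have hyJ : ∀ z u, 1 ≤ 2 * a (z, u) → y (z, u) J = x := by
    intro z u h
    simp only [y, s, ghClamp_high h, div_self hJpos.ne', mul_one, hΛ1]
  have hfirst : ∀ z ∈ S.S, ∀ u, y (z, u) 0 = z := by
    intro z hz u
    simp only [y, Nat.cast_zero, zero_div, mul_zero, hΛ0 z hz]
  have hι : Continuous fun p : S.S × ℝ => ((p.1 : E), p.2) := by fun_prop
  refine ⟨J * (S.St.τ₀ / 4) + J * (S.St.τ₀ / 4), by positivity, ?_⟩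
  rintro k M T Δ ℓ hT ⟨β, ⟨H, hH, -, hH0, hH1⟩, hβ⟩
  rw [S.cst_k, S.cst_M] at hH
  have F1 : S.Good (fun p : S.S × ℝ => S.nrm 0 J (y ((p.1 : E), p.2))) 0 J
      ((Finset.range J).card * (S.St.τ₀ / 4)) Δ (fun p => (p.1 : E))
      (fun p => y ((p.1 : E), p.2) J) :=
    Sys.good_nrm 0 J Δ (v := fun p : S.S × ℝ => y ((p.1 : E), p.2))
      (fun i _ => (hyc i).comp hι)
      (fun p i hi => ⟨hyS _ p.1.2 _ i, hstep _ p.1.2 _ i hi⟩) (Finset.range J)
      (fun _ i hi h => (h (Finset.mem_range.2 hi)).elim) (fun p => hfirst _ p.1.2 _)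
      (fun _ => rfl)
  have F3 : S.Good (fun p : S.S × ℝ => S.nrm 0 J (fun i => y ((p.1 : E), p.2) (J - i))) 0 J
      ((Finset.range J).card * (S.St.τ₀ / 4)) Δ (fun p => y ((p.1 : E), p.2) J)
      (fun p => (p.1 : E)) :=
    Sys.good_nrm 0 J Δ (v := fun (p : S.S × ℝ) i => y ((p.1 : E), p.2) (J - i))
      (fun i _ => (hyc _).comp hι)
      (fun p i hi => ⟨hyS _ p.1.2 _ _, by
        have h1 := hstep _ p.1.2 p.2 (J - (i + 1)) (by omega)
        rw [show J - (i + 1) + 1 = J - i by omega, norm_sub_rev] at h1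
        exact h1⟩) (Finset.range J)
      (fun _ i hi h => (h (Finset.mem_range.2 hi)).elim) (fun _ => rfl)
      (fun p => by simpa using hfirst _ p.1.2 p.2)
  rw [Finset.card_range] at F1 F3
  have hfc : Continuous fun p : S.S × ℝ => 2 * a ((p.1 : E), p.2) - 1 :=
    (continuous_const.mul (hac.comp hι)).sub continuous_const
  have FA : S.Good (fun p : S.S × ℝ => S.cst k M (y ((p.1 : E), p.2) J)) k M T Δ
      (fun p => y ((p.1 : E), p.2) J) (fun p => y ((p.1 : E), p.2) J) :=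
    (Sys.good_cst k M Δ ((hyc J).comp hι) (fun p => hyS _ p.1.2 _ J)).mono hT
  have FB := FA.paste (hH.comp hfc) hfc (fun p hp => by
    have h1 : y ((p.1 : E), p.2) J = x := hyJ _ _ (by linarith)
    exact ⟨by rw [h1, hp, hH0], h1⟩)
  have hbase : (fun p : S.S × ℝ => if 2 * a ((p.1 : E), p.2) - 1 ≤ 0 then
      y ((p.1 : E), p.2) J else x) = fun p => y ((p.1 : E), p.2) J := by
    funext p
    split_ifs with h
    · rfl
    · exact (hyJ _ _ (by linarith [not_le.1 h])).symm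
  rw [hbase] at FB
  have F := F1.mul (FB.mul F3)
  refine ⟨_, _, _, F.mono (le_of_eq (by ring)), fun z => ?_, fun z hzv => ?_⟩
  · have h0 := ha0 (z : E) 0 le_rfl
    have h1 : y ((z : E), (0 : ℝ)) = fun _ => (z : E) := funext (hy0 _ z.2 0 h0)
    have h2 : 2 * a ((z : E), (0 : ℝ)) - 1 ≤ 0 := by rw [h0]; norm_num
    simp only [if_pos h2, h1]
    exact (congrArg (S.cst 0 J (z : E) * ·) (S.cst_mul k M 0 J z)).trans (S.cst_mul _ _ _ _ _)
  · have ha1 : a ((z : E), (1 : ℝ)) = 1 := by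
      have h1 : 1 ≤ 2 - 2 * ‖(z : E) - v‖ / S.δ := by
        have : 2 * ‖(z : E) - v‖ / S.δ ≤ 1 := by
          rw [div_le_one hδ]; linarith
        linarith
      simp only [a, ghClamp_high le_rfl, ghClamp_high h1, mul_one]
    have h2 : S.Low (if 2 * a ((z : E), (1 : ℝ)) - 1 ≤ 0 then S.cst k M (y ((z : E), (1 : ℝ)) J)
        else H (2 * a ((z : E), (1 : ℝ)) - 1)) ℓ := by
      rw [ha1, if_neg (by norm_num), show (2 * 1 - 1 : ℝ) = 1 by norm_num, hH1]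
      exact hβ
    have h3 := Sys.low_mul FB F3 (z, 1) h2 (F3.low (z, 1))
    exact (Sys.low_mul F1 (FB.mul F3) (z, 1) (F1.low (z, 1)) h3).mono (le_of_eq (by ring))

theorem Sys.xghost (S : Sys E) (hN : IsPathConnected S.S) {x : E} (hx : x ∈ S.S) :
    ∃ K T' : ℝ, 0 ≤ K ∧ 0 ≤ T' ∧ ∀ (k M : ℕ) (T Δ ℓ : ℝ), 0 ≤ T →
      S.Kill T Δ x univ (S.cst k M x) ℓ → ∃ (k' M' : ℕ) (G : S.S × ℝ → Vc E),
        S.Good G k' M' (K * T + T') Δ (fun p => (p.1 : E)) (fun p => (p.1 : E)) ∧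
        (∀ y : S.S, G (y, 0) = S.cst k' M' y) ∧
        ∀ y : S.S, S.Low (G (y, 1)) (K * T + T' + ℓ) := by
  have key : ∃ K T' : ℝ, 0 ≤ K ∧ 0 ≤ T' ∧ ∀ (k M : ℕ) (T Δ ℓ : ℝ), 0 ≤ T →
      S.Kill T Δ x univ (S.cst k M x) ℓ → ∃ (k' M' : ℕ) (G : S.S × ℝ → Vc E),
        S.Good G k' M' (K * T + T') Δ (fun p => (p.1 : E)) (fun p => (p.1 : E)) ∧
        (∀ y : S.S, G (y, 0) = S.cst k' M' y) ∧
        ∀ y : S.S, (y : E) ∈ S.S → S.Low (G (y, 1)) (K * T + T' + ℓ) := by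
    refine S.compact.induction_on (p := fun s : Set E => ∃ K T' : ℝ, 0 ≤ K ∧ 0 ≤ T' ∧
      ∀ (k M : ℕ) (T Δ ℓ : ℝ), 0 ≤ T →
      S.Kill T Δ x univ (S.cst k M x) ℓ → ∃ (k' M' : ℕ) (G : S.S × ℝ → Vc E),
        S.Good G k' M' (K * T + T') Δ (fun p => (p.1 : E)) (fun p => (p.1 : E)) ∧
        (∀ y : S.S, G (y, 0) = S.cst k' M' y) ∧
        ∀ y : S.S, (y : E) ∈ s → S.Low (G (y, 1)) (K * T + T' + ℓ)) ?_ ?_ ?_ ?_
    · obtain ⟨T', hT0, hT'⟩ := S.xblock hN hx hx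
      refine ⟨1, T', zero_le_one, hT0, fun k M T Δ ℓ hT hH => ?_⟩
      obtain ⟨k', M', G, h1, h2, -⟩ := hT' k M T Δ ℓ hT hH
      exact ⟨k', M', G, h1.mono (le_of_eq (by ring)), h2, fun y hy => hy.elim⟩
    · rintro s t hst ⟨K, T', hK, hT0, hT'⟩
      refine ⟨K, T', hK, hT0, fun k M T Δ ℓ hT hH => ?_⟩
      obtain ⟨k', M', G, h1, h2, h3⟩ := hT' k M T Δ ℓ hT hH
      exact ⟨k', M', G, h1, h2, fun y hy => h3 y (hst hy)⟩
    · rintro s t ⟨K1, T1, hK1, hT10, hT1⟩ ⟨K2, T2, hK2, hT20, hT2⟩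
      refine ⟨K1 + K2, T1 + T2, add_nonneg hK1 hK2, add_nonneg hT10 hT20,
        fun k M T Δ ℓ hT hH => ?_⟩
      obtain ⟨k1, M1, G1, a1, a2, a3⟩ := hT1 k M T Δ ℓ hT hH
      obtain ⟨k2, M2, G2, b1, b2, b3⟩ := hT2 k M T Δ ℓ hT hH
      refine ⟨_, _, _, (a1.mul b1).mono (le_of_eq (by ring)), fun y => ?_, fun y hy => ?_⟩
      · simp only [a2 y, b2 y, S.cst_mul]
      · rcases hy with hy | hy
        · exact (Sys.low_mul a1 b1 (y, 1) (a3 y hy) (b1.low (y, 1))).mono (le_of_eq (by ring))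
        · exact (Sys.low_mul a1 b1 (y, 1) (a1.low (y, 1)) (b3 y hy)).mono (le_of_eq (by ring))
    · intro v hv
      obtain ⟨T', hT0, hT'⟩ := S.xblock hN hx hv
      refine ⟨Metric.closedBall v (S.δ / 2), mem_nhdsWithin_of_mem_nhds
        (Metric.closedBall_mem_nhds v (by linarith [S.δpos])), 1, T', zero_le_one, hT0,
        fun k M T Δ ℓ hT hH => ?_⟩
      obtain ⟨k', M', G, h1, h2, h3⟩ := hT' k M T Δ ℓ hT hH
      exact ⟨k', M', G, h1.mono (le_of_eq (by ring)), h2,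
        fun y hy => (h3 y (by simpa [dist_eq_norm] using hy)).mono (by linarith)⟩
  obtain ⟨K, T', hK, hT0, hT'⟩ := key
  refine ⟨K, T', hK, hT0, fun k M T Δ ℓ hT hH => ?_⟩
  obtain ⟨k', M', G, h1, h2, h3⟩ := hT' k M T Δ ℓ hT hH
  exact ⟨k', M', G, h1, h2, fun y => h3 y y.2⟩

end Pool.Agent.Wein
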