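import Mathlib
import Pool.Agent.P.MP_e3ee0c_gt.XGoodB

/-! Homotopies of families of closed chains. -/

open Set Filter Topology
open scoped ContDiff InnerProductSpace

namespace Pool.Agent.Wein

variable {E : Type} [NormedAddCommGroup E] [InnerProductSpace ℝ E]

namespace Sys

variable {S : Sys E} {T Δ : ℝ} {x : E} {O : Set (Pm E)} {α β γ : Vc E}

lemma Htp.intro {H : ℝ → Vc E} {k M : ℕ} (h : S.Good H k M T Δ (fun _ => x) (fun _ => x))
    (hO : ∀ u, (H u).Ω ⊆ O) (h0 : H 0 = α) (h1 : H 1 = β) : S.Htp T Δ x O α β := by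
  have hk : α.k = k := h0 ▸ h.hk 0
  have hM : α.M = M := h0 ▸ h.hM 0
  exact ⟨H, by rw [hk, hM]; exact h, hO, h0, h1⟩

lemma Htp.mono (h : S.Htp T Δ x O α β) {T' : ℝ} (hT : T ≤ T') {O' : Set (Pm E)} (hO : O ⊆ O') :
    S.Htp T' Δ x O' α β := by
  obtain ⟨H, hH, h1, h2, h3⟩ := h
  exact ⟨H, hH.mono hT, fun u => (h1 u).trans hO, h2, h3⟩

lemma Htp.trans (h : S.Htp T Δ x O α β) (h' : S.Htp T Δ x O β γ) : S.Htp T Δ x O α γ := by
  obtain ⟨H, hH, h1, h2, h3⟩ := h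
  obtain ⟨H', hH', h1', h2', h3'⟩ := h'
  have hk : β.k = α.k := h3 ▸ hH.hk 1
  have hM : β.M = α.M := h3 ▸ hH.hM 1
  rw [hk, hM] at hH'
  have g := Good.paste (hH.comp (f := fun u : ℝ => 2 * u) (by fun_prop))
    (hH'.comp (f := fun u : ℝ => 2 * u - 1) (by fun_prop)) (f := fun u : ℝ => u - 1 / 2)
    (by fun_prop) fun w hw => ⟨by
      have e1 : 2 * w = 1 := by linarith
      rw [e1, sub_self, h3, h2'], rfl⟩
  simp only [ite_self] at g
  refine Htp.intro g (fun u => ?_) ?_ ?_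
  · split_ifs
    exacts [h1 _, h1' _]
  · rw [if_pos (by norm_num), mul_zero, h2]
  · rw [if_neg (by norm_num), ← h3']
    norm_num

lemma Htp.kill (h : S.Htp T Δ x O α β) {ℓ : ℝ} (h' : S.Kill T Δ x O β ℓ) :
    S.Kill T Δ x O α ℓ := by
  obtain ⟨γ, h1, h2⟩ := h'
  exact ⟨γ, h.trans h1, h2⟩

lemma Kill.mono {ℓ T' ℓ' : ℝ} (h : S.Kill T Δ x O α ℓ) (hT : T ≤ T') (hℓ : ℓ ≤ ℓ') :
    S.Kill T' Δ x O α ℓ' := by
  obtain ⟨γ, h1, h2⟩ := h
  exact ⟨γ, h1.mono hT subset_rfl, h2.mono hℓ⟩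

lemma Kill.uni {O' : Set (Pm E)} {ℓ : ℝ} (hk : β.k = α.k) (hM : β.M = α.M)
    (h : S.Kill T Δ x (O ∩ O') α ℓ) (h' : S.Kill T Δ x (O ∩ O'ᶜ) β ℓ) :
    S.Kill T Δ x O (Vc.uni O' α β) ℓ := by
  obtain ⟨γ, ⟨H, hH, h1, h2, h3⟩, h4⟩ := h
  obtain ⟨γ', ⟨H', hH', h1', h2', h3'⟩, h4'⟩ := h'
  rw [hk, hM] at hH'
  have g := Good.uni hH hH' O' (fun w => (h1 w).trans inter_subset_right)
    fun w => (h1' w).trans inter_subset_right
  refine ⟨Vc.uni O' γ γ', Htp.intro g (fun u v hv => ?_) (by rw [h2, h2']) (by rw [h3, h3']),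
    low_uni O' ?_ ?_ h4 h4'⟩
  · rcases hv with hv | hv
    exacts [(h1 u hv.2).1, (h1' u hv.2).1]
  · rw [← h3, ← h3', hH.hk, hH'.hk]
  · rw [← h3, ← h3', hH.hM, hH'.hM]

open TopAux in
/-- The homotopy between two families that agree on `U`. -/
noncomputable def xhtpH (k M : ℕ) (α β : Vc E) (U : Set (Pm E)) (u : ℝ) : Vc E where
  k := k
  M := M
  Ω := {v | (u < 1 / 3 ∧ v ∈ α.Ω) ∨ v ∈ U ∨ (2 / 3 < u ∧ v ∈ β.Ω)}
  q := if u < 1 / 2 then α.q else β.q
  c v := (1 - clamp (3 * u - 1)) • α.c v + clamp (3 * u - 1) • β.c v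

open TopAux in
lemma xhtp_lo {k M : ℕ} {U : Set (Pm E)} {u : ℝ} (hu : u < 1 / 3) (v : Pm E) :
    (xhtpH k M α β U u).c v = α.c v := by
  have : clamp (3 * u - 1) = 0 := max_eq_left (min_le_of_right_le (by linarith))
  simp only [xhtpH, this, sub_zero, one_smul, zero_smul, add_zero]

open TopAux in
lemma xhtp_hi {k M : ℕ} {U : Set (Pm E)} {u : ℝ} (hu : 2 / 3 < u) (v : Pm E) :
    (xhtpH k M α β U u).c v = β.c v := by
  have : clamp (3 * u - 1) = 1 := by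
    unfold clamp
    rw [min_eq_left (by linarith), max_eq_right zero_le_one]
  simp only [xhtpH, this, sub_self, one_smul, zero_smul, zero_add]

lemma xhtp_mid {k M : ℕ} {U : Set (Pm E)} (u : ℝ) (v : Pm E) (i : ℕ) :
    (α.c v i = β.c v i → α.c v i = (xhtpH k M α β U u).c v i) ∧
      ((α.c v i).1 = x → (β.c v i).1 = x → ((xhtpH k M α β U u).c v i).1 = x) := by
  refine ⟨fun h => ?_, fun h h' => ?_⟩
  · simp only [xhtpH, Pi.add_apply, Pi.smul_apply, ← h, ← add_smul, sub_add_cancel, one_smul]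
  · simp only [xhtpH, Pi.add_apply, Pi.smul_apply, Prod.fst_add, Prod.smul_fst, h, h', ← add_smul,
      sub_add_cancel, one_smul]

omit [InnerProductSpace ℝ E] in
lemma xhtp_cont {Y : Type} [TopologicalSpace Y] {f : ℝ × Pm E → Y} {A U B : Set (Pm E)}
    (hA : IsOpen A) (hU : IsOpen U) (hB : IsOpen B) (h1 : ContinuousOn f (Iio (1 / 3) ×ˢ A))
    (h2 : ContinuousOn f (univ ×ˢ U)) (h3 : ContinuousOn f (Ioi (2 / 3) ×ˢ B)) :
    ContinuousOn f {p | (p.1 < 1 / 3 ∧ p.2 ∈ A) ∨ p.2 ∈ U ∨ (2 / 3 < p.1 ∧ p.2 ∈ B)} := by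
  rintro p (hp | hp | hp)
  · exact (h1.continuousAt ((isOpen_Iio.prod hA).mem_nhds hp)).continuousWithinAt
  · exact (h2.continuousAt ((isOpen_univ.prod hU).mem_nhds ⟨trivial, hp⟩)).continuousWithinAt
  · exact (h3.continuousAt ((isOpen_Ioi.prod hB).mem_nhds hp)).continuousWithinAt

open TopAux in
/-- Two families that agree near their high solutions are homotopic. -/
lemma Htp.of_equiv {k M : ℕ}
    (hα : S.Good (fun _ : Unit => α) k M T Δ (fun _ => x) (fun _ => x))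
    (hβ : S.Good (fun _ : Unit => β) k M T Δ (fun _ => x) (fun _ => x))
    (U : Set (Pm E)) (hU : IsOpen U) (h1 : U ⊆ α.Ω) (h2 : U ⊆ β.Ω)
    (hq : ∀ v ∈ U, ∀ i < k, α.q v i = β.q v i)
    (hc : ∀ v ∈ U, v ∈ α.Zs → ∀ i < M, α.c v i = β.c v i)
    (n1 : ∀ v ∈ α.Zs, T - Δ ≤ S.Val M (α.c v) → v ∈ U)
    (n2 : ∀ v ∈ β.Zs, T - Δ ≤ S.Val M (β.c v) → v ∈ U) : S.Htp T Δ x univ α β := by
  have ka : α.k = k := hα.hk ()
  have kb : β.k = k := hβ.hk ()
  have cj : Continuous fun v : Pm E => ((), v) := by fun_prop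
  have cp : Continuous fun p : ℝ × Pm E => ((), p.2) := by fun_prop
  have oa : IsOpen α.Ω := hα.opn.preimage cj
  have ob : IsOpen β.Ω := hβ.opn.preimage cj
  have qa : ∀ i < k, ContinuousOn (fun p : ℝ × Pm E => α.q p.2 i) (univ ×ˢ α.Ω) := fun i hi =>
    (hα.qc i hi).comp cp.continuousOn fun p hp => hp.2
  have qb : ∀ i < k, ContinuousOn (fun p : ℝ × Pm E => β.q p.2 i) (univ ×ˢ β.Ω) := fun i hi =>
    (hβ.qc i hi).comp cp.continuousOn fun p hp => hp.2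
  have ca : ∀ i < M, ContinuousOn (fun p : ℝ × Pm E => α.c p.2 i) (univ ×ˢ α.Ω) := fun i hi =>
    (hα.cc i hi).comp cp.continuousOn fun p hp => hp.2
  have cb : ∀ i < M, ContinuousOn (fun p : ℝ × Pm E => β.c p.2 i) (univ ×ˢ β.Ω) := fun i hi =>
    (hβ.cc i hi).comp cp.continuousOn fun p hp => hp.2
  have qU : ∀ u, ∀ v ∈ U, ∀ i < k, (xhtpH k M α β U u).q v i = α.q v i := by
    intro u v hv i hi
    simp only [xhtpH]
    split_ifs
    exacts [rfl, (hq v hv i hi).symm]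
  have cc : ∀ i < M, ContinuousOn (fun p : ℝ × Pm E => (xhtpH k M α β U p.1).c p.2 i)
      (dom (xhtpH k M α β U)) := by
    intro i hi
    refine xhtp_cont oa hU ob ?_ ?_ ?_
    · exact ((ca i hi).mono (prod_mono (subset_univ _) subset_rfl)).congr fun p hp => by
        simp only [xhtp_lo hp.1]
    · have hs : Continuous fun p : ℝ × Pm E => clamp (3 * p.1 - 1) :=
        clamp_cont.comp (by fun_prop)
      exact ((continuous_const.sub hs).continuousOn.smul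
        ((ca i hi).mono (prod_mono subset_rfl h1))).add
          (hs.continuousOn.smul ((cb i hi).mono (prod_mono subset_rfl h2)))
    · exact ((cb i hi).mono (prod_mono (subset_univ _) subset_rfl)).congr fun p hp => by
        simp only [xhtp_hi hp.1]
  have key : ∀ p ∈ zer (xhtpH k M α β U), ∃ γ, (γ = α ∨ γ = β) ∧ p.2 ∈ γ.Zs ∧
      (∀ i < M, γ.c p.2 i = (xhtpH k M α β U p.1).c p.2 i) ∧
      ((xhtpH k M α β U p.1).c p.2 M).1 = x ∧ ((xhtpH k M α β U p.1).c p.2 0).1 = x := by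
    rintro ⟨u, v⟩ ⟨hp | hp | hp, hz⟩
    · have hv : v ∈ α.Zs := ⟨hp.2, fun i hi => by
        have := hz i (ka ▸ hi)
        simp only [xhtpH] at this
        rwa [if_pos (by linarith [hp.1])] at this⟩
      refine ⟨α, Or.inl rfl, hv, ?_⟩
      simp only [xhtp_lo hp.1]
      exact ⟨fun _ _ => trivial, hα.fam.tgt ((), v) hv, hα.fam.src ((), v) hv⟩
    · have hv : v ∈ α.Zs := ⟨h1 hp, fun i hi => (qU u v hp i (ka ▸ hi)).symm.trans
        (hz i (ka ▸ hi))⟩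
      have hv' : v ∈ β.Zs := ⟨h2 hp, fun i hi => (hq v hp i (kb ▸ hi)).symm.trans
        (hv.2 i (ka ▸ kb ▸ hi))⟩
      exact ⟨α, Or.inl rfl, hv, fun i hi => (xhtp_mid (x := x) u v i).1 (hc v hp hv i hi),
        (xhtp_mid u v M).2 (hα.fam.tgt ((), v) hv) (hβ.fam.tgt ((), v) hv'),
        (xhtp_mid u v 0).2 (hα.fam.src ((), v) hv) (hβ.fam.src ((), v) hv')⟩
    · have hv : v ∈ β.Zs := ⟨hp.2, fun i hi => by
        have := hz i (kb ▸ hi)
        simp only [xhtpH] at this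
        rwa [if_neg (by linarith [hp.1])] at this⟩
      refine ⟨β, Or.inr rfl, hv, ?_⟩
      simp only [xhtp_hi hp.1]
      exact ⟨fun _ _ => trivial, hβ.fam.tgt ((), v) hv, hβ.fam.src ((), v) hv⟩
  have key2 : ∀ p ∈ zer (xhtpH k M α β U), ∃ γ, (γ = α ∨ γ = β) ∧ p.2 ∈ γ.Zs ∧
      S.Valid M ((xhtpH k M α β U p.1).c p.2) ∧
      S.Val M (γ.c p.2) = S.Val M ((xhtpH k M α β U p.1).c p.2) := by
    intro p hp
    obtain ⟨γ, hγ, a1, a2, a3, -⟩ := key p hp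
    have hg : S.Good (fun _ : Unit => γ) k M T Δ (fun _ => x) (fun _ => x) := by
      rcases hγ with rfl | rfl
      exacts [hα, hβ]
    have a4 := (hg.fam.tgt ((), p.2) a1).trans a3.symm
    exact ⟨γ, hγ, a1, S.valid_congr a2 a4 (hg.fam.valid ((), p.2) a1), S.valT_congr _ a2 a4⟩
  obtain ⟨R, hR⟩ := hα.bdd
  have g : S.Good (xhtpH k M α β U) k M T Δ (fun _ => x) (fun _ => x) := by
    refine Good.of_cl (fun _ => rfl) (fun _ => rfl) ?_ (fun i hi => ?_) cc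
      ⟨fun i hi => (cc i hi).mono fun p hp => hp.1, fun p hp => (key2 p hp).choose_spec.2.2.1,
        fun p hp => (key p hp).choose_spec.2.2.2.2, fun p hp => (key p hp).choose_spec.2.2.2.1,
        fun p hp => ?_, fun L => ?_⟩ continuous_const _ (hα.cls.preimage cp) (fun p hp => ?_)
      (fun p hp => ?_) R fun p hp => hR _ hp
    · exact (isOpen_Iio.prod oa).union ((hU.preimage continuous_snd).union (isOpen_Ioi.prod ob))
    · refine xhtp_cont oa hU ob ?_ ?_ ?_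
      · exact ((qa i hi).mono (prod_mono (subset_univ _) subset_rfl)).congr fun p hp => by
          have : p.1 < 1 / 2 := by linarith [mem_Iio.1 hp.1]
          simp only [xhtpH, if_pos this]
      · exact ((qa i hi).mono (prod_mono subset_rfl h1)).congr fun p hp => qU _ _ hp.2 i hi
      · exact ((qb i hi).mono (prod_mono (subset_univ _) subset_rfl)).congr fun p hp => by
          have : ¬p.1 < 1 / 2 := by linarith [mem_Ioi.1 hp.1]
          simp only [xhtpH, if_neg this]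
    · obtain ⟨γ, rfl | rfl, a1, -, a2⟩ := key2 p hp
      exacts [a2 ▸ hα.fam.le ((), p.2) a1, a2 ▸ hβ.fam.le ((), p.2) a1]
    · obtain ⟨R1, hR1⟩ := hα.fam.proper L
      obtain ⟨R2, hR2⟩ := hβ.fam.proper L
      refine ⟨max R1 R2, fun p hp ⟨i, hi, hb⟩ => ?_⟩
      obtain ⟨γ, rfl | rfl, a1, -, a2⟩ := key2 p hp
      exacts [a2 ▸ hR1 ((), p.2) a1 ⟨i, hi, (le_max_left _ _).trans hb⟩,
        a2 ▸ hR2 ((), p.2) a1 ⟨i, hi, (le_max_right _ _).trans hb⟩]
    · have hv := n1 p.2 hp.1 hp.2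
      exact ⟨Or.inr (Or.inl hv), fun i hi => (qU _ _ hv i hi).trans (hp.1.2 i (ka ▸ hi))⟩
    · obtain ⟨γ, rfl | rfl, a1, -, a2⟩ := key2 p hp.1
      · exact ⟨a1, hp.2.trans_eq a2.symm⟩
      · have a3 := hp.2.trans_eq a2.symm
        have hv := n2 p.2 a1 a3
        have a4 : p.2 ∈ α.Zs := ⟨h1 hv, fun i hi => (hq _ hv i (ka ▸ hi)).trans
          (a1.2 i (kb ▸ ka ▸ hi))⟩
        exact ⟨a4, a3.trans_eq (S.valT_congr _ (hc _ hv a4)
          ((hα.fam.tgt ((), p.2) a4).trans (hβ.fam.tgt ((), p.2) a1).symm)).symm⟩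
  refine Htp.intro g (fun _ => subset_univ _)
    (Vc.ext' ka.symm (hα.hM ()).symm ?_ (if_pos (by norm_num)) ?_)
    (Vc.ext' kb.symm (hβ.hM ()).symm ?_ (if_neg (by norm_num)) ?_)
  · ext v
    refine ⟨?_, fun h => Or.inl ⟨by norm_num, h⟩⟩
    rintro (h | h | h)
    exacts [h.2, h1 h, absurd h.1 (by norm_num)]
  · funext v
    exact xhtp_lo (by norm_num) v
  · ext v
    refine ⟨?_, fun h => Or.inr (Or.inr ⟨by norm_num, h⟩)⟩
    rintro (h | h | h)
    exacts [absurd h.1 (by norm_num), h2 h, h.2]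
  · funext v
    exact xhtp_hi (by norm_num) v

end Sys

end Pool.Agent.Wein
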