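import Mathlib
import Pool.Agent.P.MP_e3ee0c_gt.XDefs

/-! Walls, extended families, slices and slots: definitions. -/

open Set Filter Topology
open scoped ContDiff InnerProductSpace

namespace Pool.Agent.Wein

variable {E : Type} [NormedAddCommGroup E] [InnerProductSpace ℝ E]

lemma Geo.StepLe.mono {G : Geo E} {m : ℕ} [NeZero m] {ρ ρ' : ℝ} {x : Fin m → E}
    (h : G.StepLe ρ x) (hρ : ρ ≤ ρ') : G.StepLe ρ' x := fun i => ⟨(h i).1, (h i).2.trans hρ⟩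

namespace Sys

variable (S : Sys E) {m : ℕ} [NeZero m]

/-- The image of the chain under pr is trivial. -/
def Tr (x : Fin m → E) : Prop := S.G0.Triv fun i => S.pr (x i)

lemma stepLe_pr {x : Fin m → E} (h : S.toGeo.StepLe (4 * S.δ) x) :
    S.G0.StepLe S.G0.δ fun i => S.pr (x i) :=
  fun i => ⟨S.prm _ (h i).1, S.prs _ (h i).1 _ (h (i + 1)).1 (h i).2⟩

omit [NeZero m] in
lemma pr_cont : Continuous fun (x : Fin m → E) (i : Fin m) => S.pr (x i) :=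
  continuous_pi fun i => S.prc.comp (continuous_apply i)

lemma tr_open {x : Fin m → E} (hs : S.toGeo.StepLe (3 * S.δ) x) (h : S.Tr x) :
    ∀ᶠ x' in 𝓝 x, S.toGeo.StepLe (3 * S.δ) x' → S.Tr x' := by
  have h0 := S.G0.δpos
  have h1 := S.δpos
  have k : ∀ y : Fin m → E, S.toGeo.StepLe (3 * S.δ) y →
      S.G0.StepLe (3 * S.G0.δ) fun i => S.pr (y i) := fun y hy =>
    (S.stepLe_pr (hy.mono (by linarith))).mono (by linarith)
  filter_upwards [S.pr_cont.continuousAt.eventually (S.G0.triv_open (k x hs) h)] with x' hx' hs'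
  exact hx' (k x' hs')

lemma tr_concat (p : ℝ → Fin m → E) (hp : Continuous p)
    (hs : ∀ t, S.toGeo.StepLe (4 * S.δ) (p t)) (h : S.Tr (p 1)) : S.Tr (p 0) :=
  S.G0.triv_concat (fun t i => S.pr (p t i)) (S.pr_cont.comp hp)
    (fun t => (S.stepLe_pr (hs t)).mono (by linarith [S.G0.δpos])) h

lemma tr_of_path (v : ℝ → Fin m → E) (T : ℝ) (hT : 0 ≤ T) (hv : ContinuousOn v (Icc 0 T))
    (hs : ∀ t ∈ Icc 0 T, S.toGeo.StepLe (3 * S.δ) (v t)) (h : S.Tr (v T)) : S.Tr (v 0) :=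
  S.G0.triv_of_path (fun t i => S.pr (v t i)) T hT (S.pr_cont.comp_continuousOn hv)
    (fun t ht => (S.stepLe_pr ((hs t ht).mono (by linarith [S.δpos]))).mono
      (by linarith [S.G0.δpos])) h

/-- The chain of a closed orbit has a trivial image. -/
lemma tr_inner {J : Type} {s : ℝ} (hs : 0 ≤ s) {ζ : Cfg E m J} {z : E × E}
    (hz : S.Inner False s ζ z) : S.Tr fun i => (ζ.1 i).1 := by
  refine S.G0.triv_const (S.prm _ hz.mem.1) fun i => ?_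
  show S.pr (ζ.1 i).1 = S.pr z.1
  rcases hs.lt_or_eq with h | h
  · obtain ⟨σ, -, -, -, hv⟩ := hz.vert
    rw [hv i]
    exact (S.per z hz.mem s h (hz.closed not_false)).1 _
  · rw [hz.const (Or.inr h.symm) i]

end Sys

/-- The representative of a point of the circle in the interval of length one around zero. -/
noncomputable def lf (a : UnitAddCircle) : ℝ := (AddCircle.equivIoc 1 (-(1 / 2)) a : ℝ)

/-- A circle valued function on N with a section, and a family of loops that are not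
null-homotopic in the fibres near zero. -/
structure Wall (N : Set E) where
  th : E → UnitAddCircle
  c : ℝ → E
  σ : E × UnitAddCircle → E
  d : ℝ
  dpos : 0 < d
  dle : d ≤ 1 / 8
  thc : ContinuousOn th N
  cu : UniformContinuous c
  cm : ∀ t, c t ∈ N
  cth : ∀ t : ℝ, th (c t) = (t : UnitAddCircle)
  σc : ContinuousOn σ ({x | x ∈ N ∧ ‖th x‖ ≤ d} ×ˢ univ)
  σm : ∀ x ∈ N, ‖th x‖ ≤ d → ∀ t, σ (x, t) ∈ N ∧ th (σ (x, t)) = th x
  σ0 : ∀ x ∈ N, ‖th x‖ ≤ d → σ (x, 0) = x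
  nt : ∀ x ∈ N, ‖th x‖ ≤ d → ∀ γ : C(UnitAddCircle, N), (∀ t, (γ t : E) = σ (x, t)) →
    ¬ γ.Nullhomotopic

namespace Wall

def K {N : Set E} (Wl : Wall N) : Set E := {x | x ∈ N ∧ ‖Wl.th x‖ ≤ Wl.d}

/-- The polygon with m steps on the loop at x, constant afterwards. -/
noncomputable def pol {N : Set E} (Wl : Wall N) (m : ℕ) (x : E) (i : ℕ) : E :=
  Wl.σ (x, ((((min i m : ℕ) : ℝ) / m : ℝ) : UnitAddCircle))

/-- The images of the loops under pr are not null-homotopic. -/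
def NT {S : Sys E} (Wl : Wall S.S) : Prop :=
  ∀ x ∈ Wl.K, ∀ γ : C(UnitAddCircle, S.G0.S), (∀ t, (γ t : S.E0) = S.pr (Wl.σ (x, t))) →
    ¬ γ.Nullhomotopic

/-- The closed tube over the wall. -/
def tube {S : Sys E} (Wl : Wall S.S) : Set E :=
  {y | (∃ x ∈ S.S, ‖y - x‖ ≤ S.δ) ∧ ‖Wl.th (S.r y)‖ ≤ Wl.d}

/-- The height of the foot point. -/
noncomputable def tau {S : Sys E} (Wl : Wall S.S) (y : E) : ℝ := lf (Wl.th (S.r y))

end Wall

/-- A proper family of closed chains at a that are not trivial, with an extra variable n. -/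
structure Sys.XFam (S : Sys E) {X : Type} [TopologicalSpace X] (s : Set X) (pr : X → ℕ → E)
    (M : ℕ) [NeZero M] (a n : X → E) (c : X → Ch E) : Prop where
  cont : ∀ i < M, ContinuousOn (fun p => c p i) s
  nc : ContinuousOn n s
  valid : ∀ p ∈ s, S.Valid M (c p)
  src : ∀ p ∈ s, (c p 0).1 = a p
  tgt : ∀ p ∈ s, (c p M).1 = a p
  proper : ∀ L, ∃ R : ℝ, ∀ p ∈ s, (∃ i < M, R ≤ ‖pr p i‖) →
    S.Val M (c p) + S.Q (a p) (n p) ≤ -L
  nt : ∀ p ∈ s, ¬ S.Tr fun i : Fin M => (c p i).1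

/-- The family of loops over the wall, pushed down more and more as the height grows. -/
structure Slice (S : Sys E) (Wl : Wall S.S) (m1 M : ℕ) (Λ L' t' L : ℝ) where
  β : E × (ℕ → E) → E
  n : E × (ℕ → E) → E
  H : E × (ℕ → E) → ℝ
  ch : E × (ℕ → E) → Ch E
  βc : ContinuousOn β (Wl.tube ×ˢ univ)
  nc : ContinuousOn n (Wl.tube ×ˢ univ)
  Hc : ContinuousOn H (Wl.tube ×ˢ univ)
  cont : ∀ i < M, ContinuousOn (fun p => ch p i) (Wl.tube ×ˢ univ)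
  βS : ∀ p, p.1 ∈ Wl.tube → β p ∈ S.S
  valid : ∀ p, p.1 ∈ Wl.tube → S.Valid M (ch p)
  src : ∀ p, p.1 ∈ Wl.tube → (ch p 0).1 = β p
  tgt : ∀ p, p.1 ∈ Wl.tube → (ch p M).1 = β p
  Hth : ∀ p, p.1 ∈ Wl.tube → ((H p : ℝ) : UnitAddCircle) = Wl.th (β p)
  le : ∀ p, p.1 ∈ Wl.tube → S.Val M (ch p) + S.Q (β p) (n p) ≤ m1 * (S.St.τ₀ / 4)
  proper : ∀ B, ∃ R : ℝ, ∀ p, p.1 ∈ Wl.tube → (∃ i < M, R ≤ ‖p.2 i‖) →
    S.Val M (ch p) + S.Q (β p) (n p) ≤ -B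
  start : ∀ p, p.1 ∈ Wl.tube → Wl.tau p.1 ≤ 0 → β p = S.r p.1 ∧ n p = Λ • (p.1 - S.r p.1) ∧
    H p = Wl.tau p.1 ∧ ∀ i < M, ch p i = S.unit (Wl.pol m1 (S.r p.1)) p.2 i
  far : ∀ p, p.1 ∈ Wl.tube → |H p| ≤ t' - 1 ∨ S.Val M (ch p) + S.Q (β p) (n p) ≤ -L'
  edge : ∀ p, p.1 ∈ Wl.tube → Wl.d / 2 ≤ Wl.tau p.1 ∨ S.δ ≤ ‖p.1 - S.r p.1‖ →
    S.Val M (ch p) + S.Q (β p) (n p) ≤ -L

/-- The position of the target. -/
def rho (v : Pm E) : ℝ := (v.1 0).2 - 1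

/-- The folding function. -/
noncomputable def ff (ε ρ τ : ℝ) : ℝ := ρ + 2 * max 0 (-ρ + 2 * min 0 τ / ε)

/-- The parameter of the slice. -/
def Wall.pt {N : Set E} (Wl : Wall N) (ε : ℝ) (v : Pm E) : E × (ℕ → E) :=
  ((v.1 0).1 + Wl.c (ε * rho v), fun i => v.2 (1 + i))

namespace Slice

variable {S : Sys E} {Wl : Wall S.S} {m1 M : ℕ} {Λ L' t' L : ℝ} (Z : Slice S Wl m1 M Λ L' t' L)

/-- The members of the slice whose base point is the target tg at height hh, as chains at xb. -/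
noncomputable def slot (ε μ' : ℝ) (xb : E) (tg : ℝ → E) (hh : ℝ → ℝ) (vv : ℝ)
    (I : Set (ℝ × ℝ)) : Vc E where
  k := 1
  M := 1 + (M + 1)
  Ω := {v | (Wl.pt ε v).1 ∈ Metric.thickening S.δ S.S ∧ ‖Wl.th (S.r (Wl.pt ε v).1)‖ < Wl.d ∧
    ‖Z.n (Wl.pt ε v)‖ < Λ * μ' ∧ |Z.H (Wl.pt ε v) - hh (rho v)| < 1 / 4 ∧
    (rho v, Wl.tau (Wl.pt ε v).1) ∈ I}
  q v _ := (Z.β (Wl.pt ε v) + Λ⁻¹ • Z.n (Wl.pt ε v) - tg (rho v),
    ff ε (rho v) (Wl.tau (Wl.pt ε v).1) - vv)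
  c v := cat 1 (S.unit (fun i => if i = 0 then xb else Z.β (Wl.pt ε v)) v.2)
    (cat M (Z.ch (Wl.pt ε v))
      (S.unit (fun i => if i = 0 then Z.β (Wl.pt ε v) else xb) fun i => v.2 (1 + (M + i))))

end Slice

/-- The choice of the constants. -/
structure Consts (S : Sys E) (Wl : Wall S.S) (m1 M : ℕ) (Λ t' L ε μ' Δ : ℝ) : Prop where
  m1pos : 0 < m1
  m1le : m1 ≤ M
  step : ∀ x ∈ Wl.K, ∀ s t : ℝ, |s - t| ≤ 1 / (m1 : ℝ) →
    ‖Wl.σ (x, (s : UnitAddCircle)) - Wl.σ (x, (t : UnitAddCircle))‖ ≤ S.μ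
  Λpos : 0 < Λ
  t'nn : 0 ≤ t'
  μ'pos : 0 < μ'
  μ'le : 2 * μ' ≤ S.μ
  md : ∀ x ∈ S.S, ∀ x' ∈ S.S, ‖x - x'‖ ≤ μ' → ‖Wl.th x - Wl.th x'‖ ≤ 1 / 8
  hL : Δ + 1 ≤ L
  hΛ : Δ < 7 / 8 * (Λ * μ') ^ 2
  εpos : 0 < ε
  εle : 2 * ε ≤ Wl.d
  εc : ∀ s t, |s - t| ≤ 2 * ε → ‖Wl.c s - Wl.c t‖ ≤ μ'

open TopAux

/-- The base point of the letters that move up. -/
noncomputable def Wall.bX {N : Set E} (Wl : Wall N) (ε t' u : ℝ) : E := Wl.c (t' * clamp u - ε)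

/-- The base point of the letters that move down or around the loop. -/
noncomputable def Wall.bY {N : Set E} (Wl : Wall N) (ε t' u : ℝ) : E :=
  Wl.σ (Wl.c (-ε), ((clamp u : ℝ) : UnitAddCircle)) + Wl.c (-ε + t' * min u 0) - Wl.c (-ε)

/-- Truncation to the interval from -2 to -1/2. -/
noncomputable def trc (ρ : ℝ) : ℝ := max (-2) (min ρ (-(1 / 2)))

namespace Slice

variable {S : Sys E} {Wl : Wall S.S} {m1 M : ℕ} {Λ L' t' L : ℝ} (Z : Slice S Wl m1 M Λ L' t' L)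

noncomputable def cob (ε μ' u : ℝ) : Vc E :=
  Z.slot ε μ' (Wl.c (-ε)) (fun ρ => Wl.c (ε * ρ)) (fun ρ => ε * ρ) (2 * clamp u - 1) univ

noncomputable def plus (ε μ' u : ℝ) : Vc E :=
  Z.slot ε μ' (Wl.bX ε t' u) (fun ρ => Wl.c (t' * clamp u + ε * ρ))
    (fun ρ => t' * clamp u + ε * ρ) 1 {p | 0 < p.1}

noncomputable def minus (ε μ' u : ℝ) : Vc E :=
  Z.slot ε μ' (Wl.bY ε t' u)
    (fun ρ => Wl.σ (Wl.c (ε * trc ρ), ((clamp u : ℝ) : UnitAddCircle)) +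
      Wl.c (ε * trc ρ + t' * min u 0) - Wl.c (ε * trc ρ))
    (fun ρ => ε * trc ρ + t' * min u 0) 1 {p | -2 < p.1 ∧ p.1 < -(1 / 2) ∧ -(ε / 2) < p.2}

end Slice

end Pool.Agent.Wein
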