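import Mathlib
import Pool.Agent.P.MP_e3ee0c_gt.XWall

/-! Lifts of circle valued functions. -/

open Set Filter Topology
open scoped ContDiff InnerProductSpace

namespace Pool.Agent.Wein

open TopAux

variable {E : Type} [NormedAddCommGroup E] [InnerProductSpace ℝ E]

lemma xtopa_norm {t : ℝ} (h : |t| ≤ 1 / 2) : ‖(t : UnitAddCircle)‖ = |t| :=
  (AddCircle.norm_coe_eq_abs_iff (1 : ℝ) one_ne_zero).2 (by rwa [abs_one])

lemma lf_coe (a : UnitAddCircle) : ((lf a : ℝ) : UnitAddCircle) = a :=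
  AddCircle.coe_equivIoc

lemma abs_lf (a : UnitAddCircle) : |lf a| = ‖a‖ := by
  have h := (AddCircle.equivIoc 1 (-(1 / 2)) a).2
  have h' : |lf a| ≤ 1 / 2 := abs_le.2 ⟨h.1.le, by have := h.2; unfold lf; linarith⟩
  rw [← xtopa_norm h', lf_coe]

lemma lf_of {t : ℝ} (h : |t| < 1 / 2) : lf (t : UnitAddCircle) = t := by
  have h' := abs_lt.1 h
  exact AddCircle.equivIoc_coe_of_mem ⟨h'.1, by linarith [h'.2]⟩

lemma lf_cont : ContinuousOn lf {a | ‖a‖ < 1 / 2} := by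
  intro a ha
  have hne : a ≠ ((-(1 / 2) : ℝ) : UnitAddCircle) := by
    rintro rfl
    have h : ‖((-(1 / 2) : ℝ) : UnitAddCircle)‖ = |(-(1 / 2) : ℝ)| :=
      xtopa_norm (by rw [abs_neg, abs_of_pos] <;> norm_num)
    rw [abs_neg, abs_of_pos (by norm_num)] at h
    exact absurd ha (by rw [mem_ofPred_eq, h]; exact lt_irrefl _)
  exact (continuous_subtype_val.continuousAt.comp
    (AddCircle.continuousAt_equivIoc 1 (-(1 / 2)) hne)).continuousWithinAt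

lemma eq_of_coe {a b : ℝ} (h : (a : UnitAddCircle) = (b : UnitAddCircle)) (h' : |a - b| < 1) :
    a = b := by
  have h0 : ((a - b : ℝ) : UnitAddCircle) = 0 := by rw [AddCircle.coe_sub, h, sub_self]
  obtain ⟨n, hn⟩ := (AddCircle.coe_eq_zero_iff (1 : ℝ)).1 h0
  rw [zsmul_eq_mul, mul_one] at hn
  rw [← hn] at h'
  have h1 : |n| < 1 := by exact_mod_cast h'
  have h2 : n = 0 := Int.abs_lt_one_iff.1 h1
  rw [h2, Int.cast_zero] at hn
  linarith

lemma near_of_coe {a b : ℝ} (h : ‖(a : UnitAddCircle) - (b : UnitAddCircle)‖ ≤ 1 / 8)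
    (h' : |a - b| ≤ 1 / 4) : |a - b| ≤ 1 / 8 := by
  rwa [← AddCircle.coe_sub, xtopa_norm (h'.trans (by norm_num))] at h

lemma xtopa_clamp_nonpos {u : ℝ} (h : u ≤ 0) : clamp u = 0 :=
  max_eq_left ((min_le_right _ _).trans h)

lemma xtopa_coe_sum (n : ℕ) (f : ℕ → ℝ) :
    ((∑ i ∈ Finset.range n, f i : ℝ) : UnitAddCircle) =
      ∑ i ∈ Finset.range n, (f i : UnitAddCircle) := by
  induction n with
  | zero => simp
  | succ n ih => rw [Finset.sum_range_succ, Finset.sum_range_succ, AddCircle.coe_add, ih]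

namespace Wall

variable {N : Set E} (Wl : Wall N)

lemma modulus (hN : IsCompact N) {η : ℝ} (hη : 0 < η) :
    ∃ ρ > 0, ∀ x ∈ N, ∀ x' ∈ N, ‖x - x'‖ ≤ ρ → ‖Wl.th x - Wl.th x'‖ ≤ η := by
  obtain ⟨ρ, hρ, h⟩ := Metric.uniformContinuousOn_iff_le.1
    (hN.uniformContinuousOn_of_continuous Wl.thc) η hη
  refine ⟨ρ, hρ, fun x hx x' hx' hd => ?_⟩
  rw [← dist_eq_norm] at hd ⊢
  exact h x hx x' hx' hd

lemma K_compact (hN : IsCompact N) : IsCompact Wl.K := by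
  have h : IsClosed (N ∩ (fun x => ‖Wl.th x‖) ⁻¹' Iic Wl.d) :=
    Wl.thc.norm.preimage_isClosed_of_isClosed hN.isClosed isClosed_Iic
  exact hN.of_isClosed_subset h fun x hx => hx.1

lemma σ_mod (hN : IsCompact N) {η : ℝ} (hη : 0 < η) :
    ∃ ρ > 0, ∀ x ∈ Wl.K, ∀ s t : UnitAddCircle, ‖s - t‖ ≤ ρ → ‖Wl.σ (x, s) - Wl.σ (x, t)‖ ≤ η := by
  have hc : IsCompact (Wl.K ×ˢ (univ : Set UnitAddCircle)) :=
    (Wl.K_compact hN).prod isCompact_univ
  obtain ⟨ρ, hρ, h⟩ := Metric.uniformContinuousOn_iff_le.1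
    (hc.uniformContinuousOn_of_continuous Wl.σc) η hη
  refine ⟨ρ, hρ, fun x hx s t hd => ?_⟩
  rw [← dist_eq_norm] at hd ⊢
  refine h (x, s) ⟨hx, mem_univ _⟩ (x, t) ⟨hx, mem_univ _⟩ ?_
  rw [Prod.dist_eq, dist_self]
  exact max_le hρ.le hd

lemma c_mem_K {t : ℝ} (h : |t| ≤ Wl.d) : Wl.c t ∈ Wl.K := by
  refine ⟨Wl.cm t, ?_⟩
  have := Wl.dle
  rw [Wl.cth, xtopa_norm (by linarith)]
  exact h

/-- The change of height along paths of bounded speed is bounded. -/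
theorem lift (hN : IsCompact N) (D : ℝ) (hD : 0 ≤ D) : ∃ t : ℝ, 0 ≤ t ∧
    ∀ {X : Type} [TopologicalSpace X] (s : Set X) (a : ℝ × X → E), ContinuousOn a (univ ×ˢ s) →
      (∀ u, ∀ p ∈ s, a (u, p) ∈ N) →
      (∀ u u', ∀ p ∈ s, ‖a (u, p) - a (u', p)‖ ≤ D * |u - u'|) →
      ∃ h : ℝ × X → ℝ, ContinuousOn h (univ ×ˢ s) ∧ ∀ u, ∀ p ∈ s,
        ((h (u, p) : ℝ) : UnitAddCircle) = Wl.th (a (clamp u, p)) - Wl.th (a (0, p)) ∧
        |h (u, p)| ≤ t ∧ (u ≤ 0 → h (u, p) = 0) := by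
  obtain ⟨ρ, hρ, hm⟩ := Wl.modulus hN (η := 1 / 4) (by norm_num)
  obtain ⟨n, hn⟩ := exists_nat_gt (D / ρ)
  have hn0 : (0 : ℝ) < n := (div_nonneg hD hρ.le).trans_lt hn
  have hDn : D / n ≤ ρ := by
    rw [div_lt_iff₀ hρ] at hn
    rw [div_le_iff₀ hn0]
    linarith
  refine ⟨n, hn0.le, fun {X} _ s a ha haN hal => ?_⟩
  let φ : ℕ → ℝ × X → UnitAddCircle := fun i q => Wl.th (a (clamp q.1 * ((i : ℝ) / n), q.2))
  have hφ : ∀ i, ContinuousOn (φ i) (univ ×ˢ s) := fun i => by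
    have h1 : Continuous fun q : ℝ × X => (clamp q.1 * ((i : ℝ) / n), q.2) :=
      ((clamp_cont.comp continuous_fst).mul continuous_const).prodMk continuous_snd
    exact Wl.thc.comp (ha.comp h1.continuousOn fun q hq => ⟨mem_univ _, hq.2⟩)
      fun q hq => haN _ _ hq.2
  have hs : ∀ i, ∀ q : ℝ × X, q.2 ∈ s → ‖φ (i + 1) q - φ i q‖ ≤ 1 / 4 := fun i q hq => by
    refine hm _ (haN _ _ hq) _ (haN _ _ hq) ((hal _ _ _ hq).trans (le_trans ?_ hDn))
    have hc := clamp_mem q.1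
    have e : clamp q.1 * (((i + 1 : ℕ) : ℝ) / n) - clamp q.1 * ((i : ℝ) / n) = clamp q.1 / n := by
      push_cast
      ring
    rw [e, abs_of_nonneg (div_nonneg hc.1 hn0.le), ← mul_div_assoc]
    exact div_le_div_of_nonneg_right (mul_le_of_le_one_right hD hc.2) hn0.le
  refine ⟨fun q => ∑ i ∈ Finset.range n, lf (φ (i + 1) q - φ i q), ?_, fun u p hp => ⟨?_, ?_, ?_⟩⟩
  · refine continuousOn_finsetSum _ fun i _ => lf_cont.comp ((hφ _).sub (hφ _)) fun q hq => ?_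
    exact (hs i q hq.2).trans_lt (by norm_num)
  · rw [xtopa_coe_sum]
    simp only [lf_coe]
    rw [Finset.sum_range_sub (fun i => φ i (u, p))]
    simp only [φ, div_self hn0.ne', mul_one, Nat.cast_zero, zero_div, mul_zero]
  · refine (Finset.abs_sum_le_sum_abs _ _).trans ?_
    have := Finset.sum_le_card_nsmul (Finset.range n)
      (fun i => |lf (φ (i + 1) (u, p) - φ i (u, p))|) 1 fun i _ => by
        rw [abs_lf]
        exact (hs i (u, p) hp).trans (by norm_num)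
    simpa using this
  · intro hu
    refine Finset.sum_eq_zero fun i _ => ?_
    have h0 : lf ((0 : ℝ) : UnitAddCircle) = 0 := lf_of (by norm_num)
    simp only [φ, xtopa_clamp_nonpos hu, zero_mul, sub_self]
    exact h0

end Wall

lemma xtopa_r (S : Sys E) {y : E} (hy : ∃ x ∈ S.S, ‖y - x‖ ≤ S.δ) : S.r y ∈ S.S :=
  let ⟨_, hx, hu⟩ := hy
  (S.tube hx hu).1

lemma xtopa_thick (S : Sys E) {y : E} (hy : y ∈ Metric.thickening S.δ S.S) :
    ∃ x ∈ S.S, ‖y - x‖ ≤ S.δ := by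
  obtain ⟨x, hx, hd⟩ := Metric.mem_thickening_iff.1 hy
  exact ⟨x, hx, by rw [← dist_eq_norm]; exact hd.le⟩

namespace Wall

variable {S : Sys E} (Wl : Wall S.S)

lemma xtopa_thr : ContinuousOn (fun y => Wl.th (S.r y)) {y | ∃ x ∈ S.S, ‖y - x‖ ≤ S.δ} :=
  Wl.thc.comp S.smooth.continuous.continuousOn fun _ hy => xtopa_r S hy

lemma r_mem {y : E} (hy : y ∈ Wl.tube) : S.r y ∈ Wl.K := ⟨xtopa_r S hy.1, hy.2⟩

lemma tube_compact [FiniteDimensional ℝ E] : IsCompact Wl.tube := by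
  have hT : IsCompact {y | ∃ x ∈ S.S, ‖y - x‖ ≤ S.δ} := by
    have h1 : {y | ∃ x ∈ S.S, ‖y - x‖ ≤ S.δ} =
        (fun q : E × E => q.1 + q.2) '' (S.S ×ˢ Metric.closedBall 0 S.δ) := by
      ext u
      constructor
      · rintro ⟨x, hx, hu⟩
        exact ⟨(x, u - x), ⟨hx, by simpa using hu⟩, by simp⟩
      · rintro ⟨⟨x, v⟩, ⟨hx, hv⟩, rfl⟩
        exact ⟨x, hx, by simpa using hv⟩
    rw [h1]
    exact (S.compact.prod (isCompact_closedBall _ _)).image (by fun_prop)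
  have h : IsClosed ({y | ∃ x ∈ S.S, ‖y - x‖ ≤ S.δ} ∩
      (fun y => ‖Wl.th (S.r y)‖) ⁻¹' Iic Wl.d) :=
    Wl.xtopa_thr.norm.preimage_isClosed_of_isClosed hT.isClosed isClosed_Iic
  exact hT.of_isClosed_subset h fun x hx => hx.1

lemma tube_closed [FiniteDimensional ℝ E] : IsClosed Wl.tube := Wl.tube_compact.isClosed

lemma tau_cont : ContinuousOn Wl.tau Wl.tube := by
  refine lf_cont.comp (Wl.xtopa_thr.mono fun _ hy => hy.1) fun y hy => ?_
  have h1 := Wl.dle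
  have h2 := hy.2
  change ‖Wl.th (S.r y)‖ < 1 / 2
  linarith

lemma tau_coe (y : E) : ((Wl.tau y : ℝ) : UnitAddCircle) = Wl.th (S.r y) := lf_coe _

lemma abs_tau (y : E) : |Wl.tau y| = ‖Wl.th (S.r y)‖ := abs_lf _

/-- The open tube. -/
lemma open_tube : IsOpen {y | y ∈ Metric.thickening S.δ S.S ∧ ‖Wl.th (S.r y)‖ < Wl.d} ∧
    {y | y ∈ Metric.thickening S.δ S.S ∧ ‖Wl.th (S.r y)‖ < Wl.d} ⊆ Wl.tube := by
  refine ⟨?_, fun y hy => ⟨xtopa_thick S hy.1, hy.2.le⟩⟩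
  exact (Wl.xtopa_thr.mono fun _ hy => xtopa_thick S hy).norm.isOpen_inter_preimage
    Metric.isOpen_thickening (isOpen_Iio (a := Wl.d))

end Wall

end Pool.Agent.Wein
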