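import Mathlib
import Pool.Agent.P.MP_e3ee0c_gt.XTopA
import Pool.Agent.P.MP_e3ee0c_gt.XGoodA
import Pool.Agent.P.MP_e3ee0c_gt.WLink

/-! Slots: continuity, and the solutions of the equations. -/

open Set Filter Topology
open scoped ContDiff InnerProductSpace

namespace Pool.Agent.Wein

variable {E : Type} [NormedAddCommGroup E] [InnerProductSpace ℝ E] [FiniteDimensional ℝ E]

/-- The conditions on the data of a family of slots. -/
structure SlotData (S : Sys E) (Wl : Wall S.S) (ε μ' : ℝ) {W : Type} [TopologicalSpace W]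
    (xb : W → E) (tg : W → ℝ → E) (hh : W → ℝ → ℝ) (vv : W → ℝ) (I I' : Set (ℝ × ℝ)) : Prop where
  xc : Continuous xb
  tc : Continuous fun p : W × ℝ => tg p.1 p.2
  hc : Continuous fun p : W × ℝ => hh p.1 p.2
  vc : Continuous vv
  xS : ∀ w, xb w ∈ S.S
  tS : ∀ w ρ, tg w ρ ∈ S.S
  tth : ∀ w ρ, Wl.th (tg w ρ) = ((hh w ρ : ℝ) : UnitAddCircle)
  Io : IsOpen I
  Ic : IsClosed I'
  sub : I ⊆ I'
  key : ∀ w ρ τ, (ρ, τ) ∈ I' → ff ε ρ τ = vv w → |τ| ≤ Wl.d → (τ ≤ 0 → τ = hh w ρ) →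
    (ρ, τ) ∈ I ∧ -Wl.d < τ ∧ |ρ| ≤ 2 ∧ ‖tg w ρ - xb w‖ ≤ μ'

omit [InnerProductSpace ℝ E] [FiniteDimensional ℝ E] in
lemma xslota_rho : Continuous (rho : Pm E → ℝ) := by
  unfold rho
  fun_prop

omit [InnerProductSpace ℝ E] [FiniteDimensional ℝ E] in
lemma xslota_pt {N : Set E} (Wl : Wall N) (ε : ℝ) : Continuous (Wl.pt ε) := by
  have h1 := Wl.cu.continuous
  have h2 : Continuous (rho : Pm E → ℝ) := xslota_rho
  unfold Wall.pt
  fun_prop

lemma xslota_ff (ε : ℝ) : Continuous fun p : ℝ × ℝ => ff ε p.1 p.2 := by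
  unfold ff
  fun_prop

namespace Slice

variable {S : Sys E} {Wl : Wall S.S} {m1 M : ℕ} {Λ L' t' L ε μ' Δ : ℝ}
  (Z : Slice S Wl m1 M Λ L' t' L)

/-- What the first equation gives. -/
lemma sol (C : Consts S Wl m1 M Λ t' L ε μ' Δ) {p : E × (ℕ → E)} (hp : p.1 ∈ Wl.tube) {g : E}
    (hg : g ∈ S.S) {h : ℝ} (hth : Wl.th g = ((h : ℝ) : UnitAddCircle))
    (hn : ‖Z.n p‖ ≤ Λ * μ') (hH : |Z.H p - h| ≤ 1 / 4) (hq : Z.β p + Λ⁻¹ • Z.n p - g = 0) :
    ‖Z.β p - g‖ ≤ μ' ∧ 7 / 8 * ‖Z.n p‖ ^ 2 ≤ S.Q (Z.β p) (Z.n p) ∧ |Z.H p - h| < 1 / 4 ∧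
      (Wl.tau p.1 ≤ 0 → Wl.tau p.1 = h ∧ p.1 = g) := by
  have hΛ := C.Λpos
  have hβ := Z.βS p hp
  have e1 : Z.β p - g = -(Λ⁻¹ • Z.n p) := by
    rw [← sub_eq_zero, ← hq]
    abel
  have e2 : Z.n p = (-Λ) • (Z.β p - g) := by
    rw [e1, smul_neg, neg_smul, neg_neg, smul_smul, mul_inv_cancel₀ hΛ.ne', one_smul]
  have h1 : ‖Z.β p - g‖ ≤ μ' := by
    rw [e1, norm_neg, norm_smul, Real.norm_eq_abs, abs_of_pos (inv_pos.2 hΛ),
      inv_mul_le_iff₀ hΛ]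
    exact hn
  have h2 : |Z.H p - h| ≤ 1 / 8 := by
    refine near_of_coe ?_ hH
    rw [Z.Hth p hp, ← hth]
    exact C.md _ hβ _ hg h1
  refine ⟨h1, ?_, h2.trans_lt (by norm_num), fun h0 => ?_⟩
  · have h3 := Link.Q_ge S hβ hg
      (by linarith [C.μ'le, C.μ'pos, S.μ_le, S.δpos]) (-Λ)
    rwa [← e2] at h3
  · obtain ⟨s1, s2, s3, -⟩ := Z.start p hp h0
    have e3 : p.1 = g := by
      rw [s1, s2, smul_smul, inv_mul_cancel₀ hΛ.ne', one_smul, add_sub_cancel, sub_eq_zero] at hq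
      exact hq
    refine ⟨eq_of_coe ?_ ?_, e3⟩
    · rw [Wl.tau_coe, e3, S.fix g hg, hth]
    · rw [← s3]
      exact h2.trans_lt (by norm_num)

variable {W : Type} [TopologicalSpace W] {xb : W → E} {tg : W → ℝ → E} {hh : W → ℝ → ℝ}
  {vv : W → ℝ} {I I' : Set (ℝ × ℝ)}

lemma slot_open (D : SlotData S Wl ε μ' xb tg hh vv I I') :
    IsOpen (dom fun w => Z.slot ε μ' (xb w) (tg w) (hh w) (vv w) I) := by
  have hpt : Continuous fun p : W × Pm E => Wl.pt ε p.2 := (xslota_pt Wl ε).comp continuous_snd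
  have hρ : Continuous fun p : W × Pm E => rho p.2 := xslota_rho.comp continuous_snd
  let U : Set (W × Pm E) := (fun p => (Wl.pt ε p.2).1) ⁻¹'
    {y | y ∈ Metric.thickening S.δ S.S ∧ ‖Wl.th (S.r y)‖ < Wl.d}
  have hU : IsOpen U := Wl.open_tube.1.preimage hpt.fst
  have hm : MapsTo (fun p : W × Pm E => Wl.pt ε p.2) U (Wl.tube ×ˢ univ) :=
    fun p hp => ⟨Wl.open_tube.2 hp, mem_univ _⟩
  have c1 : ContinuousOn (fun p : W × Pm E => ‖Z.n (Wl.pt ε p.2)‖) U :=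
    (Z.nc.comp hpt.continuousOn hm).norm
  have c2 : ContinuousOn (fun p : W × Pm E => |Z.H (Wl.pt ε p.2) - hh p.1 (rho p.2)|) U :=
    ((Z.Hc.comp hpt.continuousOn hm).sub
      (D.hc.comp (continuous_fst.prodMk hρ)).continuousOn).abs
  have c3 : ContinuousOn (fun p : W × Pm E => (rho p.2, Wl.tau (Wl.pt ε p.2).1)) U :=
    hρ.continuousOn.prodMk (Wl.tau_cont.comp hpt.fst.continuousOn fun p hp => (hm hp).1)
  have o1 := c1.isOpen_inter_preimage hU (isOpen_Iio (a := Λ * μ'))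
  have o2 := c2.isOpen_inter_preimage hU (isOpen_Iio (a := (1 / 4 : ℝ)))
  have o3 := c3.isOpen_inter_preimage hU D.Io
  convert o1.inter (o2.inter o3) using 1
  ext p
  exact ⟨fun h => ⟨⟨⟨h.1, h.2.1⟩, h.2.2.1⟩, ⟨⟨h.1, h.2.1⟩, h.2.2.2.1⟩, ⟨h.1, h.2.1⟩, h.2.2.2.2⟩,
    fun h => ⟨h.1.1.1, h.1.1.2, h.1.2, h.2.1.2, h.2.2.2⟩⟩

lemma slot_qc (D : SlotData S Wl ε μ' xb tg hh vv I I') (i : ℕ) :
    ContinuousOn (fun p : W × Pm E =>
      (Z.slot ε μ' (xb p.1) (tg p.1) (hh p.1) (vv p.1) I).q p.2 i)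
      (dom fun w => Z.slot ε μ' (xb w) (tg w) (hh w) (vv w) I) := by
  have hpt : Continuous fun p : W × Pm E => Wl.pt ε p.2 := (xslota_pt Wl ε).comp continuous_snd
  have hρ : Continuous fun p : W × Pm E => rho p.2 := xslota_rho.comp continuous_snd
  have hm : MapsTo (fun p : W × Pm E => Wl.pt ε p.2)
      (dom fun w => Z.slot ε μ' (xb w) (tg w) (hh w) (vv w) I) (Wl.tube ×ˢ univ) :=
    fun p hp => ⟨Wl.open_tube.2 ⟨hp.1, hp.2.1⟩, mem_univ _⟩
  refine ContinuousOn.prodMk ?_ ?_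
  · exact ((Z.βc.comp hpt.continuousOn hm).add
      ((Z.nc.comp hpt.continuousOn hm).const_smul Λ⁻¹)).sub
      (D.tc.comp (continuous_fst.prodMk hρ)).continuousOn
  · exact ((xslota_ff ε).comp_continuousOn (hρ.continuousOn.prodMk
      (Wl.tau_cont.comp hpt.fst.continuousOn fun p hp => (hm hp).1))).sub
      (D.vc.comp continuous_fst).continuousOn

lemma slot_cc (D : SlotData S Wl ε μ' xb tg hh vv I I') : ∀ i < 1 + (M + 1),
    ContinuousOn (fun p : W × Pm E =>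
      (Z.slot ε μ' (xb p.1) (tg p.1) (hh p.1) (vv p.1) I).c p.2 i)
      (dom fun w => Z.slot ε μ' (xb w) (tg w) (hh w) (vv w) I) := by
  have hpt : Continuous fun p : W × Pm E => Wl.pt ε p.2 := (xslota_pt Wl ε).comp continuous_snd
  have hm : MapsTo (fun p : W × Pm E => Wl.pt ε p.2)
      (dom fun w => Z.slot ε μ' (xb w) (tg w) (hh w) (vv w) I) (Wl.tube ×ˢ univ) :=
    fun p hp => ⟨Wl.open_tube.2 ⟨hp.1, hp.2.1⟩, mem_univ _⟩
  have hP : ∀ j, Continuous fun p : W × Pm E => p.2.2 j := fun j => by fun_prop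
  refine continuousOn_cat (fun i hi => ?_) (continuousOn_cat (fun i hi => ?_) fun i hi => ?_)
  · obtain rfl : i = 0 := by omega
    exact S.unit_cont (v := fun (p : W × Pm E) i => if i = 0 then xb p.1 else Z.β (Wl.pt ε p.2))
      (P := fun p => p.2.2) (D.xc.comp continuous_fst).continuousOn (hP 0).continuousOn
      fun p _ => D.xS p.1
  · exact (Z.cont i hi).comp hpt.continuousOn hm
  · obtain rfl : i = 0 := by omega
    exact S.unit_cont (v := fun (p : W × Pm E) i => if i = 0 then Z.β (Wl.pt ε p.2) else xb p.1)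
      (P := fun p i => p.2.2 (1 + (M + i))) (Z.βc.comp hpt.continuousOn hm)
      (hP _).continuousOn fun p hp => Z.βS _ (hm hp).1

end Slice

end Pool.Agent.Wein
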