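import Mathlib
import Pool.Agent.P.MP_e3ee0c_gt.XSlotA

/-! Slots are good families. -/

open Set Filter Topology
open scoped ContDiff InnerProductSpace

namespace Pool.Agent.Wein

variable {E : Type} [NormedAddCommGroup E] [InnerProductSpace ℝ E] [FiniteDimensional ℝ E]

omit [FiniteDimensional ℝ E] [InnerProductSpace ℝ E] in
lemma xslotb_pt {N : Set E} (Wl : Wall N) (ε : ℝ) : Continuous (Wl.pt ε) := by
  have := Wl.cu.continuous
  unfold Wall.pt rho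
  fun_prop

omit [FiniteDimensional ℝ E] [InnerProductSpace ℝ E] in
lemma xslotb_rho : Continuous (rho : Pm E → ℝ) := by
  unfold rho
  fun_prop

lemma xslotb_ff (ε : ℝ) : Continuous fun p : ℝ × ℝ => ff ε p.1 p.2 := by
  unfold ff
  fun_prop

namespace Slice

variable {S : Sys E} {Wl : Wall S.S} {m1 M : ℕ} {Λ L' t' L ε μ' Δ : ℝ}
  (Z : Slice S Wl m1 M Λ L' t' L)
  {W : Type} [TopologicalSpace W] {xb : W → E} {tg : W → ℝ → E} {hh : W → ℝ → ℝ}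
  {vv : W → ℝ} {I I' : Set (ℝ × ℝ)}

/-- What the closed conditions and the equations give. -/
lemma xslotb_facts (C : Consts S Wl m1 M Λ t' L ε μ' Δ)
    (D : SlotData S Wl ε μ' xb tg hh vv I I') (w : W) (v : Pm E)
    (h1 : (Wl.pt ε v).1 ∈ Wl.tube) (h2 : ‖Z.n (Wl.pt ε v)‖ ≤ Λ * μ')
    (h3 : |Z.H (Wl.pt ε v) - hh w (rho v)| ≤ 1 / 4) (h4 : (rho v, Wl.tau (Wl.pt ε v).1) ∈ I')
    (h5 : (Z.slot ε μ' (xb w) (tg w) (hh w) (vv w) I).q v 0 = 0) :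
    ‖xb w - Z.β (Wl.pt ε v)‖ ≤ S.μ ∧
      7 / 8 * ‖Z.n (Wl.pt ε v)‖ ^ 2 ≤ S.Q (Z.β (Wl.pt ε v)) (Z.n (Wl.pt ε v)) ∧
      |Z.H (Wl.pt ε v) - hh w (rho v)| < 1 / 4 ∧ (rho v, Wl.tau (Wl.pt ε v).1) ∈ I ∧
      -Wl.d < Wl.tau (Wl.pt ε v).1 ∧ |rho v| ≤ 2 := by
  have e1 : Z.β (Wl.pt ε v) + Λ⁻¹ • Z.n (Wl.pt ε v) - tg w (rho v) = 0 := congrArg Prod.fst h5
  have e2 : ff ε (rho v) (Wl.tau (Wl.pt ε v).1) - vv w = 0 := congrArg Prod.snd h5
  obtain ⟨a1, a2, a3, a4⟩ := Z.sol C h1 (D.tS w _) (D.tth w _) h2 h3 e1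
  obtain ⟨b1, b2, b3, b4⟩ := D.key w _ _ h4 (sub_eq_zero.1 e2)
    (by rw [Wl.abs_tau]; exact h1.2) fun h => (a4 h).1
  refine ⟨?_, a2, a3, b1, b2, b3⟩
  have := norm_sub_le_norm_sub_add_norm_sub (xb w) (tg w (rho v)) (Z.β (Wl.pt ε v))
  rw [norm_sub_rev] at a1 b4
  linarith [C.μ'le]

lemma xslotb_zs (C : Consts S Wl m1 M Λ t' L ε μ' Δ)
    (D : SlotData S Wl ε μ' xb tg hh vv I I') (w : W) (v : Pm E)
    (hv : v ∈ (Z.slot ε μ' (xb w) (tg w) (hh w) (vv w) I).Zs) :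
    (Wl.pt ε v).1 ∈ Wl.tube ∧ ‖xb w - Z.β (Wl.pt ε v)‖ ≤ S.μ ∧
      0 ≤ S.Q (Z.β (Wl.pt ε v)) (Z.n (Wl.pt ε v)) := by
  obtain ⟨⟨h1, h2, h3, h4, h5⟩, h6⟩ := hv
  have ht := Wl.open_tube.2 ⟨h1, h2⟩
  obtain ⟨a1, a2, -⟩ := Z.xslotb_facts C D w v ht h3.le h4.le (D.sub h5) (h6 0 Nat.one_pos)
  exact ⟨ht, a1, le_trans (by positivity) a2⟩

/-- The chains over the solutions. -/
lemma slot_fam (C : Consts S Wl m1 M Λ t' L ε μ' Δ) (D : SlotData S Wl ε μ' xb tg hh vv I I') :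
    S.IsFam (zer fun w => Z.slot ε μ' (xb w) (tg w) (hh w) (vv w) I) (fun p => p.2.2)
      (1 + (M + 1)) (m1 * (S.St.τ₀ / 4) + S.St.τ₀ / 2) (fun p => xb p.1) (fun p => xb p.1)
      (fun p => (Z.slot ε μ' (xb p.1) (tg p.1) (hh p.1) (vv p.1) I).c p.2) ∧
    ∀ w, ∀ v ∈ (Z.slot ε μ' (xb w) (tg w) (hh w) (vv w) I).Zs,
      S.Val (1 + (M + 1)) ((Z.slot ε μ' (xb w) (tg w) (hh w) (vv w) I).c v) ≤
        S.Val M (Z.ch (Wl.pt ε v)) + S.St.τ₀ / 2 := by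
  set s := zer fun w => Z.slot ε μ' (xb w) (tg w) (hh w) (vv w) I with hs
  have hz := fun p (hp : p ∈ s) => Z.xslotb_zs C D p.1 p.2 hp
  have hpt : ContinuousOn (fun p : W × Pm E => Wl.pt ε p.2) s :=
    ((xslotb_pt Wl ε).comp continuous_snd).continuousOn
  have hmp : MapsTo (fun p : W × Pm E => Wl.pt ε p.2) s (Wl.tube ×ˢ univ) :=
    fun p hp => ⟨(hz p hp).1, mem_univ _⟩
  have hxc : ContinuousOn (fun p : W × Pm E => xb p.1) s :=
    (D.xc.comp continuous_fst).continuousOn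
  have F1 : S.IsFam s (fun p => p.2.2) 1 ((1 : ℕ) * (S.St.τ₀ / 4)) (fun p => xb p.1)
      (fun p => Z.β (Wl.pt ε p.2))
      (fun p => S.unit (fun i => if i = 0 then xb p.1 else Z.β (Wl.pt ε p.2)) p.2.2) := by
    refine Sys.isFam_unit
      (v := fun (p : W × Pm E) i => if i = 0 then xb p.1 else Z.β (Wl.pt ε p.2))
      (fun i hi => ?_) (fun i _ => by fun_prop) (fun p hp i hi => ?_) (fun _ _ => rfl)
      (fun _ _ => rfl)
    · obtain rfl : i = 0 := by omega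
      exact hxc
    · obtain rfl : i = 0 := by omega
      exact ⟨D.xS _, (hz p hp).2.1⟩
  have F2 : S.IsFam s (fun p i => p.2.2 (1 + i)) M (m1 * (S.St.τ₀ / 4))
      (fun p => Z.β (Wl.pt ε p.2)) (fun p => Z.β (Wl.pt ε p.2))
      (fun p => Z.ch (Wl.pt ε p.2)) := by
    refine ⟨fun i hi => (Z.cont i hi).comp hpt hmp, fun p hp => Z.valid _ (hz p hp).1,
      fun p hp => Z.src _ (hz p hp).1, fun p hp => Z.tgt _ (hz p hp).1, fun p hp => ?_,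
      fun B => ?_⟩
    · linarith [Z.le _ (hz p hp).1, (hz p hp).2.2]
    · obtain ⟨R, hR⟩ := Z.proper B
      exact ⟨R, fun p hp h => by linarith [hR _ (hz p hp).1 h, (hz p hp).2.2]⟩
  have F3 : S.IsFam s (fun p i => p.2.2 (1 + (M + i))) 1 ((1 : ℕ) * (S.St.τ₀ / 4))
      (fun p => Z.β (Wl.pt ε p.2)) (fun p => xb p.1)
      (fun p => S.unit (fun i => if i = 0 then Z.β (Wl.pt ε p.2) else xb p.1)
        fun i => p.2.2 (1 + (M + i))) := by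
    refine Sys.isFam_unit
      (v := fun (p : W × Pm E) i => if i = 0 then Z.β (Wl.pt ε p.2) else xb p.1)
      (fun i hi => ?_) (fun i _ => by fun_prop) (fun p hp i hi => ?_) (fun _ _ => rfl)
      (fun _ _ => rfl)
    · obtain rfl : i = 0 := by omega
      exact Z.βc.comp hpt hmp
    · obtain rfl : i = 0 := by omega
      exact ⟨Z.βS _ (hz p hp).1, by rw [norm_sub_rev]; exact (hz p hp).2.1⟩
  have F23 := F2.cat F3
  refine ⟨(F1.cat F23).mono (by push_cast; linarith), fun w v hv => ?_⟩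
  have e1 := F1.val_cat F23 (p := (w, v)) hv
  have e2 := F2.val_cat F3 (p := (w, v)) hv
  have e3 := F1.le (w, v) hv
  have e4 := F3.le (w, v) hv
  simp only [Nat.cast_one, one_mul] at e1 e2 e3 e4
  simp only [slot]
  rw [e1, e2]
  linarith

theorem slot_good (C : Consts S Wl m1 M Λ t' L ε μ' Δ)
    (D : SlotData S Wl ε μ' xb tg hh vv I I') :
    S.Good (fun w => Z.slot ε μ' (xb w) (tg w) (hh w) (vv w) I) 1 (1 + (M + 1))
      (m1 * (S.St.τ₀ / 4) + S.St.τ₀ / 2) Δ xb xb := by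
  have hτ := S.St.τpos
  set A : Set (W × Pm E) := {p | (Wl.pt ε p.2).1 ∈ Wl.tube} with hA
  have hptc : Continuous fun p : W × Pm E => Wl.pt ε p.2 := (xslotb_pt Wl ε).comp continuous_snd
  have hAc : IsClosed A := Wl.tube_closed.preimage hptc.fst
  have hmp : MapsTo (fun p : W × Pm E => Wl.pt ε p.2) A (Wl.tube ×ˢ univ) :=
    fun p hp => ⟨hp, mem_univ _⟩
  have hρ : Continuous fun p : W × Pm E => rho p.2 := xslotb_rho.comp continuous_snd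
  have cn := Z.nc.comp hptc.continuousOn hmp
  have cβ := Z.βc.comp hptc.continuousOn hmp
  have cH := Z.Hc.comp hptc.continuousOn hmp
  have cτ : ContinuousOn (fun p : W × Pm E => Wl.tau (Wl.pt ε p.2).1) A :=
    Wl.tau_cont.comp hptc.fst.continuousOn fun p hp => hp
  have ch : Continuous fun p : W × Pm E => hh p.1 (rho p.2) :=
    D.hc.comp (continuous_fst.prodMk hρ)
  have ct : Continuous fun p : W × Pm E => tg p.1 (rho p.2) :=
    D.tc.comp (continuous_fst.prodMk hρ)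
  have cV : ContinuousOn (fun p : W × Pm E => S.Val M (Z.ch (Wl.pt ε p.2))) A :=
    Sys.val_cont (fun i hi => (Z.cont i hi).comp hptc.continuousOn hmp)
      (cβ.congr fun p hp => Z.tgt _ hp) fun p hp => Z.valid _ hp
  have cq : ContinuousOn (fun p : W × Pm E =>
      (Z.slot ε μ' (xb p.1) (tg p.1) (hh p.1) (vv p.1) I).q p.2 0) A :=
    ((cβ.add (cn.const_smul Λ⁻¹)).sub ct.continuousOn).prodMk
      (((xslotb_ff ε).comp_continuousOn (hρ.continuousOn.prodMk cτ)).sub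
        (D.vc.comp continuous_fst).continuousOn)
  set Φ : W × Pm E → ℝ × ℝ × (ℝ × ℝ) × (E × ℝ) × ℝ := fun p =>
    (‖Z.n (Wl.pt ε p.2)‖, |Z.H (Wl.pt ε p.2) - hh p.1 (rho p.2)|,
      (rho p.2, Wl.tau (Wl.pt ε p.2).1),
      (Z.slot ε μ' (xb p.1) (tg p.1) (hh p.1) (vv p.1) I).q p.2 0,
      S.Val M (Z.ch (Wl.pt ε p.2))) with hΦ
  have cΦ : ContinuousOn Φ A :=
    cn.norm.prodMk ((cH.sub ch.continuousOn).abs.prodMk ((hρ.continuousOn.prodMk cτ).prodMk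
      (cq.prodMk cV)))
  have hcl := cΦ.preimage_isClosed_of_isClosed hAc
    (t := Iic (Λ * μ') ×ˢ Iic (1 / 4) ×ˢ I' ×ˢ {0} ×ˢ Ici (m1 * (S.St.τ₀ / 4) - Δ))
    (isClosed_Iic.prod (isClosed_Iic.prod (D.Ic.prod (isClosed_singleton.prod isClosed_Ici))))
  obtain ⟨B1, hB1⟩ := Wl.tube_compact.isBounded.exists_norm_le
  obtain ⟨B2, hB2⟩ := S.compact.isBounded.exists_norm_le
  obtain ⟨hfam, hval⟩ := Z.slot_fam C D
  have hT0 : 0 ≤ (m1 : ℝ) * (S.St.τ₀ / 4) := by positivity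
  refine Sys.Good.of_cl (fun _ => rfl) (fun _ => rfl) (Z.slot_open D) (fun i _ => Z.slot_qc D i)
    (Z.slot_cc D) hfam D.xc _ hcl ?_ ?_ (max (B1 + B2) 3) ?_
  · rintro ⟨w, v⟩ ⟨h1, h2, h3, h4, h5, h6⟩
    have h6' : m1 * (S.St.τ₀ / 4) - Δ ≤ S.Val M (Z.ch (Wl.pt ε v)) := h6
    obtain ⟨-, a2, a3, a4, a5, -⟩ := Z.xslotb_facts C D w v h1 h2 h3 h4 h5
    have hQ : 0 ≤ S.Q (Z.β (Wl.pt ε v)) (Z.n (Wl.pt ε v)) := le_trans (by positivity) a2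
    have hedge : ¬ (Wl.d / 2 ≤ Wl.tau (Wl.pt ε v).1 ∨
        S.δ ≤ ‖(Wl.pt ε v).1 - S.r (Wl.pt ε v).1‖) := fun h => by
      linarith [Z.edge _ h1 h, C.hL]
    rw [not_or, not_le, not_le] at hedge
    refine ⟨⟨?_, ?_, ?_, a3, a4⟩, fun i _ => h5⟩
    · exact Metric.mem_thickening_iff.2 ⟨_, (Wl.r_mem h1).1, by rw [dist_eq_norm]; exact hedge.2⟩
    · rw [← Wl.abs_tau, abs_lt]
      exact ⟨a5, by linarith [hedge.1, Wl.dpos]⟩
    · by_contra hge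
      have hge' : Λ * μ' ≤ ‖Z.n (Wl.pt ε v)‖ := not_lt.1 hge
      have h7 : (Λ * μ') ^ 2 ≤ ‖Z.n (Wl.pt ε v)‖ ^ 2 :=
        pow_le_pow_left₀ (mul_pos C.Λpos C.μ'pos).le hge' 2
      linarith [Z.le _ h1, C.hΛ]
  · rintro ⟨w, v⟩ ⟨hz, hv⟩
    have h0 := hval w v hz
    obtain ⟨⟨h1, h2, h3, h4, h5⟩, h6⟩ := hz
    refine ⟨Wl.open_tube.2 ⟨h1, h2⟩, h3.le, h4.le, D.sub h5, h6 0 Nat.one_pos, ?_⟩
    show m1 * (S.St.τ₀ / 4) - Δ ≤ S.Val M (Z.ch (Wl.pt ε v))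
    linarith
  · rintro ⟨w, v⟩ ⟨h1, h2, h3, h4, h5, -⟩ i hi
    obtain rfl : i = 0 := by omega
    obtain ⟨-, -, -, -, -, a6⟩ := Z.xslotb_facts C D w v h1 h2 h3 h4 h5
    rw [Prod.norm_def]
    refine max_le_max ?_ ?_
    · have e : (v.1 0).1 = (Wl.pt ε v).1 - Wl.c (ε * rho v) := by simp [Wall.pt]
      rw [e]
      exact (norm_sub_le _ _).trans (add_le_add (hB1 _ h1) (hB2 _ (Wl.cm _)))
    · have e : (v.1 0).2 = rho v + 1 := by simp [rho]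
      rw [e, Real.norm_eq_abs, abs_le]
      constructor <;> linarith [(abs_le.1 a6).1, (abs_le.1 a6).2]

theorem slot_low (C : Consts S Wl m1 M Λ t' L ε μ' Δ)
    (D : SlotData S Wl ε μ' xb tg hh vv I I') (w : W)
    (h : ∀ ρ τ, (ρ, τ) ∈ I → t' ≤ |hh w ρ|) :
    S.Low (Z.slot ε μ' (xb w) (tg w) (hh w) (vv w) I) (S.St.τ₀ / 2 - L') := by
  intro v hv
  have h0 := (Z.slot_fam C D).2 w v hv
  obtain ⟨h1, -, h2⟩ := Z.xslotb_zs C D w v hv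
  have h3 := h _ _ hv.1.2.2.2.2
  have h4 : |Z.H (Wl.pt ε v) - hh w (rho v)| < 1 / 4 := hv.1.2.2.2.1
  have h5 := abs_sub_abs_le_abs_sub (hh w (rho v)) (Z.H (Wl.pt ε v))
  rw [abs_sub_comm] at h5
  rcases Z.far _ h1 with h6 | h6
  · linarith
  · show S.Val (1 + (M + 1)) _ ≤ _
    linarith

end Slice

end Pool.Agent.Wein
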