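import Mathlib
import Pool.Agent.P.MP_e3ee0c_gt.XSlotA

/-! The three families of slots. -/

open Set Filter Topology
open scoped ContDiff InnerProductSpace

namespace Pool.Agent.Wein

open TopAux

variable {E : Type} [NormedAddCommGroup E] [InnerProductSpace ℝ E] [FiniteDimensional ℝ E]

lemma xslotc_clamp_low {u : ℝ} (hu : u ≤ 0) : clamp u = 0 :=
  max_eq_left ((min_le_right _ _).trans hu)

lemma xslotc_coe_one : (((1 : ℝ) : ℝ) : UnitAddCircle) = ((0 : ℝ) : UnitAddCircle) := by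
  rw [AddCircle.coe_period, AddCircle.coe_zero]

lemma xslotc_trc_cont : Continuous trc := by
  unfold trc
  fun_prop

lemma xslotc_trc_mem (ρ : ℝ) : -2 ≤ trc ρ ∧ trc ρ ≤ -(1 / 2) :=
  ⟨le_max_left _ _, max_le (by norm_num) (min_le_right _ _)⟩

lemma xslotc_trc_eq {ρ : ℝ} (h1 : -2 ≤ ρ) (h2 : ρ ≤ -(1 / 2)) : trc ρ = ρ := by
  unfold trc
  rw [min_eq_left h2, max_eq_right h1]

lemma xslotc_ff_pos (ε ρ : ℝ) {τ : ℝ} (h : 0 ≤ τ) : ff ε ρ τ = |ρ| := by
  unfold ff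
  rw [min_eq_left h, mul_zero, zero_div, add_zero]
  rcases le_total 0 ρ with h1 | h1
  · rw [max_eq_left (by linarith), abs_of_nonneg h1]
    ring
  · rw [max_eq_right (by linarith), abs_of_nonpos h1]
    ring

lemma xslotc_ff_line {ε ρ : ℝ} (hε : 0 < ε) (h : ρ ≤ 0) : ff ε ρ (ε * ρ) = ρ := by
  unfold ff
  have h1 : 2 * (ε * ρ) / ε = 2 * ρ := by field_simp
  rw [min_eq_right (mul_nonpos_of_nonneg_of_nonpos hε.le h), h1, max_eq_left (by linarith)]
  ring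

lemma xslotc_ff_nonneg {ε ρ : ℝ} (hε : 0 < ε) (h : 0 ≤ ρ) (τ : ℝ) : ff ε ρ τ = ρ := by
  unfold ff
  have h1 : 2 * min 0 τ / ε ≤ 0 :=
    div_nonpos_of_nonpos_of_nonneg (by linarith [min_le_left 0 τ]) hε.le
  rw [max_eq_left (by linarith)]
  ring

namespace Consts

variable {S : Sys E} {Wl : Wall S.S} {m1 M : ℕ} {Λ t' L ε μ' Δ : ℝ}
  (C : Consts S Wl m1 M Λ t' L ε μ' Δ)
include C

omit [FiniteDimensional ℝ E] in
lemma xslotc_mem (ρ : ℝ) : Wl.c (ε * trc ρ) ∈ Wl.K := by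
  refine Wl.c_mem_K ?_
  have h1 := xslotc_trc_mem ρ
  have h2 := C.εpos
  have h3 := C.εle
  rw [abs_le]
  constructor <;> nlinarith [h1.1, h1.2]

omit [FiniteDimensional ℝ E] in
lemma xslotc_tg (u ρ : ℝ) :
    Wl.σ (Wl.c (ε * trc ρ), ((clamp u : ℝ) : UnitAddCircle)) +
      Wl.c (ε * trc ρ + t' * min u 0) - Wl.c (ε * trc ρ) ∈ S.S ∧
    Wl.th (Wl.σ (Wl.c (ε * trc ρ), ((clamp u : ℝ) : UnitAddCircle)) +
      Wl.c (ε * trc ρ + t' * min u 0) - Wl.c (ε * trc ρ)) =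
      ((ε * trc ρ + t' * min u 0 : ℝ) : UnitAddCircle) := by
  have hK := C.xslotc_mem ρ
  rcases le_total 0 u with hu | hu
  · rw [min_eq_right hu, mul_zero, add_zero, add_sub_cancel_right]
    obtain ⟨h1, h2⟩ := Wl.σm _ hK.1 hK.2 ((clamp u : ℝ) : UnitAddCircle)
    exact ⟨h1, h2.trans (Wl.cth _)⟩
  · rw [xslotc_clamp_low hu, AddCircle.coe_zero, Wl.σ0 _ hK.1 hK.2, add_sub_cancel_left]
    exact ⟨Wl.cm _, Wl.cth _⟩

omit [FiniteDimensional ℝ E] in
lemma xslotc_tc : Continuous fun p : ℝ × ℝ =>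
    Wl.σ (Wl.c (ε * trc p.2), ((clamp p.1 : ℝ) : UnitAddCircle)) +
      Wl.c (ε * trc p.2 + t' * min p.1 0) - Wl.c (ε * trc p.2) := by
  have hc := Wl.cu.continuous
  have ht := xslotc_trc_cont
  have h1 : Continuous fun p : ℝ × ℝ => ((clamp p.1 : ℝ) : UnitAddCircle) :=
    (AddCircle.continuous_mk' (1 : ℝ)).comp (clamp_cont.comp continuous_fst)
  have h2 : Continuous fun p : ℝ × ℝ => Wl.c (ε * trc p.2) := by fun_prop
  have h3 : Continuous fun p : ℝ × ℝ =>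
      Wl.σ (Wl.c (ε * trc p.2), ((clamp p.1 : ℝ) : UnitAddCircle)) :=
    Wl.σc.comp_continuous (h2.prodMk h1) fun p => ⟨C.xslotc_mem p.2, mem_univ _⟩
  exact (h3.add (by fun_prop)).sub h2

omit [FiniteDimensional ℝ E] C in
lemma xslotc_bY (u : ℝ) : Wl.bY ε t' u =
    Wl.σ (Wl.c (ε * trc (-1)), ((clamp u : ℝ) : UnitAddCircle)) +
      Wl.c (ε * trc (-1) + t' * min u 0) - Wl.c (ε * trc (-1)) := by
  rw [xslotc_trc_eq (by norm_num) (by norm_num), mul_neg_one]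
  rfl

omit [FiniteDimensional ℝ E] in
lemma xslotc_K : Wl.c (-ε) ∈ Wl.K := by
  have h := C.xslotc_mem (-1)
  rwa [xslotc_trc_eq (by norm_num) (by norm_num), mul_neg_one] at h

lemma cob_data : SlotData S Wl ε μ' (fun _ : ℝ => Wl.c (-ε)) (fun _ ρ => Wl.c (ε * ρ))
    (fun _ ρ => ε * ρ) (fun u => 2 * clamp u - 1) univ univ := by
  have hc := Wl.cu.continuous
  have hcl := clamp_cont
  have hε := C.εpos
  have hd := C.εle
  refine ⟨continuous_const, by fun_prop, by fun_prop, by fun_prop, fun _ => Wl.cm _,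
    fun _ _ => Wl.cm _, fun _ _ => Wl.cth _, isOpen_univ, isClosed_univ, subset_rfl, ?_⟩
  intro u ρ τ _ hf _ hτ
  have hu := clamp_mem u
  have key : |ρ| ≤ 1 ∧ -Wl.d < τ := by
    rcases le_or_gt τ 0 with h | h
    · have h1 := hτ h
      have h2 : ρ ≤ 0 := by
        by_contra h3
        nlinarith [mul_pos hε (not_le.1 h3)]
      rw [h1, xslotc_ff_line hε h2] at hf
      refine ⟨abs_le.2 ⟨by linarith [hu.1], by linarith⟩, ?_⟩
      nlinarith [hu.1]
    · rw [xslotc_ff_pos ε ρ h.le] at hf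
      exact ⟨by linarith [hu.2], by linarith⟩
  refine ⟨mem_univ _, key.2, by linarith [key.1], C.εc _ _ ?_⟩
  obtain ⟨h1, h2⟩ := abs_le.1 key.1
  rw [abs_le]
  constructor <;> nlinarith

lemma plus_data : SlotData S Wl ε μ' (Wl.bX ε t') (fun u ρ => Wl.c (t' * clamp u + ε * ρ))
    (fun u ρ => t' * clamp u + ε * ρ) (fun _ => 1) {p | 0 < p.1} {p | 0 ≤ p.1} := by
  have hc := Wl.cu.continuous
  have hcl := clamp_cont
  have hε := C.εpos
  have hd := Wl.dpos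
  refine ⟨by unfold Wall.bX; fun_prop, by fun_prop, by fun_prop, continuous_const,
    fun _ => Wl.cm _, fun _ _ => Wl.cm _, fun _ _ => Wl.cth _,
    isOpen_lt continuous_const continuous_fst, isClosed_le continuous_const continuous_fst,
    fun p (hp : 0 < p.1) => (hp.le : 0 ≤ p.1), ?_⟩
  intro u ρ τ hρ hf _ hτ
  rw [xslotc_ff_nonneg hε hρ] at hf
  subst hf
  have h0 : 0 < τ := by
    by_contra h
    have h1 := hτ (not_lt.1 h)
    have h2 := mul_nonneg C.t'nn (clamp_mem u).1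
    linarith
  refine ⟨(zero_lt_one : (0 : ℝ) < 1), by linarith, by norm_num, C.εc _ _ ?_⟩
  rw [abs_le]
  constructor <;> linarith

lemma minus_data : SlotData S Wl ε μ' (Wl.bY ε t')
    (fun u ρ => Wl.σ (Wl.c (ε * trc ρ), ((clamp u : ℝ) : UnitAddCircle)) +
      Wl.c (ε * trc ρ + t' * min u 0) - Wl.c (ε * trc ρ))
    (fun u ρ => ε * trc ρ + t' * min u 0) (fun _ => 1)
    {p | -2 < p.1 ∧ p.1 < -(1 / 2) ∧ -(ε / 2) < p.2}
    {p | -2 ≤ p.1 ∧ p.1 ≤ -(1 / 2) ∧ -(ε / 2) ≤ p.2} := by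
  have ht := xslotc_trc_cont
  have hε := C.εpos
  have hd := Wl.dpos
  refine ⟨?_, C.xslotc_tc, by fun_prop, continuous_const, fun u => ?_,
    fun u ρ => (C.xslotc_tg u ρ).1, fun u ρ => (C.xslotc_tg u ρ).2,
    (isOpen_lt continuous_const continuous_fst).inter
      ((isOpen_lt continuous_fst continuous_const).inter
        (isOpen_lt continuous_const continuous_snd)),
    (isClosed_le continuous_const continuous_fst).inter
      ((isClosed_le continuous_fst continuous_const).inter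
        (isClosed_le continuous_const continuous_snd)),
    fun p hp => ⟨hp.1.le, hp.2.1.le, hp.2.2.le⟩, ?_⟩
  · have h1 : Continuous fun u : ℝ => (u, (-1 : ℝ)) := by fun_prop
    exact (C.xslotc_tc.comp h1).congr fun u => (xslotc_bY u).symm
  · rw [xslotc_bY]
    exact (C.xslotc_tg u (-1)).1
  · rintro u ρ τ ⟨h1, h2, h3⟩ hf - hτ
    simp only at h1 h2 h3
    have h0 : 0 < τ := by
      by_contra h
      have h4 := hτ (not_lt.1 h)
      rw [xslotc_trc_eq h1 h2] at h4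
      have h5 := mul_nonpos_of_nonneg_of_nonpos C.t'nn (min_le_right u 0)
      have h6 : ε * ρ ≤ ε * -(1 / 2) := mul_le_mul_of_nonneg_left h2 hε.le
      have h7 : τ = ε * ρ := by linarith
      rw [h7, xslotc_ff_line hε (by linarith)] at hf
      linarith
    rw [xslotc_ff_pos ε ρ h0.le, abs_of_nonpos (by linarith)] at hf
    obtain rfl : ρ = -1 := by linarith
    refine ⟨⟨by norm_num, by norm_num, by simp only; linarith⟩, by linarith, by norm_num, ?_⟩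
    rw [xslotc_bY, sub_self, norm_zero]
    exact C.μ'pos.le

lemma bX_zero : Wl.bX ε t' 0 = Wl.c (-ε) := by
  rw [Wall.bX, clamp_zero, mul_zero, zero_sub]

lemma bY_nonneg {u : ℝ} (hu : 0 ≤ u) :
    Wl.bY ε t' u = Wl.σ (Wl.c (-ε), ((clamp u : ℝ) : UnitAddCircle)) := by
  rw [Wall.bY, min_eq_right hu, mul_zero, add_zero, add_sub_cancel_right]

lemma bY_nonpos {u : ℝ} (hu : u ≤ 0) : Wl.bY ε t' u = Wl.c (-ε + t' * u) := by
  rw [Wall.bY, min_eq_left hu, xslotc_clamp_low hu, AddCircle.coe_zero,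
    Wl.σ0 _ C.xslotc_K.1 C.xslotc_K.2, add_sub_cancel_left]

lemma bY_zero : Wl.bY ε t' 0 = Wl.c (-ε) := by
  rw [C.bY_nonpos le_rfl, mul_zero, add_zero]

lemma bY_one : Wl.bY ε t' 1 = Wl.c (-ε) := by
  rw [C.bY_nonneg zero_le_one, clamp_one, xslotc_coe_one, AddCircle.coe_zero,
    Wl.σ0 _ C.xslotc_K.1 C.xslotc_K.2]

end Consts

lemma Slice.minus_one {S : Sys E} {Wl : Wall S.S} {m1 M : ℕ} {Λ L' t' L : ℝ}
    (Z : Slice S Wl m1 M Λ L' t' L) (ε μ' : ℝ) : Z.minus ε μ' 1 = Z.minus ε μ' 0 := by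
  have h1 : min (1 : ℝ) 0 = min 0 0 := by simp
  simp only [Slice.minus, Wall.bY, clamp_one, clamp_zero, xslotc_coe_one, h1]

end Pool.Agent.Wein
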