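import Mathlib
import Pool.Agent.P.MP_e3ee0c_gt.XSlotB
import Pool.Agent.P.MP_e3ee0c_gt.XSlotC
import Pool.Agent.P.MP_e3ee0c_gt.XHtp

/-! The unit over the loop splits into a part that moves up and a part that moves down. -/

open Set Filter Topology
open scoped ContDiff InnerProductSpace

namespace Pool.Agent.Wein

open TopAux

lemma xequiv_ff_low {ε ρ : ℝ} (hε : 0 < ε) (h : ε * ρ ≤ 0) : ff ε ρ (ε * ρ) = ρ := by
  have h1 : ρ ≤ 0 := by
    by_contra h2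
    exact absurd h (not_le.2 (mul_pos hε (not_le.1 h2)))
  have h2 : 2 * (ε * ρ) / ε = 2 * ρ := by field_simp
  unfold ff
  rw [min_eq_right h, h2, max_eq_left (by linarith)]
  ring

lemma xequiv_ff_high {ε ρ τ : ℝ} (h : 0 ≤ τ) : ff ε ρ τ = |ρ| := by
  unfold ff
  rw [min_eq_left h, mul_zero, zero_div, add_zero]
  rcases le_total 0 ρ with h1 | h1
  · rw [max_eq_left (by linarith), abs_of_nonneg h1]
    ring
  · rw [max_eq_right (by linarith), abs_of_nonpos h1]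
    ring

variable {E : Type} [NormedAddCommGroup E] [InnerProductSpace ℝ E] [FiniteDimensional ℝ E]

namespace Slice

variable {S : Sys E} {Wl : Wall S.S} {m1 M : ℕ} {Λ L' t' L ε μ' Δ : ℝ}
  (Z : Slice S Wl m1 M Λ L' t' L)

/-- The height of a solution of the folded family. -/
lemma xequiv_sol (C : Consts S Wl m1 M Λ t' L ε μ' Δ) {u : ℝ} {v : Pm E}
    (hv : v ∈ (Z.cob ε μ' u).Zs) :
    ff ε (rho v) (Wl.tau (Wl.pt ε v).1) = 2 * clamp u - 1 ∧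
      (Wl.tau (Wl.pt ε v).1 ≤ 0 → Wl.tau (Wl.pt ε v).1 = ε * rho v) := by
  obtain ⟨⟨h1, h2, h3, h4, -⟩, h6⟩ := hv
  have h5 := h6 0 Nat.one_pos
  have e1 : Z.β (Wl.pt ε v) + Λ⁻¹ • Z.n (Wl.pt ε v) - Wl.c (ε * rho v) = 0 :=
    congrArg Prod.fst h5
  have e2 : ff ε (rho v) (Wl.tau (Wl.pt ε v).1) - (2 * clamp u - 1) = 0 := congrArg Prod.snd h5
  exact ⟨sub_eq_zero.1 e2, fun h => ((Z.sol C (Wl.open_tube.2 ⟨h1, h2⟩) (Wl.cm _) (Wl.cth _)
    h3.le h4.le e1).2.2.2 h).1⟩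

theorem equiv_one (C : Consts S Wl m1 M Λ t' L ε μ' Δ)
    (hN : S.Good (fun _ : Unit => S.nrm 1 (1 + (M + 1)) fun i => Wl.pol m1 (Wl.c (-ε)) (i - 1))
      1 (1 + (M + 1)) (m1 * (S.St.τ₀ / 4) + S.St.τ₀ / 2) Δ (fun _ => Wl.c (-ε))
      (fun _ => Wl.c (-ε))) :
    S.Htp (m1 * (S.St.τ₀ / 4) + S.St.τ₀ / 2) Δ (Wl.c (-ε)) univ
      (S.nrm 1 (1 + (M + 1)) fun i => Wl.pol m1 (Wl.c (-ε)) (i - 1)) (Z.cob ε μ' 0) := by
  have hε := C.εpos
  have hd := C.εle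
  have hd' := Wl.dle
  have hβ := (Z.slot_good C C.cob_data).comp (f := fun _ : Unit => (0 : ℝ)) continuous_const
  have hΩ : IsOpen (Z.cob ε μ' 0).Ω :=
    hβ.opn.preimage (f := fun v : Pm E => ((), v)) (by fun_prop)
  have hin : ∀ v ∈ (Z.cob ε μ' 0).Ω, (Wl.pt ε v).1 ∈ Wl.tube :=
    fun v hv => Wl.open_tube.2 ⟨hv.1, hv.2.1⟩
  have cτ : ContinuousOn (fun v : Pm E => Wl.tau (Wl.pt ε v).1) (Z.cob ε μ' 0).Ω :=
    Wl.tau_cont.comp (xslotb_pt Wl ε).fst.continuousOn hin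
  have hU := (xslotb_rho.continuousOn.prodMk cτ).isOpen_inter_preimage hΩ
    (t := {p : ℝ × ℝ | p.2 < 0 ∧ -p.1 + 2 * p.2 / ε < 0})
    ((isOpen_lt continuous_snd continuous_const).inter
      (isOpen_lt (f := fun p : ℝ × ℝ => -p.1 + 2 * p.2 / ε) (by fun_prop) continuous_const))
  have hxK : Wl.c (-ε) ∈ Wl.K := Wl.c_mem_K (by rw [abs_neg, abs_of_pos hε]; linarith)
  have hfix : S.r (Wl.c (-ε)) = Wl.c (-ε) := S.fix _ (Wl.cm _)
  have hz : ∀ v : Pm E, v.1 0 = 0 → rho v = -1 ∧ (Wl.pt ε v).1 = Wl.c (-ε) := fun v h => by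
    have e : rho v = -1 := by simp [rho, h]
    exact ⟨e, by simp [Wall.pt, e, h]⟩
  have hτx : Wl.tau (Wl.c (-ε)) = -ε := by
    rw [Wall.tau, hfix, Wl.cth, lf_of (by rw [abs_neg, abs_of_pos hε]; linarith)]
  have hm : (0 : ℝ) < m1 := Nat.cast_pos.2 C.m1pos
  refine Sys.Htp.of_equiv hN hβ _ hU (subset_univ _) inter_subset_left ?_ ?_ ?_ ?_
  · rintro v ⟨h1, h2, h3⟩ i hi
    obtain rfl : i = 0 := by omega
    obtain ⟨a1, a2, -⟩ := Z.start _ (hin v h1) (le_of_lt h2)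
    have h2' : Wl.tau (Wl.pt ε v).1 < 0 := h2
    have h3' : -rho v + 2 * Wl.tau (Wl.pt ε v).1 / ε < 0 := h3
    refine Prod.ext ?_ ?_
    · show (v.1 0).1 = Z.β (Wl.pt ε v) + Λ⁻¹ • Z.n (Wl.pt ε v) - Wl.c (ε * rho v)
      rw [a1, a2, smul_smul, inv_mul_cancel₀ C.Λpos.ne', one_smul]
      simp [Wall.pt]
    · show (v.1 0).2 = ff ε (rho v) (Wl.tau (Wl.pt ε v).1) - (2 * clamp 0 - 1)
      rw [ff, min_eq_right h2'.le, max_eq_left h3'.le, clamp_zero, rho]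
      ring
  · rintro v ⟨h1, h2, -⟩ hv i hi
    obtain ⟨e1, e2⟩ := hz v (hv.2 0 Nat.one_pos)
    obtain ⟨a1, -, -, a4⟩ := Z.start _ (hin v h1) (le_of_lt h2)
    rw [e2, hfix] at a1 a4
    show S.un (Wl.pol m1 (Wl.c (-ε)) (i - 1)) (v.2 i) = cat 1 _ (cat M _ _) i
    rcases Nat.eq_zero_or_pos i with rfl | hi0
    · rw [cat_lt Nat.one_pos]
      simp [Sys.unit, Wall.pol, Wl.σ0 _ hxK.1 hxK.2]
    · obtain ⟨j, rfl⟩ : ∃ j, i = 1 + j := ⟨i - 1, by omega⟩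
      rw [cat_add, Nat.add_sub_cancel_left]
      by_cases hj : j < M
      · rw [cat_lt hj, a4 j hj]
        rfl
      · obtain rfl : j = M := by omega
        rw [cat_ge le_rfl, Nat.sub_self]
        simp [Sys.unit, Wall.pol, a1, min_eq_right C.m1le, hm.ne', AddCircle.coe_period,
          Wl.σ0 _ hxK.1 hxK.2]
  · intro v hv _
    obtain ⟨e1, e2⟩ := hz v (hv.2 0 Nat.one_pos)
    have ht : (Wl.pt ε v).1 ∈ Wl.tube := by
      rw [e2]
      exact ⟨⟨_, Wl.cm (-ε), by simpa using S.δpos.le⟩, by rw [hfix]; exact hxK.2⟩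
    obtain ⟨-, a2, a3, -⟩ := Z.start _ ht (by rw [e2, hτx]; linarith)
    rw [e2, hfix] at a2
    rw [e2, hτx] at a3
    refine ⟨⟨?_, ?_, ?_, ?_, mem_univ _⟩, ?_, ?_⟩
    · rw [e2]
      exact Metric.self_subset_thickening S.δpos _ (Wl.cm _)
    · rw [← Wl.abs_tau, e2, hτx, abs_neg, abs_of_pos hε]
      linarith
    · rw [a2]
      simpa using mul_pos C.Λpos C.μ'pos
    · rw [a3, e1]
      norm_num
    · show Wl.tau (Wl.pt ε v).1 < 0
      rw [e2, hτx]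
      linarith
    · show -rho v + 2 * Wl.tau (Wl.pt ε v).1 / ε < 0
      rw [e2, hτx, e1, mul_neg, neg_div, mul_div_assoc, div_self hε.ne']
      norm_num
  · intro v hv _
    obtain ⟨a1, a2⟩ := Z.xequiv_sol C hv
    rw [clamp_zero] at a1
    have h1 : Wl.tau (Wl.pt ε v).1 ≤ 0 := by
      by_contra h
      rw [xequiv_ff_high (not_le.1 h).le] at a1
      linarith [abs_nonneg (rho v)]
    have h2 := a2 h1
    rw [h2] at h1
    rw [h2, xequiv_ff_low hε h1] at a1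
    refine ⟨hv.1, ?_, ?_⟩
    · show Wl.tau (Wl.pt ε v).1 < 0
      rw [h2, a1]
      linarith
    · show -rho v + 2 * Wl.tau (Wl.pt ε v).1 / ε < 0
      have h3 : 2 * (ε * rho v) / ε = 2 * rho v := by field_simp
      rw [h2, h3, a1]
      norm_num

theorem equiv_two (C : Consts S Wl m1 M Λ t' L ε μ' Δ) :
    S.Htp (m1 * (S.St.τ₀ / 4) + S.St.τ₀ / 2) Δ (Wl.c (-ε)) univ (Z.cob ε μ' 1)
      (Vc.uni {v | 0 < rho v} (Z.plus ε μ' 0) (Z.minus ε μ' 0)) := by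
  have hε := C.εpos
  have hd := C.εle
  have hα := (Z.slot_good C C.cob_data).comp (f := fun _ : Unit => (1 : ℝ)) continuous_const
  have hp := (Z.slot_good C C.plus_data).comp (f := fun _ : Unit => (0 : ℝ)) continuous_const
  have hm := (Z.slot_good C C.minus_data).comp (f := fun _ : Unit => (0 : ℝ)) continuous_const
  simp only [C.bX_zero, C.bY_zero] at hp hm
  have hβ := hp.uni hm {v | 0 < rho v} (fun _ v hv => hv.2.2.2.2)
    (fun _ v hv h => by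
      have h1 : rho v < -(1 / 2) := hv.2.2.2.2.2.1
      have h2 : 0 < rho v := h
      linarith)
  have htr : ∀ ρ : ℝ, -2 < ρ → ρ < -(1 / 2) → trc ρ = ρ := fun ρ h1 h2 => by
    rw [trc, min_eq_left h2.le, max_eq_right h1.le]
  have htg : ∀ ρ : ℝ, -2 < ρ → ρ < -(1 / 2) →
      Wl.σ (Wl.c (ε * trc ρ), ((clamp 0 : ℝ) : UnitAddCircle)) +
        Wl.c (ε * trc ρ + t' * min 0 0) - Wl.c (ε * trc ρ) = Wl.c (ε * ρ) := fun ρ h1 h2 => by
    have hK : Wl.c (ε * ρ) ∈ Wl.K := Wl.c_mem_K (by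
      rw [abs_le]
      constructor <;> nlinarith)
    simp [htr ρ h1 h2, clamp_zero, Wl.σ0 _ hK.1 hK.2]
  have e1 : (2 * clamp 1 - 1 : ℝ) = 1 := by rw [clamp_one]; norm_num
  have hO : IsOpen (Vc.uni {v | 0 < rho v} (Z.plus ε μ' 0) (Z.minus ε μ' 0)).Ω := by
    simp only [plus, minus, C.bX_zero, C.bY_zero]
    exact hβ.opn.preimage (f := fun v : Pm E => ((), v)) (by fun_prop)
  refine Sys.Htp.of_equiv hα (by simpa only [plus, minus, C.bX_zero, C.bY_zero] using hβ) _ hO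
    ?_ subset_rfl ?_ ?_ ?_ fun v hv _ => hv.1
  · rintro v (⟨-, h1, h2, h3, h4, -⟩ | ⟨-, h1, h2, h3, h4, h5, h6, -⟩)
    · exact ⟨h1, h2, h3, by simpa [clamp_zero] using h4, mem_univ _⟩
    · exact ⟨h1, h2, h3, by simpa [htr _ h5 h6] using h4, mem_univ _⟩
  · rintro v (⟨h0, -⟩ | ⟨h0, -, -, -, -, h5, h6, -⟩) i _
    · simp only [Vc.uni, if_pos h0, plus, cob, slot, e1, clamp_zero, mul_zero, zero_add]
    · simp only [Vc.uni, if_neg h0, minus, cob, slot, e1, htg _ h5 h6]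
  · rintro v (⟨h0, -⟩ | ⟨h0, -⟩) _ i _
    · simp only [Vc.uni, if_pos h0, plus, cob, slot, C.bX_zero]
    · simp only [Vc.uni, if_neg h0, minus, cob, slot, C.bY_zero]
  · intro v hv _
    obtain ⟨a1, a2⟩ := Z.xequiv_sol C hv
    rw [e1] at a1
    obtain ⟨h1, h2, h3, h4, -⟩ := hv.1
    by_cases h0 : 0 < rho v
    · exact Or.inl ⟨h0, h1, h2, h3, by simpa [clamp_zero] using h4, h0⟩
    · have h5 : 0 < Wl.tau (Wl.pt ε v).1 := by
        by_contra h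
        have h6 := a2 (not_lt.1 h)
        rw [h6] at h
        rw [h6, xequiv_ff_low hε (not_lt.1 h)] at a1
        linarith
      rw [xequiv_ff_high h5.le, abs_of_nonpos (not_lt.1 h0)] at a1
      have h6 : -2 < rho v := by linarith
      have h7 : rho v < -(1 / 2) := by linarith
      exact Or.inr ⟨h0, h1, h2, h3, by simpa [htr _ h6 h7] using h4, h6, h7, by
        show -(ε / 2) < Wl.tau (Wl.pt ε v).1
        linarith⟩

theorem split (C : Consts S Wl m1 M Λ t' L ε μ' Δ)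
    (hN : S.Good (fun _ : Unit => S.nrm 1 (1 + (M + 1)) fun i => Wl.pol m1 (Wl.c (-ε)) (i - 1))
      1 (1 + (M + 1)) (m1 * (S.St.τ₀ / 4) + S.St.τ₀ / 2) Δ (fun _ => Wl.c (-ε))
      (fun _ => Wl.c (-ε))) :
    S.Htp (m1 * (S.St.τ₀ / 4) + S.St.τ₀ / 2) Δ (Wl.c (-ε)) univ
      (S.nrm 1 (1 + (M + 1)) fun i => Wl.pol m1 (Wl.c (-ε)) (i - 1))
      (Vc.uni {v | 0 < rho v} (Z.plus ε μ' 0) (Z.minus ε μ' 0)) :=
  (Z.equiv_one C hN).trans ((Sys.Htp.intro (H := fun u => Z.cob ε μ' u)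
    (Z.slot_good C C.cob_data) (fun _ => subset_univ _) rfl rfl).trans (Z.equiv_two C))

end Slice

end Pool.Agent.Wein
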