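import Mathlib
import Pool.Agent.P.MP_e3ee0c_gt.XWall
import Pool.Agent.P.MP_e3ee0c_gt.WKillA
import Pool.Agent.P.MP_e3ee0c_gt.WLink

/-! The moving level deformation applied to families of loops that are not trivial. -/

open Set Filter Topology
open scoped ContDiff InnerProductSpace

namespace Pool.Agent.Wein

variable {E : Type} [NormedAddCommGroup E] [InnerProductSpace ℝ E]

/-- The chain of an extended configuration. -/
def xpushCh {m : ℕ} [NeZero m] (ζ : Cfg E m (Option (Fin m))) : Ch E :=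
  ofCfg (ζ.1, fun i => ζ.2 (some i))

lemma xpush_act (S : Sys E) {m : ℕ} [NeZero m] (τ : ℕ → ℝ) (ζ : Cfg E m (Option (Fin m))) :
    S.act Link.bs (fun i : Fin m => τ i) ζ =
      S.ValT τ m (xpushCh ζ) + S.Q (ζ.1 0).1 (ζ.2 none) := by
  have e : ζ = Link.ex (ζ.2 none) (ζ.1, fun i => ζ.2 (some i)) := by
    refine Prod.ext rfl (funext fun j => ?_)
    cases j <;> rfl
  conv_lhs => rw [e]
  rw [Link.act_ex, xpushCh, S.valT_ofCfg]

omit [NormedAddCommGroup E] [InnerProductSpace ℝ E] in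
lemma xpush_fst {m : ℕ} [NeZero m] (ζ : Cfg E m (Option (Fin m))) (i : Fin m) :
    (xpushCh ζ i).1 = (ζ.1 i).1 := by
  simp only [xpushCh, ofCfg, ofNat_val]

variable [FiniteDimensional ℝ E]

lemma xpush_compact {X : Type*} [TopologicalSpace X] (m : ℕ) {Tb : Set E} (hT : IsCompact Tb)
    (f : E × (ℕ → E) → X) (hf : ContinuousOn f (Tb ×ˢ univ))
    (hdep : ∀ y P P', (∀ i < m, P i = P' i) → f (y, P) = f (y, P')) (R : ℝ) :
    ∃ K ⊆ f '' (Tb ×ˢ univ), IsCompact K ∧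
      ∀ p : E × (ℕ → E), p.1 ∈ Tb → (∀ i < m, ‖p.2 i‖ ≤ R) → f p ∈ K := by
  have := FiniteDimensional.proper_real E
  have hsub : Tb ×ˢ (univ.pi fun i => if i < m then Metric.closedBall (0 : E) R else {0}) ⊆
      Tb ×ˢ (univ : Set (ℕ → E)) := prod_mono subset_rfl (subset_univ _)
  refine ⟨f '' (Tb ×ˢ univ.pi fun i => if i < m then Metric.closedBall 0 R else {0}),
    image_mono hsub, (hT.prod (isCompact_univ_pi fun i => ?_)).image_of_continuousOn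
      (hf.mono hsub), fun p hp hP => ?_⟩
  · split_ifs
    exacts [isCompact_closedBall _ _, isCompact_singleton]
  · refine ⟨(p.1, fun i => if i < m then p.2 i else 0), ⟨hp, fun i _ => ?_⟩,
      hdep _ _ _ fun i hi => if_pos hi⟩
    by_cases hi : i < m
    · simpa [hi] using hP i hi
    · simp [hi]

theorem Sys.push (S : Sys E) {m : ℕ} [NeZero m] (τ0 τ1 : ℕ → ℝ) (h0 : ∀ i, 0 ≤ τ0 i)
    (h1 : ∀ i, 0 ≤ τ1 i) (h01 : ∀ i, τ0 i + τ1 i ≤ S.St.τ₀) (ℓ0 lam : ℝ) (hlam : 0 ≤ lam)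
    (hout : lam < ∑ i ∈ Finset.range m, τ1 i) :
    ∃ D : ℝ, 0 ≤ D ∧ ∀ (Tb : Set E), IsCompact Tb → ∀ (a n : E × (ℕ → E) → E)
      (c : E × (ℕ → E) → Ch E), S.XFam (Tb ×ˢ univ) (fun p => p.2) m a n c →
      (∀ y P P', (∀ i < m, P i = P' i) → n (y, P) = n (y, P') ∧ ∀ i < m, c (y, P) i = c (y, P') i) →
      ∃ (a' n' : ℝ × E × (ℕ → E) → E) (c' : ℝ × E × (ℕ → E) → Ch E),
        S.XFam (univ ×ˢ Tb ×ˢ univ) (fun p => p.2.2) m a' n' c' ∧
        (∀ u ≤ 0, ∀ p, p.1 ∈ Tb → a' (u, p) = a p ∧ n' (u, p) = n p ∧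
          ∀ i < m, c' (u, p) i = c p i) ∧
        (∀ p, p.1 ∈ Tb → S.ValT τ0 m (c p) + S.Q (a p) (n p) ≤ ℓ0 → ∀ u,
          S.Val m (c' (u, p)) + S.Q (a' (u, p)) (n' (u, p)) ≤ ℓ0 ∧
          (1 ≤ u → S.Val m (c' (u, p)) + S.Q (a' (u, p)) (n' (u, p)) ≤ ℓ0 - lam)) ∧
        (∀ u u' p, p.1 ∈ Tb → ‖a' (u, p) - a' (u', p)‖ ≤ D * |u - u'|) ∧
        (∀ u y P P', (∀ i < m, P i = P' i) → a' (u, y, P) = a' (u, y, P') ∧
          n' (u, y, P) = n' (u, y, P') ∧ c' (u, y, P) = c' (u, y, P')) ∧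
        ∀ p, p.1 ∈ Tb → S.ValT τ0 m (c p) + S.Q (a p) (n p) ≤ ℓ0 - lam - 1 / 2 → ∀ u,
          a' (u, p) = a p ∧ n' (u, p) = n p ∧ ∀ i < m, c' (u, p) i = c p i := by
  have hτ := S.St.τpos
  have hs1 : ∑ i : Fin m, τ1 i = ∑ i ∈ Finset.range m, τ1 i := (Finset.sum_range τ1).symm
  have hvc : Continuous fun (ζ : Cfg E m (Option (Fin m))) (i : Fin m) => (ζ.1 i).1 := by
    fun_prop
  set Z' : Set (Cfg E m (Option (Fin m))) :=
    {ζ | ζ ∈ S.Z m (Option (Fin m)) ∧ ¬ S.Tr fun i => (ζ.1 i).1} with hZ'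
  obtain ⟨D, hD, hdef⟩ := S.deform (Link.bs : Option (Fin m) → Fin m) False (fun i => τ0 i)
    (fun i => τ1 i) (fun i => h0 i) (fun i => h1 i) (fun i => h01 i) ℓ0 lam (1 / 2) hlam
    (by norm_num) Z' (fun _ h => h.1)
    (fun ζ hζ hcl => ⟨hζ, fun ht => by
      have h1 := hvc.continuousAt.eventually (S.tr_open (S.stepLe_of_mem hζ) ht)
      obtain ⟨ζ', h2, h3⟩ := (h1.and_frequently (mem_closure_iff_frequently.mp hcl)).exists
      exact h3.2 (h2 (S.stepLe_of_mem h3.1))⟩)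
    (fun w T hT hw hZ h0 => ⟨hZ T ⟨hT, le_rfl⟩, fun ht => h0.2
      (S.tr_of_path (fun t i => ((w t).1 i).1) T hT (hvc.comp_continuousOn hw)
        (fun t h => S.stepLe_of_mem (hZ t h)) ht)⟩)
    (fun u hu ζ hζ z hz _ => (hζ.2 (S.tr_inner (Finset.sum_nonneg fun (i : Fin m) _ =>
        add_nonneg (h0 i) (mul_nonneg hu.1 (h1 i))) hz)).elim) (Or.inl (hs1 ▸ hout))
  refine ⟨D, hD, fun Tb hTb a n c hc hdep => ?_⟩
  have hcl' : ∀ p, p.1 ∈ Tb → (c p m).1 = (c p 0).1 := fun p hp =>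
    (hc.tgt p ⟨hp, mem_univ _⟩).trans (hc.src p ⟨hp, mem_univ _⟩).symm
  set f : E × (ℕ → E) → Cfg E m (Option (Fin m)) := fun p => Link.ex (n p) (toCfg m (c p))
    with hf
  have hfc : ContinuousOn f (Tb ×ˢ univ) := by
    have h2 := continuousOn_toCfg hc.cont
    refine ContinuousOn.prodMk h2.fst (continuousOn_pi.2 fun j => ?_)
    cases j with
    | none => exact hc.nc
    | some i => exact (continuous_apply i).comp_continuousOn h2.snd
  have hfd : ∀ y P P', (∀ i < m, P i = P' i) → f (y, P) = f (y, P') := by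
    intro y P P' h
    obtain ⟨e1, e2⟩ := hdep y P P' h
    simp only [hf, toCfg, e1]
    congr 2 <;> funext i <;> rw [e2 i i.2]
  have hf0 : ∀ p, p.1 ∈ Tb → ((f p).1 0).1 = a p := fun p hp => hc.src p ⟨hp, mem_univ _⟩
  have hfch : ∀ p, ∀ i < m, xpushCh (f p) i = c p i := fun p i hi => ofCfg_toCfg (c p) hi
  have hactf : ∀ (τ : ℕ → ℝ) p, p.1 ∈ Tb → S.act Link.bs (fun i : Fin m => τ i) (f p) =
      S.ValT τ m (c p) + S.Q (a p) (n p) := fun τ p hp => by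
    rw [hf, Link.act_ex, S.act_toCfg τ (hcl' p hp), ← hf0 p hp]
    rfl
  have hZ : ∀ p, p.1 ∈ Tb → f p ∈ Z' := fun p hp =>
    ⟨S.toCfg_mem (hc.valid p ⟨hp, mem_univ _⟩) (hcl' p hp), hc.nt p ⟨hp, mem_univ _⟩⟩
  have hτ0 : ∀ i, τ0 i ≤ S.St.τ₀ := fun i => by linarith [h01 i, h1 i]
  have hanti : ∀ {τ : Fin m → ℝ}, (∀ i, 0 ≤ τ i) → (∀ i, τ i ≤ S.St.τ₀) → ∀ ζ ∈ Z',
      S.act Link.bs (fun _ => S.St.τ₀) ζ ≤ S.act Link.bs τ ζ := fun hτ1 hτ2 ζ hζ =>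
    (S.act_anti Link.bs hτ1 hτ2 (fun _ => le_rfl) hζ.1).1
  have hval : ∀ ζ : Cfg E m (Option (Fin m)), S.Val m (xpushCh ζ) + S.Q (ζ.1 0).1 (ζ.2 none) =
      S.act Link.bs (fun _ => S.St.τ₀) ζ := fun ζ => (xpush_act S (fun _ => S.St.τ₀) ζ).symm
  obtain ⟨R, hR⟩ := hc.proper (-(ℓ0 - lam - 1 / 2 - m * S.St.τ₀))
  have hfar : ∀ p, p.1 ∈ Tb → (∃ i < m, R ≤ ‖p.2 i‖) →
      S.act Link.bs (fun i : Fin m => τ0 i) (f p) ≤ ℓ0 - lam - 1 / 2 := by
    intro p hp hP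
    have e1 := hR p ⟨hp, mem_univ _⟩ hP
    have e2 := (S.act_anti Link.bs (τ := fun i : Fin m => τ0 i) (τ' := fun _ => S.St.τ₀)
      (fun i => h0 i) (fun i => hτ0 i) (fun _ => le_rfl) (hZ p hp).1).2
    have e3 : ∑ i : Fin m, (S.St.τ₀ - τ0 i) ≤ ∑ _i : Fin m, S.St.τ₀ :=
      Finset.sum_le_sum fun i _ => by linarith [h0 i]
    simp only [Finset.sum_const, Finset.card_univ, Fintype.card_fin, nsmul_eq_mul] at e3
    have e4 := hactf (fun _ => S.St.τ₀) p hp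
    unfold Sys.Val at e1
    linarith
  obtain ⟨K, hKf, hK, hPK⟩ := xpush_compact m hTb f hfc hfd R
  obtain ⟨e, ec, e0, e1, -, eZ, ele, elip, efix⟩ :=
    hdef K (fun ζ hζ => by obtain ⟨p, hp, rfl⟩ := hKf hζ; exact hZ p hp.1) hK
  have hfix : ∀ p, p.1 ∈ Tb → (∃ i < m, R ≤ ‖p.2 i‖) → ∀ u, e (u, f p) = f p := fun p hp hP =>
    efix _ (hZ p hp).1 (hfar p hp hP)
  have hdich : ∀ p, p.1 ∈ Tb → f p ∈ K ∨ ∃ i < m, R ≤ ‖p.2 i‖ := by
    intro p hp
    by_cases h : ∃ i < m, R ≤ ‖p.2 i‖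
    · exact Or.inr h
    · push Not at h
      exact Or.inl (hPK p hp fun i hi => (h i hi).le)
  have hmem : ∀ u p, p.1 ∈ Tb → e (u, f p) ∈ Z' := by
    intro u p hp
    rcases hdich p hp with h | h
    · exact eZ _ h u
    · rw [hfix p hp h]
      exact hZ p hp
  have hlev : ∀ p, p.1 ∈ Tb → S.ValT τ0 m (c p) + S.Q (a p) (n p) ≤ ℓ0 → ∀ u ∈ Icc (0 : ℝ) 1,
      S.act Link.bs (fun _ => S.St.τ₀) (e (u, f p)) ≤ ℓ0 - u * lam := by
    intro p hp hl u hu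
    rcases hdich p hp with h | h
    · refine (hanti (fun i => add_nonneg (h0 i) (mul_nonneg hu.1 (h1 i))) (fun i => ?_) _
        (hmem u p hp)).trans (ele _ h ((hactf τ0 p hp).trans_le hl) u hu)
      nlinarith [h01 i, h1 i, hu.2]
    · rw [hfix p hp h]
      refine (hanti (fun i => h0 i) (fun i => hτ0 i) _ (hZ p hp)).trans ((hfar p hp h).trans ?_)
      nlinarith [hu.2]
  have hec : ContinuousOn (fun p : ℝ × E × (ℕ → E) => e (p.1, f p.2)) (univ ×ˢ Tb ×ˢ univ) :=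
    ec.comp_continuousOn (continuousOn_fst.prodMk (hfc.comp continuousOn_snd fun p hp => hp.2))
  have hsame : ∀ u p, p.1 ∈ Tb → e (u, f p) = f p → ((e (u, f p)).1 0).1 = a p ∧
      (e (u, f p)).2 none = n p ∧ ∀ i < m, xpushCh (e (u, f p)) i = c p i := fun u p hp h => by
    rw [h]
    exact ⟨hf0 p hp, rfl, hfch p⟩
  refine ⟨fun p => ((e (p.1, f p.2)).1 0).1, fun p => (e (p.1, f p.2)).2 none,
    fun p => xpushCh (e (p.1, f p.2)), ⟨fun i _ => ?_, ?_, fun p hp => ?_,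
      fun p _ => ofCfg_zero _, fun p _ => ofCfg_self _, fun L => ?_, fun p hp => ?_⟩,
    fun u hu p hp => hsame u p hp (e0 u hu _), fun p hp hl u => ?_, fun u u' p hp => ?_,
    fun u y P P' h => ?_, fun p hp hl u => hsame u p hp
      (efix _ (hZ p hp).1 ((hactf τ0 p hp).trans_le hl) u)⟩
  · have : Continuous fun ζ : Cfg E m (Option (Fin m)) => xpushCh ζ i :=
      (continuous_ofCfg i).comp (by fun_prop)
    exact this.comp_continuousOn hec
  · exact (continuous_apply none).comp_continuousOn hec.snd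
  · exact S.valid_ofCfg (ζ := ((e (p.1, f p.2)).1, fun i => (e (p.1, f p.2)).2 (some i)))
      (hmem p.1 p.2 hp.2.1).1
  · obtain ⟨R', hR'⟩ := hc.proper L
    refine ⟨max R R', fun p hp ⟨i, hi, hP⟩ => ?_⟩
    rw [hval, hfix p.2 hp.2.1 ⟨i, hi, (le_max_left _ _).trans hP⟩,
      hactf (fun _ => S.St.τ₀) p.2 hp.2.1]
    exact hR' p.2 hp.2 ⟨i, hi, (le_max_right _ _).trans hP⟩
  · simp only [xpush_fst]
    exact (hmem p.1 p.2 hp.2.1).2
  · have hl1 : 1 ≤ u → S.act Link.bs (fun _ => S.St.τ₀) (e (u, f p)) ≤ ℓ0 - lam := fun hu => by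
      rw [e1 u hu]
      simpa using hlev p hp hl 1 ⟨zero_le_one, le_rfl⟩
    simp only [hval]
    refine ⟨?_, hl1⟩
    rcases le_total u 0 with h | h
    · have := hlev p hp hl 0 ⟨le_rfl, zero_le_one⟩
      rw [e0 0 le_rfl] at this
      simpa only [e0 _ h, zero_mul, sub_zero] using this
    · rcases le_total u 1 with h' | h'
      · linarith [hlev p hp hl u ⟨h, h'⟩, mul_nonneg h hlam]
      · linarith [hl1 h']
  · rcases hdich p hp with h | h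
    · refine le_trans ?_ (elip _ h u u')
      exact (norm_fst_le ((e (u, f p) - e (u', f p)).1 0)).trans
        ((norm_le_pi_norm (e (u, f p) - e (u', f p)).1 0).trans (norm_fst_le _))
    · simp only [hfix p hp h, sub_self, norm_zero]
      positivity
  · simp only [hfd y P P' h, and_self]

end Pool.Agent.Wein
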