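import Mathlib
import Pool.Agent.P.MP_e3ee0c_gt.XTopA

/-! The polygons on the loops of a wall are not trivial. -/

open Set Filter Topology
open scoped ContDiff InnerProductSpace

namespace Pool.Agent.Wein

open TopAux

variable {E : Type} [NormedAddCommGroup E] [InnerProductSpace ℝ E]

/-- A quantitative form of the fact that fine subdivisions are not trivial. -/
lemma Geo.nontriv_of (G : Geo E) (γ : C(UnitAddCircle, G.S)) (hγ : ¬ γ.Nullhomotopic) (m : ℕ)
    [NeZero m] (h : ∀ s t : UnitAddCircle, ‖s - t‖ ≤ 1 / (m : ℝ) → ‖(γ s : E) - γ t‖ ≤ G.δ) :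
    ¬ G.Triv (fun i : Fin m => ((γ (((i : ℕ) : ℝ) / m : ℝ) : G.S) : E)) := by
  rintro ⟨c, hc, hc0, hcs, x0, hc1⟩
  refine hγ ?_
  have hδ := G.δpos
  have hx0 : x0 ∈ G.S := by
    have := (hcs 1 0).1
    rwa [hc1] at this
  have hr := G.smooth.continuous
  have hK : Continuous fun p : ℝ × UnitAddCircle => pl (c p.1) p.2 :=
    pl_cont (hc.comp continuous_fst) continuous_snd
  have hK0 : Continuous fun t : UnitAddCircle => pl (c 0) t :=
    pl_cont continuous_const continuous_id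
  let f0 : C(UnitAddCircle, G.S) :=
    ⟨fun t => ⟨G.r (pl (c 0) t), G.pl_mem (hcs 0) t⟩, (hr.comp hK0).subtype_mk _⟩
  have hγc : Continuous fun t : UnitAddCircle => (γ t : E) :=
    continuous_subtype_val.comp γ.continuous
  have hnear : ∀ t, ‖pl (c 0) t - (γ t : E)‖ ≤ G.δ := fun t => by
    refine pl_near _ _ _ _ fun i hi => ?_
    rw [hat_pos_iff, norm_sub_rev, ← dist_eq_norm] at hi
    rw [hc0]
    exact h _ _ (by rw [← dist_eq_norm]; exact hi.le)
  have H1 : γ.Homotopic f0 := by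
    refine homotopic_of γ f0 (fun p => G.r ((γ p.2 : E) + p.1 • (pl (c 0) p.2 - (γ p.2 : E))))
      (hr.comp ((hγc.comp continuous_snd).add (continuous_fst.smul
        ((hK0.comp continuous_snd).sub (hγc.comp continuous_snd))))) ?_ ?_ ?_
    · intro s hs t
      refine (G.r_near (γ t).2 ?_).1
      rw [add_sub_cancel_left, norm_smul, Real.norm_of_nonneg hs.1]
      exact (mul_le_of_le_one_left (norm_nonneg _) hs.2).trans ((hnear t).trans (by linarith))
    · intro t
      simp only [zero_smul, add_zero]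
      exact G.fix _ (γ t).2
    · intro t
      simp only [one_smul, add_sub_cancel]
      rfl
  have H2 : f0.Homotopic (ContinuousMap.const _ ⟨x0, hx0⟩) := by
    refine homotopic_of _ _ (fun p => G.r (pl (c p.1) p.2)) (hr.comp hK)
      (fun s _ t => G.pl_mem (hcs s) t) (fun t => rfl) fun t => ?_
    have : pl (c 1) t = x0 := by
      have h := pl_near (c 1) t x0 0 fun i _ => by rw [hc1]; simp
      rwa [norm_le_zero_iff, sub_eq_zero] at h
    simp only [this]
    exact G.fix _ hx0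
  exact ⟨_, H1.trans H2⟩

lemma xtopb_norm (s t : ℝ) : ‖(s : UnitAddCircle) - (t : UnitAddCircle)‖ ≤ |s - t| := by
  rw [← AddCircle.coe_sub]
  exact QuotientAddGroup.norm_mk_le_norm

/-- The parameters of the intermediate polygons. -/
noncomputable def xtopbP (M m : ℕ) (s : ℝ) (n : ℕ) : ℝ :=
  (1 - s) * ((n : ℝ) / M) + s * (((min n m : ℕ) : ℝ) / m)

lemma xtopb_step {M m : ℕ} (hm : 0 < m) (hM : m ≤ M) {s : ℝ} (hs : s ∈ Icc (0 : ℝ) 1) (n : ℕ) :
    |xtopbP M m s n - xtopbP M m s (n + 1)| ≤ 1 / (m : ℝ) := by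
  have h0 : (0 : ℝ) < m := by exact_mod_cast hm
  have h1 : (m : ℝ) ≤ M := by exact_mod_cast hM
  have h2 : 1 / (M : ℝ) ≤ 1 / m := one_div_le_one_div_of_le h0 h1
  have h3 : 0 ≤ 1 / (M : ℝ) := by positivity
  have h4 : ((min n m : ℕ) : ℝ) ≤ ((min (n + 1) m : ℕ) : ℝ) := Nat.cast_le.2 (by omega)
  have h5 : ((min (n + 1) m : ℕ) : ℝ) ≤ ((min n m : ℕ) : ℝ) + 1 := by
    exact_mod_cast (by omega : min (n + 1) m ≤ min n m + 1)
  obtain ⟨e, he⟩ : ∃ e : ℝ, e = (((min (n + 1) m : ℕ) : ℝ) - ((min n m : ℕ) : ℝ)) / m := ⟨_, rfl⟩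
  have e0 : 0 ≤ e := he ▸ div_nonneg (by linarith) h0.le
  have e1 : e ≤ 1 / m := he ▸ div_le_div_of_nonneg_right (by linarith) h0.le
  have e2 : xtopbP M m s (n + 1) - xtopbP M m s n = (1 - s) * (1 / M) + s * e := by
    rw [he]
    unfold xtopbP
    rw [Nat.cast_add n 1, Nat.cast_one]
    ring
  have s1 := sub_nonneg.2 hs.2
  rw [abs_sub_comm, e2, abs_of_nonneg (add_nonneg (mul_nonneg s1 h3) (mul_nonneg hs.1 e0))]
  nlinarith [mul_le_mul_of_nonneg_left h2 s1, mul_le_mul_of_nonneg_left e1 hs.1]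

lemma xtopb_succ {M m : ℕ} [NeZero M] (hm : 0 < m) (hM : m ≤ M) (s : ℝ) (i : Fin M) :
    ((xtopbP M m s ((i + 1 : Fin M) : ℕ) : ℝ) : UnitAddCircle) =
      ((xtopbP M m s ((i : ℕ) + 1) : ℝ) : UnitAddCircle) := by
  have e : ((i + 1 : Fin M) : ℕ) = ((i : ℕ) + 1) % M := by
    rw [Fin.val_add, Fin.val_one', Nat.add_mod_mod]
  rw [e]
  rcases (Nat.succ_le_of_lt i.2).lt_or_eq with h | h
  · rw [Nat.mod_eq_of_lt h]
  · have h' : (i : ℕ) + 1 = M := h
    have h0 : (m : ℝ) ≠ 0 := by exact_mod_cast hm.ne'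
    have h1 : (M : ℝ) ≠ 0 := by exact_mod_cast NeZero.ne M
    have e0 : xtopbP M m s 0 = 0 := by simp [xtopbP]
    have e1 : xtopbP M m s M = 1 := by
      unfold xtopbP
      rw [min_eq_right hM, div_self h0, div_self h1]
      ring
    rw [h', Nat.mod_self, e0, e1, AddCircle.coe_period, AddCircle.coe_zero]

theorem Wall.nontriv {S : Sys E} (Wl : Wall S.S) (hNT : Wl.NT) : ∃ m1 : ℕ, 0 < m1 ∧
    (∀ x ∈ Wl.K, ∀ s t : ℝ, |s - t| ≤ 1 / (m1 : ℝ) →
      ‖Wl.σ (x, (s : UnitAddCircle)) - Wl.σ (x, (t : UnitAddCircle))‖ ≤ S.μ) ∧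
    ∀ (M : ℕ) [NeZero M], m1 ≤ M → ∀ x ∈ Wl.K,
      ¬ S.Tr fun i : Fin M => Wl.pol m1 x i := by
  obtain ⟨ρ, hρ, hmod⟩ := Wl.σ_mod S.compact S.μpos
  obtain ⟨m, hm⟩ := exists_nat_gt (1 / ρ)
  have hm0 : (0 : ℝ) < m := lt_trans (by positivity) hm
  have hm1 : 0 < m := by exact_mod_cast hm0
  have hmρ : 1 / (m : ℝ) ≤ ρ := by
    rw [div_lt_iff₀ hρ] at hm
    rw [div_le_iff₀ hm0]
    linarith
  have hstep : ∀ x ∈ Wl.K, ∀ s t : ℝ, |s - t| ≤ 1 / (m : ℝ) →
      ‖Wl.σ (x, (s : UnitAddCircle)) - Wl.σ (x, (t : UnitAddCircle))‖ ≤ S.μ :=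
    fun x hx s t h => hmod x hx _ _ ((xtopb_norm s t).trans (h.trans hmρ))
  refine ⟨m, hm1, hstep, fun M _ hM x hx htr => ?_⟩
  have hc : Continuous fun t : UnitAddCircle => Wl.σ (x, t) :=
    Wl.σc.comp_continuous (by fun_prop) fun t => ⟨hx, trivial⟩
  have hMm : 1 / (M : ℝ) ≤ 1 / m := one_div_le_one_div_of_le hm0 (by exact_mod_cast hM)
  refine S.G0.nontriv_of ⟨fun t => ⟨S.pr (Wl.σ (x, t)), S.prm _ (Wl.σm x hx.1 hx.2 t).1⟩,
      (S.prc.comp hc).subtype_mk _⟩ (hNT x hx _ fun t => rfl) M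
    (fun s t h => S.prs _ (Wl.σm x hx.1 hx.2 s).1 _ (Wl.σm x hx.1 hx.2 t).1
      ((hmod x hx s t (h.trans (hMm.trans hmρ))).trans (by linarith [S.μ_le, S.δpos]))) ?_
  have := S.tr_concat
    (fun t (i : Fin M) => Wl.σ (x, ((xtopbP M m (clamp t) i : ℝ) : UnitAddCircle)))
    (continuous_pi fun i => hc.comp ((AddCircle.continuous_mk' 1).comp (by
      have := clamp_cont
      unfold xtopbP
      fun_prop)))
    (fun t i => ⟨(Wl.σm x hx.1 hx.2 _).1, by
      have h1 := hstep x hx _ _ (xtopb_step hm1 hM (clamp_mem t) i)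
      have h2 := S.μ_le
      have h3 := S.δpos
      simp only [xtopb_succ hm1 hM]
      linarith⟩)
    (by simpa only [xtopbP, clamp_one, sub_self, zero_mul, one_mul, zero_add, Wall.pol] using htr)
  simpa only [xtopbP, clamp_zero, sub_zero, zero_mul, one_mul, add_zero, ContinuousMap.coe_mk,
    Sys.Tr] using this

/-- Among chains with short steps the trivial ones form a closed set. -/
lemma Geo.triv_near (G : Geo E) {m : ℕ} [NeZero m] {x x' : Fin m → E}
    (hs : G.StepLe (3 * G.δ) x) (hs' : G.StepLe (3 * G.δ) x') (hx' : dist x' x < G.δ / 4)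
    (h : G.Triv x) : G.Triv x' := by
  have hδ := G.δpos
  have hd : ∀ i, ‖x' i - x i‖ ≤ G.δ / 4 := fun i => by
    rw [← dist_eq_norm]
    exact (dist_le_pi_dist x' x i).trans (le_of_lt hx')
  have hu : ∀ t i, ‖x i + (1 - clamp t) • (x' i - x i) - x i‖ ≤ G.δ / 4 := fun t i => by
    have ht := clamp_mem t
    rw [add_sub_cancel_left, norm_smul, Real.norm_of_nonneg (by linarith [ht.2])]
    exact (mul_le_of_le_one_left (norm_nonneg _) (by linarith [ht.1])).trans (hd i)
  have hr : ∀ t i, G.r (x i + (1 - clamp t) • (x' i - x i)) ∈ G.S ∧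
      ‖G.r (x i + (1 - clamp t) • (x' i - x i)) - x i‖ ≤ G.δ / 2 := fun t i => by
    have := G.r_near (hs i).1 ((hu t i).trans (by linarith))
    exact ⟨this.1, this.2.trans (by linarith [hu t i])⟩
  have hc : Continuous fun t i => G.r (x i + (1 - clamp t) • (x' i - x i)) :=
    continuous_pi fun i => G.smooth.continuous.comp
      (continuous_const.add ((continuous_const.sub clamp_cont).smul continuous_const))
  have := G.triv_concat (fun t i => G.r (x i + (1 - clamp t) • (x' i - x i))) hc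
    (fun t i => ⟨(hr t i).1, by
      have h1 := (hr t i).2
      have h2 := (hr t (i + 1)).2
      have h3 := (hs i).2
      have h4 := dist_triangle4 (G.r (x i + (1 - clamp t) • (x' i - x i))) (x i) (x (i + 1))
        (G.r (x (i + 1) + (1 - clamp t) • (x' (i + 1) - x (i + 1))))
      rw [dist_comm (x (i + 1))] at h4
      simp only [dist_eq_norm] at h4
      linarith⟩)
    (by
      have e : (fun i => G.r (x i + (1 - clamp 1) • (x' i - x i))) = x := by
        funext i
        rw [clamp_one, sub_self, zero_smul, add_zero, G.fix _ (hs i).1]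
      simpa only [e] using h)
  have e : (fun i => G.r (x i + (1 - clamp 0) • (x' i - x i))) = x' := by
    funext i
    rw [clamp_zero, sub_zero, one_smul, add_sub_cancel, G.fix _ (hs' i).1]
  simpa only [e] using this

/-- The action of a closed orbit whose regular polygon is trivial is not positive. -/
theorem Sys.exc (S : Sys E) {m : ℕ} [NeZero m] {J : Type} {ζ : Cfg E m J} {z : E × E}
    (hz : S.Inner False (m * S.St.τ₀) ζ z) (ht : S.toGeo.Triv fun i => (ζ.1 i).1) :
    S.Hm.A (m * S.St.τ₀, z) ≤ 0 := by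
  have hτ := S.St.τpos
  have hm : (0 : ℝ) < m := by exact_mod_cast NeZero.pos m
  have hs : 0 < m * S.St.τ₀ := by positivity
  have hcl := hz.closed not_false
  rcases (S.per z hz.mem _ hs hcl).2 with h | h
  · have hd : ∀ t, HasDerivAt (fun s => S.Hm.A (s, z)) (-S.F (S.Hm.Φ (t, z))) t := fun t => by
      obtain ⟨v, hv, -⟩ := (S.Hm.orbit z hz.mem t).2
      have h1 : HasDerivAt (fun s => (S.Hm.Φ (s, z)).1) v.1 t := hv.fst
      simp only [h] at h1
      have h2 := S.Hm.Aderiv z hz.mem t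
      rw [hv.deriv, h1.unique (hasDerivAt_const _ _), inner_zero_right, zero_sub] at h2
      exact h2
    have := antitone_of_deriv_nonpos (fun t => (hd t).differentiableAt) (fun t => by
      rw [(hd t).deriv]
      linarith [(S.h01 _ (S.Hm.mem t z hz.mem)).1]) hs.le
    simpa only [S.Hm.Azero] using this
  · exfalso
    obtain ⟨σ, s0, sm, sk, hv⟩ := hz.vert
    have up : ∀ j k : ℕ, σ (k + j) ≤ σ k + j * S.St.τ₀ := fun j k => by
      induction j with
      | zero => simp
      | succ j ih =>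
        have := sk (k + j)
        rw [← add_assoc]
        push_cast
        linarith
    have hσ : ∀ i : Fin m, σ i = (i : ℕ) * S.St.τ₀ := fun i => by
      have h1 := up i 0
      have h2 := up (m - i) i
      rw [zero_add, s0] at h1
      rw [Nat.add_sub_cancel' i.2.le, sm, Nat.cast_sub i.2.le] at h2
      linarith
    have hp : Function.Periodic (fun t : ℝ =>
        (⟨(S.Hm.Φ (t * (m * S.St.τ₀), z)).1, (S.Hm.mem _ z hz.mem).1⟩ : S.S)) 1 := fun t => by
      simp only [add_mul, one_mul, S.Hm.add, hcl]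
    have hc : Continuous fun t : ℝ =>
        (⟨(S.Hm.Φ (t * (m * S.St.τ₀), z)).1, (S.Hm.mem _ z hz.mem).1⟩ : S.S) := by
      have := S.Hm.Φs.continuous
      exact Continuous.subtype_mk (by fun_prop) _
    let γ : C(UnitAddCircle, S.S) := ⟨hp.lift, hc.quotient_liftOn' _⟩
    have hγ : ∀ t : ℝ, (γ t : E) = (S.Hm.Φ (t * (m * S.St.τ₀), z)).1 := fun t => rfl
    refine S.toGeo.nontriv_of γ (h γ hγ) m (fun s t hst => ?_) ?_
    · obtain ⟨a, rfl⟩ := QuotientAddGroup.mk_surjective s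
      obtain ⟨b, rfl⟩ := QuotientAddGroup.mk_surjective t
      rw [← AddCircle.coe_sub, UnitAddCircle.norm_eq] at hst
      have e : ((b : ℝ) : UnitAddCircle) = ((b + round (a - b) : ℝ) : UnitAddCircle) := by
        rw [AddCircle.coe_add, (AddCircle.coe_eq_zero_iff (1 : ℝ) (x := (round (a - b) : ℝ))).2
          ⟨round (a - b), by simp⟩, add_zero]
      rw [e, hγ, hγ]
      have e2 : a * (m * S.St.τ₀) = (a - b - round (a - b)) * (m * S.St.τ₀) +
          (b + round (a - b)) * (m * S.St.τ₀) := by ring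
      rw [e2, S.Hm.add]
      refine S.slow _ (S.Hm.mem _ z hz.mem) _ ?_
      rw [abs_mul, abs_of_pos hs]
      calc _ ≤ 1 / (m : ℝ) * (m * S.St.τ₀) := by gcongr
        _ = _ := by field_simp
    · convert ht using 2 with i
      rw [hγ, hv i, hσ i]
      congr 3
      field_simp

end Pool.Agent.Wein
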