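import Mathlib
import Pool.Agent.P.MP_e3ee0c_gt.XTopB
import Pool.Agent.P.MP_e3ee0c_gt.XPush
import Pool.Agent.P.MP_e3ee0c_gt.XGoodA

/-! The first stage of the construction of the slice. -/

open Set Filter Topology
open scoped ContDiff InnerProductSpace

namespace Pool.Agent.Wein

open TopAux

variable {E : Type} [NormedAddCommGroup E] [InnerProductSpace ℝ E] [FiniteDimensional ℝ E]

omit [FiniteDimensional ℝ E] in
lemma Sys.Q_le' (S : Sys E) {x u : E} (hx : x ∈ S.S) (h : ‖u - x‖ ≤ S.δ) (c : ℝ) :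
    S.Q (S.r u) (c • (u - S.r u)) ≤ -(7 / 8) * ‖c • (u - S.r u)‖ ^ 2 := by
  obtain ⟨h0, -, h1⟩ := S.tube hx h
  have h2 := S.pyth h0 (c • (u - S.r u))
  have h3 : ‖S.P (S.r u) (c • (u - S.r u))‖ ≤ 1 / 4 * ‖c • (u - S.r u)‖ := by
    rw [map_smul, norm_smul, norm_smul]
    nlinarith [norm_nonneg c]
  unfold Sys.Q
  nlinarith [norm_nonneg (S.P (S.r u) (c • (u - S.r u))), norm_nonneg (c • (u - S.r u))]

/-- The result of the first stage, with j more unit letters at the base point. -/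
structure Stage (S : Sys E) (Wl : Wall S.S) (m1 M1 M : ℕ) [NeZero M] (Λ L' t' : ℝ)
    (β n : E × (ℕ → E) → E) (H : E × (ℕ → E) → ℝ) (ch : E × (ℕ → E) → Ch E) : Prop where
  fam : S.XFam (Wl.tube ×ˢ univ) (fun p => p.2) M β n ch
  dep : ∀ y P P', (∀ i < M, P i = P' i) →
    n (y, P) = n (y, P') ∧ ∀ i < M, ch (y, P) i = ch (y, P') i
  Hc : ContinuousOn H (Wl.tube ×ˢ univ)
  Hth : ∀ p, p.1 ∈ Wl.tube → ((H p : ℝ) : UnitAddCircle) = Wl.th (β p)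
  Hle : ∀ p, p.1 ∈ Wl.tube → |H p| ≤ t' - 1
  le : ∀ p, p.1 ∈ Wl.tube → S.Val M (ch p) + S.Q (β p) (n p) ≤ m1 * (S.St.τ₀ / 4)
  low : ∀ p, p.1 ∈ Wl.tube → Wl.d / 4 ≤ Wl.tau p.1 →
    S.ValT (fun i => if i < M1 then S.St.τ₀ else 0) M (ch p) + S.Q (β p) (n p) ≤ -L'
  start : ∀ p, p.1 ∈ Wl.tube → Wl.tau p.1 ≤ 0 → β p = S.r p.1 ∧ n p = Λ • (p.1 - S.r p.1) ∧
    H p = Wl.tau p.1 ∧ ∀ i < M, ch p i = S.unit (Wl.pol m1 (S.r p.1)) p.2 i
  edge : ∀ p, p.1 ∈ Wl.tube → S.δ ≤ ‖p.1 - S.r p.1‖ →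
    S.ValT (fun i => if i < M1 then S.St.τ₀ else 0) M (ch p) + S.Q (β p) (n p) ≤
      m1 * (S.St.τ₀ / 4) - 7 / 8 * (Λ * S.δ) ^ 2

omit [FiniteDimensional ℝ E] [InnerProductSpace ℝ E] in
lemma xslicea_zero {N : Set E} (Wl : Wall N) (m : ℕ) {x : E} (hx : x ∈ Wl.K) :
    Wl.pol m x 0 = x := by
  simp only [Wall.pol, Nat.zero_min, Nat.cast_zero, zero_div, AddCircle.coe_zero]
  exact Wl.σ0 x hx.1 hx.2

omit [FiniteDimensional ℝ E] [InnerProductSpace ℝ E] in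
lemma xslicea_ge {N : Set E} (Wl : Wall N) {m i : ℕ} (hm : 0 < m) (hi : m ≤ i) {x : E}
    (hx : x ∈ Wl.K) : Wl.pol m x i = x := by
  have h0 : (m : ℝ) ≠ 0 := by exact_mod_cast hm.ne'
  simp only [Wall.pol, min_eq_right hi, div_self h0, AddCircle.coe_period]
  exact Wl.σ0 x hx.1 hx.2

lemma xslicea_step {m : ℕ} (hm : 0 < m) (i : ℕ) :
    |((min i m : ℕ) : ℝ) / m - ((min (i + 1) m : ℕ) : ℝ) / m| ≤ 1 / (m : ℝ) := by
  have h0 : (0 : ℝ) < m := by exact_mod_cast hm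
  have h4 : ((min i m : ℕ) : ℝ) ≤ ((min (i + 1) m : ℕ) : ℝ) := Nat.cast_le.2 (by omega)
  have h5 : ((min (i + 1) m : ℕ) : ℝ) ≤ ((min i m : ℕ) : ℝ) + 1 := by
    exact_mod_cast (by omega : min (i + 1) m ≤ min i m + 1)
  rw [← sub_div, abs_div, abs_of_pos h0]
  exact div_le_div_of_nonneg_right (abs_le.2 ⟨by linarith, by linarith⟩) h0.le

omit [FiniteDimensional ℝ E] in
/-- More unit letters at the base point do not raise the level. -/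
lemma xslicea_val (S : Sys E) (M j : ℕ) {c : Ch E} {x : E} (hx : x ∈ S.S) (h : (c M).1 = x)
    (P : ℕ → E) : S.ValT (fun i => if i < M then S.St.τ₀ else 0) (M + j)
      (cat M c (S.unit (fun _ => x) P)) ≤ S.Val M c := by
  rw [S.valT_cat _ _ _ _ _ (h.trans (S.unit_fst (fun _ => x) P 0).symm)]
  have e1 : S.ValT (fun i => if i < M then S.St.τ₀ else 0) M c = S.Val M c :=
    Finset.sum_congr rfl fun i hi => by simp only [if_pos (Finset.mem_range.mp hi)]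
  have e2 := S.unit_le_zero j hx P (τ := fun i => if M + i < M then S.St.τ₀ else 0) fun i _ => by
    rw [if_neg (by omega)]
    exact ⟨le_rfl, S.St.τpos.le⟩
  linarith

theorem exists_stage (S : Sys E) (Wl : Wall S.S) {m1 : ℕ} (hm : 0 < m1)
    (hs : ∀ x ∈ Wl.K, ∀ s t : ℝ, |s - t| ≤ 1 / (m1 : ℝ) →
      ‖Wl.σ (x, (s : UnitAddCircle)) - Wl.σ (x, (t : UnitAddCircle))‖ ≤ S.μ)
    (hnt : ∀ (M : ℕ) [NeZero M], m1 ≤ M → ∀ x ∈ Wl.K,
      ¬ S.Tr fun i : Fin M => Wl.pol m1 x i) (L' : ℝ) (hL' : 0 ≤ L') :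
    ∃ (M1 : ℕ) (t' : ℝ), m1 ≤ M1 ∧ 0 ≤ t' ∧ ∀ (j : ℕ) [NeZero (M1 + j)] (Λ : ℝ), 0 < Λ →
      m1 * (S.St.τ₀ / 4) + L' + 1 / 2 ≤ 7 / 8 * (Λ * S.δ) ^ 2 →
      ∃ β n H ch, Stage S Wl m1 M1 (M1 + j) Λ L' t' β n H ch := by
  have hτ := S.St.τpos
  have hq : 0 ≤ (m1 : ℝ) * (S.St.τ₀ / 4) := by positivity
  obtain ⟨M0, hM0⟩ := exists_nat_gt ((m1 * (S.St.τ₀ / 4) + L') / S.St.τ₀)
  obtain ⟨M1, hM1, hM2⟩ : ∃ M1 : ℕ, m1 ≤ M1 ∧ m1 * (S.St.τ₀ / 4) + L' < M1 * S.St.τ₀ := by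
    refine ⟨M0 + m1, Nat.le_add_left _ _, ?_⟩
    rw [div_lt_iff₀ hτ] at hM0
    push_cast
    nlinarith
  have hM1p : 0 < M1 := hm.trans_le hM1
  have : NeZero M1 := ⟨hM1p.ne'⟩
  obtain ⟨D, hD, hpush⟩ := S.push (m := M1) (fun _ => 0) (fun _ => S.St.τ₀) (fun _ => le_rfl)
    (fun _ => hτ.le) (fun _ => (zero_add _).le) (m1 * (S.St.τ₀ / 4)) (m1 * (S.St.τ₀ / 4) + L')
    (by linarith) (by simpa only [Finset.sum_const, Finset.card_range, nsmul_eq_mul] using hM2)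
  obtain ⟨t, ht, hlift⟩ := Wl.lift S.compact D hD
  have hd := Wl.dpos
  refine ⟨M1, t + Wl.d + 1, hM1, by linarith, fun j _ Λ hΛ hΛ' => ?_⟩
  have hr : Continuous S.r := S.smooth.continuous
  have hv : ∀ x ∈ Wl.K, ∀ i, Wl.pol m1 x i ∈ S.S ∧ ‖Wl.pol m1 x i - Wl.pol m1 x (i + 1)‖ ≤ S.μ :=
    fun x hx i => ⟨(Wl.σm x hx.1 hx.2 _).1, hs x hx _ _ (xslicea_step hm i)⟩
  have hQ : ∀ y ∈ Wl.tube, S.Q (S.r y) (Λ • (y - S.r y)) ≤ -(7 / 8) * ‖Λ • (y - S.r y)‖ ^ 2 :=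
    fun y hy => hy.1.elim fun x hx => S.Q_le' hx.1 hx.2 Λ
  have hQ0 : ∀ y ∈ Wl.tube, S.Q (S.r y) (Λ • (y - S.r y)) ≤ 0 := fun y hy =>
    (hQ y hy).trans (by nlinarith [sq_nonneg ‖Λ • (y - S.r y)‖])
  have hcard : ∀ y ∈ Wl.tube, ∀ (P : ℕ → E) (s : ℝ), s ∈ Icc 0 S.St.τ₀ →
      S.ValT (fun _ => s) M1 (S.unit (Wl.pol m1 (S.r y)) P) ≤ m1 * (S.St.τ₀ / 4) := by
    intro y hy P s hs'
    have := Sys.unit_le_card (m := M1) (fun i _ => hv _ (Wl.r_mem hy) i) (Finset.range m1)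
      (fun i _ hi => by
        have hi' : m1 ≤ i := by simpa using hi
        rw [xslicea_ge Wl hm hi' (Wl.r_mem hy), xslicea_ge Wl hm (by omega) (Wl.r_mem hy)]) P
      (τ := fun _ => s) fun _ _ => hs'
    rwa [Finset.card_range] at this
  have hin : S.XFam (Wl.tube ×ˢ univ) (fun p : E × (ℕ → E) => p.2) M1 (fun p => S.r p.1)
      (fun p => Λ • (p.1 - S.r p.1)) (fun p => S.unit (Wl.pol m1 (S.r p.1)) p.2) := by
    refine ⟨fun i _ => S.unit_cont ?_ (by fun_prop) fun p hp => (hv _ (Wl.r_mem hp.1) i).1,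
      by fun_prop, fun p hp => S.unit_valid (fun i _ => hv _ (Wl.r_mem hp.1) i) _,
      fun p hp => xslicea_zero Wl m1 (Wl.r_mem hp.1),
      fun p hp => xslicea_ge Wl hm hM1 (Wl.r_mem hp.1), fun L => ?_,
      fun p hp => hnt M1 hM1 _ (Wl.r_mem hp.1)⟩
    · exact Wl.σc.comp (f := fun p : E × (ℕ → E) =>
        (S.r p.1, ((((min i m1 : ℕ) : ℝ) / m1 : ℝ) : UnitAddCircle))) (by fun_prop)
        fun p hp => ⟨Wl.r_mem hp.1, trivial⟩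
    · obtain ⟨R, hR⟩ := S.unit_proper M1 L
      refine ⟨R, fun p hp h => ?_⟩
      have h1 : S.Val M1 (S.unit (Wl.pol m1 (S.r p.1)) p.2) ≤ -L :=
        hR _ (fun i _ => hv _ (Wl.r_mem hp.1) i) _ h _ fun _ _ => ⟨hτ.le, le_rfl⟩
      linarith [hQ0 _ hp.1]
  obtain ⟨a', n', c', k1, k2, k3, k4, k5, k6⟩ := hpush Wl.tube Wl.tube_compact _ _ _ hin
    fun y P P' h => ⟨rfl, fun i hi => by simp only [Sys.unit, h i hi]⟩
  have mem : ∀ (u : ℝ) (p : E × (ℕ → E)), p.1 ∈ Wl.tube →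
      (u, p) ∈ (univ : Set ℝ) ×ˢ Wl.tube ×ˢ (univ : Set (ℕ → E)) :=
    fun u p hp => ⟨trivial, hp, trivial⟩
  have ac : ContinuousOn a' (univ ×ˢ Wl.tube ×ˢ univ) :=
    (k1.cont 0 hM1p).fst.congr fun p hp => (k1.src p hp).symm
  have aS : ∀ w ∈ (univ : Set ℝ) ×ˢ Wl.tube ×ˢ (univ : Set (ℕ → E)), a' w ∈ S.S :=
    fun w hw => k1.src w hw ▸ (k1.valid w hw 0 hM1p).1
  obtain ⟨h, hc, hh⟩ := hlift (Wl.tube ×ˢ univ) a' ac (fun u p hp => aS _ (mem u p hp.1))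
    fun u u' p hp => k4 u u' p hp.1
  have k3' := fun p (hp : p.1 ∈ Wl.tube) => k3 p hp (by
    linarith [hcard _ hp p.2 0 ⟨le_rfl, hτ.le⟩, hQ0 _ hp])
  obtain ⟨C, hC⟩ : ∃ C : ℝ × E × (ℕ → E) → Ch E, ∀ w, C w =
      cat M1 (c' w) (S.unit (fun _ => a' w) fun i => w.2.2 (M1 + i)) := ⟨_, fun _ => rfl⟩
  have hu := Sys.isFam_const (S := S) (M := j) (pr := fun w i => w.2.2 (M1 + i)) ac
    (fun _ _ => by fun_prop) aS
  have Cc : ∀ i < M1 + j, ContinuousOn (fun w => C w i) (univ ×ˢ Wl.tube ×ˢ univ) := by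
    simp only [hC]
    exact continuousOn_cat k1.cont hu.cont
  have Cv : ∀ w ∈ (univ : Set ℝ) ×ˢ Wl.tube ×ˢ (univ : Set (ℕ → E)), S.Valid (M1 + j) (C w) ∧
      (C w 0).1 = a' w ∧ (C w (M1 + j)).1 = a' w ∧ S.Val (M1 + j) (C w) =
        S.Val M1 (c' w) + S.Val j (S.unit (fun _ => a' w) fun i => w.2.2 (M1 + i)) := by
    intro w hw
    rw [hC]
    exact ⟨S.valid_cat (k1.tgt w hw) (k1.valid w hw) (hu.valid w hw),
      (cat_fst_le (Nat.zero_le _) (k1.tgt w hw)).trans (k1.src w hw), by rw [cat_add]; rfl,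
      S.val_cat _ _ _ _ (k1.tgt w hw)⟩
  have C0 : ∀ p : E × (ℕ → E), p.1 ∈ Wl.tube → ∀ i,
      C (0, p) i = S.unit (Wl.pol m1 (S.r p.1)) p.2 i := by
    intro p hp i
    rw [hC]
    by_cases hi : i < M1
    · rw [cat_lt hi, (k2 0 le_rfl p hp).2.2 i hi]
    · rw [cat_ge (not_lt.1 hi)]
      simp only [Sys.unit, (k2 0 le_rfl p hp).1, Nat.add_sub_cancel' (not_lt.1 hi),
        xslicea_ge Wl hm (hM1.trans (not_lt.1 hi)) (Wl.r_mem hp)]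
  have tc : ContinuousOn (fun p : E × (ℕ → E) => Wl.tau p.1) (Wl.tube ×ˢ univ) :=
    Wl.tau_cont.comp continuousOn_fst fun p hp => hp.1
  have tc' : ContinuousOn (fun p : E × (ℕ → E) => 4 * Wl.tau p.1 / Wl.d) (Wl.tube ×ˢ univ) :=
    (continuousOn_const.mul tc).div_const _
  have gc : ContinuousOn (fun p : E × (ℕ → E) => (clamp (4 * Wl.tau p.1 / Wl.d), p))
      (Wl.tube ×ˢ univ) := (clamp_cont.comp_continuousOn tc').prodMk continuousOn_id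
  refine ⟨fun p => a' (clamp (4 * Wl.tau p.1 / Wl.d), p),
    fun p => n' (clamp (4 * Wl.tau p.1 / Wl.d), p),
    fun p => Wl.tau p.1 + h (4 * Wl.tau p.1 / Wl.d, p),
    fun p => C (clamp (4 * Wl.tau p.1 / Wl.d), p),
    ⟨fun i hi => (Cc i hi).comp gc fun p hp => mem _ p hp.1,
      k1.nc.comp gc fun p hp => mem _ p hp.1, fun p hp => (Cv _ (mem _ p hp.1)).1,
      fun p hp => (Cv _ (mem _ p hp.1)).2.1, fun p hp => (Cv _ (mem _ p hp.1)).2.2.1,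
      fun L => ?_, fun p hp htr => ?_⟩, fun y P P' hP => ?_,
    tc.add (hc.comp (tc'.prodMk continuousOn_id) fun p hp => ⟨trivial, hp⟩), fun p hp => ?_,
    fun p hp => ?_, fun p hp => ?_, fun p hp hτ4 => ?_, fun p hp h0 => ?_, fun p hp hδ => ?_⟩
  · obtain ⟨R, hR⟩ := k1.proper L
    obtain ⟨R', hR'⟩ := hu.proper (L + m1 * (S.St.τ₀ / 4))
    refine ⟨max R R', fun p hp ⟨i, hi, hP⟩ => ?_⟩
    have hw := mem (clamp (4 * Wl.tau p.1 / Wl.d)) p hp.1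
    rw [(Cv _ hw).2.2.2]
    by_cases him : i < M1
    · linarith [hR _ hw ⟨i, him, (le_max_left _ _).trans hP⟩, hu.le _ hw]
    · obtain ⟨i', rfl⟩ := Nat.exists_eq_add_of_le (not_lt.mp him)
      linarith [hR' _ hw ⟨i', by omega, (le_max_right _ _).trans hP⟩,
        (k3' p hp.1 (clamp (4 * Wl.tau p.1 / Wl.d))).1]
  · have := S.tr_of_path (fun t (i : Fin (M1 + j)) => (C (t, p) i).1) _ (clamp_mem _).1
      (continuousOn_pi.2 fun i => ((Cc i i.2).comp (f := fun t : ℝ => (t, p)) (by fun_prop)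
        fun t _ => mem t p hp.1).fst)
      (fun t _ => S.stepLe_of_mem (S.toCfg_mem (Cv _ (mem t p hp.1)).1
        ((Cv _ (mem t p hp.1)).2.2.1.trans (Cv _ (mem t p hp.1)).2.1.symm))) htr
    simp only [C0 p hp.1, Sys.unit_fst] at this
    exact hnt (M1 + j) (by omega) _ (Wl.r_mem hp.1) this
  · obtain ⟨e1, e2, e3⟩ := k5 (clamp (4 * Wl.tau y / Wl.d)) y P P' fun i hi => hP i (by omega)
    refine ⟨e2, fun i hi => ?_⟩
    simp only [hC, e1, e3]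
    by_cases him : i < M1
    · rw [cat_lt him, cat_lt him]
    · rw [cat_ge (not_lt.1 him), cat_ge (not_lt.1 him)]
      simp only [Sys.unit, Nat.add_sub_cancel' (not_lt.1 him), hP i hi]
  · rw [AddCircle.coe_add, Wl.tau_coe, (hh _ p ⟨hp, trivial⟩).1, (k2 0 le_rfl p hp).1,
      add_sub_cancel]
  · have h1 := (hh (4 * Wl.tau p.1 / Wl.d) p ⟨hp, trivial⟩).2.1
    have h2 : |Wl.tau p.1| ≤ Wl.d := (Wl.abs_tau _).trans_le hp.2
    linarith [abs_add_le (Wl.tau p.1) (h (4 * Wl.tau p.1 / Wl.d, p))]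
  · have hw := mem (clamp (4 * Wl.tau p.1 / Wl.d)) p hp
    rw [(Cv _ hw).2.2.2]
    linarith [hu.le _ hw, (k3' p hp (clamp (4 * Wl.tau p.1 / Wl.d))).1]
  · have hw := mem (clamp (4 * Wl.tau p.1 / Wl.d)) p hp
    have h1 : 1 ≤ clamp (4 * Wl.tau p.1 / Wl.d) :=
      le_max_of_le_right (le_min le_rfl (by rw [le_div_iff₀ hd]; linarith))
    have h2 := xslicea_val S M1 j (aS _ hw) (k1.tgt _ hw) fun i => p.2 (M1 + i)
    rw [hC]
    linarith [(k3' p hp _).2 h1]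
  · have h1 : 4 * Wl.tau p.1 / Wl.d ≤ 0 := div_nonpos_of_nonpos_of_nonneg (by linarith) hd.le
    have h2 : clamp (4 * Wl.tau p.1 / Wl.d) = 0 := max_eq_left (min_le_of_right_le h1)
    simp only [h2, (hh _ p ⟨hp, trivial⟩).2.2 h1, add_zero]
    exact ⟨(k2 0 le_rfl p hp).1, (k2 0 le_rfl p hp).2.1, trivial, fun i _ => C0 p hp i⟩
  · have hw := mem (clamp (4 * Wl.tau p.1 / Wl.d)) p hp
    have h1 : (Λ * S.δ) ^ 2 ≤ ‖Λ • (p.1 - S.r p.1)‖ ^ 2 := by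
      rw [norm_smul, Real.norm_of_nonneg hΛ.le]
      exact pow_le_pow_left₀ (mul_pos hΛ S.δpos).le (mul_le_mul_of_nonneg_left hδ hΛ.le) 2
    have h2 := hQ _ hp
    obtain ⟨e1, e2, e3⟩ := k6 p hp (by linarith [hcard _ hp p.2 0 ⟨le_rfl, hτ.le⟩])
      (clamp (4 * Wl.tau p.1 / Wl.d))
    have h3 := xslicea_val S M1 j (aS _ hw) (k1.tgt _ hw) fun i => p.2 (M1 + i)
    have h4 : S.Val M1 (c' (clamp (4 * Wl.tau p.1 / Wl.d), p)) ≤ m1 * (S.St.τ₀ / 4) :=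
      (S.valT_congr _ e3 ((k1.tgt _ hw).trans (e1.trans (hin.tgt p ⟨hp, trivial⟩).symm))).trans_le
        (hcard _ hp p.2 _ ⟨hτ.le, le_rfl⟩)
    rw [hC]
    have h5 : S.Q (a' (clamp (4 * Wl.tau p.1 / Wl.d), p)) (n' (clamp (4 * Wl.tau p.1 / Wl.d), p)) =
        S.Q (S.r p.1) (Λ • (p.1 - S.r p.1)) := by rw [e1, e2]
    linarith

end Pool.Agent.Wein
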