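import Mathlib
import Pool.Agent.P.MP_e3ee0c_gt.XSliceA

/-! The second stage of the construction of the slice. -/

open Set Filter Topology
open scoped ContDiff InnerProductSpace

namespace Pool.Agent.Wein

open TopAux

variable {E : Type} [NormedAddCommGroup E] [InnerProductSpace ℝ E] [FiniteDimensional ℝ E]

theorem Stage.slice {S : Sys E} {Wl : Wall S.S} {m1 M1 j : ℕ} [NeZero (M1 + j)] {Λ L' t' L : ℝ}
    {β n : E × (ℕ → E) → E} {H : E × (ℕ → E) → ℝ} {ch : E × (ℕ → E) → Ch E}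
    (h : Stage S Wl m1 M1 (M1 + j) Λ L' t' β n H ch) (hL' : 0 ≤ L') (hL : L' ≤ L)
    (hj : L - L' < j * S.St.τ₀) (hΛ : m1 * (S.St.τ₀ / 4) + L + 1 / 2 ≤ 7 / 8 * (Λ * S.δ) ^ 2) :
    Nonempty (Slice S Wl m1 (M1 + j) Λ L' t' L) := by
  have hτ := S.St.τpos
  have hd := Wl.dpos
  have hM : 0 < M1 + j := NeZero.pos _
  have hsum : ∑ i ∈ Finset.range (M1 + j), (if i < M1 then 0 else S.St.τ₀) = j * S.St.τ₀ := by
    rw [Finset.sum_range_add, Finset.sum_eq_zero fun i hi => if_pos (Finset.mem_range.mp hi)]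
    simp
  obtain ⟨D, hD, hpush⟩ := S.push (m := M1 + j) (fun i => if i < M1 then S.St.τ₀ else 0)
    (fun i => if i < M1 then 0 else S.St.τ₀)
    (fun i => by split_ifs; exacts [hτ.le, le_rfl]) (fun i => by split_ifs; exacts [le_rfl, hτ.le])
    (fun i => by split_ifs <;> simp) (-L') (L - L') (by linarith) (by rw [hsum]; exact hj)
  obtain ⟨a', n', c', hX, k0, klev, klip, -, kfix⟩ :=
    hpush Wl.tube Wl.tube_compact β n ch h.fam h.dep
  have hmem : ∀ (u : ℝ) (p : E × (ℕ → E)), p.1 ∈ Wl.tube →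
      (u, p) ∈ (univ : Set ℝ) ×ˢ Wl.tube ×ˢ (univ : Set (ℕ → E)) :=
    fun u p hp => ⟨mem_univ _, hp, mem_univ _⟩
  have ha'c : ContinuousOn a' (univ ×ˢ Wl.tube ×ˢ univ) :=
    (hX.cont 0 hM).fst.congr fun p hp => (hX.src p hp).symm
  have ha'S : ∀ p ∈ (univ : Set ℝ) ×ˢ Wl.tube ×ˢ (univ : Set (ℕ → E)), a' p ∈ S.S := by
    intro p hp
    rw [← hX.src p hp]
    exact (hX.valid p hp 0 hM).1
  obtain ⟨t2, -, hlift⟩ := Wl.lift S.compact D hD
  obtain ⟨h2, h2c, h2s⟩ := hlift (Wl.tube ×ˢ (univ : Set (ℕ → E))) a' ha'c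
    (fun u p hp => ha'S _ ⟨mem_univ _, hp⟩) (fun u u' p hp => klip u u' p hp.1)
  let g : E × (ℕ → E) → ℝ := fun p => 4 * Wl.tau p.1 / Wl.d - 1
  have hgc : ContinuousOn g (Wl.tube ×ˢ univ) :=
    ((continuousOn_const.mul (Wl.tau_cont.comp continuousOn_fst fun p hp => hp.1)).div_const
      _).sub continuousOn_const
  have hwc : ContinuousOn (fun p : E × (ℕ → E) => (clamp (g p), p)) (Wl.tube ×ˢ univ) :=
    (clamp_cont.comp_continuousOn hgc).prodMk continuousOn_id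
  have hwm : MapsTo (fun p : E × (ℕ → E) => (clamp (g p), p)) (Wl.tube ×ˢ univ)
      (univ ×ˢ Wl.tube ×ˢ univ) := fun p hp => ⟨mem_univ _, hp⟩
  have hg0 : ∀ p, Wl.tau p.1 ≤ Wl.d / 4 → g p ≤ 0 := by
    intro p hp
    have : 4 * Wl.tau p.1 / Wl.d ≤ 1 := by
      rw [div_le_one hd]; linarith
    simp only [g]
    linarith
  have hw0 : ∀ p, Wl.tau p.1 ≤ Wl.d / 4 → clamp (g p) ≤ 0 := fun p hp =>
    max_le le_rfl ((min_le_right _ _).trans (hg0 p hp))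
  have hw1 : ∀ p, Wl.d / 2 ≤ Wl.tau p.1 → 1 ≤ clamp (g p) := by
    intro p hp
    have h1 : 2 ≤ 4 * Wl.tau p.1 / Wl.d := by
      rw [le_div_iff₀ hd]; linarith
    refine le_max_of_le_right (le_min le_rfl ?_)
    simp only [g]
    linarith
  have hsame : ∀ (u : ℝ) (p : E × (ℕ → E)), p.1 ∈ Wl.tube →
      (a' (u, p) = β p ∧ n' (u, p) = n p ∧ ∀ i < M1 + j, c' (u, p) i = ch p i) →
      S.Val (M1 + j) (c' (u, p)) + S.Q (a' (u, p)) (n' (u, p)) =
        S.Val (M1 + j) (ch p) + S.Q (β p) (n p) := by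
    rintro u p hp ⟨e1, e2, e3⟩
    rw [e1, e2]
    congr 1
    refine S.valT_congr _ e3 ?_
    rw [hX.tgt _ (hmem u p hp), e1, h.fam.tgt p ⟨hp, mem_univ _⟩]
  have hH0 : ∀ p : E × (ℕ → E), p.1 ∈ Wl.tube → Wl.tau p.1 ≤ Wl.d / 4 → h2 (g p, p) = 0 :=
    fun p hp ht => (h2s (g p) p ⟨hp, mem_univ _⟩).2.2 (hg0 p ht)
  refine ⟨{ β := fun p => a' (clamp (g p), p)
            n := fun p => n' (clamp (g p), p)
            H := fun p => H p + h2 (g p, p)
            ch := fun p => c' (clamp (g p), p)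
            βc := ha'c.comp hwc hwm
            nc := hX.nc.comp hwc hwm
            Hc := h.Hc.add (h2c.comp (hgc.prodMk continuousOn_id) fun p hp => ⟨mem_univ _, hp⟩)
            cont := fun i hi => (hX.cont i hi).comp hwc hwm
            βS := fun p hp => ha'S _ (hmem _ p hp)
            valid := fun p hp => hX.valid _ (hmem _ p hp)
            src := fun p hp => hX.src _ (hmem _ p hp)
            tgt := fun p hp => hX.tgt _ (hmem _ p hp)
            Hth := fun p hp => ?_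
            le := fun p hp => ?_
            proper := fun B => ?_
            start := fun p hp ht => ?_
            far := fun p hp => ?_
            edge := fun p hp ht => ?_ }⟩
  · rw [AddCircle.coe_add, h.Hth p hp, (h2s (g p) p ⟨hp, mem_univ _⟩).1, (k0 0 le_rfl p hp).1]
    abel
  · rcases le_total (Wl.tau p.1) (Wl.d / 4) with ht | ht
    · rw [hsame _ p hp (k0 _ (hw0 p ht) p hp)]
      exact h.le p hp
    · have h1 := (klev p hp (h.low p hp ht) (clamp (g p))).1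
      have h3 : (0 : ℝ) ≤ m1 * (S.St.τ₀ / 4) := by positivity
      linarith
  · obtain ⟨R, hR⟩ := hX.proper B
    exact ⟨R, fun p hp hP => hR _ (hmem _ p hp) hP⟩
  · have ht' : Wl.tau p.1 ≤ Wl.d / 4 := by linarith
    obtain ⟨e1, e2, e3⟩ := k0 _ (hw0 p ht') p hp
    obtain ⟨f1, f2, f3, f4⟩ := h.start p hp ht
    exact ⟨e1.trans f1, e2.trans f2, by rw [hH0 p hp ht', add_zero, f3],
      fun i hi => (e3 i hi).trans (f4 i hi)⟩
  · rcases le_total (Wl.tau p.1) (Wl.d / 4) with ht | ht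
    · left
      rw [hH0 p hp ht, add_zero]
      exact h.Hle p hp
    · exact Or.inr (klev p hp (h.low p hp ht) (clamp (g p))).1
  · rcases ht with ht | ht
    · have h1 := (klev p hp (h.low p hp (by linarith)) (clamp (g p))).2 (hw1 p ht)
      linarith
    · have h1 := h.edge p hp ht
      rw [hsame _ p hp (kfix p hp (by linarith) _)]
      have h3 := S.val_le_valT (τ := fun i => if i < M1 then S.St.τ₀ else 0) (m := M1 + j)
        (fun i _ => by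
          split_ifs
          exacts [⟨hτ.le, le_rfl⟩, ⟨le_rfl, hτ.le⟩]) (h.fam.valid p ⟨hp, mem_univ _⟩)
      linarith

theorem exists_slice (S : Sys E) (Wl : Wall S.S) (hNT : Wl.NT) : ∃ m1 : ℕ, 0 < m1 ∧
    (∀ x ∈ Wl.K, ∀ s t : ℝ, |s - t| ≤ 1 / (m1 : ℝ) →
      ‖Wl.σ (x, (s : UnitAddCircle)) - Wl.σ (x, (t : UnitAddCircle))‖ ≤ S.μ) ∧
    ∀ L' : ℝ, 0 ≤ L' → ∃ t' : ℝ, 0 ≤ t' ∧ ∀ L Λ1 : ℝ, L' ≤ L → ∃ (M : ℕ) (Λ : ℝ), m1 ≤ M ∧
      0 < Λ ∧ Λ1 ≤ Λ ∧ Nonempty (Slice S Wl m1 M Λ L' t' L) := by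
  obtain ⟨m1, hm, hs, hnt⟩ := Wl.nontriv hNT
  refine ⟨m1, hm, hs, fun L' hL' => ?_⟩
  obtain ⟨M1, t', hM1, ht', hst⟩ := exists_stage S Wl hm hs hnt L' hL'
  refine ⟨t', ht', fun L Λ1 hL => ?_⟩
  have hτ := S.St.τpos
  have hδ := S.δpos
  obtain ⟨j, hj⟩ := exists_nat_gt ((L - L') / S.St.τ₀)
  rw [div_lt_iff₀ hτ] at hj
  have : NeZero (M1 + j) := ⟨by omega⟩
  have hq : (0 : ℝ) ≤ m1 * (S.St.τ₀ / 4) := by positivity
  set B : ℝ := m1 * (S.St.τ₀ / 4) + L + 1 / 2 with hB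
  have hB0 : 0 ≤ B := by linarith
  set Λ : ℝ := max Λ1 ((2 * B + 1) / S.δ) with hΛ
  have h1 : (2 * B + 1) / S.δ ≤ Λ := le_max_right _ _
  have hΛ0 : 0 < Λ := lt_of_lt_of_le (by positivity) h1
  rw [div_le_iff₀ hδ] at h1
  have h2 : B ≤ 7 / 8 * (Λ * S.δ) ^ 2 := by nlinarith
  obtain ⟨β, n, H, ch, hS⟩ := hst j Λ hΛ0 (by linarith)
  exact ⟨M1 + j, Λ, by omega, hΛ0, le_max_left _ _, hS.slice hL' hL hj h2⟩

end Pool.Agent.Wein
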