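import Mathlib
import Pool.Agent.P.MP_e3ee0c_gt.XEquiv
import Pool.Agent.P.MP_e3ee0c_gt.XSliceB

/-! The building blocks exist. -/

open Set Filter Topology
open scoped ContDiff InnerProductSpace

namespace Pool.Agent.Wein

open TopAux

variable {E : Type} [NormedAddCommGroup E] [InnerProductSpace ℝ E] [FiniteDimensional ℝ E]

lemma xkit_clamp (u : ℝ) : clamp (clamp u) = clamp u := by
  have h := clamp_mem u
  generalize clamp u = t at h
  rw [clamp, min_eq_right h.2, max_eq_right h.1]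

omit [FiniteDimensional ℝ E] in
lemma xkit_loop {S : Sys E} {Wl : Wall S.S} {m1 M : ℕ} {Λ t' L ε μ' Δ : ℝ}
    (C : Consts S Wl m1 M Λ t' L ε μ' Δ) {x : E} (hx : x ∈ Wl.K) (k N : ℕ) (n : ℕ → ℕ)
    (hn : ∀ i, n i ≤ n (i + 1) + 1 ∧ n (i + 1) ≤ n i + 1) (A : Finset ℕ)
    (hA : ∀ i < N, i ∉ A → n (i + 1) = n i) {a b : ℝ → E}
    (ha : ∀ u, Wl.σ (x, ((clamp u * ((n 0 : ℝ) / m1) : ℝ) : UnitAddCircle)) = a u)
    (hb : ∀ u, Wl.σ (x, ((clamp u * ((n N : ℝ) / m1) : ℝ) : UnitAddCircle)) = b u) :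
    S.Good (fun u : ℝ => S.nrm k N fun i =>
      Wl.σ (x, ((clamp u * ((n i : ℝ) / m1) : ℝ) : UnitAddCircle))) k N
      (A.card * (S.St.τ₀ / 4)) Δ a b := by
  refine Sys.good_nrm k N Δ (fun i _ => ?_) (fun u i _ => ⟨(Wl.σm x hx.1 hx.2 _).1, ?_⟩) A
    (fun u i hi hi' => by rw [hA i hi hi']) ha hb
  · refine Wl.σc.comp_continuous (continuous_const.prodMk ?_) fun u => ⟨hx, mem_univ _⟩
    exact (AddCircle.continuous_mk' 1).comp (clamp_cont.mul continuous_const)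
  · refine C.step x hx _ _ ?_
    have h0 : (0 : ℝ) < m1 := by exact_mod_cast C.m1pos
    have h1 : (n i : ℝ) ≤ n (i + 1) + 1 := by exact_mod_cast (hn i).1
    have h2 : (n (i + 1) : ℝ) ≤ n i + 1 := by exact_mod_cast (hn i).2
    have h3 : |(n i : ℝ) - n (i + 1)| ≤ 1 := abs_le.2 ⟨by linarith, by linarith⟩
    have h4 := clamp_mem u
    rw [← mul_sub, ← sub_div, abs_mul, abs_div, abs_of_pos h0, abs_of_nonneg h4.1]
    calc clamp u * (|(n i : ℝ) - n (i + 1)| / m1) ≤ 1 * (1 / m1) := by gcongr; exact h4.2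
      _ = _ := one_mul _

omit [FiniteDimensional ℝ E] in
lemma xkit_line {S : Sys E} (Wl : Wall S.S) {t' : ℝ} (ht : 0 ≤ t') (ε Δ : ℝ) {J : ℕ} (hJ : 0 < J)
    (hc : ∀ s t, |s - t| ≤ 2 * t' / J → ‖Wl.c s - Wl.c t‖ ≤ S.μ) (α β : ℝ) (hβ : |β| ≤ 2)
    {a b : ℝ → E} (ha : ∀ u, Wl.c (t' * clamp u * α - ε) = a u)
    (hb : ∀ u, Wl.c (t' * clamp u * (α + β) - ε) = b u) :
    S.Good (fun u : ℝ => S.nrm 0 J fun i => Wl.c (t' * clamp u * (α + β * (i / J)) - ε)) 0 J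
      (J * (S.St.τ₀ / 4)) Δ a b := by
  have h0 : (0 : ℝ) < J := by exact_mod_cast hJ
  have h := Sys.good_nrm (S := S) (a := a) (b := b) 0 J Δ
    (v := fun (u : ℝ) (i : ℕ) => Wl.c (t' * clamp u * (α + β * (i / J)) - ε))
    (fun i _ => Wl.cu.continuous.comp
      (((continuous_const.mul clamp_cont).mul continuous_const).sub continuous_const))
    (fun u i _ => ⟨Wl.cm _, hc _ _ ?_⟩) (Finset.range J)
    (fun u i hi hi' => absurd (Finset.mem_range.2 hi) hi') (fun u => by simpa using ha u)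
    (fun u => by rw [div_self h0.ne', mul_one]; exact hb u)
  · rwa [Finset.card_range] at h
  · have h4 := clamp_mem u
    have e : t' * clamp u * (α + β * (i / J)) - ε -
        (t' * clamp u * (α + β * (((i + 1 : ℕ) : ℝ) / J)) - ε) = -(t' * clamp u * β / J) := by
      push_cast
      ring
    rw [e, abs_neg, abs_div, abs_mul, abs_mul, abs_of_pos h0, abs_of_nonneg ht,
      abs_of_nonneg h4.1]
    calc t' * clamp u * |β| / J ≤ t' * 1 * 2 / J := by gcongr; exact h4.2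
      _ = _ := by ring

theorem Slice.kit {S : Sys E} {Wl : Wall S.S} {m1 M : ℕ} {Λ L' t' L ε μ' Δ : ℝ}
    (Z : Slice S Wl m1 M Λ L' t' L) (C : Consts S Wl m1 M Λ t' L ε μ' Δ) {J : ℕ} (hJ : 0 < J)
    (hc : ∀ s t, |s - t| ≤ 2 * t' / J → ‖Wl.c s - Wl.c t‖ ≤ S.μ) :
    Nonempty (Kit S (Wl.c (-ε)) (1 + (M + 1)) m1 J (m1 * (S.St.τ₀ / 4) + S.St.τ₀ / 2)
      (m1 * (S.St.τ₀ / 4)) (J * (S.St.τ₀ / 4)) (S.St.τ₀ / 2 - L') Δ) := by
  have hε := C.εpos
  have hq : 0 ≤ S.St.τ₀ / 2 := by have := S.St.τpos; positivity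
  have hm : (m1 : ℝ) ≠ 0 := by exact_mod_cast C.m1pos.ne'
  have hx : Wl.c (-ε) ∈ Wl.K := Wl.c_mem_K (by
    rw [abs_neg, abs_of_pos hε]
    linarith [C.εle])
  have h0 : Wl.σ (Wl.c (-ε), ((0 : ℝ) : UnitAddCircle)) = Wl.c (-ε) := Wl.σ0 _ hx.1 hx.2
  have hY : ∀ u, Wl.σ (Wl.c (-ε), ((clamp u : ℝ) : UnitAddCircle)) = Wl.bY ε t' (clamp u) :=
    fun u => by rw [C.bY_nonneg (clamp_mem u).1, xkit_clamp]
  have hX : ∀ u, Wl.c (t' * clamp u * 1 - ε) = Wl.bX ε t' (clamp u) := fun u => by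
    rw [Wall.bX, xkit_clamp, mul_one]
  have hY' : ∀ u, Wl.c (t' * clamp u * (-1) - ε) = Wl.bY ε t' (-clamp u) := fun u => by
    rw [C.bY_nonpos (neg_nonpos.2 (clamp_mem u).1)]
    congr 1
    ring
  have hx0 : ∀ u, Wl.c (t' * clamp u * 0 - ε) = Wl.c (-ε) := fun u => by
    rw [mul_zero, zero_sub]
  have hz : ∀ α β : ℝ, (S.nrm 0 J fun i => Wl.c (t' * clamp 0 * (α + β * (i / J)) - ε)) =
      S.cst 0 J (Wl.c (-ε)) := fun α β => by
    simp only [clamp_zero, mul_zero, zero_mul, zero_sub, Sys.cst]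
  have hmid := (xkit_loop C hx 1 (1 + (M + 1)) (fun i => min (i - 1) m1) (fun i => by omega)
    (Finset.Ico 1 (m1 + 1)) (fun i _ hi => by rw [Finset.mem_Ico] at hi; omega)
    (a := fun _ => Wl.c (-ε)) (b := fun u => Wl.bY ε t' (clamp u))
    (fun u => by simpa using h0) (fun u => by
      rw [← hY, show min (1 + (M + 1) - 1) m1 = m1 by have := C.m1le; omega, div_self hm,
        mul_one])).mono (T' := m1 * (S.St.τ₀ / 4) + S.St.τ₀ / 2) (by simpa using hq)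
  have hrev := xkit_loop C hx 0 m1 (fun i => m1 - i) (fun i => by omega) (Finset.range m1)
    (fun i hi hi' => absurd (Finset.mem_range.2 hi) hi')
    (a := fun u => Wl.bY ε t' (clamp u)) (b := fun _ => Wl.c (-ε))
    (fun u => by rw [← hY, Nat.sub_zero, div_self hm, mul_one]) (fun u => by simpa using h0)
  rw [Finset.card_range] at hrev
  have e1 : (S.nrm 1 (1 + (M + 1)) fun i => Wl.σ (Wl.c (-ε),
      ((clamp 1 * (((min (i - 1) m1 : ℕ) : ℝ) / m1) : ℝ) : UnitAddCircle))) =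
      S.nrm 1 (1 + (M + 1)) fun i => Wl.pol m1 (Wl.c (-ε)) (i - 1) := by
    simp only [clamp_one, one_mul, Wall.pol]
  have hN := hmid.comp (f := fun _ : Unit => (1 : ℝ)) continuous_const
  rw [e1, clamp_one, C.bY_one] at hN
  refine ⟨{
    bX := Wl.bX ε t'
    bY := Wl.bY ε t'
    plus := Z.plus ε μ'
    minus := Z.minus ε μ'
    mid := _
    rev := _
    up := _
    dn := _
    bk := _
    O := {v | 0 < rho v}
    bXc := C.plus_data.xc
    bYc := C.minus_data.xc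
    bXS := C.plus_data.xS
    bYS := C.minus_data.xS
    bX0 := C.bX_zero
    bY0 := C.bY_zero
    bY1 := C.bY_one
    plus_good := Z.slot_good C C.plus_data
    minus_good := Z.slot_good C C.minus_data
    plus_low := Z.slot_low C C.plus_data 1 fun ρ τ h => ?_
    minus_low := Z.slot_low C C.minus_data (-1) fun ρ τ h => ?_
    minus_one := Z.minus_one ε μ'
    plus_dom := fun u v hv => hv.2.2.2.2
    minus_dom := fun u v hv h => ?_
    mid_good := hmid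
    mid_zero := ?_
    rev_good := hrev
    rev_zero := ?_
    split := ?_
    up_good := xkit_line Wl C.t'nn ε Δ hJ hc 0 1 (by norm_num) hx0 fun u => by
      rw [zero_add]; exact hX u
    up_zero := hz _ _
    dn_good := xkit_line Wl C.t'nn ε Δ hJ hc 1 (-2) (by norm_num) hX fun u => by
      rw [show (1 : ℝ) + -2 = -1 by norm_num]; exact hY' u
    dn_zero := hz _ _
    bk_good := xkit_line Wl C.t'nn ε Δ hJ hc (-1) 1 (by norm_num) hY' fun u => by
      rw [neg_add_cancel]; exact hx0 u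
    bk_zero := hz _ _ }⟩
  · have h1 : 0 < ρ := h
    have h2 := mul_pos hε h1
    rw [clamp_one, mul_one]
    exact le_trans (by linarith) (le_abs_self _)
  · have h1 : trc ρ ≤ 0 := max_le (by norm_num) ((min_le_right _ _).trans (by norm_num))
    have h2 := mul_nonneg hε.le (neg_nonneg.2 h1)
    rw [min_eq_left (by norm_num : (-1 : ℝ) ≤ 0)]
    exact le_trans (by linarith) (neg_le_abs _)
  · have h1 : rho v < -(1 / 2) := hv.2.2.2.2.2.1
    have h2 : 0 < rho v := h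
    linarith
  · simp only [clamp_zero, zero_mul, h0, Sys.cst]
  · simp only [clamp_zero, zero_mul, h0, Sys.cst]
  · rw [e1]
    exact Z.split C hN

theorem exists_kit (S : Sys E) (Wl : Wall S.S) (hNT : Wl.NT) :
    ∃ x ∈ S.S, ∃ T1 T2 : ℝ, 0 ≤ T1 ∧ 0 ≤ T2 ∧
    ∀ L' : ℝ, 0 ≤ L' → ∃ T3 : ℝ, 0 ≤ T3 ∧ ∀ Δ : ℝ, ∃ n0 m1 J : ℕ,
      Nonempty (Kit S x n0 m1 J T1 T2 T3 (S.St.τ₀ / 2 - L') Δ) := by
  have hτ := S.St.τpos
  have hμ := S.μpos
  have hd := Wl.dpos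
  obtain ⟨ρ, hρ, hmd⟩ := Wl.modulus S.compact (η := 1 / 8) (by norm_num)
  have hμ' : 0 < min (S.μ / 2) ρ := by positivity
  obtain ⟨η, hη, h1⟩ := Metric.uniformContinuous_iff.1 Wl.cu _ hμ'
  obtain ⟨η', hη', h2⟩ := Metric.uniformContinuous_iff.1 Wl.cu _ hμ
  obtain ⟨m1, hm, hs, h3⟩ := exists_slice S Wl hNT
  refine ⟨Wl.c (-min (η / 4) (Wl.d / 2)), Wl.cm _, m1 * (S.St.τ₀ / 4) + S.St.τ₀ / 2,
    m1 * (S.St.τ₀ / 4), by positivity, by positivity, fun L' hL' => ?_⟩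
  obtain ⟨t', ht, h4⟩ := h3 L' hL'
  obtain ⟨J, hJ⟩ := exists_nat_gt (2 * t' / η')
  have hJ0 : (0 : ℝ) < J := lt_of_le_of_lt (by positivity) hJ
  refine ⟨J * (S.St.τ₀ / 4), by positivity, fun Δ => ?_⟩
  obtain ⟨M, Λ, hM, hΛ, hΛ1, ⟨Z⟩⟩ := h4 (max (Δ + 1) L') ((2 * |Δ| + 1) / min (S.μ / 2) ρ)
    (le_max_right _ _)
  refine ⟨_, m1, J, Z.kit (μ' := min (S.μ / 2) ρ) ⟨hm, hM, hs, hΛ, ht, hμ', ?_,
    fun x hx x' hx' h => hmd x hx x' hx' (h.trans (min_le_right _ _)), le_max_left _ _, ?_,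
    by positivity, ?_, fun s t h => ?_⟩ (by exact_mod_cast hJ0) fun s t h => ?_⟩
  · linarith [min_le_left (S.μ / 2) ρ]
  · rw [div_le_iff₀ hμ'] at hΛ1
    have h5 := abs_nonneg Δ
    have h6 := le_abs_self Δ
    have h7 : (2 * |Δ| + 1) ^ 2 ≤ (Λ * min (S.μ / 2) ρ) ^ 2 := by gcongr
    nlinarith
  · linarith [min_le_right (η / 4) (Wl.d / 2)]
  · rw [← dist_eq_norm]
    refine (h1 ?_).le
    rw [Real.dist_eq]
    linarith [min_le_left (η / 4) (Wl.d / 2)]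
  · rw [← dist_eq_norm]
    refine (h2 (lt_of_le_of_lt h ?_)).le
    rw [div_lt_iff₀ hη'] at hJ
    rw [div_lt_iff₀ hJ0]
    linarith

end Pool.Agent.Wein
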