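import Mathlib
import Pool.Agent.P.MP_e3ee0c_gt.XGoodB
import Pool.Agent.P.MP_e3ee0c_gt.WLink
import Pool.Agent.P.MP_e3ee0c_gt.WKillA
import Pool.Agent.P.MP_e3ee0c_gt.XTopB

/-! The unit of the whole bundle cannot be pushed below zero. -/

open Set Filter Topology
open scoped ContDiff InnerProductSpace

namespace Pool.Agent.Wein

variable {E : Type} [NormedAddCommGroup E] [InnerProductSpace ℝ E]

namespace XLink

open Link

abbrev Xs (E : Type) (k M : ℕ) : Type := E × (Fin k → E × ℝ) × (Fin M → E)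

open Classical in
noncomputable def foot (S : Sys E) (a : S.S) (y : E) : S.S :=
  if h : S.r y ∈ S.S then ⟨S.r y, h⟩ else a

lemma foot_val (S : Sys E) (a : S.S) {y : E} (h : S.r y ∈ S.S) : (foot S a y : E) = S.r y := by
  simp only [foot, dif_pos h]

lemma foot_cont (S : Sys E) (a : S.S) : ContinuousOn (foot S a) {y | S.r y ∈ S.S} := by
  rw [IsInducing.subtypeVal.continuousOn_iff]
  exact S.smooth.continuous.continuousOn.congr fun y hy => foot_val S a hy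

noncomputable def jj (S : Sys E) (a : S.S) {k M : ℕ} (p : ℝ × Xs E k M) : (S.S × ℝ) × Pm E :=
  ((foot S a p.2.1, p.1), (pad p.2.2.1, pad p.2.2.2))

lemma jj_cont (S : Sys E) (a : S.S) (k M : ℕ) :
    ContinuousOn (jj S a : ℝ × Xs E k M → _) {p | S.r p.2.1 ∈ S.S} := by
  unfold jj
  refine ContinuousOn.prodMk (ContinuousOn.prodMk ?_ continuousOn_fst)
    (Continuous.continuousOn (Continuous.prodMk ?_ ?_))
  · exact (foot_cont S a).comp (Continuous.continuousOn (by fun_prop)) fun p hp => hp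
  · exact pad_cont.comp (by fun_prop)
  · exact pad_cont.comp (by fun_prop)

/-- The chain at a parameter. -/
noncomputable def chn (S : Sys E) (a : S.S) {k M : ℕ} (G : S.S × ℝ → Vc E) (p : ℝ × Xs E k M) :
    Ch E := (G (jj S a p).1).c (jj S a p).2

noncomputable def fam (S : Sys E) (a : S.S) {k M : ℕ} (G : S.S × ℝ → Vc E) (Λ : ℝ)
    (p : ℝ × Xs E k M) : Cfg E M (Option (Fin M)) :=
  ex (Λ • (p.2.1 - S.r p.2.1)) (toCfg M (chn S a G p))

section Fam

variable {S : Sys E} {a : S.S} {k M : ℕ} {T Δ : ℝ} {G : S.S × ℝ → Vc E} (Λ : ℝ)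

lemma fam_cont (hG : S.Good G k M T Δ (fun p => (p.1 : E)) (fun p => (p.1 : E))) :
    ContinuousOn (fam S a G Λ : ℝ × Xs E k M → _)
      {p | S.r p.2.1 ∈ S.S ∧ jj S a p ∈ dom G} := by
  have hr : Continuous S.r := S.smooth.continuous
  have hH : ∀ i : Fin M, ContinuousOn (fun p : ℝ × Xs E k M => chn S a G p i)
      {p | S.r p.2.1 ∈ S.S ∧ jj S a p ∈ dom G} :=
    fun i => (hG.cc i i.2).comp ((jj_cont S a k M).mono fun p hp => hp.1) fun p hp => hp.2
  unfold fam ex toCfg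
  refine ContinuousOn.prodMk (continuousOn_pi.2 fun i => (hH i).fst.prodMk (hH i).snd.fst) ?_
  refine continuousOn_pi.2 fun j => ?_
  cases j with
  | none => exact Continuous.continuousOn (by simp only [Option.elim_none]; fun_prop)
  | some i => exact (hH i).snd.snd

variable [NeZero M]

lemma fam_of {p : ℝ × Xs E k M} {x : E} (hx : x ∈ S.S) (hp : ‖p.2.1 - x‖ ≤ S.δ)
    (hv : S.Valid M (chn S a G p)) (h0 : (chn S a G p 0).1 = S.r p.2.1)
    (h1 : (chn S a G p M).1 = S.r p.2.1) :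
    fam S a G Λ p ∈ S.Z M (Option (Fin M)) ∧
      S.act bs (fun _ => S.St.τ₀) (fam S a G Λ p) ≤ S.Val M (chn S a G p) := by
  refine ⟨S.toCfg_mem hv (h1.trans h0.symm), ?_⟩
  unfold fam
  rw [act_ex, S.act_toCfg (fun _ => S.St.τ₀) (h1.trans h0.symm)]
  have h2 : ((toCfg M (chn S a G p)).1 0).1 = S.r p.2.1 := h0
  rw [h2]
  have h3 := Q_le S hx hp Λ
  unfold Sys.Val
  linarith

lemma fam_zer (hG : S.Good G k M T Δ (fun p => (p.1 : E)) (fun p => (p.1 : E)))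
    {p : ℝ × Xs E k M} {x : E} (hx : x ∈ S.S) (hp : ‖p.2.1 - x‖ ≤ S.δ) (hz : jj S a p ∈ zer G) :
    fam S a G Λ p ∈ S.Z M (Option (Fin M)) ∧
      S.act bs (fun _ => S.St.τ₀) (fam S a G Λ p) ≤ S.Val M (chn S a G p) := by
  have hr := foot_val S a (S.tube hx hp).1
  exact fam_of Λ hx hp (hG.fam.valid _ hz) ((hG.fam.src _ hz).trans hr)
    ((hG.fam.tgt _ hz).trans hr)

omit [NeZero M] in
lemma chn_start (start : ∀ y : S.S, G (y, 0) = S.cst k M y) {z : Xs E k M} (hz : S.r z.1 ∈ S.S) :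
    chn S a G (0, z) = S.unit (fun _ => S.r z.1) (pad z.2.2) := by
  simp only [chn, jj, start, Sys.cst, Sys.nrm, foot_val S a hz]

lemma fam_start (start : ∀ y : S.S, G (y, 0) = S.cst k M y) {z : Xs E k M} {x : E} (hx : x ∈ S.S)
    (hp : ‖z.1 - x‖ ≤ S.δ) : fam S a G Λ (0, z) ∈ S.Z M (Option (Fin M)) ∧
      S.act bs (fun _ => S.St.τ₀) (fam S a G Λ (0, z)) ≤ 0 := by
  have hr := (S.tube hx hp).1
  have e := chn_start (a := a) start hr
  obtain ⟨h1, h2⟩ := fam_of (a := a) (G := G) Λ (p := (0, z)) hx hp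
    (by rw [e]; exact S.unit_valid (fun _ _ => ⟨hr, by simpa using S.μpos.le⟩) _)
    (by rw [e]; rfl) (by rw [e]; rfl)
  refine ⟨h1, h2.trans ?_⟩
  rw [e]
  exact S.unit_le_zero M hr _ fun _ _ => ⟨S.St.τpos.le, le_rfl⟩

omit [NeZero M] in
lemma fam_start_fst (start : ∀ y : S.S, G (y, 0) = S.cst k M y) {z : Xs E k M}
    (hz : S.r z.1 ∈ S.S) (i : Fin M) : ((fam S a G Λ (0, z)).1 i).1 = S.r z.1 := by
  show (chn S a G (0, z) i).1 = _
  rw [chn_start start hz]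
  rfl

lemma phi_start (start : ∀ y : S.S, G (y, 0) = S.cst k M y) (b : E) (hΛ : 0 < Λ) {z : Xs E k M}
    (hz : S.r z.1 ∈ S.S) : phi S b Λ (fam S a G Λ (0, z)) = (z.1 - b, z.2.2) := by
  refine Prod.ext ?_ (funext fun i => ?_)
  · show ((fam S a G Λ (0, z)).1 0).1 + Λ⁻¹ • (Λ • (z.1 - S.r z.1)) - b = z.1 - b
    rw [fam_start_fst Λ start hz, smul_smul, inv_mul_cancel₀ hΛ.ne', one_smul]
    abel
  · show S.pi (chn S a G (0, z) i).1 (chn S a G (0, z) i).2.1 +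
      ((chn S a G (0, z) i).2.2 - S.P (chn S a G (0, z) i).1 (chn S a G (0, z) i).2.2) = z.2.2 i
    rw [chn_start start hz]
    simp only [Sys.unit, pad_val]
    exact S.un_coord hz _

end Fam

end XLink

variable [FiniteDimensional ℝ E]

open Link XLink in
theorem Sys.xlink_aux (S : Sys E) {a : E} (ha : a ∈ S.S) {r0 : ℝ} (hr0 : 0 < r0) (hr : r0 ≤ S.δ)
    (h0 : ∀ x ∈ S.S, ‖x - a‖ ≤ r0 → S.F (x, 0) = 0) {k M : ℕ} [NeZero M] {T Δ : ℝ}
    {G : S.S × ℝ → Vc E} (hG : S.Good G k M T Δ (fun p => (p.1 : E)) (fun p => (p.1 : E)))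
    (hΔ : T + 1 ≤ Δ) (start : ∀ y : S.S, G (y, 0) = S.cst k M y)
    (stop : ∀ y : S.S, S.Low (G (y, 1)) (-1)) : False := by
  have hδ := S.δpos
  have hτ := S.St.τpos
  have hM : (1 : ℝ) ≤ M := by exact_mod_cast Nat.one_le_iff_ne_zero.2 (NeZero.ne M)
  obtain ⟨ρ, hρ, hρM⟩ : ∃ ρ : ℝ, 0 < ρ ∧ M * ρ = r0 / 2 :=
    ⟨r0 / 2 / M, by positivity, by field_simp⟩
  have hρδ : ρ ≤ S.δ / 2 := by nlinarith
  obtain ⟨η, hη, hηρ⟩ : ∃ η : ℝ, 0 < η ∧ η = ρ ^ 2 / S.δ ^ 2 := ⟨_, by positivity, rfl⟩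
  have hη4 : η ≤ 1 / 4 := by
    rw [hηρ, div_le_iff₀ (by positivity)]
    nlinarith
  obtain ⟨ℓ, hℓT, hℓ1⟩ : ∃ ℓ : ℝ, T ≤ ℓ ∧ 1 ≤ ℓ := ⟨max T 1, le_max_left _ _, le_max_right _ _⟩
  have hsum : ∀ u : ℝ, ∑ _i : Fin M, (S.St.τ₀ + u * 0) = M * S.St.τ₀ := by
    intro u; simp
  have hvc : Continuous fun (ζ : Cfg E M (Option (Fin M))) (i : Fin M) => (ζ.1 i).1 := by
    fun_prop
  obtain ⟨D, hD, hdef⟩ := S.deform (m := M) (J := Option (Fin M)) bs False (fun _ => S.St.τ₀)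
    (fun _ => 0) (fun _ => hτ.le) (fun _ => le_rfl) (fun _ => by simp) ℓ (ℓ - η) (η / 2)
    (by linarith) (by linarith)
    {ζ | ζ ∈ S.Z M (Option (Fin M)) ∧ S.toGeo.Triv fun i => (ζ.1 i).1} (fun _ h => h.1)
    (fun ζ hζ hcl => ⟨hζ, by
      have h1 := hvc.continuousAt.eventually
        (Metric.ball_mem_nhds (fun i => (ζ.1 i).1) (show 0 < S.δ / 4 by positivity))
      obtain ⟨ζ', h2, h3⟩ := (h1.and_frequently (mem_closure_iff_frequently.mp hcl)).exists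
      exact S.toGeo.triv_near (S.stepLe_of_mem h3.1) (S.stepLe_of_mem hζ)
        (by rw [dist_comm]; exact h2) h3.2⟩)
    (fun v T hT hc hv h0 => ⟨hv T ⟨hT, le_rfl⟩, by
      have hm : ∀ t ∈ Icc 0 T, T - t ∈ Icc 0 T := fun t ht =>
        ⟨by linarith [ht.2], by linarith [ht.1]⟩
      have := S.toGeo.triv_of_path (fun t i => ((v (T - t)).1 i).1) T hT
        (hvc.comp_continuousOn (hc.comp (f := fun t => T - t) (by fun_prop) hm))
        (fun t h => S.stepLe_of_mem (hv _ (hm t h))) (by simpa only [sub_self] using h0.2)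
      simpa only [sub_zero] using this⟩)
    (by
      intro u hu ζ hζ z hz hA
      exfalso
      rw [hsum] at hz hA
      have h1 := S.exc hz hζ.2
      have h3 := (abs_le.1 hA).1
      have h5 : u * (ℓ - η) ≤ ℓ - η := by nlinarith [hu.2]
      linarith)
    (Or.inr (by
      intro u hu
      rw [hsum]
      have h4 : 0 ≤ M * S.St.τ₀ := by positivity
      have h5 : u * (ℓ - η) ≤ ℓ - η := by nlinarith [hu.2]
      linarith))
  obtain ⟨Λ, hΛ, hΛρ⟩ : ∃ Λ : ℝ, 0 < Λ ∧ Λ * ρ = 1 + D :=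
    ⟨(1 + D) / ρ, by positivity, by field_simp⟩
  set a' : S.S := ⟨a, ha⟩ with ha'
  obtain ⟨R, hR, hRp⟩ : ∃ R : ℝ, 0 < R ∧ ∀ p : ℝ × Xs E k M, jj S a' p ∈ zer G → R ≤ ‖p.2.2.2‖ →
      S.Val M (chn S a' G p) ≤ -1 := by
    obtain ⟨R, hR⟩ := hG.fam.proper 1
    have hp : 0 < max R 1 := by positivity
    refine ⟨max R 1, hp, fun p hz hc => ?_⟩
    have h5 : ∃ i : Fin M, max R 1 ≤ ‖p.2.2.2 i‖ := by
      by_contra h6
      push Not at h6
      exact absurd ((pi_norm_lt_iff hp).2 h6) (not_lt.2 hc)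
    obtain ⟨i, hi⟩ := h5
    refine hR _ hz ⟨i, i.2, ?_⟩
    show R ≤ ‖pad p.2.2.2 i‖
    rw [pad_val]
    exact (le_max_left _ _).trans hi
  set Tc : Set E := {u | ∃ x ∈ S.S, ‖u - x‖ ≤ S.δ} with hTc
  have hTcc : IsCompact Tc := by
    have h1 : Tc = (fun q : E × E => q.1 + q.2) '' (S.S ×ˢ Metric.closedBall 0 S.δ) := by
      ext u
      constructor
      · rintro ⟨x, hx, hu⟩
        exact ⟨(x, u - x), ⟨hx, by simpa using hu⟩, by simp⟩
      · rintro ⟨⟨x, v⟩, ⟨hx, hv⟩, rfl⟩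
        exact ⟨x, hx, by simpa using hv⟩
    rw [h1]
    exact (S.compact.prod (isCompact_closedBall _ _)).image (by fun_prop)
  have hTr : ∀ u ∈ Tc, S.r u ∈ S.S := fun u ⟨x, hx, hu⟩ => (S.tube hx hu).1
  obtain ⟨B, hB⟩ := hG.bdd
  set C0 : Set (ℝ × Xs E k M) :=
    Icc 0 1 ×ˢ Tc ×ˢ Metric.closedBall 0 (max B 0) ×ˢ Metric.closedBall 0 R with hC0
  have hC0c : IsCompact C0 := isCompact_Icc.prod (hTcc.prod
    ((isCompact_closedBall _ _).prod (isCompact_closedBall _ _)))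
  have hjc := jj_cont S a' k M
  set C1 : Set (ℝ × Xs E k M) := C0 ∩ jj S a' ⁻¹' S.top G M (T - Δ) with hC1
  have hC1c : IsCompact C1 := hC0c.of_isClosed_subset
    ((hjc.mono fun p hp => hTr _ hp.2.1).preimage_isClosed_of_isClosed hC0c.isClosed hG.cls)
    inter_subset_left
  have hGc := fam_cont (a := a') Λ hG
  have hC1s : C1 ⊆ {p | S.r p.2.1 ∈ S.S ∧ jj S a' p ∈ dom G} :=
    fun p hp => ⟨hTr _ hp.1.2.1, hp.2.1.1⟩
  set Tv : Set (Fin M → E) := {x | S.toGeo.StepLe (3 * S.δ) x ∧ S.toGeo.Triv x} with hTv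
  set vx : ℝ × Xs E k M → Fin M → E := fun p i => ((fam S a' G Λ p).1 i).1 with hvx
  have hvxc : ContinuousOn vx {p | S.r p.2.1 ∈ S.S ∧ jj S a' p ∈ dom G} :=
    hvc.comp_continuousOn hGc
  have hT1 : ∀ x, S.toGeo.StepLe (3 * S.δ) x → x ∈ Metric.thickening (S.δ / 4) Tv → x ∈ Tv :=
    fun x hx h => by
      obtain ⟨y, hy, hd⟩ := Metric.mem_thickening_iff.1 h
      exact ⟨hx, S.toGeo.triv_near hy.1 hx hd hy.2⟩
  have hT2 : Metric.cthickening (S.δ / 8) Tv ⊆ Metric.thickening (S.δ / 4) Tv :=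
    Metric.cthickening_subset_thickening' (by positivity) (by linarith) _
  set C : Set (ℝ × Xs E k M) := C1 ∩ vx ⁻¹' Metric.cthickening (S.δ / 8) Tv with hC
  have hCc : IsCompact C := hC1c.of_isClosed_subset
    ((hvxc.mono hC1s).preimage_isClosed_of_isClosed hC1c.isClosed Metric.isClosed_cthickening)
    inter_subset_left
  have hCs : C ⊆ {p | S.r p.2.1 ∈ S.S ∧ jj S a' p ∈ dom G} := fun p hp => hC1s hp.1
  have hzer : ∀ p : ℝ × Xs E k M, p.2.1 ∈ Tc → jj S a' p ∈ zer G →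
      fam S a' G Λ p ∈ S.Z M (Option (Fin M)) ∧
        S.act bs (fun _ => S.St.τ₀) (fam S a' G Λ p) ≤ S.Val M (chn S a' G p) :=
    fun p ⟨x, hx, hu⟩ hz => fam_zer Λ hG hx hu hz
  obtain ⟨e, hec, he0, -, -, heZ, heA, heD, heF⟩ := hdef (fam S a' G Λ '' C)
    (by
      rintro _ ⟨p, hp, rfl⟩
      have h1 := (hzer p hp.1.1.2.1 hp.1.2.1).1
      exact ⟨h1, (hT1 _ (S.stepLe_of_mem h1) (hT2 hp.2)).2⟩)
    (hCc.image_of_continuousOn (hGc.mono hCs))
  have hno : ∀ p : ℝ × Xs E k M, p.2.1 ∈ Tc → jj S a' p ∈ zer G →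
      S.Val M (chn S a' G p) ≤ -1 → (∀ i, ‖((e (1, fam S a' G Λ p)).1 i).1 - a‖ ≤ r0) →
      phi S a Λ (e (1, fam S a' G Λ p)) ≠ 0 := by
    intro p hp hz hv hb hz'
    obtain ⟨h4, h3⟩ := hzer p hp hz
    rw [heF _ h4 (by linarith) 1] at hb hz'
    have h1 := (lower S ha hr h0 hΛ h4 hb hz').2
    have h2 : 0 ≤ ∑ i, ‖((fam S a' G Λ p).1 i).1 - ((fam S a' G Λ p).1 (i + 1)).1‖ ^ 2 /
        S.δ ^ 2 := Finset.sum_nonneg fun i _ => by positivity
    nlinarith [sq_nonneg ‖(fam S a' G Λ p).2 none‖]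
  set U0 : Set (ℝ × Xs E k M) := {p | p.2.1 ∈ Metric.thickening S.δ S.S} with hU0
  have hU0o : IsOpen U0 := Metric.isOpen_thickening.preimage (by fun_prop)
  have hUT : ∀ p ∈ U0, p.2.1 ∈ Tc := by
    intro p hp
    obtain ⟨x, hx, hd⟩ := Metric.mem_thickening_iff.1 hp
    exact ⟨x, hx, by rw [← dist_eq_norm]; exact hd.le⟩
  set U : Set (ℝ × Xs E k M) := U0 ∩ jj S a' ⁻¹' dom G with hU
  have hUo : IsOpen U :=
    (hjc.mono fun p hp => hTr _ (hUT p hp)).isOpen_inter_preimage hU0o hG.opn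
  have hUs : U ⊆ {p | S.r p.2.1 ∈ S.S ∧ jj S a' p ∈ dom G} :=
    fun p hp => ⟨hTr _ (hUT p hp.1), hp.2⟩
  set g : ℝ × Xs E k M → Cfg E M (Option (Fin M)) := fun p => e (1, fam S a' G Λ p) with hg
  have hgc : ContinuousOn g {p | S.r p.2.1 ∈ S.S ∧ jj S a' p ∈ dom G} :=
    hec.comp_continuousOn (continuousOn_const.prodMk hGc)
  set V : Set (Cfg E M (Option (Fin M))) :=
    {ζ | (∀ i, ‖(ζ.1 i).1 - a‖ < r0) ∧ ∀ i, ‖(ζ.1 i).1 - (ζ.1 i).2‖ ^ 2 < S.δ ^ 2} with hV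
  have hVo : IsOpen V := by
    rw [hV, ofPred_and, ofPred_forall, ofPred_forall]
    exact (isOpen_iInter_of_finite fun i => isOpen_lt (by fun_prop) continuous_const).inter
      (isOpen_iInter_of_finite fun i => isOpen_lt (by fun_prop) continuous_const)
  set Ω0 : Set (ℝ × Xs E k M) := (U ∩ g ⁻¹' V) ∩ {p | ‖p.2.2.2‖ < R} with hΩ0
  have hΩ0o : IsOpen Ω0 :=
    ((hgc.mono hUs).isOpen_inter_preimage hUo hVo).inter
      (isOpen_lt (by fun_prop) continuous_const)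
  set Ω : Set (ℝ × Xs E k M) := Ω0 ∩ vx ⁻¹' Metric.thickening (S.δ / 4) Tv with hΩ
  have hΩo : IsOpen Ω :=
    (hvxc.mono fun p hp => hUs hp.1.1).isOpen_inter_preimage hΩ0o Metric.isOpen_thickening
  set h : ℝ × Xs E k M → Xs E k M := fun p => ((phi S a Λ (g p)).1,
    fun i : Fin k => (G (jj S a' p).1).q (jj S a' p).2 i, (phi S a Λ (g p)).2) with hh
  have hz1 : ∀ p, jj S a' p ∈ dom G →
      (h p = 0 ↔ phi S a Λ (g p) = 0 ∧ jj S a' p ∈ zer G) := by
    intro p hp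
    constructor
    · intro e0
      have e1 : (h p).1 = 0 := congrArg Prod.fst e0
      have e2 : (h p).2.2 = 0 := congrArg (fun w => w.2.2) e0
      refine ⟨Prod.ext e1 e2, hp, fun i hi => ?_⟩
      rw [hG.hk] at hi
      exact congrFun (congrArg (fun w => w.2.1) e0) ⟨i, hi⟩
    · rintro ⟨e1, e2⟩
      simp only [hh, e1]
      refine Prod.ext rfl (Prod.ext (funext fun i => ?_) rfl)
      exact e2.2 i (by rw [hG.hk]; exact i.2)
  have hhc : ContinuousOn h Ω0 := by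
    have h1 : ContinuousOn (fun p => phi S a Λ (g p)) Ω0 :=
      (phi_cont S a Λ).comp (hgc.mono fun p hp => hUs hp.1.1) fun p hp => hp.1.2.2
    refine h1.fst.prodMk (ContinuousOn.prodMk (continuousOn_pi.2 fun i => ?_) h1.snd)
    exact (hG.qc i i.2).comp (hjc.mono fun p hp => (hUs hp.1.1).1) fun p hp => hp.1.1.2
  have hgZ : ∀ p ∈ C, g p ∈ S.Z M (Option (Fin M)) := fun p hp => (heZ _ ⟨p, hp, rfl⟩ 1).1
  have hK : IsCompact {p | p ∈ Ω ∧ p.1 ∈ Icc (0 : ℝ) 1 ∧ h p = 0} := by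
    have hgC : ContinuousOn g C := hgc.mono hCs
    have hhC : ContinuousOn (fun p => phi S a Λ (g p)) C :=
      (phi_cont S a Λ).comp hgC fun p hp i => (hgZ p hp i).2.2.1
    have hcl : IsClosed {ζ : Cfg E M (Option (Fin M)) | ∀ i, ‖(ζ.1 i).1 - a‖ ≤ r0} := by
      rw [ofPred_forall]
      exact isClosed_iInter fun i => isClosed_le (by fun_prop) continuous_const
    have h1 := hgC.preimage_isClosed_of_isClosed hCc.isClosed hcl
    have h2 := hhC.preimage_isClosed_of_isClosed hCc.isClosed (isClosed_singleton (x := 0))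
    have h3 := hCc.of_isClosed_subset (h1.inter h2) fun p hp => hp.1.1
    convert h3 using 1
    ext p
    constructor
    · rintro ⟨⟨⟨⟨hpU, hpV⟩, hpR⟩, hpX⟩, hp1, hp0⟩
      obtain ⟨e1, e2⟩ := (hz1 p hpU.2).1 hp0
      have hpT := hUT p hpU.1
      have htop : jj S a' p ∈ S.top G M (T - Δ) := by
        refine ⟨e2, ?_⟩
        by_contra hlt
        exact hno p hpT e2 (le_trans (not_le.1 hlt).le (by linarith)) (fun i => (hpV.1 i).le) e1
      have hpC : p ∈ C := by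
        refine ⟨⟨⟨hp1, hpT, ?_, by simpa using le_of_lt hpR⟩, htop⟩,
          Metric.self_subset_cthickening _ (hT1 _ (S.stepLe_of_mem (hzer p hpT e2).1) hpX)⟩
        rw [mem_closedBall_zero_iff, pi_norm_le_iff_of_nonneg (le_max_right _ _)]
        intro i
        have := hB _ htop i i.2
        rw [show (jj S a' p).2.1 i = p.2.2.1 i from pad_val _ i] at this
        exact this.trans (le_max_left _ _)
      exact ⟨⟨hpC, fun i => (hpV.1 i).le⟩, hpC, e1⟩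
    · rintro ⟨⟨hpC, hb⟩, -, hz⟩
      have hb' : ∀ i, ‖((g p).1 i).1 - a‖ ≤ r0 := hb
      have hz' : phi S a Λ (g p) = 0 := hz
      have hpT : p.2.1 ∈ Tc := hpC.1.1.2.1
      have hpz : jj S a' p ∈ zer G := hpC.1.2.1
      obtain ⟨hn, hlow⟩ := lower S ha hr h0 hΛ (hgZ p hpC) hb' hz'
      have hup : S.act bs (fun _ => S.St.τ₀) (g p) ≤ η := by
        have h4 := heA _ ⟨p, hpC, rfl⟩
          (((hzer p hpT hpz).2.trans (hG.fam.le _ hpz)).trans hℓT) 1 ⟨zero_le_one, le_rfl⟩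
        simp only [mul_zero, add_zero, one_mul, sub_sub_cancel] at h4
        exact h4
      have hs0 : ∀ i ∈ Finset.univ,
          0 ≤ ‖((g p).1 i).1 - ((g p).1 (i + 1)).1‖ ^ 2 / S.δ ^ 2 := fun i _ => by positivity
      have hs1 := Finset.sum_nonneg hs0
      have hn1 : ‖(g p).2 none‖ ≤ 1 :=
        (abs_le_of_sq_le_sq' (by nlinarith) zero_le_one).2
      have hx0 : ‖((g p).1 0).1 - a‖ ≤ ρ := by
        refine le_of_mul_le_mul_left ?_ hΛ
        linarith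
      have hst : ∀ i, ‖((g p).1 i).1 - ((g p).1 (i + 1)).1‖ ≤ ρ := by
        intro i
        have h5 := Finset.single_le_sum hs0 (Finset.mem_univ i)
        have h6 : ‖((g p).1 i).1 - ((g p).1 (i + 1)).1‖ ^ 2 / S.δ ^ 2 ≤ ρ ^ 2 / S.δ ^ 2 := by
          nlinarith [sq_nonneg ‖(g p).2 none‖]
        rw [div_le_div_iff_of_pos_right (by positivity)] at h6
        exact (abs_le_of_sq_le_sq' h6 hρ.le).2
      refine ⟨⟨⟨⟨⟨?_, hpz.1⟩, fun i => ?_, fun i => (hgZ p hpC i).2.2.1⟩, ?_⟩, hT2 hpC.2⟩,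
        hpC.1.1.1, (hz1 p hpz.1).2 ⟨hz', hpz⟩⟩
      · have h5 := heD _ ⟨p, hpC, rfl⟩ 1 0
        rw [he0 0 le_rfl, sub_zero, abs_one, mul_one] at h5
        have h6 : ‖(g p).2 none - (fam S a' G Λ p).2 none‖ ≤ D :=
          ((norm_le_pi_norm (g p - fam S a' G Λ p).2 none).trans (norm_snd_le _)).trans h5
        have h7 : ‖(fam S a' G Λ p).2 none‖ = Λ * ‖p.2.1 - S.r p.2.1‖ := by
          show ‖Λ • (p.2.1 - S.r p.2.1)‖ = _
          rw [norm_smul, Real.norm_eq_abs, abs_of_pos hΛ]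
        have h8 := norm_sub_norm_le ((fam S a' G Λ p).2 none) ((g p).2 none)
        rw [norm_sub_rev] at h8
        have h9 : ‖p.2.1 - S.r p.2.1‖ ≤ ρ := by
          refine le_of_mul_le_mul_left ?_ hΛ
          linarith
        exact Metric.mem_thickening_iff.2 ⟨_, hTr _ hpT, by rw [dist_eq_norm]; linarith⟩
      · have h5 := chain_bound (fun i => ((g p).1 i).1) a hx0 hst i
        linarith
      · by_contra hc
        exact hno p hpT hpz (hRp p hpz (not_lt.1 hc)) hb' hz'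
  have hstart : ∀ z : Xs E k M, z.1 ∈ Tc → g (0, z) = fam S a' G Λ (0, z) :=
    fun z ⟨x, hx, hu⟩ => heF _ (fam_start Λ start hx hu).1
      (by linarith [(fam_start (a := a') Λ start hx hu).2]) 1
  have haT : a ∈ Tc := ⟨a, ha, by simpa using hδ.le⟩
  obtain ⟨z, hzΩ, hz⟩ := deg_zero Ω hΩo h (hhc.mono inter_subset_left) hK (a, 0, 0)
    (by
      refine ⟨⟨⟨⟨Metric.self_subset_thickening hδ _ ha, ?_⟩, ?_⟩, by simpa using hR⟩,
        Metric.self_subset_thickening (by positivity) _ ⟨S.stepLe_of_mem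
          (fam_start Λ start (z := (a, 0, 0)) ha (by simpa using hδ.le)).1,
          S.toGeo.triv_const (hTr _ haT) fun i => fam_start_fst Λ start (hTr _ haT) i⟩⟩
      · show (jj S a' (0, (a, 0, 0))).2 ∈ (G (foot S a' a, 0)).Ω
        rw [start]
        exact mem_univ _
      · show g (0, (a, 0, 0)) ∈ V
        rw [hstart _ haT]
        refine ⟨fun i => ?_, fun i => ((fam_start Λ start (z := (a, 0, 0)) ha
          (by simpa using hδ.le)).1 i).2.2.1⟩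
        rw [fam_start_fst Λ start (hTr _ haT), S.fix a ha]
        simpa using hr0)
    (by
      intro z hz
      have h1 := hUT _ hz.1.1.1.1
      simp only [hh]
      rw [hstart z h1, phi_start Λ start a hΛ (hTr _ h1)]
      refine Prod.ext rfl (Prod.ext (funext fun i => ?_) (by simp))
      show (G (foot S a' z.1, 0)).q (pad z.2.1, pad z.2.2) i = z.2.1 i - 0
      rw [start, sub_zero]
      exact pad_val _ i)
  obtain ⟨e1, e2⟩ := (hz1 _ hzΩ.1.1.1.2).1 hz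
  refine hno (1, z) (hUT _ hzΩ.1.1.1.1) e2 ?_ (fun i => (hzΩ.1.1.2.1 i).le) e1
  have := stop _ _ e2
  rwa [hG.hM] at this

theorem Sys.xlink (S : Sys E) {a : E} (ha : a ∈ S.S) {r0 : ℝ} (hr0 : 0 < r0)
    (h0 : ∀ x ∈ S.S, ‖x - a‖ ≤ r0 → S.F (x, 0) = 0) {k M : ℕ} {T Δ : ℝ}
    {G : S.S × ℝ → Vc E} (hG : S.Good G k M T Δ (fun p => (p.1 : E)) (fun p => (p.1 : E)))
    (hΔ : T + 1 ≤ Δ) (start : ∀ y : S.S, G (y, 0) = S.cst k M y)
    (stop : ∀ y : S.S, S.Low (G (y, 1)) (-1)) : False := by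
  have hc : S.Good (fun p : S.S × ℝ => S.cst 0 1 (p.1 : E)) 0 1 0 Δ (fun p => (p.1 : E))
      (fun p => (p.1 : E)) := Sys.good_cst 0 1 Δ (by fun_prop) fun p => p.1.2
  have h := hG.mul hc
  rw [add_zero T] at h
  refine S.xlink_aux ha (lt_min hr0 S.δpos) (min_le_right _ _)
    (fun x hx hb => h0 x hx (hb.trans (min_le_left _ _))) h hΔ (fun y => ?_) fun y => ?_
  · simp only [start, S.cst_mul]
  · simpa using Sys.low_mul hG hc (y, 1) (stop y) (hc.low (y, 1))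

end Pool.Agent.Wein
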