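import Mathlib
import Pool.Agent.P.MP_e3ee0c_gt.XHtp

/-! The recursion that sorts the letters into those that move up and those that move down. -/

open Set Filter Topology
open scoped ContDiff InnerProductSpace

namespace Pool.Agent.Wein

open TopAux

variable {E : Type} [NormedAddCommGroup E] [InnerProductSpace ℝ E]

def rk1 : ℕ → ℕ
  | 0 => 0
  | d + 1 => rk1 d + 1 + rk1 d

def rk2 (J n0 : ℕ) : ℕ → ℕ
  | 0 => J
  | d + 1 => rk2 J n0 d + n0 + rk2 J n0 d

def rk3 (J m1 : ℕ) : ℕ → ℕ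
  | 0 => J
  | d + 1 => rk3 J m1 d + m1

theorem rk1_realize : True := by
  have := @rk1.eq_def
  trivial

theorem rk2_realize : True := by
  have := @rk2.eq_def
  trivial

theorem rk3_realize : True := by
  have := @rk3.eq_def
  trivial

/-- All words of the given shape have their domain in O. -/
def Fit (O : Set (Pm E)) (X Y : ℝ → Vc E) (J k M : ℕ) : Prop :=
  ∀ (α β γ : Vc E) (u w : ℝ), α.k = 0 → α.M = J → β.k = k → β.M = M →
    (α * X u * β * Y w * γ).Ω ⊆ O

namespace Kit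

variable {S : Sys E} {x : E} {n0 m1 J : ℕ} {T1 T2 T3 ℓ Δ : ℝ}
  (K : Kit S x n0 m1 J T1 T2 T3 ℓ Δ)

include K in
lemma xrec_mem : x ∈ S.S := K.bX0 ▸ K.bXS 0

include K in
lemma xrec_cst (k M : ℕ) :
    S.Good (fun _ : ℝ => S.cst k M x) k M 0 Δ (fun _ => x) (fun _ => x) :=
  Sys.good_cst k M Δ (a := fun _ : ℝ => x) continuous_const fun _ => K.xrec_mem

lemma xrec_fix {σ : ℝ → Vc E} {k M : ℕ} {T : ℝ} {a b : ℝ → E} (h : S.Good σ k M T Δ a b) (t : ℝ)
    (ha : a t = x) (hb : b t = x) :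
    S.Good (fun _ : ℝ => σ t) k M T Δ (fun _ => x) (fun _ => x) := by
  have := h.comp (f := fun _ : ℝ => t) continuous_const
  simpa only [ha, hb] using this

theorem base {kX MX kY MY kT MT : ℕ} {TX TY TT ℓX ℓY : ℝ} {X Y : ℝ → Vc E} {Tl : Vc E}
    {O : Set (Pm E)} (hX : S.Good X kX MX TX Δ K.bX K.bX) (hY : S.Good Y kY MY TY Δ K.bY K.bY)
    (hT : S.Good (fun _ : ℝ => Tl) kT MT TT Δ (fun _ => x) (fun _ => x))
    (lX : S.Low (X 1) ℓX) (lY : S.Low (Y (-1)) ℓY) (hO : Fit O X Y J 0 J) :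
    S.Kill (TX + TY + TT + 3 * T3) Δ x O
      (S.cst 0 J x * X 0 * S.cst 0 J x * Y 0 * S.cst 0 J x * Tl) (ℓX + ℓY + TT + 3 * T3) := by
  have gX := hX.comp (f := fun u : ℝ => clamp u) clamp_cont
  have gY := hY.comp (f := fun u : ℝ => -clamp u) clamp_cont.neg
  have g1 := K.up_good.mul gX
  have g2 := g1.mul K.dn_good
  have g3 := g2.mul gY
  have g4 := g3.mul K.bk_good
  have g5 := g4.mul hT
  have l1 := Sys.low_mul K.up_good gX 1 (K.up_good.low 1) (ℓ' := ℓX)
    (by simpa only [clamp_one] using lX)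
  have l2 := Sys.low_mul g1 K.dn_good 1 l1 (K.dn_good.low 1)
  have l3 := Sys.low_mul g2 gY 1 l2 (ℓ' := ℓY) (by simpa only [clamp_one] using lY)
  have l4 := Sys.low_mul g3 K.bk_good 1 l3 (K.bk_good.low 1)
  have l5 := Sys.low_mul g4 hT 1 l4 (hT.low 1)
  refine ⟨_, Sys.Htp.intro (g5.mono (le_of_eq (by ring))) (fun u => ?_) ?_ rfl,
    l5.mono (le_of_eq (by ring))⟩
  · have := hO (K.up u) (K.dn u) (K.bk u * Tl) (clamp u) (-clamp u) (K.up_good.hk u)
      (K.up_good.hM u) (K.dn_good.hk u) (K.dn_good.hM u)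
    simpa only [mul_assoc] using this
  · simp only [clamp_zero, neg_zero, K.up_zero, K.dn_zero, K.bk_zero]

theorem recur (h1 : 0 ≤ T1) (h2 : 0 ≤ T2) (h3 : 0 ≤ T3) (d : ℕ) :
    ∀ {kX MX kY MY kT MT : ℕ} {TX TY TT ℓX ℓY : ℝ} {X Y : ℝ → Vc E} {Tl : Vc E}
      {O : Set (Pm E)}, S.Good X kX MX TX Δ K.bX K.bX → S.Good Y kY MY TY Δ K.bY K.bY →
      S.Good (fun _ : ℝ => Tl) kT MT TT Δ (fun _ => x) (fun _ => x) →
      S.Low (X 1) ℓX → S.Low (Y (-1)) ℓY → Y 1 = Y 0 → Fit O X Y J (rk1 d) (rk2 J n0 d) →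
      S.Kill (TX + TY + TT + 3 * T3 + d * (T1 + T2)) Δ x O
        (S.cst 0 J x * X 0 * S.cst (rk1 d) (rk2 J n0 d) x * Y 0 * S.cst 0 (rk3 J m1 d) x * Tl)
        (ℓX + ℓY + TT + 3 * T3 + d * (ℓ + T2)) := by
  induction d with
  | zero =>
    intro kX MX kY MY kT MT TX TY TT ℓX ℓY X Y Tl O hX hY hT lX lY _ hO
    simpa only [rk1, rk2, rk3, Nat.cast_zero, zero_mul, add_zero] using
      K.base hX hY hT lX lY hO
  | succ d ih =>
    intro kX MX kY MY kT MT TX TY TT ℓX ℓY X Y Tl O hX hY hT lX lY hY1 hO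
    have hd : (0 : ℝ) ≤ d * (T1 + T2) := mul_nonneg (Nat.cast_nonneg d) (add_nonneg h1 h2)
    have hlev : TX + TY + TT + T1 + T2 ≤ TX + TY + TT + 3 * T3 + ((d + 1 : ℕ) : ℝ) * (T1 + T2) := by
      push_cast
      nlinarith
    have hgc : Continuous fun u : ℝ => K.bY (clamp u) := K.bYc.comp clamp_cont
    have gA := K.xrec_cst 0 J
    have gC := K.xrec_cst (rk1 d) (rk2 J n0 d)
    have gR := K.xrec_cst 0 (rk3 J m1 d)
    have gX0 := xrec_fix hX 0 K.bX0 K.bX0
    have gY0 := xrec_fix hY 0 K.bY0 K.bY0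
    have gCg := Sys.good_cst (S := S) (rk1 d) (rk2 J n0 d) Δ hgc fun u => K.bYS _
    have gRg := Sys.good_cst (S := S) 0 (rk3 J m1 d) Δ hgc fun u => K.bYS _
    have gYc := hY.comp (f := fun u : ℝ => clamp u) clamp_cont
    have gL := (gA.mul gX0).mul gC
    have gT' := (xrec_fix K.rev_good 1 (by simp only [clamp_one, K.bY1]) rfl).mul hT
    have gRt := ((gC.mul gY0).mul gR).mul gT'
    have gH1 := (((((gL.mul K.mid_good).mul gCg).mul gYc).mul gRg).mul K.rev_good).mul hT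
    obtain ⟨Hs, gHs, -, hs0, hs1⟩ := K.split
    rw [K.mid_good.hk 1, K.mid_good.hM 1] at gHs
    have gH2 := (gL.mul gHs).mul gRt
    set A := S.cst 0 J x with hA
    set C := S.cst (rk1 d) (rk2 J n0 d) x with hC
    set R := S.cst 0 (rk3 J m1 d) x with hR
    set L := A * X 0 * C with hL
    set Rt := C * Y 0 * R * (K.rev 1 * Tl) with hRt
    have hLk : L.k = kX + rk1 d := by
      simp only [hL, hA, hC, Vc.mul_k, Sys.cst_k, hX.hk, zero_add]
    have hLM : L.M = J + MX + rk2 J n0 d := by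
      simp only [hL, hA, hC, Vc.mul_M, Sys.cst_M, hX.hM]
    have p1 : S.Htp (TX + TY + TT + 3 * T3 + ((d + 1 : ℕ) : ℝ) * (T1 + T2)) Δ x O
        (A * X 0 * S.cst (rk1 (d + 1)) (rk2 J n0 (d + 1)) x * Y 0 *
          S.cst 0 (rk3 J m1 (d + 1)) x * Tl) (L * K.mid 1 * Rt) := by
      refine Sys.Htp.intro (gH1.mono (by linarith)) (fun u => ?_) ?_ ?_
      · have := hO A (C * K.mid u * S.cst (rk1 d) (rk2 J n0 d) (K.bY (clamp u)))
          (S.cst 0 (rk3 J m1 d) (K.bY (clamp u)) * K.rev u * Tl) 0 (clamp u) rfl rfl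
          (by simp only [hC, Vc.mul_k, Sys.cst_k, K.mid_good.hk, rk1])
          (by simp only [hC, Vc.mul_M, Sys.cst_M, K.mid_good.hM, rk2])
        simpa only [hL, mul_assoc] using this
      · have e1 : S.cst (rk1 (d + 1)) (rk2 J n0 (d + 1)) x = C * S.cst 1 n0 x * C := by
          simp only [hC, Sys.cst_mul, rk1, rk2]
        have e2 : S.cst 0 (rk3 J m1 (d + 1)) x = R * S.cst 0 m1 x := by
          simp only [hR, Sys.cst_mul, rk3]
        rw [e1, e2]
        simp only [clamp_zero, K.mid_zero, K.rev_zero, K.bY0, hL, ← hC, ← hR, mul_assoc]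
      · simp only [clamp_one, K.bY1, hY1, hRt, ← hC, ← hR, mul_assoc]
    have p2 : S.Htp (TX + TY + TT + 3 * T3 + ((d + 1 : ℕ) : ℝ) * (T1 + T2)) Δ x O
        (L * K.mid 1 * Rt)
        (Vc.uni (sh L.k L.M ⁻¹' K.O) (L * K.plus 0 * Rt) (L * K.minus 0 * Rt)) := by
      refine Sys.Htp.intro (gH2.mono (by linarith)) (fun u => ?_) ?_ ?_
      · have := hO A (C * Hs u * C) (R * (K.rev 1 * Tl)) 0 0 rfl rfl
          (by simp only [hC, Vc.mul_k, Sys.cst_k, gHs.hk, rk1])
          (by simp only [hC, Vc.mul_M, Sys.cst_M, gHs.hM, rk2])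
        simpa only [hL, hRt, mul_assoc] using this
      · simp only [hs0]
      · simp only [hs1]
        rw [Vc.mul_uni, Vc.uni_mul]
        · simp only [Vc.mul_k, K.plus_good.hk, K.minus_good.hk]
        · simp only [Vc.mul_M, K.plus_good.hM, K.minus_good.hM]
    refine p1.kill (p2.kill (Sys.Kill.uni ?_ ?_ ?_ ?_))
    · simp only [Vc.mul_k, K.plus_good.hk, K.minus_good.hk]
    · simp only [Vc.mul_M, K.plus_good.hM, K.minus_good.hM]
    · have gCX := Sys.good_cst (S := S) (rk1 d) (rk2 J n0 d) Δ K.bXc K.bXS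
      have gX' := (hX.mul gCX).mul K.plus_good
      have lX' := Sys.low_mul (hX.mul gCX) K.plus_good 1
        (Sys.low_mul hX gCX 1 lX (gCX.low 1)) K.plus_low
      have := ih (O := O ∩ sh L.k L.M ⁻¹' K.O) gX' hY gT' lX' lY hY1 (by
        intro α β γ u w a1 a2 b1 b2 v hv
        refine ⟨?_, ?_⟩
        · have := hO α (S.cst (rk1 d) (rk2 J n0 d) (K.bX u) * K.plus u * β) γ u w a1 a2
            (by simp only [Vc.mul_k, Sys.cst_k, K.plus_good.hk, rk1, b1])
            (by simp only [Vc.mul_M, Sys.cst_M, K.plus_good.hM, rk2, b2])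
          apply this
          simpa only [mul_assoc] using hv
        · have hv' : v ∈ ((α * X u * S.cst (rk1 d) (rk2 J n0 d) (K.bX u)) *
              (K.plus u * (β * Y w * γ))).Ω := by
            simpa only [mul_assoc] using hv
          have h := K.plus_dom u (Vc.mem_mul.1 (Vc.mem_mul.1 hv').2).1
          simp only [Vc.mul_k, Vc.mul_M, Sys.cst_k, Sys.cst_M, a1, a2, hX.hk, hX.hM,
            zero_add] at h
          rw [mem_preimage, hLk, hLM]
          exact h)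
      have e : A * (X 0 * S.cst (rk1 d) (rk2 J n0 d) (K.bX 0) * K.plus 0) * C * Y 0 * R *
          (K.rev 1 * Tl) = L * K.plus 0 * Rt := by
        simp only [K.bX0, hL, hRt, ← hC, mul_assoc]
      rw [← e]
      refine this.mono (le_of_eq ?_) (le_of_eq ?_) <;> push_cast <;> ring
    · have gCY := Sys.good_cst (S := S) (rk1 d) (rk2 J n0 d) Δ K.bYc K.bYS
      have gY' := (K.minus_good.mul gCY).mul hY
      have lY' := Sys.low_mul (K.minus_good.mul gCY) hY (-1)
        (Sys.low_mul K.minus_good gCY (-1) K.minus_low (gCY.low (-1))) lY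
      have := ih (O := O ∩ (sh L.k L.M ⁻¹' K.O)ᶜ) hX gY' gT' lX lY'
        (by simp only [K.minus_one, K.bY1, K.bY0, hY1]) (by
        intro α β γ u w a1 a2 b1 b2 v hv
        refine ⟨?_, ?_⟩
        · have := hO α (β * K.minus w * S.cst (rk1 d) (rk2 J n0 d) (K.bY w)) γ u w a1 a2
            (by simp only [Vc.mul_k, Sys.cst_k, K.minus_good.hk, rk1, b1])
            (by simp only [Vc.mul_M, Sys.cst_M, K.minus_good.hM, rk2, b2])
          apply this
          simpa only [mul_assoc] using hv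
        · have hv' : v ∈ ((α * X u * β) *
              (K.minus w * (S.cst (rk1 d) (rk2 J n0 d) (K.bY w) * Y w * γ))).Ω := by
            simpa only [mul_assoc] using hv
          have h := K.minus_dom w (Vc.mem_mul.1 (Vc.mem_mul.1 hv').2).1
          simp only [Vc.mul_k, Vc.mul_M, a1, a2, b1, b2, hX.hk, hX.hM, zero_add] at h
          rw [mem_compl_iff, mem_preimage, hLk, hLM]
          exact h)
      have e : A * X 0 * C * (K.minus 0 * S.cst (rk1 d) (rk2 J n0 d) (K.bY 0) * Y 0) * R *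
          (K.rev 1 * Tl) = L * K.minus 0 * Rt := by
        simp only [K.bY0, hL, hRt, ← hC, mul_assoc]
      rw [← e]
      refine this.mono (le_of_eq ?_) (le_of_eq ?_) <;> push_cast <;> ring

include K in
theorem kill (h1 : 0 ≤ T1) (h2 : 0 ≤ T2) (h3 : 0 ≤ T3) (m : ℕ) : ∃ k M : ℕ,
    S.Kill (3 * T3 + m * (T1 + T2)) Δ x univ (S.cst k M x) (3 * T3 + m * (ℓ + T2)) := by
  have gX := Sys.good_cst (S := S) 0 0 Δ K.bXc K.bXS
  have gY := Sys.good_cst (S := S) 0 0 Δ K.bYc K.bYS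
  have h := K.recur h1 h2 h3 m (O := univ) gX gY (K.xrec_cst 0 0) (gX.low 1) (gY.low (-1))
    (by simp only [K.bY1, K.bY0]) (fun _ _ _ _ _ _ _ _ _ => subset_univ _)
  simp only [K.bX0, K.bY0, Sys.cst_mul, zero_add, add_zero] at h
  exact ⟨_, _, h⟩

end Kit

end Pool.Agent.Wein
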