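import Mathlib
import Pool.Agent.P.MP_e3ee0c_gt.XKit
import Pool.Agent.P.MP_e3ee0c_gt.XRec
import Pool.Agent.P.MP_e3ee0c_gt.XGhost
import Pool.Agent.P.MP_e3ee0c_gt.XLink

/-! The core existence theorem for a base with a wall. -/

open Set Filter Topology
open scoped ContDiff InnerProductSpace

namespace Pool.Agent.Wein

variable {E : Type} [NormedAddCommGroup E] [InnerProductSpace ℝ E] [FiniteDimensional ℝ E]

/-- The core theorem: not every periodic orbit is stationary or has a constant image under pr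
together with a base curve that is constant or not null-homotopic. -/
theorem xcore0 {E0 : Type} [NormedAddCommGroup E0] [InnerProductSpace ℝ E0]
    [FiniteDimensional ℝ E0] (R : Ret E) (R0 : Ret E0) (hN : IsPathConnected R.S) (Wl : Wall R.S)
    (pr : E → E0) (hpr : Continuous pr) (hm : ∀ x ∈ R.S, pr x ∈ R0.S)
    (hnt : ∀ x ∈ Wl.K, ∀ γ : C(UnitAddCircle, R0.S), (∀ t, (γ t : E0) = pr (Wl.σ (x, t))) →
      ¬ γ.Nullhomotopic)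
    (F : E × E → ℝ) (hF : ContDiff ℝ ∞ F)
    (h01 : ∀ z ∈ Cot R.S, 0 ≤ F z ∧ F z ≤ 1) (Rb : ℝ)
    (hR : ∀ z ∈ Cot R.S, Rb ≤ ‖z.2‖ → F z = 1) (a : E) (ha : a ∈ R.S) (r0 : ℝ) (hr0 : 0 < r0)
    (h0 : ∀ x ∈ R.S, ‖x - a‖ ≤ r0 → F (x, 0) = 0)
    (hno : ∀ (z : ℝ → E × E) (T : ℝ), IsOrbit R.S F z → 0 < T → (∀ t, z (t + T) = z t) →
      (F (z 0) = 0 ∨ F (z 0) = 1) ∨ ((∀ t, pr (z t).1 = pr (z 0).1) ∧
        ((∀ t, (z t).1 = (z 0).1) ∨ ∀ γ : C(UnitAddCircle, R.S),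
          (∀ t : ℝ, (γ t : E) = (z (t * T)).1) → ¬ γ.Nullhomotopic))) : False := by
  obtain ⟨S, hS, hSF, -, hG⟩ := exists_sys0 R R0 pr hpr hm F hF h01 Rb hR 0 0 le_rfl
    (fun z _ hz _ h => absurd h (not_lt.2 (h01 _ (hz 0).1).1)) hno
  subst hSF
  generalize R.S = N at *
  subst hS
  have hτ := S.St.τpos
  obtain ⟨x, hx, T1, T2, h1, h2, hk⟩ := exists_kit S Wl fun x hx => hG _ (hnt x hx)
  obtain ⟨K, T', hK, hT', hg⟩ := S.xghost hN hx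
  obtain ⟨T3, h3, hk⟩ := hk (K * (T1 + T2) + T2 + 1 + S.St.τ₀ / 2) (by positivity)
  obtain ⟨m, hm⟩ := exists_nat_ge (3 * T3 * (K + 1) + T' + 1)
  obtain ⟨n0, m1, J, ⟨Kt⟩⟩ := hk (K * (3 * T3 + m * (T1 + T2)) + T' + 1)
  obtain ⟨k, M, hkill⟩ := Kt.kill h1 h2 h3 m
  obtain ⟨k', M', G, hG, hs, hl⟩ := hg k M _ _ _ (by positivity) hkill
  exact S.xlink ha hr0 h0 hG le_rfl hs fun y => (hl y).mono (by nlinarith)

theorem xcore (R : Ret E) (hN : IsPathConnected R.S) (Wl : Wall R.S)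
    (F : E × E → ℝ) (hF : ContDiff ℝ ∞ F)
    (h01 : ∀ z ∈ Cot R.S, 0 ≤ F z ∧ F z ≤ 1) (Rb : ℝ)
    (hR : ∀ z ∈ Cot R.S, Rb ≤ ‖z.2‖ → F z = 1) (a : E) (ha : a ∈ R.S) (r0 : ℝ) (hr0 : 0 < r0)
    (h0 : ∀ x ∈ R.S, ‖x - a‖ ≤ r0 → F (x, 0) = 0) :
    ∃ (z : ℝ → E × E) (T : ℝ), IsOrbit R.S F z ∧ 0 < T ∧ (∀ t, z (t + T) = z t) ∧
      0 < F (z 0) ∧ F (z 0) < 1 := by
  by_contra hcon
  refine xcore0 R R hN Wl id continuous_id (fun _ h => h)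
    (fun x hx γ h => Wl.nt x hx.1 hx.2 γ h) F hF h01 Rb hR a ha r0 hr0 h0
    fun z T hz hT hp => Or.inl ?_
  by_contra hne
  push Not at hne
  have h := h01 (z 0) (hz 0).1
  exact hcon ⟨z, T, hz, hT, hp, lt_of_le_of_ne h.1 (Ne.symm hne.1), lt_of_le_of_ne h.2 hne.2⟩

end Pool.Agent.Wein
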