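import Mathlib
import Pool.Agent.P.MP_e3ee0c_gt.XCore
import Pool.Agent.P.MP_e3ee0c_gt.TGen
import Pool.Agent.P.MP_e3ee0c_gt.TUp

/-! Periodic orbits upstairs and downstairs. -/

open Set Filter Topology
open scoped ContDiff InnerProductSpace

namespace Pool.Agent.Wein

variable {E E' : Type} [NormedAddCommGroup E] [InnerProductSpace ℝ E]
  [NormedAddCommGroup E'] [InnerProductSpace ℝ E']

lemma omegaM_nondeg (R : Ret E) (b : E → E →L[ℝ] E →L[ℝ] ℝ) {z v : E × E} (hz : z ∈ Cot R.S)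
    (hv : v ∈ Tan (Cot R.S) z) (h : ∀ u ∈ Tan (Cot R.S) z, omegaM b z v u = 0) : v = 0 := by
  have hv1 := R.tan_cot_fst hz hv
  have h1 : v.1 = 0 := by
    have := h (0, v.1) ((R.hat.tan_iff hz _).2 (by rw [R.fderiv_hat hz]; simp [hv1]))
    simpa [omegaM, omega] using this
  refine R.omega_nondeg hz hv fun u hu => ?_
  simpa [omegaM, h1] using h u hu

lemma zero_mem_tan {V : Type*} [NormedAddCommGroup V] [NormedSpace ℝ V] {S : Set V} {z : V}
    (hz : z ∈ S) : (0 : V) ∈ Tan S z :=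
  ⟨fun _ => z, rfl, Eventually.of_forall fun _ => hz, hasDerivAt_const _ _⟩

/-- The core theorem for a function that vanishes near any point. -/
theorem tshift [FiniteDimensional ℝ E] [FiniteDimensional ℝ E'] (R : Ret E') (R0 : Ret E)
    (hN : IsPathConnected R.S) (Wl : Wall R.S)
    (pr : E' → E) (hpr : Continuous pr) (hm : ∀ x ∈ R.S, pr x ∈ R0.S)
    (hnt : ∀ x ∈ Wl.K, ∀ γ : C(UnitAddCircle, R0.S), (∀ t, (γ t : E) = pr (Wl.σ (x, t))) →
      ¬ γ.Nullhomotopic)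
    (F : E' × E' → ℝ) (hF : ContDiff ℝ ∞ F) (h01 : ∀ z ∈ Cot R.S, 0 ≤ F z ∧ F z ≤ 1)
    (V : Set (E' × E')) (hV : IsCompact V) (hR : ∀ z ∈ Cot R.S, z ∉ V → F z = 1)
    (z0 : E' × E') (hz0 : z0 ∈ Cot R.S) (h0 : ∀ᶠ y in 𝓝 z0, y ∈ Cot R.S → F y = 0)
    (hno : ∀ (z : ℝ → E' × E') (T : ℝ), IsOrbit R.S F z → 0 < T → (∀ t, z (t + T) = z t) →
      (F (z 0) = 0 ∨ F (z 0) = 1) ∨ ((∀ t, pr (z t).1 = pr (z 0).1) ∧
        ((∀ t, (z t).1 = (z 0).1) ∨ ∀ γ : C(UnitAddCircle, R.S),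
          (∀ t : ℝ, (γ t : E') = (z (t * T)).1) → ¬ γ.Nullhomotopic))) : False := by
  obtain ⟨s, hs⟩ : ∃ s : E' → E', s = fun x => R.P x ((fun _ => (0 : E')) x - -z0.2) := ⟨_, rfl⟩
  have hS : Shift R s := hs ▸ shift_proj R contDiff_const (fun x _ u _ v _ => by simp) _
  have hts := (tr_smooth hS.smooth).continuous
  obtain ⟨B, hB⟩ := (hV.image (tr_smooth hS.neg.smooth).continuous).isBounded.exists_norm_le
  have e0 : tr s (z0.1, 0) = z0 := by
    have a1 := ((R.mem_cot z0).1 hz0).2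
    simp [tr, hs, a1]
  have hc : Tendsto (fun x : E' => tr s (x, 0)) (𝓝 z0.1) (𝓝 z0) := by
    have : Continuous fun x : E' => tr s (x, 0) := hts.comp (by fun_prop)
    simpa only [e0] using this.tendsto z0.1
  obtain ⟨δ, hδ, hball⟩ := Metric.eventually_nhds_iff.1 (hc.eventually h0)
  exact xcore0 R R0 hN Wl pr hpr hm hnt (F ∘ tr s) (hF.comp (tr_smooth hS.smooth))
    (fun z hz => h01 _ (hS.mem hz)) (B + 1)
    (fun z hz h => hR _ (hS.mem hz) fun h' => by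
      have := hB _ ⟨_, h', rfl⟩
      rw [tr_neg_tr] at this
      linarith [norm_snd_le z])
    z0.1 hz0.1 (δ / 2) (half_pos hδ)
    (fun x hx h => hball (by rw [dist_eq_norm]; linarith)
      (hS.mem ((R.mem_cot _).2 ⟨hx, map_zero _⟩)))
    fun z T hz hT hp => hno (fun t => tr s (z t)) T (hS.orbit hF hz) hT fun t => by
      simp only [hp]

namespace Red

variable {RP : Ret E'} {RN : Ret E} {π : E' → E} {ξ α : E' → E'} {b : E → E →L[ℝ] E →L[ℝ] ℝ}
  (D : Red RP RN π ξ α b) {F : E × E → ℝ} {χ : ℝ → ℝ}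

/-- The function upstairs. -/
noncomputable def Ft (F : E × E → ℝ) (χ : ℝ → ℝ) (z : E' × E') : ℝ :=
  1 - (1 - F (D.dn z)) * χ (mu ξ z)

lemma Ft_smooth (hF : ContDiff ℝ ∞ F) (hχ : ContDiff ℝ ∞ χ) : ContDiff ℝ ∞ (D.Ft F χ) :=
  contDiff_const.sub ((contDiff_const.sub (hF.comp D.dn_smooth)).mul
    (hχ.comp (mu_smooth D.B.ξs)))

lemma dFt (hF : ContDiff ℝ ∞ F) (hχ : ContDiff ℝ ∞ χ) (z u : E' × E') :
    fderiv ℝ (D.Ft F χ) z u = χ (mu ξ z) * fderiv ℝ F (D.dn z) (fderiv ℝ D.dn z u) -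
      (1 - F (D.dn z)) * (deriv χ (mu ξ z) * fderiv ℝ (mu ξ) z u) := by
  have d1 := (hF.differentiable (by simp) (D.dn z)).hasFDerivAt.comp z
    (D.dn_smooth.differentiable (by simp) z).hasFDerivAt
  have d2 := (hχ.differentiable (by simp) (mu ξ z)).hasDerivAt.comp_hasFDerivAt z
    ((mu_smooth D.B.ξs).differentiable (by simp) z).hasFDerivAt
  have d3 : HasFDerivAt (D.Ft F χ) _ z := ((d1.const_sub 1).mul d2).const_sub 1
  rw [d3.fderiv]
  simp only [neg_apply, add_apply, smul_apply, ContinuousLinearMap.comp_apply, Function.comp,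
    smul_eq_mul]
  ring

/-- The three consequences of the Hamiltonian equation upstairs. -/
lemma key (hF : ContDiff ℝ ∞ F) (hχ : ContDiff ℝ ∞ χ) {z X : E' × E'} (hz : z ∈ Cot RP.S)
    (hm : mu ξ z ∈ Ioo (1 / 2 : ℝ) (3 / 2)) (hX : X ∈ Tan (Cot RP.S) z)
    (h : ∀ u ∈ Tan (Cot RP.S) z, omega X u = -fderiv ℝ (D.Ft F χ) z u) :
    fderiv ℝ (mu ξ) z X = 0 ∧ (∀ w ∈ Tan (Cot RN.S) (D.dn z),
      mu ξ z * omegaM b (D.dn z) (fderiv ℝ D.dn z X) w = -(χ (mu ξ z) * fderiv ℝ F (D.dn z) w)) ∧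
      D.be z X = -((1 - F (D.dn z)) * deriv χ (mu ξ z)) := by
  have hy := D.dn_mem hz.1
  have h1 : fderiv ℝ (mu ξ) z X = 0 := by
    obtain ⟨u, hu, e1, e2, e3⟩ := D.lift hz hm 0 (D.B.ξt _ hz.1) (zero_mem_tan hy) (D.B.ξk _ hz.1)
    have := h u hu
    rw [D.form hz hm hX hu, D.dFt hF hχ, e2, e3] at this
    simpa [be, omegaM, omega, e1, D.B.ξk _ hz.1, D.B.one _ hz.1] using this
  refine ⟨h1, fun w hw => ?_, ?_⟩
  · obtain ⟨u1, hu1, e0⟩ := D.B.sub _ hz.1 w.1 (RN.tan_cot_fst hy hw)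
    obtain ⟨u, hu, -, e2, e3⟩ := D.lift hz hm 0 hu1 hw e0
    have := h u hu
    rw [D.form hz hm hX hu, D.dFt hF hχ, e2, e3, h1] at this
    linarith
  · obtain ⟨u, hu, e1, e2, e3⟩ := D.lift hz hm 1 (map_zero _) (zero_mem_tan hy) (map_zero _)
    have := h u hu
    rw [D.form hz hm hX hu, D.dFt hF hχ, e2, e3, h1] at this
    simp only [omegaM, omega, Prod.fst_zero, Prod.snd_zero, inner_zero_left, inner_zero_right,
      map_zero] at this
    linarith

/-- The moment is constant along the orbits. -/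
lemma mu_const (hF : ContDiff ℝ ∞ F) (hχ : ContDiff ℝ ∞ χ)
    (hs : tsupport χ ⊆ Ioo (1 / 2 : ℝ) (3 / 2)) {z : ℝ → E' × E'}
    (hz : IsOrbit RP.S (D.Ft F χ) z) (t : ℝ) : mu ξ (z t) = mu ξ (z 0) := by
  have hμ := mu_smooth D.B.ξs
  have h : ∀ s, HasDerivAt (fun s => mu ξ (z s)) 0 s := fun s => by
    obtain ⟨v, hv, ho⟩ := (hz s).2
    have hvt := orbit_tan hz hv
    have h1 := (hμ.differentiable (by simp) (z s)).hasFDerivAt.comp_hasDerivAt s hv
    by_cases hm : mu ξ (z s) ∈ Ioo (1 / 2 : ℝ) (3 / 2)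
    · rwa [(D.key hF hχ (hz s).1 hm hvt ho).1] at h1
    · have h2 : χ =ᶠ[𝓝 (mu ξ (z s))] 0 := notMem_tsupport_iff_eventuallyEq.1 fun h => hm (hs h)
      have h3 : v = 0 := RP.omega_nondeg (hz s).1 hvt fun u hu => by
        rw [ho u hu, D.dFt hF hχ, h2.deriv_eq, h2.eq_of_nhds]
        simp
      rwa [h3, map_zero] at h1
  exact is_const_of_deriv_eq_zero (fun s => (h s).differentiableAt) (fun s => (h s).deriv) t 0

include D in
/-- The existence theorem for cut-off functions downstairs. -/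
theorem cutOff [FiniteDimensional ℝ E] [FiniteDimensional ℝ E'] (hP : IsPathConnected RP.S)
    (Wl : Wall RP.S)
    (hnt : ∀ x ∈ Wl.K, ∀ γ : C(UnitAddCircle, RN.S), (∀ t, (γ t : E) = π (Wl.σ (x, t))) →
      ¬ γ.Nullhomotopic)
    (hess : ∀ (γ : C(UnitAddCircle, RP.S)) (a : ℝ), a ≠ 0 →
      (∀ t : ℝ, HasDerivAt (fun s : ℝ => (γ s : E')) (a • ξ (γ t)) t) → ¬ γ.Nullhomotopic) :
    CutOff b RN.S := by
  intro F hF h01 V hV hR y0 hy0 h0
  by_contra hcon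
  have hFd : Differentiable ℝ F := hF.differentiable (by simp)
  have hμ := mu_smooth D.B.ξs
  obtain ⟨χ, hχ, -, hs, hχ01, hχ1⟩ := exists_bump ({1} : Set ℝ) (Ioo (1 / 2) (3 / 2))
    isCompact_singleton isOpen_Ioo (by
      rintro _ rfl
      constructor <;> norm_num)
  have hχ0 : ∀ t, t ∉ Ioo (1 / 2 : ℝ) (3 / 2) → χ t = 0 := fun t ht =>
    image_eq_zero_of_notMem_tsupport fun h => ht (hs h)
  obtain ⟨x0, hx0, e0⟩ := D.B.onto y0.1 hy0.1
  have hd0 : D.dn (D.up (1, x0, y0.2)) = y0 := by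
    rw [D.dn_up hx0 (by constructor <;> norm_num) (e0 ▸ ((RN.mem_cot y0).1 hy0).2), e0]
  refine tshift RP RN hP Wl π D.B.πs.continuous D.B.maps hnt (D.Ft F χ) (D.Ft_smooth hF hχ)
    (fun z hz => ?_) (D.up '' (Icc (1 / 2) (3 / 2) ×ˢ RP.S ×ˢ (Prod.snd '' V)))
    ((isCompact_Icc.prod (RP.compact.prod (hV.image continuous_snd))).image
      D.up_smooth.continuous) (fun z hz h => ?_) (D.up (1, x0, y0.2)) (D.up_mem hx0 _ _) ?_
    fun z T hz hT hp => ?_
  · have h1 := h01 _ (D.dn_mem hz.1)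
    have h2 := hχ01 (mu ξ z)
    unfold Ft
    constructor <;> nlinarith [mul_nonneg (sub_nonneg.2 h1.2) h2.1,
      mul_nonneg (sub_nonneg.2 h1.2) (sub_nonneg.2 h2.2)]
  · unfold Ft
    by_cases hm : mu ξ z ∈ Ioo (1 / 2 : ℝ) (3 / 2)
    · rw [hR _ (D.dn_mem hz.1) fun h' => h ⟨(mu ξ z, z.1, (D.dn z).2),
        ⟨Ioo_subset_Icc_self hm, hz.1, _, h', rfl⟩, D.up_dn hz hm⟩]
      simp
    · simp [hχ0 _ hm]
  · have a1 : ∀ᶠ y in 𝓝 (D.up (1, x0, y0.2)), χ (mu ξ y) = 1 := by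
      refine hμ.continuous.continuousAt.eventually (p := fun t => χ t = 1) ?_
      rw [D.mu_up hx0]
      simpa using hχ1
    have a2 : ∀ᶠ y in 𝓝 (D.up (1, x0, y0.2)), D.dn y ∈ Cot RN.S → F (D.dn y) = 0 := by
      refine D.dn_smooth.continuous.continuousAt.eventually
        (p := fun y => y ∈ Cot RN.S → F y = 0) ?_
      rwa [hd0]
    filter_upwards [a1, a2] with y b1 b2 hy
    simp [Ft, b1, b2 (D.dn_mem hy.1)]
  by_cases hχz : χ (mu ξ (z 0)) = 0
  · exact Or.inl (Or.inr (by simp [Ft, hχz]))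
  by_cases hF1 : F (D.dn (z 0)) = 1
  · exact Or.inl (Or.inr (by simp [Ft, hF1]))
  right
  have hmc := D.mu_const hF hχ hs hz
  have hm0 : mu ξ (z 0) ∈ Ioo (1 / 2 : ℝ) (3 / 2) := by_contra fun h => hχz (hχ0 _ h)
  have hm : ∀ t, mu ξ (z t) ∈ Ioo (1 / 2 : ℝ) (3 / 2) := fun t => by rwa [hmc]
  have hmp : 0 < mu ξ (z 0) := by linarith [hm0.1]
  have hχp : 0 < χ (mu ξ (z 0)) := lt_of_le_of_ne (hχ01 _).1 (Ne.symm hχz)
  choose X hX ho using fun t => (hz t).2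
  have hk := fun t => D.key hF hχ (hz t).1 (hm t) (orbit_tan hz (hX t)) (ho t)
  simp only [hmc] at hk
  have hy : ∀ t, HasDerivAt (fun s => D.dn (z s)) (fderiv ℝ D.dn (z t) (X t)) t := fun t =>
    (D.dn_smooth.differentiable (by simp) (z t)).hasFDerivAt.comp_hasDerivAt t (hX t)
  obtain ⟨k, hkp, hkd⟩ : ∃ k : ℝ, 0 < k ∧ mu ξ (z 0) = χ (mu ξ (z 0)) * k :=
    ⟨mu ξ (z 0) / χ (mu ξ (z 0)), div_pos hmp hχp, by field_simp⟩
  have horb : IsOrbitM b RN.S F fun s => D.dn (z (k * s)) := fun s => by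
    refine ⟨D.dn_mem (hz _).1.1, k • fderiv ℝ D.dn (z (k * s)) (X (k * s)),
      (hy (k * s)).scomp s (by simpa using (hasDerivAt_id s).const_mul k), fun w hw => ?_⟩
    have := (hk (k * s)).2.1 w hw
    rw [omegaM_smul_left]
    refine mul_left_cancel₀ hχz ?_
    rw [← mul_assoc, ← hkd, this, mul_neg]
  have hF0 : F (D.dn (z 0)) = 0 := by
    have h1 := h01 _ (D.dn_mem (hz 0).1.1)
    by_contra hne
    refine hcon ⟨_, T / k, horb, div_pos hT hkp, fun t => ?_, ?_, ?_⟩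
    · simp only [mul_add, mul_div_cancel₀ _ hkp.ne', hp]
    · simpa only [mul_zero] using lt_of_le_of_ne h1.1 (Ne.symm hne)
    · simpa only [mul_zero] using lt_of_le_of_ne h1.2 hF1
  have hFt : ∀ t, F (D.dn (z t)) = 0 := fun t => by
    have := orbitM_const (fun x hx u hu => D.B.skew hx hu) hFd horb (t / k)
    simpa only [mul_div_cancel₀ _ hkp.ne', mul_zero, hF0] using this
  have hy0' : ∀ t, fderiv ℝ D.dn (z t) (X t) = 0 := fun t =>
    omegaM_nondeg RN b (D.dn_mem (hz t).1.1) (D.dn_tan (orbit_tan hz (hX t))) fun w hw => by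
      have := (hk t).2.1 w hw
      rw [Tan.fderiv_eq_zero hw (hFd _) (Or.inl (Eventually.of_forall fun y hy => by
        rw [hFt]; exact (h01 y hy).1)), mul_zero, neg_zero] at this
      exact (mul_eq_zero.1 this).resolve_left hmp.ne'
  have hx : ∀ t, HasDerivAt (fun s => (z s).1) (-deriv χ (mu ξ (z 0)) • ξ (z t).1) t := fun t => by
    have h1 := D.fderiv_dn_fst (z t) (X t)
    rw [hy0'] at h1
    obtain ⟨a, ha⟩ := D.B.ker _ (hz t).1.1 _ (RP.tan_cot_fst (hz t).1 (orbit_tan hz (hX t)))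
      h1.symm
    have h2 := (hk t).2.2
    rw [be, ← h1, hFt, ha] at h2
    simp only [Prod.fst_zero, inner_zero_right, zero_add, inner_smul_right, D.B.one _ (hz t).1.1,
      mul_one, sub_zero, one_mul] at h2
    rw [← h2, ← ha]
    exact (hX t).fst
  refine ⟨fun t => congrArg Prod.fst (is_const_of_deriv_eq_zero (f := fun s => D.dn (z s))
    (fun s => (hy s).differentiableAt) (fun s => by rw [(hy s).deriv, hy0']) t 0), ?_⟩
  by_cases hν : deriv χ (mu ξ (z 0)) = 0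
  · exact Or.inl fun t => is_const_of_deriv_eq_zero (f := fun s => (z s).1)
      (fun s => (hx s).differentiableAt) (fun s => by rw [(hx s).deriv, hν]; simp) t 0
  · refine Or.inr fun γ hγ => hess γ (T * -deriv χ (mu ξ (z 0)))
      (mul_ne_zero hT.ne' (neg_ne_zero.2 hν)) fun t => ?_
    simp only [hγ, mul_smul]
    exact (hx (t * T)).scomp t (by simpa using (hasDerivAt_id t).mul_const T)

end Red

end Pool.Agent.Wein
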