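import Mathlib
import Pool.Agent.P.MP_e3ee0c_gt.WCollarC

/-! Collar coordinates for a Liouville field that need not be exact. -/

open Set Filter Topology
open scoped ContDiff InnerProductSpace

namespace Pool.Agent.Wein

variable {E : Type} [NormedAddCommGroup E] [InnerProductSpace ℝ E] [FiniteDimensional ℝ E]

/-- Collar coordinates around the level c of H. -/
structure Col2 (R : Ret E) (H : E × E → ℝ) (c : ℝ) where
  Z : E × E → E × E
  Ψ : ℝ × (E × E) → E × E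
  T : E × E → ℝ
  U : Set (E × E)
  η : ℝ
  hZ : ContDiff ℝ ∞ Z
  hΨ : ContDiff ℝ ∞ Ψ
  zero : ∀ x, Ψ (0, x) = x
  der : ∀ t x, HasDerivAt (fun s => Ψ (s, x)) (Z (Ψ (t, x))) t
  add : ∀ s t x, Ψ (s + t, x) = Ψ (s, Ψ (t, x))
  mem : ∀ t, ∀ x ∈ Cot R.S, Ψ (t, x) ∈ Cot R.S
  hU : IsOpen U
  hT : ContDiffOn ℝ ∞ T U
  pos : 0 < η
  le_one : η ≤ 1
  lev : ∀ z ∈ U, H (Ψ (-T z, z)) = c
  tube : ∀ σ ∈ Cot R.S, H σ = c → ∀ s, |s| ≤ 2 * η → Ψ (s, σ) ∈ U ∧ T (Ψ (s, σ)) = s ∧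
    0 < fderiv ℝ H (Ψ (s, σ)) (Z (Ψ (s, σ))) ∧
    ∀ u ∈ Tan (Cot R.S) (Ψ (s, σ)), ∀ v ∈ Tan (Cot R.S) (Ψ (s, σ)),
      omega (fderiv ℝ Z (Ψ (s, σ)) u) v + omega u (fderiv ℝ Z (Ψ (s, σ)) v) = omega u v

theorem exists_col2 (R : Ret E) (H : E × E → ℝ) (hH : ContDiff ℝ ∞ H) (c : ℝ)
    (hV : IsCompact {z | z ∈ Cot R.S ∧ H z = c})
    (Y : E × E → E × E) (hY : ContDiff ℝ ∞ Y)
    (W : Set (E × E)) (hW : IsOpen W) (hSW : ∀ z ∈ Cot R.S, H z = c → z ∈ W)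
    (hL : ∀ z ∈ Cot R.S, z ∈ W → Y z ∈ Tan (Cot R.S) z ∧
      ∀ u ∈ Tan (Cot R.S) z, ∀ v ∈ Tan (Cot R.S) z,
        omega (fderiv ℝ Y z u) v + omega u (fderiv ℝ Y z v) = omega u v)
    (hout : ∀ z ∈ Cot R.S, H z = c → 0 < fderiv ℝ H z (Y z)) :
    Nonempty (Col2 R H c) := by
  set K := {z | z ∈ Cot R.S ∧ H z = c} with hK
  obtain ⟨χ, hχ, hχc, -, -, hχ1⟩ := exists_bump K W hV hW fun z hz => hSW z hz.1 hz.2
  have hg : ContDiff ℝ ∞ fun z => χ z • Y z := hχ.smul hY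
  set Z : E × E → E × E := fun z => fderiv ℝ R.hat.r z (χ z • Y z) with hZdef
  have hZ : ContDiff ℝ ∞ Z :=
    (R.hat.smooth.fderiv_right (m := ∞) (by simp)).clm_apply hg
  have hZc : HasCompactSupport Z := by
    refine hχc.mono fun z hz h => hz ?_
    simp [hZdef, h]
  obtain ⟨L, hLip⟩ := hZ.lipschitzWith_of_hasCompactSupport hZc (by simp)
  obtain ⟨Ψ, hΨ, h0, hd, hadd⟩ := exists_flow Z hZ L hLip
  have hmem : ∀ t, ∀ x ∈ Cot R.S, Ψ (t, x) ∈ Cot R.S := fun t x hx =>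
    R.hat.inv_global (fun s => Ψ (s, x)) (fun s => χ (Ψ (s, x)) • Y (Ψ (s, x)))
      (hg.continuous.comp (hΨ.continuous.comp (continuous_id.prodMk continuous_const)))
      (fun s => hd s x) (by rw [h0]; exact hx) t
  have hZY : ∀ y ∈ Cot R.S, y ∈ W → χ y = 1 → Z y = Y y := fun y hy hyW h1 => by
    simp only [hZdef, h1, one_smul]
    exact (R.hat.tan_iff hy _).1 (hL y hy hyW).1
  have hm : ContDiff ℝ ∞ fun p : (E × E) × ℝ => (-p.2, p.1) :=
    contDiff_snd.neg.prodMk contDiff_fst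
  have hG : ContDiff ℝ ∞ fun p : (E × E) × ℝ => H (Ψ (-p.2, p.1)) - c :=
    (hH.comp (hΨ.comp hm)).sub contDiff_const
  obtain ⟨U, W', T, hU, -, hW', -, hKW', hT, hlev, huniq⟩ :=
    implicit_compact (fun p : (E × E) × ℝ => H (Ψ (-p.2, p.1)) - c) univ isOpen_univ
      hG.contDiffOn K hV (fun _ => 0) continuousOn_const (fun _ _ => mem_univ _)
      (fun k hk => by simp [h0, hk.2]) (fun k hk v hv => by
        have e1 : HasFDerivAt (fun p : (E × E) × ℝ => (-p.2, p.1))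
            ((-ContinuousLinearMap.snd ℝ (E × E) ℝ).prod (ContinuousLinearMap.fst ℝ (E × E) ℝ))
            (k, 0) := hasFDerivAt_snd.neg.prodMk hasFDerivAt_fst
        have e2 : HasFDerivAt Ψ (fderiv ℝ Ψ (0, k)) (-(0 : ℝ), k) := by
          rw [neg_zero]; exact (hΨ.differentiable (by simp) _).hasFDerivAt
        have e3 : HasFDerivAt H (fderiv ℝ H k) (Ψ (-(0 : ℝ), k)) := by
          rw [neg_zero, h0]; exact (hH.differentiable (by simp) _).hasFDerivAt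
        have e4 := (e3.comp (k, (0 : ℝ)) (e2.comp (k, (0 : ℝ)) e1)).sub_const c
        have e5 : fderiv ℝ (fun p : (E × E) × ℝ => H (Ψ (-p.2, p.1)) - c) (k, 0) = _ := e4.fderiv
        rw [e5] at hv
        simp only [ContinuousLinearMap.comp_apply, ContinuousLinearMap.prod_apply,
          neg_apply, ContinuousLinearMap.coe_snd',
          ContinuousLinearMap.coe_fst'] at hv
        rw [fderiv_flow hΨ hd, h0, map_smul,
          hZY k hk.1 (hSW k hk.1 hk.2) (hχ1.self_of_nhdsSet k hk)] at hv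
        have := hout k hk.1 hk.2
        simpa [this.ne'] using hv)
  have hc1 : Continuous fun y => fderiv ℝ H y (Z y) :=
    (hH.continuous_fderiv (by simp)).clm_apply hZ.continuous
  have hev : ∀ᶠ s in 𝓝 (0 : ℝ), ∀ σ ∈ K, (Ψ (s, σ), s) ∈ W' ∧
      0 < fderiv ℝ H (Ψ (s, σ)) (Z (Ψ (s, σ))) ∧ ∀ᶠ y in 𝓝 (Ψ (s, σ)), y ∈ W ∧ χ y = 1 := by
    refine hV.eventually_forall_of_forall_eventually fun σ hσ => ?_
    have ht : Tendsto Ψ (𝓝 (0, σ)) (𝓝 σ) := by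
      have := hΨ.continuous.tendsto (0, σ)
      rwa [h0] at this
    have a1 : ∀ᶠ z : ℝ × (E × E) in 𝓝 (0, σ), (Ψ z, z.1) ∈ W' :=
      (ht.prodMk_nhds (continuous_fst.tendsto _)).eventually (hW'.mem_nhds (hKW' σ hσ))
    have a2 : ∀ᶠ y in 𝓝 σ, 0 < fderiv ℝ H y (Z y) := by
      refine (hc1.tendsto σ).eventually (lt_mem_nhds ?_)
      rw [hZY σ hσ.1 (hSW σ hσ.1 hσ.2) (hχ1.self_of_nhdsSet σ hσ)]
      exact hout σ hσ.1 hσ.2
    have a3 : ∀ᶠ y in 𝓝 σ, y ∈ W ∧ χ y = 1 :=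
      (Filter.Eventually.and (hW.mem_nhds (hSW σ hσ.1 hσ.2)) (hχ1.filter_mono (nhds_le_nhdsSet hσ)))
    exact a1.and ((ht.eventually a2).and (ht.eventually a3.eventually_nhds))
  obtain ⟨δ, hδ, hball⟩ := Metric.eventually_nhds_iff.1 hev
  refine ⟨⟨Z, Ψ, T, U, min (δ / 4) 1, hZ, hΨ, h0, hd, hadd, hmem, hU, hT, by positivity,
    min_le_right _ _, fun z hz => sub_eq_zero.1 (hlev z hz).2, fun σ hσ hc s hs => ?_⟩⟩
  have hs' : dist s 0 < δ := by
    rw [Real.dist_eq, sub_zero]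
    have := min_le_left (δ / 4) 1
    linarith
  obtain ⟨b1, b2, b3⟩ := hball hs' σ ⟨hσ, hc⟩
  obtain ⟨c1, c2⟩ := huniq _ _ b1 (by simp [← hadd, h0, hc])
  refine ⟨c1, c2.symm, b2, fun u hu v hv => ?_⟩
  have he : ∀ w ∈ Tan (Cot R.S) (Ψ (s, σ)), fderiv ℝ Z (Ψ (s, σ)) w = fderiv ℝ Y (Ψ (s, σ)) w :=
    fun w hw => Tan.fderiv_congr hw (hZ.differentiable (by simp) _) (hY.differentiable (by simp) _)
      (by filter_upwards [b3] with y hy hyS using hZY y hyS hy.1 hy.2)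
  rw [he u hu, he v hv]
  exact (hL _ (hmem s σ hσ) b3.self_of_nhds.1).2 u hu v hv

namespace Col2

variable {R : Ret E} {H : E × E → ℝ} {c : ℝ} (C : Col2 R H c)

omit [FiniteDimensional ℝ E] in
lemma slice (t : ℝ) (x : E × E) : HasFDerivAt (fun y => C.Ψ (t, y))
    ((fderiv ℝ C.Ψ (t, x)).comp (ContinuousLinearMap.inr ℝ ℝ (E × E))) x :=
  (C.hΨ.differentiable (by simp) _).hasFDerivAt.comp x (hasFDerivAt_prodMk_right t x)

omit [FiniteDimensional ℝ E] in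
lemma tan (t : ℝ) {x v : E × E} (hv : v ∈ Tan (Cot R.S) x) :
    fderiv ℝ C.Ψ (t, x) (0, v) ∈ Tan (Cot R.S) (C.Ψ (t, x)) := by
  have := Tan.map (S' := Cot R.S) hv (C.slice t x).differentiableAt
    (Eventually.of_forall fun y hy => C.mem t y hy)
  rwa [(C.slice t x).fderiv] at this

omit [FiniteDimensional ℝ E] in
lemma fderiv_zero (x : E × E) (a : ℝ) (v : E × E) :
    fderiv ℝ C.Ψ (0, x) (a, v) = a • C.Z x + v := by
  have h1 := C.slice 0 x
  have h2 : (fun y => C.Ψ (0, y)) = id := funext C.zero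
  rw [h2] at h1
  have h3 := congrArg (fun L => L v) (h1.unique (hasFDerivAt_id x))
  have h4 : (a, v) = (a, (0 : E × E)) + (0, v) := by simp
  rw [h4, map_add, fderiv_flow C.hΨ C.der, C.zero]
  simpa using h3

/-- The flow is conformally symplectic in the collar. -/
lemma conf {σ : E × E} (hσ : σ ∈ Cot R.S) (hc : H σ = c) {a b : E × E}
    (ha : a ∈ Tan (Cot R.S) σ) (hb : b ∈ Tan (Cot R.S) σ) {s : ℝ} (h0 : 0 ≤ s)
    (h1 : s ≤ 2 * C.η) :
    Real.exp (-s) * omega (fderiv ℝ C.Ψ (s, σ) (0, a)) (fderiv ℝ C.Ψ (s, σ) (0, b)) =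
      omega a b := by
  have hd : ∀ t ∈ Icc 0 s, HasDerivAt (fun t => Real.exp (-t) *
      omega (fderiv ℝ C.Ψ (t, σ) (0, a)) (fderiv ℝ C.Ψ (t, σ) (0, b))) 0 t := fun t ht => by
    have e1 := flow_var C.Z C.hZ C.Ψ C.hΨ C.der σ a t
    have e2 := flow_var C.Z C.hZ C.Ψ C.hΨ C.der σ b t
    have e3 := (C.tube σ hσ hc t (by rw [abs_of_nonneg ht.1]; exact ht.2.trans h1)).2.2.2
      _ (C.tan t ha) _ (C.tan t hb)
    have e4 := ((hasDerivAt_neg t).exp).mul (omega_der e1 e2)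
    refine e4.congr_deriv ?_
    rw [e3]
    ring
  have := constant_of_has_deriv_right_zero
    (fun t ht => (hd t ht).continuousAt.continuousWithinAt)
    (fun t ht => (hd t (Ico_subset_Icc_self ht)).hasDerivWithinAt) s ⟨h0, le_rfl⟩
  simpa [C.fderiv_zero] using this

omit [FiniteDimensional ℝ E] in
lemma mono (hH : ContDiff ℝ ∞ H) {σ : E × E} (hσ : σ ∈ Cot R.S) (hc : H σ = c) :
    StrictMonoOn (fun s => H (C.Ψ (s, σ))) (Icc (-(2 * C.η)) (2 * C.η)) := by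
  have hd : ∀ s, HasDerivAt (fun s => H (C.Ψ (s, σ)))
      (fderiv ℝ H (C.Ψ (s, σ)) (C.Z (C.Ψ (s, σ)))) s := fun s =>
    (hH.differentiable (by simp) _).hasFDerivAt.comp_hasDerivAt s (C.der s σ)
  refine strictMonoOn_of_deriv_pos (convex_Icc _ _)
    (fun s _ => (hd s).continuousAt.continuousWithinAt) fun s hs => ?_
  rw [(hd s).deriv]
  exact (C.tube σ hσ hc s (abs_le.2 (mem_Icc.1 (interior_subset hs)))).2.2.1

omit [FiniteDimensional ℝ E] in
lemma cancel (s : ℝ) (y : E × E) : C.Ψ (s, C.Ψ (-s, y)) = y := by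
  rw [← C.add, add_neg_cancel, C.zero]

omit [FiniteDimensional ℝ E] in
lemma sign (hH : ContDiff ℝ ∞ H) {y : E × E} (hy : y ∈ Cot R.S) (hU : y ∈ C.U)
    (hT : |C.T y| < 2 * C.η) : H y ≤ c ↔ C.T y ≤ 0 := by
  have hp := C.pos
  have := (C.mono hH (C.mem (-C.T y) y hy) (C.lev y hU)).le_iff_le (a := C.T y) (b := 0)
    (abs_le.1 hT.le) ⟨by linarith, by linarith⟩
  simpa only [C.cancel, C.zero, C.lev y hU] using this

/-- The closed collar. -/
def K : Set (E × E) := C.Ψ '' (Icc 0 C.η ×ˢ {σ | σ ∈ Cot R.S ∧ H σ = c})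

omit [FiniteDimensional ℝ E] in
lemma K_compact (hK : IsCompact {σ | σ ∈ Cot R.S ∧ H σ = c}) : IsCompact C.K :=
  (isCompact_Icc.prod hK).image C.hΨ.continuous

omit [FiniteDimensional ℝ E] in
lemma of_mem_K {y : E × E} (hy : y ∈ C.K) : y ∈ C.U ∧ |C.T y| < 2 * C.η := by
  obtain ⟨⟨s, σ⟩, ⟨hs, hσ⟩, rfl⟩ := hy
  have hp := C.pos
  have h1 : |s| < 2 * C.η := by rw [abs_of_nonneg hs.1]; linarith [hs.2]
  obtain ⟨a, b, -⟩ := C.tube σ hσ.1 hσ.2 s h1.le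
  exact ⟨a, by rwa [b]⟩

omit [FiniteDimensional ℝ E] in
lemma isOpen_box : IsOpen {y | y ∈ C.U ∧ |C.T y| < 2 * C.η} :=
  C.hT.continuousOn.abs.isOpen_inter_preimage C.hU isOpen_Iio

/-- The collar Hamiltonian. -/
lemma exists_F (hH : ContDiff ℝ ∞ H) (hK : IsCompact {σ | σ ∈ Cot R.S ∧ H σ = c}) :
    ∃ F : E × E → ℝ, ContDiff ℝ ∞ F ∧ ∀ y ∈ Cot R.S, (H y ≤ c → F y = 0) ∧
      (y ∈ C.U ∧ |C.T y| < 2 * C.η → F y = Real.smoothTransition (C.T y / C.η)) ∧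
      (c < H y ∧ y ∉ C.K → F y = 1) := by
  have hp := C.pos
  have i1 : ∀ y ∈ Cot R.S, y ∈ C.U ∧ |C.T y| < 2 * C.η → H y ≤ c →
      Real.smoothTransition (C.T y / C.η) = 0 := fun y hy hb h =>
    Real.smoothTransition.zero_of_nonpos
      (div_nonpos_of_nonpos_of_nonneg ((C.sign hH hy hb.1 hb.2).1 h) hp.le)
  have i2 : ∀ y ∈ Cot R.S, y ∈ C.U ∧ |C.T y| < 2 * C.η → c < H y ∧ y ∉ C.K →
      Real.smoothTransition (C.T y / C.η) = 1 := fun y hy hb h => by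
    refine Real.smoothTransition.one_of_one_le ((one_le_div hp).2 ?_)
    by_contra hlt
    have h0 : 0 ≤ C.T y := by
      by_contra h0
      exact absurd ((C.sign hH hy hb.1 hb.2).2 (not_le.1 h0).le) (not_le.2 h.1)
    exact h.2 ⟨(C.T y, C.Ψ (-C.T y, y)),
      ⟨⟨h0, (not_le.1 hlt).le⟩, C.mem _ y hy, C.lev y hb.1⟩, C.cancel _ _⟩
  have hcv : ∀ (p : Prop) (k : ℝ), Convex ℝ {v : ℝ | p → v = k} := fun p k => by
    by_cases h : p
    · simp [h]
    · simpa [h] using convex_univ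
  obtain ⟨F, hF⟩ := exists_contMDiffMap_forall_mem_convex_of_local
    (modelWithCornersSelf ℝ (E × E)) (n := ⊤)
    (t := fun y => {v : ℝ | y ∈ Cot R.S ∧ H y ≤ c → v = 0} ∩
      ({v : ℝ | y ∈ Cot R.S ∧ (y ∈ C.U ∧ |C.T y| < 2 * C.η) →
        v = Real.smoothTransition (C.T y / C.η)} ∩
      {v : ℝ | y ∈ Cot R.S ∧ (c < H y ∧ y ∉ C.K) → v = 1}))
    (fun y => (hcv _ _).inter ((hcv _ _).inter (hcv _ _))) (fun x => by
      by_cases hx : x ∈ Cot R.S
      swap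
      · exact ⟨(Cot R.S)ᶜ, R.hat.closed.isOpen_compl.mem_nhds hx, fun _ => 0, contMDiffOn_const,
          fun y hy => ⟨fun h => rfl, fun h => absurd h.1 hy, fun h => absurd h.1 hy⟩⟩
      by_cases hb : x ∈ C.U ∧ |C.T x| < 2 * C.η
      · refine ⟨_, C.isOpen_box.mem_nhds hb, fun y => Real.smoothTransition (C.T y / C.η),
          ?_, fun y hy => ⟨fun h => i1 y h.1 hy h.2, fun _ => rfl, fun h => i2 y h.1 hy h.2⟩⟩
        exact ((Real.smoothTransition.contDiff.comp_contDiffOn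
          (C.hT.div_const C.η)).mono fun y hy => hy.1).contMDiffOn
      rcases lt_trichotomy (H x) c with h | h | h
      · exact ⟨{y | H y < c}, (isOpen_lt hH.continuous continuous_const).mem_nhds h, fun _ => 0,
          contMDiffOn_const, fun y hy => ⟨fun _ => rfl, fun h => (i1 y h.1 h.2 hy.le).symm,
            fun h => absurd h.2.1 (not_lt.2 hy.le)⟩⟩
      · exact absurd (C.of_mem_K ⟨(0, x), ⟨⟨le_rfl, hp.le⟩, hx, h⟩, C.zero x⟩) hb
      · exact ⟨{y | c < H y ∧ y ∉ C.K},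
          ((isOpen_lt continuous_const hH.continuous).inter
            (C.K_compact hK).isClosed.isOpen_compl).mem_nhds ⟨h, fun hk => hb (C.of_mem_K hk)⟩,
          fun _ => 1, contMDiffOn_const, fun y hy => ⟨fun h => absurd hy.1 (not_lt.2 h.2),
            fun h => (i2 y h.1 h.2 hy).symm, fun _ => rfl⟩⟩)
  exact ⟨F, F.contMDiff.contDiff, fun y hy => ⟨fun h => (hF y).1 ⟨hy, h⟩,
    fun h => (hF y).2.1 ⟨hy, h⟩, fun h => (hF y).2.2 ⟨hy, h⟩⟩⟩

omit [FiniteDimensional ℝ E] in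
lemma T_diff {y : E × E} (hy : y ∈ C.U) : HasFDerivAt C.T (fderiv ℝ C.T y) y :=
  ((C.hT.contDiffAt (C.hU.mem_nhds hy)).differentiableAt (by simp)).hasFDerivAt

omit [FiniteDimensional ℝ E] in
lemma dT_Z {σ : E × E} (hσ : σ ∈ Cot R.S) (hc : H σ = c) {s : ℝ} (hs : |s| < 2 * C.η) :
    fderiv ℝ C.T (C.Ψ (s, σ)) (C.Z (C.Ψ (s, σ))) = 1 := by
  have h1 := (C.T_diff (C.tube σ hσ hc s hs.le).1).comp_hasDerivAt s (C.der s σ)
  refine h1.unique ((hasDerivAt_id s).congr_of_eventuallyEq ?_)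
  filter_upwards [(isOpen_lt continuous_abs continuous_const).mem_nhds hs] with t ht
  exact (C.tube σ hσ hc t (le_of_lt ht)).2.1

omit [FiniteDimensional ℝ E] in
lemma dH_eq (hH : ContDiff ℝ ∞ H) {σ : E × E} (hσ : σ ∈ Cot R.S) (hc : H σ = c) {s : ℝ}
    (hs : |s| ≤ 2 * C.η) (u : E × E) : fderiv ℝ H σ u =
      fderiv ℝ C.T (C.Ψ (s, σ)) (fderiv ℝ C.Ψ (s, σ) (0, u)) * fderiv ℝ H σ (C.Z σ) := by
  obtain ⟨hU, hT, -⟩ := C.tube σ hσ hc s hs
  have e1 := ((((C.T_diff hU).comp σ (C.slice s σ)).neg).add_const s).prodMk (hasFDerivAt_id σ)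
  have e2 : HasFDerivAt C.Ψ (fderiv ℝ C.Ψ (0, σ)) (-C.T (C.Ψ (s, σ)) + s, σ) := by
    rw [hT, neg_add_cancel]; exact (C.hΨ.differentiable (by simp) _).hasFDerivAt
  have e3 : HasFDerivAt H (fderiv ℝ H σ) (C.Ψ (-C.T (C.Ψ (s, σ)) + s, σ)) := by
    rw [hT, neg_add_cancel, C.zero]; exact (hH.differentiable (by simp) _).hasFDerivAt
  have e4 := HasFDerivAt.comp σ (f := fun x => C.Ψ (-C.T (C.Ψ (s, x)) + s, x)) e3
    (HasFDerivAt.comp σ (f := fun x => (-C.T (C.Ψ (s, x)) + s, x)) e2 e1)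
  have e5 : HasFDerivAt (fun _ : E × E => c) _ σ := e4.congr_of_eventuallyEq (by
    filter_upwards [(C.slice s σ).continuousAt.eventually (C.hU.mem_nhds hU)] with x hx
    simp only [Function.comp, C.add]
    exact (C.lev _ hx).symm)
  have e6 := congrArg (fun L => L u) (e5.unique (hasFDerivAt_const c σ))
  simp only [ContinuousLinearMap.comp_apply, ContinuousLinearMap.prod_apply, neg_apply,
    ContinuousLinearMap.inr_apply, ContinuousLinearMap.id_apply, C.fderiv_zero, map_add,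
    map_smul, smul_eq_mul, zero_apply] at e6
  linarith

/-- F is a collar Hamiltonian. -/
def IsF (F : E × E → ℝ) : Prop :=
  ContDiff ℝ ∞ F ∧ ∀ y ∈ Cot R.S, (H y ≤ c → F y = 0) ∧
    (y ∈ C.U ∧ |C.T y| < 2 * C.η → F y = Real.smoothTransition (C.T y / C.η)) ∧
    (c < H y ∧ y ∉ C.K → F y = 1)

variable {C} {F : E × E → ℝ}

lemma IsF.mid (hF : C.IsF F) {y : E × E} (hy : y ∈ Cot R.S) (h0 : F y ≠ 0) (h1 : F y ≠ 1) :
    ∃ s σ, σ ∈ Cot R.S ∧ H σ = c ∧ 0 < s ∧ s < C.η ∧ y = C.Ψ (s, σ) ∧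
      F y = Real.smoothTransition (s / C.η) := by
  obtain ⟨a, b, d⟩ := hF.2 y hy
  have hp := C.pos
  have hc : c < H y := not_le.1 fun h => h0 (a h)
  have hK : y ∈ C.K := by_contra fun h => h1 (d ⟨hc, h⟩)
  have hb := b (C.of_mem_K hK)
  obtain ⟨⟨s, σ⟩, ⟨hs, hσ⟩, rfl⟩ := hK
  rw [(C.tube σ hσ.1 hσ.2 s (by rw [abs_of_nonneg hs.1]; linarith [hs.2])).2.1] at hb
  refine ⟨s, σ, hσ.1, hσ.2, ?_, ?_, rfl, hb⟩
  · rw [hb, Ne, Real.smoothTransition.zero_iff_nonpos, not_le] at h0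
    exact (div_pos_iff_of_pos_right hp).1 h0
  · rw [hb, Ne, Real.smoothTransition.eq_one_iff_one_le, not_le] at h1
    exact (div_lt_one hp).1 h1

lemma IsF.bounds (hF : C.IsF F) {y : E × E} (hy : y ∈ Cot R.S) : 0 ≤ F y ∧ F y ≤ 1 := by
  by_cases h0 : F y = 0
  · simp [h0]
  by_cases h1 : F y = 1
  · simp [h1]
  obtain ⟨s, σ, -, -, -, -, -, h⟩ := hF.mid hy h0 h1
  rw [h]
  exact ⟨Real.smoothTransition.nonneg _, Real.smoothTransition.le_one _⟩

lemma IsF.dF (hF : C.IsF F) {σ : E × E} (hσ : σ ∈ Cot R.S) (hc : H σ = c) {s : ℝ} (h0 : 0 < s)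
    (h1 : s < C.η) {u : E × E} (hu : u ∈ Tan (Cot R.S) (C.Ψ (s, σ))) :
    fderiv ℝ F (C.Ψ (s, σ)) u =
      deriv Real.smoothTransition (s / C.η) / C.η * fderiv ℝ C.T (C.Ψ (s, σ)) u := by
  have hp := C.pos
  have hs : |s| < 2 * C.η := by rw [abs_of_pos h0]; linarith
  obtain ⟨hU, hT, -⟩ := C.tube σ hσ hc s hs.le
  have e1 : HasDerivAt Real.smoothTransition (deriv Real.smoothTransition (s / C.η))
      (C.T (C.Ψ (s, σ)) / C.η) := by
    rw [hT]
    exact ((Real.smoothTransition.contDiff (n := 1)).differentiable (by simp) _).hasDerivAt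
  have e2 := HasDerivAt.comp_hasFDerivAt (C.Ψ (s, σ)) (f := fun y => C.T y / C.η) e1
    ((C.T_diff hU).mul_const C.η⁻¹)
  rw [Tan.fderiv_congr hu (hF.1.differentiable (by simp) _) e2.differentiableAt (by
    filter_upwards [C.isOpen_box.mem_nhds ⟨hU, by rwa [hT]⟩] with y hy hyS
    exact (hF.2 y hyS).2.1 hy), e2.fderiv]
  simp only [smul_apply, smul_eq_mul]
  ring

lemma IsF.back (hF : C.IsF F) (hH : ContDiff ℝ ∞ H) {z : ℝ → E × E}
    {P : ℝ} (hz : IsOrbit R.S F z) (hP : 0 < P) (hper : ∀ t, z (t + P) = z t)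
    (h0 : 0 < F (z 0)) (h1 : F (z 0) < 1) :
    ∃ (w : ℝ → E × E) (Q : ℝ), IsOrbit R.S H w ∧ 0 < Q ∧ (∀ t, w (t + Q) = w t) ∧
      ∀ t, H (w t) = c := by
  have hFd : Differentiable ℝ F := hF.1.differentiable (by simp)
  have hp := C.pos
  have hmid := fun t => hF.mid (hz t).1 (by rw [orbit_const hFd hz t]; exact h0.ne')
    (by rw [orbit_const hFd hz t]; exact h1.ne)
  obtain ⟨s, σ0, -, -, hs0, hs1, -, hs⟩ := hmid 0
  have hsa : |s| < 2 * C.η := by rw [abs_of_pos hs0]; linarith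
  set w : ℝ → E × E := fun t => C.Ψ (-s, z t) with hw
  have hwS : ∀ t, w t ∈ Cot R.S := fun t => C.mem _ _ (hz t).1
  have hzw : ∀ t, C.Ψ (s, w t) = z t := fun t => C.cancel s (z t)
  have hwc : ∀ t, H (w t) = c := fun t => by
    obtain ⟨r, σ, a1, a2, a3, a4, a5, a6⟩ := hmid t
    rw [orbit_const hFd hz t, hs] at a6
    have := st_strict.injOn ⟨div_pos hs0 hp, (div_lt_one hp).2 hs1⟩
      ⟨div_pos a3 hp, (div_lt_one hp).2 a4⟩ a6
    have hr : s = r := by field_simp at this; exact this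
    simp only [hw, a5, hr, ← C.add, neg_add_cancel, C.zero, a2]
  obtain ⟨d, c1, c2, -⟩ := st_deriv (div_pos hs0 hp) ((div_lt_one hp).2 hs1)
  have hpos : ∀ t, 0 < fderiv ℝ H (w t) (C.Z (w t)) := fun t => by
    have := (C.tube (w t) (hwS t) (hwc t) 0 (by rw [abs_zero]; linarith)).2.2.1
    rwa [C.zero] at this
  set g : ℝ → ℝ := fun t => Real.exp (-s) * (d / C.η) / fderiv ℝ H (w t) (C.Z (w t)) with hg
  have hder : ∀ t, ∃ a, HasDerivAt w a t ∧
      ∀ u ∈ Tan (Cot R.S) (w t), omega a u = -(g t * fderiv ℝ H (w t) u) := fun t => by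
    obtain ⟨v, hv, ho⟩ := (hz t).2
    obtain ⟨a, ha⟩ : ∃ a, HasDerivAt w a t :=
      ⟨_, HasFDerivAt.comp_hasDerivAt t (f := z) (C.slice (-s) (z t)) hv⟩
    refine ⟨a, ha, fun u hu => ?_⟩
    have hat : a ∈ Tan (Cot R.S) (w t) := Tan.of_hasDerivAt ha (Eventually.of_forall hwS)
    have e1 : fderiv ℝ C.Ψ (s, w t) (0, a) = v := by
      have := HasFDerivAt.comp_hasDerivAt t (f := w) (C.slice s (w t)) ha
      exact this.unique (hv.congr_of_eventuallyEq (Eventually.of_forall hzw))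
    have e2 := C.conf (hwS t) (hwc t) hat hu hs0.le (by linarith)
    have e3 := C.tan s hu
    have e4 := hF.dF (hwS t) (hwc t) hs0 hs1 e3
    have e5 := C.dH_eq hH (hwS t) (hwc t) hsa.le u
    rw [hzw] at e3
    rw [e1, ho _ e3, ← hzw t, e4, c1.deriv] at e2
    rw [← e2, e5, hg]
    have := (hpos t).ne'
    field_simp
  choose a ha hoa using hder
  have hwc' : Continuous w := continuous_iff_continuousAt.2 fun t => (ha t).continuousAt
  have hgc : Continuous g :=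
    continuous_const.div (((hH.continuous_fderiv (by simp)).clm_apply C.hZ.continuous).comp hwc')
      fun t => (hpos t).ne'
  have hgp : ∀ t, 0 < g t := fun t => div_pos (mul_pos (Real.exp_pos _) (div_pos c2 hp)) (hpos t)
  have hwp : ∀ t, w (t + P) = w t := fun t => by simp only [hw, hper]
  obtain ⟨τ, Q, hQ, hτ, hτp⟩ := reparam g hgc hgp P hP fun t => by simp only [hg, hwp]
  refine ⟨fun t => w (τ t), Q, fun t => ⟨hwS _, (g (τ t))⁻¹ • a (τ t),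
    (ha (τ t)).scomp t (hτ t), fun u hu => ?_⟩, hQ, fun t => by simp only [hτp, hwp],
    fun t => hwc _⟩
  rw [omega_smul_left, hoa _ u hu]
  have := (hgp (τ t)).ne'
  field_simp

omit [FiniteDimensional ℝ E] in
/-- A point outside the closed collar above the level. -/
lemma exists_out (C : Col2 R H c) (hH : ContDiff ℝ ∞ H) {σ : E × E} (hσ : σ ∈ Cot R.S)
    (hc : H σ = c) : ∃ y ∈ Cot R.S, c < H y ∧ y ∉ C.K := by
  have hp := C.pos
  have hs : |2 * C.η| ≤ 2 * C.η := by rw [abs_of_pos (by linarith)]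
  refine ⟨C.Ψ (2 * C.η, σ), C.mem _ _ hσ, ?_, fun h => ?_⟩
  · have := C.mono hH hσ hc (a := 0) (b := 2 * C.η) ⟨by linarith, by linarith⟩
      ⟨by linarith, le_rfl⟩ (by linarith)
    simpa only [C.zero, hc] using this
  · have h1 := (C.of_mem_K h).2
    rw [(C.tube σ hσ hc _ hs).2.1, abs_of_pos (by linarith)] at h1
    exact lt_irrefl _ h1

omit [FiniteDimensional ℝ E] in
/-- A point below the level. -/
lemma exists_in (C : Col2 R H c) (hH : ContDiff ℝ ∞ H) {σ : E × E} (hσ : σ ∈ Cot R.S)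
    (hc : H σ = c) : ∃ y ∈ Cot R.S, H y < c := by
  have hp := C.pos
  refine ⟨C.Ψ (-C.η, σ), C.mem _ _ hσ, ?_⟩
  have := C.mono hH hσ hc (a := -C.η) (b := 0) ⟨by linarith, by linarith⟩
    ⟨by linarith, by linarith⟩ (by linarith)
  simpa only [C.zero, hc] using this

end Col2

end Pool.Agent.Wein
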