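import Mathlib
import Pool.Agent.P.MP_e3ee0c_gt.XCore
import Pool.Agent.P.MP_e3ee0c_gt.XCol
import Pool.Agent.P.MP_e3ee0c_gt.WGen

/-! The theorem for an arbitrary compact level with a transverse Liouville field. -/

open Set Filter Topology
open scoped ContDiff InnerProductSpace

namespace Pool.Agent.Wein

variable {E : Type} [NormedAddCommGroup E] [InnerProductSpace ℝ E] [FiniteDimensional ℝ E]

lemma orbit_rev {N : Set E} {F G : E × E → ℝ} {z : ℝ → E × E} (hz : IsOrbit N F z)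
    (h : ∀ t, ∀ u ∈ Tan (Cot N) (z t), fderiv ℝ F (z t) u = -fderiv ℝ G (z t) u) :
    IsOrbit N G fun t => z (-t) := fun t => by
  obtain ⟨v, hv, ho⟩ := (hz (-t)).2
  refine ⟨(hz _).1, (-1 : ℝ) • v, hv.scomp t (hasDerivAt_neg t), fun u hu => ?_⟩
  rw [omega_smul_left, ho u hu, h _ u hu]
  ring

lemma per_rev {X : Type} {z : ℝ → X} {T : ℝ} (h : ∀ t, z (t + T) = z t) (t : ℝ) :
    z (-(t + T)) = z (-t) := by
  have := h (-(t + T))
  simp only [neg_add_rev, neg_add_cancel_comm] at this ⊢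
  exact this.symm

/-- The core theorem for a function that vanishes near any point. -/
theorem xshift (R : Ret E) (hN : IsPathConnected R.S) (Wl : Wall R.S)
    (F : E × E → ℝ) (hF : ContDiff ℝ ∞ F) (h01 : ∀ z ∈ Cot R.S, 0 ≤ F z ∧ F z ≤ 1)
    (V : Set (E × E)) (hV : IsCompact V) (hR : ∀ z ∈ Cot R.S, z ∉ V → F z = 1)
    (z0 : E × E) (hz0 : z0 ∈ Cot R.S) (h0 : ∀ᶠ y in 𝓝 z0, y ∈ Cot R.S → F y = 0) :
    ∃ (z : ℝ → E × E) (T : ℝ), IsOrbit R.S F z ∧ 0 < T ∧ (∀ t, z (t + T) = z t) ∧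
      0 < F (z 0) ∧ F (z 0) < 1 := by
  obtain ⟨s, hs⟩ : ∃ s : E → E, s = fun x => R.P x ((fun _ => (0 : E)) x - -z0.2) := ⟨_, rfl⟩
  have hS : Shift R s := hs ▸ shift_proj R contDiff_const (fun x _ u _ v _ => by simp) _
  have hts := (tr_smooth hS.smooth).continuous
  obtain ⟨B, hB⟩ := (hV.image (tr_smooth hS.neg.smooth).continuous).isBounded.exists_norm_le
  have e0 : tr s (z0.1, 0) = z0 := by
    have a1 := ((R.mem_cot z0).1 hz0).2
    simp [tr, hs, a1]
  have hc : Tendsto (fun x : E => tr s (x, 0)) (𝓝 z0.1) (𝓝 z0) := by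
    have : Continuous fun x : E => tr s (x, 0) := hts.comp (by fun_prop)
    simpa only [e0] using this.tendsto z0.1
  obtain ⟨δ, hδ, hball⟩ := Metric.eventually_nhds_iff.1 (hc.eventually h0)
  obtain ⟨z, T, h1, h2, h3, h4, h5⟩ := xcore R hN Wl (F ∘ tr s) (hF.comp (tr_smooth hS.smooth))
    (fun z hz => h01 _ (hS.mem hz)) (B + 1)
    (fun z hz h => hR _ (hS.mem hz) fun h' => by
      have := hB _ ⟨_, h', rfl⟩
      rw [tr_neg_tr] at this
      linarith [norm_snd_le z])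
    z0.1 hz0.1 (δ / 2) (half_pos hδ)
    (fun x hx h => hball (by rw [dist_eq_norm]; linarith)
      (hS.mem ((R.mem_cot _).2 ⟨hx, map_zero _⟩)))
  exact ⟨fun t => tr s (z t), T, hS.orbit hF h1, h2, fun t => by simp only [h3], h4, h5⟩

/-- A level with a Liouville field that bounds a compact set on one of its sides. -/
theorem xside (R : Ret E) (hN : IsPathConnected R.S) (Wl : Wall R.S)
    (H : E × E → ℝ) (hH : ContDiff ℝ ∞ H) (hne : ∃ z ∈ Cot R.S, H z = 0)
    (hV : IsCompact {z | z ∈ Cot R.S ∧ H z ≤ 0} ∨ IsCompact {z | z ∈ Cot R.S ∧ -H z ≤ 0})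
    (Y : E × E → E × E) (hY : ContDiff ℝ ∞ Y)
    (W : Set (E × E)) (hW : IsOpen W) (hSW : ∀ z ∈ Cot R.S, H z = 0 → z ∈ W)
    (hL : ∀ z ∈ Cot R.S, z ∈ W → Y z ∈ Tan (Cot R.S) z ∧
      ∀ u ∈ Tan (Cot R.S) z, ∀ v ∈ Tan (Cot R.S) z,
        omega (fderiv ℝ Y z u) v + omega u (fderiv ℝ Y z v) = omega u v)
    (hout : ∀ z ∈ Cot R.S, H z = 0 → 0 < fderiv ℝ H z (Y z)) :
    ∃ (z : ℝ → E × E) (T : ℝ), IsOrbit R.S H z ∧ 0 < T ∧ (∀ t, z (t + T) = z t) ∧
      ∀ t, H (z t) = 0 := by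
  have hcl : IsClosed {z | z ∈ Cot R.S ∧ H z = 0} :=
    R.hat.closed.inter (isClosed_eq hH.continuous continuous_const)
  have hK : IsCompact {z | z ∈ Cot R.S ∧ H z = 0} :=
    hV.elim (fun h => h.of_isClosed_subset hcl fun z hz => ⟨hz.1, hz.2.le⟩)
      fun h => h.of_isClosed_subset hcl fun z hz => ⟨hz.1, (neg_eq_zero.2 hz.2).le⟩
  obtain ⟨C⟩ := exists_col2 R H hH 0 hK Y hY W hW hSW hL hout
  obtain ⟨F, hF⟩ : ∃ F, C.IsF F := C.exists_F hH hK
  have hC := C.K_compact hK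
  obtain ⟨σ, hσ, hσ0⟩ := hne
  rcases hV with hV | hV
  · obtain ⟨y, hy, hy0⟩ := C.exists_in hH hσ hσ0
    obtain ⟨z, P, hz, hP, hper, h0, h1⟩ := xshift R hN Wl F hF.1 (fun z hz => hF.bounds hz) _
      (hV.union hC)
      (fun z hz h => (hF.2 z hz).2.2 ⟨not_le.1 fun h' => h (Or.inl ⟨hz, h'⟩),
        fun h' => h (Or.inr h')⟩) y hy
      (by
        filter_upwards [hH.continuous.continuousAt.eventually (gt_mem_nhds hy0)] with w hw hwS
        exact (hF.2 w hwS).1 hw.le)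
    exact hF.back hH hz hP hper h0 h1
  · obtain ⟨y, hy, hy0, hyK⟩ := C.exists_out hH hσ hσ0
    obtain ⟨z, P, hz, hP, hper, h0, h1⟩ := xshift R hN Wl (fun w => 1 - F w)
      (contDiff_const.sub hF.1)
      (fun z hz => ⟨by linarith [(hF.bounds hz).2], by linarith [(hF.bounds hz).1]⟩) _ hV
      (fun z hz h => by
        have : ¬ -H z ≤ 0 := fun h' => h ⟨hz, h'⟩
        rw [(hF.2 z hz).1 (by linarith), sub_zero]) y hy
      (by
        filter_upwards [hH.continuous.continuousAt.eventually (lt_mem_nhds hy0),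
          hC.isClosed.isOpen_compl.mem_nhds hyK] with w hw hw' hwS
        rw [(hF.2 w hwS).2.2 ⟨hw, hw'⟩, sub_self])
    refine hF.back hH (orbit_rev hz fun t u _ => ?_) hP (per_rev hper) ?_ ?_
    · rw [fderiv_const_sub]
      rfl
    · simp only [neg_zero]
      linarith
    · simp only [neg_zero]
      linarith

theorem xgeneral (N : Set E) (hN : IsSubmanifold N) (hc : IsCompact N) (hp : IsPathConnected N)
    (Wl : Wall N) (H : E × E → ℝ) (hH : ContDiff ℝ ∞ H) (c : ℝ) (hne : ∃ z ∈ Cot N, H z = c)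
    (hS : IsCompact {z | z ∈ Cot N ∧ H z = c})
    (Y : E × E → E × E) (hY : ContDiff ℝ ∞ Y)
    (W : Set (E × E)) (hW : IsOpen W) (hSW : ∀ z ∈ Cot N, H z = c → z ∈ W)
    (hL : ∀ z ∈ Cot N, z ∈ W → Y z ∈ Tan (Cot N) z ∧
      ∀ u ∈ Tan (Cot N) z, ∀ v ∈ Tan (Cot N) z,
        omega (fderiv ℝ Y z u) v + omega u (fderiv ℝ Y z v) = omega u v)
    (htr : ∀ z ∈ Cot N, H z = c → fderiv ℝ H z (Y z) ≠ 0) :
    ∃ (z : ℝ → E × E) (T : ℝ), IsOrbit N H z ∧ 0 < T ∧ (∀ t, z (t + T) = z t) ∧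
      ∀ t, H (z t) = c := by
  obtain ⟨R, hR⟩ := exists_ret N hN hc
  subst hR
  obtain ⟨n, hn⟩ := R.rk_const hp
  by_cases h2 : n ≤ 1
  · exact dim_one R (fun x hx => (hn x hx).le.trans h2) H hH c hne hS
      fun z hz h => ⟨Y z, (hL z hz (hSW z hz h)).1, htr z hz h⟩
  have hdim : ∀ x ∈ R.S, 2 ≤ R.rk x := fun x hx => by rw [hn x hx]; omega
  set a : E × E → ℝ := fun z => fderiv ℝ H z (Y z) with ha
  have has : ContDiff ℝ ∞ a := (hH.fderiv_right (m := ∞) (by simp)).clm_apply hY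
  obtain ⟨a1, ha1, hle⟩ := hS.exists_forall_le' (f := fun z => |a z|) (a := 0)
    has.continuous.abs.continuousOn fun z hz => abs_pos.2 (htr z hz.1 hz.2)
  set ε : E × E → ℝ := fun z => 2 * Real.smoothTransition (a z / a1 + 1 / 2) - 1 with hε
  have hεs : ContDiff ℝ ∞ ε :=
    (contDiff_const.mul (Real.smoothTransition.contDiff.comp
      ((has.div_const a1).add contDiff_const))).sub contDiff_const
  have hpos : ∀ z, a1 / 2 < a z → ε z = 1 := fun z h => by
    have : 1 / 2 ≤ a z / a1 := by rw [le_div_iff₀ ha1]; linarith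
    simp only [hε]
    rw [Real.smoothTransition.one_of_one_le (by linarith)]
    norm_num
  have hneg : ∀ z, a z < -(a1 / 2) → ε z = -1 := fun z h => by
    have : a z / a1 ≤ -(1 / 2) := by rw [div_le_iff₀ ha1]; linarith
    simp only [hε]
    rw [Real.smoothTransition.zero_of_nonpos (by linarith)]
    norm_num
  obtain ⟨z0, hz0, hz0c⟩ := hne
  obtain ⟨G, hG, hG0, hcomp, hloc⟩ := exists_side R hdim (fun z => ε z * (H z - c))
    (hεs.mul (hH.sub contDiff_const)) _ {z | a1 / 2 < |a z|} hS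
    (isOpen_lt continuous_const has.continuous.abs)
    (fun z hz => lt_of_lt_of_le (half_lt_self ha1) (hle z hz))
    (fun z hz hO h => ⟨hz, by
      rcases lt_abs.1 (show a1 / 2 < |a z| from hO) with h' | h'
      · rw [hpos z h'] at h
        linarith
      · rw [hneg z (by linarith)] at h
        linarith⟩) z0 hz0 ⟨hz0, hz0c⟩ (by simp [hz0c])
  have hHd : Differentiable ℝ H := hH.differentiable (by simp)
  have hGd : Differentiable ℝ G := hG.differentiable (by simp)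
  have hkey : ∀ σ : ℝ, ∀ z ∈ Cot R.S, G z = 0 → (∀ᶠ y in 𝓝 z, ε y = σ) →
      ∀ v ∈ Tan (Cot R.S) z, fderiv ℝ G z v = σ * fderiv ℝ H z v := fun σ z hz h he v hv => by
    have h1 : HasFDerivAt (fun y => σ * (H y - c)) (σ • fderiv ℝ H z) z :=
      ((hHd z).hasFDerivAt.sub_const c).const_mul σ
    have h3 := Tan.fderiv_congr hv (hGd z) h1.differentiableAt (by
      filter_upwards [(hloc z hz h).2, he] with y hy1 hy2 hyS
      rw [hy1 hyS, hy2])
    rw [h3, h1.fderiv]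
    rfl
  have hp1 : ∀ z ∈ Cot R.S, G z = 0 → 0 < a z → ∀ᶠ y in 𝓝 z, ε y = 1 := fun z hz h h' => by
    have h1 := hle z (hloc z hz h).1
    rw [abs_of_pos h'] at h1
    filter_upwards [has.continuous.continuousAt.eventually
      (lt_mem_nhds (show a1 / 2 < a z by linarith))] with y hy using hpos y hy
  have hn1 : ∀ z ∈ Cot R.S, G z = 0 → a z < 0 → ∀ᶠ y in 𝓝 z, ε y = -1 := fun z hz h h' => by
    have h1 := hle z (hloc z hz h).1
    rw [abs_of_neg h'] at h1
    filter_upwards [has.continuous.continuousAt.eventually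
      (gt_mem_nhds (show a z < -(a1 / 2) by linarith))] with y hy using hneg y hy
  have hW' : ∀ z ∈ Cot R.S, G z = 0 → z ∈ W := fun z hz h => hSW z hz (hloc z hz h).1.2
  have hout : ∀ z ∈ Cot R.S, G z = 0 → 0 < fderiv ℝ G z (Y z) := fun z hz h => by
    have ht := (hL z hz (hW' z hz h)).1
    rcases lt_or_gt_of_ne (htr z hz (hloc z hz h).1.2) with h' | h'
    · rw [hkey (-1) z hz h (hn1 z hz h h') _ ht]
      linarith
    · rw [hkey 1 z hz h (hp1 z hz h h') _ ht]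
      linarith
  obtain ⟨z, T, hz, hT, hper, hlev⟩ := xside R hp Wl G hG ⟨z0, hz0, hG0⟩ hcomp Y hY W hW hW' hL hout
  have hzc : Continuous z := continuous_iff_continuousAt.2 fun t => by
    obtain ⟨v, hv, -⟩ := (hz t).2
    exact hv.continuousAt
  have hH0 : ∀ t, H (z t) = c := fun t => (hloc _ (hz t).1 (hlev t)).1.2
  have hne0 : ∀ t, a (z t) ≠ 0 := fun t => htr _ (hz t).1 (hH0 t)
  have hac : Continuous fun t => a (z t) := has.continuous.comp hzc
  rcases lt_or_gt_of_ne (hne0 0) with h' | h'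
  · have hall : ∀ t, a (z t) < 0 := fun t => by
      by_contra hcon
      obtain ⟨s, hs⟩ := intermediate_value_univ 0 t hac ⟨h'.le, not_lt.1 hcon⟩
      exact hne0 s hs
    refine ⟨fun t => z (-t), T, fun t => ⟨(hz _).1, ?_⟩, hT, fun t => ?_, fun t => hH0 _⟩
    · obtain ⟨v, hv, ho⟩ := (hz (-t)).2
      refine ⟨(-1 : ℝ) • v, hv.scomp t (hasDerivAt_neg t), fun u hu => ?_⟩
      rw [omega_smul_left, ho u hu,
        hkey (-1) _ (hz _).1 (hlev _) (hn1 _ (hz _).1 (hlev _) (hall _)) u hu]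
      ring
    · have := hper (-(t + T))
      simp only [neg_add_rev, neg_add_cancel_comm] at this ⊢
      exact this.symm
  · have hall : ∀ t, 0 < a (z t) := fun t => by
      by_contra hcon
      obtain ⟨s, hs⟩ := intermediate_value_univ t 0 hac ⟨not_lt.1 hcon, h'.le⟩
      exact hne0 s hs
    refine ⟨z, T, fun t => ⟨(hz _).1, ?_⟩, hT, hper, hH0⟩
    obtain ⟨v, hv, ho⟩ := (hz t).2
    refine ⟨v, hv, fun u hu => ?_⟩
    rw [ho u hu, hkey 1 _ (hz _).1 (hlev _) (hp1 _ (hz _).1 (hlev _) (hall _)) u hu, one_mul]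

end Pool.Agent.Wein
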