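import Mathlib
import Pool.Agent.P.MP_e3ee0c_gt.XWall

/-! A wall from continuous maps on the subtype. -/

open Set Filter Topology
open scoped ContDiff InnerProductSpace

namespace Pool.Agent.Wein

variable {E : Type} [NormedAddCommGroup E] [InnerProductSpace ℝ E]

omit [InnerProductSpace ℝ E] in
theorem exists_wall0 (N : Set E) (θ : C(N, UnitAddCircle)) (s : C(UnitAddCircle, N))
    (hs : ∀ t, θ (s t) = t) (d : ℝ) (hd : 0 < d)
    (σ : C({x : N // ‖θ x‖ ≤ d}, C(UnitAddCircle, N))) (h0 : ∀ x, σ x 0 = x.1)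
    (hθ : ∀ x t, θ (σ x t) = θ x.1) (hnt : ∀ x, ¬ (σ x).Nullhomotopic) :
    ∃ Wl : Wall N, ∀ x ∈ Wl.K, ∃ y, ∀ t, Wl.σ (x, t) = σ y t := by
  classical
  set th : E → UnitAddCircle := fun x => if h : x ∈ N then θ ⟨x, h⟩ else 0 with hth
  have e1 : ∀ x : N, th x = θ x := fun x => dif_pos x.2
  have hle : ∀ x (hx : x ∈ N), ‖th x‖ ≤ min d (1 / 8) → ‖θ ⟨x, hx⟩‖ ≤ d := fun x hx h => by
    rw [← e1]
    exact h.trans (min_le_left _ _)
  set sg : E × UnitAddCircle → E := fun p =>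
    if h : p.1 ∈ N ∧ ‖th p.1‖ ≤ min d (1 / 8) then σ ⟨⟨p.1, h.1⟩, hle _ h.1 h.2⟩ p.2 else p.1
    with hsg
  have e2 : ∀ x (hx : x ∈ N) (h : ‖th x‖ ≤ min d (1 / 8)) t,
      sg (x, t) = σ ⟨⟨x, hx⟩, hle _ hx h⟩ t := fun x hx h t => dif_pos ⟨hx, h⟩
  refine ⟨⟨th, fun t => s (t : UnitAddCircle), sg, min d (1 / 8), by positivity, min_le_right _ _,
    ?_, ?_, fun t => (s t).2, fun t => by rw [e1, hs], ?_, fun x hx h t => ?_, fun x hx h => ?_,
    fun x hx h γ hγ => ?_⟩, fun x hx => ⟨_, e2 x hx.1 hx.2⟩⟩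
  · rw [continuousOn_iff_continuous_restrict]
    exact θ.continuous.congr fun x => (e1 x).symm
  · exact uniformContinuous_subtype_val.comp ((CompactSpace.uniformContinuous_of_continuous
      s.continuous).comp (uniformContinuous_addMonoidHom_of_continuous
        (f := QuotientAddGroup.mk' (AddSubgroup.zmultiples (1 : ℝ)))
        QuotientAddGroup.continuous_mk))
  · rw [continuousOn_iff_continuous_restrict]
    have hc : Continuous fun p : ({x | x ∈ N ∧ ‖th x‖ ≤ min d (1 / 8)} ×ˢ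
        (univ : Set UnitAddCircle) : Set (E × UnitAddCircle)) =>
        (σ ⟨⟨p.1.1, p.2.1.1⟩, hle _ p.2.1.1 p.2.1.2⟩ p.1.2 : E) := by
      refine continuous_subtype_val.comp (continuous_eval.comp (Continuous.prodMk
        (σ.continuous.comp (Continuous.subtype_mk (Continuous.subtype_mk ?_ _) _)) ?_)) <;>
        fun_prop
    exact hc.congr fun p => (e2 _ p.2.1.1 p.2.1.2 _).symm
  · rw [e2 x hx h]
    exact ⟨(σ _ t).2, by rw [e1, hθ, ← e1]⟩
  · rw [e2 x hx h, h0]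
  · have : γ = σ ⟨⟨x, hx⟩, hle _ hx h⟩ :=
      ContinuousMap.ext fun t => Subtype.ext ((hγ t).trans (e2 x hx h t))
    rw [this]
    exact hnt _

omit [InnerProductSpace ℝ E] in
theorem exists_wall (N : Set E) (θ : C(N, UnitAddCircle)) (s : C(UnitAddCircle, N))
    (hs : ∀ t, θ (s t) = t) (d : ℝ) (hd : 0 < d)
    (σ : C({x : N // ‖θ x‖ ≤ d}, C(UnitAddCircle, N))) (h0 : ∀ x, σ x 0 = x.1)
    (hθ : ∀ x t, θ (σ x t) = θ x.1) (hnt : ∀ x, ¬ (σ x).Nullhomotopic) : Nonempty (Wall N) :=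
  (exists_wall0 N θ s hs d hd σ h0 hθ hnt).elim fun Wl _ => ⟨Wl⟩

end Pool.Agent.Wein
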